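import Pool.Agent.Work.MP_972ac7_Q.Interface1

set_option autoImplicit false

open MeasureTheory
open scoped ENNReal

noncomputable section

namespace Pool.PQ

open Pool.PL Pool.TFD Pool.TC

section pre

variable {G : Type} [Group G] [TopologicalSpace G] [IsTopologicalGroup G]

theorem DMC_polish [LocallyCompactSpace G] [SecondCountableTopology G] [T2Space G] :
    PolishSpace G := by
  let _ : UniformSpace G := IsTopologicalGroup.rightUniformSpace G
  have : IsRightUniformGroup G := { uniformity_eq := rfl }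
  have : CompleteSpace G := IsRightUniformGroup.completeSpace_of_weaklyLocallyCompactSpace
  have : (uniformity G).IsCountablyGenerated := by
    have h : uniformity G = Filter.comap (fun p : G × G => p.2 * p.1⁻¹) (nhds (1 : G)) := rfl
    rw [h]
    infer_instance
  have : TopologicalSpace.IsCompletelyMetrizableSpace G := inferInstance
  infer_instance

theorem DMC_borel [LocallyCompactSpace G] [SecondCountableTopology G] [T2Space G]
    [MeasurableSpace G] [BorelSpace G] (Γ : Subgroup G) (h : DiscreteTopology Γ) :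
    BorelSpace (G ⧸ Γ) := by
  have : PolishSpace G := DMC_polish
  have := h
  have : IsClosed (Γ : Set G) := Subgroup.isClosed_of_discrete
  exact CosetSpace.borelSpace

theorem DMC_smul [LocallyCompactSpace G] [SecondCountableTopology G] [T2Space G]
    [MeasurableSpace G] [BorelSpace G] (Γ : Subgroup G) (h : DiscreteTopology Γ) :
    Measurable fun p : G × (G ⧸ Γ) => p.1⁻¹ • p.2 := by
  have := DMC_borel Γ h
  have h1 : Continuous fun p : G × (G ⧸ Γ) => p.1⁻¹ • p.2 :=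
    (continuous_inv.comp continuous_fst).smul continuous_snd
  exact h1.measurable

end pre

theorem p_DMC : Stmt_DMC := by
  intro G _ _ _ _ _ _ _ _ Γ μ m c hQ R₁ R₂ ν₁ ν₂ hν₁ hν₂ hR₁ hR₂ f
  have := hν₁
  have := hν₂
  have := hQ.prob
  have hsm := DMC_smul Γ hQ.disc
  -- measurability
  have hfm : Measurable fun x : G ⧸ Γ => ‖f x‖ₑ := (Lp.stronglyMeasurable f).measurable.enorm
  have hact : ∀ x : G ⧸ Γ, Measurable fun g : G => g⁻¹ • x := fun x =>
    hsm.comp (measurable_id.prodMk measurable_const)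
  -- the set
  obtain ⟨N, hN, hNm, hN0⟩ : ∃ N : Set (G ⧸ Γ), (∀ y, y ∉ N → ‖(R₂ f) y‖ₑ ≤
      ∫⁻ g, ‖f (g⁻¹ • y)‖ₑ ∂ν₂) ∧ MeasurableSet N ∧ m N = 0 := by
    have h1 := hR₂ f
    rw [ae_iff] at h1
    refine ⟨toMeasurable m {y | ¬ ‖(R₂ f) y‖ₑ ≤ ∫⁻ g, ‖f (g⁻¹ • y)‖ₑ ∂ν₂}, ?_,
      measurableSet_toMeasurable _ _, ?_⟩
    · intro y hy
      by_contra hc
      exact hy (subset_toMeasurable _ _ hc)
    · rw [measure_toMeasurable]
      exact h1
  have h2 : ∀ᵐ x ∂m, ∀ᵐ g ∂ν₁, g⁻¹ • x ∉ N := by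
    have hms : MeasurableSet {p : G × (G ⧸ Γ) | p.1⁻¹ • p.2 ∉ N} := hsm hNm.compl
    refine (Measure.ae_ae_comm (μ := ν₁) (ν := m) (p := fun g x => g⁻¹ • x ∉ N) hms).1 ?_
    refine Filter.Eventually.of_forall fun g => ?_
    have h3 : ∀ᵐ y ∂m, y ∉ N := by
      rw [ae_iff]
      simpa using hN0
    exact (hQ.pres g⁻¹).quasiMeasurePreserving.ae h3
  filter_upwards [hR₁ (R₂ f), h2] with x hx1 hx2
  have h4 : ∫⁻ g, ‖f (g⁻¹ • x)‖ₑ ∂(cv ν₁ ν₂) = ∫⁻ g, ∫⁻ k, ‖f (k⁻¹ • g⁻¹ • x)‖ₑ ∂ν₂ ∂ν₁ := by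
    unfold cv
    have h5 : Measurable fun g : G => ‖f (g⁻¹ • x)‖ₑ := hfm.comp (hact x)
    have h6 : Measurable fun p : G × G => p.1 * p.2 := measurable_fst.mul measurable_snd
    have h7 : Measurable fun p : G × G => ‖f ((p.1 * p.2)⁻¹ • x)‖ₑ := h5.comp h6
    rw [lintegral_map h5 h6, lintegral_prod _ h7.aemeasurable]
    refine lintegral_congr fun g => lintegral_congr fun k => ?_
    rw [mul_inv_rev, mul_smul]
  rw [h4]
  show ‖(R₁ (R₂ f)) x‖ₑ ≤ _
  refine hx1.trans (lintegral_mono_ae ?_)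
  filter_upwards [hx2] with g hg
  exact hN _ hg

end Pool.PQ
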