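import Pool.Agent.Work.MP_972ac7_Q.Defs

set_option autoImplicit false

/-! # THEOREM PP (MP_972ac7_al), part I: block statements (analysis)

`G = ∏ SL2 (k i)`, `k i` arbitrary local fields (real, complex, nonarchimedean; structure `LG`), `Γ` a cocompact subgroup
with the counting property (`LatG`).  Conclusion (FNQ): `FTGap Γ` if there are at least two factors.

Files `B_X.lean` in `Pool/Agent/Work/MP_972ac7_Q`, `import Pool.Agent.Work.MP_972ac7_Q.Interface1`,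
namespace `Pool.PQ`, `open Pool.PL Pool.TFD Pool.TC`, `theorem p_X (hA : Stmt_A) ... : Stmt_X` with exactly the blocks of the
column `uses` as hypotheses in that order.  Auxiliary lemmas with the prefix `X_`.  Definitions: `Defs.lean` (here) and
`Pool/Agent/Work/MP_972ac7_P/Defs.lean` (`SL2 mnm nm dnm upp low dia GG splitE`).

THE PROOF.  `T` = convolution with a symmetric density `τ` on the factor `W` (Hk: `τ * 1/|g| ≤ ρ /|g|`, `ρ` close to `1/|supp τ|`), `χ` = a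
continuous cutoff of `T` at `1/2` (CFC).  TRV: for `v ≠ W` the factor `v` acts trivially on `E` = the closure of the range of `χ`.
Otherwise (WPK) there is a unit vector `F = π(upp t₀) h - h` in `E`, `h` Lipschitz, with `|⟨π (upp t) F, F⟩| ≤ C/|t|` (as
`t + t₀ = α² t` and `upp (α² t) = dia α upp t (dia α)⁻¹`), so the `Q / C` vectors `π (upp t_z) π (dia θ⁻¹) F` are almost orthogonal and
smooth at the scale `δ`, `Q = δ^(-e)`.  EST: by the kernel of `T^n S` and the counting property the sum of `‖T^n S f_j‖²`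
is at most `C Λ Q^3 ρ^(2n)`; it is at least `4^(-n) Q / C`; contradiction for `n` about `(11/10) log Q / log A`. -/

open MeasureTheory
open scoped ENNReal

noncomputable section

namespace Pool.PQ

open Pool.PL Pool.TFD Pool.TC

/-! ### The groups -/

/-- **TP2** (150).  `SL2 k` is a closed subset of the matrices, the matrices are a proper metric space.  `nm` and `dnm` are continuous. -/
def Stmt_TP2 : Prop :=
  ∀ (k : Type) [NormedField k] [ProperSpace k],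
    LocallyCompactSpace (SL2 k) ∧ SecondCountableTopology (SL2 k) ∧ T2Space (SL2 k) ∧
    (∀ R : ℝ, IsCompact {g : SL2 k | nm g ≤ R}) ∧
    (∀ U ∈ nhds (1 : SL2 k), ∃ r : ℝ, 0 < r ∧ {g : SL2 k | dnm g ≤ r} ⊆ U) ∧
    (∀ r : ℝ, 0 < r → {g : SL2 k | dnm g ≤ r} ∈ nhds (1 : SL2 k))

/-- **TG2** (150), uses TP2.  Finite products (compare `Pool/Agent/Work/MP_972ac7_P/B_PTO.lean`). -/
def Stmt_TG2 : Prop :=
  ∀ (ι : Type) [Finite ι] (k : ι → Type) [∀ i, NormedField (k i)] [∀ i, ProperSpace (k i)],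
    LocallyCompactSpace (GG k) ∧ SecondCountableTopology (GG k) ∧ T2Space (GG k) ∧
    BorelSpace (GG k) ∧ (∀ R : ℝ, IsCompact {g : GG k | ∀ i, nm (g i) ≤ R}) ∧
    (∀ U ∈ nhds (1 : GG k), ∃ r : ℝ, 0 < r ∧ {g : GG k | ∀ i, dnm (g i) ≤ r} ⊆ U) ∧
    (∀ r : ℝ, 0 < r → {g : GG k | ∀ i, dnm (g i) ≤ r} ∈ nhds (1 : GG k))

/-- **GN2** (80).  Gauss elimination (see `B_GEN.lean` of P, part (a)). -/
def Stmt_GN2 : Prop :=
  ∀ (k : Type) [NormedField k] (H : Subgroup (SL2 k)), (∀ x, upp x ∈ H) → (∀ x, low x ∈ H) → H = ⊤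

/-- **CTG** (150), uses GN2.  Contractible elements: conjugate `upp x`, `low x` by `dia (ϑ^n)`, `dia (ϑ^(-n))` (see `B_CTR.lean`
of P). -/
def Stmt_CTG : Prop :=
  (∀ (k : Type) [NormedField k] (_ : LG k), ContrGen (SL2 k)) ∧
  ∀ (ι : Type) [Finite ι] (k : ι → Type) [∀ i, NormedField (k i)] (_ : ∀ i, LG (k i)),
    ContrGen (GG k)

/-- **UN2** (200), uses GN2 TG2 TP2.  Unimodularity (see `B_UNI.lean` of P: `upp x = [dia ϑ, upp y]` with `(ϑ^2 - 1) y = x`,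
similarly `low x`).  Inversion: `μ.inv` is a Haar measure too, `μ.inv = c • μ`, and `c = 1` by a symmetric compact
neighbourhood of `1`. -/
def Stmt_UN2 : Prop :=
  (∀ (k : Type) [NormedField k] [ProperSpace k] (_ : LG k) (μ : Measure (SL2 k)),
    μ.IsHaarMeasure → μ.IsMulRightInvariant ∧ μ.IsInvInvariant) ∧
  ∀ (ι : Type) [Finite ι] (k : ι → Type) [∀ i, NormedField (k i)] [∀ i, ProperSpace (k i)]
    (_ : ∀ i, LG (k i)) (μ : Measure (GG k)),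
    μ.IsHaarMeasure → μ.IsMulRightInvariant ∧ μ.IsInvInvariant

/-! ### The quotient -/

/-- **QMS** (300).  `U` an open neighbourhood of `1` with `U⁻¹ U ∩ Γ = 1`, `G = ⋃ g_j U` (countable), `D` = the union of the
`g_j U` minus the `g_i U Γ`, `i < j`: a measurable set which meets every coset `g Γ` in exactly one point.
`μ D ≤ μ K`: `D` is the union of the `D ∩ K γ` and the sets `(D ∩ K γ) γ⁻¹` in `K` are disjoint.  `c = μ D`, `m` = the image of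
`c⁻¹ μ` restricted to `D` (see `B_MSR.lean` of P for the invariance).  Weil: `∫ φ dμ = ∑ γ, ∫_D φ (g γ) dμ`.  `Γ` is countable as a discrete
subspace of a second countable space; `c ≠ 0` as countably many translates of `D` cover `G`. -/
def Stmt_QMS : Prop :=
  ∀ (G : Type) [Group G] [TopologicalSpace G] [IsTopologicalGroup G] [LocallyCompactSpace G]
    [SecondCountableTopology G] [T2Space G] [MeasurableSpace G] [BorelSpace G]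
    (Γ : Subgroup G) (μ : Measure G) (K : Set G), μ.IsHaarMeasure → μ.IsMulRightInvariant →
    μ.IsInvInvariant → DiscreteTopology Γ → IsCompact K → (∀ g : G, ∃ γ ∈ Γ, g * γ ∈ K) →
    ∃ (m : Measure (G ⧸ Γ)) (c : ℝ≥0∞), QD Γ μ m c

/-- **DS2** (150), uses TG2.  Discreteness: `W ≠ v`; the neighbourhood `dnm (g i) ≤ 1` of `1` contains finitely many elements of `Γ`
(`LatG.count` with `g = 1`, `R = 2`, `Q = 1`, `Y = 4`: `nm ≤ 1 + dnm ≤ 2`). -/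
def Stmt_DS2 : Prop :=
  ∀ (ι : Type) [Fintype ι] [DecidableEq ι] (k : ι → Type) [∀ i, NormedField (k i)]
    [∀ i, ProperSpace (k i)] (L : ∀ i, LG (k i)) (Γ : Subgroup (GG k)), Nontrivial ι →
    LatG L Γ → DiscreteTopology Γ

/-- **KPX** (250).  The representation: `Lp.compMeasurePreservingₗᵢ`; a discrete subgroup of a T2 group is closed, `G ⧸ Γ` is T2 and
second countable, its quotient sigma-algebra is Borel (`CosetSpace.borelSpace`), strong continuity: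
`Lp.instContinuousSMulDomMulAct` (or `Lp.compMeasurePreserving` and `Filter.Tendsto.compMeasurePreservingLp`). -/
def Stmt_KPX : Prop :=
  ∀ (G : Type) [Group G] [TopologicalSpace G] [IsTopologicalGroup G] [LocallyCompactSpace G]
    [SecondCountableTopology G] [T2Space G] [MeasurableSpace G] [BorelSpace G]
    (Γ : Subgroup G) (μ : Measure G) (m : Measure (G ⧸ Γ)) (c : ℝ≥0∞), QD Γ μ m c →
    ∃ π : G →* (Lp ℂ 2 m ≃ₗᵢ[ℂ] Lp ℂ 2 m), KP m π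

/-- **CST** (200).  Invariant functions are constant.  `f (g⁻¹ • x) = f x` for almost all `(g, x)` (Fubini), so for some `x₀ = g₀ Γ`
for almost all `g`, with `z = f x₀`: the set `{h | f (h Γ) ≠ z}` is a null set (inversion and right invariance of `μ`), so by `QD.weil`
`{f ≠ z}` is a null set.  (`f` has a measurable representative.) -/
def Stmt_CST : Prop :=
  ∀ (G : Type) [Group G] [TopologicalSpace G] [IsTopologicalGroup G] [LocallyCompactSpace G]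
    [SecondCountableTopology G] [T2Space G] [MeasurableSpace G] [BorelSpace G]
    (Γ : Subgroup G) (μ : Measure G) (m : Measure (G ⧸ Γ)) (c : ℝ≥0∞), QD Γ μ m c →
    ∀ π : G →* (Lp ℂ 2 m ≃ₗᵢ[ℂ] Lp ℂ 2 m), KP m π → ∀ f : Lp ℂ 2 m, (∀ g, π g f = f) →
    ∃ z : ℂ, ⇑f =ᵐ[m] fun _ => z

/-! ### Weak integrals, domination, kernels -/

/-- **WIX** (150).  Existence: `R f = ∫ g, π g f ∂ν` (Bochner integral of a bounded continuous function, second countable group, so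
strongly measurable), `LinearMap.mkContinuous`, `‖R‖ ≤ 1`. -/
def Stmt_WIX : Prop :=
  ∀ (G : Type) [Group G] [TopologicalSpace G] [IsTopologicalGroup G]
    [SecondCountableTopology G] [MeasurableSpace G] [BorelSpace G]
    (H : Type) [NormedAddCommGroup H] [InnerProductSpace ℂ H] [CompleteSpace H]
    (π : G →* (H ≃ₗᵢ[ℂ] H)), (∀ f, Continuous fun g => π g f) →
    ∀ ν : Measure G, IsProbabilityMeasure ν → ∃ R : H →L[ℂ] H, WI π ν R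

/-- **WIP** (200).  Properties, all from the weak formula. -/
def Stmt_WIP : Prop :=
  ∀ (G : Type) [Group G] [TopologicalSpace G] [IsTopologicalGroup G]
    [SecondCountableTopology G] [MeasurableSpace G] [BorelSpace G]
    (H : Type) [NormedAddCommGroup H] [InnerProductSpace ℂ H] [CompleteSpace H]
    (π : G →* (H ≃ₗᵢ[ℂ] H)), (∀ f, Continuous fun g => π g f) →
    ∀ ν : Measure G, IsProbabilityMeasure ν → ∀ R : H →L[ℂ] H, WI π ν R →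
    ‖R‖ ≤ 1 ∧
    (∀ S : H →L[ℂ] H, (∀ᵐ g ∂ν, ∀ f, S (π g f) = π g (S f)) → S * R = R * S) ∧
    (∀ (f : H) (ε : ℝ), (∀ᵐ g ∂ν, ‖π g f - f‖ ≤ ε) → ‖R f - f‖ ≤ ε) ∧
    (ν.map (fun g => g⁻¹) = ν → IsSelfAdjoint R)

/-- **DOX** (250).  Domination.  `x ↦ ∫ f (g⁻¹ • x) dν` is integrable; by Fubini its integral over a measurable set `s` is
`∫ ⟨1_s, π g f⟩ dν = ⟨1_s, R f⟩`, so it is equal to `R f` almost everywhere
(`Integrable.ae_eq_of_forall_setIntegral_eq`). -/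
def Stmt_DOX : Prop :=
  ∀ (G : Type) [Group G] [TopologicalSpace G] [IsTopologicalGroup G] [LocallyCompactSpace G]
    [SecondCountableTopology G] [T2Space G] [MeasurableSpace G] [BorelSpace G]
    (Γ : Subgroup G) (μ : Measure G) (m : Measure (G ⧸ Γ)) (c : ℝ≥0∞), QD Γ μ m c →
    ∀ π : G →* (Lp ℂ 2 m ≃ₗᵢ[ℂ] Lp ℂ 2 m), KP m π →
    ∀ ν : Measure G, IsProbabilityMeasure ν → ∀ R, WI π ν R → Dom m R ν

/-- **DMC** (200).  Composition.  `h = R₂ f`, `‖h y‖ ≤ ∫ ‖f (g⁻¹ y)‖ dν₂` outside a null set `N`; for almost all `x`,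
`g⁻¹ x ∉ N` for `ν₁`-almost all `g` (Fubini and invariance of `m`). -/
def Stmt_DMC : Prop :=
  ∀ (G : Type) [Group G] [TopologicalSpace G] [IsTopologicalGroup G] [LocallyCompactSpace G]
    [SecondCountableTopology G] [T2Space G] [MeasurableSpace G] [BorelSpace G]
    (Γ : Subgroup G) (μ : Measure G) (m : Measure (G ⧸ Γ)) (c : ℝ≥0∞), QD Γ μ m c →
    ∀ (R₁ R₂ : Lp ℂ 2 m →L[ℂ] Lp ℂ 2 m) (ν₁ ν₂ : Measure G), IsFiniteMeasure ν₁ →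
    IsFiniteMeasure ν₂ → Dom m R₁ ν₁ → Dom m R₂ ν₂ → Dom m (R₁ * R₂) (cv ν₁ ν₂)

/-- **BSA** (250).  Pointwise Bessel inequality.  `x = g₀ Γ`.  `∫ ψ(h) φ(h⁻¹ g₀ Γ) dh = ∫ ψ(g₀ u⁻¹) φ(u Γ) du = c ∫ φ κ dm`, `κ = sG Γ (u ↦ ψ(g₀ u⁻¹))`.
Cauchy-Schwarz, and `c ∫ κ² dm = ∫ ψ(g₀ u⁻¹) κ(u Γ) du = ∑ γ, ∫ ψ(t) ψ(g₀ γ⁻¹ g₀⁻¹ t) dt ≤ B` (`t = g₀ u⁻¹`). -/
def Stmt_BSA : Prop :=
  ∀ (G : Type) [Group G] [TopologicalSpace G] [IsTopologicalGroup G] [LocallyCompactSpace G]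
    [SecondCountableTopology G] [T2Space G] [MeasurableSpace G] [BorelSpace G]
    (Γ : Subgroup G) (μ : Measure G) (m : Measure (G ⧸ Γ)) (c : ℝ≥0∞), QD Γ μ m c →
    ∀ (ψ : G → ℝ≥0∞), Measurable ψ → ∀ B : ℝ≥0∞,
    (∀ g : G, ∑' γ : Γ, ∫⁻ u, ψ u * ψ (g * γ * g⁻¹ * u) ∂μ ≤ B) →
    ∀ φ : G ⧸ Γ → ℝ≥0∞, Measurable φ → ∀ x : G ⧸ Γ,
    (∫⁻ h, φ (h⁻¹ • x) ∂(μ.withDensity ψ)) ^ 2 ≤ c * B * ∫⁻ y, φ y ^ 2 ∂m

/-- **BSB** (200), uses BSA.  For every `a` in a countable dense set of coefficients `|∑ a_j (R f_j) x|² ≤ c B ‖∑ a_j f_j‖² ≤ c B Λ |a|²` for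
almost all `x`, so for all `a`; `a_j` = the conjugate of `(R f_j) x`: `∑ |R f_j x|² ≤ c B Λ`; integrate. -/
def Stmt_BSB : Prop :=
  ∀ (G : Type) [Group G] [TopologicalSpace G] [IsTopologicalGroup G] [LocallyCompactSpace G]
    [SecondCountableTopology G] [T2Space G] [MeasurableSpace G] [BorelSpace G]
    (Γ : Subgroup G) (μ : Measure G) (m : Measure (G ⧸ Γ)) (c : ℝ≥0∞), QD Γ μ m c →
    ∀ (ψ : G → ℝ≥0∞), Measurable ψ → ∀ B : ℝ≥0∞, B ≠ ∞ →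
    (∀ g : G, ∑' γ : Γ, ∫⁻ u, ψ u * ψ (g * γ * g⁻¹ * u) ∂μ ≤ B) →
    ∀ R : Lp ℂ 2 m →L[ℂ] Lp ℂ 2 m, Dom m R (μ.withDensity ψ) →
    ∀ (J : ℕ) (f : Fin J → Lp ℂ 2 m) (Λ : ℝ), 0 ≤ Λ → GrLe f Λ →
    ∑ j, ENNReal.ofReal (‖R (f j)‖ ^ 2) ≤ c * B * ENNReal.ofReal Λ

/-- **KRN** (250), uses TG2 TP2.  The product of the Haar measures, transported by the isomorphism and homeomorphism
`splitE k W` (`Homeomorph.piSplitAt`, see `B_FIN.lean` of P), and the convolution of measures on the two factors. -/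
def Stmt_KRN : Prop :=
  ∀ (ι : Type) [Fintype ι] [DecidableEq ι] (k : ι → Type) [∀ i, NormedField (k i)]
    [∀ i, ProperSpace (k i)] (W : ι) (μA : Measure (SL2 (k W))) (μB : Measure (BB k W)),
    μA.IsHaarMeasure → μB.IsHaarMeasure →
    ((μA.prod μB).map (splitE k W).symm).IsHaarMeasure ∧
    ∀ (θ : SL2 (k W) → ℝ≥0∞) (σ : BB k W → ℝ≥0∞), Measurable θ → Measurable σ →
      cv ((μA.withDensity θ).map fun a => (Pi.mulSingle W a : GG k))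
        ((μB.withDensity σ).map (jB k W)) =
        ((μA.prod μB).map (splitE k W).symm).withDensity
          (fun g : GG k => θ (g W) * σ (fun i => g i.1))

/-- **PWR** (250), uses TG2 TP2 UN2 DOX DMC.  Powers of `T`.  `n = 0`: DOX.  Step: `T^(n+2) = T^(n+1) * T`, DMC, and
`cv` of the images of `θ μA` and `τ μA` is the image of `(PP μA τ θ) μA` (substitute `a = c b⁻¹`, `τ b⁻¹ = τ b`, `μA` is right and inversion
invariant). -/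
def Stmt_PWR : Prop :=
  ∀ (ι : Type) [Fintype ι] [DecidableEq ι] (k : ι → Type) [∀ i, NormedField (k i)]
    [∀ i, ProperSpace (k i)] (L : ∀ i, LG (k i)) (Γ : Subgroup (GG k)) (μ : Measure (GG k))
    (m : Measure (GG k ⧸ Γ)) (c : ℝ≥0∞), QD Γ μ m c →
    ∀ π : GG k →* (Lp ℂ 2 m ≃ₗᵢ[ℂ] Lp ℂ 2 m), KP m π →
    ∀ (W : ι) (μA : Measure (SL2 (k W))), μA.IsHaarMeasure → ∀ (τ : SL2 (k W) → ℝ≥0∞) (R ρ : ℝ),
    Hk (L W) μA τ R ρ → ∀ T : Lp ℂ 2 m →L[ℂ] Lp ℂ 2 m,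
    WI π ((μA.withDensity τ).map fun a => (Pi.mulSingle W a : GG k)) T → ∀ n : ℕ,
    Dom m (T ^ (n + 1)) ((μA.withDensity ((PP μA τ)^[n] τ)).map
      fun a => (Pi.mulSingle W a : GG k))

/-- **TAU** (150).  `n = 0`: `τ ≤ C_b` and `nm z ^ e ≤ R` on the support.  Step: `Hk.avg`; if `PP τ φ z ≠ 0` then
`φ (z u) ≠ 0`, `τ u ≠ 0` for some `u` and `nm z ≤ 2 nm (z u) nm u⁻¹`. -/
def Stmt_TAU : Prop :=
  ∀ (k : Type) [NormedField k] [ProperSpace k] (L : LG k) (μ : Measure (SL2 k)),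
    μ.IsHaarMeasure → ∀ (τ : SL2 k → ℝ≥0∞) (R ρ : ℝ), Hk L μ τ R ρ → ∃ C : ℝ, 0 ≤ C ∧
    ∀ (n : ℕ) (z : SL2 k),
    (PP μ τ)^[n] τ z ≤ ENNReal.ofReal (C * ρ ^ n * (nm z ^ L.e)⁻¹) ∧
    ((PP μ τ)^[n] τ z ≠ 0 → nm z ^ L.e ≤ (2 ^ L.e * R) ^ (n + 1))

/-- **PPI** (150), uses UN2 TP2.  `∫ (PP μ τ ψ)(u) φ(z u) du = ∫ ψ(u) (PP μ τ φ)(z u) du` (Fubini, `u ↦ u t⁻¹`, `τ t⁻¹ = τ t`, inversion invariance),
`PP` commutes with left translations; induction; `∫ τ(u) φ(z u) du = PP μ τ φ z`. -/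
def Stmt_PPI : Prop :=
  ∀ (k : Type) [NormedField k] [ProperSpace k] (L : LG k) (μ : Measure (SL2 k)),
    μ.IsHaarMeasure → ∀ (τ : SL2 k → ℝ≥0∞) (R ρ : ℝ), Hk L μ τ R ρ → ∀ (n : ℕ) (z : SL2 k),
    ∫⁻ u, ((PP μ τ)^[n] τ) u * ((PP μ τ)^[n] τ) (z * u) ∂μ = (PP μ τ)^[2 * n + 1] τ z

/-- **VLB** (300), uses TG2 TP2.  The set with level `r` at all places is covered by at most `C δ^(-3e)` left translates of `UU k W v r δ` by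
elements of the factor `v`: for `g, g'` in `{dnm ≤ r}` (`r ≤ 1/4`) with the entries `00, 01, 10` in the same cells of `LG.cov` for the
radius `δ/32`, the entry `11 = (1 + bc)/a` differs by at most `3 δ/32`, so `dnm (g⁻¹ g') ≤ δ`. -/
def Stmt_VLB : Prop :=
  ∀ (ι : Type) [Fintype ι] [DecidableEq ι] (k : ι → Type) [∀ i, NormedField (k i)]
    [∀ i, ProperSpace (k i)] (L : ∀ i, LG (k i)) (W v : ι), W ≠ v →
    ∀ μB : Measure (BB k W), μB.IsHaarMeasure → ∀ r : ℝ, 0 < r → r ≤ 1 / 4 →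
    ∃ c : ℝ, 0 < c ∧ ∀ δ : ℝ, 0 < δ → δ ≤ r →
    ENNReal.ofReal (c * δ ^ (3 * (L v).e)) ≤ μB (UU k W v r δ) ∧ μB (UU k W v r δ) ≠ ∞

/-- **SMQ** (300).  Summation over the dyadic shells `2^j < nm^e ≤ 2^(j+1)`, `0 ≤ j`, `2^j ≤ Y` (and `nm ^ e ≤ 1`; always `nm ^ e ≥ 1/2` as
`1 = |det| ≤ 2 nm²`): `∑ 2^(-j) C (1 + (2^(j+1)/Q)^(5/3) (1 + 2^(j+1)/Q²)) ≤ C' (1 + (1 + 2Y/Q²) Q^(-5/3) Y^(2/3))`, bounded as
`Y ≤ K Q^(11/5)`. -/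
def Stmt_SMQ : Prop :=
  ∀ (ι : Type) [Fintype ι] [DecidableEq ι] (k : ι → Type) [∀ i, NormedField (k i)]
    (L : ∀ i, LG (k i)) (Γ : Subgroup (GG k)), LatG L Γ → ∀ W v : ι, W ≠ v →
    ∀ R K : ℝ, 1 ≤ K → ∃ C : ℝ, 0 < C ∧ ∀ g : GG k, (∀ i, nm (g i) ≤ R) → ∀ Q Y : ℝ, 1 ≤ Q →
    1 ≤ Y → Y ^ 5 ≤ K * Q ^ 11 →
    ∑' γ : Γ, (cs L Γ W v R g Q Y).indicator
      (fun γ => ENNReal.ofReal ((nm ((g * γ * g⁻¹ : GG k) W) ^ (L W).e)⁻¹)) γ ≤ ENNReal.ofReal C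

/-- **EST** (350), uses TG2 TP2 UN2 DOX DMC BSB KRN PWR TAU PPI VLB SMQ.  The main estimate.  `μ' = ` the Haar measure of KRN is a multiple
of `μ`, so `QD Γ μ' m c'` for some `c'`.  `T^(n+1) S` is dominated (PWR, DOX, DMC, KRN) by `ψ μ'`,
`ψ g = τ_n (g W) σ (g ≠ W)`, `τ_n = (PP μA τ)^[n] τ`, `σ = 1_U / μB U`, `U = UU k W v r δ`.  For `z = g γ g⁻¹`:
`∫ ψ(u) ψ(z u) du ≤ (PP μA τ)^[2n+1] τ (z W) * (μB U)⁻¹ 1[z_B ∈ U U⁻¹]` (PPI).  If this is not 0: `dnm (z v) ≤ 8 δ`,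
`nm (z u) ≤ 8` for the others, `nm (z W)^e ≤ A^(2n+2) = Y` (TAU).  With `Q = (8δ)^(-e) ≥ 1` and `R` at least 8 and the bound of
`LatG.cpt` (replace `g` by `g γ₀` with bounded entries; this permutes `Γ`): SMQ (`K = 8^22`).  Together with VLB: the sum over `γ`
is at most `C ρ^(2n) δ^(-3e)`; BSB. -/
def Stmt_EST : Prop :=
  ∀ (ι : Type) [Fintype ι] [DecidableEq ι] (k : ι → Type) [∀ i, NormedField (k i)]
    [∀ i, ProperSpace (k i)] (L : ∀ i, LG (k i)) (Γ : Subgroup (GG k)), LatG L Γ →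
    ∀ (μ : Measure (GG k)) (m : Measure (GG k ⧸ Γ)) (c : ℝ≥0∞), QD Γ μ m c →
    ∀ π : GG k →* (Lp ℂ 2 m ≃ₗᵢ[ℂ] Lp ℂ 2 m), KP m π → ∀ W v : ι, W ≠ v →
    ∀ (μA : Measure (SL2 (k W))) (μB : Measure (BB k W)), μA.IsHaarMeasure → μB.IsHaarMeasure →
    ∀ (τ : SL2 (k W) → ℝ≥0∞) (RR ρ : ℝ), Hk (L W) μA τ RR ρ → ∀ T : Lp ℂ 2 m →L[ℂ] Lp ℂ 2 m,
    WI π ((μA.withDensity τ).map fun a => (Pi.mulSingle W a : GG k)) T →
    ∀ r : ℝ, 0 < r → r ≤ 1 / 8 → ∃ C : ℝ, 0 < C ∧ ∀ (δ : ℝ) (n : ℕ), 0 < δ → δ ≤ r →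
    ((2 ^ (L W).e * RR) ^ (2 * n + 2)) ^ 5 * (δ ^ (L v).e) ^ 11 ≤ 1 →
    ∀ S : Lp ℂ 2 m →L[ℂ] Lp ℂ 2 m, WI π (((μB (UU k W v r δ))⁻¹ •
      μB.restrict (UU k W v r δ)).map (jB k W)) S →
    ∀ (J : ℕ) (f : Fin J → Lp ℂ 2 m) (Λ : ℝ), 0 ≤ Λ → GrLe f Λ →
    (∑ j, ‖(T ^ (n + 1)) (S (f j))‖ ^ 2) * (δ ^ (L v).e) ^ 3 ≤ C * Λ * ρ ^ (2 * n)

/-! ### Hilbert space lemmas -/

/-- **CFC** (250).  `χ = cfc c T`, `c x = 0` for `x ≤ 1/2`, `1` for `x ≥ 3/4`, linear between (`T` self-adjoint, spectrum in `[-1, 1]`;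
Mathlib: `cfc`, `Commute.cfc`, C-star-algebra structure on `H →L[ℂ] H`).  `x² c(x)² ≥ c(x)²/4`: `‖T χ v‖ ≥ ‖χ v‖/2`, iterate as
`T χ v = χ (T v)`.  `1 - c(x) = (1 - x) d(x)`, `d` continuous: third item.  `x ≤ 3/4 + c(x)`, and the last item: `⟨T v, v⟩ ≤ 3/4 ‖v‖² +
⟨χ v, v⟩`. -/
def Stmt_CFC : Prop :=
  ∀ (H : Type) [NormedAddCommGroup H] [InnerProductSpace ℂ H] [CompleteSpace H]
    (T : H →L[ℂ] H), IsSelfAdjoint T → ‖T‖ ≤ 1 → ∃ χ : H →L[ℂ] H, IsSelfAdjoint χ ∧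
    (∀ S : H →L[ℂ] H, S * T = T * S → S * χ = χ * S) ∧
    (∀ (v : H) (n : ℕ), ‖χ v‖ ≤ 2 ^ n * ‖(T ^ n) (χ v)‖) ∧
    (∀ v, T v = v → χ v = v) ∧
    ∀ v, χ v = 0 → (inner ℂ (T v) v : ℂ).re ≤ 3 / 4 * ‖v‖ ^ 2

/-- **GRM** (250).  Gram matrix `M i j = ⟨f i, f j⟩`, Hermitian and positive semidefinite, eigenvalues `l_i`, `∑ l_i² ≤ Λ J/16`.
`P` = the spectral projection (a matrix) for the eigenvalues at most `Λ`, `f'_j = ∑ P i j f_i`: the Gram matrix of `f'` is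
`P M P ≤ Λ`, and `∑ ‖f_j - f'_j‖² = ∑ (l_i > Λ), l_i ≤ ∑ l_i²/Λ ≤ J/16`. -/
def Stmt_GRM : Prop :=
  ∀ (H : Type) [NormedAddCommGroup H] [InnerProductSpace ℂ H] (J : ℕ) (f : Fin J → H) (Λ : ℝ),
    0 < Λ → ∑ i, ∑ j, ‖(inner ℂ (f i) (f j) : ℂ)‖ ^ 2 ≤ Λ * J / 16 → ∃ f' : Fin J → H,
    (∀ j, f' j ∈ Submodule.span ℂ (Set.range f)) ∧ ∑ j, ‖f j - f' j‖ ^ 2 ≤ J / 16 ∧ GrLe f' Λ

/-! ### Wave packets -/

/-- **SQR** (120).  Square roots near 1: `x = 1 + u`, `u = y/2 - u²/2`: a contraction of the ball of radius `‖2‖/4` for `‖y‖` small. -/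
def Stmt_SQR : Prop :=
  ∀ (k : Type) [NormedField k] [ProperSpace k] (_ : LG k), ∃ r C : ℝ, 0 < r ∧ 0 < C ∧
    ∀ y : k, ‖y‖ < r → ∃ x : k, x ^ 2 = 1 + y ∧ ‖x - 1‖ ≤ C * ‖y‖

/-- **LPV** (300), uses TP2.  Lipschitz vectors.  `h = (∫ ω)⁻¹ ∫ ω(g) π(g) f dμ`, `μ` a Haar measure, `ω g = max 0 (r - dnm g)`:
`‖h - f‖ ≤ sup (dnm g ≤ r) ‖π g f - f‖`; `π u h` has the weight `ω (u⁻¹ g)`, and
`|dnm (u⁻¹ g) - dnm g| ≤ mnm ((u⁻¹ - 1) g) ≤ 2 dnm u nm g`, bounded support for `dnm u ≤ 1`. -/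
def Stmt_LPV : Prop :=
  ∀ (k : Type) [NormedField k] [ProperSpace k] (H : Type) [NormedAddCommGroup H]
    [InnerProductSpace ℂ H] [CompleteSpace H] (π : SL2 k →* (H ≃ₗᵢ[ℂ] H)),
    (∀ f, Continuous fun g => π g f) → ∀ E : Submodule ℂ H, IsClosed (E : Set H) →
    (∀ g, ∀ f ∈ E, π g f ∈ E) → ∀ f ∈ E, ∀ ε : ℝ, 0 < ε → ∃ h ∈ E, ‖h - f‖ ≤ ε ∧
    ∃ C : ℝ, ∀ u, dnm u ≤ 1 → ‖π u h - h‖ ≤ C * dnm u

/-- **DEC** (250), uses SQR.  Decay.  `F = π(upp t₀) h - h` is Lipschitz near 1 too.  For `‖t₀/t‖` small `α² = 1 + t₀/t`, `‖α - 1‖ ≤ C ‖t₀/t‖`,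
`upp (t + t₀) = dia α * upp t * (dia α)⁻¹`: `⟨π(upp t) F, F⟩ = ⟨π(upp (t+t₀)) h, F⟩ - ⟨π(upp t) h, F⟩
= ⟨π(upp t) h', F'⟩ - ⟨π(upp t) h, F⟩`, `h' = π(dia α)⁻¹ h`, `F' = π(dia α)⁻¹ F`, at most `‖h' - h‖ ‖F‖ + ‖h‖ ‖F' - F‖ ≤ C ‖α - 1‖`.
For bounded `t` use the Cauchy-Schwarz inequality. -/
def Stmt_DEC : Prop :=
  ∀ (k : Type) [NormedField k] [ProperSpace k] (_ : LG k) (H : Type) [NormedAddCommGroup H]
    [InnerProductSpace ℂ H] (π : SL2 k →* (H ≃ₗᵢ[ℂ] H)) (h : H) (t₀ : k),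
    (∃ C : ℝ, ∀ u, dnm u ≤ 1 → ‖π u h - h‖ ≤ C * dnm u) → ∃ C : ℝ, ∀ t : k,
    ‖(inner ℂ (π (upp t₀) h - h) (π (upp t) (π (upp t₀) h - h)) : ℂ)‖ * ‖t‖ ≤ C

/-- **GRP** (200).  Points: `Z` of `LG.sep_ge`; shells `2^j ≤ ‖z - z'‖ < 2^(j+1)`, `2^j ≤ 2 R`, with at most `C 2^((j+1) e)` elements
(`LG.sep_le`, `e ≤ 2`), on which `φ² ≤ C₁² 4^(-j)`. -/
def Stmt_GRP : Prop :=
  ∀ (k : Type) [NormedField k] (L : LG k) (C₁ : ℝ), 0 ≤ C₁ → ∃ C : ℝ, 0 < C ∧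
    ∀ φ : k → ℝ, (∀ t, 0 ≤ φ t ∧ φ t ≤ 1 ∧ φ t * ‖t‖ ≤ C₁) → ∀ R : ℝ, 1 ≤ R →
    ∃ Z : Finset k, R ^ L.e ≤ C * Z.card ∧ (∀ z ∈ Z, ‖z‖ ≤ R) ∧
    ∑ z ∈ Z, ∑ z' ∈ Z, φ (z - z') ^ 2 ≤ C * Z.card * (1 + Real.log R)

/-- **WPK** (350), uses TP2 GN2 LPV DEC GRP.  Wave packets.  Some Lipschitz `h` in `E` and some `t₀` have `π(upp t₀) h ≠ h` (otherwise by
density (LPV) all `upp t` act trivially on `E`, so do the conjugates `low t`, GN2).  `F` = the normalized `π(upp t₀) h - h`.  `r_F ≤ 1` with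
`‖π u F - F‖ ≤ 1/8` for `dnm u ≤ r_F`.  `θ = ϑ^m` with `‖θ‖² ≤ r_F/(16 δ) < ‖ϑ‖² ‖θ‖²`, `Z` of GRP for `R = ‖θ‖²` and
`φ t = |⟨π(upp t) F, F⟩|`, `b_z = upp (z/θ²) * dia θ⁻¹`.  `b_z⁻¹ b_z' = upp (z' - z)`, and `b_z⁻¹ s b_z - 1 = b_z⁻¹ (s - 1) b_z` has norm at
most `16 ‖θ‖² dnm s`. -/
def Stmt_WPK : Prop :=
  ∀ (k : Type) [NormedField k] [ProperSpace k] (L : LG k) (H : Type) [NormedAddCommGroup H]
    [InnerProductSpace ℂ H] [CompleteSpace H] (π : SL2 k →* (H ≃ₗᵢ[ℂ] H)),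
    (∀ f, Continuous fun g => π g f) → ∀ E : Submodule ℂ H, IsClosed (E : Set H) →
    (∀ g, ∀ f ∈ E, π g f ∈ E) → (∃ f ∈ E, ∃ g, π g f ≠ f) → ∃ F ∈ E, ‖F‖ = 1 ∧
    ∃ C : ℝ, 1 ≤ C ∧ ∀ δ : ℝ, 0 < δ → C * δ ≤ 1 → ∃ (J : ℕ) (b : Fin J → SL2 k),
      1 ≤ C * J * δ ^ L.e ∧
      (∀ j s, dnm s ≤ δ → ‖π s (π (b j) F) - π (b j) F‖ ≤ 1 / 8) ∧
      ∑ i, ∑ j, ‖(inner ℂ (π (b i) F) (π (b j) F) : ℂ)‖ ^ 2 ≤ C * J * (1 + Real.log (1 / δ))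

/-- **NMC** (150).  `δ = A^(-10 (n+1)/(11 e))`: `δ^(2e) = A^(-20 (n+1)/11)`, `(2ρ)^(2n) ≤ A^(-43 n/22)`, and `43/22 > 20/11`; `n → ∞`. -/
def Stmt_NMC : Prop :=
  ∀ (A ρ C δ₁ : ℝ) (e : ℕ), 1 ≤ e → 2 ≤ A → 0 < ρ → (2 * ρ) ^ 44 * A ^ 43 ≤ 1 → 0 < C → 0 < δ₁ →
    ∃ (δ : ℝ) (n : ℕ), 0 < δ ∧ δ ≤ δ₁ ∧ (A ^ (2 * n + 2)) ^ 5 * (δ ^ e) ^ 11 ≤ 1 ∧
    C * (1 + Real.log (1 / δ)) * (2 * ρ) ^ (2 * n) < (δ ^ e) ^ 2

/-- **TRV** (350), uses TG2 TP2 UN2 WIX WIP VLB EST GRM WPK NMC.  Triviality.  `E` = the closure of the range of `χ`; `π (mulSingle v b)` commutes with `T`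
(WIP), so with `χ`; on `E`: `‖h‖ ≤ 2^n ‖T^n h‖`.  If `E` is not fixed: WPK for `π ∘ mulSingle v`: `F`, `C`.  `r ≤ 1/8` with `‖π g F - F‖ ≤ 1/8` if
`g W = 1`, `g v = 1`, `dnm (g i) ≤ r` (TG2, continuity).  For `δ ≤ r`: `S` (WIX) the weak integral of the uniform measure on `UU k W v r δ`; `f_j = π
(mulSingle v (b j)) F`: `‖S f_j - f_j‖ ≤ 1/4` (WIP; elements of `UU` are products of an element of the factor `v` and an element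
commuting with the factor `v`).  GRM with `Λ = 16 C (1 + log (1/δ))`: `f'_j` in `E`; the `ℓ²` norm of `(S f'_j)` is at least
`(3/4) √J - (1/4) √J`, `S f'_j` is in `E` (`S` commutes with `T`): `∑ ‖T^(n+1) S f'_j‖² ≥ 4^(-n-1) J/4`.  EST:
`J δ^(3e) ≤ C' Λ (2ρ)^(2n)`, `J ≥ δ^(-e)/C`: contradiction to NMC. -/
def Stmt_TRV : Prop :=
  ∀ (ι : Type) [Fintype ι] [DecidableEq ι] (k : ι → Type) [∀ i, NormedField (k i)]
    [∀ i, ProperSpace (k i)] (L : ∀ i, LG (k i)) (Γ : Subgroup (GG k)), LatG L Γ →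
    ∀ (μ : Measure (GG k)) (m : Measure (GG k ⧸ Γ)) (c : ℝ≥0∞), QD Γ μ m c →
    ∀ π : GG k →* (Lp ℂ 2 m ≃ₗᵢ[ℂ] Lp ℂ 2 m), KP m π → ∀ W v : ι, W ≠ v →
    ∀ (μA : Measure (SL2 (k W))), μA.IsHaarMeasure →
    ∀ (τ : SL2 (k W) → ℝ≥0∞) (RR ρ : ℝ), Hk (L W) μA τ RR ρ → ∀ T : Lp ℂ 2 m →L[ℂ] Lp ℂ 2 m,
    WI π ((μA.withDensity τ).map fun a => (Pi.mulSingle W a : GG k)) T →
    ∀ χ : Lp ℂ 2 m →L[ℂ] Lp ℂ 2 m,
    (∀ S : Lp ℂ 2 m →L[ℂ] Lp ℂ 2 m, S * T = T * S → S * χ = χ * S) →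
    (∀ (f : Lp ℂ 2 m) (n : ℕ), ‖χ f‖ ≤ 2 ^ n * ‖(T ^ n) (χ f)‖) →
    ∀ (f : Lp ℂ 2 m) (b : SL2 (k v)), π (Pi.mulSingle v b) (χ f) = χ f

/-! ### The Hecke density -/

/-- **HKA** (250), uses TP2 UN2.  Let `E` be the set, `η ≤ 1/16`, `v = (c, d)`.  For `s` in `E`: `‖v s‖ ≥ ‖v‖/4`, so `‖(v s)₁‖ ≥ ‖v‖/4`.  For `t_i` in the
unit ball of `k` with mutual distances greater than `8 η` the sets `E * upp t_i` are disjoint (`(x, y) upp t = (x, y + t x)`) and lie in a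
fixed compact set; there are at least `c η^(-e)` such `t_i` (`LG.sep_ge` scaled by an element of norm between `8 η ‖ϑ‖` and
`8 η ‖ϑ‖²`).  Right invariance of `μ`. -/
def Stmt_HKA : Prop :=
  ∀ (k : Type) [NormedField k] [ProperSpace k] (L : LG k) (μ : Measure (SL2 k)),
    μ.IsHaarMeasure → ∃ C : ℝ, 0 < C ∧ ∀ (c d : k) (η : ℝ), 0 < η →
    0 < max ‖c‖ ‖d‖ →
    μ {s : SL2 k | dnm s ≤ 1 / 2 ∧ ‖c * s 0 1 + d * s 1 1‖ ≤ η * max ‖c‖ ‖d‖} ≤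
      ENNReal.ofReal (C * η ^ L.e)

/-- **HKB** (200).  Shells `2^j < ‖z + s‖ ≤ 2^(j+1)`, `2^j ≤ 3 R`, if `‖s‖ ≤ 2 R`; otherwise all terms are at most `R^(-e)`. -/
def Stmt_HKB : Prop :=
  ∀ (k : Type) [NormedField k] (L : LG k), ∃ C : ℝ, 0 < C ∧ ∀ (R : ℝ) (Z : Finset k), 1 ≤ R →
    (∀ z ∈ Z, ‖z‖ ≤ R) → (∀ z ∈ Z, ∀ z' ∈ Z, z ≠ z' → 1 ≤ ‖z - z'‖) → ∀ s : k,
    ∑ z ∈ Z, ((max 1 ‖z + s‖) ^ L.e)⁻¹ ≤ C * (1 + Real.log R)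

/-- **HKX** (350), uses TP2 UN2 HKA HKB.  The density.  `U = {dnm ≤ 1/2}` (symmetric), `Z` of `LG.sep_ge` for a large `R₀`, `N = card Z ≥ c R₀^e`,
`τ g = (2 N μ(U)²)⁻¹ ∑ (z ∈ Z, ±), μ {s ∈ U | (s * low (±z))⁻¹ * g ∈ U}`, the density of `s * low (±z) * s'`.  Bounded by
`1/μ(U)`; symmetric (inversion and right invariance); support `nm ≤ 9 R₀`.  Average: `nm (z₀ s w s') ≥ nm (z₀ s w)/4 ≥ ‖row * s * w‖/4` for the row
of `z₀` with the entry of maximal norm; `row * s = (c', d')`, `(c', d') low x = (c' + d' x, d')`; the average over `w` of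
`max (‖c' + d' x‖, ‖d'‖)^(-e)` is at most `‖d'‖^(-e) C (1 + log R₀)/N` (HKB), and at most `C ‖row‖^(-e)` if
`‖d'‖ ≤ ‖row‖/(16 R₀)`; sum over dyadic shells of `‖d'‖` with HKA: `ρ = C (1 + log R₀)²/R₀^e`.  `R = (9 R₀)^e`,
`(2ρ)^44 (2^e R)^43 ≤ C (1 + log R₀)^88 R₀^(-e) → 0`. -/
def Stmt_HKX : Prop :=
  ∀ (k : Type) [NormedField k] [ProperSpace k] (L : LG k) (μ : Measure (SL2 k)),
    μ.IsHaarMeasure → ∃ (τ : SL2 k → ℝ≥0∞) (R ρ : ℝ), Hk L μ τ R ρ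

/-! ### Conclusions -/

/-- **ERQ** (200), uses TG2 TP2 UN2 WIX WIP CFC TRV HKX.  Ergodicity of one factor.  `T f = f` (WIP with `ε = 0`), `χ f = f` (CFC), TRV for all `v ≠ W`; the
stabilizer of `f` contains all `mulSingle i b` (`Subgroup.pi_mem_of_mulSingle_mem`).  `T` is self-adjoint by `Hk.sym` (inversion
invariance of the measure). -/
def Stmt_ERQ : Prop :=
  ∀ (ι : Type) [Fintype ι] [DecidableEq ι] (k : ι → Type) [∀ i, NormedField (k i)]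
    [∀ i, ProperSpace (k i)] (L : ∀ i, LG (k i)) (Γ : Subgroup (GG k)), LatG L Γ →
    ∀ (μ : Measure (GG k)) (m : Measure (GG k ⧸ Γ)) (c : ℝ≥0∞), QD Γ μ m c →
    ∀ π : GG k →* (Lp ℂ 2 m ≃ₗᵢ[ℂ] Lp ℂ 2 m), KP m π → ∀ (W : ι) (f : Lp ℂ 2 m),
    (∀ a : SL2 (k W), π (Pi.mulSingle W a) f = f) → ∀ g, π g f = f

/-- **GPQ** (300), uses TG2 TP2 UN2 WIX WIP CFC CST TRV HKX ERQ.  Strong gap.  `T`, `χ` for `W`.  `χ f` is fixed by the factor `v` (TRV), so by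
everything (ERQ), so constant `z` (CST); `T 1 = 1`, `χ 1 = 1`, `z = ⟨1, χ f⟩ = ⟨1, f⟩ = 0`.  So `χ f = 0` and `⟨T f, f⟩.re ≤ (3/4) ‖f‖²`; `K = {nm^e ≤ R}`,
`δ = 1/2`: otherwise `⟨π a f, f⟩.re ≥ (7/8) ‖f‖²` on the support of `τ`. -/
def Stmt_GPQ : Prop :=
  ∀ (ι : Type) [Fintype ι] [DecidableEq ι] (k : ι → Type) [∀ i, NormedField (k i)]
    [∀ i, ProperSpace (k i)] (L : ∀ i, LG (k i)) (Γ : Subgroup (GG k)), LatG L Γ →
    ∀ (μ : Measure (GG k)) (m : Measure (GG k ⧸ Γ)) (c : ℝ≥0∞), QD Γ μ m c →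
    ∀ π : GG k →* (Lp ℂ 2 m ≃ₗᵢ[ℂ] Lp ℂ 2 m), KP m π → ∀ W v : ι, W ≠ v →
    ∃ K : Set (SL2 (k W)), IsCompact K ∧ ∃ δ : ℝ, 0 < δ ∧ ∀ f : Lp ℂ 2 m, ∫ x, f x ∂m = 0 →
    ∃ a ∈ K, δ * ‖f‖ ≤ ‖π (Pi.mulSingle W a) f - f‖

/-- **DNQ** (250), uses TG2 ERQ CST.  Density.  `H` = the closure of the projection of `Γ` to `BB k P`.  If `b₀` is not in `H` there are open
neighbourhoods `U`, `V` of 1 with `V b₀ ∩ U H = ∅`.  The indicator of `{g Γ | g_B ∈ U H}` is invariant under the factor `P`, so constant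
almost everywhere (ERQ, CST); but `{g | g_B ∈ U H}` and `{g | g_B ∈ V b₀}` are both open and not empty (`QD.weil`: the preimage in `G` of a
null set is a null set). -/
def Stmt_DNQ : Prop :=
  ∀ (ι : Type) [Fintype ι] [DecidableEq ι] (k : ι → Type) [∀ i, NormedField (k i)]
    [∀ i, ProperSpace (k i)] (L : ∀ i, LG (k i)) (Γ : Subgroup (GG k)), LatG L Γ →
    ∀ (μ : Measure (GG k)) (m : Measure (GG k ⧸ Γ)) (c : ℝ≥0∞), QD Γ μ m c →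
    ∀ π : GG k →* (Lp ℂ 2 m ≃ₗᵢ[ℂ] Lp ℂ 2 m), KP m π → ∀ P : ι,
    Dense (Set.range fun (γ : Γ) (i : {i : ι // i ≠ P}) => (γ : GG k) i.1)

/-- **FNQ** (300), uses TG2 TP2 UN2 CTG DS2 QMS KPX GPQ DNQ.  Part I.  Exactly as `B_FIN.lean` of P: `P ≠ W`, `allC` for `Γ.map (splitE k P)`; the compact set
is the image of `K` of GPQ (for `W`, `v = P`). -/
def Stmt_FNQ : Prop :=
  ∀ (ι : Type) [Fintype ι] [DecidableEq ι] (k : ι → Type) [∀ i, NormedField (k i)]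
    [∀ i, ProperSpace (k i)] (L : ∀ i, LG (k i)) (Γ : Subgroup (GG k)), Nontrivial ι →
    LatG L Γ → FTGap Γ

end Pool.PQ
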