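import Pool.Agent.Work.MP_972ac7_Q.Interface1

set_option autoImplicit false

open MeasureTheory
open scoped ENNReal

noncomputable section

namespace Pool.PQ

open Pool.PL Pool.TFD Pool.TC

theorem BSA_sG_mul {G : Type} [Group G] (Γ : Subgroup G) (ψ : G → ℝ≥0∞) (φ : G ⧸ Γ → ℝ≥0∞)
    (x : G ⧸ Γ) : sG Γ (fun u => ψ u * φ (u : G ⧸ Γ)) x = sG Γ ψ x * φ x := by
  induction x using QuotientGroup.induction_on with
  | H g =>
    rw [sG_mk, sG_mk, ← ENNReal.tsum_mul_right]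
    refine tsum_congr fun γ => ?_
    have h : ((g * γ : G) : G ⧸ Γ) = (g : G ⧸ Γ) := QuotientGroup.mk_mul_of_mem g γ.2
    rw [h]

theorem BSA_meas_sG {G : Type} [Group G] [MeasurableSpace G] [MeasurableMul₂ G]
    (Γ : Subgroup G) [Countable Γ]
    {ψ : G → ℝ≥0∞} (hψ : Measurable ψ) : Measurable (sG Γ ψ) := by
  rw [QuotientGroup.measurable_from_quotient]
  have h : (sG Γ ψ) ∘ ((↑) : G → G ⧸ Γ) = fun g => ∑' γ : Γ, ψ (g * γ) := by
    funext g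
    exact sG_mk Γ ψ g
  rw [h]
  exact Measurable.tsum fun γ => hψ.comp (measurable_id.mul_const _)

/-- Pointwise Bessel inequality. -/
theorem p_BSA : Stmt_BSA := by
  intro G _ _ _ _ _ _ _ _ Γ μ m c hQ ψ hψ B hB φ hφ x
  have := hQ.haar
  have := hQ.right
  have := hQ.inv
  have := hQ.cnt
  induction x using QuotientGroup.induction_on with
  | H g₀ =>
    have hmk : Measurable (fun g : G => (g : G ⧸ Γ)) := QuotientGroup.measurable_coe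
    -- the substitution
    have hsub : ∀ F : G → ℝ≥0∞, ∫⁻ h, F h ∂μ = ∫⁻ u, F (g₀ * u⁻¹) ∂μ := fun F => by
      rw [← lintegral_mul_left_eq_self F g₀]
      exact (lintegral_inv_eq_self (μ := μ) (fun h => F (g₀ * h))).symm
    set ψ' : G → ℝ≥0∞ := fun u => ψ (g₀ * u⁻¹) with hψ'
    have hψ'm : Measurable ψ' := hψ.comp (measurable_const.mul measurable_inv)
    set κ : G ⧸ Γ → ℝ≥0∞ := sG Γ ψ' with hκ
    have hκm : Measurable κ := BSA_meas_sG Γ hψ'm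
    have key : ∀ f : G ⧸ Γ → ℝ≥0∞, Measurable f →
        ∫⁻ u, ψ' u * f (u : G ⧸ Γ) ∂μ = c * ∫⁻ y, κ y * f y ∂m := fun f hf => by
      rw [hQ.weil (fun u => ψ' u * f (u : G ⧸ Γ)) (hψ'm.mul (hf.comp hmk))]
      congr 1
      exact lintegral_congr fun y => BSA_sG_mul Γ ψ' f y
    have h1 : ∫⁻ h, φ (h⁻¹ • (g₀ : G ⧸ Γ)) ∂(μ.withDensity ψ) = c * ∫⁻ y, κ y * φ y ∂m := by
      have hm : Measurable fun h : G => φ (h⁻¹ • (g₀ : G ⧸ Γ)) := by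
        have : (fun h : G => φ (h⁻¹ • (g₀ : G ⧸ Γ))) = fun h : G => φ ((h⁻¹ * g₀ : G) : G ⧸ Γ) := rfl
        rw [this]
        exact hφ.comp (hmk.comp (measurable_inv.mul_const g₀))
      rw [lintegral_withDensity_eq_lintegral_mul μ hψ hm, hsub, ← key φ hφ]
      refine lintegral_congr fun u => ?_
      have : ((g₀ * u⁻¹)⁻¹ • (g₀ : G ⧸ Γ)) = (u : G ⧸ Γ) := by
        change (((g₀ * u⁻¹)⁻¹ * g₀ : G) : G ⧸ Γ) = (u : G ⧸ Γ)
        congr 1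
        group
      simp only [Pi.mul_apply, hψ']
      rw [this]
    have h2 : c * ∫⁻ y, κ y * κ y ∂m ≤ B := by
      rw [← key κ hκm]
      have e1 : ∀ u : G, ψ' u * κ (u : G ⧸ Γ) = ∑' γ : Γ, ψ' u * ψ' (u * γ) := fun u => by
        rw [hκ, sG_mk, ENNReal.tsum_mul_left]
      calc ∫⁻ u, ψ' u * κ (u : G ⧸ Γ) ∂μ = ∫⁻ u, ∑' γ : Γ, ψ' u * ψ' (u * γ) ∂μ :=
            lintegral_congr e1
        _ = ∑' γ : Γ, ∫⁻ u, ψ' u * ψ' (u * γ) ∂μ :=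
            lintegral_tsum fun γ =>
              (hψ'm.mul (hψ'm.comp (measurable_id.mul_const _))).aemeasurable
        _ = ∑' γ : Γ, ∫⁻ t, ψ t * ψ (g₀ * ((γ⁻¹ : Γ) : G) * g₀⁻¹ * t) ∂μ := by
            refine tsum_congr fun γ => ?_
            rw [hsub (fun t => ψ t * ψ (g₀ * ((γ⁻¹ : Γ) : G) * g₀⁻¹ * t))]
            refine lintegral_congr fun u => ?_
            simp only [hψ']
            congr 2
            rw [Subgroup.coe_inv]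
            group
        _ = ∑' γ : Γ, ∫⁻ t, ψ t * ψ (g₀ * (γ : G) * g₀⁻¹ * t) ∂μ :=
            (Equiv.inv Γ).tsum_eq (fun γ : Γ => ∫⁻ t, ψ t * ψ (g₀ * (γ : G) * g₀⁻¹ * t) ∂μ)
        _ ≤ B := hB g₀
    have h3 : (∫⁻ y, κ y * φ y ∂m) ^ 2 ≤ (∫⁻ y, κ y * κ y ∂m) * ∫⁻ y, φ y ^ 2 ∂m := by
      have := ENNReal.lintegral_mul_le_Lp_mul_Lq m (Real.HolderConjugate.two_two)
        hκm.aemeasurable hφ.aemeasurable
      have e2 : ∀ a : ℝ≥0∞, (a ^ (1 / 2 : ℝ)) ^ 2 = a := fun a => by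
        rw [← ENNReal.rpow_natCast, ← ENNReal.rpow_mul]
        norm_num
      calc (∫⁻ y, κ y * φ y ∂m) ^ 2
          ≤ ((∫⁻ y, κ y ^ (2 : ℝ) ∂m) ^ (1 / 2 : ℝ) * (∫⁻ y, φ y ^ (2 : ℝ) ∂m) ^ (1 / 2 : ℝ)) ^ 2 :=
            pow_le_pow_left' this 2
        _ = (∫⁻ y, κ y ^ (2 : ℝ) ∂m) * ∫⁻ y, φ y ^ (2 : ℝ) ∂m := by
            rw [mul_pow, e2, e2]
        _ = _ := by
            congr 1
            · refine lintegral_congr fun y => ?_
              rw [ENNReal.rpow_two, _root_.sq]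
            · refine lintegral_congr fun y => ?_
              rw [ENNReal.rpow_two]
    rw [h1]
    calc (c * ∫⁻ y, κ y * φ y ∂m) ^ 2 = c ^ 2 * (∫⁻ y, κ y * φ y ∂m) ^ 2 := mul_pow _ _ _
      _ ≤ c ^ 2 * ((∫⁻ y, κ y * κ y ∂m) * ∫⁻ y, φ y ^ 2 ∂m) := by gcongr
      _ = c * (c * ∫⁻ y, κ y * κ y ∂m) * ∫⁻ y, φ y ^ 2 ∂m := by ring
      _ ≤ c * B * ∫⁻ y, φ y ^ 2 ∂m := by gcongr

end Pool.PQ

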