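import Pool.Agent.Work.MP_972ac7_Q.Interface1

set_option autoImplicit false

open MeasureTheory
open scoped ENNReal

noncomputable section

namespace Pool.PQ

open Pool.PL Pool.TFD Pool.TC

theorem BSB_norm {X : Type} [MeasurableSpace X] (m : Measure X) (F : Lp ℂ 2 m) :
    ∫⁻ y, ‖F y‖ₑ ^ 2 ∂m = ENNReal.ofReal (‖F‖ ^ 2) := by
  have h1 : eLpNorm F 2 m ^ ((2 : NNReal) : ℝ) = ∫⁻ y, ‖F y‖ₑ ^ ((2 : NNReal) : ℝ) ∂m :=
    eLpNorm_nnreal_pow_eq_lintegral (f := (F : X → ℂ)) (μ := m) (p := 2) (by norm_num)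
  have h3 : ((2 : NNReal) : ℝ) = 2 := rfl
  rw [h3] at h1
  have h2 : ∫⁻ y, ‖F y‖ₑ ^ 2 ∂m = ∫⁻ y, ‖F y‖ₑ ^ (2 : ℝ) ∂m :=
    lintegral_congr fun y => (ENNReal.rpow_two _).symm
  rw [h2, ← h1, ← Lp.enorm_def, ENNReal.rpow_two, ← ofReal_norm, ENNReal.ofReal_pow (norm_nonneg _)]

/-- Algebra: the bound for all coefficients gives the bound for the sum of the squares. -/
theorem BSB_alg {J : ℕ} (w : Fin J → ℂ) (K : ℝ) (hK : 0 ≤ K)
    (h : ∀ a : Fin J → ℂ, ‖∑ j, a j * w j‖ ^ 2 ≤ K * ∑ j, ‖a j‖ ^ 2) :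
    ∑ j, ‖w j‖ ^ 2 ≤ K := by
  have h1 := h fun j => (starRingEnd ℂ) (w j)
  have h2 : ∑ j, (starRingEnd ℂ) (w j) * w j = ((∑ j, ‖w j‖ ^ 2 : ℝ) : ℂ) := by
    push_cast
    refine Finset.sum_congr rfl fun j _ => ?_
    rw [Complex.conj_mul']
  have h0 : 0 ≤ ∑ j, ‖w j‖ ^ 2 := Finset.sum_nonneg fun j _ => by positivity
  rw [h2, Complex.norm_real, Real.norm_of_nonneg h0] at h1
  simp only [RCLike.norm_conj] at h1
  rcases h0.eq_or_lt with h3 | h3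
  · linarith
  · nlinarith

/-- The bound for a dense set of coefficients gives the bound for all coefficients. -/
theorem BSB_dense {J : ℕ} (w : Fin J → ℂ) (K : ℝ) (D : Set (Fin J → ℂ)) (hD : Dense D)
    (h : ∀ a ∈ D, ‖∑ j, a j * w j‖ ^ 2 ≤ K * ∑ j, ‖a j‖ ^ 2) (a : Fin J → ℂ) :
    ‖∑ j, a j * w j‖ ^ 2 ≤ K * ∑ j, ‖a j‖ ^ 2 := by
  have hc : IsClosed {a : Fin J → ℂ | ‖∑ j, a j * w j‖ ^ 2 ≤ K * ∑ j, ‖a j‖ ^ 2} :=
    isClosed_le (by fun_prop) (by fun_prop)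
  have : closure D ⊆ {a : Fin J → ℂ | ‖∑ j, a j * w j‖ ^ 2 ≤ K * ∑ j, ‖a j‖ ^ 2} :=
    hc.closure_subset_iff.2 fun a ha => h a ha
  exact this (hD a)

/-- Bessel inequality for an almost orthogonal family. -/
theorem p_BSB (hA : Stmt_BSA) : Stmt_BSB := by
  intro G _ _ _ _ _ _ _ _ Γ μ m c hQ ψ hψ B hB hBg R hR J f Λ hΛ hG
  have := hQ.prob
  set K : ℝ≥0∞ := c * B * ENNReal.ofReal Λ with hK
  have hKt : K ≠ ∞ := ENNReal.mul_ne_top (ENNReal.mul_ne_top hQ.ne hB) ENNReal.ofReal_ne_top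
  obtain ⟨D, hDc, hDd⟩ := TopologicalSpace.exists_countable_dense (Fin J → ℂ)
  -- the coordinates of the linear combinations
  have hlin : ∀ a : Fin J → ℂ, ∀ᵐ x ∂m,
      (R (∑ j, a j • f j)) x = ∑ j, a j * (R (f j)) x := fun a => by
    have e1 : R (∑ j, a j • f j) = ∑ j, a j • R (f j) := by
      rw [map_sum]
      exact Finset.sum_congr rfl fun j _ => map_smul R (a j) (f j)
    rw [e1]
    have e2 : ∀ s : Finset (Fin J), ∀ᵐ x ∂m,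
        ((∑ j ∈ s, a j • R (f j) : Lp ℂ 2 m)) x = ∑ j ∈ s, a j * (R (f j)) x := by
      intro s
      induction s using Finset.induction_on with
      | empty =>
        simp only [Finset.sum_empty]
        exact Lp.coeFn_zero ℂ 2 m
      | insert i s his ih =>
        rw [Finset.sum_insert his]
        filter_upwards [Lp.coeFn_add (a i • R (f i)) (∑ j ∈ s, a j • R (f j)),
          Lp.coeFn_smul (a i) (R (f i)), ih] with x h1 h2 h3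
        rw [h1, Pi.add_apply, h2, h3, Finset.sum_insert his]
        rfl
    exact e2 Finset.univ
  have hbd : ∀ a : Fin J → ℂ, ∀ᵐ x ∂m,
      ‖∑ j, a j * (R (f j)) x‖ₑ ^ 2 ≤ K * ENNReal.ofReal (∑ j, ‖a j‖ ^ 2) := fun a => by
    filter_upwards [hlin a, hR (∑ j, a j • f j)] with x h1 h2
    rw [← h1]
    have hm : Measurable fun y => ‖(∑ j, a j • f j : Lp ℂ 2 m) y‖ₑ :=
      (Lp.stronglyMeasurable (∑ j, a j • f j)).measurable.enorm
    have h3 := hA G Γ μ m c hQ ψ hψ B hBg _ hm x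
    rw [BSB_norm] at h3
    calc ‖(R (∑ j, a j • f j)) x‖ₑ ^ 2
        ≤ (∫⁻ g, ‖(∑ j, a j • f j : Lp ℂ 2 m) (g⁻¹ • x)‖ₑ ∂(μ.withDensity ψ)) ^ 2 :=
          pow_le_pow_left' h2 2
      _ ≤ c * B * ENNReal.ofReal (‖∑ j, a j • f j‖ ^ 2) := h3
      _ ≤ c * B * ENNReal.ofReal (Λ * ∑ j, ‖a j‖ ^ 2) := by
          gcongr
          exact hG a
      _ = K * ENNReal.ofReal (∑ j, ‖a j‖ ^ 2) := by
          rw [ENNReal.ofReal_mul hΛ, hK]
          ring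
  have hall : ∀ᵐ x ∂m, ∑ j, ‖(R (f j)) x‖ₑ ^ 2 ≤ K := by
    have h1 : ∀ᵐ x ∂m, ∀ a ∈ D,
        ‖∑ j, a j * (R (f j)) x‖ₑ ^ 2 ≤ K * ENNReal.ofReal (∑ j, ‖a j‖ ^ 2) :=
      (ae_ball_iff hDc).2 fun a _ => hbd a
    filter_upwards [h1] with x h2
    have h3 : ∑ j, ‖(R (f j)) x‖ ^ 2 ≤ K.toReal := by
      refine BSB_alg _ _ ENNReal.toReal_nonneg (BSB_dense _ _ D hDd fun a ha => ?_)
      have h4 := h2 a ha
      rw [← ENNReal.ofReal_toReal hKt, ← ENNReal.ofReal_mul ENNReal.toReal_nonneg,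
        ← ofReal_norm, ← ENNReal.ofReal_pow (norm_nonneg _)] at h4
      rwa [ENNReal.ofReal_le_ofReal_iff (by positivity)] at h4
    have h5 : ∑ j, ‖(R (f j)) x‖ₑ ^ 2 = ENNReal.ofReal (∑ j, ‖(R (f j)) x‖ ^ 2) := by
      rw [ENNReal.ofReal_sum_of_nonneg fun j _ => by positivity]
      refine Finset.sum_congr rfl fun j _ => ?_
      rw [← ofReal_norm, ENNReal.ofReal_pow (norm_nonneg _)]
    rw [h5]
    exact ENNReal.ofReal_le_of_le_toReal h3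
  calc ∑ j, ENNReal.ofReal (‖R (f j)‖ ^ 2) = ∑ j, ∫⁻ y, ‖(R (f j)) y‖ₑ ^ 2 ∂m :=
        Finset.sum_congr rfl fun j _ => (BSB_norm m (R (f j))).symm
    _ = ∫⁻ y, ∑ j, ‖(R (f j)) y‖ₑ ^ 2 ∂m := by
        rw [lintegral_finsetSum]
        intro j _
        exact ((Lp.stronglyMeasurable (R (f j))).measurable.enorm).pow_const 2
    _ ≤ ∫⁻ _, K ∂m := lintegral_mono_ae hall
    _ = K := by simp

end Pool.PQ

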