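import Pool.Agent.Work.MP_972ac7_Q.Interface2

set_option autoImplicit false

/-! # Block BXG: integers in a box -/

open MeasureTheory NumberField IsDedekindDomain
open scoped Quaternion ENNReal

noncomputable section

namespace Pool.PQ

open Pool.PL Pool.TFD Pool.TC

theorem BXG_icc (R : ℝ) (hR : 0 ≤ R) : ((Finset.Icc ⌊-R⌋ ⌊R⌋).card : ℝ) ≤ 2 * R + 2 := by
  rw [Int.card_Icc]
  have h1 := Int.floor_le R
  have h2 := Int.lt_floor_add_one (-R)
  have h3 : ⌊-R⌋ ≤ ⌊R⌋ := Int.floor_le_floor (by linarith)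
  have h4 : (((⌊R⌋ + 1 - ⌊-R⌋).toNat : ℤ) : ℝ) = (⌊R⌋ : ℝ) + 1 - (⌊-R⌋ : ℝ) := by
    rw [Int.toNat_of_nonneg (by omega)]
    push_cast
    ring
  have h5 : ((⌊R⌋ + 1 - ⌊-R⌋).toNat : ℝ) = (((⌊R⌋ + 1 - ⌊-R⌋).toNat : ℤ) : ℝ) := by
    norm_cast
  rw [h5, h4]
  linarith

theorem BXG_floor {s x y : ℝ} (hs : 0 < s) (h : ⌊2 * x / s⌋ = ⌊2 * y / s⌋) : |x - y| < s / 2 := by
  have h1 := Int.abs_sub_lt_one_of_floor_eq_floor h
  have h2 : 2 * x / s - 2 * y / s = (2 / s) * (x - y) := by ring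
  rw [h2, abs_mul, abs_of_pos (by positivity : (0 : ℝ) < 2 / s)] at h1
  rw [lt_div_iff₀ (by norm_num : (0 : ℝ) < 2)]
  have h3 : |x - y| * 2 = s * ((2 / s) * |x - y|) := by
    field_simp
  rw [h3]
  calc s * ((2 / s) * |x - y|) < s * 1 := mul_lt_mul_of_pos_left h1 hs
    _ = s := mul_one s

theorem BXG_mem {s r x : ℝ} (hs : 0 < s) (h : |x| ≤ r) :
    ⌊2 * x / s⌋ ∈ Finset.Icc ⌊-(2 * r / s)⌋ ⌊2 * r / s⌋ := by
  rw [abs_le] at h
  rw [Finset.mem_Icc]
  constructor
  · apply Int.floor_le_floor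
    have : -(2 * r / s) = 2 * (-r) / s := by ring
    rw [this]
    exact div_le_div_of_nonneg_right (by linarith) hs.le
  · apply Int.floor_le_floor
    exact div_le_div_of_nonneg_right (by linarith) hs.le

/-- separated points in the plane -/
theorem BXG_sep {α : Type} [DecidableEq α] (T : Finset α) (e : α → ℂ) (s r : ℝ) (hs : 0 < s)
    (hsr : s ≤ r) (h1 : ∀ a ∈ T, ‖e a‖ ≤ r)
    (h2 : ∀ a ∈ T, ∀ b ∈ T, a ≠ b → s ≤ ‖e a - e b‖) :
    (T.card : ℝ) ≤ (6 * (r / s)) ^ 2 ∧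
    ((∀ a ∈ T, (e a).im = 0) → (T.card : ℝ) ≤ 6 * (r / s)) := by
  have hr : 0 < r := lt_of_lt_of_le hs hsr
  have hR : 0 ≤ 2 * r / s := by positivity
  have hn := BXG_icc (2 * r / s) hR
  have h1r : 1 ≤ r / s := by
    rw [le_div_iff₀ hs]
    linarith
  have hn' : ((Finset.Icc ⌊-(2 * r / s)⌋ ⌊2 * r / s⌋).card : ℝ) ≤ 6 * (r / s) := by
    refine hn.trans ?_
    have : 2 * (2 * r / s) = 4 * (r / s) := by ring
    rw [this]
    linarith
  have hinj : ∀ a ∈ T, ∀ b ∈ T, ⌊2 * (e a).re / s⌋ = ⌊2 * (e b).re / s⌋ →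
      |(e a).im - (e b).im| < s / 2 → a = b := by
    intro a ha b hb k1 k2
    by_contra hab
    have h3 := h2 a ha b hb hab
    have h4 := Complex.norm_le_abs_re_add_abs_im (e a - e b)
    have h5 := BXG_floor hs k1
    rw [Complex.sub_re, Complex.sub_im] at h4
    linarith
  constructor
  · have hc : T.card ≤ ((Finset.Icc ⌊-(2 * r / s)⌋ ⌊2 * r / s⌋) ×ˢ
        (Finset.Icc ⌊-(2 * r / s)⌋ ⌊2 * r / s⌋)).card := by
      refine Finset.card_le_card_of_injOn
        (fun a => (⌊2 * (e a).re / s⌋, ⌊2 * (e a).im / s⌋)) ?_ ?_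
      · intro a ha
        have h3 := h1 a ha
        rw [Finset.mem_coe, Finset.mem_product]
        exact ⟨BXG_mem hs ((Complex.abs_re_le_norm _).trans h3),
          BXG_mem hs ((Complex.abs_im_le_norm _).trans h3)⟩
      · intro a ha b hb hab
        have k := Prod.ext_iff.1 hab
        exact hinj a ha b hb k.1 (BXG_floor hs k.2)
    rw [Finset.card_product] at hc
    calc (T.card : ℝ) ≤ (((Finset.Icc ⌊-(2 * r / s)⌋ ⌊2 * r / s⌋).card *
          (Finset.Icc ⌊-(2 * r / s)⌋ ⌊2 * r / s⌋).card : ℕ) : ℝ) := by exact_mod_cast hc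
      _ = ((Finset.Icc ⌊-(2 * r / s)⌋ ⌊2 * r / s⌋).card : ℝ) *
          ((Finset.Icc ⌊-(2 * r / s)⌋ ⌊2 * r / s⌋).card : ℝ) := by push_cast; ring
      _ ≤ (6 * (r / s)) * (6 * (r / s)) := mul_le_mul hn' hn' (Nat.cast_nonneg _) (by positivity)
      _ = _ := by ring
  · intro him
    have hc : T.card ≤ (Finset.Icc ⌊-(2 * r / s)⌋ ⌊2 * r / s⌋).card := by
      refine Finset.card_le_card_of_injOn (fun a => ⌊2 * (e a).re / s⌋) ?_ ?_
      · intro a ha
        exact BXG_mem hs ((Complex.abs_re_le_norm _).trans (h1 a ha))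
      · intro a ha b hb hab
        refine hinj a ha b hb hab ?_
        rw [him a ha, him b hb, sub_self, abs_zero]
        positivity
    calc (T.card : ℝ) ≤ ((Finset.Icc ⌊-(2 * r / s)⌋ ⌊2 * r / s⌋).card : ℝ) := by exact_mod_cast hc
      _ ≤ _ := hn'

theorem p_BXG (hPFG : Stmt_PFG) : Stmt_BXG := by
  intro F _ _
  classical
  refine ⟨36, by norm_num, ?_⟩
  intro v Z β κ hβ hκ hZ
  have hfac : 0 ≤ fac v κ := by
    cases v with
    | inl w => exact hκ
    | inr w => exact zero_le_one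
  have hvol : 0 ≤ vol v β κ := mul_nonneg (Finset.prod_nonneg fun w _ => hβ w) hfac
  obtain ⟨w₀⟩ : Nonempty (InfinitePlace F) := inferInstance
  obtain ⟨P, hP⟩ : ∃ P : ℝ, P = (∏ w ∈ Finset.univ.erase w₀, β w) * fac v κ := ⟨_, rfl⟩
  have hP0 : 0 ≤ P := by
    rw [hP]
    exact mul_nonneg (Finset.prod_nonneg fun w _ => hβ w) hfac
  have hvolP : vol v β κ = β w₀ * P := by
    rw [hP]
    unfold vol
    rw [← Finset.mul_prod_erase Finset.univ _ (Finset.mem_univ w₀)]
    ring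
  -- the basic inequality
  have hkey : ∀ a ∈ Z, ∀ b ∈ Z, a ≠ b → 1 ≤ w₀ ((a : F) - (b : F)) ^ w₀.mult * P := by
    intro a ha b hb hab
    obtain ⟨k1, k2⟩ := hZ a ha b hb
    have hne : a - b ≠ 0 := sub_ne_zero.2 hab
    have h1 := (hPFG F).1 (a - b) hne
    have hcoe : ((a - b : 𝓞 F) : F) = (a : F) - (b : F) := by simp only [map_sub]
    rw [hcoe] at h1
    have hN2 : N2 ((a : F) - (b : F)) = w₀ ((a : F) - (b : F)) ^ w₀.mult *
        ∏ w ∈ Finset.univ.erase w₀, w ((a : F) - (b : F)) ^ w.mult := by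
      unfold N2
      exact (Finset.mul_prod_erase Finset.univ _ (Finset.mem_univ w₀)).symm
    have hle : ∏ w ∈ Finset.univ.erase w₀, w ((a : F) - (b : F)) ^ w.mult ≤
        ∏ w ∈ Finset.univ.erase w₀, β w :=
      Finset.prod_le_prod (fun w _ => pow_nonneg (apply_nonneg w _) _) fun w _ => k1 w
    have h2 : 1 ≤ N2 ((a : F) - (b : F)) * fac v κ := by
      cases v with
      | inl w => exact (h1.2 w).trans (mul_le_mul_of_nonneg_left (k2 w rfl) (N2_nonneg _))
      | inr w =>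
        show 1 ≤ N2 ((a : F) - (b : F)) * (1 : ℝ)
        rw [mul_one]
        exact h1.1
    calc (1 : ℝ) ≤ N2 ((a : F) - (b : F)) * fac v κ := h2
      _ = w₀ ((a : F) - (b : F)) ^ w₀.mult *
          ((∏ w ∈ Finset.univ.erase w₀, w ((a : F) - (b : F)) ^ w.mult) * fac v κ) := by
          rw [hN2]
          ring
      _ ≤ w₀ ((a : F) - (b : F)) ^ w₀.mult *
          ((∏ w ∈ Finset.univ.erase w₀, β w) * fac v κ) :=
          mul_le_mul_of_nonneg_left (mul_le_mul_of_nonneg_right hle hfac)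
            (pow_nonneg (apply_nonneg w₀ _) _)
      _ = _ := by rw [hP]
  have hT : ∀ T : Finset (𝓞 F), (T : Set (𝓞 F)) ⊆ Z → (T.card : ℝ) ≤ 1 + 36 * vol v β κ := by
    intro T hTZ
    by_cases hT1 : T.card ≤ 1
    · have : (T.card : ℝ) ≤ 1 := by exact_mod_cast hT1
      linarith
    rw [not_le, Finset.one_lt_card] at hT1
    obtain ⟨a₀, ha₀, b₀, hb₀, hab₀⟩ := hT1
    have k0 := hkey a₀ (hTZ ha₀) b₀ (hTZ hb₀) hab₀
    have hx0 : 0 ≤ w₀ ((a₀ : F) - (b₀ : F)) ^ w₀.mult := pow_nonneg (apply_nonneg w₀ _) _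
    have hPpos : 0 < P := by
      rcases hP0.lt_or_eq with h | h
      · exact h
      · rw [← h, mul_zero] at k0
        linarith
    have hβP : 1 ≤ β w₀ * P :=
      k0.trans (mul_le_mul_of_nonneg_right ((hZ a₀ (hTZ ha₀) b₀ (hTZ hb₀)).1 w₀) hP0)
    have hβpos : 0 < β w₀ := by
      rcases (hβ w₀).lt_or_eq with h | h
      · exact h
      · rw [← h, zero_mul] at hβP
        linarith
    let e : 𝓞 F → ℂ := fun a => w₀.embedding ((a : F) - (a₀ : F))
    have he : ∀ a, ‖e a‖ = w₀ ((a : F) - (a₀ : F)) := fun a => InfinitePlace.norm_embedding_eq w₀ _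
    have hee : ∀ a b, ‖e a - e b‖ = w₀ ((a : F) - (b : F)) := by
      intro a b
      have h : e a - e b = w₀.embedding ((a : F) - (b : F)) := by
        show w₀.embedding ((a : F) - (a₀ : F)) - w₀.embedding ((b : F) - (a₀ : F)) = _
        rw [← map_sub]
        congr 1
        ring
      rw [h]
      exact InfinitePlace.norm_embedding_eq w₀ _
    by_cases hreal : w₀.IsReal
    · have hm : w₀.mult = 1 := by
        unfold InfinitePlace.mult
        rw [if_pos hreal]
      obtain ⟨_, hc⟩ := BXG_sep T e P⁻¹ (β w₀) (inv_pos.2 hPpos)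
        (by
          rw [inv_le_iff_one_le_mul₀ hPpos]
          exact hβP)
        (fun a ha => by
          rw [he]
          have := (hZ a (hTZ ha) a₀ (hTZ ha₀)).1 w₀
          rwa [hm, pow_one] at this)
        (fun a ha b hb hab => by
          rw [hee]
          have := hkey a (hTZ ha) b (hTZ hb) hab
          rw [hm, pow_one] at this
          rw [inv_le_iff_one_le_mul₀ hPpos]
          exact this)
      have him : ∀ a ∈ T, (e a).im = 0 := by
        intro a _
        have h1 := InfinitePlace.isReal_iff.1 hreal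
        have h2 := ComplexEmbedding.IsReal.coe_embedding_apply h1 ((a : F) - (a₀ : F))
        show (w₀.embedding ((a : F) - (a₀ : F))).im = 0
        rw [← h2]
        exact Complex.ofReal_im _
      have hc' := hc him
      rw [div_inv_eq_mul, ← hvolP] at hc'
      linarith
    · have hm : w₀.mult = 2 := by
        unfold InfinitePlace.mult
        rw [if_neg hreal]
      have hsP : 0 < Real.sqrt P := Real.sqrt_pos.2 hPpos
      obtain ⟨hc, _⟩ := BXG_sep T e (Real.sqrt P)⁻¹ (Real.sqrt (β w₀)) (inv_pos.2 hsP)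
        (by
          rw [inv_le_iff_one_le_mul₀ hsP, ← Real.sqrt_mul hβpos.le]
          exact Real.one_le_sqrt.2 hβP)
        (fun a ha => by
          rw [he]
          have := (hZ a (hTZ ha) a₀ (hTZ ha₀)).1 w₀
          rw [hm] at this
          exact Real.le_sqrt_of_sq_le this)
        (fun a ha b hb hab => by
          rw [hee]
          have := hkey a (hTZ ha) b (hTZ hb) hab
          rw [hm] at this
          rw [inv_le_iff_one_le_mul₀ hsP]
          have h3 : 1 ≤ Real.sqrt (w₀ ((a : F) - (b : F)) ^ 2 * P) := Real.one_le_sqrt.2 this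
          rwa [Real.sqrt_mul (sq_nonneg _), Real.sqrt_sq (apply_nonneg w₀ _)] at h3)
      have h4 : (6 * (Real.sqrt (β w₀) / (Real.sqrt P)⁻¹)) ^ 2 = 36 * vol v β κ := by
        rw [div_inv_eq_mul, hvolP]
        calc (6 * (Real.sqrt (β w₀) * Real.sqrt P)) ^ 2 =
            36 * (Real.sqrt (β w₀) ^ 2 * Real.sqrt P ^ 2) := by ring
          _ = _ := by rw [Real.sq_sqrt hβpos.le, Real.sq_sqrt hP0]
      rw [h4] at hc
      linarith
  have hf : Z.Finite := by
    by_contra hinf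
    obtain ⟨n, hn⟩ := exists_nat_gt (1 + 36 * vol v β κ)
    obtain ⟨T, hTZ, hTc⟩ := Set.Infinite.exists_subset_card_eq hinf n
    have := hT T hTZ
    rw [hTc] at this
    linarith
  refine ⟨hf, ?_⟩
  rw [Nat.card_coe_set_eq, Set.ncard_eq_toFinset_card Z hf]
  exact hT _ (by rw [Set.Finite.coe_toFinset])

end Pool.PQ
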