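import Pool.Agent.Work.MP_972ac7_Q.Interface2
import Pool.Agent.Work.MP_972ac7_P.B_ANG

set_option autoImplicit false

/-! # THEOREM PP, part II, block CEG -/

open MeasureTheory NumberField IsDedekindDomain
open scoped Quaternion ENNReal

noncomputable section

namespace Pool.PQ

open Pool.PL Pool.TFD Pool.TC

/-- the real case with positive coefficients -/
lemma CEG_pos (a₁ a₂ : ℝ) (h1 : 0 < a₁) (h2 : 0 < a₂) : ∃ C : ℝ, 0 < C ∧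
    ∀ μ β K : ℝ, 0 < β → 1 ≤ K → ∃ (N : ℕ) (cl : ℝ × ℝ → Fin N), (N : ℝ) ≤ C * K ∧
    ∀ p p' p'' : ℝ × ℝ, a₁ * p.1 ^ 2 + a₂ * p.2 ^ 2 = μ → a₁ * p'.1 ^ 2 + a₂ * p'.2 ^ 2 = μ →
    a₁ * p''.1 ^ 2 + a₂ * p''.2 ^ 2 = μ → |p.1| ≤ β → |p.2| ≤ β → cl p = cl p' →
    cl p = cl p'' →
    |(p'.1 - p.1) * (p''.2 - p.2) - (p''.1 - p.1) * (p'.2 - p.2)| * K ^ 3 ≤ C * β ^ 2 := by
  have hs : 0 < Real.sqrt (a₁ * a₂) := Real.sqrt_pos.mpr (mul_pos h1 h2)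
  set A : ℝ := 4 * (a₁ + a₂) / Real.sqrt (a₁ * a₂) * (2 * Real.pi) ^ 3 with hA
  have hA0 : 0 < A := by
    have := Real.pi_pos
    positivity
  refine ⟨2 + A, by linarith, fun μ β K hβ hK => ?_⟩
  have hN1 : 1 ≤ ⌈K⌉₊ := Nat.one_le_iff_ne_zero.mpr (by
    have : 0 < ⌈K⌉₊ := Nat.ceil_pos.mpr (by linarith)
    omega)
  have hNle : (⌈K⌉₊ : ℝ) ≤ 2 * K := by
    have := Nat.ceil_lt_add_one (show 0 ≤ K by linarith)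
    linarith
  have hKN : K ≤ (⌈K⌉₊ : ℝ) := Nat.le_ceil K
  obtain ⟨cl, hcl⟩ := p_ANG a₁ a₂ (max μ 0) h1 h2 (le_max_right _ _) ⌈K⌉₊ hN1
  refine ⟨⌈K⌉₊, cl, by nlinarith, ?_⟩
  intro p p' p'' e e' e'' b1 b2 c c'
  have hμ0 : 0 ≤ μ := by rw [← e]; positivity
  have hμ : max μ 0 = μ := max_eq_left hμ0
  rw [hμ] at hcl
  have h := hcl p p' p'' e e' e'' c c'
  have hμβ : μ ≤ (a₁ + a₂) * β ^ 2 := by
    rw [← e]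
    have q1 : p.1 ^ 2 ≤ β ^ 2 := sq_le_sq' (by linarith [(abs_le.mp b1).1]) (abs_le.mp b1).2
    have q2 : p.2 ^ 2 ≤ β ^ 2 := sq_le_sq' (by linarith [(abs_le.mp b2).1]) (abs_le.mp b2).2
    nlinarith
  have hNpos : (0 : ℝ) < (⌈K⌉₊ : ℝ) := by linarith
  have hmin : min 1 ((2 * Real.pi / (⌈K⌉₊ : ℝ)) ^ 3) * K ^ 3 ≤ (2 * Real.pi) ^ 3 := by
    calc min 1 ((2 * Real.pi / (⌈K⌉₊ : ℝ)) ^ 3) * K ^ 3
        ≤ (2 * Real.pi / (⌈K⌉₊ : ℝ)) ^ 3 * K ^ 3 :=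
          mul_le_mul_of_nonneg_right (min_le_right _ _) (by positivity)
      _ = (2 * Real.pi) ^ 3 * (K / (⌈K⌉₊ : ℝ)) ^ 3 := by
          field_simp
      _ ≤ (2 * Real.pi) ^ 3 * 1 := by
          have hp := Real.pi_pos
          refine mul_le_mul_of_nonneg_left ?_ (by positivity)
          exact pow_le_one₀ (by positivity) ((div_le_one hNpos).mpr hKN)
      _ = (2 * Real.pi) ^ 3 := mul_one _
  have hp := Real.pi_pos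
  calc |(p'.1 - p.1) * (p''.2 - p.2) - (p''.1 - p.1) * (p'.2 - p.2)| * K ^ 3
      ≤ (4 * μ / Real.sqrt (a₁ * a₂) * min 1 ((2 * Real.pi / (⌈K⌉₊ : ℝ)) ^ 3)) * K ^ 3 :=
        mul_le_mul_of_nonneg_right h (by positivity)
    _ = 4 * μ / Real.sqrt (a₁ * a₂) * (min 1 ((2 * Real.pi / (⌈K⌉₊ : ℝ)) ^ 3) * K ^ 3) := by ring
    _ ≤ 4 * μ / Real.sqrt (a₁ * a₂) * (2 * Real.pi) ^ 3 :=
        mul_le_mul_of_nonneg_left hmin (by positivity)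
    _ ≤ 4 * ((a₁ + a₂) * β ^ 2) / Real.sqrt (a₁ * a₂) * (2 * Real.pi) ^ 3 := by gcongr
    _ = A * β ^ 2 := by rw [hA]; ring
    _ ≤ (2 + A) * β ^ 2 := by nlinarith [sq_nonneg β]

/-- the real case -/
lemma CEG_real (a₁ a₂ : ℝ) (h12 : 0 < a₁ * a₂) : ∃ C : ℝ, 0 < C ∧
    ∀ μ β K : ℝ, 0 < β → 1 ≤ K → ∃ (N : ℕ) (cl : ℝ × ℝ → Fin N), (N : ℝ) ≤ C * K ∧
    ∀ p p' p'' : ℝ × ℝ, a₁ * p.1 ^ 2 + a₂ * p.2 ^ 2 = μ → a₁ * p'.1 ^ 2 + a₂ * p'.2 ^ 2 = μ →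
    a₁ * p''.1 ^ 2 + a₂ * p''.2 ^ 2 = μ → |p.1| ≤ β → |p.2| ≤ β → cl p = cl p' →
    cl p = cl p'' →
    |(p'.1 - p.1) * (p''.2 - p.2) - (p''.1 - p.1) * (p'.2 - p.2)| * K ^ 3 ≤ C * β ^ 2 := by
  rcases (mul_pos_iff.mp h12) with ⟨h1, h2⟩ | ⟨h1, h2⟩
  · exact CEG_pos a₁ a₂ h1 h2
  · obtain ⟨C, hC, H⟩ := CEG_pos (-a₁) (-a₂) (by linarith) (by linarith)
    refine ⟨C, hC, fun μ β K hβ hK => ?_⟩
    obtain ⟨N, cl, hN, h⟩ := H (-μ) β K hβ hK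
    refine ⟨N, cl, hN, fun p p' p'' e e' e'' b1 b2 c c' => ?_⟩
    exact h p p' p'' (by linarith) (by linarith) (by linarith) b1 b2 c c'

/-- the complex case -/
lemma CEG_complex (hARC : Stmt_ARC) (a₁ a₂ : ℂ) (h1 : a₁ ≠ 0) (h2 : a₂ ≠ 0) :
    ∃ C : ℝ, 0 < C ∧
    ∀ (μ : ℂ) (β K : ℝ), 0 < β → 1 ≤ K → ∃ (N : ℕ) (cl : ℂ × ℂ → Fin N), (N : ℝ) ≤ C * K ∧
    ∀ p p' p'' : ℂ × ℂ, a₁ * p.1 ^ 2 + a₂ * p.2 ^ 2 = μ → a₁ * p'.1 ^ 2 + a₂ * p'.2 ^ 2 = μ →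
    a₁ * p''.1 ^ 2 + a₂ * p''.2 ^ 2 = μ → ‖p.1‖ ^ 2 ≤ β → ‖p.2‖ ^ 2 ≤ β →
    ‖p'.1‖ ^ 2 ≤ β → ‖p'.2‖ ^ 2 ≤ β → ‖p''.1‖ ^ 2 ≤ β → ‖p''.2‖ ^ 2 ≤ β →
    cl p = cl p' → cl p = cl p'' →
    ‖(p'.1 - p.1) * (p''.2 - p.2) - (p''.1 - p.1) * (p'.2 - p.2)‖ ^ 2 * K ^ 3 ≤ C * β ^ 2 := by
  obtain ⟨C, hC, H⟩ := hARC
  obtain ⟨g₁, hg₁⟩ := IsAlgClosed.exists_pow_nat_eq a₁ (n := 2) (by norm_num)
  obtain ⟨g₂, hg₂⟩ := IsAlgClosed.exists_pow_nat_eq a₂ (n := 2) (by norm_num)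
  have g10 : g₁ ≠ 0 := by
    rintro rfl
    exact h1 (by rw [← hg₁]; ring)
  have g20 : g₂ ≠ 0 := by
    rintro rfl
    exact h2 (by rw [← hg₂]; ring)
  have n1 : 0 < ‖g₁‖ := norm_pos_iff.mpr g10
  have n2 : 0 < ‖g₂‖ := norm_pos_iff.mpr g20
  set g : ℝ := ‖g₁‖ + ‖g₂‖ with hg
  have g0 : 0 < g := by positivity
  set B : ℝ := C ^ 2 * g ^ 4 / (2 * ‖g₁‖ * ‖g₂‖) ^ 2 with hB
  have hB0 : 0 < B := by positivity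
  refine ⟨C + B, by positivity, fun μ β K hβ hK => ?_⟩
  have sβ : 0 < Real.sqrt β := Real.sqrt_pos.mpr hβ
  have sβ2 : Real.sqrt β ^ 2 = β := Real.sq_sqrt hβ.le
  have sK : 1 ≤ Real.sqrt K := Real.one_le_sqrt.mpr hK
  have sK2 : Real.sqrt K ^ 2 = K := Real.sq_sqrt (by linarith)
  obtain ⟨N, cl, hN, h⟩ := H μ (g * Real.sqrt β) (Real.sqrt K) (by positivity) sK
  set T : ℂ × ℂ → ℂ × ℂ := fun p =>
    (g₁ * p.1 + Complex.I * g₂ * p.2, g₁ * p.1 - Complex.I * g₂ * p.2) with hT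
  have hprod : ∀ p : ℂ × ℂ, a₁ * p.1 ^ 2 + a₂ * p.2 ^ 2 = μ → (T p).1 * (T p).2 = μ := by
    intro p e
    have hI := Complex.I_sq
    simp only [hT]
    rw [← e, ← hg₁, ← hg₂]
    linear_combination (-(g₂ ^ 2 * p.2 ^ 2)) * hI
  have hroot : ∀ z : ℂ, ‖z‖ ^ 2 ≤ β → ‖z‖ ≤ Real.sqrt β := fun z hz => Real.le_sqrt_of_sq_le hz
  have hnorm : ∀ p : ℂ × ℂ, ‖p.1‖ ^ 2 ≤ β → ‖p.2‖ ^ 2 ≤ β →
      ‖(T p).1‖ ≤ g * Real.sqrt β ∧ ‖(T p).2‖ ≤ g * Real.sqrt β := by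
    intro p q1 q2
    have r1 := hroot _ q1
    have r2 := hroot _ q2
    have e1 : ‖g₁ * p.1‖ ≤ ‖g₁‖ * Real.sqrt β := by
      rw [norm_mul]
      exact mul_le_mul_of_nonneg_left r1 n1.le
    have e2 : ‖Complex.I * g₂ * p.2‖ ≤ ‖g₂‖ * Real.sqrt β := by
      rw [norm_mul, norm_mul, Complex.norm_I, one_mul]
      exact mul_le_mul_of_nonneg_left r2 n2.le
    constructor
    · calc ‖(T p).1‖ ≤ ‖g₁ * p.1‖ + ‖Complex.I * g₂ * p.2‖ := norm_add_le _ _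
        _ ≤ ‖g₁‖ * Real.sqrt β + ‖g₂‖ * Real.sqrt β := add_le_add e1 e2
        _ = g * Real.sqrt β := by rw [hg]; ring
    · calc ‖(T p).2‖ ≤ ‖g₁ * p.1‖ + ‖Complex.I * g₂ * p.2‖ := norm_sub_le _ _
        _ ≤ ‖g₁‖ * Real.sqrt β + ‖g₂‖ * Real.sqrt β := add_le_add e1 e2
        _ = g * Real.sqrt β := by rw [hg]; ring
  refine ⟨N, fun p => cl (T p), ?_, ?_⟩
  · rw [sK2] at hN
    nlinarith
  · intro p p' p'' e e' e'' b1 b2 b1' b2' b1'' b2'' c c'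
    have hm := h (T p) (T p') (T p'') (hprod p e) (hprod p' e') (hprod p'' e'')
      (hnorm p b1 b2).1 (hnorm p b1 b2).2 (hnorm p' b1' b2').1 (hnorm p' b1' b2').2
      (hnorm p'' b1'' b2'').1 (hnorm p'' b1'' b2'').2 c c'
    set D : ℂ := (p'.1 - p.1) * (p''.2 - p.2) - (p''.1 - p.1) * (p'.2 - p.2) with hD
    have hdet : ((T p').1 - (T p).1) * ((T p'').2 - (T p).2) -
        ((T p'').1 - (T p).1) * ((T p').2 - (T p).2) = -2 * Complex.I * g₁ * g₂ * D := by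
      simp only [hT, hD]
      ring
    rw [hdet] at hm
    have hn : ‖-2 * Complex.I * g₁ * g₂ * D‖ = 2 * ‖g₁‖ * ‖g₂‖ * ‖D‖ := by
      simp
    rw [hn] at hm
    have hm2 : (2 * ‖g₁‖ * ‖g₂‖ * ‖D‖ * Real.sqrt K ^ 3) ^ 2 ≤
        (C * (g * Real.sqrt β) ^ 2) ^ 2 := pow_le_pow_left₀ (by positivity) hm 2
    have hl : (2 * ‖g₁‖ * ‖g₂‖ * ‖D‖ * Real.sqrt K ^ 3) ^ 2 =
        (2 * ‖g₁‖ * ‖g₂‖) ^ 2 * (‖D‖ ^ 2 * K ^ 3) := by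
      have : (Real.sqrt K ^ 3) ^ 2 = K ^ 3 := by
        rw [← pow_mul, mul_comm 3 2, pow_mul, sK2]
      calc (2 * ‖g₁‖ * ‖g₂‖ * ‖D‖ * Real.sqrt K ^ 3) ^ 2
          = (2 * ‖g₁‖ * ‖g₂‖) ^ 2 * (‖D‖ ^ 2 * (Real.sqrt K ^ 3) ^ 2) := by ring
        _ = _ := by rw [this]
    have hr : (C * (g * Real.sqrt β) ^ 2) ^ 2 = C ^ 2 * g ^ 4 * β ^ 2 := by
      rw [mul_pow g, sβ2]
      ring
    rw [hl, hr] at hm2
    have hq : 0 < (2 * ‖g₁‖ * ‖g₂‖) ^ 2 := by positivity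
    have hfin : ‖D‖ ^ 2 * K ^ 3 ≤ B * β ^ 2 := by
      rw [hB, div_mul_eq_mul_div, le_div_iff₀ hq]
      linarith
    nlinarith [sq_nonneg β]

theorem p_CEG (hARC : Stmt_ARC) : Stmt_CEG := by
  intro F _ _ w c₁ c₂ h1 h2 hpos
  by_cases hr : w.IsReal
  · set σ := InfinitePlace.embedding_of_isReal hr with hσ
    have hw : ∀ x : F, w x = |σ x| := by
      intro x
      rw [← Real.norm_eq_abs, hσ, InfinitePlace.norm_embedding_of_isReal]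
    have hmult : w.mult = 1 := InfinitePlace.mult_isReal ⟨w, hr⟩
    have hp : 0 < σ c₁ * σ c₂ := by
      rw [← map_mul]
      exact hpos hr
    obtain ⟨C, hC, H⟩ := CEG_real (σ c₁) (σ c₂) hp
    refine ⟨C, hC, fun μ β K hβ hK => ?_⟩
    obtain ⟨N, cl, hN, h⟩ := H (σ μ) β K hβ hK
    have he : ∀ p : F × F, c₁ * p.1 ^ 2 + c₂ * p.2 ^ 2 = μ →
        σ c₁ * (σ p.1) ^ 2 + σ c₂ * (σ p.2) ^ 2 = σ μ := by
      intro p e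
      rw [← e]
      simp
    refine ⟨N, fun p => cl (σ p.1, σ p.2), hN, ?_⟩
    intro p p' p'' e e' e'' b1 b2 _ _ _ _ c c'
    rw [hmult, pow_one] at b1 b2 ⊢
    rw [hw] at b1 b2 ⊢
    have := h (σ p.1, σ p.2) (σ p'.1, σ p'.2) (σ p''.1, σ p''.2) (he p e) (he p' e')
      (he p'' e'') b1 b2 c c'
    simpa using this
  · have hc : w.IsComplex := InfinitePlace.not_isReal_iff_isComplex.mp hr
    set σ := w.embedding with hσ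
    have hw : ∀ x : F, w x = ‖σ x‖ := by
      intro x
      rw [hσ, InfinitePlace.norm_embedding_eq]
    have hmult : w.mult = 2 := InfinitePlace.mult_isComplex ⟨w, hc⟩
    obtain ⟨C, hC, H⟩ := CEG_complex hARC (σ c₁) (σ c₂)
      (by rwa [Ne, map_eq_zero]) (by rwa [Ne, map_eq_zero])
    refine ⟨C, hC, fun μ β K hβ hK => ?_⟩
    obtain ⟨N, cl, hN, h⟩ := H (σ μ) β K hβ hK
    have he : ∀ p : F × F, c₁ * p.1 ^ 2 + c₂ * p.2 ^ 2 = μ →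
        σ c₁ * (σ p.1) ^ 2 + σ c₂ * (σ p.2) ^ 2 = σ μ := by
      intro p e
      rw [← e]
      simp
    refine ⟨N, fun p => cl (σ p.1, σ p.2), hN, ?_⟩
    intro p p' p'' e e' e'' b1 b2 b1' b2' b1'' b2'' c c'
    rw [hmult] at b1 b2 b1' b2' b1'' b2'' ⊢
    rw [hw] at b1 b2 b1' b2' b1'' b2'' ⊢
    have := h (σ p.1, σ p.2) (σ p'.1, σ p'.2) (σ p''.1, σ p''.2) (he p e) (he p' e')
      (he p'' e'') b1 b2 b1' b2' b1'' b2'' c c'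
    simpa using this

end Pool.PQ
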