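import Pool.Agent.Work.MP_972ac7_Q.Interface1

set_option autoImplicit false

/-! # Block CFC of THEOREM PP (MP_972ac7_al), by helper2: the cutoff by functional calculus. -/

noncomputable section

namespace Pool.PQ

/-- the cutoff function -/
def CFC_c (x : ℝ) : ℝ := max 0 (min 1 (4 * x - 2))

theorem CFC_c_cont : Continuous CFC_c := by unfold CFC_c; fun_prop

theorem CFC_c_low {x : ℝ} (h : x ≤ 1 / 2) : CFC_c x = 0 := by
  unfold CFC_c
  rw [max_eq_left]
  exact le_trans (min_le_right _ _) (by linarith)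

theorem CFC_c_high {x : ℝ} (h : 3 / 4 ≤ x) : CFC_c x = 1 := by
  unfold CFC_c
  rw [min_eq_left (by linarith), max_eq_right (by norm_num)]

theorem CFC_c_nonneg (x : ℝ) : 0 ≤ CFC_c x := le_max_left _ _

theorem CFC_c_le (x : ℝ) : CFC_c x ≤ 1 := max_le (by norm_num) (min_le_left _ _)

/-- `1 / max (x, 1/2)` -/
def CFC_h (x : ℝ) : ℝ := (max x (1 / 2))⁻¹

theorem CFC_h_pos (x : ℝ) : 0 < max x (1 / 2) := lt_of_lt_of_le (by norm_num) (le_max_right _ _)

theorem CFC_h_cont : Continuous CFC_h := by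
  unfold CFC_h
  exact Continuous.inv₀ (by fun_prop) fun x => (CFC_h_pos x).ne'

theorem CFC_h_norm (x : ℝ) : ‖CFC_h x‖ ≤ 2 := by
  unfold CFC_h
  rw [norm_inv, Real.norm_eq_abs, abs_of_pos (CFC_h_pos x)]
  have h1 : (1 : ℝ) / 2 ≤ max x (1 / 2) := le_max_right _ _
  calc (max x (1 / 2))⁻¹ ≤ (1 / 2 : ℝ)⁻¹ := inv_anti₀ (by norm_num) h1
    _ = 2 := by norm_num

theorem CFC_h_mul (x : ℝ) : CFC_h x * (x * CFC_c x) = CFC_c x := by
  rcases le_or_gt x (1 / 2) with h | h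
  · rw [CFC_c_low h]; ring
  · unfold CFC_h
    rw [max_eq_left h.le]
    have : x ≠ 0 := by linarith
    field_simp

/-- `1 / max (1 - x, 1/4)` -/
def CFC_d (x : ℝ) : ℝ := (1 - CFC_c x) * (max (1 - x) (1 / 4))⁻¹

theorem CFC_d_pos (x : ℝ) : 0 < max (1 - x) (1 / 4) :=
  lt_of_lt_of_le (by norm_num) (le_max_right _ _)

theorem CFC_d_cont : Continuous CFC_d := by
  unfold CFC_d
  refine Continuous.mul (continuous_const.sub CFC_c_cont) ?_
  exact Continuous.inv₀ (by fun_prop) fun x => (CFC_d_pos x).ne'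

theorem CFC_d_mul (x : ℝ) : 1 - CFC_c x = CFC_d x * (1 - x) := by
  rcases le_or_gt (3 / 4) x with h | h
  · unfold CFC_d
    rw [CFC_c_high h]; ring
  · unfold CFC_d
    rw [max_eq_left (by linarith)]
    have : 1 - x ≠ 0 := by linarith
    field_simp

/-- the square root of `3/4 - x (1 - c x)²` -/
def CFC_s (x : ℝ) : ℝ := Real.sqrt (3 / 4 - x * ((1 - CFC_c x) * (1 - CFC_c x)))

theorem CFC_s_cont : Continuous CFC_s := by
  unfold CFC_s
  have := CFC_c_cont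
  fun_prop

theorem CFC_s_mul (x : ℝ) : CFC_s x * CFC_s x = 3 / 4 - x * ((1 - CFC_c x) * (1 - CFC_c x)) := by
  unfold CFC_s
  rw [Real.mul_self_sqrt]
  rcases le_or_gt (3 / 4) x with h | h
  · rw [CFC_c_high h]; norm_num
  · have h1 := CFC_c_nonneg x
    have h2 := CFC_c_le x
    have h3 : (1 - CFC_c x) * (1 - CFC_c x) ≤ 1 := by nlinarith
    have h4 : 0 ≤ (1 - CFC_c x) * (1 - CFC_c x) := by nlinarith
    rcases le_or_gt x 0 with h5 | h5
    · nlinarith
    · nlinarith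

theorem p_CFC : Stmt_CFC := by
  intro H _ _ _ T hT hT1
  have hc := CFC_c_cont
  have hh := CFC_h_cont
  have hd := CFC_d_cont
  have hs := CFC_s_cont
  have hsa : ∀ f : ℝ → ℝ, IsSelfAdjoint (cfc f T) := fun f => cfc_predicate f T
  set χ : H →L[ℂ] H := cfc CFC_c T with hχ
  have hcomm : ∀ S : H →L[ℂ] H, S * T = T * S → S * χ = χ * S := by
    intro S hS
    have h1 : Commute T S := hS.symm
    exact ((h1.cfc_real CFC_c).eq).symm
  have hone : (1 : H →L[ℂ] H) = cfc (fun _ : ℝ => (1 : ℝ)) T := (cfc_const_one ℝ T).symm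
  have hid : T = cfc (fun x : ℝ => x) T := (cfc_id' ℝ T).symm
  have hmulh : cfc CFC_h T * (T * χ) = χ := by
    conv_lhs => rw [hid]
    rw [hχ, cfc_id' ℝ T]
    conv_lhs => rw [show T * cfc CFC_c T = cfc (fun x : ℝ => x * CFC_c x) T from by
      rw [cfc_mul (fun x : ℝ => x) CFC_c T, cfc_id' ℝ T]]
    rw [← cfc_mul CFC_h (fun x : ℝ => x * CFC_c x) T]
    congr 1
    funext x
    exact CFC_h_mul x
  have hnormh : ‖cfc CFC_h T‖ ≤ 2 := norm_cfc_le (by norm_num) fun x _ => CFC_h_norm x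
  have hstep : ∀ w : H, ‖χ w‖ ≤ 2 * ‖T (χ w)‖ := by
    intro w
    have h1 : χ w = cfc CFC_h T (T (χ w)) := by
      conv_lhs => rw [← hmulh]
      rfl
    calc ‖χ w‖ = ‖cfc CFC_h T (T (χ w))‖ := by rw [← h1]
      _ ≤ ‖cfc CFC_h T‖ * ‖T (χ w)‖ := ContinuousLinearMap.le_opNorm _ _
      _ ≤ 2 * ‖T (χ w)‖ := mul_le_mul_of_nonneg_right hnormh (norm_nonneg _)
  have hTχ : ∀ w : H, T (χ w) = χ (T w) := by
    intro w
    have := hcomm T rfl
    exact congrArg (fun A : H →L[ℂ] H => A w) this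
  have hpow : ∀ (n : ℕ) (v : H), (T ^ n) (χ v) = χ ((T ^ n) v) := by
    intro n
    induction n with
    | zero => intro v; simp
    | succ n ih =>
      intro v
      rw [pow_succ, mul_apply_eq_comp, hTχ, ih, mul_apply_eq_comp]
  have hdm : (1 : H →L[ℂ] H) - χ = cfc CFC_d T * (1 - T) := by
    have e1 : (1 : H →L[ℂ] H) - χ = cfc (fun x : ℝ => 1 - CFC_c x) T := by
      rw [cfc_sub (fun _ : ℝ => (1 : ℝ)) CFC_c T, cfc_const_one ℝ T]
    have e2 : (1 : H →L[ℂ] H) - T = cfc (fun x : ℝ => 1 - x) T := by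
      rw [cfc_sub (fun _ : ℝ => (1 : ℝ)) (fun x : ℝ => x) T, cfc_const_one ℝ T, cfc_id' ℝ T]
    rw [e1, e2, ← cfc_mul CFC_d (fun x : ℝ => 1 - x) T]
    congr 1
    funext x
    exact CFC_d_mul x
  have hsm : cfc CFC_s T * cfc CFC_s T =
      ((3 / 4 : ℝ) • (1 : H →L[ℂ] H)) - T * ((1 - χ) * (1 - χ)) := by
    have e1 : (1 : H →L[ℂ] H) - χ = cfc (fun x : ℝ => 1 - CFC_c x) T := by
      rw [cfc_sub (fun _ : ℝ => (1 : ℝ)) CFC_c T, cfc_const_one ℝ T]
    have e3 : ((3 / 4 : ℝ) • (1 : H →L[ℂ] H)) = cfc (fun _ : ℝ => (3 / 4 : ℝ)) T := by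
      rw [cfc_const (3 / 4 : ℝ) T, Algebra.algebraMap_eq_smul_one]
    have e4 : T * ((1 - χ) * (1 - χ)) =
        cfc (fun x : ℝ => x * ((1 - CFC_c x) * (1 - CFC_c x))) T := by
      rw [cfc_mul (fun x : ℝ => x) (fun x : ℝ => (1 - CFC_c x) * (1 - CFC_c x)) T, cfc_id' ℝ T,
        cfc_mul (fun x : ℝ => 1 - CFC_c x) (fun x : ℝ => 1 - CFC_c x) T, e1]
    rw [e3, e4, ← cfc_sub (fun _ : ℝ => (3 / 4 : ℝ))
      (fun x : ℝ => x * ((1 - CFC_c x) * (1 - CFC_c x))) T, ← cfc_mul CFC_s CFC_s T]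
    congr 1
    funext x
    exact CFC_s_mul x
  refine ⟨χ, hsa _, hcomm, ?_, ?_, ?_⟩
  · intro v n
    induction n with
    | zero => simp
    | succ n ih =>
      have h1 : ‖(T ^ n) (χ v)‖ ≤ 2 * ‖(T ^ (n + 1)) (χ v)‖ := by
        rw [pow_succ', mul_apply_eq_comp, hpow]
        exact hstep _
      calc ‖χ v‖ ≤ 2 ^ n * ‖(T ^ n) (χ v)‖ := ih
        _ ≤ 2 ^ n * (2 * ‖(T ^ (n + 1)) (χ v)‖) :=
          mul_le_mul_of_nonneg_left h1 (by positivity)
        _ = _ := by ring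
  · intro v hv
    have h1 : ((1 : H →L[ℂ] H) - χ) v = 0 := by
      rw [hdm, mul_apply_eq_comp]
      have : ((1 : H →L[ℂ] H) - T) v = 0 := by
        simp [hv]
      rw [this, map_zero]
    have h2 : v - χ v = 0 := h1
    exact (sub_eq_zero.1 h2).symm
  · intro v hv
    have h1 : ((1 : H →L[ℂ] H) - χ) v = v := by
      simp [hv]
    have h2 : (cfc CFC_s T * cfc CFC_s T) v = (3 / 4 : ℝ) • v - T v := by
      rw [hsm]
      simp only [sub_apply, mul_apply_eq_comp,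
        smul_apply, one_apply_eq_self]
      have h1' : v - χ v = v := h1
      rw [h1', h1']
    have h3 : (inner ℂ ((cfc CFC_s T * cfc CFC_s T) v) v : ℂ) =
        inner ℂ (cfc CFC_s T v) (cfc CFC_s T v) := by
      rw [mul_apply_eq_comp]
      exact (hsa CFC_s).isSymmetric _ _
    have h4 : (inner ℂ (T v) v : ℂ).re = 3 / 4 * ‖v‖ ^ 2 - ‖cfc CFC_s T v‖ ^ 2 := by
      have h5 : (inner ℂ (T v) v : ℂ) = inner ℂ ((3 / 4 : ℝ) • v) v -
          inner ℂ ((cfc CFC_s T * cfc CFC_s T) v) v := by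
        rw [h2, inner_sub_left]; ring
      rw [h5, h3, Complex.sub_re]
      have h6 : (inner ℂ ((3 / 4 : ℝ) • v) v : ℂ).re = 3 / 4 * ‖v‖ ^ 2 := by
        have e : ((3 / 4 : ℝ) • v) = (((3 / 4 : ℝ) : ℂ)) • v := (Complex.coe_smul _ _).symm
        rw [e, inner_smul_left, Complex.conj_ofReal, inner_self_eq_norm_sq_to_K,
          Complex.re_ofReal_mul]
        congr 1
        norm_cast
      have h7 : (inner ℂ (cfc CFC_s T v) (cfc CFC_s T v) : ℂ).re = ‖cfc CFC_s T v‖ ^ 2 := by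
        rw [inner_self_eq_norm_sq_to_K]
        norm_cast
      rw [h6, h7]
    rw [h4]
    have := sq_nonneg ‖cfc CFC_s T v‖
    linarith

end Pool.PQ
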