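import Pool.Agent.Work.MP_972ac7_Q.Interface2
import Pool.Agent.Work.MP_972ac7_P.B_LCL

set_option autoImplicit false

/-! # THEOREM PP, part II: block CKG, cocompactness -/

open MeasureTheory NumberField IsDedekindDomain
open scoped Quaternion ENNReal

noncomputable section

namespace Pool.PQ

open Pool.PL Pool.TFD Pool.TC

theorem CKG_min {A : Type} (s : Set A) (hs : s.Finite) (f : A → ℝ) (hf : ∀ x ∈ s, 0 < f x) :
    ∃ ε : ℝ, 0 < ε ∧ ∀ x ∈ s, ε ≤ f x := by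
  rcases s.eq_empty_or_nonempty with h | h
  · refine ⟨1, one_pos, ?_⟩
    rw [h]
    intro x hx
    exact absurd hx (Set.notMem_empty x)
  · obtain ⟨a, ha, h1⟩ := Set.exists_min_image s f hs h
    exact ⟨f a, hf a ha, h1⟩

theorem CKG_rep {G Y : Type} [Finite Y] (f : G → Y) (b : G → ℝ) :
    ∃ R : ℝ, ∀ g, ∃ g₀, f g₀ = f g ∧ b g₀ ≤ R := by
  classical
  have h : ∀ y : Set.range f, ∃ g, f g = y.1 := fun y => y.2
  choose s hs using h
  obtain ⟨R, hR⟩ := (Set.finite_range (fun y : Set.range f => b (s y))).bddAbove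
  exact ⟨R, fun g => ⟨s ⟨f g, g, rfl⟩, hs _, hR ⟨_, rfl⟩⟩⟩

theorem CKG_det {k : Type} [NormedField k] (m : Matrix (Fin 2) (Fin 2) k) :
    ‖m.det‖ ≤ 2 * mnm m ^ 2 := by
  rw [Matrix.det_fin_two]
  have h : ∀ i j i' j', ‖m i j * m i' j'‖ ≤ mnm m ^ 2 := fun i j i' j' => by
    rw [norm_mul, pow_two]
    exact mul_le_mul (le_mnm m i j) (le_mnm m i' j') (norm_nonneg _) (mnm_nonneg m)
  calc ‖m 0 0 * m 1 1 - m 0 1 * m 1 0‖ ≤ ‖m 0 0 * m 1 1‖ + ‖m 0 1 * m 1 0‖ := norm_sub_le _ _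
    _ ≤ mnm m ^ 2 + mnm m ^ 2 := add_le_add (h _ _ _ _) (h _ _ _ _)
    _ = _ := by ring

theorem CKG_mnm_smul {k : Type} [NormedField k] (c : k) (m : Matrix (Fin 2) (Fin 2) k) :
    mnm (c • m) ≤ ‖c‖ * mnm m := by
  rw [mnm_le]
  intro i j
  rw [Matrix.smul_apply, smul_eq_mul, norm_mul]
  exact mul_le_mul_of_nonneg_left (le_mnm m i j) (norm_nonneg _)

theorem CKG_mq_smul {F k : Type} [Field F] [NormedField k] (e : F →+* k) {a b : F} (x y : k)
    (c : F) (z : ℍ[F, a, b]) : mq e x y (c • z) = e c • mq e x y z := by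
  ext i j
  fin_cases i <;> fin_cases j <;>
  · simp [mq]
    ring

theorem CKG_nrq_smul {F : Type} [Field F] {a b : F} (c : F) (z : ℍ[F, a, b]) :
    nrq (c • z) = c ^ 2 * nrq z := by
  simp only [nrq, QuaternionAlgebra.re_smul, QuaternionAlgebra.imI_smul,
    QuaternionAlgebra.imJ_smul, QuaternionAlgebra.imK_smul, smul_eq_mul]
  ring

section arith

variable {F : Type} [Field F] [NumberField F]

theorem CKG_nrq_le {a b : 𝓞 F} (w : HeightOneSpectrum (𝓞 F)) {z : ℍ[F, (a : F), (b : F)]}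
    (h : CB w z 1) : av w (nrq z) ≤ 1 := by
  obtain ⟨h1, h2, h3, h4⟩ := h
  rw [← mem_OS] at h1 h2 h3 h4
  have ha : (a : F) ∈ OS w := av_int w a
  have hb : (b : F) ∈ OS w := av_int w b
  rw [← mem_OS]
  unfold nrq
  exact add_mem (sub_mem (sub_mem (pow_mem h1 2) (mul_mem ha (pow_mem h2 2)))
    (mul_mem hb (pow_mem h3 2))) (mul_mem (mul_mem ha hb) (pow_mem h4 2))

theorem CKG_inf (w : InfinitePlace F) {a b : F} (x : ℍ[F, a, b]) {C : ℝ}
    (hC : ∀ j, w (co x j) ≤ C) : w (nrq x) ≤ C ^ 2 * (1 + w a + w b + w a * w b) := by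
  have h0 : ‖w.embedding x.re‖ ^ 2 ≤ C ^ 2 := by
    apply pow_le_pow_left₀ (norm_nonneg _)
    rw [InfinitePlace.norm_embedding_eq]
    exact hC 0
  have h1 : ‖w.embedding x.imI‖ ^ 2 ≤ C ^ 2 := by
    apply pow_le_pow_left₀ (norm_nonneg _)
    rw [InfinitePlace.norm_embedding_eq]
    exact hC 1
  have h2 : ‖w.embedding x.imJ‖ ^ 2 ≤ C ^ 2 := by
    apply pow_le_pow_left₀ (norm_nonneg _)
    rw [InfinitePlace.norm_embedding_eq]
    exact hC 2
  have h3 : ‖w.embedding x.imK‖ ^ 2 ≤ C ^ 2 := by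
    apply pow_le_pow_left₀ (norm_nonneg _)
    rw [InfinitePlace.norm_embedding_eq]
    exact hC 3
  have ha : ‖w.embedding a‖ = w a := InfinitePlace.norm_embedding_eq w a
  have hb : ‖w.embedding b‖ = w b := InfinitePlace.norm_embedding_eq w b
  have ha0 : 0 ≤ w a := apply_nonneg w a
  have hb0 : 0 ≤ w b := apply_nonneg w b
  rw [← InfinitePlace.norm_embedding_eq w (nrq x)]
  unfold nrq
  rw [map_add, map_sub, map_sub, map_mul, map_mul, map_mul, map_mul, map_pow, map_pow, map_pow,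
    map_pow]
  have e1 : ‖w.embedding a * w.embedding x.imI ^ 2‖ ≤ w a * C ^ 2 := by
    rw [norm_mul, norm_pow, ha]
    exact mul_le_mul_of_nonneg_left h1 ha0
  have e2 : ‖w.embedding b * w.embedding x.imJ ^ 2‖ ≤ w b * C ^ 2 := by
    rw [norm_mul, norm_pow, hb]
    exact mul_le_mul_of_nonneg_left h2 hb0
  have e3 : ‖w.embedding a * w.embedding b * w.embedding x.imK ^ 2‖ ≤ w a * w b * C ^ 2 := by
    rw [norm_mul, norm_mul, norm_pow, ha, hb]
    exact mul_le_mul_of_nonneg_left h3 (mul_nonneg ha0 hb0)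
  have e0 : ‖w.embedding x.re ^ 2‖ ≤ C ^ 2 := by
    rw [norm_pow]
    exact h0
  have k1 := norm_add_le (w.embedding x.re ^ 2 - w.embedding a * w.embedding x.imI ^ 2 -
    w.embedding b * w.embedding x.imJ ^ 2) (w.embedding a * w.embedding b *
    w.embedding x.imK ^ 2)
  have k2 := norm_sub_le (w.embedding x.re ^ 2 - w.embedding a * w.embedding x.imI ^ 2)
    (w.embedding b * w.embedding x.imJ ^ 2)
  have k3 := norm_sub_le (w.embedding x.re ^ 2) (w.embedding a * w.embedding x.imI ^ 2)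
  linarith

theorem CKG_supp (hfin : ∀ n : 𝓞 F, n ≠ 0 → {w : HeightOneSpectrum (𝓞 F) | n ∈ w.asIdeal}.Finite)
    (δ : F) (hδ : δ ≠ 0) : {w : HeightOneSpectrum (𝓞 F) | av w δ ≠ 1}.Finite := by
  obtain ⟨p, q, hq, rfl⟩ := IsFractionRing.div_surjective (A := 𝓞 F) δ
  have hq0 : q ≠ 0 := nonZeroDivisors.ne_zero hq
  have hp0 : p ≠ 0 := by
    rintro rfl
    exact hδ (by simp)
  refine ((hfin p hp0).union (hfin q hq0)).subset ?_
  intro w hw
  by_contra hcon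
  rw [Set.mem_union, not_or] at hcon
  apply hw
  have h1 : av w (algebraMap (𝓞 F) F p) = 1 := (av_int_eq_one_iff w p).2 hcon.1
  have h2 : av w (algebraMap (𝓞 F) F q) = 1 := (av_int_eq_one_iff w q).2 hcon.2
  have hqF : algebraMap (𝓞 F) F q ≠ 0 := by
    intro h
    exact hq0 (NumberField.RingOfIntegers.coe_eq_zero_iff.1 h)
  have h3 : av w (algebraMap (𝓞 F) F p / algebraMap (𝓞 F) F q) * av w (algebraMap (𝓞 F) F q) =
      av w (algebraMap (𝓞 F) F p) := by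
    rw [← av_mul, div_mul_cancel₀ _ hqF]
  rw [h1, h2, mul_one] at h3
  exact h3

theorem CKG_av_inv (w : HeightOneSpectrum (𝓞 F)) {d : F} (hd : d ≠ 0) :
    av w d⁻¹ * av w d = 1 := by
  rw [← av_mul, inv_mul_cancel₀ hd]
  exact map_one _

theorem CKG_av_pos (w : HeightOneSpectrum (𝓞 F)) {d : F} (hd : d ≠ 0) : 0 < av w d := by
  rcases (av_nonneg w d).lt_or_eq with h | h
  · exact h
  · have h1 := CKG_av_inv w hd
    rw [← h, mul_zero] at h1
    exact absurd h1 zero_ne_one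

theorem CKG_cb_smul (w : HeightOneSpectrum (𝓞 F)) {a b : F} {d : F} (hd : d ≠ 0)
    {z : ℍ[F, a, b]} (h : ∀ j, av w (co z j) ≤ av w d) : CB w (d⁻¹ • z) 1 := by
  have h1 : ∀ x : F, av w x ≤ av w d → av w (d⁻¹ * x) ≤ 1 := by
    intro x hx
    rw [av_mul]
    calc av w d⁻¹ * av w x ≤ av w d⁻¹ * av w d := mul_le_mul_of_nonneg_left hx (av_nonneg w _)
      _ = 1 := CKG_av_inv w hd
  refine ⟨?_, ?_, ?_, ?_⟩
  · rw [QuaternionAlgebra.re_smul, smul_eq_mul]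
    exact h1 _ (h 0)
  · rw [QuaternionAlgebra.imI_smul, smul_eq_mul]
    exact h1 _ (h 1)
  · rw [QuaternionAlgebra.imJ_smul, smul_eq_mul]
    exact h1 _ (h 2)
  · rw [QuaternionAlgebra.imK_smul, smul_eq_mul]
    exact h1 _ (h 3)

theorem CKG_cb_add (w : HeightOneSpectrum (𝓞 F)) {a b : F} {z z' : ℍ[F, a, b]} (h : CB w z 1)
    (h' : CB w z' 1) : CB w (z + z') 1 := by
  obtain ⟨h1, h2, h3, h4⟩ := h
  obtain ⟨k1, k2, k3, k4⟩ := h'
  refine ⟨?_, ?_, ?_, ?_⟩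
  · rw [QuaternionAlgebra.re_add]
    exact (av_add_le w _ _).trans (max_le h1 k1)
  · rw [QuaternionAlgebra.imI_add]
    exact (av_add_le w _ _).trans (max_le h2 k2)
  · rw [QuaternionAlgebra.imJ_add]
    exact (av_add_le w _ _).trans (max_le h3 k3)
  · rw [QuaternionAlgebra.imK_add]
    exact (av_add_le w _ _).trans (max_le h4 k4)

theorem CKG_cb_co {w : HeightOneSpectrum (𝓞 F)} {a b : F} {z : ℍ[F, a, b]} {c : ℝ}
    (h : CB w z c) : ∀ j, av w (co z j) ≤ c := by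
  obtain ⟨h1, h2, h3, h4⟩ := h
  intro j
  fin_cases j
  · exact h1
  · exact h2
  · exact h3
  · exact h4

theorem CKG_co_sub {a b : F} (z z' : ℍ[F, a, b]) (j : Fin 4) :
    co (z - z') j = co z j - co z' j := by
  fin_cases j
  · exact QuaternionAlgebra.re_sub _ _
  · exact QuaternionAlgebra.imI_sub _ _
  · exact QuaternionAlgebra.imJ_sub _ _
  · exact QuaternionAlgebra.imK_sub _ _

end arith

theorem p_CKG (hPFG : Stmt_PFG) (hCLG : Stmt_CLG) (hFBG : Stmt_FBG) : Stmt_CKG := by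
  classical
  intro F _ _ ι _ k _ D
  have := Fintype.ofFinite ι
  obtain ⟨-, -, -, hfinP⟩ := hPFG F
  obtain ⟨C, hC1, hC⟩ := hCLG F ι k D
  choose X hX0 hX1 hX2 hX3 hX4 using hC
  obtain ⟨δ, hδ⟩ : ∃ δ : GG k → F, ∀ g, δ g = nrq (X g) := ⟨_, fun _ => rfl⟩
  have hδ0 : ∀ g, δ g ≠ 0 := fun g h => hX0 g (D.dv _ (by rw [← hδ]; exact h))
  have h2C : 1 ≤ 2 * C ^ 2 := by nlinarith
  have hdet : ∀ g i, ‖D.e i (δ g)‖ ≤ 2 * C ^ 2 := by
    intro g i
    have h1 : D.e i (δ g) = ((g i : Matrix (Fin 2) (Fin 2) (k i)) * D.mt i (X g)).det := by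
      rw [Matrix.det_mul, (g i).det_coe, one_mul, hδ]
      exact (mq_det (D.e i) (D.spl i) (X g)).symm
    rw [h1]
    exact (CKG_det _).trans (mul_le_mul_of_nonneg_left
      (pow_le_pow_left₀ (mnm_nonneg _) (hX3 g i) 2) (by norm_num))
  have hpe : ∀ g i, nv (D.pl i) (δ g) ≤ (2 * C ^ 2) ^ 2 := by
    intro g i
    rw [← D.he i]
    refine (pow_le_pow_left₀ (norm_nonneg _) (hdet g i) _).trans (pow_le_pow_right₀ h2C ?_)
    rcases (D.L i).he with h | h <;> rw [h]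
    norm_num
  obtain ⟨s, hs⟩ : ∃ s : InfinitePlace F → ℝ, ∀ w, s w = C ^ 2 * (1 + w (D.a : F) + w (D.b : F) +
    w (D.a : F) * w (D.b : F)) := ⟨_, fun _ => rfl⟩
  have hs0 : ∀ w, 0 ≤ s w := by
    intro w
    rw [hs]
    have h1 : 0 ≤ w (D.a : F) := apply_nonneg w _
    have h2 : 0 ≤ w (D.b : F) := apply_nonneg w _
    positivity
  obtain ⟨B, hB⟩ : ∃ B : ℝ, B = (2 * C ^ 2) ^ 2 + ∑ w : InfinitePlace F, s w := ⟨_, rfl⟩
  have hsum0 : 0 ≤ ∑ w : InfinitePlace F, s w := Finset.sum_nonneg fun w _ => hs0 w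
  have hB1 : (2 * C ^ 2) ^ 2 ≤ B := by
    rw [hB]
    linarith
  have h1B : 1 ≤ B := le_trans (one_le_pow₀ h2C) hB1
  have hB2 : ∀ w, s w ≤ B := by
    intro w
    have h1 := Finset.single_le_sum (f := s) (fun w _ => hs0 w) (Finset.mem_univ w)
    have h2 : 0 ≤ (2 * C ^ 2) ^ 2 := sq_nonneg _
    rw [hB]
    linarith
  obtain ⟨Dl, hDl⟩ : ∃ Dl : Set F, Dl = {δ : F | (∀ w : HeightOneSpectrum (𝓞 F),
      D.n ∉ w.asIdeal → av w δ ≤ 1) ∧ (∀ w : HeightOneSpectrum (𝓞 F), av w δ ≤ B) ∧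
      ∀ w : InfinitePlace F, w δ ≤ B} := ⟨_, rfl⟩
  have hfin : Dl.Finite := by
    rw [hDl]
    exact hFBG F D.n B D.hn
  have hmem : ∀ g, δ g ∈ Dl := by
    intro g
    rw [hDl]
    refine ⟨fun w hw => ?_, fun w => ?_, fun w => ?_⟩
    · rw [hδ]
      exact CKG_nrq_le w (hX1 g w hw)
    · by_cases hn : D.n ∈ w.asIdeal
      · by_cases hi : ∀ i, D.pl i ≠ .inl w
        · rw [hδ]
          exact (CKG_nrq_le w (hX2 g w hn hi)).trans h1B
        · push Not at hi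
          obtain ⟨i, hi⟩ := hi
          have h1 := hpe g i
          rw [hi] at h1
          exact le_trans h1 hB1
      · rw [hδ]
        exact (CKG_nrq_le w (hX1 g w hn)).trans h1B
    · by_cases hi : ∀ i, D.pl i ≠ .inr w
      · have h1 := CKG_inf w (X g) (hX4 g w hi)
        rw [← hδ, ← hs] at h1
        exact h1.trans (hB2 w)
      · push Not at hi
        obtain ⟨i, hi⟩ := hi
        have h1 := hpe g i
        rw [hi] at h1
        rcases le_total (w (δ g)) 1 with h | h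
        · exact h.trans h1B
        · exact (le_self_pow₀ h InfinitePlace.mult_ne_zero).trans (le_trans h1 hB1)
  -- the exceptional places
  obtain ⟨T, hT⟩ : ∃ T : Set (HeightOneSpectrum (𝓞 F)), T = ⋃ d ∈ {d ∈ Dl | d ≠ 0},
    {w : HeightOneSpectrum (𝓞 F) | av w d ≠ 1} := ⟨_, rfl⟩
  have hTf : T.Finite := by
    rw [hT]
    exact Set.Finite.biUnion (hfin.subset fun d hd => hd.1) fun d hd => CKG_supp hfinP d hd.2
  have hTn : ∀ w, w ∉ T → ∀ d ∈ Dl, d ≠ 0 → av w d = 1 := by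
    intro w hw d hd hd0
    by_contra hcon
    apply hw
    rw [hT]
    exact Set.mem_biUnion (show d ∈ {d ∈ Dl | d ≠ 0} from ⟨hd, hd0⟩) hcon
  have hε : ∀ w : HeightOneSpectrum (𝓞 F), ∃ ε : ℝ, 0 < ε ∧ ∀ d ∈ {d ∈ Dl | d ≠ 0},
      ε ≤ av w d := fun w =>
    CKG_min _ (hfin.subset fun d hd => hd.1) (av w) fun d hd => CKG_av_pos w hd.2
  choose ε hε0 hε1 using hε
  choose N cl hcl using fun w => Pool.PL.p_LCL F w (ε w) (hε0 w)
  haveI := hTf.to_subtype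
  haveI := hfin.to_subtype
  obtain ⟨R, hR⟩ := CKG_rep (Y := ↥Dl × (∀ w : ↥T, Fin 4 → Fin (N w.1)))
    (fun g => (⟨δ g, hmem g⟩, fun w j => cl w.1 (co (X g) j)))
    (fun g => ∑ i, ‖D.e i (δ g)‖⁻¹ * (2 * (C * mnm (D.mt i (star (X g))))))
  refine ⟨R, fun g => ?_⟩
  obtain ⟨g₀, hf, hb⟩ := hR g
  have hδe : δ g₀ = δ g := congrArg (fun y => y.1.1) hf
  have hcle : ∀ w (hw : w ∈ T) (j : Fin 4), cl w (co (X g₀) j) = cl w (co (X g) j) :=
    fun w hw j => congrFun (congrFun (congrArg Prod.snd hf) ⟨w, hw⟩) j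
  obtain ⟨d, hd⟩ : ∃ d : F, d = δ g₀ := ⟨_, rfl⟩
  have hd0 : d ≠ 0 := by
    rw [hd]
    exact hδ0 g₀
  have hdm : d ∈ Dl := by
    rw [hd]
    exact hmem g₀
  have hx0 : nrq (X g₀) = d := by
    rw [hd, hδ]
  have hx : nrq (X g) = d := by
    rw [hd, hδe, hδ]
  obtain ⟨u, hu⟩ : ∃ u : ℍ[F, (D.a : F), (D.b : F)], u = d⁻¹ • (X g * star (X g₀)) := ⟨_, rfl⟩
  have hnu : nrq u = 1 := by
    rw [hu, CKG_nrq_smul, nrq_mul, nrq_star, hx, hx0]
    field_simp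
  have hu2 : u = 1 + (d⁻¹ • (X g - X g₀)) * star (X g₀) := by
    have h1 : (d⁻¹ : F) • (X g₀ * star (X g₀)) = 1 := by
      rw [(star_mul_self' (X g₀)).2, hx0]
      ext <;> simp [hd0]
    rw [hu, smul_mul_assoc, sub_mul, smul_sub, h1]
    abel
  have hGU : (⟨u, (mem_unitary_iff_nrq _).2 hnu⟩ : unitary ℍ[F, (D.a : F), (D.b : F)]) ∈
      GU D.a D.b D.n := by
    rw [mem_GU]
    intro w hw
    have hs0 : CB w (star (X g₀)) 1 := CB_star (hX1 g₀ w hw)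
    by_cases hwT : w ∈ T
    · change CB w u 1
      rw [hu2]
      refine CKG_cb_add w (CB_one w) (CB_mul (av_int w D.a) (av_int w D.b) ?_ hs0)
      apply CKG_cb_smul w hd0
      intro j
      rw [CKG_co_sub]
      refine le_trans (hcl w _ _ (CKG_cb_co (hX1 g w hw) j) (CKG_cb_co (hX1 g₀ w hw) j)
        (hcle w hwT j).symm) (hε1 w d ⟨hdm, hd0⟩)
    · change CB w u 1
      rw [hu]
      apply CKG_cb_smul w hd0
      intro j
      rw [hTn w hwT d hdm hd0]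
      exact CKG_cb_co (CB_mul (av_int w D.a) (av_int w D.b) (hX1 g w hw) hs0) j
  refine ⟨D.Th ⟨u, (mem_unitary_iff_nrq _).2 hnu⟩, Subgroup.mem_map.2 ⟨_, hGU, rfl⟩, fun i => ?_⟩
  have h1 : nm ((g * D.Th ⟨u, (mem_unitary_iff_nrq _).2 hnu⟩ : GG k) i) =
      mnm ((g i : Matrix (Fin 2) (Fin 2) (k i)) * D.mt i u) := by
    unfold nm
    rw [Pi.mul_apply, Matrix.SpecialLinearGroup.coe_mul]
    rfl
  have h2 : (g i : Matrix (Fin 2) (Fin 2) (k i)) * D.mt i u =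
      (D.e i d)⁻¹ • (((g i : Matrix (Fin 2) (Fin 2) (k i)) * D.mt i (X g)) *
        D.mt i (star (X g₀))) := by
    rw [hu]
    unfold Cx.mt
    rw [CKG_mq_smul, mq_mul _ (D.spl i), map_inv₀, Matrix.mul_smul, ← mul_assoc]
  rw [h1, h2]
  refine (CKG_mnm_smul _ _).trans ?_
  rw [norm_inv]
  have h3 : mnm (((g i : Matrix (Fin 2) (Fin 2) (k i)) * D.mt i (X g)) *
      D.mt i (star (X g₀))) ≤ 2 * (C * mnm (D.mt i (star (X g₀)))) :=
    (mnm_mul_le2 _ _).trans (mul_le_mul_of_nonneg_left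
      (mul_le_mul_of_nonneg_right (hX3 g i) (mnm_nonneg _)) (by norm_num))
  have h4 : ‖D.e i d‖⁻¹ * (2 * (C * mnm (D.mt i (star (X g₀))))) ≤
      ∑ i, ‖D.e i (δ g₀)‖⁻¹ * (2 * (C * mnm (D.mt i (star (X g₀))))) := by
    rw [hd]
    refine Finset.single_le_sum
      (f := fun i => ‖D.e i (δ g₀)‖⁻¹ * (2 * (C * mnm (D.mt i (star (X g₀))))))
      (fun i _ => ?_) (Finset.mem_univ i)
    have h5 := mnm_nonneg (D.mt i (star (X g₀)))
    have h6 : 0 ≤ C := by linarith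
    positivity
  exact (mul_le_mul_of_nonneg_left h3 (inv_nonneg.2 (norm_nonneg _))).trans (h4.trans hb)

end Pool.PQ
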