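import Pool.Agent.Work.MP_972ac7_Q.Interface2
import Pool.Agent.Work.MP_972ac7_P.B_ICL

set_option autoImplicit false

/-! # Block CLG: a short vector (helper54) -/

open MeasureTheory NumberField IsDedekindDomain
open scoped Quaternion ENNReal

noncomputable section

namespace Pool.PQ

open Pool.PL Pool.TFD Pool.TC

/-- the quaternion with given coordinates -/
def CLG_qv {F : Type} [CommRing F] (a b : F) (δ : Fin 4 → F) : ℍ[F, a, b] :=
  ⟨δ 0, δ 1, δ 2, δ 3⟩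

lemma CLG_co {F : Type} [Field F] [NumberField F] (a b : F) (δ : Fin 4 → F) (j : Fin 4) :
    co (CLG_qv a b δ) j = δ j := by
  fin_cases j <;> rfl

lemma CLG_sub {F : Type} [CommRing F] (a b : F) (y y' : Fin 4 → F) :
    CLG_qv a b y - CLG_qv a b y' = CLG_qv a b (fun j => y j - y' j) := by
  ext <;> simp [CLG_qv]

lemma CLG_mq {F k : Type} [Field F] [NormedField k] (e : F →+* k) {a b : F} (x y : k)
    (δ : Fin 4 → F) (s : F) :
    mq e x y (CLG_qv a b (fun j => δ j / s)) = (e s)⁻¹ • mq e x y (CLG_qv a b δ) := by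
  ext i j
  fin_cases i <;> fin_cases j <;>
  · simp [mq, CLG_qv, div_eq_mul_inv]
    ring

section

variable {F : Type} [Field F] [NumberField F]

/-- the quotient `(y - y') / s` -/
def CLG_xx (a b : F) (y y' : Fin 4 → 𝓞 F) (s : 𝓞 F) : ℍ[F, a, b] :=
  CLG_qv a b (fun j => (((y j : 𝓞 F) : F) - ((y' j : 𝓞 F) : F)) / (s : F))

/-- the quaternion of `y` -/
def CLG_yy (a b : F) (y : Fin 4 → 𝓞 F) : ℍ[F, a, b] := CLG_qv a b (fun j => ((y j : 𝓞 F) : F))

variable {ι : Type} {k : ι → Type} [∀ i, NormedField (k i)]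

/-- the final step at a place of the set `ι` -/
lemma CLG_fs (D : Cx F ι k) (i : ι) (g : SL2 (k i)) (y y' : Fin 4 → 𝓞 F) (s : 𝓞 F) (hs : s ≠ 0)
    (c : ℝ)
    (h : mnm ((g : Matrix (Fin 2) (Fin 2) (k i)) * (D.mt i (CLG_yy (D.a : F) (D.b : F) y) -
      D.mt i (CLG_yy (D.a : F) (D.b : F) y'))) ≤ c * ‖D.e i (s : F)‖) :
    mnm ((g : Matrix (Fin 2) (Fin 2) (k i)) * D.mt i (CLG_xx (D.a : F) (D.b : F) y y' s)) ≤ c := by
  have hsF : (s : F) ≠ 0 := by simpa using hs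
  have hes0 : D.e i (s : F) ≠ 0 := (map_ne_zero (D.e i)).2 hsF
  have h2 : D.mt i (CLG_yy (D.a : F) (D.b : F) y) - D.mt i (CLG_yy (D.a : F) (D.b : F) y') =
      D.mt i (CLG_qv (D.a : F) (D.b : F) (fun j => ((y j : 𝓞 F) : F) - ((y' j : 𝓞 F) : F))) := by
    unfold Cx.mt CLG_yy
    rw [← mq_sub, CLG_sub]
  rw [h2] at h
  have h3 : D.mt i (CLG_xx (D.a : F) (D.b : F) y y' s) = (D.e i (s : F))⁻¹ •
      D.mt i (CLG_qv (D.a : F) (D.b : F) (fun j => ((y j : 𝓞 F) : F) - ((y' j : 𝓞 F) : F))) := by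
    unfold Cx.mt CLG_xx
    exact CLG_mq _ _ _ _ _
  rw [h3, Matrix.mul_smul, mnm_le]
  rw [mnm_le] at h
  intro a b
  rw [Matrix.smul_apply, smul_eq_mul, norm_mul, norm_inv,
    inv_mul_le_iff₀ (norm_pos_iff.2 hes0), mul_comm]
  exact h a b

lemma CLG_e0 {k : Type} [NormedField k] (L : LG k) : L.e ≠ 0 := by
  rcases L.he with h | h <;> omega

/-- the finite places -/
lemma CLG_fin (hNBG : Stmt_NBG) (hPGG : Stmt_PGG) (D : Cx F ι k) (w : HeightOneSpectrum (𝓞 F)) :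
    ∃ K : ℝ, 0 ≤ K ∧ ∀ g : GG k, ∃ ε : ℝ, 0 < ε ∧ ∀ s : 𝓞 F, s ≠ 0 → av w (s : F) ≤ ε →
      ∃ (N : ℕ) (cl : (Fin 4 → 𝓞 F) → Fin N), (N : ℝ) * av w (s : F) ^ 4 ≤ K ∧
        ∀ y y' : Fin 4 → 𝓞 F, cl y = cl y' →
          (∀ i, D.pl i = .inl w → mnm ((g i : Matrix (Fin 2) (Fin 2) (k i)) *
            D.mt i (CLG_xx (D.a : F) (D.b : F) y y' s)) ≤ 1) ∧
          ((∀ i, D.pl i ≠ .inl w) → CB w (CLG_xx (D.a : F) (D.b : F) y y' s) 1) := by
  by_cases h : ∃ i, D.pl i = .inl w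
  · obtain ⟨i, hi⟩ := h
    obtain ⟨CI, hCI1, hCI2, -⟩ := hNBG F ι k D i
    obtain ⟨CP, hCP0, hCP⟩ := hPGG (k i) (D.L i)
    have hCI0 : 0 < CI := lt_of_lt_of_le one_pos hCI1
    refine ⟨CP * (CI ^ (D.L i).e) ^ 4, by positivity, fun g => ?_⟩
    obtain ⟨ε, hε0, hε⟩ := hCP (g i)
    refine ⟨(ε * CI) ^ (D.L i).e, by positivity, fun s hs0 hs => ?_⟩
    have hes : ∀ x : F, ‖D.e i x‖ ^ (D.L i).e = av w x := fun x => by
      rw [D.he, hi]
      rfl
    have he0 := CLG_e0 (D.L i)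
    have hsF : (s : F) ≠ 0 := by simpa using hs0
    have hes0 : D.e i (s : F) ≠ 0 := (map_ne_zero (D.e i)).2 hsF
    have hle : ‖D.e i (s : F)‖ ≤ ε * CI := by
      rw [← hes] at hs
      exact (pow_le_pow_iff_left₀ (norm_nonneg _) (by positivity) he0).1 hs
    obtain ⟨N, cl, hN, hcl⟩ := hε CI ‖D.e i (s : F)‖ (norm_pos_iff.2 hes0) hle
    refine ⟨N, fun y => cl (D.mt i (CLG_yy (D.a : F) (D.b : F) y)), ?_, ?_⟩
    · rw [hes] at hN
      exact hN
    · intro y y' hyy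
      refine ⟨?_, fun h => absurd hi (h i)⟩
      intro i' hi'
      obtain rfl : i' = i := D.inj (hi'.trans hi.symm)
      apply CLG_fs D i' (g i') y y' s hs0
      rw [one_mul]
      have hb : ∀ y : Fin 4 → 𝓞 F, mnm (D.mt i' (CLG_yy (D.a : F) (D.b : F) y)) ≤ CI := by
        intro y
        have h1 : ∀ x : 𝓞 F, ‖D.e i' (x : F)‖ ≤ 1 := fun x => by
          have h2 := av_int w x
          rw [← hes] at h2
          exact (pow_le_one_iff_of_nonneg (norm_nonneg _) he0).1 h2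
        have h3 := hCI2 (CLG_yy (D.a : F) (D.b : F) y) 1 ⟨h1 _, h1 _, h1 _, h1 _⟩
        rw [mul_one] at h3
        exact h3
      exact hcl _ _ (hb y) (hb y') hyy
  · push Not at h
    refine ⟨1, zero_le_one, fun g => ⟨1, one_pos, fun s hs0 _ => ?_⟩⟩
    obtain ⟨N, cl, hN, hcl⟩ := p_ICL F w s hs0
    have hsF : (s : F) ≠ 0 := by simpa using hs0
    have hspos : 0 < av w (s : F) := (HeightOneSpectrum.adicAbv F w).pos hsF
    refine ⟨N ^ 4, fun y => (finFunctionFinEquiv (m := N) (n := 4)) (fun j => cl (y j)), ?_, ?_⟩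
    · push_cast
      rw [← mul_pow, hN, one_pow]
    · intro y y' hyy
      refine ⟨fun i hi => absurd hi (h i), fun _ => ?_⟩
      have h1 := (finFunctionFinEquiv (m := N) (n := 4)).injective hyy
      have hdiv : ∀ j : Fin 4, av w ((((y j : 𝓞 F) : F) - ((y' j : 𝓞 F) : F)) / (s : F)) ≤ 1 := by
        intro j
        have h2 := hcl _ _ (congrFun h1 j)
        have h3 : av w ((((y j : 𝓞 F) : F) - ((y' j : 𝓞 F) : F)) / (s : F)) =
            av w (((y j : 𝓞 F) : F) - ((y' j : 𝓞 F) : F)) / av w (s : F) :=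
          map_div₀ (HeightOneSpectrum.adicAbv F w) _ _
        rw [h3, div_le_one hspos]
        exact h2
      exact ⟨hdiv 0, hdiv 1, hdiv 2, hdiv 3⟩

/-- the archimedean places -/
lemma CLG_arc (hNBG : Stmt_NBG) (hPGG : Stmt_PGG) (hIWG : Stmt_IWG) (D : Cx F ι k)
    (w : InfinitePlace F) :
    ∃ K : ℝ, 0 ≤ K ∧ ∀ g : GG k, ∃ ε : ℝ, 0 < ε ∧ ∀ C₁ : ℝ, 1 ≤ C₁ → ∀ s : 𝓞 F, s ≠ 0 →
      ∀ B : ℝ, 1 ≤ B → C₁ ^ 2 * w (s : F) ^ w.mult ≤ ε * B →
      ∃ (N : ℕ) (cl : (Fin 4 → 𝓞 F) → Fin N),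
        (N : ℝ) * (w (s : F) ^ w.mult) ^ 4 * C₁ ^ 4 ≤ K * (B ^ w.mult) ^ 4 ∧
        ∀ y y' : Fin 4 → 𝓞 F, (∀ j, w ((y j : 𝓞 F) : F) ≤ B) → (∀ j, w ((y' j : 𝓞 F) : F) ≤ B) →
          cl y = cl y' →
          (∀ i, D.pl i = .inr w → mnm ((g i : Matrix (Fin 2) (Fin 2) (k i)) *
            D.mt i (CLG_xx (D.a : F) (D.b : F) y y' s)) ≤ C₁) ∧
          ((∀ i, D.pl i ≠ .inr w) → ∀ j, w (co (CLG_xx (D.a : F) (D.b : F) y y' s) j) ≤ C₁) := by
  have hm0 : w.mult ≠ 0 := InfinitePlace.mult_ne_zero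
  by_cases h : ∃ i, D.pl i = .inr w
  · obtain ⟨i, hi⟩ := h
    obtain ⟨CI, hCI1, hCI2, -⟩ := hNBG F ι k D i
    obtain ⟨CP, hCP0, hCP⟩ := hPGG (k i) (D.L i)
    have hCI0 : 0 < CI := lt_of_lt_of_le one_pos hCI1
    refine ⟨CP * (CI ^ (D.L i).e) ^ 4, by positivity, fun g => ?_⟩
    obtain ⟨ε, hε0, hε⟩ := hCP (g i)
    refine ⟨(ε * CI) ^ (D.L i).e, by positivity, fun C₁ hC₁ s hs0 B hB hs => ?_⟩
    have hC₁0 : 0 < C₁ := lt_of_lt_of_le one_pos hC₁
    have hB0 : 0 < B := lt_of_lt_of_le one_pos hB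
    have hes : ∀ x : F, ‖D.e i x‖ ^ (D.L i).e = w x ^ w.mult := fun x => by
      rw [D.he, hi]
      rfl
    have he0 := CLG_e0 (D.L i)
    have hsF : (s : F) ≠ 0 := by simpa using hs0
    have hes0 : D.e i (s : F) ≠ 0 := (map_ne_zero (D.e i)).2 hsF
    have hesp : 0 < ‖D.e i (s : F)‖ := norm_pos_iff.2 hes0
    -- the size
    obtain ⟨b, hb0, hb⟩ : ∃ b : ℝ, 0 < b ∧ b ^ (D.L i).e = B ^ w.mult :=
      ⟨(B ^ w.mult) ^ (((D.L i).e : ℝ)⁻¹), by positivity,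
        Real.rpow_inv_natCast_pow (by positivity) he0⟩
    have hBm : B ≤ B ^ w.mult := le_self_pow₀ hB hm0
    have he2 : C₁ ^ (D.L i).e ≤ C₁ ^ 2 := by
      apply pow_le_pow_right₀ hC₁
      rcases (D.L i).he with h | h <;> omega
    have hle : C₁ * ‖D.e i (s : F)‖ ≤ ε * (CI * b) := by
      apply (pow_le_pow_iff_left₀ (by positivity) (by positivity) he0).1
      rw [mul_pow, hes, ← mul_assoc, mul_pow, hb]
      calc C₁ ^ (D.L i).e * w (s : F) ^ w.mult ≤ C₁ ^ 2 * w (s : F) ^ w.mult := by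
            apply mul_le_mul_of_nonneg_right he2
            exact pow_nonneg (apply_nonneg w _) _
        _ ≤ (ε * CI) ^ (D.L i).e * B := hs
        _ ≤ (ε * CI) ^ (D.L i).e * B ^ w.mult :=
            mul_le_mul_of_nonneg_left hBm (by positivity)
    obtain ⟨N, cl, hN, hcl⟩ := hε (CI * b) (C₁ * ‖D.e i (s : F)‖) (by positivity) hle
    refine ⟨N, fun y => cl (D.mt i (CLG_yy (D.a : F) (D.b : F) y)), ?_, ?_⟩
    · rw [mul_pow C₁, mul_pow CI, hes, hb] at hN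
      have h1 : C₁ ≤ C₁ ^ (D.L i).e := le_self_pow₀ hC₁ he0
      have h2 : C₁ ^ 4 ≤ (C₁ ^ (D.L i).e) ^ 4 := pow_le_pow_left₀ hC₁0.le h1 4
      have h3 : 0 ≤ (N : ℝ) * (w (s : F) ^ w.mult) ^ 4 := by
        have := pow_nonneg (apply_nonneg w (s : F)) w.mult
        positivity
      calc (N : ℝ) * (w (s : F) ^ w.mult) ^ 4 * C₁ ^ 4 ≤
          (N : ℝ) * (w (s : F) ^ w.mult) ^ 4 * (C₁ ^ (D.L i).e) ^ 4 :=
            mul_le_mul_of_nonneg_left h2 h3
        _ = (N : ℝ) * (C₁ ^ (D.L i).e * w (s : F) ^ w.mult) ^ 4 := by ring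
        _ ≤ CP * (CI ^ (D.L i).e * B ^ w.mult) ^ 4 := hN
        _ = _ := by ring
    · intro y y' hy hy' hyy
      refine ⟨?_, fun h => absurd hi (h i)⟩
      intro i' hi'
      obtain rfl : i' = i := D.inj (hi'.trans hi.symm)
      apply CLG_fs D i' (g i') y y' s hs0
      have hb : ∀ y : Fin 4 → 𝓞 F, (∀ j, w ((y j : 𝓞 F) : F) ≤ B) →
          mnm (D.mt i' (CLG_yy (D.a : F) (D.b : F) y)) ≤ CI * b := by
        intro y hy
        have h1 : ∀ j, ‖D.e i' ((y j : 𝓞 F) : F)‖ ≤ b := fun j => by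
          apply (pow_le_pow_iff_left₀ (norm_nonneg _) hb0.le he0).1
          rw [hes, hb]
          exact pow_le_pow_left₀ (apply_nonneg w _) (hy j) _
        exact hCI2 (CLG_yy (D.a : F) (D.b : F) y) b ⟨h1 _, h1 _, h1 _, h1 _⟩
      exact hcl _ _ (hb y hy) (hb y' hy') hyy
  · push Not at h
    obtain ⟨CW, hCW0, hCW⟩ := hIWG F w
    refine ⟨CW ^ 4, by positivity, fun g => ⟨1, one_pos, fun C₁ hC₁ s hs0 B hB hs => ?_⟩⟩
    have hC₁0 : 0 < C₁ := lt_of_lt_of_le one_pos hC₁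
    have hB0 : 0 < B := lt_of_lt_of_le one_pos hB
    have hsF : (s : F) ≠ 0 := by simpa using hs0
    have hspos : 0 < w (s : F) := InfinitePlace.pos_iff.2 hsF
    have hBm : B ≤ B ^ w.mult := le_self_pow₀ hB hm0
    have hle : C₁ * w (s : F) ≤ B := by
      apply (pow_le_pow_iff_left₀ (by positivity) hB0.le hm0).1
      rw [mul_pow]
      calc C₁ ^ w.mult * w (s : F) ^ w.mult ≤ C₁ ^ 2 * w (s : F) ^ w.mult := by
            apply mul_le_mul_of_nonneg_right _ (by positivity)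
            exact pow_le_pow_right₀ hC₁ (mult_le_two w)
        _ ≤ 1 * B := hs
        _ ≤ B ^ w.mult := by rw [one_mul]; exact hBm
    obtain ⟨N, cl, hN, hcl⟩ := hCW B (C₁ * w (s : F)) (by positivity) hle
    refine ⟨N ^ 4, fun y => (finFunctionFinEquiv (m := N) (n := 4))
      (fun j => cl ((y j : 𝓞 F) : F)), ?_, ?_⟩
    · push_cast
      have h1 : C₁ ≤ C₁ ^ w.mult := le_self_pow₀ hC₁ hm0
      have h2 : C₁ ^ 4 ≤ (C₁ ^ w.mult) ^ 4 := pow_le_pow_left₀ hC₁0.le h1 4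
      calc (N : ℝ) ^ 4 * (w (s : F) ^ w.mult) ^ 4 * C₁ ^ 4 ≤
          (N : ℝ) ^ 4 * (w (s : F) ^ w.mult) ^ 4 * (C₁ ^ w.mult) ^ 4 :=
            mul_le_mul_of_nonneg_left h2 (by positivity)
        _ = ((N : ℝ) * (C₁ * w (s : F)) ^ w.mult) ^ 4 := by rw [mul_pow C₁]; ring
        _ ≤ (CW * B ^ w.mult) ^ 4 := pow_le_pow_left₀ (by positivity) hN 4
        _ = _ := by ring
    · intro y y' hy hy' hyy
      refine ⟨fun i hi => absurd hi (h i), fun _ j => ?_⟩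
      have h1 := (finFunctionFinEquiv (m := N) (n := 4)).injective hyy
      have h2 := hcl _ _ (hy j) (hy' j) (congrFun h1 j)
      unfold CLG_xx
      rw [CLG_co, map_div₀, div_le_iff₀ hspos]
      exact h2

end

theorem p_CLG (hPFG : Stmt_PFG) (hNBG : Stmt_NBG) (hPGG : Stmt_PGG) (hIWG : Stmt_IWG)
    (hLPG : Stmt_LPG) : Stmt_CLG := by
  intro F _ _ ι _ k _ D
  classical
  obtain ⟨-, hP2, -, hP4⟩ := hPFG F
  obtain ⟨c, hc0, hc⟩ := hLPG F
  obtain ⟨d, hd⟩ : ∃ d, d = Module.finrank ℚ F := ⟨_, rfl⟩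
  obtain ⟨T, hT⟩ : ∃ T : Finset (HeightOneSpectrum (𝓞 F)), T = (hP4 D.n D.hn).toFinset :=
    ⟨_, rfl⟩
  have hmemT : ∀ w, w ∈ T ↔ D.n ∈ w.asIdeal := by
    intro w
    rw [hT, Set.Finite.mem_toFinset]
    exact Iff.rfl
  choose KF hKF0 hKF using fun w => CLG_fin hNBG hPGG D w
  choose KA hKA0 hKA using fun w => CLG_arc hNBG hPGG hIWG D w
  obtain ⟨C₃, hC₃⟩ : ∃ C₃ : ℝ, C₃ = (∏ w ∈ T, KF w) * ∏ w, KA w := ⟨_, rfl⟩
  have hC₃0 : 0 ≤ C₃ := by
    rw [hC₃]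
    exact mul_nonneg (Finset.prod_nonneg fun w _ => hKF0 w) (Finset.prod_nonneg fun w _ => hKA0 w)
  obtain ⟨C₁, hC₁1, hC₁2⟩ : ∃ C₁ : ℝ, 1 ≤ C₁ ∧ C₃ + 1 ≤ c * C₁ := by
    refine ⟨max 1 ((C₃ + 1) / c), le_max_left _ _, ?_⟩
    calc C₃ + 1 = c * ((C₃ + 1) / c) := by field_simp
      _ ≤ c * max 1 ((C₃ + 1) / c) := mul_le_mul_of_nonneg_left (le_max_right _ _) hc0.le
  have hC₁0 : 0 < C₁ := lt_of_lt_of_le one_pos hC₁1
  refine ⟨C₁, hC₁1, fun g => ?_⟩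
  choose εF hεF0 hεF using fun w => hKF w g
  choose εA hεA0 hεA using fun w => hKA w g
  -- the denominator
  have hlt : ∀ w ∈ T, av w (D.n : F) < 1 := fun w hw =>
    lt_of_le_of_ne (av_int _ _) (fun h => (av_int_eq_one_iff _ _).1 h ((hmemT w).1 hw))
  obtain ⟨t, ht⟩ : ∃ t : ℕ, ∀ w ∈ T, av w (D.n : F) ^ t ≤ εF w := by
    have h1 : ∀ w ∈ T, ∀ᶠ t : ℕ in Filter.atTop, av w (D.n : F) ^ t ≤ εF w := fun w hw =>
      (tendsto_pow_atTop_nhds_zero_of_lt_one (av_nonneg _ _) (hlt w hw)).eventually_le_const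
        (hεF0 w)
    exact ((Filter.eventually_all_finset T).2 h1).exists
  obtain ⟨s, hs⟩ : ∃ s : 𝓞 F, s = D.n ^ t := ⟨_, rfl⟩
  have hs0 : s ≠ 0 := by
    rw [hs]
    exact pow_ne_zero _ D.hn
  have hsF : (s : F) ≠ 0 := by simpa using hs0
  have hsav : ∀ w, av w (s : F) = av w (D.n : F) ^ t := by
    intro w
    have h1 : (s : F) = (D.n : F) ^ t := by
      rw [hs]
      exact map_pow (algebraMap (𝓞 F) F) _ _
    rw [h1]
    exact map_pow (HeightOneSpectrum.adicAbv F w) _ _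
  have hspos : ∀ w, 0 < av w (s : F) := fun w => (HeightOneSpectrum.adicAbv F w).pos hsF
  have hout : ∀ w : HeightOneSpectrum (𝓞 F), D.n ∉ w.asIdeal → av w (s : F) = 1 := by
    intro w hw
    rw [hsav, (av_int_eq_one_iff w D.n).2 hw, one_pow]
  have hprod : N2 (s : F) * ∏ w ∈ T, av w (s : F) = 1 :=
    hP2 s hs0 T (fun w hw => hout w (fun h => hw ((hmemT w).2 h)))
  -- the box
  obtain ⟨B, hB1, hB⟩ : ∃ B : ℝ, 1 ≤ B ∧ ∀ w : InfinitePlace F,
      C₁ ^ 2 * w (s : F) ^ w.mult ≤ εA w * B := by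
    obtain ⟨M, hM⟩ := Finite.exists_le
      (fun w : InfinitePlace F => C₁ ^ 2 * w (s : F) ^ w.mult / εA w)
    refine ⟨max 1 M, le_max_left _ _, fun w => ?_⟩
    have h1 := (hM w).trans (le_max_right 1 M)
    rw [div_le_iff₀ (hεA0 w), mul_comm (max 1 M)] at h1
    exact h1
  have hB0 : 0 < B := lt_of_lt_of_le one_pos hB1
  -- the classes
  choose NF clF hNF hclF using fun w : T => hεF w.1 s hs0 (by rw [hsav]; exact ht w.1 w.2)
  choose NA clA hNA hclA using fun w => hεA w C₁ hC₁1 s hs0 B hB1 (hB w)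
  obtain ⟨Y, hY1, hY2⟩ := hc B hB1
  rw [← hd] at hY1
  have hBd : ∏ w : InfinitePlace F, B ^ w.mult = B ^ d := by
    rw [Finset.prod_pow_eq_pow_sum, InfinitePlace.sum_mult_eq, hd]
  -- the number of classes
  have hK : (Fintype.card ((∀ w : T, Fin (NF w)) × (∀ w : InfinitePlace F, Fin (NA w))) : ℝ) *
      C₁ ^ 4 ≤ C₃ * (B ^ d) ^ 4 := by
    have h1 : (Fintype.card ((∀ w : T, Fin (NF w)) × (∀ w : InfinitePlace F, Fin (NA w))) : ℝ) =
        (∏ w : T, (NF w : ℝ)) * ∏ w, (NA w : ℝ) := by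
      rw [Fintype.card_prod, Fintype.card_pi, Fintype.card_pi]
      simp only [Fintype.card_fin]
      push_cast
      rfl
    have h2 : (∏ w : T, (NF w : ℝ)) * (∏ w ∈ T, av w (s : F)) ^ 4 ≤ ∏ w ∈ T, KF w := by
      rw [← Finset.prod_coe_sort T (fun w => av w (s : F)), ← Finset.prod_coe_sort T KF,
        ← Finset.prod_pow, ← Finset.prod_mul_distrib]
      apply Finset.prod_le_prod
      · intro w _
        have := (hspos w.1).le
        positivity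
      · intro w _
        exact hNF w
    have h3 : (∏ w, (NA w : ℝ)) * (N2 (s : F)) ^ 4 * C₁ ^ 4 ≤ (∏ w, KA w) * (B ^ d) ^ 4 := by
      have h4 : (∏ w, (NA w : ℝ)) * (N2 (s : F)) ^ 4 * ∏ _w : InfinitePlace F, C₁ ^ 4 ≤
          (∏ w, KA w) * (B ^ d) ^ 4 := by
        rw [← hBd]
        unfold N2
        rw [← Finset.prod_pow, ← Finset.prod_pow, ← Finset.prod_mul_distrib,
          ← Finset.prod_mul_distrib, ← Finset.prod_mul_distrib]
        apply Finset.prod_le_prod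
        · intro w _
          have := pow_nonneg (apply_nonneg w (s : F)) w.mult
          positivity
        · intro w _
          exact hNA w
      refine le_trans ?_ h4
      apply mul_le_mul_of_nonneg_left
      · rw [Finset.prod_const]
        apply le_self_pow₀ (one_le_pow₀ hC₁1)
        rw [Finset.card_univ]
        exact Fintype.card_ne_zero
      · have := N2_nonneg (s : F)
        positivity
    rw [h1]
    have h5 : (N2 (s : F) * ∏ w ∈ T, av w (s : F)) ^ 4 = 1 := by rw [hprod, one_pow]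
    calc (∏ w : T, (NF w : ℝ)) * (∏ w, (NA w : ℝ)) * C₁ ^ 4 =
        (∏ w : T, (NF w : ℝ)) * (∏ w, (NA w : ℝ)) * C₁ ^ 4 *
          (N2 (s : F) * ∏ w ∈ T, av w (s : F)) ^ 4 := by rw [h5, mul_one]
      _ = ((∏ w : T, (NF w : ℝ)) * (∏ w ∈ T, av w (s : F)) ^ 4) *
          ((∏ w, (NA w : ℝ)) * (N2 (s : F)) ^ 4 * C₁ ^ 4) := by ring
      _ ≤ (∏ w ∈ T, KF w) * ((∏ w, KA w) * (B ^ d) ^ 4) := by
          apply mul_le_mul h2 h3
          · have := N2_nonneg (s : F)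
            positivity
          · exact Finset.prod_nonneg fun w _ => hKF0 w
      _ = C₃ * (B ^ d) ^ 4 := by rw [hC₃]; ring
  have hcard : Fintype.card ((∀ w : T, Fin (NF w)) × (∀ w : InfinitePlace F, Fin (NA w))) <
      Fintype.card (Fin 4 → Y) := by
    have h1 : (Fintype.card (Fin 4 → Y) : ℝ) = (Y.card : ℝ) ^ 4 := by
      simp
    have h2 : ((C₃ + 1) * B ^ d) ^ 4 ≤ (Y.card : ℝ) ^ 4 * C₁ ^ 4 := by
      rw [← mul_pow]
      apply pow_le_pow_left₀ (by positivity)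
      calc (C₃ + 1) * B ^ d ≤ c * C₁ * B ^ d := mul_le_mul_of_nonneg_right hC₁2 (by positivity)
        _ = c * B ^ d * C₁ := by ring
        _ ≤ (Y.card : ℝ) * C₁ := mul_le_mul_of_nonneg_right hY1 hC₁0.le
    have h3 : C₃ * (B ^ d) ^ 4 < ((C₃ + 1) * B ^ d) ^ 4 := by
      rw [mul_pow]
      apply mul_lt_mul_of_pos_right _ (by positivity)
      have h5 : C₃ + 1 ≤ (C₃ + 1) ^ 4 := le_self_pow₀ (by linarith) (by norm_num)
      linarith
    have h4 := lt_of_mul_lt_mul_right (hK.trans_lt (h3.trans_le h2)) (by positivity)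
    rw [← h1] at h4
    exact_mod_cast h4
  obtain ⟨y, y', hne, hyy⟩ := Fintype.exists_ne_map_eq_of_card_lt
    (fun y : Fin 4 → Y => ((fun w : T => clF w (fun j => (y j : 𝓞 F)),
      fun w : InfinitePlace F => clA w (fun j => (y j : 𝓞 F))) :
        (∀ w : T, Fin (NF w)) × (∀ w : InfinitePlace F, Fin (NA w)))) hcard
  have hy1 : ∀ w : T, clF w (fun j => (y j : 𝓞 F)) = clF w (fun j => (y' j : 𝓞 F)) := by
    intro w
    exact congrFun (congrArg Prod.fst hyy) w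
  have hy2 : ∀ w : InfinitePlace F, clA w (fun j => (y j : 𝓞 F)) =
      clA w (fun j => (y' j : 𝓞 F)) := by
    intro w
    exact congrFun (congrArg Prod.snd hyy) w
  have hA := fun w => hclA w _ _ (fun j => hY2 _ (y j).2 w) (fun j => hY2 _ (y' j).2 w) (hy2 w)
  have hF := fun w : T => hclF w _ _ (hy1 w)
  refine ⟨CLG_xx (D.a : F) (D.b : F) (fun j => (y j : 𝓞 F)) (fun j => (y' j : 𝓞 F)) s,
    ?_, ?_, ?_, ?_, ?_⟩
  · intro h0
    apply hne
    funext j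
    have h1 : co (CLG_xx (D.a : F) (D.b : F) (fun j => (y j : 𝓞 F)) (fun j => (y' j : 𝓞 F)) s) j =
        0 := by
      rw [h0]
      fin_cases j <;> rfl
    unfold CLG_xx at h1
    rw [CLG_co] at h1
    have h2 : ((y j : 𝓞 F) : F) - ((y' j : 𝓞 F) : F) = 0 := by
      rcases div_eq_zero_iff.1 h1 with h | h
      · exact h
      · exact absurd h hsF
    have h3 : ((y j : 𝓞 F) : F) = ((y' j : 𝓞 F) : F) := sub_eq_zero.1 h2
    apply Subtype.ext
    exact RingOfIntegers.ext h3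
  · intro w hw
    have h1 : ∀ j : Fin 4, av w ((((y j : 𝓞 F) : F) - ((y' j : 𝓞 F) : F)) / (s : F)) ≤ 1 := by
      intro j
      have h3 : av w ((((y j : 𝓞 F) : F) - ((y' j : 𝓞 F) : F)) / (s : F)) =
          av w (((y j : 𝓞 F) : F) - ((y' j : 𝓞 F) : F)) / av w (s : F) :=
        map_div₀ (HeightOneSpectrum.adicAbv F w) _ _
      rw [h3, hout w hw, div_one]
      have h4 := av_int w ((y j : 𝓞 F) - (y' j : 𝓞 F))
      have h5 : (((y j : 𝓞 F) - (y' j : 𝓞 F) : 𝓞 F) : F) =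
          ((y j : 𝓞 F) : F) - ((y' j : 𝓞 F) : F) := map_sub (algebraMap (𝓞 F) F) _ _
      rw [h5] at h4
      exact h4
    exact ⟨h1 0, h1 1, h1 2, h1 3⟩
  · intro w hw hw'
    exact (hF ⟨w, (hmemT w).2 hw⟩).2 hw'
  · intro i
    rcases hi : D.pl i with w | w
    · exact ((hF ⟨w, (hmemT w).2 (D.div i w hi)⟩).1 i hi).trans hC₁1
    · exact (hA w).1 i hi
  · intro w hw j
    exact (hA w).2 hw j

end Pool.PQ
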