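import Pool.Agent.Work.MP_972ac7_Q.Interface2

set_option autoImplicit false

open MeasureTheory NumberField IsDedekindDomain
open scoped Quaternion ENNReal

noncomputable section

namespace Pool.PQ

open Pool.PL Pool.TFD Pool.TC

theorem CLX_norm_le (z : ℂ) (s t : ℝ) (h1 : |z.re| ≤ s) (h2 : |z.im| ≤ t) : ‖z‖ ≤ s + t :=
  (Complex.norm_le_abs_re_add_abs_im z).trans (add_le_add h1 h2)

theorem CLX_floor (x y s : ℝ) (hs : 0 < s) (h : ⌊x / s⌋ = ⌊y / s⌋) : |x - y| ≤ s := by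
  have h1 := Int.abs_sub_lt_one_of_floor_eq_floor h
  rw [← sub_div, abs_div, abs_of_pos hs, div_lt_one hs] at h1
  exact h1.le

theorem CLX_sep_le (r : ℝ) (c : ℂ) (Z : Finset ℂ) (hr : 1 ≤ r) (hZ : ∀ z ∈ Z, ‖z - c‖ ≤ r)
    (hs : ∀ z ∈ Z, ∀ z' ∈ Z, z ≠ z' → 1 ≤ ‖z - z'‖) : (Z.card : ℝ) ≤ 100 * r ^ 2 := by
  classical
  have hfl : ∀ x : ℝ, |x| ≤ r → ⌊x / (1 / 3)⌋ ∈ Finset.Icc ⌊-(3 * r)⌋ ⌊3 * r⌋ := by
    intro x hx
    have h1 := abs_le.1 hx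
    rw [Finset.mem_Icc]
    constructor
    · apply Int.floor_le_floor
      linarith [h1.1]
    · apply Int.floor_le_floor
      linarith [h1.2]
  have hcard : Z.card ≤ (Finset.Icc ⌊-(3 * r)⌋ ⌊3 * r⌋ ×ˢ Finset.Icc ⌊-(3 * r)⌋ ⌊3 * r⌋).card := by
    apply Finset.card_le_card_of_injOn
      (fun z : ℂ => (⌊(z - c).re / (1 / 3)⌋, ⌊(z - c).im / (1 / 3)⌋))
    · intro z hz
      have hz' := hZ z hz
      rw [Finset.mem_coe, Finset.mem_product]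
      exact ⟨hfl _ ((Complex.abs_re_le_norm _).trans hz'),
        hfl _ ((Complex.abs_im_le_norm _).trans hz')⟩
    · intro z hz z' hz' heq
      by_contra hne
      have h1 := hs z hz z' hz' hne
      have h2 := Prod.ext_iff.1 heq
      have h3 := CLX_floor _ _ (1 / 3) (by norm_num) h2.1
      have h4 := CLX_floor _ _ (1 / 3) (by norm_num) h2.2
      have h5 := CLX_norm_le ((z - c) - (z' - c)) (1 / 3) (1 / 3)
        (by rw [Complex.sub_re]; exact h3) (by rw [Complex.sub_im]; exact h4)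
      rw [sub_sub_sub_cancel_right] at h5
      linarith
  have h1 : ((Finset.Icc ⌊-(3 * r)⌋ ⌊3 * r⌋).card : ℝ) ≤ 8 * r := by
    rw [Int.card_Icc]
    have h2 : ⌊-(3 * r)⌋ ≤ ⌊3 * r⌋ := Int.floor_le_floor (by linarith)
    have h3 : (((⌊3 * r⌋ + 1 - ⌊-(3 * r)⌋).toNat : ℤ) : ℝ) =
        ((⌊3 * r⌋ + 1 - ⌊-(3 * r)⌋ : ℤ) : ℝ) := by
      rw [Int.toNat_of_nonneg (by omega)]
    have h4 : (((⌊3 * r⌋ + 1 - ⌊-(3 * r)⌋).toNat : ℕ) : ℝ) =
        ((⌊3 * r⌋ + 1 - ⌊-(3 * r)⌋ : ℤ) : ℝ) := by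
      rw [← h3]
      norm_cast
    rw [h4]
    push_cast
    have h5 := Int.floor_le (3 * r)
    have h6 := Int.lt_floor_add_one (-(3 * r))
    linarith
  have h2 : (Z.card : ℝ) ≤ (8 * r) * (8 * r) := by
    calc (Z.card : ℝ) ≤
        ((Finset.Icc ⌊-(3 * r)⌋ ⌊3 * r⌋ ×ˢ Finset.Icc ⌊-(3 * r)⌋ ⌊3 * r⌋).card : ℝ) := by
          exact_mod_cast hcard
      _ = ((Finset.Icc ⌊-(3 * r)⌋ ⌊3 * r⌋).card : ℝ) * (Finset.Icc ⌊-(3 * r)⌋ ⌊3 * r⌋).card := by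
          rw [Finset.card_product]
          push_cast
          ring
      _ ≤ _ := mul_le_mul h1 h1 (Nat.cast_nonneg _) (by linarith)
  nlinarith

theorem CLX_sep_ge (R : ℝ) (hR : 1 ≤ R) : ∃ Z : Finset ℂ, (∀ z ∈ Z, ‖z‖ ≤ R) ∧
    (∀ z ∈ Z, ∀ z' ∈ Z, z ≠ z' → 1 ≤ ‖z - z'‖) ∧ R ^ 2 ≤ 100 * Z.card := by
  classical
  obtain ⟨N, hN⟩ : ∃ N : ℕ, N = ⌊R / 2⌋₊ := ⟨_, rfl⟩
  have hN1 : (N : ℝ) ≤ R / 2 := by
    rw [hN]
    exact Nat.floor_le (by linarith)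
  have hN2 : R / 2 < N + 1 := by
    rw [hN]
    exact Nat.lt_floor_add_one _
  have hinj : Function.Injective (fun p : ℕ × ℕ => (⟨(p.1 : ℝ), (p.2 : ℝ)⟩ : ℂ)) := by
    intro p q h
    have h1 := congrArg Complex.re h
    have h2 := congrArg Complex.im h
    exact Prod.ext (Nat.cast_injective h1) (Nat.cast_injective h2)
  refine ⟨(Finset.range (N + 1) ×ˢ Finset.range (N + 1)).image
    (fun p : ℕ × ℕ => (⟨(p.1 : ℝ), (p.2 : ℝ)⟩ : ℂ)), ?_, ?_, ?_⟩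
  · intro z hz
    obtain ⟨p, hp, rfl⟩ := Finset.mem_image.1 hz
    rw [Finset.mem_product, Finset.mem_range, Finset.mem_range] at hp
    have h1 : (p.1 : ℝ) ≤ N := by exact_mod_cast Nat.lt_succ_iff.1 hp.1
    have h2 : (p.2 : ℝ) ≤ N := by exact_mod_cast Nat.lt_succ_iff.1 hp.2
    have h3 := CLX_norm_le (⟨(p.1 : ℝ), (p.2 : ℝ)⟩ : ℂ) N N
      (by show |(p.1 : ℝ)| ≤ N; rw [abs_of_nonneg (Nat.cast_nonneg _)]; exact h1)
      (by show |(p.2 : ℝ)| ≤ N; rw [abs_of_nonneg (Nat.cast_nonneg _)]; exact h2)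
    linarith
  · intro z hz z' hz' hne
    obtain ⟨p, hp, rfl⟩ := Finset.mem_image.1 hz
    obtain ⟨q, hq, rfl⟩ := Finset.mem_image.1 hz'
    have hgap : ∀ a b : ℕ, a ≠ b → (1 : ℝ) ≤ |(a : ℝ) - (b : ℝ)| := by
      intro a b hab
      have h1 : (1 : ℤ) ≤ |(a : ℤ) - (b : ℤ)| := Int.one_le_abs (by omega)
      exact_mod_cast h1
    by_cases h1 : p.1 = q.1
    · have h2 : p.2 ≠ q.2 := fun h => hne (by rw [h1, h])
      refine (hgap _ _ h2).trans ?_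
      exact Complex.abs_im_le_norm ((⟨(p.1 : ℝ), (p.2 : ℝ)⟩ : ℂ) - ⟨(q.1 : ℝ), (q.2 : ℝ)⟩)
    · refine (hgap _ _ h1).trans ?_
      exact Complex.abs_re_le_norm ((⟨(p.1 : ℝ), (p.2 : ℝ)⟩ : ℂ) - ⟨(q.1 : ℝ), (q.2 : ℝ)⟩)
  · rw [Finset.card_image_of_injective _ hinj, Finset.card_product, Finset.card_range]
    push_cast
    nlinarith

theorem CLX_cov (r : ℝ) (hr : 0 < r) (hr1 : r ≤ 1) : ∃ (N : ℕ) (cl : ℂ → Fin N),
    (N : ℝ) * r ^ 2 ≤ 100 ∧ ∀ x y : ℂ, ‖x‖ ≤ 1 → ‖y‖ ≤ 1 → cl x = cl y → ‖x - y‖ ≤ r := by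
  classical
  obtain ⟨K, hK⟩ : ∃ K : ℕ, K = ⌊4 / r⌋₊ + 1 := ⟨_, rfl⟩
  have hK0 : 0 < K := by omega
  have hK1 : (K : ℝ) ≤ 4 / r + 1 := by
    rw [hK]
    push_cast
    have := Nat.floor_le (show (0 : ℝ) ≤ 4 / r by positivity)
    linarith
  have hfl : ∀ t : ℝ, |t| ≤ 1 → ⌊(t + 1) / (r / 2)⌋₊ < K := by
    intro t ht
    have h1 := abs_le.1 ht
    rw [hK, Nat.lt_succ_iff]
    apply Nat.floor_le_floor
    rw [div_le_div_iff₀ (by positivity) hr]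
    nlinarith
  have hdist : ∀ s t : ℝ, |s| ≤ 1 → |t| ≤ 1 → ⌊(s + 1) / (r / 2)⌋₊ = ⌊(t + 1) / (r / 2)⌋₊ →
      |s - t| ≤ r / 2 := by
    intro s t hs ht h
    have h1 := abs_le.1 hs
    have h2 := abs_le.1 ht
    have h3 : ⌊(s + 1) / (r / 2)⌋ = ⌊(t + 1) / (r / 2)⌋ := by
      rw [← Int.natCast_floor_eq_floor (show (0 : ℝ) ≤ (s + 1) / (r / 2) by
          apply div_nonneg (by linarith [h1.1]) (by linarith)),
        ← Int.natCast_floor_eq_floor (show (0 : ℝ) ≤ (t + 1) / (r / 2) by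
          apply div_nonneg (by linarith [h2.1]) (by linarith)), h]
    have h4 := CLX_floor _ _ (r / 2) (by linarith) h3
    rw [add_sub_add_right_eq_sub] at h4
    exact h4
  refine ⟨K * K, fun z => if h : ⌊(z.re + 1) / (r / 2)⌋₊ < K ∧ ⌊(z.im + 1) / (r / 2)⌋₊ < K then
    finProdFinEquiv (⟨_, h.1⟩, ⟨_, h.2⟩) else ⟨0, Nat.mul_pos hK0 hK0⟩, ?_, ?_⟩
  · push_cast
    have h1 : (K : ℝ) * r ≤ 5 := by
      calc (K : ℝ) * r ≤ (4 / r + 1) * r := mul_le_mul_of_nonneg_right hK1 hr.le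
        _ = 4 + r := by field_simp
        _ ≤ 5 := by linarith
    have h2 : 0 ≤ (K : ℝ) * r := by positivity
    calc (K : ℝ) * K * r ^ 2 = ((K : ℝ) * r) * ((K : ℝ) * r) := by ring
      _ ≤ 5 * 5 := mul_le_mul h1 h1 h2 (by norm_num)
      _ ≤ 100 := by norm_num
  · intro x y hx hy hxy
    have hx1 := (Complex.abs_re_le_norm x).trans hx
    have hx2 := (Complex.abs_im_le_norm x).trans hx
    have hy1 := (Complex.abs_re_le_norm y).trans hy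
    have hy2 := (Complex.abs_im_le_norm y).trans hy
    simp only [] at hxy
    rw [dif_pos ⟨hfl _ hx1, hfl _ hx2⟩, dif_pos ⟨hfl _ hy1, hfl _ hy2⟩] at hxy
    have h1 := finProdFinEquiv.injective hxy
    have h2 := congrArg (fun p : Fin K × Fin K => (p.1 : ℕ)) h1
    have h3 := congrArg (fun p : Fin K × Fin K => (p.2 : ℕ)) h1
    have h4 := hdist _ _ hx1 hy1 h2
    have h5 := hdist _ _ hx2 hy2 h3
    have h6 := CLX_norm_le (x - y) (r / 2) (r / 2) (by rw [Complex.sub_re]; exact h4)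
      (by rw [Complex.sub_im]; exact h5)
    linarith

theorem p_CLX : Stmt_CLX :=
  ⟨{ e := 2
     he := Or.inr rfl
     C := 100
     one_le := by norm_num
     ϑ := 2
     one_lt := by simp
     two_ne := two_ne_zero
     sep_le := CLX_sep_le
     sep_ge := CLX_sep_ge
     cov := CLX_cov }, rfl⟩

end Pool.PQ
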