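import Pool.Agent.Work.MP_972ac7_Q.Interface2

set_option autoImplicit false

/-! # THEOREM PP (MP_972ac7_al): block CNG (the count) -/

open MeasureTheory NumberField IsDedekindDomain
open scoped Quaternion ENNReal

noncomputable section

namespace Pool.PQ

open Pool.PL Pool.TFD Pool.TC

/-- counting by fibres -/
theorem CNG_count {α β : Type} (Z : Set α) (Φ : α → β) (W : Set β) (hW : W.Finite)
    (hΦ : ∀ y ∈ Z, Φ y ∈ W) (K : ℝ)
    (hf : ∀ p, (Z ∩ Φ ⁻¹' {p}).Finite ∧ (Nat.card ↥(Z ∩ Φ ⁻¹' {p}) : ℝ) ≤ K) :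
    Z.Finite ∧ (Nat.card Z : ℝ) ≤ Nat.card W * K := by
  classical
  have hZ : Z.Finite := by
    refine Set.Finite.of_finite_fibers Φ (hW.subset ?_) (fun p _ => (hf p).1)
    rintro _ ⟨y, hy, rfl⟩
    exact hΦ y hy
  refine ⟨hZ, ?_⟩
  have h1 : (hZ.toFinset.card : ℝ) =
      ∑ b ∈ hW.toFinset, ((hZ.toFinset.filter (fun a => Φ a = b)).card : ℝ) := by
    have := Finset.card_eq_sum_card_fiberwise (s := hZ.toFinset) (t := hW.toFinset) (f := Φ)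
      (fun y hy => by
        have hy' : y ∈ Z := by simpa using hy
        have := hΦ y hy'
        simpa using this)
    exact_mod_cast this
  have h2 : ∀ b, ((hZ.toFinset.filter (fun a => Φ a = b)).card : ℝ) ≤ K := by
    intro b
    have h3 : Nat.card ↥(Z ∩ Φ ⁻¹' {b}) = (hZ.toFinset.filter (fun a => Φ a = b)).card := by
      rw [Nat.card_coe_set_eq, Set.ncard_eq_toFinset_card _ (hf b).1]
      congr 1
      ext y
      simp
    rw [← h3]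
    exact (hf b).2
  rw [Nat.card_coe_set_eq, Nat.card_coe_set_eq, Set.ncard_eq_toFinset_card _ hZ,
    Set.ncard_eq_toFinset_card _ hW, h1]
  calc ∑ b ∈ hW.toFinset, ((hZ.toFinset.filter (fun a => Φ a = b)).card : ℝ)
      ≤ ∑ b ∈ hW.toFinset, K := Finset.sum_le_sum fun b _ => h2 b
    _ = _ := by rw [Finset.sum_const, nsmul_eq_mul]

/-- counting by an injective map -/
theorem CNG_inj {α β : Type} (Z : Set α) (f : α → β) (hf : Set.InjOn f Z) (K : ℝ)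
    (h : (f '' Z).Finite ∧ (Nat.card ↥(f '' Z) : ℝ) ≤ K) :
    Z.Finite ∧ (Nat.card Z : ℝ) ≤ K := by
  refine ⟨Set.Finite.of_finite_image h.1 hf, ?_⟩
  have h1 := h.2
  rw [Nat.card_coe_set_eq, Set.ncard_image_of_injOn hf] at h1
  rw [Nat.card_coe_set_eq]
  exact h1

theorem CNG_num {X T K α₀ α₃ α₁ : ℝ} (hX : 0 < X) (hT : 0 ≤ T) (hK : 0 < K) (hKX : 1 ≤ K * X)
    (h0 : 0 ≤ α₀) (h3 : 0 ≤ α₃) (h1 : 0 ≤ α₁) :
    (1 + α₀ * T) * (1 + α₃ * X) * (1 + α₁ * X ^ (2 / 3 : ℝ)) ≤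
      ((1 + α₀) * (K + α₃) * (2 * K ^ (2 / 3 : ℝ) + α₁)) * (X ^ (5 / 3 : ℝ) * (1 + T)) := by
  have e1 : X ^ (5 / 3 : ℝ) = X * X ^ (2 / 3 : ℝ) := by
    have : (5 / 3 : ℝ) = 1 + 2 / 3 := by norm_num
    rw [this, Real.rpow_add hX, Real.rpow_one]
  have e2 : 1 ≤ K ^ (2 / 3 : ℝ) * X ^ (2 / 3 : ℝ) := by
    rw [← Real.mul_rpow hK.le hX.le]
    exact Real.one_le_rpow hKX (by norm_num)
  have a1 : 1 + α₀ * T ≤ (1 + α₀) * (1 + T) := by nlinarith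
  have a2 : 1 + α₃ * X ≤ (K + α₃) * X := by nlinarith
  have a3 : 1 + α₁ * X ^ (2 / 3 : ℝ) ≤ (2 * K ^ (2 / 3 : ℝ) + α₁) * X ^ (2 / 3 : ℝ) := by
    nlinarith
  have p0 : 0 ≤ X ^ (2 / 3 : ℝ) := by positivity
  have p1 : 0 ≤ 1 + α₀ * T := by positivity
  have p2 : 0 ≤ 1 + α₃ * X := by positivity
  have p3 : 0 ≤ 1 + α₁ * X ^ (2 / 3 : ℝ) := by positivity
  have b1 : (1 + α₀ * T) * (1 + α₃ * X) ≤ ((1 + α₀) * (1 + T)) * ((K + α₃) * X) :=
    mul_le_mul a1 a2 p2 (le_trans p1 a1)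
  have b2 : (1 + α₀ * T) * (1 + α₃ * X) * (1 + α₁ * X ^ (2 / 3 : ℝ)) ≤
      ((1 + α₀) * (1 + T)) * ((K + α₃) * X) *
        ((2 * K ^ (2 / 3 : ℝ) + α₁) * X ^ (2 / 3 : ℝ)) :=
    mul_le_mul b1 a3 p3 (le_trans (mul_nonneg p1 p2) b1)
  rw [e1]
  calc _ ≤ _ := b2
    _ = _ := by ring

theorem CNG_av_sub {F : Type} [Field F] [NumberField F] (w : HeightOneSpectrum (𝓞 F)) {x x' : F}
    {κ : ℝ} (h : av w x ≤ κ) (h' : av w x' ≤ κ) : av w (x - x') ≤ κ := by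
  rw [sub_eq_add_neg]
  refine le_trans (av_add_le w _ _) (max_le h ?_)
  rw [av_neg]
  exact h'

theorem CNG_bd_sub {F : Type} [Field F] [NumberField F] {v : Plc F} {β : InfinitePlace F → ℝ}
    {κ : ℝ} {x x' : F} (h : bd v β κ x) (h' : bd v β κ x') :
    bd v (fun w => 4 * β w) κ (x - x') := by
  refine ⟨fun w => ?_, fun w hw => CNG_av_sub w (h.2 w hw) (h'.2 w hw)⟩
  have h1 := nv_add_le (.inr w) x (-x')
  rw [nv_neg, ← sub_eq_add_neg] at h1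
  refine le_trans h1 ?_
  have h2 : max (nv (.inr w) x) (nv (.inr w) x') ≤ β w := max_le (h.1 w) (h'.1 w)
  linarith

theorem CNG_vol {F : Type} [Field F] [NumberField F] (v : Plc F) (β : InfinitePlace F → ℝ)
    (κ : ℝ) : vol v (fun w => 4 * β w) κ = 4 ^ (Fintype.card (InfinitePlace F)) * vol v β κ := by
  unfold vol
  rw [Finset.prod_mul_distrib, Finset.prod_const, Finset.card_univ, mul_assoc]

theorem CNG_lt {F : Type} [Field F] [NumberField F]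
    (hP1 : ∀ z : 𝓞 F, z ≠ 0 → 1 ≤ N2 (z : F) ∧
      ∀ w : HeightOneSpectrum (𝓞 F), 1 ≤ N2 (z : F) * av w (z : F)) {v : Plc F}
    {β : InfinitePlace F → ℝ} {κ : ℝ} (hβ : ∀ w, 0 < β w) {y : 𝓞 F} (hy : y ≠ 0)
    (h : bd v β κ (y : F)) : 1 ≤ vol v β κ := by
  have hN : N2 (y : F) ≤ ∏ w, β w :=
    Finset.prod_le_prod (fun w _ => pow_nonneg (apply_nonneg w _) _) (fun w _ => h.1 w)
  obtain ⟨h1, h2⟩ := hP1 y hy
  have hβp : 0 ≤ ∏ w, β w := Finset.prod_nonneg fun w _ => (hβ w).le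
  cases v with
  | inl w =>
    have h3 : N2 (y : F) * av w (y : F) ≤ (∏ w, β w) * κ :=
      mul_le_mul hN (h.2 w rfl) (av_nonneg _ _) hβp
    exact le_trans (h2 w) h3
  | inr w =>
    change 1 ≤ (∏ w, β w) * 1
    rw [mul_one]
    exact le_trans h1 hN

theorem p_CNG (hPFG : Stmt_PFG) (hBXG : Stmt_BXG) (hCOG : Stmt_COG) : Stmt_CNG := by
  intro F _ _ w₀ c₁ c₂ c₃ hcell hani C₀ hC₀
  classical
  obtain ⟨hP1, -, -, -⟩ := hPFG F
  obtain ⟨CB, hCB, hBX⟩ := hBXG F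
  obtain ⟨C₃, hC₃, hCN⟩ := hCOG F w₀ c₁ c₂ hcell hani
  obtain ⟨d, hd⟩ : ∃ d, d = Fintype.card (InfinitePlace F) := ⟨_, rfl⟩
  obtain ⟨α, hα⟩ : ∃ α : ℝ, α = CB * (4 ^ d * C₀) := ⟨_, rfl⟩
  have hC₀p : 0 < C₀ := by linarith
  have hα0 : 0 < α := by rw [hα]; positivity
  obtain ⟨M, hM⟩ : ∃ M : ℝ, M = (1 + α) * (C₀ + α) * (2 * C₀ ^ (2 / 3 : ℝ) + C₀ ^ (2 / 3 : ℝ)) :=
    ⟨_, rfl⟩
  have hM0 : 0 < M := by rw [hM]; positivity
  refine ⟨2 + C₃ * M, by positivity, ?_⟩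
  intro v β₁ β₂ κ₁ κ₂ s Q Y hβ₁ hβ₂ hκ₁ hκ₂ hQ hY hv₁ hv₂ Z hZ
  have hQ0 : 0 < Q := by linarith
  have hY0 : 0 < Y := by linarith
  have hR : 0 ≤ (Y / Q) ^ (5 / 3 : ℝ) * (1 + Y / Q ^ 2) := by positivity
  by_cases hcase : vol v β₁ κ₁ < 1
  · -- at most two elements
    have hzero : ∀ y ∈ Z, ∀ i, i ≠ 0 → y i = 0 := by
      intro y hy i hi
      by_contra hne
      have h1 := CNG_lt hP1 hβ₁ hne ((hZ y hy).2.2 i hi)
      linarith
    have hinj : Set.InjOn (fun y : Fin 4 → 𝓞 F => y 0) Z := by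
      intro y hy y' hy' h
      funext i
      by_cases hi : i = 0
      · rw [hi]
        exact h
      · rw [hzero y hy i hi, hzero y' hy' i hi]
    have himg : (fun y : Fin 4 → 𝓞 F => y 0) '' Z ⊆ ({s, -s} : Set (𝓞 F)) := by
      rintro _ ⟨y, hy, rfl⟩
      have h1 := (hZ y hy).1
      rw [hzero y hy 1 (by decide), hzero y hy 2 (by decide), hzero y hy 3 (by decide)] at h1
      have h2 : y 0 ^ 2 = s ^ 2 := by
        rw [← h1]
        ring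
      rcases sq_eq_sq_iff_eq_or_eq_neg.1 h2 with h | h
      · exact Or.inl h
      · exact Or.inr h
    have hfin2 : ({s, -s} : Set (𝓞 F)).Finite := Set.toFinite _
    have h7 := CNG_inj Z (fun y : Fin 4 → 𝓞 F => y 0) hinj 2 ⟨hfin2.subset himg, by
      rw [Nat.card_coe_set_eq]
      have h8 := Set.ncard_le_ncard himg hfin2
      have h9 := Set.ncard_insert_le s ({-s} : Set (𝓞 F))
      rw [Set.ncard_singleton] at h9
      exact_mod_cast le_trans h8 h9⟩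
    refine ⟨h7.1, le_trans h7.2 ?_⟩
    have h10 : 0 < C₃ * M := by positivity
    nlinarith
  · push Not at hcase
    have hKX : 1 ≤ C₀ * (Y / Q) := by
      rw [mul_div_assoc', le_div_iff₀ hQ0, one_mul]
      nlinarith
    -- the first coordinates
    have hZ0 := hBX v ((fun y : Fin 4 → 𝓞 F => y 0) '' Z) (fun w => 4 * β₂ w) κ₂
      (fun w => by have := hβ₂ w; positivity) hκ₂.le
      (by
        rintro _ ⟨y, hy, rfl⟩ _ ⟨y', hy', rfl⟩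
        have h1 := CNG_bd_sub (hZ y hy).2.1 (hZ y' hy').2.1
        have e : ((y 0 : 𝓞 F) : F) - (s : F) - (((y' 0 : 𝓞 F) : F) - (s : F)) =
            ((y 0 : 𝓞 F) : F) - ((y' 0 : 𝓞 F) : F) := by ring
        rw [e] at h1
        exact h1)
    have hZ3 := hBX v ((fun y : Fin 4 → 𝓞 F => y 3) '' Z) (fun w => 4 * β₁ w) κ₁
      (fun w => by have := hβ₁ w; positivity) hκ₁.le
      (by
        rintro _ ⟨y, hy, rfl⟩ _ ⟨y', hy', rfl⟩
        exact CNG_bd_sub ((hZ y hy).2.2 3 (by decide)) ((hZ y' hy').2.2 3 (by decide)))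
    obtain ⟨hZ0f, hZ0c⟩ := hZ0
    obtain ⟨hZ3f, hZ3c⟩ := hZ3
    rw [CNG_vol, ← hd] at hZ0c hZ3c
    have hb0 : CB * (4 ^ d * vol v β₂ κ₂) ≤ α * (Y / Q ^ 2) := by
      have h1 : vol v β₂ κ₂ ≤ C₀ * (Y / Q ^ 2) := by
        rw [mul_div_assoc', le_div_iff₀ (by positivity)]
        exact hv₂
      have h2 : CB * (4 ^ d * vol v β₂ κ₂) ≤ CB * (4 ^ d * (C₀ * (Y / Q ^ 2))) := by
        gcongr
      rw [hα]
      linarith
    have hb3 : CB * (4 ^ d * vol v β₁ κ₁) ≤ α * (Y / Q) := by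
      have h1 : vol v β₁ κ₁ ≤ C₀ * (Y / Q) := by
        rw [mul_div_assoc', le_div_iff₀ hQ0]
        exact hv₁
      have h2 : CB * (4 ^ d * vol v β₁ κ₁) ≤ CB * (4 ^ d * (C₀ * (Y / Q))) := by
        gcongr
      rw [hα]
      linarith
    -- the fibres
    have hv1' : vol v β₁ κ₁ ^ (2 / 3 : ℝ) ≤ C₀ ^ (2 / 3 : ℝ) * (Y / Q) ^ (2 / 3 : ℝ) := by
      rw [← Real.mul_rpow hC₀p.le (by positivity)]
      refine Real.rpow_le_rpow (by linarith) ?_ (by norm_num)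
      rw [mul_div_assoc', le_div_iff₀ hQ0]
      exact hv₁
    have hfib : ∀ p : 𝓞 F × 𝓞 F,
        (Z ∩ (fun y : Fin 4 → 𝓞 F => (y 0, y 3)) ⁻¹' {p}).Finite ∧
        (Nat.card ↥(Z ∩ (fun y : Fin 4 → 𝓞 F => (y 0, y 3)) ⁻¹' {p}) : ℝ) ≤
          C₃ * (1 + C₀ ^ (2 / 3 : ℝ) * (Y / Q) ^ (2 / 3 : ℝ)) := by
      intro p
      apply CNG_inj _ (fun y : Fin 4 → 𝓞 F => (y 1, y 2))
      · rintro y ⟨hy, hyp⟩ y' ⟨hy', hyp'⟩ h
        have e1 : y 0 = y' 0 ∧ y 3 = y' 3 := by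
          have h1 : (y 0, y 3) = p := hyp
          have h2 : (y' 0, y' 3) = p := hyp'
          exact Prod.mk.inj (h1.trans h2.symm)
        have e2 : y 1 = y' 1 ∧ y 2 = y' 2 := Prod.mk.inj h
        funext i
        fin_cases i
        · exact e1.1
        · exact e2.1
        · exact e2.2
        · exact e1.2
      · have h1 := hCN v ((s : F) ^ 2 - (p.1 : F) ^ 2 - (c₃ : F) * (p.2 : F) ^ 2) β₁ κ₁ hβ₁ hκ₁
          ((fun y : Fin 4 → 𝓞 F => (y 1, y 2)) ''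
            (Z ∩ (fun y : Fin 4 → 𝓞 F => (y 0, y 3)) ⁻¹' {p}))
          (by
            rintro _ ⟨y, ⟨hy, hyp⟩, rfl⟩
            have e1 : (y 0, y 3) = p := hyp
            have heqF : ((y 0 : 𝓞 F) : F) ^ 2 + (c₁ : F) * ((y 1 : 𝓞 F) : F) ^ 2 +
                (c₂ : F) * ((y 2 : 𝓞 F) : F) ^ 2 + (c₃ : F) * ((y 3 : 𝓞 F) : F) ^ 2 =
                (s : F) ^ 2 := by
              exact_mod_cast congrArg (algebraMap (𝓞 F) F) (hZ y hy).1
            refine ⟨?_, fun w => ⟨((hZ y hy).2.2 1 (by decide)).1 w,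
              ((hZ y hy).2.2 2 (by decide)).1 w⟩⟩
            rw [← e1]
            linear_combination heqF)
          (by
            rintro _ ⟨y, ⟨hy, hyp⟩, rfl⟩ _ ⟨y', ⟨hy', hyp'⟩, rfl⟩ w hw
            exact ⟨CNG_av_sub w (((hZ y hy).2.2 1 (by decide)).2 w hw)
                (((hZ y' hy').2.2 1 (by decide)).2 w hw),
              CNG_av_sub w (((hZ y hy).2.2 2 (by decide)).2 w hw)
                (((hZ y' hy').2.2 2 (by decide)).2 w hw)⟩)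
        refine ⟨h1.1, le_trans h1.2 ?_⟩
        gcongr
    have hW : (((fun y : Fin 4 → 𝓞 F => y 0) '' Z) ×ˢ ((fun y : Fin 4 → 𝓞 F => y 3) '' Z)).Finite :=
      hZ0f.prod hZ3f
    have hcount := CNG_count Z (fun y : Fin 4 → 𝓞 F => (y 0, y 3)) _ hW
      (fun y hy => ⟨⟨y, hy, rfl⟩, ⟨y, hy, rfl⟩⟩) _ hfib
    refine ⟨hcount.1, le_trans hcount.2 ?_⟩
    have hcardW : (Nat.card ↥(((fun y : Fin 4 → 𝓞 F => y 0) '' Z) ×ˢ
        ((fun y : Fin 4 → 𝓞 F => y 3) '' Z)) : ℝ) ≤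
        (1 + α * (Y / Q ^ 2)) * (1 + α * (Y / Q)) := by
      rw [Nat.card_coe_set_eq, Set.ncard_prod, Nat.cast_mul]
      rw [Nat.card_coe_set_eq] at hZ0c hZ3c
      exact mul_le_mul (by linarith) (by linarith) (Nat.cast_nonneg _) (by positivity)
    have hnum := CNG_num (X := Y / Q) (T := Y / Q ^ 2) (K := C₀) (α₀ := α) (α₃ := α)
      (α₁ := C₀ ^ (2 / 3 : ℝ)) (by positivity) (by positivity) hC₀p hKX hα0.le hα0.le
      (by positivity)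
    rw [← hM] at hnum
    calc _ ≤ ((1 + α * (Y / Q ^ 2)) * (1 + α * (Y / Q))) *
          (C₃ * (1 + C₀ ^ (2 / 3 : ℝ) * (Y / Q) ^ (2 / 3 : ℝ))) :=
          mul_le_mul_of_nonneg_right hcardW (by positivity)
      _ = C₃ * ((1 + α * (Y / Q ^ 2)) * (1 + α * (Y / Q)) *
          (1 + C₀ ^ (2 / 3 : ℝ) * (Y / Q) ^ (2 / 3 : ℝ))) := by ring
      _ ≤ C₃ * (M * ((Y / Q) ^ (5 / 3 : ℝ) * (1 + Y / Q ^ 2))) :=
          mul_le_mul_of_nonneg_left hnum hC₃.le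
      _ ≤ (2 + C₃ * M) * (1 + (Y / Q) ^ (5 / 3 : ℝ) * (1 + Y / Q ^ 2)) := by
          have h10 : 0 < C₃ * M := by positivity
          nlinarith

end Pool.PQ
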