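import Pool.Agent.Work.MP_972ac7_Q.Interface2
import Pool.Agent.Work.MP_972ac7_P.B_DEN

set_option autoImplicit false
set_option linter.unusedSectionVars false

/-! # Block CSG (helper33): clearing denominators -/

open MeasureTheory NumberField IsDedekindDomain
open scoped Quaternion ENNReal

noncomputable section

namespace Pool.PQ

open Pool.PL Pool.TFD Pool.TC

section aux

variable {F : Type} [Field F] [NumberField F]

open Classical in
/-- the factor `x` at the place `p` if it is archimedean -/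
def CSG_f (p : Plc F) (x : ℝ) (w : InfinitePlace F) : ℝ := if p = .inr w then x else 1

theorem CSG_f_pos (p : Plc F) {x : ℝ} (hx : 0 < x) (w : InfinitePlace F) : 0 < CSG_f p x w := by
  classical
  unfold CSG_f
  split_ifs
  · exact hx
  · exact one_pos

theorem CSG_f_self (p : Plc F) (x : ℝ) (w : InfinitePlace F) (h : p = .inr w) :
    CSG_f p x w = x := by
  classical
  unfold CSG_f
  rw [if_pos h]

theorem CSG_f_ne (p : Plc F) (x : ℝ) (w : InfinitePlace F) (h : p ≠ .inr w) :
    CSG_f p x w = 1 := by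
  classical
  unfold CSG_f
  rw [if_neg h]

theorem CSG_prod_inl (w : HeightOneSpectrum (𝓞 F)) (x : ℝ) :
    ∏ u, CSG_f (.inl w : Plc F) x u = 1 :=
  Finset.prod_eq_one fun u _ => CSG_f_ne _ _ _ (by simp)

theorem CSG_prod_inr (w : InfinitePlace F) (x : ℝ) : ∏ u, CSG_f (.inr w : Plc F) x u = x := by
  classical
  rw [Finset.prod_eq_single w]
  · exact CSG_f_self _ _ _ rfl
  · intro u _ hu
    exact CSG_f_ne _ _ _ (fun h => hu (Sum.inr.inj h).symm)
  · intro h
    exact absurd (Finset.mem_univ _) h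

theorem CSG_nv_one (p : Plc F) : nv p (1 : F) = 1 := by
  cases p with
  | inl w =>
    show av w (1 : F) = 1
    unfold av
    rw [map_one]
  | inr w =>
    show w (1 : F) ^ w.mult = 1
    rw [map_one, one_pow]

/-- the sides of the boxes -/
def CSG_b (p q : Plc F) (C Y x : ℝ) (s : F) (w : InfinitePlace F) : ℝ :=
  4 * C * w s ^ w.mult * CSG_f p Y w * CSG_f q x w

theorem CSG_b_pos (p q : Plc F) {C Y x : ℝ} {s : F} (hC : 0 < C) (hY : 0 < Y) (hx : 0 < x)
    (hs : s ≠ 0) (w : InfinitePlace F) : 0 < CSG_b p q C Y x s w := by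
  unfold CSG_b
  have h1 := CSG_f_pos p hY w
  have h2 := CSG_f_pos q hx w
  have h3 : 0 < w s := InfinitePlace.pos_iff.2 hs
  positivity

/-- the volume of the boxes -/
theorem CSG_vol (p q : Plc F) (C Y x A : ℝ) (s : F) (hC : 1 ≤ C) (hY : 0 < Y) (hx : 0 < x)
    (hA : N2 s * ∏ w, CSG_f p Y w ≤ A) :
    vol q (CSG_b p q C Y x s) (4 * C * x) ≤
      (4 * C) ^ (Fintype.card (InfinitePlace F) + 1) * A * x := by
  have hC4 : 1 ≤ 4 * C := by linarith
  have hN : ∏ w, CSG_b p q C Y x s w = (4 * C) ^ Fintype.card (InfinitePlace F) *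
      (N2 s * ∏ w, CSG_f p Y w) * ∏ w, CSG_f q x w := by
    unfold CSG_b N2
    rw [← Finset.card_univ, ← Finset.prod_const]
    rw [← Finset.prod_mul_distrib, ← Finset.prod_mul_distrib, ← Finset.prod_mul_distrib]
    refine Finset.prod_congr rfl fun w _ => ?_
    ring
  have hfac : (∏ w, CSG_f q x w) * fac q (4 * C * x) ≤ 4 * C * x := by
    cases q with
    | inl w =>
      rw [CSG_prod_inl, one_mul]
      exact le_rfl
    | inr w =>
      rw [CSG_prod_inr]
      show x * 1 ≤ _
      rw [mul_one]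
      calc x = 1 * x := (one_mul x).symm
        _ ≤ 4 * C * x := mul_le_mul_of_nonneg_right hC4 hx.le
  have hfac0 : 0 ≤ (∏ w, CSG_f q x w) * fac q (4 * C * x) := by
    refine mul_nonneg (Finset.prod_nonneg fun w _ => (CSG_f_pos q hx w).le) ?_
    cases q with
    | inl w =>
      show 0 ≤ 4 * C * x
      positivity
    | inr w =>
      show (0 : ℝ) ≤ 1
      exact zero_le_one
  unfold vol
  rw [hN]
  calc (4 * C) ^ Fintype.card (InfinitePlace F) * (N2 s * ∏ w, CSG_f p Y w) *
        (∏ w, CSG_f q x w) * fac q (4 * C * x)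
      = ((4 * C) ^ Fintype.card (InfinitePlace F) * (N2 s * ∏ w, CSG_f p Y w)) *
        ((∏ w, CSG_f q x w) * fac q (4 * C * x)) := by ring
    _ ≤ ((4 * C) ^ Fintype.card (InfinitePlace F) * A) *
        ((∏ w, CSG_f q x w) * fac q (4 * C * x)) := by
        refine mul_le_mul_of_nonneg_right ?_ hfac0
        exact mul_le_mul_of_nonneg_left hA (by positivity)
    _ ≤ ((4 * C) ^ Fintype.card (InfinitePlace F) * A) * (4 * C * x) := by
        refine mul_le_mul_of_nonneg_left hfac ?_
        refine mul_nonneg (by positivity) (le_trans ?_ hA)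
        exact mul_nonneg (N2_nonneg s) (Finset.prod_nonneg fun w _ => (CSG_f_pos p hY w).le)
    _ = _ := by rw [pow_succ]; ring

end aux

theorem p_CSG (hPFG : Stmt_PFG) (hLBG : Stmt_LBG) (hPPG : Stmt_PPG) : Stmt_CSG := by
  classical
  intro F _ _ ι _ k _ D W v hWv R
  obtain ⟨hN1, -, hint, hfin⟩ := hPFG F
  obtain ⟨C, hC, hL⟩ := hLBG F ι k D W v hWv R
  obtain ⟨C₁, hC₁, hP⟩ := hPPG F (D.pl W)
  have hC0 : 0 < C := by linarith
  obtain ⟨c, hc, hcS⟩ := Pool.PL.p_DEN F (hfin D.n D.hn).toFinset C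
  have hcF : (c : F) ≠ 0 := by
    intro h
    exact hc (by exact_mod_cast h)
  have hNc : 1 ≤ N2 (c : F) := (hN1 c hc).1
  refine ⟨c, (4 * C) ^ (Fintype.card (InfinitePlace F) + 1) * (N2 (c : F) * C₁), hc, ?_, ?_⟩
  · have h1 : (1 : ℝ) ≤ (4 * C) ^ (Fintype.card (InfinitePlace F) + 1) :=
      one_le_pow₀ (by linarith)
    exact one_le_mul_of_one_le_of_one_le h1 (one_le_mul_of_one_le_of_one_le hNc hC₁)
  intro Q Y hQ hY
  have hQ0 : 0 < Q := by linarith
  have hY0 : 0 < Y := by linarith
  obtain ⟨P, hP0, hPW, hPu, hPi⟩ := hP Y hY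
  have hPF : (P : F) ≠ 0 := by
    intro h
    exact hP0 (by exact_mod_cast h)
  have hs : (c : F) * (P : F) ≠ 0 := mul_ne_zero hcF hPF
  have hA : N2 ((c : F) * (P : F)) * ∏ w, CSG_f (D.pl W) Y w ≤ N2 (c : F) * C₁ * Y := by
    rw [N2_mul, mul_assoc, mul_assoc]
    refine mul_le_mul_of_nonneg_left ?_ (N2_nonneg _)
    cases hp : D.pl W with
    | inl w =>
      rw [CSG_prod_inl, mul_one]
      exact (hPW w hp).2
    | inr w =>
      rw [CSG_prod_inr, hPi w hp]
      have h1 : N2 (((1 : 𝓞 F) : F)) = 1 := by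
        unfold N2
        exact Finset.prod_eq_one fun w _ => by
          rw [show (((1 : 𝓞 F) : F)) = 1 from by norm_cast, map_one, one_pow]
      rw [h1]
      exact mul_le_mul_of_nonneg_right hC₁ hY0.le
  have hx1 : 0 < 1 / Q := by positivity
  have hx2 : 0 < 1 / Q ^ 2 := by positivity
  refine ⟨P, CSG_b (D.pl W) (D.pl v) C Y (1 / Q) ((c : F) * (P : F)),
    CSG_b (D.pl W) (D.pl v) C Y (1 / Q ^ 2) ((c : F) * (P : F)), 4 * C * (1 / Q),
    4 * C * (1 / Q ^ 2), hP0, CSG_b_pos _ _ hC0 hY0 hx1 hs, CSG_b_pos _ _ hC0 hY0 hx2 hs,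
    by positivity, by positivity, ?_, ?_, ?_⟩
  · have h1 := CSG_vol (D.pl W) (D.pl v) C Y (1 / Q) _ ((c : F) * (P : F)) hC hY0 hx1 hA
    calc vol (D.pl v) (CSG_b (D.pl W) (D.pl v) C Y (1 / Q) ((c : F) * (P : F)))
          (4 * C * (1 / Q)) * Q ≤
          ((4 * C) ^ (Fintype.card (InfinitePlace F) + 1) * (N2 (c : F) * C₁ * Y) * (1 / Q)) * Q :=
          mul_le_mul_of_nonneg_right h1 hQ0.le
      _ = (4 * C) ^ (Fintype.card (InfinitePlace F) + 1) * (N2 (c : F) * C₁) * Y := by
          field_simp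
  · have h1 := CSG_vol (D.pl W) (D.pl v) C Y (1 / Q ^ 2) _ ((c : F) * (P : F)) hC hY0 hx2 hA
    calc vol (D.pl v) (CSG_b (D.pl W) (D.pl v) C Y (1 / Q ^ 2) ((c : F) * (P : F)))
          (4 * C * (1 / Q ^ 2)) * Q ^ 2 ≤
          ((4 * C) ^ (Fintype.card (InfinitePlace F) + 1) * (N2 (c : F) * C₁ * Y) *
            (1 / Q ^ 2)) * Q ^ 2 :=
          mul_le_mul_of_nonneg_right h1 (by positivity)
      _ = (4 * C) ^ (Fintype.card (InfinitePlace F) + 1) * (N2 (c : F) * C₁) * Y := by
          field_simp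
  intro g hg z hz h1 h2 h3
  obtain ⟨l1, l2, l3, l4, l5, l6, l7⟩ := hL g hg Q Y hQ hY z hz h1 h2 h3
  have hCQ : C / Q ≤ C := div_le_self hC0.le hQ
  have hvC : ∀ j, nv (D.pl v) (co z.1 j) ≤ 4 * C := by
    intro j
    by_cases hj : j = 0
    · subst hj
      have e1 : co z.1 0 = (z.1.re - 1) + 1 := by
        show z.1.re = _
        ring
      have e2 : nv (D.pl v) (z.1.re - 1) ≤ C := by
        have h4 : nv (D.pl v) (z.1.re - 1) * 1 ≤ nv (D.pl v) (z.1.re - 1) * Q ^ 2 :=
          mul_le_mul_of_nonneg_left (one_le_pow₀ hQ) (nv_nonneg _ _)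
        linarith
      rw [e1]
      refine (nv_add_le _ _ _).trans ?_
      rw [CSG_nv_one]
      exact mul_le_mul_of_nonneg_left (max_le e2 hC) (by norm_num)
    · have h4 : nv (D.pl v) (co z.1 j) * 1 ≤ nv (D.pl v) (co z.1 j) * Q :=
        mul_le_mul_of_nonneg_left hQ (nv_nonneg _ _)
      have := l2 j hj
      linarith
  -- the bounds at the finite places
  have hfC : ∀ w : HeightOneSpectrum (𝓞 F), D.n ∈ w.asIdeal → D.pl W ≠ .inl w →
      ∀ j, av w (co z.1 j) ≤ C := by
    intro w hw hwW j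
    by_cases hex : ∃ i, D.pl i = .inl w
    · obtain ⟨i, hi⟩ := hex
      by_cases hiv : i = v
      · subst hiv
        by_cases hj : j = 0
        · subst hj
          have e1 : co z.1 0 = (z.1.re - 1) + 1 := by
            show z.1.re = _
            ring
          have e2 : av w (z.1.re - 1) ≤ C := by
            have h4 : nv (D.pl i) (z.1.re - 1) * 1 ≤ nv (D.pl i) (z.1.re - 1) * Q ^ 2 :=
              mul_le_mul_of_nonneg_left (one_le_pow₀ hQ) (nv_nonneg _ _)
            have h5 : nv (D.pl i) (z.1.re - 1) = av w (z.1.re - 1) := by rw [hi]; rfl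
            linarith
          rw [e1]
          refine (av_add_le _ _ _).trans (max_le e2 ?_)
          have : av w (1 : F) = 1 := CSG_nv_one (.inl w : Plc F)
          rw [this]
          exact hC
        · have h4 : nv (D.pl i) (co z.1 j) * 1 ≤ nv (D.pl i) (co z.1 j) * Q :=
            mul_le_mul_of_nonneg_left hQ (nv_nonneg _ _)
          have h5 : nv (D.pl i) (co z.1 j) = av w (co z.1 j) := by rw [hi]; rfl
          have := l2 j hj
          linarith
      · have hiW : i ≠ W := fun h => hwW (by rw [← h]; exact hi)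
        have h5 := l4 i hiv hiW j
        rw [hi] at h5
        exact h5
    · exact l6 w (fun i hi => hex ⟨i, hi⟩) hw j
  have hintj : ∀ j, ∃ y : 𝓞 F, (y : F) = (c : F) * (P : F) * co z.1 j := by
    intro j
    refine hint _ fun w => ?_
    rw [av_mul, av_mul]
    by_cases hw : D.n ∈ w.asIdeal
    · have h4 : av w (c : F) * C ≤ 1 := hcS w ((Set.Finite.mem_toFinset _).2 hw)
      by_cases hwW : D.pl W = .inl w
      · have h5 := l3 j
        rw [hwW] at h5
        have h6 : av w (co z.1 j) ≤ C * Y := h5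
        have h7 := (hPW w hwW).1
        calc av w (c : F) * av w (P : F) * av w (co z.1 j)
            ≤ av w (c : F) * av w (P : F) * (C * Y) :=
              mul_le_mul_of_nonneg_left h6 (mul_nonneg (av_nonneg _ _) (av_nonneg _ _))
          _ = (av w (c : F) * C) * (av w (P : F) * Y) := by ring
          _ ≤ 1 * 1 := mul_le_mul h4 h7 (mul_nonneg (av_nonneg _ _) hY0.le) zero_le_one
          _ = 1 := one_mul 1
      · have h6 := hfC w hw hwW j
        calc av w (c : F) * av w (P : F) * av w (co z.1 j)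
            ≤ av w (c : F) * 1 * C :=
              mul_le_mul (mul_le_mul_of_nonneg_left (av_int w P) (av_nonneg _ _)) h6
                (av_nonneg _ _) (mul_nonneg (av_nonneg _ _) zero_le_one)
          _ = av w (c : F) * C := by ring
          _ ≤ 1 := h4
    · have h6 := l7 w hw j
      exact mul_le_one₀ (mul_le_one₀ (av_int w c) (av_nonneg _ _) (av_int w P)) (av_nonneg _ _) h6
  choose y hy using hintj
  -- the bounds at the archimedean places
  have harch : ∀ (t : F) (x : ℝ), 0 < x → (nv (D.pl v) t ≤ 4 * C * x) →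
      (nv (D.pl W) t ≤ 4 * C * Y) → (∀ u, u ≠ v → u ≠ W → nv (D.pl u) t ≤ 4 * C) →
      (∀ w : InfinitePlace F, (∀ i, D.pl i ≠ .inr w) → w t ^ w.mult ≤ 4 * C) →
      ∀ w : InfinitePlace F, w ((c : F) * (P : F) * t) ^ w.mult ≤
        CSG_b (D.pl W) (D.pl v) C Y x ((c : F) * (P : F)) w := by
    intro t x hx t1 t2 t3 t4 w
    have key : w t ^ w.mult ≤ 4 * C * CSG_f (D.pl W) Y w * CSG_f (D.pl v) x w := by
      by_cases hex : ∃ i, D.pl i = .inr w
      · obtain ⟨i, hi⟩ := hex
        by_cases hiv : i = v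
        · subst hiv
          have hW' : D.pl W ≠ .inr w := fun h => hWv (D.inj (h.trans hi.symm))
          rw [CSG_f_self _ _ _ hi, CSG_f_ne _ _ _ hW', mul_one]
          rw [hi] at t1
          exact t1
        · have hv' : D.pl v ≠ .inr w := fun h => hiv (D.inj (hi.trans h.symm))
          by_cases hiW : i = W
          · subst hiW
            rw [CSG_f_self _ _ _ hi, CSG_f_ne _ _ _ hv', mul_one]
            rw [hi] at t2
            exact t2
          · have hW' : D.pl W ≠ .inr w := fun h => hiW (D.inj (hi.trans h.symm))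
            rw [CSG_f_ne _ _ _ hW', CSG_f_ne _ _ _ hv', mul_one, mul_one]
            have := t3 i hiv hiW
            rw [hi] at this
            exact this
      · have hex' : ∀ i, D.pl i ≠ .inr w := fun i hi => hex ⟨i, hi⟩
        rw [CSG_f_ne _ _ _ (hex' W), CSG_f_ne _ _ _ (hex' v), mul_one, mul_one]
        exact t4 w hex'
    rw [map_mul, mul_pow]
    unfold CSG_b
    calc w ((c : F) * (P : F)) ^ w.mult * w t ^ w.mult
        ≤ w ((c : F) * (P : F)) ^ w.mult *
          (4 * C * CSG_f (D.pl W) Y w * CSG_f (D.pl v) x w) :=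
          mul_le_mul_of_nonneg_left key (pow_nonneg (apply_nonneg w _) _)
      _ = _ := by ring
  have hvfin : ∀ (t : F) (x : ℝ), nv (D.pl v) t ≤ 4 * C * x →
      ∀ w : HeightOneSpectrum (𝓞 F), D.pl v = .inl w →
        av w ((c : F) * (P : F) * t) ≤ 4 * C * x := by
    intro t x ht w hw
    rw [hw] at ht
    have ht' : av w t ≤ 4 * C * x := ht
    rw [av_mul, av_mul]
    calc av w (c : F) * av w (P : F) * av w t ≤ 1 * av w t :=
          mul_le_mul_of_nonneg_right (mul_le_one₀ (av_int w c) (av_nonneg _ _) (av_int w P))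
            (av_nonneg _ _)
      _ = av w t := one_mul _
      _ ≤ _ := ht'
  refine ⟨y, hy, ?_, ?_⟩
  · -- the coordinate 0
    have e0 : ((y 0 : 𝓞 F) : F) - (c : F) * (P : F) = (c : F) * (P : F) * (z.1.re - 1) := by
      rw [hy 0]
      show (c : F) * (P : F) * z.1.re - _ = _
      ring
    have hsub : ∀ p : Plc F, ∀ B : ℝ, 1 ≤ B → nv p (co z.1 0) ≤ B →
        nv p (z.1.re - 1) ≤ 4 * B := by
      intro p B hB h
      have e1 : z.1.re - 1 = z.1.re + -1 := sub_eq_add_neg _ _
      rw [e1]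
      refine (nv_add_le _ _ _).trans (mul_le_mul_of_nonneg_left (max_le h ?_) (by norm_num))
      rw [nv_neg, CSG_nv_one]
      exact hB
    have b1 : nv (D.pl v) (z.1.re - 1) ≤ 4 * C * (1 / Q ^ 2) := by
      rw [mul_one_div, le_div_iff₀ (by positivity)]
      linarith
    rw [e0]
    refine ⟨harch (z.1.re - 1) (1 / Q ^ 2) hx2 b1 ?_ ?_ ?_, hvfin _ _ b1⟩
    · have := hsub (D.pl W) (C * Y) (one_le_mul_of_one_le_of_one_le hC hY) (l3 0)
      linarith
    · intro u hu1 hu2
      exact hsub (D.pl u) C hC (l4 u hu1 hu2 0)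
    · intro w hw
      exact hsub (.inr w) C hC (l5 w hw 0)
  · intro j hj
    rw [hy j]
    have b1 : nv (D.pl v) (co z.1 j) ≤ 4 * C * (1 / Q) := by
      rw [mul_one_div, le_div_iff₀ hQ0]
      have := l2 j hj
      linarith
    refine ⟨harch (co z.1 j) (1 / Q) hx1 b1 ?_ ?_ ?_, hvfin _ _ b1⟩
    · have := l3 j
      have h4 : 0 ≤ C * Y := by positivity
      linarith
    · intro u hu1 hu2
      have := l4 u hu1 hu2 j
      linarith
    · intro w hw
      have := l5 w hw j
      linarith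

end Pool.PQ
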