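import Pool.Agent.Work.MP_972ac7_Q.Interface1

set_option autoImplicit false

/-! # Block CST: invariant functions are constant -/

open MeasureTheory
open scoped ENNReal

noncomputable section

namespace Pool.PQ

open Pool.PL Pool.TFD Pool.TC

section

variable {G : Type} [Group G] [TopologicalSpace G] [IsTopologicalGroup G] [LocallyCompactSpace G]
    [SecondCountableTopology G] [T2Space G] [MeasurableSpace G] [BorelSpace G]

omit [TopologicalSpace G] [IsTopologicalGroup G] [LocallyCompactSpace G]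
  [SecondCountableTopology G] [T2Space G] [MeasurableSpace G] [BorelSpace G] in
theorem CST_mk (Γ : Subgroup G) (x : G ⧸ Γ) (γ : Γ) :
    ((Quotient.out x * (γ : G) : G) : G ⧸ Γ) = x := by
  rw [QuotientGroup.mk_mul_of_mem _ γ.2]
  exact Quotient.out_eq x

omit [IsTopologicalGroup G] [LocallyCompactSpace G] [SecondCountableTopology G] [T2Space G]
  [BorelSpace G] in
theorem CST_null (Γ : Subgroup G) (μ : Measure G) (m : Measure (G ⧸ Γ)) (c : ℝ≥0∞)
    (hQ : QD Γ μ m c) (E : Set (G ⧸ Γ)) (hE : MeasurableSet E) :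
    μ ((fun g : G => (g : G ⧸ Γ)) ⁻¹' E) = 0 ↔ m E = 0 := by
  have hmk : Measurable (fun g : G => (g : G ⧸ Γ)) := QuotientGroup.measurable_coe
  have hw := hQ.weil (((fun g : G => (g : G ⧸ Γ)) ⁻¹' E).indicator 1)
    (measurable_one.indicator (hmk hE))
  rw [lintegral_indicator_one (hmk hE)] at hw
  have hval : ∀ (x : G ⧸ Γ) (γ : Γ),
      ((fun g : G => (g : G ⧸ Γ)) ⁻¹' E).indicator (1 : G → ℝ≥0∞) (Quotient.out x * γ) =
        E.indicator 1 x := by
    intro x γ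
    by_cases hx : x ∈ E
    · rw [Set.indicator_of_mem hx, Set.indicator_of_mem]
      · rfl
      · change ((Quotient.out x * (γ : G) : G) : G ⧸ Γ) ∈ E
        rw [CST_mk]; exact hx
    · rw [Set.indicator_of_notMem hx, Set.indicator_of_notMem]
      change ((Quotient.out x * (γ : G) : G) : G ⧸ Γ) ∉ E
      rw [CST_mk]; exact hx
  constructor
  · intro h
    rw [h] at hw
    have h1 : ∫⁻ x, sG Γ (((fun g : G => (g : G ⧸ Γ)) ⁻¹' E).indicator 1) x ∂m = 0 := by
      rcases mul_eq_zero.1 hw.symm with h2 | h2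
      · exact absurd h2 hQ.pos
      · exact h2
    have h2 : m E ≤ ∫⁻ x, sG Γ (((fun g : G => (g : G ⧸ Γ)) ⁻¹' E).indicator 1) x ∂m := by
      rw [← lintegral_indicator_one hE]
      apply lintegral_mono
      intro x
      unfold sG
      rw [← hval x 1]
      exact ENNReal.le_tsum (f := fun γ : Γ =>
        ((fun g : G => (g : G ⧸ Γ)) ⁻¹' E).indicator (1 : G → ℝ≥0∞) (Quotient.out x * γ)) 1
    rw [h1] at h2
    exact le_antisymm h2 (zero_le)
  · intro h
    have h1 : ∫⁻ x, sG Γ (((fun g : G => (g : G ⧸ Γ)) ⁻¹' E).indicator 1) x ∂m = 0 := by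
      apply lintegral_eq_zero_of_ae_eq_zero
      have h2 : ∀ᵐ x ∂m, x ∉ E := measure_eq_zero_iff_ae_notMem.1 h
      filter_upwards [h2] with x hx
      unfold sG
      have h3 : ∀ γ : Γ, ((fun g : G => (g : G ⧸ Γ)) ⁻¹' E).indicator (1 : G → ℝ≥0∞)
          (Quotient.out x * γ) = 0 := by
        intro γ
        rw [hval x γ, Set.indicator_of_notMem hx]
      simp_rw [h3]
      simp
    rw [hw, h1, mul_zero]

end

theorem p_CST : Stmt_CST := by
  intro G _ _ _ _ _ _ _ _ Γ μ m c hQ π hK f hf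
  have := hQ.haar
  have := hQ.right
  have := hQ.inv
  have hmk : Measurable (fun g : G => (g : G ⧸ Γ)) := QuotientGroup.measurable_coe
  have hfm : Measurable (⇑f : G ⧸ Γ → ℂ) := (Lp.stronglyMeasurable f).measurable
  have hF : Measurable (fun g : G => f (g : G ⧸ Γ)) := hfm.comp hmk
  -- for every `g`
  have h1 : ∀ g : G, ∀ᵐ h ∂μ, f ((g⁻¹ * h : G) : G ⧸ Γ) = f (h : G ⧸ Γ) := by
    intro g
    have h2 := hK.ae g f
    rw [hf g] at h2
    have hg : Measurable (fun x : G ⧸ Γ => g⁻¹ • x) := (hQ.pres g⁻¹).measurable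
    have hE : MeasurableSet {x : G ⧸ Γ | f (g⁻¹ • x) = f x} :=
      measurableSet_eq_fun (hfm.comp hg) hfm
    have h3 : m {x : G ⧸ Γ | f (g⁻¹ • x) = f x}ᶜ = 0 := by
      have h4 : ∀ᵐ x ∂m, x ∈ {x : G ⧸ Γ | f (g⁻¹ • x) = f x} := by
        filter_upwards [h2] with x hx
        exact hx.symm
      exact h4
    have h5 := (CST_null Γ μ m c hQ _ hE.compl).2 h3
    have h6 : ∀ᵐ h ∂μ, h ∉ ((fun g : G => (g : G ⧸ Γ)) ⁻¹'
        {x : G ⧸ Γ | f (g⁻¹ • x) = f x}ᶜ) := measure_eq_zero_iff_ae_notMem.1 h5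
    filter_upwards [h6] with h hh
    by_contra hne
    exact hh hne
  have hS : MeasurableSet {p : G × G | f ((p.1⁻¹ * p.2 : G) : G ⧸ Γ) = f (p.2 : G ⧸ Γ)} :=
    measurableSet_eq_fun (hF.comp (measurable_fst.inv.mul measurable_snd))
      (hF.comp measurable_snd)
  have h2 : ∀ᵐ h ∂μ, ∀ᵐ g ∂μ, f ((g⁻¹ * h : G) : G ⧸ Γ) = f (h : G ⧸ Γ) :=
    (Measure.ae_ae_comm hS).1 (Filter.Eventually.of_forall h1)
  obtain ⟨h₀, hh₀⟩ := h2.exists
  refine ⟨f (h₀ : G ⧸ Γ), ?_⟩
  set z : ℂ := f (h₀ : G ⧸ Γ) with hz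
  have hE : MeasurableSet {x : G ⧸ Γ | f x = z} := measurableSet_eq_fun hfm measurable_const
  have hmp : MeasurePreserving (fun g : G => g⁻¹ * h₀) μ μ :=
    (measurePreserving_mul_right μ h₀).comp (Measure.measurePreserving_inv μ)
  have h3 : μ ((fun g : G => (g : G ⧸ Γ)) ⁻¹' {x : G ⧸ Γ | f x = z}ᶜ) = 0 := by
    rw [← hmp.measure_preimage (hmk hE.compl).nullMeasurableSet]
    exact hh₀
  have h4 := (CST_null Γ μ m c hQ _ hE.compl).1 h3
  have h5 : ∀ᵐ x ∂m, x ∉ {x : G ⧸ Γ | f x = z}ᶜ := measure_eq_zero_iff_ae_notMem.1 h4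
  filter_upwards [h5] with x hx
  by_contra hne
  exact hx hne

end Pool.PQ
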