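import Pool.Agent.Work.MP_972ac7_Q.Interface1
import Pool.Agent.Work.MP_972ac7_P.B_CTR

set_option autoImplicit false

open MeasureTheory

noncomputable section

namespace Pool.PQ

open Pool.PL Pool.TFD Pool.TC

section

variable {k : Type} [NormedField k]

theorem CTG_tend (L : LG k) (t : k) :
    Filter.Tendsto (fun n : ℕ => ((L.ϑ⁻¹) ^ n) ^ 2 * t) Filter.atTop (nhds 0) := by
  have h0 : ‖L.ϑ⁻¹‖ < 1 := by
    rw [norm_inv]
    exact inv_lt_one_of_one_lt₀ L.one_lt
  have h1 : Filter.Tendsto (fun n : ℕ => (L.ϑ⁻¹) ^ n) Filter.atTop (nhds 0) :=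
    tendsto_pow_atTop_nhds_zero_of_norm_lt_one h0
  have h2 := (h1.pow 2).mul_const t
  simpa using h2

theorem CTG_ne (L : LG k) : L.ϑ⁻¹ ≠ 0 := by
  intro h
  rw [inv_eq_zero] at h
  have h1 := L.one_lt
  rw [h, norm_zero] at h1
  linarith

/-- one factor -/
theorem CTG_one (h : Stmt_GN2) (L : LG k) :
    Subgroup.closure (CTR_set (SL2 k)) = ⊤ := by
  have hl : ∀ n : ℕ, (L.ϑ⁻¹) ^ n ≠ 0 := fun n => pow_ne_zero n (CTG_ne L)
  refine h k _ ?_ ?_
  · intro t
    apply Subgroup.subset_closure
    refine ⟨fun n => dia _ (hl n), ?_⟩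
    have h1 := (CTR_cont_upp (k := k)).tendsto 0
    rw [CTR_zero.1] at h1
    exact (h1.comp (CTG_tend L t)).congr fun n => (CTR_upp _ (hl n) t).symm
  · intro t
    apply Subgroup.subset_closure
    refine ⟨fun n => dia _ (inv_ne_zero (hl n)), ?_⟩
    have h1 := (CTR_cont_low (k := k)).tendsto 0
    rw [CTR_zero.2] at h1
    exact (h1.comp (CTG_tend L t)).congr fun n => (CTR_low _ (hl n) t).symm

end

/-- CTG. -/
theorem p_CTG (hGN2 : Stmt_GN2) : Stmt_CTG := by
  classical
  refine ⟨fun k _ L => ?_, fun ι _ k _ L => ?_⟩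
  · unfold Pool.TC.ContrGen
    have h1 := CTG_one hGN2 L
    unfold CTR_set at h1
    rw [h1]
    exact dense_univ
  · unfold Pool.TC.ContrGen
    have h1 : Subgroup.closure (CTR_set (GG k)) = ⊤ := by
      rw [eq_top_iff]
      rintro x -
      apply Subgroup.pi_mem_of_mulSingle_mem
      intro l
      have h2 : Subgroup.closure (CTR_set (SL2 (k l))) ≤
          (Subgroup.closure (CTR_set (GG k))).comap
            (MonoidHom.mulSingle (fun l : ι => SL2 (k l)) l) := by
        rw [Subgroup.closure_le]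
        rintro a ⟨b, hb⟩
        rw [SetLike.mem_coe, Subgroup.mem_comap]
        apply Subgroup.subset_closure
        refine ⟨fun m => MonoidHom.mulSingle (fun l : ι => SL2 (k l)) l (b m), ?_⟩
        simp only [← map_mul, ← map_inv]
        have h3 : Continuous (fun y : SL2 (k l) =>
            (MonoidHom.mulSingle (fun l : ι => SL2 (k l)) l y : GG k)) :=
          continuous_mulSingle (A := fun l : ι => SL2 (k l)) l
        have h4 := h3.tendsto 1
        rw [map_one] at h4
        exact h4.comp hb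
      rw [CTG_one hGN2 (L l)] at h2
      exact h2 (Subgroup.mem_top (x l))
    unfold CTR_set at h1
    rw [h1]
    exact dense_univ

end Pool.PQ
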