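import Pool.Agent.Work.MP_972ac7_Q.Interface2

set_option autoImplicit false

/-! # THEOREM PP (MP_972ac7_al), block CTQ: the counting property of the lattice (helper10) -/

open MeasureTheory NumberField IsDedekindDomain
open scoped Quaternion ENNReal

noncomputable section

namespace Pool.PQ

open Pool.PL Pool.TFD Pool.TC

theorem CTQ_inj {F : Type} [Field F] [NumberField F] {x y : 𝓞 F} (h : (x : F) = (y : F)) :
    x = y := RingOfIntegers.coe_injective h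

theorem CTQ_form {F : Type} [Field F] [NumberField F] (a b s : 𝓞 F) (σ : Equiv.Perm (Fin 4))
    (hσ : σ 0 = 0) (z : ℍ[F, (a : F), (b : F)]) (hz : nrq z = 1) (y : Fin 4 → 𝓞 F)
    (hy : ∀ j, ((y j : 𝓞 F) : F) = (s : F) * co z j) :
    y (σ 0) ^ 2 + dq a b (σ 1) * y (σ 1) ^ 2 + dq a b (σ 2) * y (σ 2) ^ 2 +
      dq a b (σ 3) * y (σ 3) ^ 2 = s ^ 2 := by
  have h1 : ∑ j, dq a b (σ j) * y (σ j) ^ 2 = ∑ j, dq a b j * y j ^ 2 :=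
    Equiv.sum_comp σ (fun j => dq a b j * y j ^ 2)
  rw [Fin.sum_univ_four, Fin.sum_univ_four] at h1
  have h2 : dq a b (σ 0) * y (σ 0) ^ 2 = y (σ 0) ^ 2 := by
    rw [hσ]
    change 1 * y 0 ^ 2 = y 0 ^ 2
    rw [one_mul]
  rw [h2] at h1
  rw [h1]
  apply CTQ_inj
  have e0 := hy 0
  have e1 := hy 1
  have e2 := hy 2
  have e3 := hy 3
  change ((y 0 : 𝓞 F) : F) = (s : F) * z.re at e0
  change ((y 1 : 𝓞 F) : F) = (s : F) * z.imI at e1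
  change ((y 2 : 𝓞 F) : F) = (s : F) * z.imJ at e2
  change ((y 3 : 𝓞 F) : F) = (s : F) * z.imK at e3
  change ((1 * y 0 ^ 2 + (-a) * y 1 ^ 2 + (-b) * y 2 ^ 2 + (a * b) * y 3 ^ 2 : 𝓞 F) : F) =
    ((s ^ 2 : 𝓞 F) : F)
  have h4 : ((1 * y 0 ^ 2 + (-a) * y 1 ^ 2 + (-b) * y 2 ^ 2 + (a * b) * y 3 ^ 2 : 𝓞 F) : F) =
      1 * ((y 0 : 𝓞 F) : F) ^ 2 + (-(a : F)) * ((y 1 : 𝓞 F) : F) ^ 2 +
        (-(b : F)) * ((y 2 : 𝓞 F) : F) ^ 2 + ((a : F) * (b : F)) * ((y 3 : 𝓞 F) : F) ^ 2 := by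
    simp only [map_add, map_mul, map_pow, map_neg, map_one]
  have h5 : ((s ^ 2 : 𝓞 F) : F) = (s : F) ^ 2 := map_pow _ _ _
  rw [h4, h5, e0, e1, e2, e3]
  have h3 : z.re ^ 2 - (a : F) * z.imI ^ 2 - (b : F) * z.imJ ^ 2 +
      (a : F) * (b : F) * z.imK ^ 2 = 1 := hz
  linear_combination (s : F) ^ 2 * h3

theorem p_CTQ (hSLG : Stmt_SLG) (hCNG : Stmt_CNG) (hCSG : Stmt_CSG) : Stmt_CTQ := by
  intro F _ _ ι _ k _ D W v hWv R
  obtain ⟨w₀, σ, hσ0, hcell, haniso⟩ := hSLG F D.a D.b D.dv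
  obtain ⟨c, C₀, hc, hC₀, hcs⟩ := hCSG F ι k D W v hWv R
  obtain ⟨C, hC, hcn⟩ := hCNG F w₀ (dq D.a D.b (σ 1)) (dq D.a D.b (σ 2)) (dq D.a D.b (σ 3))
    hcell haniso C₀ hC₀
  refine ⟨C, hC, fun g hg Q Y hQ hY => ?_⟩
  obtain ⟨P, β₁, β₂, κ₁, κ₂, hP, hβ₁, hβ₂, hκ₁, hκ₂, hv1, hv2, hz⟩ := hcs Q Y hQ hY
  have hcP : ((c * P : 𝓞 F) : F) = (c : F) * (P : F) := map_mul _ _ _
  have hcP0 : (c : F) * (P : F) ≠ 0 :=
    mul_ne_zero (RingOfIntegers.coe_ne_zero_iff.2 hc) (RingOfIntegers.coe_ne_zero_iff.2 hP)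
  set Z : Set (Fin 4 → 𝓞 F) := {y | y 0 ^ 2 + dq D.a D.b (σ 1) * y 1 ^ 2 +
    dq D.a D.b (σ 2) * y 2 ^ 2 + dq D.a D.b (σ 3) * y 3 ^ 2 = (c * P) ^ 2 ∧
    bd (D.pl v) β₂ κ₂ (((y 0 : 𝓞 F) : F) - ((c * P : 𝓞 F) : F)) ∧
    ∀ i, i ≠ 0 → bd (D.pl v) β₁ κ₁ ((y i : 𝓞 F) : F)} with hZ
  obtain ⟨hfin, hcard⟩ := hcn (D.pl v) β₁ β₂ κ₁ κ₂ (c * P) Q Y hβ₁ hβ₂ hκ₁ hκ₂ hQ hY hv1 hv2 Z
    (fun y hy => hy)
  have key : ∀ γ : cs D.L D.Γ W v R g Q Y, ∃ (z : unitary ℍ[F, (D.a : F), (D.b : F)])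
      (y : Fin 4 → 𝓞 F), D.Th z = ((γ : D.Γ) : GG k) ∧
      (∀ j, ((y j : 𝓞 F) : F) = (c : F) * (P : F) * co z.1 j) ∧ (fun j => y (σ j)) ∈ Z := by
    rintro ⟨⟨γ, hγ⟩, h1, h2, h3⟩
    obtain ⟨z, hzU, rfl⟩ := Subgroup.mem_map.1 hγ
    obtain ⟨y, hy, hy0, hyj⟩ := hz g hg z hzU h1 h2 h3
    refine ⟨z, y, rfl, hy, ?_, ?_, ?_⟩
    · exact CTQ_form D.a D.b (c * P) σ hσ0 z.1 ((mem_unitary_iff_nrq z.1).1 z.2) y
        (fun j => by rw [hcP]; exact hy j)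
    · beta_reduce
      rw [hσ0, hcP]
      exact hy0
    · intro i hi
      refine hyj (σ i) fun h => hi ?_
      rw [← hσ0] at h
      exact σ.injective h
  choose zf yf h1 h2 h3 using key
  have hinj : Function.Injective (fun γ : cs D.L D.Γ W v R g Q Y =>
      (⟨fun j => yf γ (σ j), h3 γ⟩ : Z)) := by
    intro γ γ' h
    have h4 : (fun j => yf γ (σ j)) = fun j => yf γ' (σ j) := congrArg Subtype.val h
    have h5 : ∀ j, yf γ j = yf γ' j := by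
      intro j
      have := congrFun h4 (σ.symm j)
      simpa using this
    have h6 : ∀ j, co (zf γ).1 j = co (zf γ').1 j := by
      intro j
      have e1 := h2 γ j
      have e2 := h2 γ' j
      rw [h5 j, e2] at e1
      exact (mul_left_cancel₀ hcP0 e1).symm
    have h7 : (zf γ).1 = (zf γ').1 := by
      ext
      · exact h6 0
      · exact h6 1
      · exact h6 2
      · exact h6 3
    have h8 : zf γ = zf γ' := Subtype.ext h7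
    apply Subtype.ext
    apply Subtype.ext
    rw [← h1 γ, ← h1 γ', h8]
  have hZf : Finite Z := hfin
  have hcf : Finite (cs D.L D.Γ W v R g Q Y) := Finite.of_injective _ hinj
  refine ⟨Set.toFinite _, le_trans ?_ hcard⟩
  exact_mod_cast Nat.card_le_card_of_injective _ hinj

end Pool.PQ
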