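import Pool.Agent.Work.MP_972ac7_Q.Interface2

set_option autoImplicit false

/-! # Block CVG (helper60): the first coordinate near 1 -/

open MeasureTheory NumberField IsDedekindDomain
open scoped Quaternion ENNReal

noncomputable section

namespace Pool.PQ

open Pool.PL Pool.TFD Pool.TC

theorem CVG_pos {F : Type} [Field F] [NumberField F] (v : Plc F) {x : F} (hx : x ≠ 0) :
    0 < nv v x := by
  cases v with
  | inl w => exact (HeightOneSpectrum.adicAbv F w).pos hx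
  | inr w => exact pow_pos (InfinitePlace.pos_iff.2 hx) _

theorem p_CVG : Stmt_CVG := by
  intro F _ _ v c₁ c₂ c₃ C₁ hC₁
  have h2 : 0 < nv v (2 : F) := CVG_pos v two_ne_zero
  set κ : ℝ := nv v (2 : F) / 4 with hκ
  have hκ0 : 0 < κ := by positivity
  set S : ℝ := 16 * (nv v c₁ + nv v c₂ + nv v c₃) with hS
  have n1 := nv_nonneg v c₁
  have n2 := nv_nonneg v c₂
  have n3 := nv_nonneg v c₃
  have hS0 : 0 ≤ S := by positivity
  refine ⟨(S + 1) * C₁ ^ 2 / κ, by positivity, ?_⟩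
  intro y Q hQ hy h0 hi
  have hQ0 : 0 < Q := by linarith
  have e1 : nv v (y 0 - 1) * nv v (y 0 + 1) ≤ S * (C₁ / Q) ^ 2 := by
    rw [← nv_mul]
    have e : (y 0 - 1) * (y 0 + 1) = -(c₁ * y 1 ^ 2 + (c₂ * y 2 ^ 2 + c₃ * y 3 ^ 2)) := by
      linear_combination hy
    rw [e, nv_neg]
    have hb : ∀ i : Fin 4, i ≠ 0 → ∀ c : F, nv v (c * y i ^ 2) ≤ nv v c * (C₁ / Q) ^ 2 := by
      intro i hi0 c
      rw [nv_mul, pow_two (y i), nv_mul, ← pow_two]
      have h1 : nv v (y i) ≤ C₁ / Q := by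
        rw [le_div_iff₀ hQ0]
        exact hi i hi0
      exact mul_le_mul_of_nonneg_left (pow_le_pow_left₀ (nv_nonneg v _) h1 2) (nv_nonneg v c)
    have b1 := hb 1 (by decide) c₁
    have b2 := hb 2 (by decide) c₂
    have b3 := hb 3 (by decide) c₃
    have hq : 0 ≤ (C₁ / Q) ^ 2 := by positivity
    have m1 := nv_add_le v (c₁ * y 1 ^ 2) (c₂ * y 2 ^ 2 + c₃ * y 3 ^ 2)
    have m2 := nv_add_le v (c₂ * y 2 ^ 2) (c₃ * y 3 ^ 2)
    have k1 := mul_nonneg n1 hq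
    have k2 := mul_nonneg n2 hq
    have k3 := mul_nonneg n3 hq
    have m3 : max (nv v (c₂ * y 2 ^ 2)) (nv v (c₃ * y 3 ^ 2)) ≤
        (nv v c₂ + nv v c₃) * (C₁ / Q) ^ 2 := by
      apply max_le <;> nlinarith
    have m4 : max (nv v (c₁ * y 1 ^ 2)) (nv v (c₂ * y 2 ^ 2 + c₃ * y 3 ^ 2)) ≤
        4 * ((nv v c₁ + nv v c₂ + nv v c₃) * (C₁ / Q) ^ 2) := by
      apply max_le <;> nlinarith
    calc nv v (c₁ * y 1 ^ 2 + (c₂ * y 2 ^ 2 + c₃ * y 3 ^ 2))
        ≤ 4 * (4 * ((nv v c₁ + nv v c₂ + nv v c₃) * (C₁ / Q) ^ 2)) := by linarith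
      _ = S * (C₁ / Q) ^ 2 := by rw [hS]; ring
  have hx := nv_nonneg v (y 0 - 1)
  rcases lt_or_ge (nv v (y 0 - 1)) κ with h | h
  · have e2 : κ ≤ nv v (y 0 + 1) := by
      have m1 := nv_add_le v (y 0 + 1) (-(y 0 - 1))
      rw [nv_neg, show y 0 + 1 + -(y 0 - 1) = (2 : F) by ring] at m1
      rcases le_total (nv v (y 0 - 1)) (nv v (y 0 + 1)) with h3 | h3
      · rw [max_eq_left h3] at m1
        rw [hκ]
        linarith
      · rw [max_eq_right h3] at m1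
        rw [hκ] at h
        linarith
    have e3 : nv v (y 0 - 1) * κ ≤ S * (C₁ / Q) ^ 2 :=
      (mul_le_mul_of_nonneg_left e2 hx).trans e1
    rw [le_div_iff₀ hκ0]
    have e4 : nv v (y 0 - 1) * Q ^ 2 * κ ≤ S * (C₁ / Q) ^ 2 * Q ^ 2 := by
      have := mul_le_mul_of_nonneg_right e3 (by positivity : 0 ≤ Q ^ 2)
      linarith
    have e5 : S * (C₁ / Q) ^ 2 * Q ^ 2 = S * C₁ ^ 2 := by
      field_simp
    rw [e5] at e4
    have : 0 ≤ C₁ ^ 2 := by positivity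
    linarith
  · rw [le_div_iff₀ hκ0]
    have e2 : κ * Q ≤ C₁ := (mul_le_mul_of_nonneg_right h hQ0.le).trans h0
    have e3 : nv v (y 0 - 1) * Q ^ 2 * κ = (nv v (y 0 - 1) * Q) * (κ * Q) := by ring
    rw [e3]
    have e4 : (nv v (y 0 - 1) * Q) * (κ * Q) ≤ C₁ * C₁ :=
      mul_le_mul h0 e2 (by positivity) hC₁.le
    have : 0 ≤ S * C₁ ^ 2 := by positivity
    linarith

end Pool.PQ
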