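import Pool.Agent.Work.MP_972ac7_Q.Interface1

set_option autoImplicit false

/-! # Block DEC (helper89): decay of the coefficients of the unipotent group -/

open MeasureTheory
open scoped ENNReal

noncomputable section

namespace Pool.PQ

open Pool.PL Pool.TFD Pool.TC

section mat

variable {k : Type} [NormedField k]

theorem DEC_cupp (t : k) : ((upp t : SL2 k) : Matrix (Fin 2) (Fin 2) k) = !![1, t; 0, 1] := rfl

theorem DEC_cdia (α : k) (hα : α ≠ 0) :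
    ((dia α hα : SL2 k) : Matrix (Fin 2) (Fin 2) k) = !![α, 0; 0, α⁻¹] := rfl

theorem DEC_conj (α t : k) (hα : α ≠ 0) :
    dia α hα * upp t * (dia α hα)⁻¹ = upp (α ^ 2 * t) := by
  apply mul_inv_eq_of_eq_mul
  apply Subtype.ext
  rw [Matrix.SpecialLinearGroup.coe_mul, Matrix.SpecialLinearGroup.coe_mul, DEC_cdia, DEC_cupp,
    DEC_cupp, Matrix.mul_fin_two, Matrix.mul_fin_two]
  have h1 : α * t = α ^ 2 * t * α⁻¹ := by field_simp
  simp [h1]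

theorem DEC_upp (s t : k) : upp s * upp t = upp (s + t) := by
  apply Subtype.ext
  rw [Matrix.SpecialLinearGroup.coe_mul, DEC_cupp, DEC_cupp, DEC_cupp, Matrix.mul_fin_two]
  simp [add_comm]

theorem DEC_nm (t : k) : nm (upp t) ≤ max 1 ‖t‖ := by
  unfold nm
  rw [mnm_le]
  intro i j
  fin_cases i <;> fin_cases j <;> simp [upp]

theorem DEC_dia (α : k) (hα : α ≠ 0) (h : ‖α - 1‖ ≤ 1 / 2) : dnm (dia α hα) ≤ 2 * ‖α - 1‖ := by
  have h1 : (1 : ℝ) / 2 ≤ ‖α‖ := by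
    have h2 := norm_sub_norm_le (1 : k) α
    rw [norm_one, norm_sub_rev] at h2
    linarith
  have h3 : ‖α⁻¹ - 1‖ ≤ 2 * ‖α - 1‖ := by
    have h4 : α⁻¹ - 1 = -(α - 1) / α := by
      field_simp
      ring
    rw [h4, norm_div, norm_neg, div_le_iff₀ (by linarith)]
    nlinarith [norm_nonneg (α - 1)]
  have h5 : 0 ≤ ‖α - 1‖ := norm_nonneg _
  unfold dnm
  rw [mnm_le]
  intro i j
  fin_cases i <;> fin_cases j
  · simp only [dia, Fin.zero_eta, Fin.isValue, Matrix.sub_apply, Matrix.of_apply,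
      Matrix.cons_val', Matrix.cons_val_zero, Matrix.cons_val_fin_one, Matrix.one_apply_eq]
    linarith
  · simp [dia, h5]
  · simp [dia, h5]
  · simpa [dia] using h3

theorem DEC_dnm_conj (u g : SL2 k) : dnm (u⁻¹ * g * u) ≤ 4 * (nm u * nm u) * dnm g := by
  unfold dnm
  have h1 : ((u⁻¹ * g * u : SL2 k) : Matrix (Fin 2) (Fin 2) k) - 1 =
      ((u⁻¹ : SL2 k) : Matrix (Fin 2) (Fin 2) k) * ((g : Matrix (Fin 2) (Fin 2) k) - 1) *
        (u : Matrix (Fin 2) (Fin 2) k) := by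
    have h2 : ((u⁻¹ : SL2 k) : Matrix (Fin 2) (Fin 2) k) * (u : Matrix (Fin 2) (Fin 2) k) = 1 := by
      rw [← Matrix.SpecialLinearGroup.coe_mul, inv_mul_cancel, Matrix.SpecialLinearGroup.coe_one]
    rw [mul_sub, mul_one, sub_mul, h2, Matrix.SpecialLinearGroup.coe_mul,
      Matrix.SpecialLinearGroup.coe_mul]
  rw [h1]
  have h3 := mnm_mul_le2 (((u⁻¹ : SL2 k) : Matrix (Fin 2) (Fin 2) k) *
    ((g : Matrix (Fin 2) (Fin 2) k) - 1)) (u : Matrix (Fin 2) (Fin 2) k)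
  have h4 := mnm_mul_le2 ((u⁻¹ : SL2 k) : Matrix (Fin 2) (Fin 2) k)
    ((g : Matrix (Fin 2) (Fin 2) k) - 1)
  have h5 : mnm ((u⁻¹ : SL2 k) : Matrix (Fin 2) (Fin 2) k) = nm u := nm_inv u
  rw [h5] at h4
  have h6 : mnm (u : Matrix (Fin 2) (Fin 2) k) = nm u := rfl
  rw [h6] at h3
  have h7 : 0 ≤ nm u := nm_nonneg u
  calc _ ≤ 2 * (mnm (((u⁻¹ : SL2 k) : Matrix (Fin 2) (Fin 2) k) *
        ((g : Matrix (Fin 2) (Fin 2) k) - 1)) * nm u) := h3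
    _ ≤ 2 * ((2 * (nm u * mnm ((g : Matrix (Fin 2) (Fin 2) k) - 1))) * nm u) := by gcongr
    _ = _ := by ring

end mat

theorem DEC_add {k : Type} [NormedField k] {H : Type} [NormedAddCommGroup H]
    [InnerProductSpace ℂ H] (π : SL2 k →* (H ≃ₗᵢ[ℂ] H)) (a b : SL2 k) (x : H) :
    π (a * b) x = π a (π b x) := by
  rw [map_mul]
  rfl

theorem DEC_inner {k : Type} [NormedField k] {H : Type} [NormedAddCommGroup H]
    [InnerProductSpace ℂ H] (π : SL2 k →* (H ≃ₗᵢ[ℂ] H)) (a : SL2 k) (x y : H) :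
    (inner ℂ x (π a y) : ℂ) = inner ℂ (π a⁻¹ x) y := by
  have h1 : π a (π a⁻¹ x) = x := by
    rw [← DEC_add, mul_inv_cancel, map_one]
    rfl
  have h2 := LinearIsometryEquiv.inner_map_map (π a) (π a⁻¹ x) y
  rw [h1] at h2
  exact h2

/-- the main estimate -/
theorem DEC_main {k : Type} [NormedField k] {H : Type} [NormedAddCommGroup H]
    [InnerProductSpace ℂ H] (π : SL2 k →* (H ≃ₗᵢ[ℂ] H)) (h : H) (t₀ t : k) (a : SL2 k) (c : ℝ)
    (ha : a * upp t * a⁻¹ = upp (t + t₀)) (h1 : ‖π a⁻¹ h - h‖ ≤ c)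
    (h2 : ‖π ((upp t₀)⁻¹ * a⁻¹ * upp t₀) h - h‖ ≤ c) :
    ‖(inner ℂ (π (upp t₀) h - h) (π (upp t) (π (upp t₀) h - h)) : ℂ)‖ ≤
      (‖π (upp t₀) h - h‖ + 2 * ‖h‖) * c := by
  set F : H := π (upp t₀) h - h with hF
  have e1 : (inner ℂ F (π (upp t) F) : ℂ) =
      inner ℂ (π a⁻¹ F) (π (upp t) (π a⁻¹ h)) - inner ℂ F (π (upp t) h) := by
    have e2 : π (upp t) F = π (upp (t + t₀)) h - π (upp t) h := by
      rw [hF, map_sub, ← DEC_add, DEC_upp]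
    rw [e2, inner_sub_right, ← ha, DEC_add, DEC_add, DEC_inner π a]
  have e3 : ‖π a⁻¹ F - F‖ ≤ 2 * c := by
    have e4 : π a⁻¹ F - F = (π a⁻¹ (π (upp t₀) h) - π (upp t₀) h) - (π a⁻¹ h - h) := by
      rw [hF, map_sub]
      abel
    have e5 : ‖π a⁻¹ (π (upp t₀) h) - π (upp t₀) h‖ = ‖π ((upp t₀)⁻¹ * a⁻¹ * upp t₀) h - h‖ := by
      rw [← LinearIsometryEquiv.norm_map (π (upp t₀))
        (π ((upp t₀)⁻¹ * a⁻¹ * upp t₀) h - h), map_sub, ← DEC_add, ← DEC_add]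
      congr 3
      group
    rw [e4]
    refine (norm_sub_le _ _).trans ?_
    rw [e5]
    linarith
  have e6 : (inner ℂ (π a⁻¹ F) (π (upp t) (π a⁻¹ h)) : ℂ) - inner ℂ F (π (upp t) h) =
      inner ℂ (π a⁻¹ F) (π (upp t) (π a⁻¹ h - h)) + inner ℂ (π a⁻¹ F - F) (π (upp t) h) := by
    rw [map_sub (π (upp t)) (π a⁻¹ h) h, inner_sub_right (π a⁻¹ F),
      inner_sub_left (π a⁻¹ F) F (π (upp t) h)]
    ring
  rw [e1, e6]
  refine (norm_add_le _ _).trans ?_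
  have e7 := norm_inner_le_norm (𝕜 := ℂ) (π a⁻¹ F) (π (upp t) (π a⁻¹ h - h))
  have e8 := norm_inner_le_norm (𝕜 := ℂ) (π a⁻¹ F - F) (π (upp t) h)
  rw [LinearIsometryEquiv.norm_map, LinearIsometryEquiv.norm_map] at e7
  rw [LinearIsometryEquiv.norm_map] at e8
  have e9 : ‖F‖ * ‖π a⁻¹ h - h‖ ≤ ‖F‖ * c := mul_le_mul_of_nonneg_left h1 (norm_nonneg _)
  have e10 : ‖π a⁻¹ F - F‖ * ‖h‖ ≤ 2 * c * ‖h‖ := mul_le_mul_of_nonneg_right e3 (norm_nonneg _)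
  calc _ ≤ ‖F‖ * c + 2 * c * ‖h‖ := add_le_add (e7.trans e9) (e8.trans e10)
    _ = _ := by ring

theorem p_DEC (hSQR : Stmt_SQR) : Stmt_DEC := by
  intro k _ _ L H _ _ π h t₀ hL
  obtain ⟨C₀, hC₀⟩ := hL
  obtain ⟨r, C, hr, hC, hsq⟩ := hSQR k L
  set F : H := π (upp t₀) h - h with hF
  set N : ℝ := max 1 ‖t₀‖ with hN
  have hN1 : 1 ≤ N := le_max_left _ _
  set D : ℝ := max C₀ 0 with hD
  have hD0 : 0 ≤ D := le_max_right _ _
  have hD1 : ∀ u, dnm u ≤ 1 → ‖π u h - h‖ ≤ D * dnm u := fun u hu =>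
    (hC₀ u hu).trans (mul_le_mul_of_nonneg_right (le_max_left _ _) (dnm_nonneg u))
  set r' : ℝ := min r (1 / (8 * (N * N) * C)) with hr'
  have hr'0 : 0 < r' := lt_min hr (by positivity)
  set K : ℝ := (‖F‖ + 2 * ‖h‖) * (D * (8 * (N * N))) with hK
  have hK0 : 0 ≤ K := by positivity
  refine ⟨max (K * (C * ‖t₀‖)) (‖F‖ * ‖F‖ * (‖t₀‖ / r')), fun t => ?_⟩
  by_cases hcase : t ≠ 0 ∧ ‖t₀ / t‖ < r'
  · obtain ⟨ht, htr⟩ := hcase
    obtain ⟨α, hα1, hα2⟩ := hsq (t₀ / t) (htr.trans_le (min_le_left _ _))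
    have h8 : ‖α - 1‖ * (8 * (N * N)) ≤ 1 := by
      have h9 : ‖t₀ / t‖ < 1 / (8 * (N * N) * C) := htr.trans_le (min_le_right _ _)
      rw [lt_div_iff₀ (by positivity)] at h9
      calc ‖α - 1‖ * (8 * (N * N)) ≤ (C * ‖t₀ / t‖) * (8 * (N * N)) := by gcongr
        _ = ‖t₀ / t‖ * (8 * (N * N) * C) := by ring
        _ ≤ 1 := h9.le
    have hNN : 1 ≤ N * N := by nlinarith
    have hn0 : 0 ≤ ‖α - 1‖ := norm_nonneg _
    have h10 : ‖α - 1‖ ≤ 1 / 8 := by nlinarith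
    have hα0 : α ≠ 0 := by
      rintro rfl
      rw [zero_sub, norm_neg, norm_one] at h10
      norm_num at h10
    have h11 : dnm (dia α hα0)⁻¹ ≤ 2 * ‖α - 1‖ := by
      rw [dnm_inv]
      exact DEC_dia α hα0 (by linarith)
    have h12 : dnm ((upp t₀)⁻¹ * (dia α hα0)⁻¹ * upp t₀) ≤ ‖α - 1‖ * (8 * (N * N)) := by
      have h13 := DEC_dnm_conj (upp t₀) (dia α hα0)⁻¹
      have h14 : nm (upp t₀) ≤ N := DEC_nm t₀
      have h15 : 0 ≤ nm (upp t₀) := nm_nonneg _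
      have h16 : 0 ≤ dnm (dia α hα0)⁻¹ := dnm_nonneg _
      calc _ ≤ 4 * (nm (upp t₀) * nm (upp t₀)) * dnm (dia α hα0)⁻¹ := h13
        _ ≤ 4 * (N * N) * (2 * ‖α - 1‖) := by gcongr
        _ = _ := by ring
    have hmul : dia α hα0 * upp t * (dia α hα0)⁻¹ = upp (t + t₀) := by
      rw [DEC_conj, hα1]
      congr 1
      field_simp
    have h17 : ‖π (dia α hα0)⁻¹ h - h‖ ≤ D * (‖α - 1‖ * (8 * (N * N))) := by
      refine (hD1 _ (h11.trans (by linarith))).trans (mul_le_mul_of_nonneg_left ?_ hD0)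
      refine h11.trans ?_
      nlinarith
    have h18 : ‖π ((upp t₀)⁻¹ * (dia α hα0)⁻¹ * upp t₀) h - h‖ ≤
        D * (‖α - 1‖ * (8 * (N * N))) :=
      (hD1 _ (h12.trans h8)).trans (mul_le_mul_of_nonneg_left h12 hD0)
    have h19 := DEC_main π h t₀ t (dia α hα0) _ hmul h17 h18
    refine le_trans ?_ (le_max_left _ _)
    have ht0 : 0 < ‖t‖ := norm_pos_iff.2 ht
    have h20 : ‖α - 1‖ * ‖t‖ ≤ C * ‖t₀‖ := by
      calc ‖α - 1‖ * ‖t‖ ≤ (C * ‖t₀ / t‖) * ‖t‖ := by gcongr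
        _ = C * ‖t₀‖ := by
          rw [norm_div]
          field_simp
    calc _ ≤ ((‖F‖ + 2 * ‖h‖) * (D * (‖α - 1‖ * (8 * (N * N))))) * ‖t‖ :=
          mul_le_mul_of_nonneg_right h19 ht0.le
      _ = K * (‖α - 1‖ * ‖t‖) := by rw [hK]; ring
      _ ≤ K * (C * ‖t₀‖) := mul_le_mul_of_nonneg_left h20 hK0
  · refine le_trans ?_ (le_max_right _ _)
    have h1 := norm_inner_le_norm (𝕜 := ℂ) F (π (upp t) F)
    rw [LinearIsometryEquiv.norm_map] at h1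
    have h2 : ‖t‖ ≤ ‖t₀‖ / r' := by
      by_cases ht : t = 0
      · rw [ht, norm_zero]
        positivity
      · have h3 : r' ≤ ‖t₀ / t‖ := by
          by_contra h4
          exact hcase ⟨ht, not_le.1 h4⟩
        have ht0 : 0 < ‖t‖ := norm_pos_iff.2 ht
        rw [norm_div, le_div_iff₀ ht0] at h3
        rw [le_div_iff₀ hr'0]
        linarith
    exact mul_le_mul h1 h2 (norm_nonneg _) (by positivity)

end Pool.PQ
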