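import Pool.Agent.Work.MP_972ac7_Q.Interface1

set_option autoImplicit false

/-! # Block DNQ: density of the projections (helper78) -/

open MeasureTheory
open scoped ENNReal

noncomputable section

namespace Pool.PQ

open Pool.PL Pool.TFD Pool.TC

/-- The preimage in `G` of a null set is a null set. -/
theorem DNQ_null {G : Type} [Group G] [TopologicalSpace G] [MeasurableSpace G] {Γ : Subgroup G}
    {μ : Measure G} {m : Measure (G ⧸ Γ)} {c : ℝ≥0∞} (h : QD Γ μ m c) (N : Set (G ⧸ Γ))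
    (hN : MeasurableSet N) (h0 : m N = 0) : μ ((fun g : G => (g : G ⧸ Γ)) ⁻¹' N) = 0 := by
  have hm : MeasurableSet ((fun g : G => (g : G ⧸ Γ)) ⁻¹' N) := measurableSet_quotient.1 hN
  have h1 := h.weil (((fun g : G => (g : G ⧸ Γ)) ⁻¹' N).indicator 1)
    (measurable_const.indicator hm)
  rw [lintegral_indicator_one hm] at h1
  have h2 : ∀ᵐ x ∂m, sG Γ (((fun g : G => (g : G ⧸ Γ)) ⁻¹' N).indicator 1) x = 0 := by
    filter_upwards [measure_eq_zero_iff_ae_notMem.1 h0] with x hx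
    obtain ⟨g, rfl⟩ := QuotientGroup.mk_surjective x
    rw [sG_mk, ENNReal.tsum_eq_zero]
    intro γ
    refine Set.indicator_of_notMem ?_ _
    intro h3
    apply hx
    have h4 : ((g * γ : G) : G ⧸ Γ) = (g : G ⧸ Γ) := QuotientGroup.mk_mul_of_mem g γ.2
    rw [← h4]
    exact h3
  rw [lintegral_congr_ae h2, lintegral_zero, mul_zero] at h1
  exact h1

theorem DNQ_grp {G : Type} [Group G] (x h b : G) :
    (x * h⁻¹)⁻¹ / (x * b⁻¹)⁻¹ * b = h := by
  simp [div_eq_mul_inv, mul_assoc]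

theorem p_DNQ (hTG2 : Stmt_TG2) (hERQ : Stmt_ERQ) (hCST : Stmt_CST) : Stmt_DNQ := by
  intro ι _ _ k _ _ L Γ hL μ m c hQ π hπ P
  obtain ⟨i1, i2, i3, i4, -⟩ := hTG2 ι k
  haveI := hQ.haar
  haveI := hQ.prob
  let pr : GG k →* BB k P :=
    { toFun := fun g i => g i.1, map_one' := rfl, map_mul' := fun _ _ => rfl }
  have hpr : Continuous pr := continuous_pi fun i => continuous_apply i.1
  let H0 : Subgroup (BB k P) := Γ.map pr
  have hrange : (Set.range fun (γ : Γ) (i : {i : ι // i ≠ P}) => (γ : GG k) i.1) =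
      (H0 : Set (BB k P)) := by
    ext b
    constructor
    · rintro ⟨γ, rfl⟩
      exact ⟨γ, γ.2, rfl⟩
    · rintro ⟨γ, hγ, rfl⟩
      exact ⟨⟨γ, hγ⟩, rfl⟩
  rw [hrange]
  intro b₀
  by_contra hb
  have hW : {w : BB k P | w * b₀ ∈ (closure (H0 : Set (BB k P)))ᶜ} ∈ nhds (1 : BB k P) := by
    have hc : Continuous fun w : BB k P => w * b₀ := continuous_id.mul continuous_const
    refine (isClosed_closure.isOpen_compl.preimage hc).mem_nhds ?_
    show (1 : BB k P) * b₀ ∈ (closure (H0 : Set (BB k P)))ᶜ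
    rw [one_mul]
    exact hb
  obtain ⟨V', hV', hVW⟩ := exists_nhds_split_inv hW
  obtain ⟨V, hVV', hVo, h1V⟩ := mem_nhds_iff.1 hV'
  -- the open sets
  let A' : Set (GG k) := {g | ∃ h ∈ H0, (pr g * h⁻¹)⁻¹ ∈ V}
  let B' : Set (GG k) := {g | (pr g * b₀⁻¹)⁻¹ ∈ V}
  have hA'o : IsOpen A' := by
    have : A' = ⋃ h ∈ H0, {g : GG k | (pr g * h⁻¹)⁻¹ ∈ V} := by
      ext g; simp [A']
    rw [this]
    refine isOpen_biUnion fun h _ => ?_
    exact hVo.preimage ((hpr.mul continuous_const).inv)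
  have hB'o : IsOpen B' := hVo.preimage ((hpr.mul continuous_const).inv)
  have h1A : (1 : GG k) ∈ A' := ⟨1, H0.one_mem, by simpa using h1V⟩
  have hB'ne : B'.Nonempty := by
    refine ⟨fun i => if h : i ≠ P then b₀ ⟨i, h⟩ else 1, ?_⟩
    have : pr (fun i => if h : i ≠ P then b₀ ⟨i, h⟩ else 1) = b₀ := by
      funext i
      show (if h : i.1 ≠ P then b₀ ⟨i.1, h⟩ else 1) = b₀ i
      rw [dif_pos i.2]
    show (pr _ * b₀⁻¹)⁻¹ ∈ V
    rw [this]
    simpa using h1V
  have hdisj : ∀ g, g ∈ B' → g ∉ A' := by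
    rintro g hg ⟨h, hh, hg'⟩
    have h1 := hVW _ (hVV' hg') _ (hVV' hg)
    have h2 : (pr g * h⁻¹)⁻¹ / (pr g * b₀⁻¹)⁻¹ * b₀ = h := DNQ_grp (pr g) h b₀
    have h3 : (pr g * h⁻¹)⁻¹ / (pr g * b₀⁻¹)⁻¹ * b₀ ∈ (closure (H0 : Set (BB k P)))ᶜ := h1
    rw [h2] at h3
    exact h3 (subset_closure hh)
  have hmul : ∀ (g : GG k) (γ : GG k), γ ∈ Γ → g ∈ A' → g * γ ∈ A' := by
    rintro g γ hγ ⟨h, hh, hg⟩
    refine ⟨h * pr γ, H0.mul_mem hh ⟨γ, hγ, rfl⟩, ?_⟩
    have : pr (g * γ) * (h * pr γ)⁻¹ = pr g * h⁻¹ := by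
      rw [map_mul]; group
    rw [this]
    exact hg
  let A : Set (GG k ⧸ Γ) := (fun g : GG k => (g : GG k ⧸ Γ)) '' A'
  have hpre : (fun g : GG k => (g : GG k ⧸ Γ)) ⁻¹' A = A' := by
    ext g
    constructor
    · rintro ⟨g', hg', he⟩
      have h1 : g'⁻¹ * g ∈ Γ := QuotientGroup.eq.1 he
      have h2 := hmul g' _ h1 hg'
      rwa [mul_inv_cancel_left] at h2
    · intro hg
      exact ⟨g, hg, rfl⟩
  have hAm : MeasurableSet A := by
    refine measurableSet_quotient.2 ?_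
    have h1 : MeasurableSet ((fun g : GG k => (g : GG k ⧸ Γ)) ⁻¹' A) := by
      rw [hpre]; exact hA'o.measurableSet
    exact h1
  -- invariance under the factor P
  have hinvA : ∀ (a : SL2 (k P)) (x : GG k ⧸ Γ),
      (Pi.mulSingle P a : GG k) • x ∈ A ↔ x ∈ A := by
    have hone : ∀ (a : SL2 (k P)), pr (Pi.mulSingle P a : GG k) = 1 := by
      intro a
      funext i
      show (Pi.mulSingle P a : GG k) i.1 = 1
      exact Pi.mulSingle_eq_of_ne (M := fun i => SL2 (k i)) i.2 a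
    have key : ∀ (a : SL2 (k P)) (x : GG k ⧸ Γ), x ∈ A → (Pi.mulSingle P a : GG k) • x ∈ A := by
      rintro a x ⟨g, ⟨h, hh, hg⟩, rfl⟩
      refine ⟨Pi.mulSingle P a * g, ⟨h, hh, ?_⟩, rfl⟩
      rw [map_mul, hone, one_mul]
      exact hg
    intro a x
    constructor
    · intro h
      have h2 := key a⁻¹ _ h
      rwa [Pi.mulSingle_inv, inv_smul_smul] at h2
    · exact key a x
  let f : Lp ℂ 2 m := indicatorConstLp 2 hAm (measure_ne_top m A) (1 : ℂ)
  have hf : ⇑f =ᵐ[m] A.indicator fun _ => (1 : ℂ) := indicatorConstLp_coeFn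
  have hfix : ∀ a : SL2 (k P), π (Pi.mulSingle P a) f = f := by
    intro a
    apply Lp.ext
    have h1 := hπ.ae (Pi.mulSingle P a) f
    have h2 : (fun x => f ((Pi.mulSingle P a : GG k)⁻¹ • x)) =ᵐ[m]
        fun x => A.indicator (fun _ => (1 : ℂ)) ((Pi.mulSingle P a : GG k)⁻¹ • x) :=
      (hQ.pres _).quasiMeasurePreserving.ae_eq_comp hf
    refine h1.trans (h2.trans (Filter.EventuallyEq.trans ?_ hf.symm))
    refine Filter.Eventually.of_forall fun x => ?_
    have h3 : (Pi.mulSingle P a : GG k)⁻¹ • x ∈ A ↔ x ∈ A := by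
      rw [← Pi.mulSingle_inv]
      exact hinvA a⁻¹ x
    by_cases hx : x ∈ A
    · simp only [Set.indicator_of_mem (h3.2 hx), Set.indicator_of_mem hx]
    · simp only [Set.indicator_of_notMem (fun h => hx (h3.1 h)), Set.indicator_of_notMem hx]
  have hall := hERQ ι k L Γ hL μ m c hQ π hπ P f hfix
  obtain ⟨z, hz⟩ := hCST (GG k) Γ μ m c hQ π hπ f hall
  have hz' : (A.indicator fun _ => (1 : ℂ)) =ᵐ[m] fun _ => z := hf.symm.trans hz
  by_cases hz1 : z = 1
  · -- the complement is a null set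
    have h0 : m Aᶜ = 0 := by
      rw [measure_eq_zero_iff_ae_notMem]
      filter_upwards [hz'] with x hx hxA
      rw [Set.indicator_of_notMem hxA, hz1] at hx
      exact zero_ne_one hx
    have h1 := DNQ_null hQ Aᶜ hAm.compl h0
    have h2 : B' ⊆ (fun g : GG k => (g : GG k ⧸ Γ)) ⁻¹' Aᶜ := by
      intro g hg
      rw [Set.preimage_compl, hpre]
      exact hdisj g hg
    have h3 := hB'o.measure_pos μ hB'ne
    exact absurd (measure_mono_null h2 h1) (ne_of_gt h3)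
  · have h0 : m A = 0 := by
      rw [measure_eq_zero_iff_ae_notMem]
      filter_upwards [hz'] with x hx hxA
      rw [Set.indicator_of_mem hxA] at hx
      exact hz1 hx.symm
    have h1 := DNQ_null hQ A hAm h0
    rw [hpre] at h1
    exact absurd h1 (ne_of_gt (hA'o.measure_pos μ ⟨1, h1A⟩))

end Pool.PQ
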