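import Pool.Agent.Work.MP_972ac7_Q.Interface1

set_option autoImplicit false

/-! # THEOREM PP, block DOX: domination of the weak integral (helper79) -/

open MeasureTheory
open scoped ENNReal

noncomputable section

namespace Pool.PQ

open Pool.PL Pool.TFD Pool.TC

section

variable {G : Type} [Group G] [TopologicalSpace G] [IsTopologicalGroup G] [LocallyCompactSpace G]
  [SecondCountableTopology G] [T2Space G] [MeasurableSpace G] [BorelSpace G]
  {Γ : Subgroup G} {μ : Measure G} {m : Measure (G ⧸ Γ)} {c : ℝ≥0∞}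

omit [TopologicalSpace G] [IsTopologicalGroup G] [LocallyCompactSpace G]
  [SecondCountableTopology G] [T2Space G] [MeasurableSpace G] [BorelSpace G] in
theorem DOX_sG_mul (w : G → ℝ≥0∞) (Φ : G ⧸ Γ → ℝ≥0∞) (x : G ⧸ Γ) :
    sG Γ (fun h => w h * Φ (QuotientGroup.mk h)) x = sG Γ w x * Φ x := by
  induction x using QuotientGroup.induction_on with
  | H g =>
    rw [sG_mk, sG_mk, ← ENNReal.tsum_mul_right]
    refine tsum_congr fun γ => ?_
    rw [QuotientGroup.mk_mul_of_mem g γ.2]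

theorem DOX_weight (hQ : QD Γ μ m c) :
    ∃ w : G → ℝ≥0∞, Measurable w ∧ ∀ᵐ x ∂m, sG Γ w x = 1 := by
  have hcnt := hQ.cnt
  have hhaar := hQ.haar
  obtain ⟨φ, hφ0, hφm, hφi⟩ := exists_pos_lintegral_lt_of_sigmaFinite μ
    (ε := 1) one_ne_zero
  obtain ⟨ψ, hψ⟩ : ∃ ψ : G → ℝ≥0∞, ψ = fun g => (φ g : ℝ≥0∞) := ⟨_, rfl⟩
  have hψm : Measurable ψ := by
    rw [hψ]
    exact hφm.coe_nnreal_ennreal
  obtain ⟨s, hs⟩ : ∃ s : G → ℝ≥0∞, s = fun g => ∑' γ : Γ, ψ (g * γ) := ⟨_, rfl⟩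
  have hsm : Measurable s := by
    rw [hs]
    exact Measurable.ennreal_tsum fun γ => hψm.comp (measurable_mul_const (γ : G))
  have hsG : ∀ g : G, sG Γ ψ (QuotientGroup.mk g) = s g := fun g => by
    rw [sG_mk, hs]
  have hSm : Measurable (sG Γ ψ) := by
    rw [QuotientGroup.measurable_from_quotient]
    have : (sG Γ ψ ∘ ((↑) : G → G ⧸ Γ)) = s := funext hsG
    rw [this]
    exact hsm
  have hfin : ∫⁻ x, sG Γ ψ x ∂m ≠ ∞ := by
    intro h
    have h1 := hQ.weil ψ hψm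
    rw [h, ENNReal.mul_top hQ.pos] at h1
    have h2 : ∫⁻ g, ψ g ∂μ < 1 := by
      rw [hψ]
      exact hφi
    rw [h1] at h2
    exact absurd h2 (by simp)
  have hae := ae_lt_top hSm hfin
  refine ⟨fun g => ψ g * (s g)⁻¹, hψm.mul hsm.inv, ?_⟩
  filter_upwards [hae] with x hx
  induction x using QuotientGroup.induction_on with
  | H g =>
    rw [hsG] at hx
    rw [sG_mk]
    have h1 : ∀ γ : Γ, s (g * γ) = s g := fun γ => by
      rw [← hsG, ← hsG, QuotientGroup.mk_mul_of_mem g γ.2]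
    have h2 : ∑' γ : Γ, ψ (g * γ) * (s (g * γ))⁻¹ = ∑' γ : Γ, ψ (g * γ) * (s g)⁻¹ :=
      tsum_congr fun γ => by rw [h1]
    rw [h2, ENNReal.tsum_mul_right]
    have h3 : ∑' γ : Γ, ψ (g * γ) = s g := by rw [hs]
    rw [h3]
    refine ENNReal.mul_inv_cancel ?_ hx.ne
    intro h0
    rw [← h3, ENNReal.tsum_eq_zero] at h0
    have h4 := h0 1
    rw [Subgroup.coe_one, mul_one, hψ] at h4
    have h6 : (φ g : ℝ≥0∞) = 0 := h4
    have h5 : φ g = 0 := by exact_mod_cast h6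
    exact (hφ0 g).ne' h5

theorem DOX_int (hQ : QD Γ μ m c) (w : G → ℝ≥0∞) (hw : Measurable w)
    (hw1 : ∀ᵐ x ∂m, sG Γ w x = 1) (Φ : G ⧸ Γ → ℝ≥0∞) (hΦ : Measurable Φ) :
    ∫⁻ h, w h * Φ (QuotientGroup.mk h) ∂μ = c * ∫⁻ x, Φ x ∂m := by
  have hm1 : Measurable fun h => w h * Φ (QuotientGroup.mk h) :=
    hw.mul (hΦ.comp QuotientGroup.measurable_coe)
  rw [hQ.weil _ hm1]
  congr 1
  refine lintegral_congr_ae ?_
  filter_upwards [hw1] with x hx
  rw [DOX_sG_mul, hx, one_mul]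

theorem DOX_swap (hQ : QD Γ μ m c) (ν : Measure G) [SFinite ν] (Φ : G → G ⧸ Γ → ℝ≥0∞)
    (hΦ : Measurable fun p : G × G => Φ p.1 (QuotientGroup.mk p.2)) :
    ∫⁻ g, ∫⁻ x, Φ g x ∂m ∂ν = ∫⁻ x, ∫⁻ g, Φ g x ∂ν ∂m := by
  have hhaar := hQ.haar
  obtain ⟨w, hw, hw1⟩ := DOX_weight hQ
  have h1 : ∀ g, Measurable (Φ g) := fun g => by
    rw [QuotientGroup.measurable_from_quotient]
    exact hΦ.comp measurable_prodMk_left
  have h2 : Measurable fun x => ∫⁻ g, Φ g x ∂ν := by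
    rw [QuotientGroup.measurable_from_quotient]
    exact hΦ.lintegral_prod_left'
  have h3 : c * ∫⁻ g, ∫⁻ x, Φ g x ∂m ∂ν = c * ∫⁻ x, ∫⁻ g, Φ g x ∂ν ∂m := by
    rw [← lintegral_const_mul' c _ hQ.ne, ← DOX_int hQ w hw hw1 _ h2]
    have h4 : ∀ g, c * ∫⁻ x, Φ g x ∂m = ∫⁻ h, w h * Φ g (QuotientGroup.mk h) ∂μ := fun g =>
      (DOX_int hQ w hw hw1 _ (h1 g)).symm
    rw [lintegral_congr h4, lintegral_lintegral_swap]
    · refine lintegral_congr fun h => ?_
      rw [lintegral_const_mul]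
      exact hΦ.comp measurable_prodMk_right
    · exact ((hw.comp measurable_snd).mul hΦ).aemeasurable
  exact (ENNReal.mul_right_inj hQ.pos hQ.ne).1 h3

end

theorem p_DOX : Stmt_DOX := by
  intro G _ _ _ _ _ _ _ _ Γ μ m c hQ π hπ ν hν R hR f
  have hprob := hQ.prob
  obtain ⟨F, hF⟩ : ∃ F : G ⧸ Γ → ℂ, F = ⇑f := ⟨_, rfl⟩
  have hFm : StronglyMeasurable F := by rw [hF]; exact Lp.stronglyMeasurable f
  obtain ⟨H, hH⟩ : ∃ H : G ⧸ Γ → ℂ, H = ⇑(R f) := ⟨_, rfl⟩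
  have hHm : StronglyMeasurable H := by rw [hH]; exact Lp.stronglyMeasurable (R f)
  rw [← hF, ← hH]
  have hmk : Measurable ((↑) : G → G ⧸ Γ) := QuotientGroup.measurable_coe
  have hjoint : Measurable fun p : G × G => ‖F (p.1⁻¹ • (QuotientGroup.mk p.2 : G ⧸ Γ))‖ₑ := by
    have h1 : Measurable fun p : G × G => p.1⁻¹ * p.2 := measurable_fst.inv.mul measurable_snd
    exact (hFm.measurable.comp (hmk.comp h1)).enorm
  obtain ⟨D, hD⟩ : ∃ D : G ⧸ Γ → ℝ≥0∞, D = fun x => ∫⁻ g, ‖F (g⁻¹ • x)‖ₑ ∂ν := ⟨_, rfl⟩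
  have hDm : Measurable D := by
    rw [hD, QuotientGroup.measurable_from_quotient]
    exact hjoint.lintegral_prod_left'
  have hHe : Measurable fun x => ‖H x‖ₑ := hHm.measurable.enorm
  obtain ⟨A, hA⟩ : ∃ A : Set (G ⧸ Γ), A = {x | D x < ‖H x‖ₑ} := ⟨_, rfl⟩
  have hAm : MeasurableSet A := by rw [hA]; exact measurableSet_lt hDm hHe
  have hgoal : m A = 0 → ∀ᵐ x ∂m, ‖H x‖ₑ ≤ ∫⁻ g, ‖F (g⁻¹ • x)‖ₑ ∂ν := by
    intro h
    rw [ae_iff]
    have : {x | ¬ ‖H x‖ₑ ≤ ∫⁻ g, ‖F (g⁻¹ • x)‖ₑ ∂ν} = A := by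
      rw [hA, hD]
      ext x
      exact not_le
    rw [this]
    exact h
  apply hgoal
  by_contra hA0
  -- the test function
  obtain ⟨u, hu⟩ : ∃ u : G ⧸ Γ → ℂ, u = A.indicator fun x => H x / (‖H x‖ : ℂ) := ⟨_, rfl⟩
  have hum : Measurable u := by
    rw [hu]
    refine Measurable.indicator ?_ hAm
    exact hHm.measurable.div (Complex.measurable_ofReal.comp hHm.measurable.norm)
  have hub : ∀ x, ‖u x‖ₑ ≤ A.indicator 1 x := by
    intro x
    rw [hu]
    by_cases hx : x ∈ A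
    · rw [Set.indicator_of_mem hx, Set.indicator_of_mem hx, Pi.one_apply, ← ofReal_norm_eq_enorm,
        norm_div, Complex.norm_real, norm_norm]
      exact ENNReal.ofReal_le_one.2 (div_self_le_one _)
    · rw [Set.indicator_of_notMem hx, Set.indicator_of_notMem hx, enorm_zero]
  have hub1 : ∀ x, ‖u x‖ ≤ 1 := by
    intro x
    have h1 : ‖u x‖ₑ ≤ 1 := (hub x).trans (Set.indicator_le_self' (by simp) x)
    rw [← ofReal_norm_eq_enorm, ENNReal.ofReal_le_one] at h1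
    exact h1
  have huL : MemLp u 2 m := MemLp.of_bound hum.aestronglyMeasurable 1
    (Filter.Eventually.of_forall hub1)
  obtain ⟨f', hf'⟩ : ∃ f' : Lp ℂ 2 m, f' = huL.toLp u := ⟨_, rfl⟩
  have hf'ae : ⇑f' =ᵐ[m] u := by rw [hf']; exact huL.coeFn_toLp
  -- left side
  have hHint : Integrable H m := by
    rw [hH]
    exact (Lp.memLp (R f)).integrable (by norm_num)
  have hleft : (inner ℂ f' (R f) : ℂ) = ∫ x, (A.indicator (fun x => (‖H x‖ : ℝ)) x : ℝ) ∂m := by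
    rw [L2.inner_def, ← integral_complex_ofReal]
    refine integral_congr_ae ?_
    filter_upwards [hf'ae] with x hx
    rw [hx, ← hH, hu]
    by_cases hxA : x ∈ A
    · rw [Set.indicator_of_mem hxA, Set.indicator_of_mem hxA, RCLike.inner_apply, map_div₀,
        Complex.conj_ofReal]
      have h1 : H x * (starRingEnd ℂ) (H x) = ((‖H x‖ ^ 2 : ℝ) : ℂ) := by
        rw [Complex.mul_conj, Complex.normSq_eq_norm_sq]
      by_cases h0 : (‖H x‖ : ℂ) = 0
      · rw [h0, div_zero, mul_zero]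
      · rw [← mul_div_assoc, h1]
        push_cast
        field_simp
    · rw [Set.indicator_of_notMem hxA, Set.indicator_of_notMem hxA, inner_zero_left]
      simp
  have hleft2 : ‖(inner ℂ f' (R f) : ℂ)‖ₑ = ∫⁻ x in A, ‖H x‖ₑ ∂m := by
    rw [hleft, integral_indicator hAm]
    have h0 : 0 ≤ ∫ x in A, ‖H x‖ ∂m := integral_nonneg fun x => norm_nonneg _
    rw [← ofReal_norm_eq_enorm, Complex.norm_real, Real.norm_of_nonneg h0]
    rw [ofReal_integral_eq_lintegral_ofReal hHint.norm.integrableOn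
      (Filter.Eventually.of_forall fun x => norm_nonneg _)]
    refine lintegral_congr fun x => ?_
    rw [ofReal_norm_eq_enorm]
  -- right side
  have hright : ‖(inner ℂ f' (R f) : ℂ)‖ₑ ≤ ∫⁻ x in A, D x ∂m := by
    rw [hR f f']
    refine (enorm_integral_le_lintegral_enorm _).trans ?_
    have h1 : ∀ g : G, ‖(inner ℂ f' (π g f) : ℂ)‖ₑ ≤
        ∫⁻ x, A.indicator 1 x * ‖F (g⁻¹ • x)‖ₑ ∂m := by
      intro g
      rw [L2.inner_def]
      refine (enorm_integral_le_lintegral_enorm _).trans ?_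
      refine lintegral_mono_ae ?_
      filter_upwards [hf'ae, hπ.ae g f] with x hx1 hx2
      rw [hx1, hx2, ← hF]
      have h2 : ‖(inner ℂ (u x) (F (g⁻¹ • x)) : ℂ)‖ₑ ≤ ‖u x‖ₑ * ‖F (g⁻¹ • x)‖ₑ := by
        rw [RCLike.inner_apply, enorm_mul, mul_comm]
        apply le_of_eq
        congr 1
        rw [← ofReal_norm_eq_enorm, ← ofReal_norm_eq_enorm, RCLike.norm_conj]
      exact h2.trans (mul_le_mul_left (hub x) _)
    refine (lintegral_mono h1).trans ?_
    rw [DOX_swap hQ ν (fun g x => A.indicator 1 x * ‖F (g⁻¹ • x)‖ₑ)]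
    · have h3 : ∀ x, ∫⁻ g, A.indicator 1 x * ‖F (g⁻¹ • x)‖ₑ ∂ν = A.indicator D x := by
        intro x
        by_cases hx : x ∈ A
        · rw [Set.indicator_of_mem hx, Set.indicator_of_mem hx, Pi.one_apply, hD]
          simp only [one_mul]
        · rw [Set.indicator_of_notMem hx, Set.indicator_of_notMem hx]
          simp only [zero_mul, lintegral_zero]
      rw [lintegral_congr h3, lintegral_indicator hAm]
    · refine Measurable.mul ?_ hjoint
      exact ((measurable_one.indicator hAm).comp hmk).comp measurable_snd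
  have hfinA : ∫⁻ x in A, ‖H x‖ₑ ∂m ≠ ∞ := by
    have h1 : ∫⁻ x, ‖H x‖ₑ ∂m < ∞ := hHint.2
    exact ((setLIntegral_le_lintegral A _).trans_lt h1).ne
  have hDfin : ∫⁻ x in A, D x ∂m ≠ ∞ := by
    refine ne_top_of_le_ne_top hfinA ?_
    refine setLIntegral_mono hHe fun x hx => ?_
    rw [hA] at hx
    exact le_of_lt hx
  have hstrict : ∫⁻ x in A, D x ∂m < ∫⁻ x in A, ‖H x‖ₑ ∂m := by
    refine setLIntegral_strict_mono hAm hA0 hHe hDfin ?_
    refine Filter.Eventually.of_forall fun x hx => ?_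
    rw [hA] at hx
    exact hx
  rw [hleft2] at hright
  exact absurd hstrict (not_lt.2 hright)

end Pool.PQ
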