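import Pool.Agent.Work.MP_972ac7_Q.Interface1

set_option autoImplicit false

/-! # Block DS2: discreteness -/

open MeasureTheory
open scoped ENNReal

noncomputable section

namespace Pool.PQ

open Pool.PL Pool.TFD Pool.TC

lemma DS2_mnm_one {k : Type} [NormedField k] :
    mnm (1 : Matrix (Fin 2) (Fin 2) k) ≤ 1 := by
  rw [mnm_le]
  intro i j
  fin_cases i <;> fin_cases j <;> simp

lemma DS2_nm {k : Type} [NormedField k] (g : SL2 k) : nm g ≤ 1 + dnm g := by
  unfold nm dnm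
  have h : (g : Matrix (Fin 2) (Fin 2) k) = 1 + ((g : Matrix (Fin 2) (Fin 2) k) - 1) := by
    abel
  calc mnm (g : Matrix (Fin 2) (Fin 2) k)
      = mnm (1 + ((g : Matrix (Fin 2) (Fin 2) k) - 1)) := by rw [← h]
    _ ≤ mnm 1 + mnm ((g : Matrix (Fin 2) (Fin 2) k) - 1) := mnm_add_le2 _ _
    _ ≤ 1 + mnm ((g : Matrix (Fin 2) (Fin 2) k) - 1) := by
        have := DS2_mnm_one (k := k)
        linarith

theorem p_DS2 (hTG2 : Stmt_TG2) : Stmt_DS2 := by
  intro ι _ _ k _ _ L Γ hι hΓ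
  obtain ⟨W, v, hWv⟩ := exists_pair_ne ι
  obtain ⟨-, -, hT2, -, -, -, hr⟩ := hTG2 ι k
  obtain ⟨C, hC, hcount⟩ := hΓ.count W v hWv 2
  have h1 : ∀ i, nm ((1 : GG k) i) ≤ 2 := by
    intro i
    change nm (1 : SL2 (k i)) ≤ 2
    unfold nm
    rw [Matrix.SpecialLinearGroup.coe_one]
    have := DS2_mnm_one (k := k i)
    linarith
  obtain ⟨hfin, -⟩ := hcount 1 h1 1 4 le_rfl (by norm_num)
  have hV : {g : GG k | ∀ i, dnm (g i) ≤ 1} ∈ nhds (1 : GG k) := hr 1 one_pos
  have hV' : {γ : Γ | ∀ i, dnm ((γ : GG k) i) ≤ 1} ∈ nhds (1 : Γ) := by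
    have hc : ContinuousAt (fun γ : Γ => (γ : GG k)) 1 := continuous_subtype_val.continuousAt
    exact hc.preimage_mem_nhds hV
  have hfinV : {γ : Γ | ∀ i, dnm ((γ : GG k) i) ≤ 1}.Finite := by
    refine hfin.subset ?_
    intro γ hγ
    have hγ' : ∀ i, dnm ((γ : GG k) i) ≤ 1 := hγ
    have hn : ∀ i, nm ((γ : GG k) i) ≤ 2 := by
      intro i
      have h2 := DS2_nm ((γ : GG k) i)
      have h3 := hγ' i
      linarith
    have e : (1 * (γ : GG k) * 1⁻¹ : GG k) = (γ : GG k) := by simp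
    unfold cs
    rw [Set.mem_setOf_eq, e]
    refine ⟨?_, ?_, fun u _ _ => hn u⟩
    · rw [mul_one]
      exact pow_le_one₀ (dnm_nonneg _) (hγ' v)
    · rcases (L W).he with h | h
      · rw [h, pow_one]
        have := hn W
        linarith
      · rw [h]
        have h2 := hn W
        have h3 := nm_nonneg ((γ : GG k) W)
        nlinarith
  have hone : ({1} : Set Γ) ∈ nhds (1 : Γ) := by
    have h2 : (({γ : Γ | ∀ i, dnm ((γ : GG k) i) ≤ 1} \ {1} : Set Γ))ᶜ ∈ nhds (1 : Γ) := by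
      apply (hfinV.subset Set.diff_subset).isClosed.isOpen_compl.mem_nhds
      intro h
      exact h.2 rfl
    filter_upwards [hV', h2] with γ ha hb
    by_contra h
    exact hb ⟨ha, h⟩
  apply discreteTopology_of_isOpen_singleton_one
  rw [isOpen_iff_mem_nhds]
  intro x hx
  rw [Set.mem_singleton_iff] at hx
  rw [hx]
  exact hone

end Pool.PQ
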