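import Pool.Agent.Work.MP_972ac7_Q.Interface1

set_option autoImplicit false

/-! # Block ERQ (helper89): ergodicity of one factor -/

open MeasureTheory
open scoped ENNReal

noncomputable section

namespace Pool.PQ

open Pool.PL Pool.TFD Pool.TC

/-- the stabilizer of a vector -/
def ERQ_st {G H : Type} [Group G] [NormedAddCommGroup H] [InnerProductSpace ℂ H]
    (π : G →* (H ≃ₗᵢ[ℂ] H)) (f : H) : Subgroup G where
  carrier := {g | π g f = f}
  mul_mem' := by
    intro a b ha hb
    change π (a * b) f = f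
    rw [map_mul]
    change π a (π b f) = f
    rw [show π b f = f from hb]
    exact ha
  one_mem' := by
    change π 1 f = f
    rw [map_one]
    rfl
  inv_mem' := by
    intro a ha
    change π a⁻¹ f = f
    have h1 : π a⁻¹ (π a f) = f := by
      have h2 : π (a⁻¹ * a) f = π a⁻¹ (π a f) := by
        rw [map_mul]
        rfl
      rw [← h2, inv_mul_cancel, map_one]
      rfl
    rwa [show π a f = f from ha] at h1

theorem ERQ_sym {G : Type} [Group G] [TopologicalSpace G] [IsTopologicalGroup G]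
    [MeasurableSpace G] [BorelSpace G] (μ : Measure G) (hμ : μ.IsInvInvariant)
    (τ : G → ℝ≥0∞) (hτ : Measurable τ) (hs : ∀ u, τ u⁻¹ = τ u) :
    (μ.withDensity τ).map (fun g => g⁻¹) = μ.withDensity τ := by
  have hm : Measurable fun g : G => g⁻¹ := continuous_inv.measurable
  ext s hs'
  rw [Measure.map_apply hm hs', withDensity_apply _ (hm hs'), withDensity_apply _ hs']
  have h1 : MeasurePreserving (fun g : G => g⁻¹) μ μ := Measure.measurePreserving_inv μ
  rw [← h1.setLIntegral_comp_preimage hs' hτ]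
  refine lintegral_congr fun u => ?_
  exact (hs u).symm

theorem p_ERQ (hTG2 : Stmt_TG2) (hTP2 : Stmt_TP2) (hUN2 : Stmt_UN2) (hWIX : Stmt_WIX)
    (hWIP : Stmt_WIP) (hCFC : Stmt_CFC) (hTRV : Stmt_TRV) (hHKX : Stmt_HKX) : Stmt_ERQ := by
  intro ι _ _ k _ _ L Γ hLat μ m c hQD π hKP W f hf
  obtain ⟨hlc, -, -, -, -, -⟩ := hTP2 (k W)
  obtain ⟨-, hscG, -, hbG, -, -, -⟩ := hTG2 ι k
  have hμA : (Measure.haar : Measure (SL2 (k W))).IsHaarMeasure := inferInstance
  generalize (Measure.haar : Measure (SL2 (k W))) = μA at hμA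
  obtain ⟨τ, R, ρ, hHk⟩ := hHKX (k W) (L W) μA hμA
  obtain ⟨-, hinv⟩ := hUN2.1 (k W) (L W) μA hμA
  have hcont : Continuous fun a : SL2 (k W) => (Pi.mulSingle W a : GG k) :=
    continuous_mulSingle (A := fun i => SL2 (k i)) W
  have hmeas : Measurable fun a : SL2 (k W) => (Pi.mulSingle W a : GG k) := hcont.measurable
  have hp1 : IsProbabilityMeasure (μA.withDensity τ) :=
    ⟨by rw [withDensity_apply _ MeasurableSet.univ, Measure.restrict_univ, hHk.int]⟩
  have hp : IsProbabilityMeasure
      ((μA.withDensity τ).map fun a => (Pi.mulSingle W a : GG k)) :=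
    Measure.isProbabilityMeasure_map hmeas.aemeasurable
  obtain ⟨T, hT⟩ := hWIX (GG k) (Lp ℂ 2 m) π hKP.cont _ hp
  obtain ⟨hn, -, hε, hsa⟩ := hWIP (GG k) (Lp ℂ 2 m) π hKP.cont _ hp T hT
  have hsym : (((μA.withDensity τ).map fun a => (Pi.mulSingle W a : GG k)).map
      fun g => g⁻¹) = (μA.withDensity τ).map fun a => (Pi.mulSingle W a : GG k) := by
    have hm1 : Measurable fun g : SL2 (k W) => g⁻¹ := continuous_inv.measurable
    have hm2 : Measurable fun g : GG k => g⁻¹ := continuous_inv.measurable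
    rw [Measure.map_map hm2 hmeas]
    have h1 : ((fun g : GG k => g⁻¹) ∘ fun a => (Pi.mulSingle W a : GG k)) =
        (fun a => (Pi.mulSingle W a : GG k)) ∘ fun a : SL2 (k W) => a⁻¹ := by
      funext a
      exact (Pi.mulSingle_inv (f := fun i => SL2 (k i)) W a).symm
    rw [h1, ← Measure.map_map hmeas hm1, ERQ_sym μA hinv τ hHk.meas hHk.sym]
  have hTf : T f = f := by
    have hset : MeasurableSet {g : GG k | ‖π g f - f‖ ≤ 0} := by
      have h2 : Continuous fun g : GG k => ‖π g f - f‖ :=
        ((hKP.cont f).sub continuous_const).norm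
      exact (isClosed_le h2 continuous_const).measurableSet
    have h1 := hε f 0 ((ae_map_iff hmeas.aemeasurable hset).2
      (Filter.Eventually.of_forall fun a => by rw [hf a, sub_self, norm_zero]))
    exact sub_eq_zero.1 (norm_le_zero_iff.1 h1)
  obtain ⟨χ, -, hχc, hχn, hχf, -⟩ := hCFC (Lp ℂ 2 m) T (hsa hsym) hn
  have hχ : χ f = f := hχf f hTf
  intro g
  have hg : g ∈ ERQ_st π f := by
    refine Subgroup.pi_mem_of_mulSingle_mem g fun v => ?_
    change π (Pi.mulSingle v (g v)) f = f
    by_cases hv : W = v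
    · subst hv
      exact hf _
    · have h1 := hTRV ι k L Γ hLat μ m c hQD π hKP W v hv μA hμA τ R ρ hHk T hT χ hχc hχn f (g v)
      rwa [hχ] at h1
  exact hg

end Pool.PQ
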