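import Pool.Agent.Work.MP_972ac7_Q.Interface1

set_option autoImplicit false

/-! # THEOREM PP, block KRN: product of the Haar measures and convolution -/

open MeasureTheory
open scoped ENNReal

noncomputable section

namespace Pool.PQ

open Pool.PL Pool.TFD Pool.TC

section

variable {ι : Type} [DecidableEq ι] (k : ι → Type) [∀ i, NormedField (k i)] (P : ι)

theorem KRN_contE : Continuous (splitE k P) := by
  have h1 : Continuous fun g : GG k => (splitE k P g).1 := continuous_apply P
  have h2 : Continuous fun g : GG k => (splitE k P g).2 :=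
    continuous_pi fun i => continuous_apply i.1
  exact h1.prodMk h2

theorem KRN_contE' : Continuous (splitE k P).symm := by
  exact (Homeomorph.piSplitAt P (fun i => SL2 (k i))).symm.continuous

theorem KRN_measE' : Measurable (splitE k P).symm := by
  apply measurable_pi_lambda
  intro i
  by_cases hi : i = P
  · subst hi
    have h1 : (fun x : SL2 (k i) × GG (fun j : {j : ι // j ≠ i} => k j.1) =>
        (splitE k i).symm x i) = fun x => x.1 := by
      funext x
      have h2 := (splitE k i).apply_symm_apply x
      conv_rhs => rw [← h2]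
      rfl
    rw [h1]
    exact measurable_fst
  · have h1 : (fun x : SL2 (k P) × GG (fun j : {j : ι // j ≠ P} => k j.1) =>
        (splitE k P).symm x i) = fun x => x.2 ⟨i, hi⟩ := by
      funext x
      have h2 := (splitE k P).apply_symm_apply x
      conv_rhs => rw [← h2]
      rfl
    rw [h1]
    exact (measurable_pi_apply _).comp measurable_snd

theorem KRN_single (a : SL2 (k P)) :
    (Pi.mulSingle P a : GG k) = (splitE k P).symm (a, 1) := by
  rw [MulEquiv.eq_symm_apply]
  refine Prod.ext ?_ ?_
  · show (Pi.mulSingle P a : GG k) P = a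
    exact Pi.mulSingle_eq_same (M := fun i => SL2 (k i)) P a
  · funext i
    show (Pi.mulSingle P a : GG k) i.1 = 1
    exact Pi.mulSingle_eq_of_ne (M := fun i => SL2 (k i)) i.2 a

theorem KRN_jB (b : BB k P) : jB k P b = (splitE k P).symm (1, b) := rfl

theorem KRN_mul (a : SL2 (k P)) (b : BB k P) :
    (Pi.mulSingle P a : GG k) * jB k P b = (splitE k P).symm (a, b) := by
  rw [KRN_single, KRN_jB, ← map_mul, Prod.mk_mul_mk, mul_one, one_mul]

theorem KRN_fst (x : SL2 (k P) × BB k P) : (splitE k P).symm x P = x.1 := by
  have h2 := (splitE k P).apply_symm_apply x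
  conv_rhs => rw [← h2]
  rfl

theorem KRN_snd (x : SL2 (k P) × BB k P) : (fun i : {i : ι // i ≠ P} =>
    (splitE k P).symm x i.1) = x.2 := by
  have h2 := (splitE k P).apply_symm_apply x
  conv_rhs => rw [← h2]
  rfl

end

theorem p_KRN (hTG2 : Stmt_TG2) (hTP2 : Stmt_TP2) : Stmt_KRN := by
  intro ι _ _ k _ _ W μA μB hμA hμB
  obtain ⟨a1, a2, a3, -, -, -⟩ := hTP2 (k W)
  obtain ⟨b1, b2, b3, b4, -, -⟩ := hTG2 {i : ι // i ≠ W} (fun i => k i.1)
  obtain ⟨c1, c2, c3, c4, -, -⟩ := hTG2 ι k
  have hm : Measurable (splitE k W).symm := KRN_measE' k W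
  constructor
  · exact MulEquiv.isHaarMeasure_map (μA.prod μB) (splitE k W).symm (KRN_contE' k W)
      (KRN_contE k W)
  · intro θ σ hθ hσ
    have m1 : Measurable fun a : SL2 (k W) => (Pi.mulSingle W a : GG k) := by
      have h1 : (fun a : SL2 (k W) => (Pi.mulSingle W a : GG k)) =
          fun a => (splitE k W).symm (a, 1) := funext fun a => KRN_single k W a
      rw [h1]
      exact hm.comp (measurable_id.prodMk measurable_const)
    have m2 : Measurable (jB k W) := by
      have h1 : (⇑(jB k W) : BB k W → GG k) = fun b => (splitE k W).symm (1, b) :=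
        funext fun b => KRN_jB k W b
      rw [h1]
      exact hm.comp (measurable_const.prodMk measurable_id)
    have m3 : Measurable fun p : GG k × GG k => p.1 * p.2 := measurable_fst.mul measurable_snd
    unfold cv
    rw [Measure.map_prod_map _ _ m1 m2, Measure.map_map m3 (m1.prodMap m2),
      prod_withDensity hθ hσ]
    have h2 : ((fun p : GG k × GG k => p.1 * p.2) ∘
        Prod.map (fun a : SL2 (k W) => (Pi.mulSingle W a : GG k)) ⇑(jB k W)) =
        ⇑(splitE k W).symm := by
      funext x
      exact KRN_mul k W x.1 x.2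
    rw [h2]
    have h3 : Measurable fun g : GG k => θ (g W) * σ (fun i => g i.1) := by
      refine (hθ.comp (measurable_pi_apply W)).mul (hσ.comp ?_)
      exact measurable_pi_lambda _ fun i => measurable_pi_apply i.1
    ext s hs
    rw [Measure.map_apply hm hs, withDensity_apply _ (hm hs), withDensity_apply _ hs,
      setLIntegral_map hs h3 hm]
    refine lintegral_congr fun x => ?_
    rw [KRN_fst, KRN_snd]

end Pool.PQ
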