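import Pool.Agent.Work.MP_972ac7_Q.Interface1

/-! Block PWR of THEOREM PP (helper24). -/

set_option autoImplicit false

open MeasureTheory
open scoped ENNReal

noncomputable section

namespace Pool.PQ

open Pool.PL Pool.TFD Pool.TC

section gen

variable {A : Type} [Group A] [MeasurableSpace A] [MeasurableMul₂ A] [MeasurableInv A]

omit [MeasurableInv A] in
theorem PWR_meas (μ : Measure A) [SFinite μ] {τ θ : A → ℝ≥0∞} (hτ : Measurable τ)
    (hθ : Measurable θ) : Measurable (PP μ τ θ) := by
  unfold PP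
  apply Measurable.lintegral_prod_right'
    (f := fun p : A × A => θ (p.1 * p.2) * τ p.2)
  exact (hθ.comp (measurable_fst.mul measurable_snd)).mul (hτ.comp measurable_snd)

theorem PWR_lint (μ : Measure A) [SFinite μ] [μ.IsMulRightInvariant] [μ.IsInvInvariant]
    {τ θ F : A → ℝ≥0∞} (hτ : Measurable τ) (hθ : Measurable θ) (hF : Measurable F)
    (hs : ∀ u, τ u⁻¹ = τ u) :
    ∫⁻ p, F (p.1 * p.2) ∂((μ.withDensity θ).prod (μ.withDensity τ)) =
      ∫⁻ c, F c * PP μ τ θ c ∂μ := by
  have hm : Measurable fun p : A × A => p.1 * p.2 := measurable_fst.mul measurable_snd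
  have hFm : Measurable fun p : A × A => F (p.1 * p.2) := hF.comp hm
  rw [lintegral_prod_symm (fun p : A × A => F (p.1 * p.2)) hFm.aemeasurable]
  have m1 : ∀ b : A, Measurable fun a : A => F (a * b) :=
    fun b => hF.comp (measurable_id.mul_const b)
  have e2 : ∀ b : A, ∫⁻ a, F (a * b) ∂(μ.withDensity θ) = ∫⁻ c, θ (c * b⁻¹) * F c ∂μ := by
    intro b
    rw [lintegral_withDensity_eq_lintegral_mul μ hθ (m1 b)]
    have h := lintegral_mul_right_eq_self (μ := μ) (fun c => θ (c * b⁻¹) * F c) b
    rw [← h]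
    apply lintegral_congr
    intro a
    simp only [Pi.mul_apply, mul_inv_cancel_right]
  simp only [e2]
  have m2 : Measurable fun p : A × A => θ (p.2 * p.1⁻¹) * F p.2 :=
    (hθ.comp (measurable_snd.mul measurable_fst.inv)).mul (hF.comp measurable_snd)
  have m3 : Measurable fun b : A => ∫⁻ c, θ (c * b⁻¹) * F c ∂μ := m2.lintegral_prod_right'
  rw [lintegral_withDensity_eq_lintegral_mul μ hτ m3]
  have e3 : ∀ b : A, (τ * fun b => ∫⁻ c, θ (c * b⁻¹) * F c ∂μ) b =
      ∫⁻ c, τ b * (θ (c * b⁻¹) * F c) ∂μ := by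
    intro b
    rw [Pi.mul_apply, lintegral_const_mul]
    exact (hθ.comp (measurable_id.mul_const _)).mul hF
  have m4 : Measurable fun p : A × A => τ p.1 * (θ (p.2 * p.1⁻¹) * F p.2) :=
    (hτ.comp measurable_fst).mul m2
  rw [lintegral_congr e3, lintegral_lintegral_swap (f := fun b c => τ b * (θ (c * b⁻¹) * F c))
    m4.aemeasurable]
  apply lintegral_congr
  intro c
  unfold PP
  rw [← lintegral_inv_eq_self (μ := μ) (fun u => θ (c * u) * τ u), ← lintegral_const_mul]
  · apply lintegral_congr
    intro b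
    rw [hs]
    ring
  · exact (hθ.comp (measurable_const.mul measurable_inv)).mul (hτ.comp measurable_inv)

theorem PWR_cv (μ : Measure A) [SFinite μ] [μ.IsMulRightInvariant] [μ.IsInvInvariant]
    {τ θ : A → ℝ≥0∞} (hτ : Measurable τ) (hθ : Measurable θ) (hs : ∀ u, τ u⁻¹ = τ u) :
    cv (μ.withDensity θ) (μ.withDensity τ) = μ.withDensity (PP μ τ θ) := by
  ext s hs'
  have hm : Measurable fun p : A × A => p.1 * p.2 := measurable_fst.mul measurable_snd
  have hi : Measurable (s.indicator (1 : A → ℝ≥0∞)) := measurable_one.indicator hs'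
  unfold cv
  rw [← lintegral_indicator_one hs', lintegral_map hi hm, PWR_lint μ hτ hθ hi hs,
    withDensity_apply _ hs', ← lintegral_indicator hs']
  apply lintegral_congr
  intro c
  by_cases hc : c ∈ s
  · rw [Set.indicator_of_mem hc, Set.indicator_of_mem hc, Pi.one_apply, one_mul]
  · rw [Set.indicator_of_notMem hc, Set.indicator_of_notMem hc, zero_mul]

end gen

theorem PWR_map {A G : Type} [Group A] [MeasurableSpace A] [MeasurableMul₂ A] [Group G]
    [MeasurableSpace G] [MeasurableMul₂ G] (j : A → G) (hj : Measurable j)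
    (hmul : ∀ a b, j (a * b) = j a * j b) (ν₁ ν₂ : Measure A) [SFinite ν₁] [SFinite ν₂] :
    cv (ν₁.map j) (ν₂.map j) = (cv ν₁ ν₂).map j := by
  have hmA : Measurable fun p : A × A => p.1 * p.2 := measurable_fst.mul measurable_snd
  have hmG : Measurable fun p : G × G => p.1 * p.2 := measurable_fst.mul measurable_snd
  unfold cv
  rw [Measure.map_prod_map _ _ hj hj, Measure.map_map hmG (hj.prodMap hj),
    Measure.map_map hj hmA]
  congr 1
  funext p
  simp only [Function.comp_apply, Prod.map_fst, Prod.map_snd, hmul]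

theorem p_PWR (hTG2 : Stmt_TG2) (hTP2 : Stmt_TP2) (hUN2 : Stmt_UN2) (hDOX : Stmt_DOX)
    (hDMC : Stmt_DMC) : Stmt_PWR := by
  intro ι _ _ k _ _ L Γ μ m c hQ π hπ W μA hμA τ R ρ hk T hT n
  obtain ⟨i1, i2, i3, i4, -, -, -⟩ := hTG2 ι k
  obtain ⟨j1, j2, j3, -, -, -⟩ := hTP2 (k W)
  obtain ⟨r1, r2⟩ := hUN2.1 (k W) (L W) μA hμA
  have hsing : Measurable fun a : SL2 (k W) => (Pi.mulSingle W a : GG k) :=
    measurable_update (1 : GG k)
  have hmul : ∀ a b : SL2 (k W), (Pi.mulSingle W (a * b) : GG k) =
      Pi.mulSingle W a * Pi.mulSingle W b := by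
    intro a b
    funext i
    by_cases h : i = W
    · subst h
      simp
    · simp [h]
  have hP0 : IsProbabilityMeasure (μA.withDensity τ) := by
    constructor
    rw [withDensity_apply _ MeasurableSet.univ, setLIntegral_univ]
    exact hk.int
  have hD0 : Dom m T ((μA.withDensity τ).map fun a => (Pi.mulSingle W a : GG k)) := by
    refine hDOX (GG k) Γ μ m c hQ π hπ _ ?_ T hT
    exact Measure.isProbabilityMeasure_map hsing.aemeasurable
  have key : ∀ n : ℕ, Measurable ((PP μA τ)^[n] τ) ∧
      IsProbabilityMeasure (μA.withDensity ((PP μA τ)^[n] τ)) ∧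
      Dom m (T ^ (n + 1)) ((μA.withDensity ((PP μA τ)^[n] τ)).map
        fun a => (Pi.mulSingle W a : GG k)) := by
    intro n
    induction n with
    | zero =>
      refine ⟨hk.meas, hP0, ?_⟩
      rw [zero_add, pow_one]
      exact hD0
    | succ n ih =>
      obtain ⟨a1, a2, a3⟩ := ih
      rw [Function.iterate_succ_apply']
      have e := PWR_cv μA hk.meas a1 hk.sym
      refine ⟨PWR_meas μA hk.meas a1, ?_, ?_⟩
      · rw [← e]
        unfold cv
        exact Measure.isProbabilityMeasure_map (measurable_fst.mul measurable_snd).aemeasurable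
      · rw [← e, ← PWR_map (fun a : SL2 (k W) => (Pi.mulSingle W a : GG k)) hsing hmul,
          pow_succ T (n + 1)]
        have b1 : IsProbabilityMeasure ((μA.withDensity ((PP μA τ)^[n] τ)).map
            fun a => (Pi.mulSingle W a : GG k)) :=
          Measure.isProbabilityMeasure_map hsing.aemeasurable
        have b2 : IsProbabilityMeasure ((μA.withDensity τ).map
            fun a => (Pi.mulSingle W a : GG k)) :=
          Measure.isProbabilityMeasure_map hsing.aemeasurable
        exact hDMC (GG k) Γ μ m c hQ _ _ _ _ inferInstance inferInstance a3 hD0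
  exact (key n).2.2

end Pool.PQ
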