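import Pool.Agent.Work.MP_972ac7_Q.Interface1
import Pool.Agent.Work.MP_972ac7_Q.B_KRN
import Pool.Agent.Work.MP_972ac7_Q.B_PWR

/-! # THEOREM PP, part I: block EST -/

set_option autoImplicit false

open MeasureTheory
open scoped ENNReal NNReal

noncomputable section

namespace Pool.PQ

open Pool.PL Pool.TFD Pool.TC

/-! ### Matrices -/

section mats

variable {k : Type} [NormedField k]

theorem EST_cont_dnm : Continuous fun g : SL2 k => dnm g := by
  have h1 : ∀ i j, Continuous fun g : SL2 k => (g : Matrix (Fin 2) (Fin 2) k) i j := by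
    intro i j
    have h1 : Continuous fun g : SL2 k => (g : Matrix (Fin 2) (Fin 2) k) :=
      continuous_subtype_val
    exact (continuous_apply j).comp ((continuous_apply i).comp h1)
  have h2 : ∀ i j, Continuous fun g : SL2 k =>
      ‖((g : Matrix (Fin 2) (Fin 2) k) - 1) i j‖ := fun i j => by
    simp only [Matrix.sub_apply]
    exact ((h1 i j).sub continuous_const).norm
  unfold dnm mnm
  exact ((h2 0 0).max (h2 0 1)).max ((h2 1 0).max (h2 1 1))

theorem EST_nm (g : SL2 k) : nm g ≤ dnm g + 1 := by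
  have h1 : mnm (1 : Matrix (Fin 2) (Fin 2) k) ≤ 1 := by
    rw [mnm_le]
    intro i j
    fin_cases i <;> fin_cases j <;> simp
  calc nm g = mnm (((g : Matrix (Fin 2) (Fin 2) k) - 1) + 1) := by rw [sub_add_cancel]; rfl
    _ ≤ mnm ((g : Matrix (Fin 2) (Fin 2) k) - 1) + mnm (1 : Matrix (Fin 2) (Fin 2) k) :=
        mnm_add_le2 _ _
    _ ≤ dnm g + 1 := add_le_add le_rfl h1

theorem EST_geo (b b' : SL2 k) (η : ℝ) (hη : η ≤ 1 / 8) (hb : dnm b ≤ η) (hb' : dnm b' ≤ η) :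
    dnm (b' * b⁻¹) ≤ 8 * η ∧ nm (b' * b⁻¹) ≤ 8 := by
  have hη0 : 0 ≤ η := le_trans (dnm_nonneg b) hb
  have n1 : nm b ≤ 9 / 8 := by linarith [EST_nm b]
  have n2 : nm b' ≤ 9 / 8 := by linarith [EST_nm b']
  have n3 := nm_nonneg b
  have n4 := nm_nonneg b'
  have e1 : ((b' * b⁻¹ : SL2 k) : Matrix (Fin 2) (Fin 2) k) - 1 =
      ((b' : Matrix (Fin 2) (Fin 2) k) - (b : Matrix (Fin 2) (Fin 2) k)) *
        ((b⁻¹ : SL2 k) : Matrix (Fin 2) (Fin 2) k) := by
    rw [sub_mul, Matrix.SpecialLinearGroup.coe_mul]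
    congr 1
    rw [← Matrix.SpecialLinearGroup.coe_mul, mul_inv_cancel, Matrix.SpecialLinearGroup.coe_one]
  have e2 : mnm ((b' : Matrix (Fin 2) (Fin 2) k) - (b : Matrix (Fin 2) (Fin 2) k)) ≤ 2 * η := by
    rw [mnm_le]
    intro i j
    have h1 := le_trans (le_mnm ((b : Matrix (Fin 2) (Fin 2) k) - 1) i j) hb
    have h2 := le_trans (le_mnm ((b' : Matrix (Fin 2) (Fin 2) k) - 1) i j) hb'
    have h3 : ((b' : Matrix (Fin 2) (Fin 2) k) - (b : Matrix (Fin 2) (Fin 2) k)) i j =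
        ((b' : Matrix (Fin 2) (Fin 2) k) - 1) i j - ((b : Matrix (Fin 2) (Fin 2) k) - 1) i j := by
      simp only [Matrix.sub_apply]
      ring
    rw [h3]
    exact le_trans (norm_sub_le _ _) (by linarith)
  constructor
  · unfold dnm
    rw [e1]
    refine le_trans (mnm_mul_le2 _ _) ?_
    have e3 : mnm ((b⁻¹ : SL2 k) : Matrix (Fin 2) (Fin 2) k) ≤ 9 / 8 := by
      change nm b⁻¹ ≤ _
      rw [nm_inv]
      exact n1
    have e4 := mnm_nonneg ((b' : Matrix (Fin 2) (Fin 2) k) - (b : Matrix (Fin 2) (Fin 2) k))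
    have e5 := mnm_nonneg ((b⁻¹ : SL2 k) : Matrix (Fin 2) (Fin 2) k)
    have e6 := mul_le_mul e2 e3 e5 (by linarith)
    nlinarith
  · refine le_trans (nm_mul_le2 _ _) ?_
    rw [nm_inv]
    nlinarith [mul_le_mul n2 n1 n3 (by norm_num : (0 : ℝ) ≤ 9 / 8)]

end mats

/-! ### The Haar measure -/

theorem EST_QD {G : Type} [Group G] [TopologicalSpace G] [IsTopologicalGroup G]
    [LocallyCompactSpace G] [SecondCountableTopology G] [T2Space G] [MeasurableSpace G]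
    [BorelSpace G] {Γ : Subgroup G} {μ μ' : Measure G} {m : Measure (G ⧸ Γ)} {c : ℝ≥0∞}
    (hQ : QD Γ μ m c) (h : μ'.IsHaarMeasure) (hr : μ'.IsMulRightInvariant)
    (hi : μ'.IsInvInvariant) : ∃ c' : ℝ≥0∞, QD Γ μ' m c' := by
  have h1 := hQ.haar
  have h2 := Measure.isMulLeftInvariant_eq_smul μ' μ
  have h3 : 0 < Measure.haarScalarFactor μ' μ :=
    Measure.haarScalarFactor_pos_of_isHaarMeasure μ' μ
  set a : ℝ≥0 := Measure.haarScalarFactor μ' μ with ha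
  refine ⟨a * c, h, hr, hi, hQ.cnt, hQ.disc, hQ.prob, hQ.pres, ?_, ?_, ?_⟩
  · exact ENNReal.mul_ne_top ENNReal.coe_ne_top hQ.ne
  · refine mul_ne_zero ?_ hQ.pos
    exact_mod_cast h3.ne'
  · intro φ hφ
    rw [h2, lintegral_smul_measure, hQ.weil φ hφ, ENNReal.smul_def, smul_eq_mul, mul_assoc]

section prod

variable {ι : Type} [Fintype ι] [DecidableEq ι] {k : ι → Type} [∀ i, NormedField (k i)]
  [∀ i, ProperSpace (k i)]

/-- the product density -/
def EST_psi (W : ι) (θ : SL2 (k W) → ℝ≥0∞) (σ : BB k W → ℝ≥0∞) (g : GG k) : ℝ≥0∞ :=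
  θ (g W) * σ (fun i => g i.1)

theorem EST_int (W : ι) (μA : Measure (SL2 (k W))) (μB : Measure (BB k W)) [SFinite μA]
    [SFinite μB] [MeasurableMul (SL2 (k W))] [MeasurableMul (BB k W)]
    (θ : SL2 (k W) → ℝ≥0∞) (σ : BB k W → ℝ≥0∞) (hθ : Measurable θ) (hσ : Measurable σ)
    (z : GG k) :
    ∫⁻ u, EST_psi W θ σ u * EST_psi W θ σ (z * u) ∂((μA.prod μB).map (splitE k W).symm) =
      (∫⁻ a, θ a * θ (z W * a) ∂μA) *
        ∫⁻ b, σ b * σ ((fun i => z i.1 : BB k W) * b) ∂μB := by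
  have hm : Measurable (splitE k W).symm := KRN_measE' k W
  have hB : Measurable fun g : GG k => (fun i => g i.1 : BB k W) :=
    measurable_pi_lambda _ fun i => measurable_pi_apply i.1
  have hz : Measurable fun a : SL2 (k W) => z W * a := measurable_const_mul _
  have hzB : Measurable fun b : BB k W => ((fun i => z i.1 : BB k W) * b) := measurable_const_mul _
  have e1 : (fun u : GG k => EST_psi W θ σ u * EST_psi W θ σ (z * u)) = fun u =>
      (fun a => θ a * θ (z W * a)) (u W) *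
        (fun b : BB k W => σ b * σ ((fun i => z i.1 : BB k W) * b)) (fun i => u i.1) := by
    funext u
    unfold EST_psi
    change θ (u W) * σ (fun i => u i.1) * (θ (z W * u W) * σ (fun i => z i.1 * u i.1)) =
      θ (u W) * θ (z W * u W) * (σ (fun i => u i.1) * σ (fun i => z i.1 * u i.1))
    ring
  have hf : Measurable fun a : SL2 (k W) => θ a * θ (z W * a) := hθ.mul (hθ.comp hz)
  have hg : Measurable fun b : BB k W => σ b * σ ((fun i => z i.1 : BB k W) * b) := hσ.mul (hσ.comp hzB)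
  have hF : Measurable fun u : GG k => (fun a => θ a * θ (z W * a)) (u W) *
      (fun b : BB k W => σ b * σ ((fun i => z i.1 : BB k W) * b)) (fun i => u i.1) :=
    (hf.comp (measurable_pi_apply W)).mul (hg.comp hB)
  rw [e1, lintegral_map hF hm]
  have e2 : ∀ x : SL2 (k W) × BB k W,
      (fun a => θ a * θ (z W * a)) ((splitE k W).symm x W) *
        (fun b : BB k W => σ b * σ ((fun i => z i.1 : BB k W) * b)) (fun i => (splitE k W).symm x i.1) =
      (fun a => θ a * θ (z W * a)) x.1 * (fun b : BB k W => σ b * σ ((fun i => z i.1 : BB k W) * b)) x.2 := by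
    intro x
    rw [KRN_fst, KRN_snd]
  simp only [e2]
  exact lintegral_prod_mul hf.aemeasurable hg.aemeasurable

theorem EST_sig {B : Type} [Group B] [MeasurableSpace B] (μB : Measure B) (U : Set B)
    (hU : MeasurableSet U) (h0 : μB U ≠ 0) (h1 : μB U ≠ ∞) (z : B) :
    (∫⁻ b, U.indicator (fun _ => (μB U)⁻¹) b * U.indicator (fun _ => (μB U)⁻¹) (z * b) ∂μB ≤
      (μB U)⁻¹) ∧
    ((∫⁻ b, U.indicator (fun _ => (μB U)⁻¹) b * U.indicator (fun _ => (μB U)⁻¹) (z * b) ∂μB ≠ 0) →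
      ∃ b ∈ U, z * b ∈ U) := by
  constructor
  · calc ∫⁻ b, U.indicator (fun _ => (μB U)⁻¹) b * U.indicator (fun _ => (μB U)⁻¹) (z * b) ∂μB
        ≤ ∫⁻ b, U.indicator (fun _ => (μB U)⁻¹) b * (μB U)⁻¹ ∂μB := by
          apply lintegral_mono
          intro b
          apply mul_le_mul_right
          by_cases h : z * b ∈ U
          · rw [Set.indicator_of_mem h]
          · rw [Set.indicator_of_notMem h]
            exact bot_le
      _ = (∫⁻ b, U.indicator (fun _ => (μB U)⁻¹) b ∂μB) * (μB U)⁻¹ := by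
          rw [lintegral_mul_const' _ _ (ENNReal.inv_ne_top.2 h0)]
      _ = 1 * (μB U)⁻¹ := by
          rw [lintegral_indicator_const hU, ENNReal.inv_mul_cancel h0 h1]
      _ = (μB U)⁻¹ := one_mul _
  · intro h
    by_contra hcon
    push Not at hcon
    apply h
    have e : ∀ b, U.indicator (fun _ => (μB U)⁻¹) b * U.indicator (fun _ => (μB U)⁻¹) (z * b) =
        0 := by
      intro b
      by_cases hb : b ∈ U
      · rw [Set.indicator_of_notMem (hcon b hb), mul_zero]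
      · rw [Set.indicator_of_notMem hb, zero_mul]
    simp only [e, lintegral_zero]

theorem EST_mem {W v : ι} {r δ : ℝ} {b : BB k W} (h : b ∈ UU k W v r δ)
    (i : {i : ι // i ≠ W}) : dnm (b i) ≤ if i.1 = v then δ else r := h i

theorem EST_meas (W v : ι) (r δ : ℝ) : MeasurableSet (UU k W v r δ) := by
  have h : UU k W v r δ = ⋂ i : {i : ι // i ≠ W}, {b : BB k W | dnm (b i) ≤ if i.1 = v then δ else r} := by
    ext b
    simp only [Set.mem_iInter, Set.mem_setOf_eq]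
    rfl
  rw [h]
  refine MeasurableSet.iInter fun i => ?_
  have h1 : Measurable fun b : BB k W => dnm (b i) :=
    (EST_cont_dnm.measurable).comp (measurable_pi_apply i)
  exact measurableSet_le h1 measurable_const

theorem EST_term {W v : ι} (hWv : W ≠ v) (L : ∀ i, LG (k i)) (μB : Measure (BB k W))
    (τN : SL2 (k W) → ℝ≥0∞) (c₁ : ℝ≥0∞) (Y : ℝ)
    (h1 : ∀ z, τN z ≤ c₁ * ENNReal.ofReal ((nm z ^ (L W).e)⁻¹))
    (h2 : ∀ z, τN z ≠ 0 → nm z ^ (L W).e ≤ Y) (δ r R : ℝ) (hδ : 0 < δ) (hδr : δ ≤ r)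
    (hr : r ≤ 1 / 8) (hR : 8 ≤ R) (hU0 : μB (UU k W v r δ) ≠ 0) (hU1 : μB (UU k W v r δ) ≠ ∞)
    (Γ : Subgroup (GG k)) (g : GG k) (γ : Γ) :
    τN ((g * γ * g⁻¹ : GG k) W) *
      ∫⁻ b, (UU k W v r δ).indicator (fun _ => (μB (UU k W v r δ))⁻¹) b *
        (UU k W v r δ).indicator (fun _ => (μB (UU k W v r δ))⁻¹)
          ((fun i => (g * γ * g⁻¹ : GG k) i.1 : BB k W) * b) ∂μB ≤
      (cs L Γ W v R g ((8 * δ) ^ (L v).e)⁻¹ Y).indicator
        (fun γ => ENNReal.ofReal ((nm ((g * γ * g⁻¹ : GG k) W) ^ (L W).e)⁻¹)) γ *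
        (c₁ * (μB (UU k W v r δ))⁻¹) := by
  obtain ⟨s1, s2⟩ := EST_sig μB (UU k W v r δ) (EST_meas W v r δ) hU0 hU1
    (fun i => (g * γ * g⁻¹ : GG k) i.1 : BB k W)
  set I := ∫⁻ b, (UU k W v r δ).indicator (fun _ => (μB (UU k W v r δ))⁻¹) b *
        (UU k W v r δ).indicator (fun _ => (μB (UU k W v r δ))⁻¹)
          ((fun i => (g * γ * g⁻¹ : GG k) i.1 : BB k W) * b) ∂μB with hI
  set z : GG k := (g * γ * g⁻¹ : GG k) with hz
  by_cases ht : τN (z W) = 0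
  · rw [ht, zero_mul]
    exact bot_le
  by_cases hI0 : I = 0
  · rw [hI0, mul_zero]
    exact bot_le
  obtain ⟨b, hb, hzb⟩ := s2 hI0
  have e1 : ∀ i : {i : ι // i ≠ W}, (((fun i => z i.1 : BB k W) * b) i) * (b i)⁻¹ = z i.1 := by
    intro i
    change z i.1 * b i * (b i)⁻¹ = z i.1
    rw [mul_inv_cancel_right]
  have hmem : γ ∈ cs L Γ W v R g ((8 * δ) ^ (L v).e)⁻¹ Y := by
    refine ⟨?_, h2 _ ht, ?_⟩
    · have m1 := EST_mem hb ⟨v, hWv.symm⟩
      have m2 := EST_mem hzb ⟨v, hWv.symm⟩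
      rw [if_pos rfl] at m1 m2
      have m3 := (EST_geo _ _ δ (hδr.trans hr) m1 m2).1
      rw [e1] at m3
      have m4 : dnm (z v) ^ (L v).e ≤ (8 * δ) ^ (L v).e :=
        pow_le_pow_left₀ (dnm_nonneg _) m3 _
      rw [← div_eq_mul_inv, div_le_one (by positivity)]
      exact m4
    · intro u huv huW
      have m1 := EST_mem hb ⟨u, huW⟩
      have m2 := EST_mem hzb ⟨u, huW⟩
      rw [if_neg huv] at m1 m2
      have m3 := (EST_geo _ _ r hr m1 m2).2
      rw [e1] at m3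
      exact m3.trans hR
  rw [Set.indicator_of_mem hmem]
  calc τN (z W) * I ≤ (c₁ * ENNReal.ofReal ((nm (z W) ^ (L W).e)⁻¹)) * (μB (UU k W v r δ))⁻¹ :=
        mul_le_mul' (h1 _) s1
    _ = _ := by ring

theorem EST_conj (Γ : Subgroup (GG k)) (F : GG k → ℝ≥0∞) (g : GG k) (γ₀ : Γ) :
    ∑' γ : Γ, F (g * γ * g⁻¹) = ∑' γ : Γ, F ((g * γ₀) * γ * (g * γ₀)⁻¹) := by
  have h := (MulAut.conj γ₀).toEquiv.tsum_eq (fun γ : Γ => F (g * γ * g⁻¹))
  rw [← h]
  refine tsum_congr fun γ => ?_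
  congr 1
  have e : (((MulAut.conj γ₀).toEquiv γ : Γ) : GG k) = γ₀ * γ * (γ₀ : GG k)⁻¹ := by
    simp [MulAut.conj_apply]
  rw [e]
  group

theorem EST_num (X c' CS Ct cV ρ δ Λ : ℝ) (n e : ℕ)
    (h : X ≤ c' * (CS * (Ct * ρ ^ (2 * n + 1) * (cV * δ ^ (3 * e))⁻¹)) * Λ) (hδ : 0 < δ)
    (hcV : 0 < cV) (hc' : 0 ≤ c') (hCS : 0 ≤ CS) (hCt : 0 ≤ Ct) (hρ : 0 < ρ) (hΛ : 0 ≤ Λ) :
    X * (δ ^ e) ^ 3 ≤ (c' * CS * Ct * ρ / cV + 1) * Λ * ρ ^ (2 * n) := by
  have h1 : (δ ^ e) ^ 3 = δ ^ (3 * e) := by rw [← pow_mul, mul_comm]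
  have h2 : 0 < δ ^ (3 * e) := by positivity
  rw [h1]
  calc X * δ ^ (3 * e) ≤ c' * (CS * (Ct * ρ ^ (2 * n + 1) * (cV * δ ^ (3 * e))⁻¹)) * Λ *
        δ ^ (3 * e) := mul_le_mul_of_nonneg_right h h2.le
    _ = (c' * CS * Ct * ρ / cV) * Λ * ρ ^ (2 * n) := by
        rw [pow_succ]
        field_simp
    _ ≤ (c' * CS * Ct * ρ / cV + 1) * Λ * ρ ^ (2 * n) := by
        have h3 : 0 ≤ Λ * ρ ^ (2 * n) := by positivity
        nlinarith

end prod

theorem p_EST (hTG2 : Stmt_TG2) (hTP2 : Stmt_TP2) (hUN2 : Stmt_UN2) (hDOX : Stmt_DOX)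
    (hDMC : Stmt_DMC) (hBSB : Stmt_BSB) (hKRN : Stmt_KRN) (hPWR : Stmt_PWR) (hTAU : Stmt_TAU)
    (hPPI : Stmt_PPI) (hVLB : Stmt_VLB) (hSMQ : Stmt_SMQ) : Stmt_EST := by
  intro ι _ _ k _ _ L Γ hΓ μ m c hQ π hπ W v hWv μA μB hμA hμB τ RR ρ hk T hT r hr0 hr
  obtain ⟨i1, i2, i3, i4, -, -, -⟩ := hTG2 ι k
  obtain ⟨j1, j2, j3, -, -, -⟩ := hTP2 (k W)
  obtain ⟨b1, b2, b3, b4, -, -, -⟩ := hTG2 {i : ι // i ≠ W} (fun i => k i.1)
  obtain ⟨r1, r2⟩ := hUN2.1 (k W) (L W) μA hμA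
  obtain ⟨q1, q2⟩ := hKRN ι k W μA μB hμA hμB
  obtain ⟨u1, u2⟩ := hUN2.2 ι k L _ q1
  obtain ⟨c', hQ'⟩ := EST_QD hQ q1 u1 u2
  obtain ⟨Ct, hCt, hτ⟩ := hTAU (k W) (L W) μA hμA τ RR ρ hk
  obtain ⟨R0, hR0⟩ := hΓ.cpt
  obtain ⟨R, hR⟩ : ∃ R, R = max R0 8 := ⟨_, rfl⟩
  have hR1 : R0 ≤ R := by rw [hR]; exact le_max_left _ _
  have hR2 : 8 ≤ R := by rw [hR]; exact le_max_right _ _
  obtain ⟨CS, hCS, hS⟩ := hSMQ ι k L Γ hΓ W v hWv R (8 ^ 22) (by norm_num)
  obtain ⟨cV, hcV, hV⟩ := hVLB ι k L W v hWv μB hμB r hr0 (by linarith)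
  have hρ := hk.pos
  have hc'0 : 0 ≤ c'.toReal := ENNReal.toReal_nonneg
  refine ⟨c'.toReal * CS * Ct * ρ / cV + 1, by positivity, ?_⟩
  intro δ n hδ hδr hY S hS' J f Λ hΛ hf
  obtain ⟨hV1, hU1⟩ := hV δ hδ hδr
  have hU0 : μB (UU k W v r δ) ≠ 0 := by
    intro h
    rw [h] at hV1
    have h1 : 0 < ENNReal.ofReal (cV * δ ^ (3 * (L v).e)) := ENNReal.ofReal_pos.2 (by positivity)
    exact absurd (lt_of_lt_of_le h1 hV1) (lt_irrefl _)
  have hUm := EST_meas (k := k) W v r δ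
  -- the density of the second factor
  obtain ⟨σ, hσ⟩ : ∃ σ : BB k W → ℝ≥0∞,
      σ = (UU k W v r δ).indicator (fun _ => (μB (UU k W v r δ))⁻¹) := ⟨_, rfl⟩
  have hσm : Measurable σ := by
    rw [hσ]
    exact measurable_const.indicator hUm
  have hwd : μB.withDensity σ = (μB (UU k W v r δ))⁻¹ • μB.restrict (UU k W v r δ) := by
    rw [hσ, withDensity_indicator hUm, withDensity_const]
  rw [← hwd] at hS'
  have hsplit : Measurable (splitE k W).symm := KRN_measE' k W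
  have hjB : Measurable (jB k W) := by
    have h1 : (⇑(jB k W) : BB k W → GG k) = fun b => (splitE k W).symm (1, b) :=
      funext fun b => KRN_jB k W b
    rw [h1]
    exact hsplit.comp (measurable_const.prodMk measurable_id)
  have hsing : Measurable fun a : SL2 (k W) => (Pi.mulSingle W a : GG k) :=
    measurable_update (1 : GG k)
  have hP20 : IsProbabilityMeasure (μB.withDensity σ) := by
    constructor
    rw [hwd, Measure.smul_apply, Measure.restrict_apply_univ, smul_eq_mul,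
      ENNReal.inv_mul_cancel hU0 hU1]
  have hP2 : IsProbabilityMeasure ((μB.withDensity σ).map (jB k W)) :=
    Measure.isProbabilityMeasure_map hjB.aemeasurable
  have hD2 : Dom m S ((μB.withDensity σ).map (jB k W)) :=
    hDOX (GG k) Γ μ m c hQ π hπ _ hP2 S hS'
  -- the density of the first factor
  have hP0 : IsProbabilityMeasure (μA.withDensity τ) := by
    constructor
    rw [withDensity_apply _ MeasurableSet.univ, setLIntegral_univ]
    exact hk.int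
  have hmeas : ∀ N, Measurable ((PP μA τ)^[N] τ) ∧
      IsProbabilityMeasure (μA.withDensity ((PP μA τ)^[N] τ)) := by
    intro N
    induction N with
    | zero => exact ⟨hk.meas, hP0⟩
    | succ N ih =>
      obtain ⟨a1, a2⟩ := ih
      rw [Function.iterate_succ_apply']
      have e := PWR_cv μA hk.meas a1 hk.sym
      refine ⟨PWR_meas μA hk.meas a1, ?_⟩
      rw [← e]
      unfold cv
      exact Measure.isProbabilityMeasure_map (measurable_fst.mul measurable_snd).aemeasurable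
  have hD1 := hPWR ι k L Γ μ m c hQ π hπ W μA hμA τ RR ρ hk T hT n
  obtain ⟨θ, hθ⟩ : ∃ θ, θ = (PP μA τ)^[n] τ := ⟨_, rfl⟩
  have hθm : Measurable θ := by rw [hθ]; exact (hmeas n).1
  have hP10 : IsProbabilityMeasure (μA.withDensity θ) := by rw [hθ]; exact (hmeas n).2
  rw [← hθ] at hD1
  have hP1 : IsProbabilityMeasure ((μA.withDensity θ).map
      fun a => (Pi.mulSingle W a : GG k)) := Measure.isProbabilityMeasure_map hsing.aemeasurable
  have hD := hDMC (GG k) Γ μ m c hQ _ _ _ _ inferInstance inferInstance hD1 hD2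
  rw [q2 θ σ hθm hσm] at hD
  have hD' : Dom m (T ^ (n + 1) * S) (((μA.prod μB).map (splitE k W).symm).withDensity
      (EST_psi W θ σ)) := hD
  have hψ : Measurable (EST_psi W θ σ) := by
    have hB : Measurable fun g : GG k => (fun i => g i.1 : BB k W) :=
      measurable_pi_lambda _ fun i => measurable_pi_apply i.1
    exact (hθm.comp (measurable_pi_apply W)).mul (hσm.comp hB)
  -- the numbers
  obtain ⟨Y, hYd⟩ : ∃ Y : ℝ, Y = (2 ^ (L W).e * RR) ^ (2 * n + 2) := ⟨_, rfl⟩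
  rw [← hYd] at hY
  have hY1 : 1 ≤ Y := by
    rw [hYd]
    apply one_le_pow₀
    exact one_le_mul_of_one_le_of_one_le (one_le_pow₀ (by norm_num)) hk.one_le
  have hQ1 : 1 ≤ ((8 * δ) ^ (L v).e)⁻¹ := by
    rw [one_le_inv₀ (by positivity)]
    exact pow_le_one₀ (by positivity) (by linarith)
  have hYQ : Y ^ 5 ≤ 8 ^ 22 * (((8 * δ) ^ (L v).e)⁻¹) ^ 11 := by
    rw [inv_pow, ← div_eq_mul_inv, le_div_iff₀ (by positivity)]
    have e1 : ((8 * δ) ^ (L v).e) ^ 11 = ((8 : ℝ) ^ (L v).e) ^ 11 * (δ ^ (L v).e) ^ 11 := by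
      rw [mul_pow, mul_pow]
    have e2 : ((8 : ℝ) ^ (L v).e) ^ 11 ≤ 8 ^ 22 := by
      rcases (L v).he with h | h <;> rw [h] <;> norm_num
    calc Y ^ 5 * ((8 * δ) ^ (L v).e) ^ 11 =
          ((8 : ℝ) ^ (L v).e) ^ 11 * (Y ^ 5 * (δ ^ (L v).e) ^ 11) := by rw [e1]; ring
      _ ≤ ((8 : ℝ) ^ (L v).e) ^ 11 * 1 := mul_le_mul_of_nonneg_left hY (by positivity)
      _ ≤ 8 ^ 22 := by rw [mul_one]; exact e2
  obtain ⟨B, hB⟩ : ∃ B, B = ENNReal.ofReal CS *
      (ENNReal.ofReal (Ct * ρ ^ (2 * n + 1)) * (μB (UU k W v r δ))⁻¹) := ⟨_, rfl⟩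
  have hBt : B ≠ ∞ := by
    rw [hB]
    exact ENNReal.mul_ne_top ENNReal.ofReal_ne_top
      (ENNReal.mul_ne_top ENNReal.ofReal_ne_top (ENNReal.inv_ne_top.2 hU0))
  have key : ∀ g : GG k, ∑' γ : Γ, ∫⁻ u, EST_psi W θ σ u *
      EST_psi W θ σ (g * γ * g⁻¹ * u) ∂((μA.prod μB).map (splitE k W).symm) ≤ B := by
    intro g
    obtain ⟨γ₀, hγ₀, hg⟩ := hR0 g
    have e1 := EST_conj Γ (fun z => ∫⁻ u, EST_psi W θ σ u * EST_psi W θ σ (z * u)
      ∂((μA.prod μB).map (splitE k W).symm)) g ⟨γ₀, hγ₀⟩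
    refine le_trans (le_of_eq e1) ?_
    obtain ⟨g', hg'⟩ : ∃ g', g' = g * γ₀ := ⟨_, rfl⟩
    have hg1 : ∀ i, nm (g' i) ≤ R := fun i => by
      rw [hg']
      exact (hg i).trans hR1
    change ∑' γ : Γ, (∫⁻ u, EST_psi W θ σ u * EST_psi W θ σ ((g * γ₀) * γ * (g * γ₀)⁻¹ * u)
      ∂((μA.prod μB).map (splitE k W).symm)) ≤ B
    rw [← hg']
    have e2 : ∀ γ : Γ, (∫⁻ u, EST_psi W θ σ u * EST_psi W θ σ (g' * γ * g'⁻¹ * u)
        ∂((μA.prod μB).map (splitE k W).symm)) ≤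
        (cs L Γ W v R g' ((8 * δ) ^ (L v).e)⁻¹ Y).indicator
          (fun γ => ENNReal.ofReal ((nm ((g' * γ * g'⁻¹ : GG k) W) ^ (L W).e)⁻¹)) γ *
        (ENNReal.ofReal (Ct * ρ ^ (2 * n + 1)) * (μB (UU k W v r δ))⁻¹) := by
      intro γ
      rw [EST_int W μA μB θ σ hθm hσm]
      have e3 : ∫⁻ a, θ a * θ ((g' * γ * g'⁻¹ : GG k) W * a) ∂μA =
          (PP μA τ)^[2 * n + 1] τ ((g' * γ * g'⁻¹ : GG k) W) := by
        rw [hθ]
        exact hPPI (k W) (L W) μA hμA τ RR ρ hk n _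
      rw [e3, hσ]
      refine EST_term hWv L μB ((PP μA τ)^[2 * n + 1] τ) _ Y ?_ ?_ δ r R hδ hδr hr hR2 hU0 hU1
        Γ g' γ
      · intro z
        refine le_trans (hτ (2 * n + 1) z).1 (le_of_eq ?_)
        rw [ENNReal.ofReal_mul (by positivity)]
      · intro z hz
        rw [hYd]
        exact (hτ (2 * n + 1) z).2 hz
    refine le_trans (ENNReal.tsum_le_tsum e2) ?_
    rw [ENNReal.tsum_mul_right, hB]
    exact mul_le_mul' (hS g' hg1 _ Y hQ1 hY1 hYQ) le_rfl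
  have hfin := hBSB (GG k) Γ _ m c' hQ' (EST_psi W θ σ) hψ B hBt key (T ^ (n + 1) * S) hD' J f Λ
    hΛ hf
  refine EST_num _ c'.toReal CS Ct cV ρ δ Λ n (L v).e ?_ hδ hcV hc'0 hCS.le hCt hρ hΛ
  rw [← ENNReal.ofReal_le_ofReal_iff (by positivity), ENNReal.ofReal_sum_of_nonneg
    (fun j _ => by positivity)]
  refine le_trans hfin ?_
  rw [ENNReal.ofReal_mul (by positivity), ENNReal.ofReal_mul (by positivity),
    ENNReal.ofReal_mul (by positivity), ENNReal.ofReal_mul (by positivity),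
    ENNReal.ofReal_toReal hQ'.ne, hB]
  refine mul_le_mul' (mul_le_mul' le_rfl (mul_le_mul' le_rfl (mul_le_mul' le_rfl ?_))) le_rfl
  rw [ENNReal.ofReal_inv_of_pos (by positivity)]
  exact ENNReal.inv_le_inv.2 hV1

end Pool.PQ
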