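import Pool.Agent.Work.MP_972ac7_Q.Interface2
import Pool.Agent.Work.MP_972ac7_P.B_DEN

set_option autoImplicit false

/-! # THEOREM PP, part II: block FBG, finitely many elements of bounded size and denominator -/

open MeasureTheory NumberField IsDedekindDomain
open scoped Quaternion ENNReal

noncomputable section

namespace Pool.PQ

open Pool.PL Pool.TFD Pool.TC

theorem p_FBG (hPFG : Stmt_PFG) : Stmt_FBG := by
  classical
  intro F _ _ n C hn
  obtain ⟨-, -, hint, hfin⟩ := hPFG F
  obtain ⟨c, hc0, hc⟩ := Pool.PL.p_DEN F (hfin n hn).toFinset C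
  have hcF : (c : F) ≠ 0 := by
    intro h
    exact hc0 (NumberField.RingOfIntegers.coe_eq_zero_iff.1 h)
  obtain ⟨B, hB⟩ : ∃ B : ℝ, B = ∑ w : InfinitePlace F, w (c : F) * |C| := ⟨_, rfl⟩
  have hfinite := NumberField.Embeddings.finite_of_norm_le F ℂ B
  refine Set.Finite.subset (hfinite.preimage
    (f := fun δ : F => (c : F) * δ) ?_) ?_
  · intro x _ y _ h
    exact mul_left_cancel₀ hcF h
  · rintro δ ⟨h1, h2, h3⟩
    have h4 : ∀ w : HeightOneSpectrum (𝓞 F), av w ((c : F) * δ) ≤ 1 := by
      intro w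
      rw [av_mul]
      by_cases hw : n ∈ w.asIdeal
      · have h5 := hc w ((hfin n hn).mem_toFinset.2 hw)
        exact le_trans (mul_le_mul_of_nonneg_left (h2 w) (av_nonneg w _)) h5
      · calc av w (c : F) * av w δ ≤ 1 * 1 :=
            mul_le_mul (av_int w c) (h1 w hw) (av_nonneg w _) zero_le_one
          _ = 1 := one_mul 1
    obtain ⟨z, hz⟩ := hint _ h4
    refine ⟨?_, fun φ => ?_⟩
    · change IsIntegral ℤ ((c : F) * δ)
      rw [← hz]
      exact z.isIntegral_coe
    · change ‖φ ((c : F) * δ)‖ ≤ B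
      rw [← InfinitePlace.apply φ, map_mul, hB]
      calc InfinitePlace.mk φ (c : F) * InfinitePlace.mk φ δ
          ≤ InfinitePlace.mk φ (c : F) * |C| :=
            mul_le_mul_of_nonneg_left (le_trans (h3 _) (le_abs_self C)) (apply_nonneg _ _)
        _ ≤ _ := Finset.single_le_sum
            (f := fun w : InfinitePlace F => w (c : F) * |C|)
            (fun w _ => mul_nonneg (apply_nonneg w _) (abs_nonneg _)) (Finset.mem_univ _)

end Pool.PQ
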