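import Pool.Agent.Work.MP_972ac7_Q.Interface1
import Pool.Agent.Work.MP_972ac7_P.B_FIN

set_option autoImplicit false

/-! # THEOREM PP, part I: block FNQ -/

open MeasureTheory
open scoped ENNReal

noncomputable section

namespace Pool.PQ

open Pool.PL Pool.TFD Pool.TC

/-- the norm in `L²` -/
theorem FNQ_norm {X : Type} [MeasurableSpace X] (m : Measure X) (f : Lp ℂ 2 m) :
    ‖f‖ ^ 2 = ∫ x, ‖f x‖ ^ 2 ∂m := by
  have h1 : (inner ℂ f f : ℂ) = ((‖f‖ : ℝ) : ℂ) ^ 2 := inner_self_eq_norm_sq_to_K f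
  rw [L2.inner_def] at h1
  have h2 : ∀ x, (inner ℂ (f x) (f x) : ℂ) = ((‖f x‖ ^ 2 : ℝ) : ℂ) := by
    intro x
    rw [inner_self_eq_norm_sq_to_K]
    push_cast
    rfl
  simp_rw [h2] at h1
  rw [integral_complex_ofReal] at h1
  have h3 : ((∫ x, ‖f x‖ ^ 2 ∂m : ℝ) : ℂ) = ((‖f‖ ^ 2 : ℝ) : ℂ) := by
    rw [h1]
    push_cast
    rfl
  exact (Complex.ofReal_injective h3).symm

/-- translates in `L²` -/
theorem FNQ_trans {G : Type} [Group G] [TopologicalSpace G] [MeasurableSpace G]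
    {Γ : Subgroup G} {μ : Measure G} {m : Measure (G ⧸ Γ)} {c : ℝ≥0∞} (hQ : QD Γ μ m c)
    {π : G →* (Lp ℂ 2 m ≃ₗᵢ[ℂ] Lp ℂ 2 m)} (hK : KP m π) (φ : G ⧸ Γ → ℂ) (hφ : MemLp φ 2 m)
    (g : G) : ‖π g hφ.toLp - hφ.toLp‖ ^ 2 = ∫ x, ‖φ (g⁻¹ • x) - φ x‖ ^ 2 ∂m := by
  rw [FNQ_norm]
  refine integral_congr_ae ?_
  have h1 := Lp.coeFn_sub (π g hφ.toLp) hφ.toLp
  have h2 := hK.ae g hφ.toLp
  have h3 := hφ.coeFn_toLp
  have h4 : (fun x => (hφ.toLp : G ⧸ Γ → ℂ) (g⁻¹ • x)) =ᵐ[m] fun x => φ (g⁻¹ • x) :=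
    (hQ.pres g⁻¹).quasiMeasurePreserving.ae_eq_comp h3
  filter_upwards [h1, h2, h3, h4] with x e1 e2 e3 e4
  rw [e1, Pi.sub_apply, e2, e3, e4]

theorem FNQ_norm' {G : Type} [Group G] [MeasurableSpace G]
    {Γ : Subgroup G} {m : Measure (G ⧸ Γ)} (φ : G ⧸ Γ → ℂ) (hφ : MemLp φ 2 m) :
    ‖hφ.toLp‖ ^ 2 = ∫ x, ‖φ x‖ ^ 2 ∂m := by
  rw [FNQ_norm]
  refine integral_congr_ae ?_
  filter_upwards [hφ.coeFn_toLp] with x e
  rw [e]

theorem p_FNQ (hTG2 : Stmt_TG2) (hTP2 : Stmt_TP2) (hUN2 : Stmt_UN2) (hCTG : Stmt_CTG)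
    (hDS2 : Stmt_DS2) (hQMS : Stmt_QMS) (hKPX : Stmt_KPX) (hGPQ : Stmt_GPQ)
    (hDNQ : Stmt_DNQ) : Stmt_FNQ := by
  intro ι _ _ k _ _ L Γ hι hΓ
  obtain ⟨W, P, hWP⟩ := hι.exists_pair_ne
  -- topology
  obtain ⟨a1, a2, a3, a4, a5, a6⟩ := hTP2 (k P)
  obtain ⟨b1, b2, b3, b4, b5, b6, b7⟩ := hTG2 {i : ι // i ≠ P} (fun i => k i.1)
  obtain ⟨c1, c2, c3, c4, c5, c6, c7⟩ := hTG2 ι k
  have hdisc : DiscreteTopology Γ := hDS2 ι k L Γ hι hΓ
  obtain ⟨R, hR⟩ := hΓ.cpt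
  let μ : Measure (GG k) := Measure.haar
  have hμ : μ.IsHaarMeasure := inferInstance
  obtain ⟨hr, hi⟩ := hUN2.2 ι k L μ hμ
  obtain ⟨m, c, hQD⟩ := hQMS (GG k) Γ μ {g : GG k | ∀ i, nm (g i) ≤ R} hμ hr hi hdisc (c5 R) hR
  obtain ⟨π, hπ⟩ := hKPX (GG k) Γ μ m c hQD
  obtain ⟨K, hK, δ, hδ, hgap⟩ := hGPQ ι k L Γ hΓ μ m c hQD π hπ W P hWP
  have hdns := hDNQ ι k L Γ hΓ μ m c hQD π hπ P
  have hm : IsProbabilityMeasure m := hQD.prob
  have hinv := hQD.pres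
  have hA : ContrGen (SL2 (k P)) := hCTG.1 (k P) (L P)
  have hB : ContrGen (GG fun i : {i : ι // i ≠ P} => k i.1) :=
    hCTG.2 {i : ι // i ≠ P} (fun i => k i.1) (fun i => L i.1)
  set E := splitE k P with hEdef
  have hEc : Continuous E := FIN_contE k P
  have hEc' : Continuous E.symm := FIN_contE' k P
  have hEm : Measurable E := FIN_measE k P
  have hEm' : Measurable E.symm := FIN_measE' k P
  let Γ' : Subgroup (SL2 (k P) × GG (fun i : {i : ι // i ≠ P} => k i.1)) :=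
    Γ.map E.toMonoidHom
  have hΓ' : ∀ x, E x ∈ Γ' ↔ x ∈ Γ := by
    intro x
    constructor
    · rintro ⟨y, hy, hyx⟩
      have : y = x := E.injective hyx
      rwa [← this]
    · intro hx
      exact ⟨x, hx, rfl⟩
  have hΓs : ∀ y ∈ Γ', E.symm y ∈ Γ := by
    intro y hy
    apply (hΓ' _).1
    rwa [E.apply_symm_apply]
  let Q := FIN_q E hEm hEm' Γ Γ' hΓ'
  let m' : Measure ((SL2 (k P) × GG (fun i : {i : ι // i ≠ P} => k i.1)) ⧸ Γ') := m.map Q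
  have hQm : MeasurePreserving Q m m' := ⟨Q.measurable, rfl⟩
  have hm' : IsProbabilityMeasure m' := Measure.isProbabilityMeasure_map Q.measurable.aemeasurable
  have hdisc' : DiscreteTopology Γ' := by
    have hc : Continuous fun y : Γ' => (⟨E.symm y.1, hΓs y.1 y.2⟩ : Γ) :=
      Continuous.subtype_mk (hEc'.comp continuous_subtype_val) _
    refine DiscreteTopology.of_continuous_injective hc ?_
    intro y z hyz
    apply Subtype.ext
    exact E.symm.injective (congrArg Subtype.val hyz)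
  have hinv' : ∀ g : SL2 (k P) × GG (fun i : {i : ι // i ≠ P} => k i.1),
      MeasurePreserving (fun x => g • x) m' m' := by
    intro g
    refine FIN_inv E hEm hEm' Γ Γ' hΓ' m hinv ?_ g
    intro g'
    apply FIN_meas
    intro g
    exact measurable_const_mul g
  have hdns' : Dense (Set.range fun γ : Γ' =>
      (γ : SL2 (k P) × GG (fun i : {i : ι // i ≠ P} => k i.1)).2) := by
    refine hdns.mono ?_
    rintro _ ⟨γ, rfl⟩
    exact ⟨⟨E γ, (hΓ' _).2 γ.2⟩, rfl⟩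
  have hms : Continuous (fun a : SL2 (k W) => (Pi.mulSingle W a : GG k)) :=
    continuous_mulSingle (A := fun i => SL2 (k i)) W
  have hgap' : StrongGap Γ' m' := by
    refine ⟨(fun a : SL2 (k W) => (E (Pi.mulSingle W a)).2) '' K,
      hK.image ((continuous_snd.comp hEc).comp hms), δ, hδ, ?_⟩
    intro φ hφ hφ0
    have h3 : MemLp (φ ∘ Q) 2 m := hφ.comp_measurePreserving hQm
    have h4 : ∫ x, (φ ∘ Q) x ∂m = 0 := by
      rw [← hφ0]
      exact hQm.integral_comp' φ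
    have h4' : ∫ x, (MemLp.toLp (φ ∘ Q) h3 : Lp ℂ 2 m) x ∂m = 0 := by
      rw [← h4]
      exact integral_congr_ae h3.coeFn_toLp
    obtain ⟨a, ha, hle⟩ := hgap (MemLp.toLp (φ ∘ Q) h3) h4'
    refine ⟨(E (Pi.mulSingle W a)).2, ⟨a, ha, rfl⟩, ?_⟩
    have haP : (Pi.mulSingle W a : GG k) P = 1 := Pi.mulSingle_eq_of_ne hWP.symm _
    have h5 : ((1, (E (Pi.mulSingle W a)).2) :
        SL2 (k P) × GG (fun i : {i : ι // i ≠ P} => k i.1)) = E (Pi.mulSingle W a) := by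
      apply Prod.ext
      · exact haP.symm
      · rfl
    rw [h5]
    have h6 := hQm.integral_comp' (fun x => ‖φ ((E (Pi.mulSingle W a))⁻¹ • x) - φ x‖ ^ 2)
    have h7 : ∫ x, ‖φ x‖ ^ 2 ∂m' = ‖MemLp.toLp (φ ∘ Q) h3‖ ^ 2 := by
      rw [FNQ_norm']
      exact (hQm.integral_comp' (fun x => ‖φ x‖ ^ 2)).symm
    have h8 : ∫ x, ‖φ ((E (Pi.mulSingle W a))⁻¹ • x) - φ x‖ ^ 2 ∂m' =
        ‖π (Pi.mulSingle W a) (MemLp.toLp (φ ∘ Q) h3) - MemLp.toLp (φ ∘ Q) h3‖ ^ 2 := by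
      rw [FNQ_trans hQD hπ, ← h6]
      congr 1
      funext x
      simp only [Function.comp_apply]
      rw [FIN_smul, map_inv]
    rw [h7, h8, ← mul_pow]
    exact pow_le_pow_left₀ (mul_nonneg hδ.le (norm_nonneg _)) hle 2
  let e : Γ ≃* Γ' := MulEquiv.subgroupMap E Γ
  have h := allC _ _ Γ' m' hdisc' hm' hinv' hdns' hA hB hgap' Γ ⊤
    (e.symm.toMonoidHom.comp (⊤ : Subgroup Γ').subtype) inferInstance (by
      have : (e.symm.toMonoidHom.comp (⊤ : Subgroup Γ').subtype).range = ⊤ := by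
        rw [MonoidHom.range_eq_top]
        intro γ
        exact ⟨⟨e γ, trivial⟩, e.symm_apply_apply γ⟩
      rw [this]
      infer_instance)
  exact h.1

end Pool.PQ
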