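import Pool.Agent.Work.MP_972ac7_Q.Interface1
import Pool.Agent.Work.MP_972ac7_P.B_GEN

set_option autoImplicit false

namespace Pool.PQ

open Pool.PL Pool.TFD Pool.TC

theorem p_GN2 : Stmt_GN2 := by
  intro k _ H hu hl
  exact GEN_gauss H hu hl

end Pool.PQ
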