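import Pool.Agent.Work.MP_972ac7_Q.Interface1

set_option autoImplicit false

/-! # THEOREM PP, block GPQ (helper68): the strong gap -/

open MeasureTheory
open scoped ENNReal

noncomputable section

namespace Pool.PQ

open Pool.PL Pool.TFD Pool.TC

/-- the measure with the Hecke density is symmetric -/
theorem GPQ_sym {k : Type} [NormedField k] {L : LG k} {μ : Measure (SL2 k)}
    (hinv : μ.IsInvInvariant) {τ : SL2 k → ℝ≥0∞} {R ρ : ℝ} (h : Hk L μ τ R ρ) :
    (μ.withDensity τ).map (fun a => a⁻¹) = μ.withDensity τ := by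
  ext s hs
  rw [Measure.map_apply measurable_inv hs, withDensity_apply _ (measurable_inv hs),
    withDensity_apply _ hs]
  have hmp : MeasurePreserving (fun a : SL2 k => a⁻¹) μ μ := Measure.measurePreserving_inv μ
  have h1 := hmp.setLIntegral_comp_preimage hs h.meas
  simp only [h.sym] at h1
  exact h1

theorem GPQ_prob {k : Type} [NormedField k] {L : LG k} {μ : Measure (SL2 k)}
    {τ : SL2 k → ℝ≥0∞} {R ρ : ℝ} (h : Hk L μ τ R ρ) :
    IsProbabilityMeasure (μ.withDensity τ) :=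
  ⟨by rw [withDensity_apply _ MeasurableSet.univ, Measure.restrict_univ]; exact h.int⟩

/-- the constant function is fixed -/
theorem GPQ_one {G : Type} [Group G] [TopologicalSpace G] [MeasurableSpace G] {Γ : Subgroup G}
    {m : Measure (G ⧸ Γ)} [IsProbabilityMeasure m] (hp : ∀ g : G,
      MeasurePreserving (fun x : G ⧸ Γ => g • x) m m)
    {π : G →* (Lp ℂ 2 m ≃ₗᵢ[ℂ] Lp ℂ 2 m)} (hπ : KP m π) (g : G) :
    π g (Lp.const 2 m (1 : ℂ)) = Lp.const 2 m (1 : ℂ) := by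
  have hc : ⇑(Lp.const 2 m (1 : ℂ)) =ᵐ[m] fun _ => (1 : ℂ) := Lp.coeFn_const ..
  refine Lp.ext ((hπ.ae g _).trans ?_)
  have h1 := (hp g⁻¹).quasiMeasurePreserving.ae_eq_comp hc
  exact h1.trans hc.symm

theorem GPQ_int {X : Type} [MeasurableSpace X] {m : Measure X} [IsProbabilityMeasure m]
    (f : Lp ℂ 2 m) : (inner ℂ (Lp.const 2 m (1 : ℂ)) f : ℂ) = ∫ x, f x ∂m := by
  have hc : ⇑(Lp.const 2 m (1 : ℂ)) =ᵐ[m] fun _ => (1 : ℂ) := Lp.coeFn_const ..
  rw [L2.inner_def]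
  refine integral_congr_ae ?_
  filter_upwards [hc] with x hx
  rw [hx]
  simp

theorem p_GPQ (hTG2 : Stmt_TG2) (hTP2 : Stmt_TP2) (hUN2 : Stmt_UN2) (hWIX : Stmt_WIX)
    (hWIP : Stmt_WIP) (hCFC : Stmt_CFC) (hCST : Stmt_CST) (hTRV : Stmt_TRV) (hHKX : Stmt_HKX)
    (hERQ : Stmt_ERQ) : Stmt_GPQ := by
  intro ι _ _ k _ _ L Γ hLat μ m c hQD π hπ W v hWv
  obtain ⟨hlc, hsc, ht2, hbs, -, -, -⟩ := hTG2 ι k
  obtain ⟨hlcW, hscW, ht2W, hcpt, -, -⟩ := hTP2 (k W)
  have hprob := hQD.prob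
  -- the Haar measure
  obtain ⟨μA, hμA⟩ : ∃ μA : Measure (SL2 (k W)), μA.IsHaarMeasure := ⟨Measure.haar, inferInstance⟩
  obtain ⟨-, hinv⟩ := hUN2.1 (k W) (L W) μA hμA
  obtain ⟨τ, RR, ρ, hk⟩ := hHKX (k W) (L W) μA hμA
  have hp := GPQ_prob hk
  have hms : Measurable (fun a : SL2 (k W) => (Pi.mulSingle W a : GG k)) :=
    (continuous_mulSingle W).measurable
  set ν : Measure (GG k) := (μA.withDensity τ).map fun a => (Pi.mulSingle W a : GG k) with hν
  have hνp : IsProbabilityMeasure ν := Measure.isProbabilityMeasure_map hms.aemeasurable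
  have hνs : ν.map (fun g => g⁻¹) = ν := by
    have e : ((fun g : GG k => g⁻¹) ∘ fun a : SL2 (k W) => (Pi.mulSingle W a : GG k)) =
        (fun a : SL2 (k W) => (Pi.mulSingle W a : GG k)) ∘ fun a => a⁻¹ := by
      funext a
      exact (Pi.mulSingle_inv (f := fun i => SL2 (k i)) W a).symm
    rw [hν, Measure.map_map measurable_inv hms, e, ← Measure.map_map hms measurable_inv,
      GPQ_sym hinv hk]
  obtain ⟨T, hT⟩ := hWIX (GG k) (Lp ℂ 2 m) π hπ.cont ν hνp
  obtain ⟨hT1, -, hTn, hTs⟩ := hWIP (GG k) (Lp ℂ 2 m) π hπ.cont ν hνp T hT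
  obtain ⟨χ, hχs, hχc, hχg, hχf, hχ0⟩ := hCFC (Lp ℂ 2 m) T (hTs hνs) hT1
  have htriv := hTRV ι k L Γ hLat μ m c hQD π hπ W v hWv μA hμA τ RR ρ hk T hT χ hχc hχg
  -- the constant function
  set one : Lp ℂ 2 m := Lp.const 2 m (1 : ℂ) with hone
  have hπ1 : ∀ g, π g one = one := fun g => GPQ_one hQD.pres hπ g
  have hT1 : T one = one := by
    have h1 := hTn one 0 (Filter.Eventually.of_forall fun g => by rw [hπ1 g]; simp)
    exact sub_eq_zero.1 (norm_le_zero_iff.1 h1)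
  have hχ1 : χ one = one := hχf one hT1
  -- `χ f = 0`
  have hz : ∀ f : Lp ℂ 2 m, ∫ x, f x ∂m = 0 → χ f = 0 := by
    intro f hf
    have h1 := hERQ ι k L Γ hLat μ m c hQD π hπ v (χ f) (fun a => htriv f a)
    obtain ⟨z, hz⟩ := hCST (GG k) Γ μ m c hQD π hπ (χ f) h1
    have h2 : (inner ℂ one (χ f) : ℂ) = z := by
      rw [hone, GPQ_int, integral_congr_ae hz]
      simp
    have h3 : (inner ℂ one (χ f) : ℂ) = inner ℂ (χ one) f := by
      have h4 := ContinuousLinearMap.adjoint_inner_left χ f one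
      have h5 : ContinuousLinearMap.adjoint χ = χ := hχs
      rw [h5] at h4
      exact h4.symm
    have h6 : (inner ℂ one f : ℂ) = 0 := by
      rw [hone, GPQ_int, hf]
    rw [hχ1, h2, h6] at h3
    rw [h3] at hz
    exact (Lp.eq_zero_iff_ae_eq_zero).2 hz
  refine ⟨{a : SL2 (k W) | nm a ≤ RR}, hcpt RR, 1 / 5, by norm_num, fun f hf => ?_⟩
  by_contra hcon
  push Not at hcon
  have hsupp : ∀ a : SL2 (k W), τ a ≠ 0 → nm a ≤ RR := by
    intro a ha
    have h1 := hk.supp a ha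
    by_cases h2 : nm a ≤ 1
    · exact h2.trans hk.one_le
    · push Not at h2
      have he : 1 ≤ (L W).e := by rcases (L W).he with h | h <;> omega
      exact (le_self_pow₀ h2.le (by omega)).trans h1
  have hae : ∀ᵐ g ∂ν, ‖π g f - f‖ ≤ 1 / 5 * ‖f‖ := by
    have hcl : MeasurableSet {g : GG k | ‖π g f - f‖ ≤ 1 / 5 * ‖f‖} := by
      have : IsClosed {g : GG k | ‖π g f - f‖ ≤ 1 / 5 * ‖f‖} :=
        isClosed_le (((hπ.cont f).sub continuous_const).norm) continuous_const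
      exact this.measurableSet
    rw [hν, ae_map_iff hms.aemeasurable hcl, ae_withDensity_iff hk.meas]
    exact Filter.Eventually.of_forall fun a ha => (hcon a (hsupp a ha)).le
  have h1 := hTn f _ hae
  have h2 := hχ0 f (hz f hf)
  have hf0 : 0 < ‖f‖ := by
    have h3 := hcon 1 (by
      have : nm (1 : SL2 (k W)) ≤ 1 := by
        unfold nm
        rw [mnm_le]
        intro i j
        fin_cases i <;> fin_cases j <;> simp
      exact this.trans hk.one_le)
    have h4 : 0 ≤ ‖π (Pi.mulSingle W (1 : SL2 (k W)) : GG k) f - f‖ := norm_nonneg _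
    linarith
  have h5 : (inner ℂ (T f) f : ℂ).re = ‖f‖ ^ 2 + (inner ℂ (T f - f) f : ℂ).re := by
    have h6 : (inner ℂ (T f) f : ℂ) = inner ℂ f f + inner ℂ (T f - f) f := by
      rw [← inner_add_left, add_sub_cancel]
    rw [h6, Complex.add_re]
    congr 1
    have := inner_self_eq_norm_sq (𝕜 := ℂ) f
    exact this
  have h7 : |(inner ℂ (T f - f) f : ℂ).re| ≤ ‖T f - f‖ * ‖f‖ :=
    (Complex.abs_re_le_norm _).trans (norm_inner_le_norm _ _)
  have h8 : ‖T f - f‖ * ‖f‖ ≤ 1 / 5 * ‖f‖ * ‖f‖ := mul_le_mul_of_nonneg_right h1 (norm_nonneg _)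
  have h9 := (abs_le.1 h7).1
  rw [h5] at h2
  nlinarith

end Pool.PQ
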