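import Pool.Agent.Work.MP_972ac7_Q.Interface1

set_option autoImplicit false

/-! # GRM: truncation of the Gram matrix at the level `Λ` -/

namespace Pool.PQ

open Pool.PL Pool.TFD Pool.TC

open scoped ComplexConjugate
open Matrix

theorem GRM_key {H : Type} [NormedAddCommGroup H] [InnerProductSpace ℂ H] {J : ℕ}
    (g : Fin J → H) (l : Fin J → ℝ)
    (hg : ∀ a b, inner ℂ (g a) (g b) = if a = b then (l a : ℂ) else 0) (w : Fin J → ℂ) :
    ‖∑ a, w a • g a‖ ^ 2 = ∑ a, ‖w a‖ ^ 2 * l a := by
  have h1 : ((‖∑ a, w a • g a‖ ^ 2 : ℝ) : ℂ) = ((∑ a, ‖w a‖ ^ 2 * l a : ℝ) : ℂ) := by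
    have h2 := inner_self_eq_norm_sq_to_K (𝕜 := ℂ) (∑ a, w a • g a)
    have h3 : ((‖∑ a, w a • g a‖ ^ 2 : ℝ) : ℂ) = inner ℂ (∑ a, w a • g a) (∑ a, w a • g a) := by
      rw [h2]; push_cast; rfl
    rw [h3, sum_inner]
    simp only [inner_sum, inner_smul_left, inner_smul_right, hg]
    push_cast
    refine Finset.sum_congr rfl fun a _ => ?_
    rw [Finset.sum_eq_single a]
    · rw [if_pos rfl, ← Complex.conj_mul']
      ring
    · intro b _ hb
      rw [if_neg (Ne.symm hb)]
      ring
    · intro h
      exact absurd (Finset.mem_univ a) h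
  exact_mod_cast h1

theorem GRM_pars {J : ℕ} (U : Matrix (Fin J) (Fin J) ℂ) (hU : U * star U = 1)
    (c : Fin J → ℂ) : ∑ a, ‖∑ j, c j * star (U j a)‖ ^ 2 = ∑ j, ‖c j‖ ^ 2 := by
  have h1 : ((∑ a, ‖∑ j, c j * star (U j a)‖ ^ 2 : ℝ) : ℂ) = ((∑ j, ‖c j‖ ^ 2 : ℝ) : ℂ) := by
    push_cast
    simp only [← Complex.conj_mul']
    simp only [map_sum, map_mul, Finset.sum_mul, Finset.mul_sum]
    rw [Finset.sum_comm]
    refine Finset.sum_congr rfl fun i _ => ?_
    rw [Finset.sum_comm]
    rw [Finset.sum_eq_single i]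
    · have h2 : ∑ a, U i a * star (U i a) = 1 := by
        have := congrFun (congrFun hU i) i
        simpa [Matrix.mul_apply, Matrix.star_apply] using this
      calc _ = conj (c i) * c i * ∑ a, U i a * star (U i a) := by
            rw [Finset.mul_sum]
            refine Finset.sum_congr rfl fun a _ => ?_
            simp only [Complex.star_def, Complex.conj_conj]
            ring
        _ = _ := by rw [h2, mul_one]
    · intro j _ hj
      have h2 : ∑ a, U j a * star (U i a) = 0 := by
        have := congrFun (congrFun hU j) i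
        rw [Matrix.one_apply_ne hj] at this
        simpa [Matrix.mul_apply, Matrix.star_apply] using this
      calc _ = conj (c j) * c i * ∑ a, U j a * star (U i a) := by
            rw [Finset.mul_sum]
            refine Finset.sum_congr rfl fun a _ => ?_
            simp only [Complex.star_def, Complex.conj_conj]
            ring
        _ = _ := by rw [h2, mul_zero]
    · intro h
      exact absurd (Finset.mem_univ i) h
  exact_mod_cast h1

/-- the eigenvectors as combinations of the vectors -/
theorem GRM_diag {H : Type} [NormedAddCommGroup H] [InnerProductSpace ℂ H] {J : ℕ}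
    (f : Fin J → H) : ∃ (U : Matrix (Fin J) (Fin J) ℂ) (l : Fin J → ℝ),
      U * star U = 1 ∧ star U * U = 1 ∧
      star U * Matrix.gram ℂ f * U = Matrix.diagonal (fun a => (l a : ℂ)) := by
  have hA := Matrix.isHermitian_gram (𝕜 := ℂ) (v := f)
  refine ⟨(hA.eigenvectorUnitary : Matrix (Fin J) (Fin J) ℂ), hA.eigenvalues,
    Unitary.coe_mul_star_self _, Unitary.coe_star_mul_self _, ?_⟩
  have h1 := hA.conjStarAlgAut_star_eigenvectorUnitary
  rw [Unitary.conjStarAlgAut_apply] at h1
  simpa [Function.comp_def] using h1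

theorem p_GRM : Stmt_GRM := by
  intro H _ _ J f Λ hΛ hsum
  obtain ⟨U, l, hU1, hU2, hD⟩ := GRM_diag f
  set g : Fin J → H := fun a => ∑ i, U i a • f i with hgdef
  have hg : ∀ a b, inner ℂ (g a) (g b) = if a = b then (l a : ℂ) else 0 := by
    intro a b
    have h1 : (star U * Matrix.gram ℂ f * U) a b = inner ℂ (g a) (g b) := by
      simp only [hgdef, sum_inner, inner_sum, inner_smul_left, inner_smul_right]
      rw [Matrix.mul_apply]
      simp only [Matrix.mul_apply, Finset.sum_mul, Matrix.star_apply, Matrix.gram_apply]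
      refine Finset.sum_congr rfl fun i _ => ?_
      rw [Finset.mul_sum]
      refine Finset.sum_congr rfl fun j _ => ?_
      simp only [Complex.star_def]
      ring
    rw [← h1, hD, Matrix.diagonal_apply]
  have hl : ∀ a, l a = ‖g a‖ ^ 2 := by
    intro a
    have h1 := hg a a
    rw [if_pos rfl, inner_self_eq_norm_sq_to_K] at h1
    have h2 : ((‖g a‖ ^ 2 : ℝ) : ℂ) = ((l a : ℝ) : ℂ) := by
      rw [← h1]; push_cast; rfl
    exact_mod_cast h2.symm
  have hl0 : ∀ a, 0 ≤ l a := fun a => by rw [hl a]; positivity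
  have hf : ∀ j, f j = ∑ a, star (U j a) • g a := by
    intro j
    simp only [hgdef, Finset.smul_sum, smul_smul]
    rw [Finset.sum_comm]
    simp only [← Finset.sum_smul]
    rw [Finset.sum_eq_single j]
    · have h2 : ∑ a, star (U j a) * U j a = 1 := by
        have := congrFun (congrFun hU1 j) j
        rw [Matrix.mul_apply, Matrix.one_apply_eq] at this
        rw [← this]
        refine Finset.sum_congr rfl fun a _ => ?_
        rw [Matrix.star_apply, mul_comm]
      rw [h2, one_smul]
    · intro i _ hi
      have h2 : ∑ a, star (U j a) * U i a = 0 := by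
        have := congrFun (congrFun hU1 i) j
        rw [Matrix.mul_apply, Matrix.one_apply_ne hi] at this
        rw [← this]
        refine Finset.sum_congr rfl fun a _ => ?_
        rw [Matrix.star_apply, mul_comm]
      rw [h2, zero_smul]
    · intro h
      exact absurd (Finset.mem_univ j) h
  have hcol : ∀ a, ∑ j, ‖U j a‖ ^ 2 = 1 := by
    intro a
    have h1 : ((∑ j, ‖U j a‖ ^ 2 : ℝ) : ℂ) = ((1 : ℝ) : ℂ) := by
      push_cast
      have := congrFun (congrFun hU2 a) a
      rw [Matrix.mul_apply, Matrix.one_apply_eq] at this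
      rw [← this]
      refine Finset.sum_congr rfl fun j _ => ?_
      rw [Matrix.star_apply, Complex.star_def, Complex.conj_mul']
    exact_mod_cast h1
  have hl2 : ∑ a, l a ^ 2 = ∑ i, ∑ j, ‖(inner ℂ (f i) (f j) : ℂ)‖ ^ 2 := by
    have hM := Matrix.isHermitian_gram (𝕜 := ℂ) (v := f)
    set M := Matrix.gram ℂ f with hMdef
    have h1 : Matrix.trace (M * M) = Matrix.trace
        (Matrix.diagonal (fun a => (l a : ℂ)) * Matrix.diagonal (fun a => (l a : ℂ))) := by
      rw [← hD]
      have h2 : star U * M * U * (star U * M * U) = star U * (M * M * U) := by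
        calc star U * M * U * (star U * M * U) = star U * M * (U * star U) * M * U := by
              simp only [Matrix.mul_assoc]
          _ = star U * (M * M * U) := by
              rw [hU1]
              simp only [Matrix.mul_assoc, Matrix.mul_one]
      rw [h2, Matrix.trace_mul_comm (star U), Matrix.mul_assoc, hU1, Matrix.mul_one]
    rw [Matrix.diagonal_mul_diagonal, Matrix.trace_diagonal] at h1
    have h3 : Matrix.trace (M * M) = ((∑ i, ∑ j, ‖(inner ℂ (f i) (f j) : ℂ)‖ ^ 2 : ℝ) : ℂ) := by
      push_cast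
      unfold Matrix.trace
      refine Finset.sum_congr rfl fun i _ => ?_
      rw [Matrix.diag_apply, Matrix.mul_apply]
      refine Finset.sum_congr rfl fun j _ => ?_
      have h4 : M i j = inner ℂ (f i) (f j) := rfl
      have h5 : M j i = conj (inner ℂ (f i) (f j)) := by
        rw [inner_conj_symm]; rfl
      rw [h4, h5, mul_comm, Complex.conj_mul']
    rw [h3] at h1
    have h6 : ((∑ i, ∑ j, ‖(inner ℂ (f i) (f j) : ℂ)‖ ^ 2 : ℝ) : ℂ) =
        ((∑ a, l a ^ 2 : ℝ) : ℂ) := by
      rw [h1]
      push_cast
      refine Finset.sum_congr rfl fun a _ => ?_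
      ring
    exact_mod_cast h6.symm
  classical
  refine ⟨fun j => ∑ a, (if l a ≤ Λ then star (U j a) else 0) • g a, ?_, ?_, ?_⟩
  · intro j
    refine Submodule.sum_mem _ fun a _ => Submodule.smul_mem _ _ ?_
    refine Submodule.sum_mem _ fun i _ => Submodule.smul_mem _ _ ?_
    exact Submodule.subset_span ⟨i, rfl⟩
  · have h1 : ∀ j, ‖f j - ∑ a, (if l a ≤ Λ then star (U j a) else 0) • g a‖ ^ 2 =
        ∑ a, (if l a ≤ Λ then 0 else ‖U j a‖ ^ 2) * l a := by
      intro j
      have h2 : f j - ∑ a, (if l a ≤ Λ then star (U j a) else 0) • g a =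
          ∑ a, (if l a ≤ Λ then 0 else star (U j a)) • g a := by
        conv_lhs => rw [hf j]
        rw [← Finset.sum_sub_distrib]
        refine Finset.sum_congr rfl fun a _ => ?_
        split_ifs
        · simp
        · simp
      rw [h2, GRM_key g l hg]
      refine Finset.sum_congr rfl fun a _ => ?_
      split_ifs
      · simp
      · simp
    simp only [h1]
    rw [Finset.sum_comm]
    have h2 : ∀ a, ∑ j, (if l a ≤ Λ then 0 else ‖U j a‖ ^ 2) * l a ≤ l a ^ 2 / Λ := by
      intro a
      by_cases h : l a ≤ Λ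
      · simp only [if_pos h, zero_mul, Finset.sum_const_zero]
        positivity
      · simp only [if_neg h]
        rw [← Finset.sum_mul, hcol a, one_mul, le_div_iff₀ hΛ, pow_two]
        exact mul_le_mul_of_nonneg_left (not_le.1 h).le (hl0 a)
    refine (Finset.sum_le_sum fun a _ => h2 a).trans ?_
    rw [← Finset.sum_div, hl2, div_le_iff₀ hΛ]
    refine hsum.trans (le_of_eq ?_)
    ring
  · intro c
    have h1 : ∑ j, c j • ∑ a, (if l a ≤ Λ then star (U j a) else 0) • g a =
        ∑ a, (if l a ≤ Λ then ∑ j, c j * star (U j a) else 0) • g a := by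
      simp only [Finset.smul_sum, smul_smul]
      rw [Finset.sum_comm]
      refine Finset.sum_congr rfl fun a _ => ?_
      rw [← Finset.sum_smul]
      congr 1
      split_ifs
      · rfl
      · simp
    rw [h1, GRM_key g l hg, ← GRM_pars U hU1 c, Finset.mul_sum]
    refine Finset.sum_le_sum fun a _ => ?_
    split_ifs with h
    · rw [mul_comm]
      exact mul_le_mul_of_nonneg_right h (by positivity)
    · have h3 : ‖(0 : ℂ)‖ ^ 2 * l a = 0 := by simp
      rw [h3]
      positivity

end Pool.PQ
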