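import Pool.Agent.Work.MP_972ac7_Q.Interface1

set_option autoImplicit false

noncomputable section

namespace Pool.PQ

open MeasureTheory
open Pool.PL Pool.TFD Pool.TC

theorem GRP_row {k : Type} [NormedField k] (L : LG k) {C₁ : ℝ} (hC₁ : 0 ≤ C₁) {φ : k → ℝ}
    (hφ : ∀ t, 0 ≤ φ t ∧ φ t ≤ 1 ∧ φ t * ‖t‖ ≤ C₁) {R : ℝ} (hR : 1 ≤ R) {Z : Finset k}
    (hZ1 : ∀ z ∈ Z, ‖z‖ ≤ R) (hZ2 : ∀ z ∈ Z, ∀ z' ∈ Z, z ≠ z' → 1 ≤ ‖z - z'‖) {z : k}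
    (hz : z ∈ Z) :
    ∑ z' ∈ Z, φ (z - z') ^ 2 ≤ (1 + 8 * L.C * C₁ ^ 2) * (1 + Real.log R) := by
  classical
  have hLC := L.one_le
  have he2 : L.e ≤ 2 := by rcases L.he with h | h <;> omega
  obtain ⟨J, hJ⟩ : ∃ J : ℕ, J = Nat.log 2 ⌊2 * R⌋₊ := ⟨_, rfl⟩
  have hlogR : 0 ≤ Real.log R := Real.log_nonneg hR
  -- the number of the shells
  have hJ1 : (J : ℝ) + 1 ≤ 2 * (1 + Real.log R) := by
    have hfl : ⌊2 * R⌋₊ ≠ 0 := by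
      have : 1 ≤ ⌊2 * R⌋₊ := Nat.le_floor (by push_cast; linarith)
      omega
    have h1 : 2 ^ J ≤ ⌊2 * R⌋₊ := by rw [hJ]; exact Nat.pow_log_le_self 2 hfl
    have h2 : ((2 : ℝ) ^ J) ≤ 2 * R := by
      have h3 : ((2 ^ J : ℕ) : ℝ) ≤ (⌊2 * R⌋₊ : ℝ) := by exact_mod_cast h1
      have h4 : (⌊2 * R⌋₊ : ℝ) ≤ 2 * R := Nat.floor_le (by linarith)
      push_cast at h3
      linarith
    have h3 : (J : ℝ) * Real.log 2 ≤ Real.log 2 + Real.log R := by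
      have h4 := Real.log_le_log (by positivity) h2
      rw [Real.log_pow, Real.log_mul (by norm_num) (by linarith)] at h4
      exact h4
    have h5 : (1 : ℝ) / 2 ≤ Real.log 2 := by
      have := Real.log_two_gt_d9
      linarith
    have h6 : ((J : ℝ) - 1) * Real.log 2 ≤ Real.log R := by linarith
    by_cases hJ0 : (J : ℝ) ≤ 1
    · linarith
    · push Not at hJ0
      have h7 : ((J : ℝ) - 1) * (1 / 2) ≤ ((J : ℝ) - 1) * Real.log 2 :=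
        mul_le_mul_of_nonneg_left h5 (by linarith)
      linarith
  -- one shell
  have hshell : ∀ j : ℕ, ∑ z' ∈ (Z.erase z).filter (fun z' => Nat.log 2 ⌊‖z - z'‖⌋₊ = j),
      φ (z - z') ^ 2 ≤ 4 * L.C * C₁ ^ 2 := by
    intro j
    obtain ⟨S, hS⟩ : ∃ S, S = (Z.erase z).filter (fun z' => Nat.log 2 ⌊‖z - z'‖⌋₊ = j) := ⟨_, rfl⟩
    rw [← hS]
    have hSm : ∀ z' ∈ S, z' ∈ Z ∧ (2 : ℝ) ^ j ≤ ‖z - z'‖ ∧ ‖z - z'‖ ≤ 2 ^ (j + 1) := by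
      intro z' hz'
      rw [hS] at hz'
      obtain ⟨h1, h2⟩ := Finset.mem_filter.1 hz'
      obtain ⟨h3, h4⟩ := Finset.mem_erase.1 h1
      have h5 : 1 ≤ ‖z - z'‖ := hZ2 z hz z' h4 h3.symm
      have h6 : ⌊‖z - z'‖⌋₊ ≠ 0 := by
        have : 1 ≤ ⌊‖z - z'‖⌋₊ := Nat.le_floor (by push_cast; exact h5)
        omega
      have h7 : 2 ^ j ≤ ⌊‖z - z'‖⌋₊ := by rw [← h2]; exact Nat.pow_log_le_self 2 h6
      have h8 : ⌊‖z - z'‖⌋₊ + 1 ≤ 2 ^ (j + 1) := by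
        rw [← h2]; exact Nat.lt_pow_succ_log_self (by norm_num) _
      have h9 : ((2 ^ j : ℕ) : ℝ) ≤ (⌊‖z - z'‖⌋₊ : ℝ) := by exact_mod_cast h7
      have h10 : ((⌊‖z - z'‖⌋₊ : ℕ) : ℝ) + 1 ≤ ((2 ^ (j + 1) : ℕ) : ℝ) := by exact_mod_cast h8
      have h11 : (⌊‖z - z'‖⌋₊ : ℝ) ≤ ‖z - z'‖ := Nat.floor_le (norm_nonneg _)
      have h12 : ‖z - z'‖ < (⌊‖z - z'‖⌋₊ : ℝ) + 1 := Nat.lt_floor_add_one _
      push_cast at h9 h10
      exact ⟨h4, by linarith, by linarith⟩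
    have hcard : (S.card : ℝ) ≤ L.C * (2 ^ (j + 1)) ^ L.e := by
      refine L.sep_le (2 ^ (j + 1)) z S (one_le_pow₀ (by norm_num)) (fun z' hz' => ?_)
        (fun z' hz' z'' hz'' hne => hZ2 z' (hSm z' hz').1 z'' (hSm z'' hz'').1 hne)
      rw [norm_sub_rev]
      exact (hSm z' hz').2.2
    have hcard' : (S.card : ℝ) ≤ L.C * (2 ^ (j + 1)) ^ 2 := by
      refine le_trans hcard (mul_le_mul_of_nonneg_left ?_ (by linarith))
      exact pow_le_pow_right₀ (one_le_pow₀ (by norm_num)) he2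
    have hterm : ∀ z' ∈ S, φ (z - z') ^ 2 ≤ C₁ ^ 2 / (2 ^ j) ^ 2 := by
      intro z' hz'
      obtain ⟨h1, h2, h3⟩ := hSm z' hz'
      obtain ⟨h4, h5, h6⟩ := hφ (z - z')
      have h7 : φ (z - z') ≤ C₁ / 2 ^ j := by
        rw [le_div_iff₀ (by positivity)]
        exact le_trans (mul_le_mul_of_nonneg_left h2 h4) h6
      rw [← div_pow]
      exact pow_le_pow_left₀ h4 h7 2
    calc ∑ z' ∈ S, φ (z - z') ^ 2 ≤ ∑ _z' ∈ S, C₁ ^ 2 / (2 ^ j) ^ 2 := Finset.sum_le_sum hterm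
      _ = S.card * (C₁ ^ 2 / (2 ^ j) ^ 2) := by rw [Finset.sum_const, nsmul_eq_mul]
      _ ≤ (L.C * (2 ^ (j + 1)) ^ 2) * (C₁ ^ 2 / (2 ^ j) ^ 2) :=
          mul_le_mul_of_nonneg_right hcard' (by positivity)
      _ = 4 * L.C * C₁ ^ 2 := by
          rw [pow_succ]
          field_simp
          ring
  have hmaps : ∀ z' ∈ Z.erase z, Nat.log 2 ⌊‖z - z'‖⌋₊ ∈ Finset.range (J + 1) := by
    intro z' hz'
    obtain ⟨h3, h4⟩ := Finset.mem_erase.1 hz'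
    have h1 : ‖z - z'‖ ≤ 2 * R := by
      calc ‖z - z'‖ ≤ ‖z‖ + ‖z'‖ := norm_sub_le _ _
        _ ≤ R + R := add_le_add (hZ1 z hz) (hZ1 z' h4)
        _ = 2 * R := by ring
    rw [Finset.mem_range, hJ]
    exact Nat.lt_succ_of_le (Nat.log_mono_right (Nat.floor_mono h1))
  have hsum : ∑ z' ∈ Z.erase z, φ (z - z') ^ 2 ≤ (J + 1) * (4 * L.C * C₁ ^ 2) := by
    rw [← Finset.sum_fiberwise_of_maps_to hmaps]
    calc ∑ j ∈ Finset.range (J + 1), ∑ z' ∈ (Z.erase z).filter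
          (fun z' => Nat.log 2 ⌊‖z - z'‖⌋₊ = j), φ (z - z') ^ 2
        ≤ ∑ _j ∈ Finset.range (J + 1), 4 * L.C * C₁ ^ 2 := Finset.sum_le_sum fun j _ => hshell j
      _ = (J + 1) * (4 * L.C * C₁ ^ 2) := by
          rw [Finset.sum_const, Finset.card_range, nsmul_eq_mul]
          push_cast
          ring
  have hz0 : φ (z - z) ^ 2 ≤ 1 := by
    obtain ⟨h4, h5, -⟩ := hφ (z - z)
    exact pow_le_one₀ h4 h5
  rw [← Finset.add_sum_erase Z _ hz]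
  have h1 : 0 ≤ 4 * L.C * C₁ ^ 2 := by positivity
  have h2 : ((J : ℝ) + 1) * (4 * L.C * C₁ ^ 2) ≤ 2 * (1 + Real.log R) * (4 * L.C * C₁ ^ 2) :=
    mul_le_mul_of_nonneg_right hJ1 h1
  nlinarith

theorem p_GRP : Stmt_GRP := by
  intro k _ L C₁ hC₁
  have hLC := L.one_le
  refine ⟨L.C + (1 + 8 * L.C * C₁ ^ 2), by positivity, ?_⟩
  intro φ hφ R hR
  obtain ⟨Z, hZ1, hZ2, hZ3⟩ := L.sep_ge R hR
  have hlogR : 0 ≤ Real.log R := Real.log_nonneg hR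
  have h0 : 0 ≤ 1 + 8 * L.C * C₁ ^ 2 := by positivity
  have hcard : (0 : ℝ) ≤ Z.card := Nat.cast_nonneg _
  refine ⟨Z, ?_, hZ1, ?_⟩
  · refine le_trans hZ3 (mul_le_mul_of_nonneg_right ?_ hcard)
    linarith
  · calc ∑ z ∈ Z, ∑ z' ∈ Z, φ (z - z') ^ 2
        ≤ ∑ _z ∈ Z, (1 + 8 * L.C * C₁ ^ 2) * (1 + Real.log R) :=
          Finset.sum_le_sum fun z hz => GRP_row L hC₁ hφ hR hZ1 hZ2 hz
      _ = Z.card * ((1 + 8 * L.C * C₁ ^ 2) * (1 + Real.log R)) := by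
          rw [Finset.sum_const, nsmul_eq_mul]
      _ ≤ Z.card * ((L.C + (1 + 8 * L.C * C₁ ^ 2)) * (1 + Real.log R)) := by
          refine mul_le_mul_of_nonneg_left (mul_le_mul_of_nonneg_right ?_ (by linarith)) hcard
          linarith
      _ = (L.C + (1 + 8 * L.C * C₁ ^ 2)) * Z.card * (1 + Real.log R) := by ring

end Pool.PQ
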