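import Pool.Agent.Work.MP_972ac7_Q.Interface1

set_option autoImplicit false

/-! # THEOREM PP, block HKA (helper9): the measure of the set where a row is small -/

open MeasureTheory
open scoped ENNReal

noncomputable section

namespace Pool.PQ

open Pool.PL Pool.TFD Pool.TC

variable {k : Type} [NormedField k]

theorem HKA_coord (i j : Fin 2) :
    Continuous fun g : SL2 k => (g : Matrix (Fin 2) (Fin 2) k) i j := by
  have h1 : Continuous fun g : SL2 k => (g : Matrix (Fin 2) (Fin 2) k) :=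
    continuous_subtype_val
  exact (continuous_apply j).comp ((continuous_apply i).comp h1)

theorem HKA_mnm_one : mnm (1 : Matrix (Fin 2) (Fin 2) k) ≤ 1 := by
  rw [mnm_le]
  intro i j
  fin_cases i <;> fin_cases j <;> simp

theorem HKA_nm (s : SL2 k) : nm s ≤ dnm s + 1 := by
  have h : (s : Matrix (Fin 2) (Fin 2) k) = ((s : Matrix (Fin 2) (Fin 2) k) - 1) + 1 := by abel
  unfold nm
  rw [h]
  exact le_trans (mnm_add_le2 _ _) (add_le_add le_rfl HKA_mnm_one)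

theorem HKA_upp (t : k) (ht : ‖t‖ ≤ 1) : nm (upp t) ≤ 1 := by
  unfold nm
  rw [mnm_le]
  intro i j
  fin_cases i <;> fin_cases j <;> simp [upp, ht]

theorem HKA_det (s : SL2 k) : s 0 0 * s 1 1 - s 0 1 * s 1 0 = 1 := by
  have h := s.det_coe
  rw [Matrix.det_fin_two] at h
  exact h

theorem HKA_low (c d : k) (s : SL2 k) :
    max ‖c‖ ‖d‖ ≤ 2 * (nm s * max ‖c * s 0 0 + d * s 1 0‖ ‖c * s 0 1 + d * s 1 1‖) := by
  have hd := HKA_det s
  set x := c * s 0 0 + d * s 1 0 with hx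
  set y := c * s 0 1 + d * s 1 1 with hy
  have hc : c = x * s 1 1 - y * s 1 0 := by rw [hx, hy]; linear_combination (-c) * hd
  have hdd : d = y * s 0 0 - x * s 0 1 := by rw [hx, hy]; linear_combination (-d) * hd
  have hs : ∀ i j, ‖s i j‖ ≤ nm s := fun i j => le_mnm _ i j
  have hn : 0 ≤ nm s := nm_nonneg s
  have hx' : ‖x‖ ≤ max ‖x‖ ‖y‖ := le_max_left _ _
  have hy' : ‖y‖ ≤ max ‖x‖ ‖y‖ := le_max_right _ _
  have hb : ∀ a b : k, ∀ i j i' j', ‖a‖ ≤ max ‖x‖ ‖y‖ → ‖b‖ ≤ max ‖x‖ ‖y‖ →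
      ‖a * s i j - b * s i' j'‖ ≤ 2 * (nm s * max ‖x‖ ‖y‖) := by
    intro a b i j i' j' ha hb
    have h1 : ‖a * s i j‖ ≤ max ‖x‖ ‖y‖ * nm s := by
      rw [norm_mul]
      exact mul_le_mul ha (hs _ _) (norm_nonneg _) (le_trans (norm_nonneg _) ha)
    have h2 : ‖b * s i' j'‖ ≤ max ‖x‖ ‖y‖ * nm s := by
      rw [norm_mul]
      exact mul_le_mul hb (hs _ _) (norm_nonneg _) (le_trans (norm_nonneg _) hb)
    calc _ ≤ ‖a * s i j‖ + ‖b * s i' j'‖ := norm_sub_le _ _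
      _ ≤ max ‖x‖ ‖y‖ * nm s + max ‖x‖ ‖y‖ * nm s := add_le_add h1 h2
      _ = _ := by ring
  refine max_le ?_ ?_
  · calc ‖c‖ = ‖x * s 1 1 - y * s 1 0‖ := by rw [← hc]
      _ ≤ _ := hb x y 1 1 1 0 hx' hy'
  · calc ‖d‖ = ‖y * s 0 0 - x * s 0 1‖ := by rw [← hdd]
      _ ≤ _ := hb y x 0 0 0 1 hy' hx'

/-- the set -/
def HKA_E (c d : k) (η : ℝ) : Set (SL2 k) :=
  {s : SL2 k | dnm s ≤ 1 / 2 ∧ ‖c * s 0 1 + d * s 1 1‖ ≤ η * max ‖c‖ ‖d‖}

theorem HKA_closed (c d : k) (η : ℝ) : IsClosed (HKA_E c d η) := by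
  have h1 : IsClosed {s : SL2 k | dnm s ≤ 1 / 2} := by
    have h2 : {s : SL2 k | dnm s ≤ 1 / 2} = ⋂ i : Fin 2, ⋂ j : Fin 2,
        {s : SL2 k | ‖(s : Matrix (Fin 2) (Fin 2) k) i j - (1 : Matrix (Fin 2) (Fin 2) k) i j‖ ≤
          1 / 2} := by
      ext s
      simp only [Set.mem_ofPred_eq, Set.mem_iInter]
      unfold dnm
      rw [mnm_le]
      rfl
    rw [h2]
    refine isClosed_iInter fun i => isClosed_iInter fun j => ?_
    exact isClosed_le ((HKA_coord i j).sub continuous_const).norm continuous_const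
  have h3 : IsClosed {s : SL2 k | ‖c * s 0 1 + d * s 1 1‖ ≤ η * max ‖c‖ ‖d‖} :=
    isClosed_le ((continuous_const.mul (HKA_coord 0 1)).add
      (continuous_const.mul (HKA_coord 1 1))).norm continuous_const
  exact h1.inter h3

theorem HKA_mem (g : SL2 k) (t : k) :
    (g * upp t) 0 0 = g 0 0 ∧ (g * upp t) 1 0 = g 1 0 ∧
    (g * upp t) 0 1 = g 0 0 * t + g 0 1 ∧ (g * upp t) 1 1 = g 1 0 * t + g 1 1 := by
  refine ⟨?_, ?_, ?_, ?_⟩ <;>
    simp [upp, Matrix.SpecialLinearGroup.coe_mul, Matrix.mul_apply, Fin.sum_univ_two]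

theorem HKA_upp_sub (t t' : k) : upp t * (upp t')⁻¹ = upp (t - t') := by
  rw [mul_inv_eq_iff_eq_mul]
  ext i j
  fin_cases i <;> fin_cases j <;>
    simp [upp, Matrix.SpecialLinearGroup.coe_mul, Matrix.mul_apply, Fin.sum_univ_two]

/-- disjointness -/
theorem HKA_disj (c d : k) (η : ℝ) (hη : η < 1 / 16) (hη0 : 0 < η) (hM : 0 < max ‖c‖ ‖d‖)
    (g : SL2 k) (t t' : k)
    (h : g * (upp t)⁻¹ ∈ HKA_E c d η) (h' : g * (upp t')⁻¹ ∈ HKA_E c d η) :
    ‖t - t'‖ ≤ 6 * η := by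
  set s := g * (upp t)⁻¹ with hs
  have hs' : g * (upp t')⁻¹ = s * upp (t - t') := by
    rw [← HKA_upp_sub, hs]; group
  rw [hs'] at h'
  obtain ⟨h1, h2⟩ := h
  obtain ⟨h3, h4⟩ := h'
  obtain ⟨e1, e2, e3, e4⟩ := HKA_mem s (t - t')
  set M := max ‖c‖ ‖d‖ with hMdef
  rw [e3, e4] at h4
  set x := c * s 0 0 + d * s 1 0 with hx
  set y := c * s 0 1 + d * s 1 1 with hy
  have hxu : x * (t - t') = (c * (s 0 0 * (t - t') + s 0 1) + d * (s 1 0 * (t - t') + s 1 1)) - y := by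
    rw [hx, hy]; ring
  have hb : ‖x‖ * ‖t - t'‖ ≤ 2 * (η * M) := by
    rw [← norm_mul, hxu]
    refine le_trans (norm_sub_le _ _) ?_
    linarith
  have hnm : nm s ≤ 3 / 2 := by
    have := HKA_nm s
    linarith
  have hlow := HKA_low c d s
  rw [← hx, ← hy, ← hMdef] at hlow
  have hmx : 0 ≤ max ‖x‖ ‖y‖ := le_max_of_le_left (norm_nonneg _)
  have hlow2 : M ≤ 3 * max ‖x‖ ‖y‖ := by
    calc M ≤ 2 * (nm s * max ‖x‖ ‖y‖) := hlow
      _ ≤ 2 * (3 / 2 * max ‖x‖ ‖y‖) := by gcongr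
      _ = _ := by ring
  have hy1 : ‖y‖ < M / 16 := by
    calc ‖y‖ ≤ η * M := h2
      _ < 1 / 16 * M := by gcongr
      _ = M / 16 := by ring
  have hx1 : M / 3 ≤ ‖x‖ := by
    rcases le_total ‖x‖ ‖y‖ with hle | hle
    · rw [max_eq_right hle] at hlow2
      linarith
    · rw [max_eq_left hle] at hlow2
      linarith
  have h5 : M / 3 * ‖t - t'‖ ≤ 2 * (η * M) :=
    le_trans (mul_le_mul_of_nonneg_right hx1 (norm_nonneg _)) hb
  have h6 : M * ‖t - t'‖ ≤ M * (6 * η) := by linarith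
  exact le_of_mul_le_mul_left h6 hM

theorem HKA_sub (c d : k) (η : ℝ) (g : SL2 k) (t : k) (ht : ‖t‖ ≤ 1)
    (h : g * (upp t)⁻¹ ∈ HKA_E c d η) : nm g ≤ 3 := by
  have h1 := HKA_nm (g * (upp t)⁻¹)
  have h2 : nm (g * (upp t)⁻¹) ≤ 3 / 2 := by
    have := h.1
    linarith
  have h3 : g = g * (upp t)⁻¹ * upp t := by group
  rw [h3]
  calc nm (g * (upp t)⁻¹ * upp t) ≤ 2 * (nm (g * (upp t)⁻¹) * nm (upp t)) := nm_mul_le2 _ _
    _ ≤ 2 * (3 / 2 * 1) := by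
        have := HKA_upp t ht
        have h4 := nm_nonneg (upp t)
        gcongr
    _ = 3 := by norm_num

theorem p_HKA (hTP2 : Stmt_TP2) (hUN2 : Stmt_UN2) : Stmt_HKA := by
  intro k _ _ L μ hμ
  obtain ⟨hlc, hsc, ht2, hcpt, -, -⟩ := hTP2 k
  obtain ⟨hr, -⟩ := hUN2.1 k L μ hμ
  set K : Set (SL2 k) := {g : SL2 k | nm g ≤ 3} with hK
  have hKc : IsCompact K := hcpt 3
  have hKf : μ K < ∞ := hKc.measure_lt_top
  set K0 : ℝ := (μ K).toReal with hK0
  have hK00 : 0 ≤ K0 := ENNReal.toReal_nonneg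
  have hKE : μ K = ENNReal.ofReal K0 := (ENNReal.ofReal_toReal hKf.ne).symm
  have hC1 := L.one_le
  have hϑ := L.one_lt
  have hCpos : 0 < L.C := lt_of_lt_of_le one_pos hC1
  refine ⟨(K0 + 1) * (L.C * (16 * ‖L.ϑ‖) ^ L.e), by positivity, ?_⟩
  intro c d η hη hM
  have hEdef : {s : SL2 k | dnm s ≤ 1 / 2 ∧ ‖c * s 0 1 + d * s 1 1‖ ≤ η * max ‖c‖ ‖d‖} =
    HKA_E c d η := rfl
  rw [hEdef]
  have hEK : HKA_E c d η ⊆ K := by
    intro g hg
    have h1 := HKA_nm g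
    have h2 := hg.1
    change nm g ≤ 3
    linarith
  by_cases hsm : η < 1 / 16
  · -- small η
    have hx1 : (1 : ℝ) ≤ 1 / (8 * η) := by
      rw [le_div_iff₀ (by positivity)]
      linarith
    obtain ⟨n, hn1, hn2⟩ := exists_nat_pow_near hx1 hϑ
    have hϑ0 : (0 : ℝ) < ‖L.ϑ‖ := lt_trans one_pos hϑ
    have hϑne : L.ϑ ≠ 0 := norm_pos_iff.1 hϑ0
    set R : ℝ := ‖L.ϑ‖ ^ n with hR
    have hR1 : 1 ≤ R := one_le_pow₀ hϑ.le
    have hR0 : 0 < R := lt_of_lt_of_le one_pos hR1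
    have hR8 : R * (8 * η) ≤ 1 := by
      rw [le_div_iff₀ (by positivity)] at hn1
      exact hn1
    have hR9 : 1 < R * (8 * η * ‖L.ϑ‖) := by
      rw [pow_succ, div_lt_iff₀ (by positivity)] at hn2
      calc (1 : ℝ) < R * ‖L.ϑ‖ * (8 * η) := hn2
        _ = _ := by ring
    obtain ⟨Z, hZ1, hZ2, hZ3⟩ := L.sep_ge R hR1
    set lam : k := (L.ϑ ^ n)⁻¹ with hlam
    have hlamn : ‖lam‖ = R⁻¹ := by rw [hlam, norm_inv, norm_pow]
    let A : k → Set (SL2 k) := fun z => (fun g => g * (upp (lam * z))⁻¹) ⁻¹' HKA_E c d η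
    have hmE : MeasurableSet (HKA_E c d η) := (HKA_closed c d η).measurableSet
    have hmA : ∀ z, μ (A z) = μ (HKA_E c d η) := fun z =>
      measure_preimage_mul_right μ _ _
    have hA : ∀ z, MeasurableSet (A z) := fun z => by
      have : IsClosed (A z) := (HKA_closed c d η).preimage (continuous_mul_const _)
      exact this.measurableSet
    have hAK : (⋃ z ∈ Z, A z) ⊆ K := by
      intro g hg
      simp only [Set.mem_iUnion] at hg
      obtain ⟨z, hz, hgz⟩ := hg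
      refine HKA_sub c d η g (lam * z) ?_ hgz
      rw [norm_mul, hlamn]
      have := hZ1 z hz
      calc R⁻¹ * ‖z‖ ≤ R⁻¹ * R := by gcongr
        _ = 1 := inv_mul_cancel₀ hR0.ne'
    have hdis : Set.PairwiseDisjoint (Z : Set k) A := by
      intro z hz z' hz' hne
      rw [Function.onFun, Set.disjoint_left]
      intro g hg hg'
      have h1 := HKA_disj c d η hsm hη hM g _ _ hg hg'
      have h2 := hZ2 z hz z' hz' hne
      rw [← mul_sub, norm_mul, hlamn] at h1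
      have h3 : R⁻¹ * 1 ≤ R⁻¹ * ‖z - z'‖ := by gcongr
      have h4 : R⁻¹ ≤ 6 * η := by linarith
      have h5 : 1 ≤ R * (6 * η) := by
        calc (1 : ℝ) = R * R⁻¹ := (mul_inv_cancel₀ hR0.ne').symm
          _ ≤ R * (6 * η) := by gcongr
      have h6 : 0 < R * η := by positivity
      linarith
    have hsum : (Z.card : ℝ≥0∞) * μ (HKA_E c d η) ≤ μ K := by
      calc (Z.card : ℝ≥0∞) * μ (HKA_E c d η) = ∑ z ∈ Z, μ (A z) := by
            rw [Finset.sum_congr rfl fun z _ => hmA z, Finset.sum_const, nsmul_eq_mul]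
        _ = μ (⋃ z ∈ Z, A z) := (measure_biUnion_finset hdis fun z _ => hA z).symm
        _ ≤ μ K := measure_mono hAK
    have hEf : μ (HKA_E c d η) < ∞ := lt_of_le_of_lt (measure_mono hEK) hKf
    set m := (μ (HKA_E c d η)).toReal with hm
    have hm0 : 0 ≤ m := ENNReal.toReal_nonneg
    have hsumR : (Z.card : ℝ) * m ≤ K0 := by
      have h1 := ENNReal.toReal_mono hKf.ne hsum
      rw [ENNReal.toReal_mul, ENNReal.toReal_natCast] at h1
      exact h1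
    have hkey : R ^ L.e * m ≤ L.C * K0 := by
      calc R ^ L.e * m ≤ (L.C * Z.card) * m := by gcongr
        _ = L.C * (Z.card * m) := by ring
        _ ≤ L.C * K0 := by gcongr
    have hpow : 1 ≤ R ^ L.e * (8 * η * ‖L.ϑ‖) ^ L.e := by
      rw [← mul_pow]
      exact one_le_pow₀ hR9.le
    have hfin : m ≤ (K0 + 1) * (L.C * (16 * ‖L.ϑ‖) ^ L.e) * η ^ L.e := by
      calc m = 1 * m := (one_mul m).symm
        _ ≤ (R ^ L.e * (8 * η * ‖L.ϑ‖) ^ L.e) * m := by gcongr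
        _ = (R ^ L.e * m) * (8 * η * ‖L.ϑ‖) ^ L.e := by ring
        _ ≤ (L.C * K0) * (8 * η * ‖L.ϑ‖) ^ L.e := by gcongr
        _ ≤ (L.C * (K0 + 1)) * (16 * η * ‖L.ϑ‖) ^ L.e := by
            gcongr
            · linarith
            · norm_num
        _ = _ := by rw [show 16 * η * ‖L.ϑ‖ = (16 * ‖L.ϑ‖) * η by ring, mul_pow]; ring
    rw [← ENNReal.ofReal_toReal hEf.ne]
    exact ENNReal.ofReal_le_ofReal hfin
  · -- large η
    push Not at hsm
    refine le_trans (measure_mono hEK) ?_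
    rw [hKE]
    apply ENNReal.ofReal_le_ofReal
    have h1 : (1 : ℝ) ≤ L.C * (16 * ‖L.ϑ‖) ^ L.e * η ^ L.e := by
      have h2 : (1 : ℝ) ≤ (16 * ‖L.ϑ‖) ^ L.e * η ^ L.e := by
        rw [← mul_pow]
        apply one_le_pow₀
        calc (1 : ℝ) = 16 * 1 * (1 / 16) := by norm_num
          _ ≤ 16 * ‖L.ϑ‖ * η := by gcongr
      calc (1 : ℝ) = 1 * 1 := by norm_num
        _ ≤ L.C * ((16 * ‖L.ϑ‖) ^ L.e * η ^ L.e) := by gcongr
        _ = _ := by ring
    calc K0 ≤ (K0 + 1) * 1 := by linarith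
      _ ≤ (K0 + 1) * (L.C * (16 * ‖L.ϑ‖) ^ L.e * η ^ L.e) := by gcongr
      _ = _ := by ring

end Pool.PQ
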