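import Pool.Agent.Work.MP_972ac7_Q.Interface1

set_option autoImplicit false

/-! # Block HKB (helper89): sums over separated points -/

open MeasureTheory
open scoped ENNReal

noncomputable section

namespace Pool.PQ

open Pool.PL Pool.TFD Pool.TC

theorem HKB_sum {α : Type} (Z : Finset α) (a : α → ℝ) (e J : ℕ) (C : ℝ)
    (h1 : ∀ z ∈ Z, 1 ≤ a z) (h2 : ∀ z ∈ Z, a z ≤ 2 ^ J)
    (h3 : ∀ j : ℕ, ∀ Y ⊆ Z, (∀ z ∈ Y, a z ≤ 2 ^ j) → (Y.card : ℝ) ≤ C * (2 ^ j) ^ e) :
    ∑ z ∈ Z, (a z ^ e)⁻¹ ≤ (J + 1) * (C * 2 ^ e) := by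
  classical
  set T : ℕ → Finset α := fun j => Z.filter fun z => (2 : ℝ) ^ j ≤ 2 * a z ∧ a z ≤ 2 ^ j with hT
  have hcov : Z ⊆ (Finset.range (J + 1)).biUnion T := by
    intro z hz
    have hex : ∃ j : ℕ, a z ≤ 2 ^ j := ⟨J, h2 z hz⟩
    have hj := Nat.find_spec hex
    have hjJ : Nat.find hex ≤ J := Nat.find_min' hex (h2 z hz)
    refine Finset.mem_biUnion.2 ⟨Nat.find hex, Finset.mem_range.2 (by omega), ?_⟩
    refine Finset.mem_filter.2 ⟨hz, ?_, hj⟩
    rcases Nat.eq_zero_or_pos (Nat.find hex) with h0 | h0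
    · rw [h0, pow_zero]
      have := h1 z hz
      linarith
    · have h4 := Nat.find_min hex (Nat.sub_lt h0 Nat.one_pos)
      rw [not_le] at h4
      obtain ⟨i, hi⟩ : ∃ i, Nat.find hex = i + 1 := ⟨Nat.find hex - 1, by omega⟩
      rw [hi] at h4 ⊢
      rw [Nat.add_sub_cancel] at h4
      rw [pow_succ]
      linarith
  have hpos : ∀ z ∈ Z, 0 ≤ (a z ^ e)⁻¹ := fun z hz => by
    have := h1 z hz
    positivity
  calc ∑ z ∈ Z, (a z ^ e)⁻¹
      ≤ ∑ z ∈ Z, ∑ j ∈ Finset.range (J + 1),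
          (if (2 : ℝ) ^ j ≤ 2 * a z ∧ a z ≤ 2 ^ j then (a z ^ e)⁻¹ else 0) := by
        refine Finset.sum_le_sum fun z hz => ?_
        obtain ⟨j, hj, hj'⟩ := Finset.mem_biUnion.1 (hcov hz)
        refine le_trans (le_of_eq ?_) (Finset.single_le_sum (fun i _ => ?_) hj)
        · rw [if_pos (Finset.mem_filter.1 hj').2]
        · split_ifs
          · exact hpos z hz
          · exact le_rfl
    _ = ∑ j ∈ Finset.range (J + 1), ∑ z ∈ T j, (a z ^ e)⁻¹ := by
        rw [Finset.sum_comm]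
        exact Finset.sum_congr rfl fun j _ => (Finset.sum_filter _ _).symm
    _ ≤ ∑ _j ∈ Finset.range (J + 1), C * 2 ^ e := by
        refine Finset.sum_le_sum fun j _ => ?_
        have hb : ∀ z ∈ T j, (a z ^ e)⁻¹ ≤ (((2 : ℝ) ^ j / 2) ^ e)⁻¹ := by
          intro z hz
          have hz' := (Finset.mem_filter.1 hz).2
          have h5 : (0 : ℝ) < 2 ^ j / 2 := by positivity
          refine inv_anti₀ (by positivity) (pow_le_pow_left₀ h5.le ?_ e)
          linarith [hz'.1]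
        refine (Finset.sum_le_card_nsmul _ _ _ hb).trans ?_
        rw [nsmul_eq_mul]
        have h6 := h3 j (T j) (Finset.filter_subset _ _) fun z hz => (Finset.mem_filter.1 hz).2.2
        have h7 : (0 : ℝ) ≤ (((2 : ℝ) ^ j / 2) ^ e)⁻¹ := by positivity
        refine (mul_le_mul_of_nonneg_right h6 h7).trans (le_of_eq ?_)
        rw [div_pow, inv_div]
        field_simp
    _ = (J + 1) * (C * 2 ^ e) := by
        rw [Finset.sum_const, Finset.card_range, nsmul_eq_mul]
        push_cast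
        ring

theorem HKB_J (R : ℝ) (hR : 1 ≤ R) :
    ∃ J : ℕ, 3 * R ≤ 2 ^ J ∧ (J : ℝ) + 1 ≤ 4 * (1 + Real.log R) := by
  have hl2 : (0.6931471803 : ℝ) < Real.log 2 := Real.log_two_gt_d9
  have hlR : 0 ≤ Real.log R := Real.log_nonneg hR
  refine ⟨⌈Real.log (3 * R) / Real.log 2⌉₊, ?_, ?_⟩
  · have h1 : Real.log (3 * R) / Real.log 2 ≤ ⌈Real.log (3 * R) / Real.log 2⌉₊ := Nat.le_ceil _
    rw [div_le_iff₀ (by linarith)] at h1
    rw [← Real.log_le_log_iff (by positivity) (by positivity), Real.log_pow]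
    exact h1
  · have h2 : (⌈Real.log (3 * R) / Real.log 2⌉₊ : ℝ) < Real.log (3 * R) / Real.log 2 + 1 := by
      refine Nat.ceil_lt_add_one ?_
      have : 0 ≤ Real.log (3 * R) := Real.log_nonneg (by linarith)
      positivity
    have h3 : Real.log (3 * R) = Real.log 3 + Real.log R :=
      Real.log_mul (by norm_num) (by positivity)
    have h4 : Real.log 3 ≤ 2 * Real.log 2 := by
      have h5 : Real.log 4 = 2 * Real.log 2 := by
        rw [show (4 : ℝ) = 2 ^ 2 by norm_num, Real.log_pow]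
        norm_num
      rw [← h5]
      exact Real.log_le_log (by norm_num) (by norm_num)
    have h6 : Real.log (3 * R) / Real.log 2 ≤ 2 + 2 * Real.log R := by
      rw [div_le_iff₀ (by linarith), h3]
      nlinarith
    linarith

theorem p_HKB : Stmt_HKB := by
  intro k _ L
  have hC : 1 ≤ L.C := L.one_le
  refine ⟨16 * L.C, by linarith, fun R Z hR hZR hZs s => ?_⟩
  have hlR : 0 ≤ Real.log R := Real.log_nonneg hR
  have he4 : (2 : ℝ) ^ L.e ≤ 4 := by
    rcases L.he with h | h <;> rw [h] <;> norm_num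
  by_cases hs : ‖s‖ ≤ 2 * R
  · obtain ⟨J, hJ, hJ'⟩ := HKB_J R hR
    have h1 := HKB_sum Z (fun z => max 1 ‖z + s‖) L.e J L.C (fun z _ => le_max_left _ _)
      (fun z hz => by
        have h2 := norm_add_le z s
        have h3 := hZR z hz
        refine max_le (by linarith) (by linarith))
      (fun j Y hY hYj => by
        refine L.sep_le (2 ^ j) (-s) Y (one_le_pow₀ (by norm_num)) (fun z hz => ?_)
          (fun z hz z' hz' hne => hZs z (hY hz) z' (hY hz') hne)
        rw [sub_neg_eq_add]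
        exact (le_max_right _ _).trans (hYj z hz))
    refine h1.trans ?_
    calc ((J : ℝ) + 1) * (L.C * 2 ^ L.e) ≤ (4 * (1 + Real.log R)) * (L.C * 4) := by gcongr
      _ = 16 * L.C * (1 + Real.log R) := by ring
  · rw [not_le] at hs
    have h2 : ∀ z ∈ Z, ((max 1 ‖z + s‖) ^ L.e)⁻¹ ≤ (R ^ L.e)⁻¹ := by
      intro z hz
      have h3 : ‖s‖ ≤ ‖z + s‖ + ‖z‖ := by
        have := norm_sub_le (z + s) z
        rwa [add_sub_cancel_left] at this
      have h4 := hZR z hz
      refine inv_anti₀ (by positivity) (pow_le_pow_left₀ (by linarith) ?_ _)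
      exact le_trans (by linarith) (le_max_right _ _)
    refine (Finset.sum_le_card_nsmul _ _ _ h2).trans ?_
    rw [nsmul_eq_mul]
    have h5 := L.sep_le R 0 Z hR (fun z hz => by rw [sub_zero]; exact hZR z hz) hZs
    have hRe : (0 : ℝ) < R ^ L.e := by positivity
    calc (Z.card : ℝ) * (R ^ L.e)⁻¹ ≤ (L.C * R ^ L.e) * (R ^ L.e)⁻¹ := by gcongr
      _ = L.C := by field_simp
      _ ≤ 16 * L.C * (1 + Real.log R) := by nlinarith

end Pool.PQ
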