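import Pool.Agent.Work.MP_972ac7_Q.Interface2
import Pool.Agent.Work.MP_972ac7_P.B_ISO

set_option autoImplicit false

open MeasureTheory NumberField IsDedekindDomain
open scoped Quaternion

noncomputable section

namespace Pool.PQ

open Pool.PL Pool.TFD Pool.TC

theorem ISQ_range2 {F : Type} [Field F] [NumberField F] (hPFG : Stmt_PFG) (n : 𝓞 F) (hn : n ≠ 0) (x : F)
    (hx : ∀ w : HeightOneSpectrum (𝓞 F), n ∉ w.asIdeal → av w x ≤ 1) :
    ∃ r : Localization.Away n, ISO_phi n hn r = x := by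
  classical
  obtain ⟨-, -, p3, p4⟩ := hPFG F
  have hfin := p4 n hn
  have hlt : ∀ w : HeightOneSpectrum (𝓞 F), n ∈ w.asIdeal → av w (n : F) < 1 := by
    intro w hw
    refine lt_of_le_of_ne (av_int w n) ?_
    intro h
    exact (av_int_eq_one_iff w n).1 h hw
  have hm : ∀ w : HeightOneSpectrum (𝓞 F), n ∈ w.asIdeal →
      ∃ m : ℕ, av w (n : F) ^ m * av w x ≤ 1 := by
    intro w hw
    have h1 : Filter.Tendsto (fun m : ℕ => av w (n : F) ^ m * av w x) Filter.atTop
        (nhds (0 * av w x)) :=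
      (tendsto_pow_atTop_nhds_zero_of_lt_one (av_nonneg _ _) (hlt w hw)).mul_const _
    rw [zero_mul] at h1
    obtain ⟨m, hm⟩ := (h1.eventually (gt_mem_nhds (show (0 : ℝ) < 1 from one_pos))).exists
    exact ⟨m, hm.le⟩
  choose! f hf using hm
  let S := hfin.toFinset
  let M := ∑ w ∈ S, f w
  have hall : ∀ w : HeightOneSpectrum (𝓞 F), av w ((n : F) ^ M * x) ≤ 1 := by
    intro w
    rw [av_mul, ISO_pow]
    by_cases hw : n ∈ w.asIdeal
    · have hle : f w ≤ M := by
        apply Finset.single_le_sum (f := f) (fun _ _ => Nat.zero_le _)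
        rw [Set.Finite.mem_toFinset]
        exact hw
      calc av w (n : F) ^ M * av w x ≤ av w (n : F) ^ (f w) * av w x :=
            mul_le_mul_of_nonneg_right
              (pow_le_pow_of_le_one (av_nonneg _ _) (av_int w n) hle) (av_nonneg _ _)
        _ ≤ 1 := hf w hw
    · rw [(av_int_eq_one_iff w n).2 hw, one_pow, one_mul]
      exact hx w hw
  obtain ⟨y, hy⟩ := p3 _ hall
  have hu : IsUnit (algebraMap (𝓞 F) (Localization.Away n) (n ^ M)) := by
    rw [map_pow]
    exact (IsLocalization.Away.algebraMap_isUnit n).pow M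
  obtain ⟨u, hu⟩ := hu
  refine ⟨(u⁻¹ : (Localization.Away n)ˣ) * algebraMap (𝓞 F) (Localization.Away n) y, ?_⟩
  have e1 : ISO_phi n hn (u : Localization.Away n) = (n : F) ^ M := by
    rw [hu, ISO_phi_alg]
    exact map_pow (algebraMap (𝓞 F) F) n M
  have hne : (n : F) ^ M ≠ 0 := pow_ne_zero _ (ISO_ne n hn)
  have e2 : ISO_phi n hn ((u⁻¹ : (Localization.Away n)ˣ) : Localization.Away n) * (n : F) ^ M =
      1 := by
    rw [← e1, ← map_mul, Units.inv_mul, map_one]
  rw [map_mul, ISO_phi_alg, hy, ← mul_assoc, e2, one_mul]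

theorem p_ISQ (hPFG : Stmt_PFG) : Stmt_ISQ := by
  intro F _ _ a b n hn
  have ha := ISO_phi_alg n hn a
  have hb := ISO_phi_alg n hn b
  let M : HL a b n → ℍ[F, (a : F), (b : F)] := ISO_map (ISO_phi n hn) _ _ (a : F) (b : F)
  have hMu : ∀ z : HL a b n, z ∈ unitary (HL a b n) →
      M z ∈ unitary ℍ[F, (a : F), (b : F)] := by
    intro z hz
    rw [mem_unitary_iff_nrq] at hz ⊢
    change nrq (ISO_map (ISO_phi n hn) _ _ (a : F) (b : F) z) = 1
    rw [ISO_map_nrq _ _ _ _ _ ha hb, hz, map_one]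
  let Ψ : unitary (HL a b n) →* GU a b n :=
    { toFun := fun z => ⟨⟨M z.1, hMu z.1 z.2⟩, by
        rw [mem_GU]
        intro w hw
        exact ⟨ISO_range1 n hn _ w hw, ISO_range1 n hn _ w hw, ISO_range1 n hn _ w hw,
          ISO_range1 n hn _ w hw⟩⟩
      map_one' := by
        apply Subtype.ext
        apply Subtype.ext
        exact ISO_map_one _ _ _ _ _
      map_mul' := by
        intro z w
        apply Subtype.ext
        apply Subtype.ext
        exact ISO_map_mul _ _ _ _ _ ha hb _ _ }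
  have hbij : Function.Bijective Ψ := by
    constructor
    · intro z w h
      have h1 : M z.1 = M w.1 := congrArg (fun t => t.1.1) h
      exact Subtype.ext (ISO_map_inj _ _ _ _ _ (ISO_phi_inj n hn) h1)
    · rintro ⟨⟨z, hz⟩, hzG⟩
      have hG : ∀ w : HeightOneSpectrum (𝓞 F), n ∉ w.asIdeal → CB w z 1 := hzG
      obtain ⟨r1, h1⟩ := ISQ_range2 hPFG n hn z.re fun w hw => (hG w hw).1
      obtain ⟨r2, h2⟩ := ISQ_range2 hPFG n hn z.imI fun w hw => (hG w hw).2.1
      obtain ⟨r3, h3⟩ := ISQ_range2 hPFG n hn z.imJ fun w hw => (hG w hw).2.2.1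
      obtain ⟨r4, h4⟩ := ISQ_range2 hPFG n hn z.imK fun w hw => (hG w hw).2.2.2
      let z' : HL a b n := ⟨r1, r2, r3, r4⟩
      have hz' : M z' = z := QuaternionAlgebra.ext h1 h2 h3 h4
      have hzu : z' ∈ unitary (HL a b n) := by
        rw [mem_unitary_iff_nrq]
        apply ISO_phi_inj n hn
        rw [map_one, ← ISO_map_nrq (ISO_phi n hn) _ _ (a : F) (b : F) ha hb]
        change nrq (M z') = 1
        rw [hz']
        exact (mem_unitary_iff_nrq _).1 hz
      exact ⟨⟨z', hzu⟩, Subtype.ext (Subtype.ext hz')⟩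
  exact ⟨(MulEquiv.ofBijective Ψ hbij).symm⟩

end Pool.PQ
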