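import Pool.Agent.Work.MP_972ac7_Q.Interface2

set_option autoImplicit false

/-! # THEOREM PP, block IWG (helper74) -/

open MeasureTheory NumberField IsDedekindDomain
open scoped Quaternion ENNReal

noncomputable section

namespace Pool.PQ

open Pool.PL Pool.TFD Pool.TC

theorem IWG_cell (D β : ℝ) (hβ : 0 < β) (h : β ≤ D) : ∃ (M : ℕ) (c : ℝ → Fin M),
    (M : ℝ) * β ≤ 5 * D ∧ ∀ s t : ℝ, |s| ≤ D → |t| ≤ D → c s = c t → |s - t| ≤ β / 2 := by
  have hs : 0 < β / 2 := by linarith
  have hD : 0 < D := lt_of_lt_of_le hβ h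
  refine ⟨⌊4 * D / β⌋₊ + 1, fun t => ⟨min ⌊(t + D) / (β / 2)⌋₊ ⌊4 * D / β⌋₊, by omega⟩, ?_, ?_⟩
  · have h1 : (⌊4 * D / β⌋₊ : ℝ) ≤ 4 * D / β := Nat.floor_le (by positivity)
    have h2 : 4 * D / β * β = 4 * D := by field_simp
    push_cast
    nlinarith
  · intro s t hs1 ht1 hc
    have hfl : ∀ r : ℝ, |r| ≤ D → 0 ≤ (r + D) / (β / 2) ∧
        ⌊(r + D) / (β / 2)⌋₊ ≤ ⌊4 * D / β⌋₊ := by
      intro r hr
      have h3 := abs_le.1 hr
      refine ⟨div_nonneg (by linarith [h3.1]) hs.le, Nat.floor_le_floor ?_⟩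
      rw [div_le_div_iff₀ hs hβ]
      nlinarith [h3.2]
    have h4 := hfl s hs1
    have h5 := hfl t ht1
    have h6 : ⌊(s + D) / (β / 2)⌋₊ = ⌊(t + D) / (β / 2)⌋₊ := by
      have h7 := congrArg Fin.val hc
      simp only [min_eq_left h4.2, min_eq_left h5.2] at h7
      exact h7
    have a1 := Nat.floor_le h4.1
    have a2 := Nat.lt_floor_add_one ((s + D) / (β / 2))
    have b1 := Nat.floor_le h5.1
    have b2 := Nat.lt_floor_add_one ((t + D) / (β / 2))
    rw [h6] at a1 a2
    have e1 : (s + D) / (β / 2) * (β / 2) = s + D := by field_simp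
    have e2 : (t + D) / (β / 2) * (β / 2) = t + D := by field_simp
    have c1 : (s + D) / (β / 2) - (t + D) / (β / 2) ≤ 1 := by linarith
    have c2 : (t + D) / (β / 2) - (s + D) / (β / 2) ≤ 1 := by linarith
    have d1 : (s + D) - (t + D) ≤ β / 2 := by
      have := mul_le_mul_of_nonneg_right c1 hs.le
      rw [sub_mul, e1, e2, one_mul] at this
      exact this
    have d2 : (t + D) - (s + D) ≤ β / 2 := by
      have := mul_le_mul_of_nonneg_right c2 hs.le
      rw [sub_mul, e1, e2, one_mul] at this
      exact this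
    rw [abs_le]
    constructor <;> linarith

theorem p_IWG : Stmt_IWG := by
  intro F _ _ w
  refine ⟨25, by norm_num, ?_⟩
  intro D β hβ hD
  have hD0 : 0 < D := lt_of_lt_of_le hβ hD
  obtain ⟨M, c, hM, hc⟩ := IWG_cell D β hβ hD
  have hre : ∀ x : F, w x ≤ D → |(w.embedding x).re| ≤ D := fun x hx =>
    (Complex.abs_re_le_norm _).trans ((InfinitePlace.norm_embedding_eq w x).le.trans hx)
  have him : ∀ x : F, w x ≤ D → |(w.embedding x).im| ≤ D := fun x hx =>
    (Complex.abs_im_le_norm _).trans ((InfinitePlace.norm_embedding_eq w x).le.trans hx)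
  rcases w.isReal_or_isComplex with hw | hw
  · have hm : w.mult = 1 := InfinitePlace.mult_isReal ⟨w, hw⟩
    refine ⟨M, fun x => c (w.embedding x).re, ?_, ?_⟩
    · rw [hm, pow_one, pow_one]
      linarith
    · intro x y hx hy hxy
      have h1 := hc _ _ (hre x hx) (hre y hy) hxy
      have hreal : ComplexEmbedding.IsReal w.embedding := InfinitePlace.isReal_iff.1 hw
      have hz : ∀ z : F, (w.embedding z).im = 0 := by
        intro z
        have h2 : (starRingEnd ℂ) (w.embedding z) = w.embedding z := by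
          have h3 := RingHom.congr_fun hreal z
          exact h3
        exact Complex.conj_eq_iff_im.1 h2
      rw [← InfinitePlace.norm_embedding_eq w (x - y), map_sub]
      have h4 : ‖w.embedding x - w.embedding y‖ ≤
          |(w.embedding x - w.embedding y).re| + |(w.embedding x - w.embedding y).im| :=
        Complex.norm_le_abs_re_add_abs_im _
      rw [Complex.sub_im, hz x, hz y, sub_zero, abs_zero, add_zero, Complex.sub_re] at h4
      linarith
  · have hm : w.mult = 2 := InfinitePlace.mult_isComplex ⟨w, hw⟩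
    refine ⟨M * M, fun x => finProdFinEquiv (c (w.embedding x).re, c (w.embedding x).im), ?_, ?_⟩
    · rw [hm]
      push_cast
      have h1 : 0 ≤ (M : ℝ) * β := by positivity
      nlinarith
    · intro x y hx hy hxy
      have h0 := finProdFinEquiv.injective hxy
      rw [Prod.mk.injEq] at h0
      have h1 := hc _ _ (hre x hx) (hre y hy) h0.1
      have h2 := hc _ _ (him x hx) (him y hy) h0.2
      rw [← InfinitePlace.norm_embedding_eq w (x - y), map_sub]
      have h4 : ‖w.embedding x - w.embedding y‖ ≤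
          |(w.embedding x - w.embedding y).re| + |(w.embedding x - w.embedding y).im| :=
        Complex.norm_le_abs_re_add_abs_im _
      rw [Complex.sub_im, Complex.sub_re] at h4
      linarith

end Pool.PQ
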