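import Pool.Agent.Work.MP_972ac7_Q.Interface2
import Pool.Agent.Work.MP_972ac7_P.B_ADC

set_option autoImplicit false

/-! # Block KCG (MP_972ac7_al, THEOREM PP, part II): the completions -/

open MeasureTheory NumberField IsDedekindDomain
open scoped Quaternion ENNReal

noncomputable section

namespace Pool.PQ

open Pool.PL Pool.TFD Pool.TC

/-- transport of the local field data along an isometric isomorphism -/
theorem KCG_tr {k k' : Type} [NormedField k] [NormedField k'] (φ : k ≃+* k')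
    (hφ : ∀ x, ‖φ x‖ = ‖x‖) (L : LG k') : ∃ L₁ : LG k, L₁.e = L.e := by
  classical
  have hs : ∀ x, ‖φ.symm x‖ = ‖x‖ := fun x => by
    rw [← hφ, RingEquiv.apply_symm_apply]
  refine ⟨{ e := L.e, he := L.he, C := L.C, one_le := L.one_le, ϑ := φ.symm L.ϑ,
            one_lt := by rw [hs]; exact L.one_lt, two_ne := ?_, sep_le := ?_, sep_ge := ?_,
            cov := ?_ }, rfl⟩
  · intro h
    have h1 : φ (2 : k) = 0 := by rw [h, map_zero]
    rw [map_ofNat] at h1
    exact L.two_ne h1
  · intro r c Z hr h1 h2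
    have h3 := L.sep_le r (φ c) (Z.map φ.toEquiv.toEmbedding) hr ?_ ?_
    · rwa [Finset.card_map] at h3
    · intro z hz
      obtain ⟨y, hy, rfl⟩ := Finset.mem_map.1 hz
      change ‖φ y - φ c‖ ≤ r
      rw [← map_sub, hφ]
      exact h1 y hy
    · intro z hz z' hz' hne
      obtain ⟨y, hy, rfl⟩ := Finset.mem_map.1 hz
      obtain ⟨y', hy', rfl⟩ := Finset.mem_map.1 hz'
      change 1 ≤ ‖φ y - φ y'‖
      rw [← map_sub, hφ]
      refine h2 y hy y' hy' ?_
      rintro rfl
      exact hne rfl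
  · intro R hR
    obtain ⟨Z, hZ1, hZ2, hZ3⟩ := L.sep_ge R hR
    refine ⟨Z.map φ.symm.toEquiv.toEmbedding, ?_, ?_, ?_⟩
    · intro z hz
      obtain ⟨y, hy, rfl⟩ := Finset.mem_map.1 hz
      change ‖φ.symm y‖ ≤ R
      rw [hs]
      exact hZ1 y hy
    · intro z hz z' hz' hne
      obtain ⟨y, hy, rfl⟩ := Finset.mem_map.1 hz
      obtain ⟨y', hy', rfl⟩ := Finset.mem_map.1 hz'
      change 1 ≤ ‖φ.symm y - φ.symm y'‖
      rw [← map_sub, hs]
      refine hZ2 y hy y' hy' ?_
      rintro rfl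
      exact hne rfl
    · rw [Finset.card_map]
      exact hZ3
  · intro r hr hr1
    obtain ⟨N, cl, hN, hcl⟩ := L.cov r hr hr1
    refine ⟨N, fun x => cl (φ x), hN, fun x y hx hy hxy => ?_⟩
    have h1 := hcl (φ x) (φ y) (by rw [hφ]; exact hx) (by rw [hφ]; exact hy) hxy
    rwa [← map_sub, hφ] at h1

theorem KCG_proper {k k' : Type} [NormedField k] [NormedField k'] [ProperSpace k'] (φ : k ≃ᵢ k') :
    ProperSpace k := by
  refine ⟨fun x r => ?_⟩
  have h1 : Metric.closedBall x r = φ ⁻¹' Metric.closedBall (φ x) r := by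
    ext y
    simp [Metric.mem_closedBall]
  rw [h1]
  exact φ.toHomeomorph.isCompact_preimage.2 (isCompact_closedBall _ _)

theorem KCG_fin (hLFG : Stmt_LFG) (F : Type) [Field F] [NumberField F]
    (w : HeightOneSpectrum (𝓞 F)) : ProperSpace (w.adicCompletion F) ∧
    ∃ (e : F →+* w.adicCompletion F) (L : LG (w.adicCompletion F)),
      (∀ x, ‖e x‖ ^ L.e = av w x) ∧
      ∀ a b : 𝓞 F, SplitAt a b w ↔
        ∃ x y : w.adicCompletion F, x ^ 2 - e (a : F) * y ^ 2 = e (b : F) := by
  obtain ⟨hu, hp, h2, hn, ha, ⟨L, -⟩⟩ := Pool.PL.p_ADC F w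
  obtain ⟨L', hL'⟩ := hLFG (w.adicCompletion F) L h2
  refine ⟨hp, algebraMap F (w.adicCompletion F), L', fun x => ?_, fun a b => ?_⟩
  · rw [hL', pow_one]
    exact hn x
  · unfold SplitAt
    rw [ha, ha]

theorem KCG_norm (F : Type) [Field F] (w : InfinitePlace F) (x : F) :
    ‖algebraMap F w.Completion x‖ = w x :=
  InfinitePlace.Completion.norm_coe w ((WithAbs.equiv w.1).symm x)

theorem KCG_inf (hR : Stmt_RLG) (hC : Stmt_CLX) (F : Type) [Field F] [NumberField F]
    (w : InfinitePlace F) : ProperSpace w.Completion ∧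
    ∃ (e : F →+* w.Completion) (L : LG w.Completion),
      (∀ x, ‖e x‖ ^ L.e = w x ^ w.mult) ∧
      ∀ a b : 𝓞 F, (∃ x y : w.Completion, x ^ 2 - algebraMap F w.Completion (a : F) * y ^ 2 =
        algebraMap F w.Completion (b : F)) ↔
        ∃ x y : w.Completion, x ^ 2 - e (a : F) * y ^ 2 = e (b : F) := by
  have key : ProperSpace w.Completion ∧ ∃ L : LG w.Completion, L.e = w.mult := by
    by_cases hw : w.IsReal
    · obtain ⟨L, hL⟩ := hR
      refine ⟨KCG_proper (InfinitePlace.Completion.isometryEquivRealOfIsReal hw), ?_⟩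
      obtain ⟨L₁, hL₁⟩ := KCG_tr (InfinitePlace.Completion.ringEquivRealOfIsReal hw) (fun x => by
        have h1 := (InfinitePlace.Completion.isometry_extensionEmbeddingOfIsReal hw).dist_eq x 0
        rw [map_zero, dist_zero_right, dist_zero_right] at h1
        exact h1) L
      refine ⟨L₁, ?_⟩
      rw [hL₁, hL, InfinitePlace.mult, if_pos hw]
    · obtain ⟨L, hL⟩ := hC
      have hw' : w.IsComplex := InfinitePlace.not_isReal_iff_isComplex.1 hw
      refine ⟨KCG_proper (InfinitePlace.Completion.isometryEquivComplexOfIsComplex hw'), ?_⟩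
      obtain ⟨L₁, hL₁⟩ := KCG_tr (InfinitePlace.Completion.ringEquivComplexOfIsComplex hw')
        (fun x => by
          have h1 := (InfinitePlace.Completion.isometry_extensionEmbedding w).dist_eq x 0
          rw [map_zero, dist_zero_right, dist_zero_right] at h1
          exact h1) L
      refine ⟨L₁, ?_⟩
      rw [hL₁, hL, InfinitePlace.mult, if_neg hw]
  obtain ⟨hp, L, hL⟩ := key
  refine ⟨hp, algebraMap F w.Completion, L, fun x => ?_, fun a b => Iff.rfl⟩
  rw [hL, KCG_norm]

theorem p_KCG (hLFG : Stmt_LFG) (hRLG : Stmt_RLG) (hCLX : Stmt_CLX) : Stmt_KCG := by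
  intro F _ _ p
  cases p with
  | inl w => exact KCG_fin hLFG F w
  | inr w => exact KCG_inf hRLG hCLX F w

end Pool.PQ
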