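import Pool.Agent.Work.MP_972ac7_Q.Interface1

set_option autoImplicit false

/-! # Block KPX: the representation on `L²(G ⧸ Γ)` -/

open MeasureTheory
open scoped ENNReal

noncomputable section

namespace Pool.PQ

open Pool.PL Pool.TFD Pool.TC

theorem KPX_polish (G : Type) [Group G] [TopologicalSpace G] [IsTopologicalGroup G]
    [LocallyCompactSpace G] [SecondCountableTopology G] [T2Space G] : PolishSpace G := by
  let := IsTopologicalGroup.rightUniformSpace G
  have : IsRightUniformGroup G := { uniformity_eq := rfl }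
  have : CompleteSpace G := IsRightUniformGroup.completeSpace_of_weaklyLocallyCompactSpace
  have : (uniformity G).IsCountablyGenerated := by
    rw [uniformity_eq_comap_nhds_one]; infer_instance
  have : TopologicalSpace.IsCompletelyMetrizableSpace G := inferInstance
  infer_instance

section

variable {X : Type} [MeasurableSpace X] {m : Measure X}

theorem KPX_ae {φ ψ : X → X} (hφ : MeasurePreserving φ m m) (hψ : MeasurePreserving ψ m m)
    (f : Lp ℂ 2 m) :
    Lp.compMeasurePreserving ψ hψ (Lp.compMeasurePreserving φ hφ f) =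
      Lp.compMeasurePreserving (φ ∘ ψ) (hφ.comp hψ) f :=
  (Lp.compMeasurePreserving_comp_apply (hf := hφ) (hf' := hψ) f).symm

end

theorem KPX_congr {X : Type} [MeasurableSpace X] {m : Measure X} {φ ψ : X → X}
    (hφ : MeasurePreserving φ m m) (hψ : MeasurePreserving ψ m m) (h : φ = ψ) (f : Lp ℂ 2 m) :
    Lp.compMeasurePreserving φ hφ f = Lp.compMeasurePreserving ψ hψ f := by
  subst h; rfl

/-- the isometry -/
def KPX_A {G X : Type} [Group G] [MulAction G X] [MeasurableSpace X] {m : Measure X}
    (hm : ∀ g : G, MeasurePreserving (fun x : X => g • x) m m) (g : G) :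
    Lp ℂ 2 m ≃ₗᵢ[ℂ] Lp ℂ 2 m :=
  { toLinearEquiv := LinearEquiv.ofLinearMap
      (Lp.compMeasurePreservingₗ ℂ (fun x : X => g⁻¹ • x) (hm g⁻¹))
      (Lp.compMeasurePreservingₗ ℂ (fun x : X => g • x) (hm g))
      (by
        ext1 f
        show Lp.compMeasurePreserving _ (hm g⁻¹) (Lp.compMeasurePreserving _ (hm g) f) = f
        rw [KPX_ae]
        refine (KPX_congr _ (MeasurePreserving.id m) ?_ f).trans
          (Lp.compMeasurePreserving_id_apply f)
        funext x
        simp)
      (by
        ext1 f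
        show Lp.compMeasurePreserving _ (hm g) (Lp.compMeasurePreserving _ (hm g⁻¹) f) = f
        rw [KPX_ae]
        refine (KPX_congr _ (MeasurePreserving.id m) ?_ f).trans
          (Lp.compMeasurePreserving_id_apply f)
        funext x
        simp)
    norm_map' := fun f => Lp.norm_compMeasurePreserving f (hm g⁻¹) }

theorem KPX_A_apply {G X : Type} [Group G] [MulAction G X] [MeasurableSpace X] {m : Measure X}
    (hm : ∀ g : G, MeasurePreserving (fun x : X => g • x) m m) (g : G) (f : Lp ℂ 2 m) :
    KPX_A hm g f = Lp.compMeasurePreserving (fun x : X => g⁻¹ • x) (hm g⁻¹) f := rfl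

/-- the representation -/
def KPX_pi {G X : Type} [Group G] [MulAction G X] [MeasurableSpace X] {m : Measure X}
    (hm : ∀ g : G, MeasurePreserving (fun x : X => g • x) m m) :
    G →* (Lp ℂ 2 m ≃ₗᵢ[ℂ] Lp ℂ 2 m) where
  toFun := KPX_A hm
  map_one' := by
    ext1 f
    rw [KPX_A_apply]
    refine (KPX_congr _ (MeasurePreserving.id m) ?_ f).trans
      (Lp.compMeasurePreserving_id_apply f)
    funext x
    simp
  map_mul' g h := by
    ext1 f
    show KPX_A hm (g * h) f = KPX_A hm g (KPX_A hm h f)
    rw [KPX_A_apply, KPX_A_apply, KPX_A_apply, KPX_ae]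
    refine KPX_congr _ _ ?_ f
    funext x
    simp [mul_smul]

theorem p_KPX : Stmt_KPX := by
  intro G _ _ _ _ _ _ _ _ Γ μ m c hQ
  have := hQ.disc
  have := hQ.prob
  have : PolishSpace G := KPX_polish G
  have hcl : IsClosed (Γ : Set G) := Subgroup.isClosed_of_discrete
  have : T2Space (G ⧸ Γ) := by
    rw [t2Space_iff_of_isOpenQuotientMap (QuotientGroup.isOpenQuotientMap_mk (N := Γ))]
    have h : {q : G × G | (QuotientGroup.mk q.1 : G ⧸ Γ) = QuotientGroup.mk q.2} =
        (fun q : G × G => q.1⁻¹ * q.2) ⁻¹' (Γ : Set G) := by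
      ext q
      simp [QuotientGroup.eq]
    rw [h]
    exact hcl.preimage (by fun_prop)
  have : SecondCountableTopology (G ⧸ Γ) := inferInstance
  have : LocallyCompactSpace (G ⧸ Γ) := inferInstance
  have : BorelSpace (G ⧸ Γ) := CosetSpace.borelSpace
  have : T3Space (G ⧸ Γ) := inferInstance
  have : TopologicalSpace.MetrizableSpace (G ⧸ Γ) :=
    TopologicalSpace.metrizableSpace_of_t3_secondCountable _
  have : SigmaCompactSpace (G ⧸ Γ) := inferInstance
  have : m.InnerRegularCompactLTTop := inferInstance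
  refine ⟨KPX_pi hQ.pres, fun g f => ?_, fun f => ?_⟩
  · show ⇑(KPX_A hQ.pres g f) =ᵐ[m] _
    rw [KPX_A_apply]
    exact Lp.coeFn_compMeasurePreserving f (hQ.pres g⁻¹)
  · let F : C(G, C(G ⧸ Γ, G ⧸ Γ)) :=
      ContinuousMap.curry ⟨fun p : G × (G ⧸ Γ) => p.1⁻¹ • p.2, by fun_prop⟩
    have h := Continuous.compMeasurePreservingLp (μ := m) (ν := m) (p := 2) (E := ℂ)
      (f := fun _ : G => f) (g := fun g : G => F g) continuous_const F.continuous
      (fun g => hQ.pres g⁻¹) (by simp)
    exact h

end Pool.PQ
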