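import Pool.Agent.Work.MP_972ac7_Q.Interface2

set_option autoImplicit false

/-! # THEOREM PP, part II: block LBG, local bounds of the coordinates -/

open MeasureTheory NumberField IsDedekindDomain
open scoped Quaternion ENNReal

noncomputable section

namespace Pool.PQ

open Pool.PL Pool.TFD Pool.TC

theorem LBG_conj {k : Type} [NormedField k] (g : SL2 k) (m : Matrix (Fin 2) (Fin 2) k) {R : ℝ}
    (h : nm g ≤ R) : mnm m ≤ 4 * R ^ 2 *
      mnm ((g : Matrix (Fin 2) (Fin 2) k) * m * ((g⁻¹ : SL2 k) : Matrix (Fin 2) (Fin 2) k)) := by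
  obtain ⟨M, hM⟩ : ∃ M, M = (g : Matrix (Fin 2) (Fin 2) k) * m *
    ((g⁻¹ : SL2 k) : Matrix (Fin 2) (Fin 2) k) := ⟨_, rfl⟩
  have h1 : ((g⁻¹ : SL2 k) : Matrix (Fin 2) (Fin 2) k) * (g : Matrix (Fin 2) (Fin 2) k) = 1 := by
    rw [← Matrix.SpecialLinearGroup.coe_mul, inv_mul_cancel, Matrix.SpecialLinearGroup.coe_one]
  have h2 : ((g⁻¹ : SL2 k) : Matrix (Fin 2) (Fin 2) k) * M *
      (g : Matrix (Fin 2) (Fin 2) k) = m := by
    have e1 : ((g⁻¹ : SL2 k) : Matrix (Fin 2) (Fin 2) k) * M * (g : Matrix (Fin 2) (Fin 2) k) =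
        (((g⁻¹ : SL2 k) : Matrix (Fin 2) (Fin 2) k) * (g : Matrix (Fin 2) (Fin 2) k)) * m *
        (((g⁻¹ : SL2 k) : Matrix (Fin 2) (Fin 2) k) * (g : Matrix (Fin 2) (Fin 2) k)) := by
      rw [hM]
      simp only [mul_assoc]
    rw [e1, h1, one_mul, mul_one]
  rw [← hM]
  have h3 : mnm ((g⁻¹ : SL2 k) : Matrix (Fin 2) (Fin 2) k) ≤ R := by
    have h4 := nm_inv g
    unfold nm at h4 h
    rw [h4]
    exact h
  have h5 : mnm (g : Matrix (Fin 2) (Fin 2) k) ≤ R := h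
  have hR : 0 ≤ R := (nm_nonneg g).trans h
  have hM0 := mnm_nonneg M
  have h6 : mnm (((g⁻¹ : SL2 k) : Matrix (Fin 2) (Fin 2) k) * M) ≤ 2 * (R * mnm M) :=
    (mnm_mul_le2 _ _).trans (mul_le_mul_of_nonneg_left (mul_le_mul_of_nonneg_right h3 hM0)
      (by norm_num))
  calc mnm m = mnm (((g⁻¹ : SL2 k) : Matrix (Fin 2) (Fin 2) k) * M *
        (g : Matrix (Fin 2) (Fin 2) k)) := by rw [h2]
    _ ≤ 2 * (mnm (((g⁻¹ : SL2 k) : Matrix (Fin 2) (Fin 2) k) * M) *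
        mnm (g : Matrix (Fin 2) (Fin 2) k)) := mnm_mul_le2 _ _
    _ ≤ 2 * ((2 * (R * mnm M)) * R) :=
        mul_le_mul_of_nonneg_left (mul_le_mul h6 h5 (mnm_nonneg _)
          (mul_nonneg (by norm_num) (mul_nonneg hR hM0))) (by norm_num)
    _ = 4 * R ^ 2 * mnm M := by ring

theorem LBG_co {F k : Type} [Field F] [NormedField k] {e : F →+* k} {a b : F}
    {z : ℍ[F, a, b]} {c : ℝ} (h : CE e z c) : ∀ j, ‖e (co z j)‖ ≤ c := by
  obtain ⟨h1, h2, h3, h4⟩ := h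
  intro j
  fin_cases j
  · exact h1
  · exact h2
  · exact h3
  · exact h4

theorem LBG_cb {F : Type} [Field F] [NumberField F] {w : HeightOneSpectrum (𝓞 F)} {a b : F}
    {z : ℍ[F, a, b]} {c : ℝ} (h : CB w z c) : ∀ j, av w (co z j) ≤ c := by
  obtain ⟨h1, h2, h3, h4⟩ := h
  intro j
  fin_cases j
  · exact h1
  · exact h2
  · exact h3
  · exact h4

theorem LBG_co_sub {F : Type} [Field F] {a b : F} (z : ℍ[F, a, b]) :
    co (z - 1) 0 = z.re - 1 ∧ ∀ j, j ≠ 0 → co (z - 1) j = co z j := by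
  refine ⟨?_, fun j hj => ?_⟩
  · change (z - 1).re = z.re - 1
    simp
  · fin_cases j
    · exact absurd rfl hj
    · change (z - 1).imI = z.imI
      simp
    · change (z - 1).imJ = z.imJ
      simp
    · change (z - 1).imK = z.imK
      simp

theorem LBG_fin {F : Type} [Field F] [NumberField F] (n : 𝓞 F) (hn : n ≠ 0) :
    {w : HeightOneSpectrum (𝓞 F) | n ∈ w.asIdeal}.Finite := by
  have h1 : (Ideal.span {n} : Ideal (𝓞 F)) ≠ 0 := by
    rw [Ne, Ideal.zero_eq_bot, Ideal.span_singleton_eq_bot]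
    exact hn
  refine (Ideal.finite_factors h1).subset ?_
  intro w hw
  exact (Ideal.dvd_span_singleton).2 hw

theorem p_LBG (hNBG : Stmt_NBG) (hCVG : Stmt_CVG) : Stmt_LBG := by
  classical
  intro F _ _ ι _ k _ D W v hWv R
  have := Fintype.ofFinite ι
  choose CN hCN1 hCN2 hCN3 using fun i => hNBG F ι k D i
  obtain ⟨R', hR'⟩ : ∃ R' : ℝ, R' = max R 1 := ⟨_, rfl⟩
  have hR1 : R ≤ R' := by
    rw [hR']
    exact le_max_left _ _
  have hR2 : 1 ≤ R' := by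
    rw [hR']
    exact le_max_right _ _
  have hR0 : 0 < R' := lt_of_lt_of_le one_pos hR2
  obtain ⟨B, hB⟩ : ∃ B : ι → ℝ, ∀ i, B i = 4 * CN i * R' ^ 3 := ⟨_, fun _ => rfl⟩
  have hB1 : ∀ i, 1 ≤ B i := by
    intro i
    rw [hB]
    have h1 : (1 : ℝ) ≤ R' ^ 3 := one_le_pow₀ hR2
    have h2 := hCN1 i
    nlinarith
  have hB0 : ∀ i, 0 ≤ B i := fun i => le_trans zero_le_one (hB1 i)
  have hBe : ∀ i, B i ^ (D.L i).e ≤ B i ^ 2 := by
    intro i
    apply pow_le_pow_right₀ (hB1 i)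
    rcases (D.L i).he with h | h <;> rw [h]
    norm_num
  -- the key estimate
  have key : ∀ (i : ι) (x : F) (t : ℝ), 0 ≤ t → ‖D.e i x‖ ≤ B i * t →
      nv (D.pl i) x ≤ B i ^ 2 * t ^ (D.L i).e := by
    intro i x t ht h
    rw [← D.he i x]
    calc ‖D.e i x‖ ^ (D.L i).e ≤ (B i * t) ^ (D.L i).e := pow_le_pow_left₀ (norm_nonneg _) h _
      _ = B i ^ (D.L i).e * t ^ (D.L i).e := mul_pow _ _ _
      _ ≤ _ := mul_le_mul_of_nonneg_right (hBe i) (pow_nonneg ht _)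
  have conj : ∀ (g : GG k), (∀ i, nm (g i) ≤ R) → ∀ (i : ι) (z : ℍ[F, (D.a : F), (D.b : F)])
      (t : ℝ), mnm ((g i : Matrix (Fin 2) (Fin 2) (k i)) * D.mt i z *
        (((g i)⁻¹ : SL2 (k i)) : Matrix (Fin 2) (Fin 2) (k i))) ≤ t →
      ∀ j, ‖D.e i (co z j)‖ ≤ CN i * (4 * R' ^ 2 * t) := by
    intro g hg i z t ht
    apply LBG_co
    apply hCN3
    refine (LBG_conj (g i) (D.mt i z) ((hg i).trans hR1)).trans ?_
    exact mul_le_mul_of_nonneg_left ht (by positivity)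
  -- the infinite places
  have hinf : ∀ w : InfinitePlace F, ∃ C : ℝ, 0 ≤ C ∧ ((∀ i, D.pl i ≠ .inr w) →
      ∀ z : ℍ[F, (D.a : F), (D.b : F)], nrq z = 1 → ∀ j, w (co z j) ^ w.mult ≤ C) := by
    intro w
    by_cases hw : ∀ i, D.pl i ≠ .inr w
    · obtain ⟨C, hC⟩ := D.nsi w hw
      refine ⟨max 1 C, le_trans zero_le_one (le_max_left _ _), fun _ z hz j => ?_⟩
      have h1 := hC z
      rw [hz, map_one, mul_one] at h1
      obtain ⟨h2, h3, h4, h5⟩ := h1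
      have h6 : w (co z j) ^ 2 ≤ C := by
        fin_cases j
        · exact h2
        · exact h3
        · exact h4
        · exact h5
      rcases le_total (w (co z j)) 1 with h | h
      · exact le_trans (pow_le_one₀ (apply_nonneg _ _) h) (le_max_left _ _)
      · exact le_trans (pow_le_pow_right₀ h (mult_le_two w)) (le_trans h6 (le_max_right _ _))
    · exact ⟨0, le_rfl, fun h => absurd h hw⟩
  choose Ci hCi0 hCi using hinf
  -- the finite places dividing n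
  have hfinp : ∀ w : HeightOneSpectrum (𝓞 F), ∃ C : ℝ, 0 ≤ C ∧ ((∀ i, D.pl i ≠ .inl w) →
      D.n ∈ w.asIdeal → ∀ z : ℍ[F, (D.a : F), (D.b : F)], nrq z = 1 →
      ∀ j, av w (co z j) ≤ C) := by
    intro w
    by_cases hw : (∀ i, D.pl i ≠ .inl w) ∧ D.n ∈ w.asIdeal
    · obtain ⟨C, hC⟩ := D.nsp w hw.2 hw.1
      refine ⟨max 0 C, le_max_left _ _, fun _ _ z hz j => ?_⟩
      exact (LBG_cb (hC z hz) j).trans (le_max_right _ _)
    · exact ⟨0, le_rfl, fun h h' => absurd ⟨h, h'⟩ hw⟩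
  choose Cf hCf0 hCf using hfinp
  obtain ⟨S, hS⟩ : ∃ S : Finset (HeightOneSpectrum (𝓞 F)), ∀ w, D.n ∈ w.asIdeal → w ∈ S :=
    ⟨(LBG_fin D.n D.hn).toFinset, fun w hw => (Set.Finite.mem_toFinset _).2 hw⟩
  obtain ⟨CC, hCC0, hCC⟩ := hCVG F (D.pl v) (-(D.a : F)) (-(D.b : F)) ((D.a : F) * (D.b : F))
    (B v ^ 2) (pow_pos (lt_of_lt_of_le one_pos (hB1 v)) 2)
  obtain ⟨S1, hS1⟩ : ∃ S1 : ℝ, S1 = ∑ i, B i ^ 2 := ⟨_, rfl⟩
  obtain ⟨S2, hS2⟩ : ∃ S2 : ℝ, S2 = ∑ w, Ci w := ⟨_, rfl⟩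
  obtain ⟨S3, hS3⟩ : ∃ S3 : ℝ, S3 = ∑ w ∈ S, Cf w := ⟨_, rfl⟩
  have hS10 : 0 ≤ S1 := by
    rw [hS1]
    exact Finset.sum_nonneg fun i _ => sq_nonneg _
  have hS20 : 0 ≤ S2 := by
    rw [hS2]
    exact Finset.sum_nonneg fun i _ => hCi0 i
  have hS30 : 0 ≤ S3 := by
    rw [hS3]
    exact Finset.sum_nonneg fun i _ => hCf0 i
  have hle1 : ∀ i, B i ^ 2 ≤ S1 := by
    intro i
    rw [hS1]
    exact Finset.single_le_sum (f := fun i => B i ^ 2) (fun i _ => sq_nonneg _) (Finset.mem_univ i)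
  have hle2 : ∀ w, Ci w ≤ S2 := by
    intro w
    rw [hS2]
    exact Finset.single_le_sum (f := Ci) (fun i _ => hCi0 i) (Finset.mem_univ w)
  have hle3 : ∀ w ∈ S, Cf w ≤ S3 := by
    intro w hw
    rw [hS3]
    exact Finset.single_le_sum (f := Cf) (fun i _ => hCf0 i) hw
  refine ⟨S1 + S2 + S3 + CC + 1, by linarith, ?_⟩
  intro g hg Q Y hQ hY z hz hv hW hu
  have hn1 : nrq z.1 = 1 := (mem_unitary_iff_nrq _).1 z.2
  -- conjugates
  have hcoe : ∀ i, (((g * D.Th z * g⁻¹ : GG k) i : SL2 (k i)) : Matrix (Fin 2) (Fin 2) (k i)) =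
      (g i : Matrix (Fin 2) (Fin 2) (k i)) * D.mt i z.1 *
        (((g i)⁻¹ : SL2 (k i)) : Matrix (Fin 2) (Fin 2) (k i)) := by
    intro i
    rw [Pi.mul_apply, Pi.mul_apply, Pi.inv_apply, Matrix.SpecialLinearGroup.coe_mul,
      Matrix.SpecialLinearGroup.coe_mul]
    rfl
  have hgg : ∀ i, (g i : Matrix (Fin 2) (Fin 2) (k i)) *
      (((g i)⁻¹ : SL2 (k i)) : Matrix (Fin 2) (Fin 2) (k i)) = 1 := by
    intro i
    rw [← Matrix.SpecialLinearGroup.coe_mul, mul_inv_cancel, Matrix.SpecialLinearGroup.coe_one]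
  have hdif : (((g * D.Th z * g⁻¹ : GG k) v : SL2 (k v)) : Matrix (Fin 2) (Fin 2) (k v)) - 1 =
      (g v : Matrix (Fin 2) (Fin 2) (k v)) * D.mt v (z.1 - 1) *
        (((g v)⁻¹ : SL2 (k v)) : Matrix (Fin 2) (Fin 2) (k v)) := by
    have e1 : D.mt v (z.1 - 1) = D.mt v z.1 - 1 := by
      unfold Cx.mt
      rw [mq_sub, mq_one]
    rw [hcoe, e1, mul_sub, sub_mul, mul_one, hgg]
  -- the place v
  have hv0 := dnm_nonneg ((g * D.Th z * g⁻¹ : GG k) v)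
  have hv1 : ∀ j, nv (D.pl v) (co (z.1 - 1) j) * Q ≤ B v ^ 2 := by
    intro j
    have h1 := conj g hg v (z.1 - 1) (dnm ((g * D.Th z * g⁻¹ : GG k) v)) (by
      rw [← hdif]
      exact le_rfl) j
    have h2 : ‖D.e v (co (z.1 - 1) j)‖ ≤ B v * dnm ((g * D.Th z * g⁻¹ : GG k) v) := by
      refine h1.trans ?_
      rw [hB]
      have h3 : R' ^ 2 ≤ R' ^ 3 := pow_le_pow_right₀ hR2 (by norm_num)
      have h4 : 0 ≤ CN v := le_trans zero_le_one (hCN1 v)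
      calc CN v * (4 * R' ^ 2 * dnm ((g * D.Th z * g⁻¹ : GG k) v)) =
          4 * CN v * R' ^ 2 * dnm ((g * D.Th z * g⁻¹ : GG k) v) := by ring
        _ ≤ 4 * CN v * R' ^ 3 * dnm ((g * D.Th z * g⁻¹ : GG k) v) :=
          mul_le_mul_of_nonneg_right (mul_le_mul_of_nonneg_left h3 (by linarith)) hv0
    have h3 := key v _ _ hv0 h2
    calc nv (D.pl v) (co (z.1 - 1) j) * Q ≤
        (B v ^ 2 * dnm ((g * D.Th z * g⁻¹ : GG k) v) ^ (D.L v).e) * Q :=
          mul_le_mul_of_nonneg_right h3 (by linarith)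
      _ = B v ^ 2 * (dnm ((g * D.Th z * g⁻¹ : GG k) v) ^ (D.L v).e * Q) := by ring
      _ ≤ B v ^ 2 * 1 := mul_le_mul_of_nonneg_left hv (sq_nonneg _)
      _ = B v ^ 2 := mul_one _
  obtain ⟨hc0, hcj⟩ := LBG_co_sub z.1
  have hv2 : nv (D.pl v) (z.1.re - 1) * Q ≤ B v ^ 2 := by
    rw [← hc0]
    exact hv1 0
  have hv3 : ∀ j, j ≠ 0 → nv (D.pl v) (co z.1 j) * Q ≤ B v ^ 2 := by
    intro j hj
    rw [← hcj j hj]
    exact hv1 j
  refine ⟨?_, ?_, ?_, ?_, ?_, ?_, ?_⟩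
  · have h1 := hCC (co z.1) Q hQ (by
      change z.1.re ^ 2 + -(D.a : F) * z.1.imI ^ 2 + -(D.b : F) * z.1.imJ ^ 2 +
        ((D.a : F) * (D.b : F)) * z.1.imK ^ 2 = 1
      rw [← hn1]
      unfold nrq
      ring) hv2 hv3
    have h2 : nv (D.pl v) (z.1.re - 1) * Q ^ 2 ≤ CC := h1
    linarith
  · intro j hj
    have h1 := hv3 j hj
    have h2 := hle1 v
    linarith
  · intro j
    have hW0 := nm_nonneg ((g * D.Th z * g⁻¹ : GG k) W)
    have h1 := conj g hg W z.1 (nm ((g * D.Th z * g⁻¹ : GG k) W)) (by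
      rw [← hcoe]
      exact le_rfl) j
    have h2 : ‖D.e W (co z.1 j)‖ ≤ B W * nm ((g * D.Th z * g⁻¹ : GG k) W) := by
      refine h1.trans ?_
      rw [hB]
      have h3 : R' ^ 2 ≤ R' ^ 3 := pow_le_pow_right₀ hR2 (by norm_num)
      have h4 : 0 ≤ CN W := le_trans zero_le_one (hCN1 W)
      calc CN W * (4 * R' ^ 2 * nm ((g * D.Th z * g⁻¹ : GG k) W)) =
          4 * CN W * R' ^ 2 * nm ((g * D.Th z * g⁻¹ : GG k) W) := by ring
        _ ≤ 4 * CN W * R' ^ 3 * nm ((g * D.Th z * g⁻¹ : GG k) W) :=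
          mul_le_mul_of_nonneg_right (mul_le_mul_of_nonneg_left h3 (by linarith)) hW0
    have h3 := key W _ _ hW0 h2
    have h4 : B W ^ 2 * nm ((g * D.Th z * g⁻¹ : GG k) W) ^ (D.L W).e ≤ S1 * Y :=
      mul_le_mul (hle1 W) hW (pow_nonneg hW0 _) hS10
    have h5 : S1 * Y ≤ (S1 + S2 + S3 + CC + 1) * Y :=
      mul_le_mul_of_nonneg_right (by linarith) (by linarith)
    exact (h3.trans h4).trans h5
  · intro u huv huW j
    have h1 := conj g hg u z.1 R' (by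
      rw [← hcoe]
      exact (hu u huv huW).trans hR1) j
    have h2 : ‖D.e u (co z.1 j)‖ ≤ B u * 1 := by
      refine h1.trans (le_of_eq ?_)
      rw [hB]
      ring
    have h3 := key u _ _ zero_le_one h2
    rw [one_pow, mul_one] at h3
    have h4 := hle1 u
    linarith
  · intro w hw j
    have h1 := hCi w hw z.1 hn1 j
    have h2 := hle2 w
    linarith
  · intro w hw hwn j
    have h1 := hCf w hw hwn z.1 hn1 j
    have h2 := hle3 w (hS w hwn)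
    linarith
  · intro w hw j
    exact LBG_cb ((mem_GU.1 hz) w hw) j

end Pool.PQ
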