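import Pool.Agent.Work.MP_972ac7_Q.Interface2
import Pool.Agent.Work.MP_972ac7_P.B_RES

set_option autoImplicit false

/-! # THEOREM PP, part II: block LFG, nonarchimedean local fields -/

open MeasureTheory NumberField IsDedekindDomain
open scoped Quaternion ENNReal

noncomputable section

namespace Pool.PQ

open Pool.PL Pool.TFD Pool.TC

theorem LFG_near {k : Type} [NormedField k] (L : LocF k) {r : ℝ} (hr : 1 ≤ r) :
    ∃ j : ℕ, (L.q : ℝ) ^ j ≤ r ∧ r < (L.q : ℝ) ^ (j + 1) :=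
  exists_nat_pow_near hr L.one_lt

theorem LFG_norm {k : Type} [NormedField k] (L : LocF k) (j : ℕ) :
    ‖L.ϖ ^ j‖ = ((L.q : ℝ) ^ j)⁻¹ := by
  rw [norm_pow, L.norm_ϖ, inv_pow]

theorem LFG_class {k : Type} [NormedField k] [IsUltrametricDist k] (L : LocF k) (j : ℕ) :
    ∃ cl : k → Fin (L.q ^ j), ∀ x y : k, ‖x‖ ≤ 1 → ‖y‖ ≤ 1 → cl x = cl y →
      ‖x - y‖ ≤ ((L.q : ℝ) ^ j)⁻¹ := by
  classical
  obtain ⟨R, -, -, hR⟩ := Pool.PL.p_RES k L j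
  have h0 : 0 < L.q ^ j := pow_pos (by have := L.two_le; omega) j
  refine ⟨fun x => if h : ∃ i, ‖x - R i‖ ≤ ((L.q : ℝ) ^ j)⁻¹ then h.choose else ⟨0, h0⟩, ?_⟩
  intro x y hx hy hxy
  have h1 := hR x hx
  have h2 := hR y hy
  simp only [] at hxy
  rw [dif_pos h1, dif_pos h2] at hxy
  have h3 := h1.choose_spec
  have h4 := h2.choose_spec
  rw [hxy] at h3
  have h5 : x - y = (x - R h2.choose) + (-(y - R h2.choose)) := by ring
  rw [h5]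
  refine (IsUltrametricDist.norm_add_le_max _ _).trans (max_le h3 ?_)
  rw [norm_neg]
  exact h4

theorem LFG_sep_le {k : Type} [NormedField k] [IsUltrametricDist k] (L : LocF k) (r : ℝ) (c : k)
    (Z : Finset k) (hr : 1 ≤ r) (hZ : ∀ z ∈ Z, ‖z - c‖ ≤ r)
    (hs : ∀ z ∈ Z, ∀ z' ∈ Z, z ≠ z' → 1 ≤ ‖z - z'‖) : (Z.card : ℝ) ≤ (L.q : ℝ) ^ 2 * r ^ 1 := by
  classical
  obtain ⟨j, hj1, hj2⟩ := LFG_near L hr
  obtain ⟨cl, hcl⟩ := LFG_class L (j + 2)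
  have hq := L.q_pos
  have hqp : (0 : ℝ) < (L.q : ℝ) ^ (j + 1) := pow_pos hq _
  have hb : ∀ z ∈ Z, ‖L.ϖ ^ (j + 1) * (z - c)‖ ≤ 1 := by
    intro z hz
    rw [norm_mul, LFG_norm]
    calc ((L.q : ℝ) ^ (j + 1))⁻¹ * ‖z - c‖ ≤ ((L.q : ℝ) ^ (j + 1))⁻¹ * (L.q : ℝ) ^ (j + 1) :=
          mul_le_mul_of_nonneg_left ((hZ z hz).trans hj2.le) (inv_nonneg.2 hqp.le)
      _ = 1 := inv_mul_cancel₀ hqp.ne'
  have hcard : Z.card ≤ (Finset.univ : Finset (Fin (L.q ^ (j + 2)))).card := by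
    apply Finset.card_le_card_of_injOn (fun z => cl (L.ϖ ^ (j + 1) * (z - c)))
    · intro z _
      exact Finset.mem_univ _
    · intro z hz z' hz' heq
      by_contra hne
      have h1 := hs z hz z' hz' hne
      have h2 := hcl _ _ (hb z hz) (hb z' hz') heq
      have h3 : L.ϖ ^ (j + 1) * (z - c) - L.ϖ ^ (j + 1) * (z' - c) =
          L.ϖ ^ (j + 1) * (z - z') := by ring
      rw [h3, norm_mul, LFG_norm] at h2
      have h4 : ((L.q : ℝ) ^ (j + 2))⁻¹ = ((L.q : ℝ) ^ (j + 1))⁻¹ * (L.q : ℝ)⁻¹ := by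
        rw [pow_succ _ (j + 1), mul_inv]
      rw [h4] at h2
      have h5 : ‖z - z'‖ ≤ (L.q : ℝ)⁻¹ := le_of_mul_le_mul_left h2 (inv_pos.2 hqp)
      have h6 : (L.q : ℝ)⁻¹ < 1 := inv_lt_one_of_one_lt₀ L.one_lt
      linarith
  rw [Finset.card_univ, Fintype.card_fin] at hcard
  calc (Z.card : ℝ) ≤ ((L.q ^ (j + 2) : ℕ) : ℝ) := by exact_mod_cast hcard
    _ = (L.q : ℝ) ^ 2 * (L.q : ℝ) ^ j := by
      push_cast
      ring
    _ ≤ (L.q : ℝ) ^ 2 * r ^ 1 := by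
      rw [pow_one]
      exact mul_le_mul_of_nonneg_left hj1 (pow_nonneg hq.le _)

theorem LFG_sep_ge {k : Type} [NormedField k] [IsUltrametricDist k] (L : LocF k) (R : ℝ)
    (hR : 1 ≤ R) : ∃ Z : Finset k, (∀ z ∈ Z, ‖z‖ ≤ R) ∧
    (∀ z ∈ Z, ∀ z' ∈ Z, z ≠ z' → 1 ≤ ‖z - z'‖) ∧ R ^ 1 ≤ (L.q : ℝ) ^ 2 * Z.card := by
  classical
  obtain ⟨j, hj1, hj2⟩ := LFG_near L hR
  obtain ⟨P, hP1, hP2, -⟩ := Pool.PL.p_RES k L j
  have hq := L.q_pos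
  have hqp : (0 : ℝ) < (L.q : ℝ) ^ j := pow_pos hq _
  have hne : (L.ϖ ^ j)⁻¹ ≠ 0 := inv_ne_zero (pow_ne_zero _ L.ϖ_ne)
  have hnorm : ‖(L.ϖ ^ j)⁻¹‖ = (L.q : ℝ) ^ j := by
    rw [norm_inv, LFG_norm, inv_inv]
  have hinj : Function.Injective (fun i => (L.ϖ ^ j)⁻¹ * P i) := by
    intro i i' h
    have h1 : P i = P i' := mul_left_cancel₀ hne h
    apply hP2
    rw [h1, sub_self, norm_zero]
    exact inv_nonneg.2 hqp.le
  refine ⟨Finset.univ.image (fun i => (L.ϖ ^ j)⁻¹ * P i), ?_, ?_, ?_⟩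
  · intro z hz
    obtain ⟨i, -, rfl⟩ := Finset.mem_image.1 hz
    rw [norm_mul, hnorm]
    calc (L.q : ℝ) ^ j * ‖P i‖ ≤ (L.q : ℝ) ^ j * 1 := mul_le_mul_of_nonneg_left (hP1 i) hqp.le
      _ ≤ R := by rw [mul_one]; exact hj1
  · intro z hz z' hz' hzz
    obtain ⟨i, -, rfl⟩ := Finset.mem_image.1 hz
    obtain ⟨i', -, rfl⟩ := Finset.mem_image.1 hz'
    have h1 : i ≠ i' := fun h => hzz (by rw [h])
    have h2 : ((L.q : ℝ) ^ j)⁻¹ < ‖P i - P i'‖ := by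
      by_contra hcon
      exact h1 (hP2 i i' (not_lt.1 hcon))
    rw [← mul_sub, norm_mul, hnorm]
    calc (1 : ℝ) = (L.q : ℝ) ^ j * ((L.q : ℝ) ^ j)⁻¹ := (mul_inv_cancel₀ hqp.ne').symm
      _ ≤ _ := mul_le_mul_of_nonneg_left h2.le hqp.le
  · rw [Finset.card_image_of_injective _ hinj, Finset.card_univ, Fintype.card_fin, pow_one]
    push_cast
    have h1 : (1 : ℝ) ≤ L.q := L.one_lt.le
    calc R ≤ (L.q : ℝ) ^ (j + 1) := hj2.le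
      _ = (L.q : ℝ) * (L.q : ℝ) ^ j := pow_succ' _ _
      _ ≤ (L.q : ℝ) ^ 2 * (L.q : ℝ) ^ j := by
        apply mul_le_mul_of_nonneg_right _ hqp.le
        nlinarith

theorem LFG_cov {k : Type} [NormedField k] [IsUltrametricDist k] (L : LocF k) (r : ℝ)
    (hr : 0 < r) (hr1 : r ≤ 1) : ∃ (N : ℕ) (cl : k → Fin N), (N : ℝ) * r ^ 1 ≤ (L.q : ℝ) ^ 2 ∧
    ∀ x y : k, ‖x‖ ≤ 1 → ‖y‖ ≤ 1 → cl x = cl y → ‖x - y‖ ≤ r := by
  have h0 : 1 ≤ 1 / r := by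
    rw [le_div_iff₀ hr]
    linarith
  obtain ⟨j, hj1, hj2⟩ := LFG_near L h0
  obtain ⟨cl, hcl⟩ := LFG_class L (j + 1)
  have hq := L.q_pos
  have hqp : (0 : ℝ) < (L.q : ℝ) ^ (j + 1) := pow_pos hq _
  refine ⟨L.q ^ (j + 1), cl, ?_, ?_⟩
  · rw [pow_one]
    push_cast
    have h1 : (1 : ℝ) ≤ L.q := L.one_lt.le
    have h2 : (L.q : ℝ) ^ j * r ≤ 1 := by
      rw [← le_div_iff₀ hr]
      exact hj1
    calc (L.q : ℝ) ^ (j + 1) * r = (L.q : ℝ) * ((L.q : ℝ) ^ j * r) := by ring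
      _ ≤ (L.q : ℝ) * 1 := mul_le_mul_of_nonneg_left h2 hq.le
      _ ≤ (L.q : ℝ) ^ 2 := by nlinarith
  · intro x y hx hy hxy
    refine (hcl x y hx hy hxy).trans ?_
    rw [inv_le_comm₀ hqp hr, ← one_div]
    exact hj2.le

theorem p_LFG : Stmt_LFG := by
  intro k _ _ L h2
  exact ⟨{ e := 1
           he := Or.inl rfl
           C := (L.q : ℝ) ^ 2
           one_le := one_le_pow₀ L.one_lt.le
           ϑ := L.ϖ⁻¹
           one_lt := by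
             rw [norm_inv, L.norm_ϖ, inv_inv]
             exact L.one_lt
           two_ne := h2
           sep_le := LFG_sep_le L
           sep_ge := LFG_sep_ge L
           cov := LFG_cov L }, rfl⟩

end Pool.PQ
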