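import Pool.Agent.Work.MP_972ac7_Q.Interface2

set_option autoImplicit false

/-! # THEOREM PP, part II: block LPG, many integers in a box (after B_LPT of P) -/

open MeasureTheory NumberField IsDedekindDomain
open scoped Quaternion ENNReal

noncomputable section

namespace Pool.PQ

open Pool.PL Pool.TFD Pool.TC

theorem LPG_nat {F : Type} [Field F] [NumberField F] (w : InfinitePlace F) (m : ℕ) :
    w ((m : F)) = (m : ℝ) := by
  rw [← w.norm_embedding_eq, map_natCast, Complex.norm_natCast]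

theorem p_LPG : Stmt_LPG := by
  classical
  intro F _ _
  obtain ⟨d, hd⟩ : ∃ d : ℕ, d = Module.finrank ℚ F := ⟨_, rfl⟩
  let b := NumberField.RingOfIntegers.basis F
  have hcard : Fintype.card (Module.Free.ChooseBasisIndex ℤ (𝓞 F)) = d := by
    rw [hd, ← NumberField.RingOfIntegers.rank F]
    exact (Module.finrank_eq_card_basis b).symm
  obtain ⟨C₀, hC₀⟩ : ∃ x : ℝ, x = 1 + ∑ w : InfinitePlace F, ∑ i, w ((b i : 𝓞 F) : F) := ⟨_, rfl⟩
  have hsum : ∀ w : InfinitePlace F, ∑ i, w ((b i : 𝓞 F) : F) ≤ C₀ := by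
    intro w
    have h1 : ∑ i, w ((b i : 𝓞 F) : F) ≤ ∑ w : InfinitePlace F, ∑ i, w ((b i : 𝓞 F) : F) :=
      Finset.single_le_sum (f := fun w : InfinitePlace F => ∑ i, w ((b i : 𝓞 F) : F))
        (fun τ _ => Finset.sum_nonneg fun i _ => apply_nonneg τ _) (Finset.mem_univ w)
    linarith
  have hC₀1 : 1 ≤ C₀ := by
    have h1 : 0 ≤ ∑ w : InfinitePlace F, ∑ i, w ((b i : 𝓞 F) : F) :=
      Finset.sum_nonneg fun τ _ => Finset.sum_nonneg fun i _ => apply_nonneg τ _
    linarith
  have hC₀0 : 0 < C₀ := by linarith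
  refine ⟨(C₀⁻¹) ^ d, by positivity, ?_⟩
  intro B hB
  obtain ⟨K, hK⟩ : ∃ K : ℕ, K = ⌊B / C₀⌋₊ := ⟨_, rfl⟩
  have hK1 : (K : ℝ) ≤ B / C₀ := by
    rw [hK]
    exact Nat.floor_le (by positivity)
  have hK2 : B / C₀ ≤ (K : ℝ) + 1 := by
    rw [hK]
    exact (Nat.lt_floor_add_one _).le
  let f : (Module.Free.ChooseBasisIndex ℤ (𝓞 F) → ℕ) → 𝓞 F := fun m => ∑ i, ((m i : ℕ) : ℤ) • b i
  have hf : Function.Injective f := by
    intro m m' h
    have h1 : b.equivFun.symm (fun i => ((m i : ℕ) : ℤ)) =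
        b.equivFun.symm (fun i => ((m' i : ℕ) : ℤ)) := by
      rw [Module.Basis.equivFun_symm_apply, Module.Basis.equivFun_symm_apply]
      exact h
    have h2 := b.equivFun.symm.injective h1
    funext i
    exact_mod_cast congrFun h2 i
  refine ⟨(Fintype.piFinset fun _ => Finset.range (K + 1)).image f, ?_, ?_⟩
  · rw [Finset.card_image_of_injective _ hf, Fintype.card_piFinset]
    simp only [Finset.card_range, Finset.prod_const, Finset.card_univ, hcard]
    rw [← hd, ← mul_pow, inv_mul_eq_div]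
    push_cast
    exact pow_le_pow_left₀ (by positivity) hK2 d
  · intro y hy w
    rw [Finset.mem_image] at hy
    obtain ⟨m, hm, rfl⟩ := hy
    rw [Fintype.mem_piFinset] at hm
    have h1 : ((f m : 𝓞 F) : F) = ∑ i, ((m i : ℕ) : F) * ((b i : 𝓞 F) : F) := by
      have h2 : algebraMap (𝓞 F) F (f m) = ∑ i, ((m i : ℕ) : F) * algebraMap (𝓞 F) F (b i) := by
        simp only [f, map_sum, zsmul_eq_mul, Int.cast_natCast, map_mul, map_natCast]
      exact h2
    rw [h1]
    calc w (∑ i, ((m i : ℕ) : F) * ((b i : 𝓞 F) : F))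
        ≤ ∑ i, w (((m i : ℕ) : F) * ((b i : 𝓞 F) : F)) := w.1.sum_le _ _
      _ ≤ ∑ i, (K : ℝ) * w ((b i : 𝓞 F) : F) := by
          refine Finset.sum_le_sum fun i _ => ?_
          rw [map_mul, LPG_nat]
          have h3 : (m i : ℝ) ≤ K := by
            have := Finset.mem_range.1 (hm i)
            exact_mod_cast Nat.lt_succ_iff.1 this
          exact mul_le_mul_of_nonneg_right h3 (apply_nonneg w _)
      _ = (K : ℝ) * ∑ i, w ((b i : 𝓞 F) : F) := by rw [Finset.mul_sum]
      _ ≤ (B / C₀) * C₀ := mul_le_mul hK1 (hsum w)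
          (Finset.sum_nonneg fun i _ => apply_nonneg w _) (by positivity)
      _ = B := by field_simp

end Pool.PQ
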