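import Pool.Agent.Work.MP_972ac7_Q.Interface1

set_option autoImplicit false

/-! # THEOREM PP (MP_972ac7_al), block LPV: Lipschitz vectors (helper10) -/

open MeasureTheory
open scoped ENNReal

noncomputable section

namespace Pool.PQ

open Pool.PL Pool.TFD Pool.TC

section LPV

variable {k : Type} [NormedField k]

theorem LPV_coord (i j : Fin 2) :
    Continuous fun g : SL2 k => (g : Matrix (Fin 2) (Fin 2) k) i j := by
  have h1 : Continuous fun g : SL2 k => (g : Matrix (Fin 2) (Fin 2) k) :=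
    continuous_subtype_val
  exact (continuous_apply j).comp ((continuous_apply i).comp h1)

theorem LPV_cont : Continuous fun g : SL2 k => dnm g := by
  have h1 : ∀ i j : Fin 2, Continuous fun g : SL2 k =>
      ‖((g : Matrix (Fin 2) (Fin 2) k) - 1) i j‖ := fun i j =>
    ((LPV_coord i j).sub continuous_const).norm
  exact ((h1 0 0).max (h1 0 1)).max ((h1 1 0).max (h1 1 1))

theorem LPV_neg (m : Matrix (Fin 2) (Fin 2) k) : mnm (-m) = mnm m := by
  unfold mnm
  simp only [Matrix.neg_apply, norm_neg]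

theorem LPV_one : mnm (1 : Matrix (Fin 2) (Fin 2) k) ≤ 1 := by
  rw [mnm_le]
  intro i j
  fin_cases i <;> fin_cases j <;> simp

theorem LPV_nm (g : SL2 k) : nm g ≤ dnm g + 1 := by
  unfold nm dnm
  have h1 : (g : Matrix (Fin 2) (Fin 2) k) = ((g : Matrix (Fin 2) (Fin 2) k) - 1) + 1 := by
    abel
  calc mnm (g : Matrix (Fin 2) (Fin 2) k)
      = mnm (((g : Matrix (Fin 2) (Fin 2) k) - 1) + 1) := by rw [← h1]
    _ ≤ mnm ((g : Matrix (Fin 2) (Fin 2) k) - 1) + mnm (1 : Matrix (Fin 2) (Fin 2) k) :=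
        mnm_add_le2 _ _
    _ ≤ _ := by linarith [LPV_one (k := k)]

theorem LPV_lip (u g : SL2 k) : |dnm (u * g) - dnm g| ≤ 2 * (dnm u * nm g) := by
  have h1 : ((u * g : SL2 k) : Matrix (Fin 2) (Fin 2) k) - 1 =
      ((g : Matrix (Fin 2) (Fin 2) k) - 1) +
        ((u : Matrix (Fin 2) (Fin 2) k) - 1) * (g : Matrix (Fin 2) (Fin 2) k) := by
    rw [Matrix.SpecialLinearGroup.coe_mul, sub_mul, one_mul]
    abel
  have h2 : (g : Matrix (Fin 2) (Fin 2) k) - 1 =
      (((u * g : SL2 k) : Matrix (Fin 2) (Fin 2) k) - 1) +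
        (-((u : Matrix (Fin 2) (Fin 2) k) - 1)) * (g : Matrix (Fin 2) (Fin 2) k) := by
    rw [h1, neg_mul]
    abel
  have h3 := mnm_mul_le2 ((u : Matrix (Fin 2) (Fin 2) k) - 1) (g : Matrix (Fin 2) (Fin 2) k)
  have h4 := mnm_mul_le2 (-((u : Matrix (Fin 2) (Fin 2) k) - 1))
    (g : Matrix (Fin 2) (Fin 2) k)
  rw [LPV_neg] at h4
  rw [abs_le]
  unfold dnm nm
  constructor
  · have h5 : mnm ((g : Matrix (Fin 2) (Fin 2) k) - 1) ≤
        mnm (((u * g : SL2 k) : Matrix (Fin 2) (Fin 2) k) - 1) +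
        mnm ((-((u : Matrix (Fin 2) (Fin 2) k) - 1)) * (g : Matrix (Fin 2) (Fin 2) k)) := by
      conv_lhs => rw [h2]
      exact mnm_add_le2 _ _
    linarith
  · have h5 : mnm (((u * g : SL2 k) : Matrix (Fin 2) (Fin 2) k) - 1) ≤
        mnm ((g : Matrix (Fin 2) (Fin 2) k) - 1) +
        mnm (((u : Matrix (Fin 2) (Fin 2) k) - 1) * (g : Matrix (Fin 2) (Fin 2) k)) := by
      rw [h1]
      exact mnm_add_le2 _ _
    linarith

end LPV

theorem p_LPV (hTP2 : Stmt_TP2) : Stmt_LPV := by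
  intro k _ _ H _ _ _ π hπ E hE hinv f hf ε hε
  obtain ⟨t1, t2, t3, hcpt, hnb, -⟩ := hTP2 k
  have := t1
  have := t2
  have := t3
  have hU : {g : SL2 k | ‖π g f - f‖ < ε} ∈ nhds (1 : SL2 k) := by
    have h1 : Continuous fun g : SL2 k => ‖π g f - f‖ := ((hπ f).sub continuous_const).norm
    have h2 : ‖π 1 f - f‖ < ε := by
      rw [map_one]
      simpa using hε
    exact h1.continuousAt.preimage_mem_nhds (Iio_mem_nhds h2)
  obtain ⟨r₀, hr₀, hr₀U⟩ := hnb _ hU
  obtain ⟨r, hr, hr1, hrU⟩ : ∃ r : ℝ, 0 < r ∧ r ≤ 1 ∧ ∀ g : SL2 k, dnm g ≤ r →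
      ‖π g f - f‖ < ε :=
    ⟨min r₀ 1, lt_min hr₀ one_pos, min_le_right _ _,
      fun g hg => hr₀U (le_trans hg (min_le_left _ _))⟩
  set μ : Measure (SL2 k) := Measure.haar with hμ
  set ω : SL2 k → ℝ := fun g => max (r - dnm g) 0 with hω
  have hω0 : ∀ g, 0 ≤ ω g := fun g => le_max_right _ _
  have hωc : Continuous ω := (continuous_const.sub LPV_cont).max continuous_const
  have hωs : ∀ g, ω g ≠ 0 → dnm g ≤ r := by
    intro g h
    by_contra h'
    exact h (max_eq_right (by linarith))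
  have hK : IsCompact {g : SL2 k | nm g ≤ 8} := hcpt 8
  have hKm : MeasurableSet {g : SL2 k | nm g ≤ 8} := hK.measurableSet
  have hωK : ∀ u g : SL2 k, dnm u ≤ 1 → ω (u⁻¹ * g) ≠ 0 → nm g ≤ 8 := by
    intro u g hu h
    have h1 := hωs _ h
    have h2 := LPV_nm (u⁻¹ * g)
    have h3 := LPV_nm u
    have h4 : nm g ≤ 2 * (nm u * nm (u⁻¹ * g)) := by
      have := nm_mul_le2 u (u⁻¹ * g)
      rwa [mul_inv_cancel_left] at this
    have h5 : nm u * nm (u⁻¹ * g) ≤ 2 * 2 :=
      mul_le_mul (by linarith) (by linarith) (nm_nonneg _) (by norm_num)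
    linarith
  have hωK' : ∀ g : SL2 k, ω g ≠ 0 → nm g ≤ 8 := by
    intro g h
    have h1 := hωs _ h
    have h2 := LPV_nm g
    linarith
  -- integrability
  have hint : ∀ φ : SL2 k → ℂ, Continuous φ → (∀ g, φ g ≠ 0 → nm g ≤ 8) →
      ∀ F : SL2 k → H, Continuous F → Integrable (fun g => φ g • F g) μ := by
    intro φ hφ hφ0 F hF
    refine Continuous.integrable_of_hasCompactSupport (hφ.smul hF) ?_
    refine HasCompactSupport.intro hK fun g hg => ?_
    have h1 : φ g = 0 := by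
      by_contra h
      exact hg (hφ0 g h)
    rw [h1, zero_smul]
  have hωcs : HasCompactSupport ω := by
    refine HasCompactSupport.intro hK fun g hg => ?_
    by_contra h
    exact hg (hωK' g h)
  have hI : 0 < ∫ g, ω g ∂μ := by
    refine hωc.integral_pos_of_hasCompactSupport_nonneg_nonzero hωcs hω0 (x := 1) ?_
    have h1 : dnm (1 : SL2 k) = 0 := by
      unfold dnm
      rw [Matrix.SpecialLinearGroup.coe_one, sub_self]
      unfold mnm
      simp
    rw [hω]
    beta_reduce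
    rw [h1, sub_zero, max_eq_left hr.le]
    exact hr.ne'
  set I : ℝ := ∫ g, ω g ∂μ with hIdef
  have hωC : Continuous fun g => ((ω g : ℝ) : ℂ) := Complex.continuous_ofReal.comp hωc
  have hωC0 : ∀ g : SL2 k, ((ω g : ℝ) : ℂ) ≠ 0 → nm g ≤ 8 := fun g h =>
    hωK' g (fun h' => h (by rw [h', Complex.ofReal_zero]))
  set A : H := ∫ g, ((ω g : ℝ) : ℂ) • π g f ∂μ with hA
  have hnI : ‖((I : ℝ) : ℂ)⁻¹‖ = I⁻¹ := by
    rw [norm_inv, Complex.norm_real, Real.norm_of_nonneg hI.le]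
  have hIne : ((I : ℝ) : ℂ) ≠ 0 := Complex.ofReal_ne_zero.2 hI.ne'
  refine ⟨((I : ℝ) : ℂ)⁻¹ • A, ?_, ?_, ?_⟩
  · -- the vector is in `E`
    apply E.smul_mem
    have : CompleteSpace E := hE.completeSpace_coe
    have h1 : ∀ g, E.starProjection (((ω g : ℝ) : ℂ) • π g f) = ((ω g : ℝ) : ℂ) • π g f :=
      fun g => Submodule.starProjection_eq_self_iff.2 (E.smul_mem _ (hinv g f hf))
    have h2 := ContinuousLinearMap.integral_comp_comm (μ := μ) E.starProjection
      (hint _ hωC hωC0 _ (hπ f))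
    simp only [h1] at h2
    exact Submodule.starProjection_eq_self_iff.1 h2.symm
  · -- it is near `f`
    have h1 : A - ((I : ℝ) : ℂ) • f = ∫ g, ((ω g : ℝ) : ℂ) • (π g f - f) ∂μ := by
      have h0 : ∫ g, ((ω g : ℝ) : ℂ) ∂μ = ((I : ℝ) : ℂ) := integral_ofReal
      simp only [smul_sub]
      rw [integral_sub (hint _ hωC hωC0 _ (hπ f)) (hint _ hωC hωC0 _ continuous_const),
        integral_smul_const, h0]
    have h2 : ‖A - ((I : ℝ) : ℂ) • f‖ ≤ ∫ g, ω g * ε ∂μ := by
      rw [h1]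
      refine norm_integral_le_of_norm_le
        ((hωc.integrable_of_hasCompactSupport hωcs).mul_const ε)
        (Filter.Eventually.of_forall fun g => ?_)
      rw [norm_smul, Complex.norm_real, Real.norm_of_nonneg (hω0 g)]
      by_cases h : ω g = 0
      · rw [h, zero_mul, zero_mul]
      · exact mul_le_mul_of_nonneg_left (hrU g (hωs g h)).le (hω0 g)
    rw [integral_mul_const] at h2
    have h3 : ((I : ℝ) : ℂ)⁻¹ • A - f = ((I : ℝ) : ℂ)⁻¹ • (A - ((I : ℝ) : ℂ) • f) := by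
      rw [smul_sub, smul_smul, inv_mul_cancel₀ hIne, one_smul]
    rw [h3, norm_smul, hnI]
    calc I⁻¹ * ‖A - ((I : ℝ) : ℂ) • f‖ ≤ I⁻¹ * (I * ε) :=
          mul_le_mul_of_nonneg_left h2 (inv_nonneg.2 hI.le)
      _ = ε := by rw [← mul_assoc, inv_mul_cancel₀ hI.ne', one_mul]
  · -- it is Lipschitz
    refine ⟨I⁻¹ * (μ.real {g : SL2 k | nm g ≤ 8} * (16 * ‖f‖)), fun u hu => ?_⟩
    have hωu : Continuous fun g => ((ω (u⁻¹ * g) : ℝ) : ℂ) :=
      Complex.continuous_ofReal.comp (hωc.comp (continuous_const.mul continuous_id))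
    have hωu0 : ∀ g : SL2 k, ((ω (u⁻¹ * g) : ℝ) : ℂ) ≠ 0 → nm g ≤ 8 := fun g h =>
      hωK u g hu (fun h' => h (by rw [h', Complex.ofReal_zero]))
    have h1 : π u A = ∫ g, ((ω (u⁻¹ * g) : ℝ) : ℂ) • π g f ∂μ := by
      have h2 := ContinuousLinearMap.integral_comp_comm (μ := μ)
        ((π u).toContinuousLinearEquiv : H →L[ℂ] H) (hint _ hωC hωC0 _ (hπ f))
      have h3 : π u A = ∫ g, ((ω g : ℝ) : ℂ) • π (u * g) f ∂μ := by
        refine Eq.trans h2.symm ?_
        refine integral_congr_ae (Filter.Eventually.of_forall fun g => ?_)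
        change π u (((ω g : ℝ) : ℂ) • π g f) = ((ω g : ℝ) : ℂ) • π (u * g) f
        rw [map_smul, map_mul π u g]
        rfl
      rw [h3, ← integral_mul_left_eq_self
        (fun g => ((ω (u⁻¹ * g) : ℝ) : ℂ) • π g f) u]
      refine integral_congr_ae (Filter.Eventually.of_forall fun g => ?_)
      beta_reduce
      rw [inv_mul_cancel_left]
    have h2 : π u (((I : ℝ) : ℂ)⁻¹ • A) - ((I : ℝ) : ℂ)⁻¹ • A =
        ((I : ℝ) : ℂ)⁻¹ • ∫ g, (((ω (u⁻¹ * g) : ℝ) : ℂ) - ((ω g : ℝ) : ℂ)) • π g f ∂μ := by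
      simp only [sub_smul]
      rw [integral_sub (hint _ hωu hωu0 _ (hπ f)) (hint _ hωC hωC0 _ (hπ f)), ← h1, ← hA,
        smul_sub, map_smul]
    rw [h2, norm_smul, hnI]
    have h3 : ‖∫ g, (((ω (u⁻¹ * g) : ℝ) : ℂ) - ((ω g : ℝ) : ℂ)) • π g f ∂μ‖ ≤
        ∫ g, {g : SL2 k | nm g ≤ 8}.indicator (fun _ => 16 * dnm u * ‖f‖) g ∂μ := by
      refine norm_integral_le_of_norm_le ?_ (Filter.Eventually.of_forall fun g => ?_)
      · rw [integrable_indicator_iff hKm]
        exact integrableOn_const hK.measure_lt_top.ne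
      · rw [norm_smul, LinearIsometryEquiv.norm_map, ← Complex.ofReal_sub, Complex.norm_real,
          Real.norm_eq_abs]
        by_cases hg : nm g ≤ 8
        · rw [Set.indicator_of_mem (show g ∈ {g : SL2 k | nm g ≤ 8} from hg)]
          apply mul_le_mul_of_nonneg_right _ (norm_nonneg _)
          have h4 := LPV_lip u⁻¹ g
          rw [dnm_inv] at h4
          have h5 : |ω (u⁻¹ * g) - ω g| ≤ |(r - dnm (u⁻¹ * g)) - (r - dnm g)| :=
            abs_max_sub_max_le_abs _ _ _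
          have h6 : |(r - dnm (u⁻¹ * g)) - (r - dnm g)| = |dnm (u⁻¹ * g) - dnm g| := by
            rw [abs_sub_comm]
            congr 1
            ring
          have h7 : dnm u * nm g ≤ dnm u * 8 := mul_le_mul_of_nonneg_left hg (dnm_nonneg u)
          linarith
        · rw [Set.indicator_of_notMem (show g ∉ {g : SL2 k | nm g ≤ 8} from hg)]
          have h4 : ω (u⁻¹ * g) = 0 := by
            by_contra h
            exact hg (hωK u g hu h)
          have h5 : ω g = 0 := by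
            by_contra h
            exact hg (hωK' g h)
          rw [h4, h5, sub_self, abs_zero, zero_mul]
    rw [integral_indicator_const _ hKm, smul_eq_mul] at h3
    calc I⁻¹ * ‖∫ g, (((ω (u⁻¹ * g) : ℝ) : ℂ) - ((ω g : ℝ) : ℂ)) • π g f ∂μ‖
        ≤ I⁻¹ * (μ.real {g : SL2 k | nm g ≤ 8} * (16 * dnm u * ‖f‖)) :=
          mul_le_mul_of_nonneg_left h3 (inv_nonneg.2 hI.le)
      _ = _ := by ring

end Pool.PQ
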