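import Pool.Agent.Work.MP_972ac7_Q.Interface1

set_option autoImplicit false

open MeasureTheory Filter
open scoped ENNReal Topology

noncomputable section

namespace Pool.PQ

open Pool.PL Pool.TFD Pool.TC

theorem NMC_lim (a b x : ℝ) (hx0 : 0 ≤ x) (hx1 : x < 1) :
    Tendsto (fun n : ℕ => (a + b * n) * x ^ n) atTop (𝓝 0) := by
  have h1 := (tendsto_pow_atTop_nhds_zero_of_lt_one hx0 hx1).const_mul a
  have h2 := (tendsto_self_mul_const_pow_of_lt_one hx0 hx1).const_mul b
  have h3 := h1.add h2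
  rw [mul_zero, mul_zero, add_zero] at h3
  refine h3.congr fun n => ?_
  ring

theorem p_NMC : Stmt_NMC := by
  intro A ρ C δ₁ e he hA hρ hnum hC hδ₁
  obtain ⟨B, rfl⟩ : ∃ B, A = Real.exp B := ⟨Real.log A, (Real.exp_log (by linarith)).symm⟩
  obtain ⟨r, hr⟩ : ∃ r, 2 * ρ = Real.exp r :=
    ⟨Real.log (2 * ρ), (Real.exp_log (by linarith)).symm⟩
  rw [hr] at hnum ⊢
  have hB : 0 < B := by
    by_contra h
    push Not at h
    have := Real.exp_le_one_iff.2 h
    linarith
  have hrB : 44 * r + 43 * B ≤ 0 := by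
    rw [← Real.exp_nat_mul, ← Real.exp_nat_mul, ← Real.exp_add, Real.exp_le_one_iff] at hnum
    push_cast at hnum
    exact hnum
  have he0 : (0 : ℝ) < e := by exact_mod_cast he
  obtain ⟨c, hc⟩ : ∃ c : ℝ, c = 10 * B / (11 * e) := ⟨_, rfl⟩
  have hc0 : 0 < c := by rw [hc]; positivity
  have hec : (e : ℝ) * c = 10 * B / 11 := by
    rw [hc]
    field_simp
  have hx0 : (0 : ℝ) ≤ Real.exp (-(3 * B / 22)) := (Real.exp_pos _).le
  have hx1 : Real.exp (-(3 * B / 22)) < 1 := by
    rw [Real.exp_lt_one_iff]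
    linarith
  have hy0 : (0 : ℝ) ≤ Real.exp (-c) := (Real.exp_pos _).le
  have hy1 : Real.exp (-c) < 1 := by
    rw [Real.exp_lt_one_iff]
    linarith
  have h1 := NMC_lim (C * (1 + c)) (C * c) _ hx0 hx1
  have h2 := NMC_lim (Real.exp (-c)) 0 _ hy0 hy1
  have h3 := h1.eventually (gt_mem_nhds (Real.exp_pos (-(20 * B / 11))))
  have h4 := h2.eventually (gt_mem_nhds hδ₁)
  obtain ⟨n, hn1, hn2⟩ := (h3.and h4).exists
  have hy : Real.exp (-(c * ((n : ℝ) + 1))) = (Real.exp (-c) + 0 * n) * Real.exp (-c) ^ n := by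
    rw [← Real.exp_nat_mul, zero_mul, add_zero, ← Real.exp_add]
    congr 1
    ring
  refine ⟨Real.exp (-(c * ((n : ℝ) + 1))), n, Real.exp_pos _, ?_, ?_, ?_⟩
  · rw [hy]
    exact hn2.le
  · rw [← Real.exp_nat_mul, ← Real.exp_nat_mul, ← Real.exp_nat_mul, ← Real.exp_nat_mul,
      ← Real.exp_add, Real.exp_le_one_iff]
    push_cast
    have : 5 * ((2 * (n : ℝ) + 2) * B) + 11 * ((e : ℝ) * -(c * ((n : ℝ) + 1))) =
        10 * ((n : ℝ) + 1) * B - 11 * ((n : ℝ) + 1) * (e * c) := by ring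
    rw [this, hec]
    apply le_of_eq
    ring
  · have hlog : Real.log (1 / Real.exp (-(c * ((n : ℝ) + 1)))) = c * ((n : ℝ) + 1) := by
      rw [one_div, ← Real.exp_neg, Real.log_exp, neg_neg]
    have hr2 : Real.exp r ^ (2 * n) ≤ Real.exp (-(43 * n * B / 22)) := by
      rw [← Real.exp_nat_mul]
      apply Real.exp_le_exp.2
      push_cast
      have hn0 : (0 : ℝ) ≤ n := Nat.cast_nonneg n
      nlinarith
    have hx : Real.exp (-(43 * n * B / 22)) =
        Real.exp (-(3 * B / 22)) ^ n * Real.exp (-(20 * n * B / 11)) := by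
      rw [← Real.exp_nat_mul, ← Real.exp_add]
      congr 1
      ring
    have hd : (Real.exp (-(c * ((n : ℝ) + 1))) ^ e) ^ 2 =
        Real.exp (-(20 * B / 11)) * Real.exp (-(20 * n * B / 11)) := by
      rw [← Real.exp_nat_mul, ← Real.exp_nat_mul, ← Real.exp_add]
      congr 1
      push_cast
      have : 2 * ((e : ℝ) * -(c * ((n : ℝ) + 1))) = -(2 * ((n : ℝ) + 1) * (e * c)) := by ring
      rw [this, hec]
      ring
    rw [hlog, hd]
    calc C * (1 + c * ((n : ℝ) + 1)) * Real.exp r ^ (2 * n)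
        ≤ C * (1 + c * ((n : ℝ) + 1)) * Real.exp (-(43 * n * B / 22)) := by
          apply mul_le_mul_of_nonneg_left hr2
          positivity
      _ = (C * (1 + c) + C * c * n) * Real.exp (-(3 * B / 22)) ^ n *
          Real.exp (-(20 * n * B / 11)) := by
          rw [hx]
          ring
      _ < _ := mul_lt_mul_of_pos_right hn1 (Real.exp_pos _)

end Pool.PQ
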