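import Pool.Agent.Work.MP_972ac7_Q.Interface2

set_option autoImplicit false

open MeasureTheory NumberField IsDedekindDomain
open scoped Quaternion ENNReal

noncomputable section

namespace Pool.PQ

open Pool.PL Pool.TFD Pool.TC

open NumberField.InfinitePlace NumberField.InfinitePlace.Completion

theorem NSG_real {F : Type} [Field F] {w : InfinitePlace F} (hw : w.IsReal) (x : F) :
    ringEquivRealOfIsReal hw (algebraMap F w.Completion x) = embedding_of_isReal hw x := by
  simp

theorem NSG_cx {F : Type} [Field F] (a b : F) (w : InfinitePlace F) (hw : w.IsComplex) :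
    ∃ x y : w.Completion, x ^ 2 - algebraMap F w.Completion a * y ^ 2 =
      algebraMap F w.Completion b := by
  set e := ringEquivComplexOfIsComplex hw with he
  obtain ⟨s, hs⟩ := IsAlgClosed.exists_pow_nat_eq (e (algebraMap F w.Completion b))
    (n := 2) (by norm_num)
  refine ⟨e.symm s, 0, ?_⟩
  apply e.injective
  rw [map_sub, map_pow, RingEquiv.apply_symm_apply, hs]
  simp

theorem NSG_pos {F : Type} [Field F] (a b : F) (w : InfinitePlace F) (hw : w.IsReal)
    (ha : embedding_of_isReal hw a ≠ 0) (hb : embedding_of_isReal hw b ≠ 0)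
    (h : ¬ ∃ x y : w.Completion, x ^ 2 - algebraMap F w.Completion a * y ^ 2 =
      algebraMap F w.Completion b) :
    embedding_of_isReal hw a < 0 ∧ embedding_of_isReal hw b < 0 := by
  set e := ringEquivRealOfIsReal hw with he
  have hea : e (algebraMap F w.Completion a) = embedding_of_isReal hw a := NSG_real hw a
  have heb : e (algebraMap F w.Completion b) = embedding_of_isReal hw b := NSG_real hw b
  have key : ∀ x y : ℝ, x ^ 2 - embedding_of_isReal hw a * y ^ 2 = embedding_of_isReal hw b →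
      False := by
    intro x y hxy
    apply h
    refine ⟨e.symm x, e.symm y, ?_⟩
    apply e.injective
    rw [map_sub, map_mul, map_pow, map_pow, RingEquiv.apply_symm_apply,
      RingEquiv.apply_symm_apply, hea, heb]
    exact hxy
  constructor
  · by_contra hcon
    have hpos : 0 < embedding_of_isReal hw a := lt_of_le_of_ne (not_lt.1 hcon) (Ne.symm ha)
    have hs : Real.sqrt (embedding_of_isReal hw a) ≠ 0 := (Real.sqrt_pos.2 hpos).ne'
    have hsq : Real.sqrt (embedding_of_isReal hw a) ^ 2 = embedding_of_isReal hw a :=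
      Real.sq_sqrt hpos.le
    refine key ((1 + embedding_of_isReal hw b) / 2)
      ((embedding_of_isReal hw b - 1) / (2 * Real.sqrt (embedding_of_isReal hw a))) ?_
    rw [div_pow, div_pow, mul_pow, hsq]
    field_simp
    ring
  · by_contra hcon
    have hpos : 0 ≤ embedding_of_isReal hw b := not_lt.1 hcon
    refine key (Real.sqrt (embedding_of_isReal hw b)) 0 ?_
    rw [Real.sq_sqrt hpos]
    ring

theorem p_NSG : Stmt_NSG := by
  intro F _ _ a b w ha hb hns
  have hns' : ¬ ∃ x y : w.Completion, x ^ 2 - algebraMap F w.Completion (a : F) * y ^ 2 =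
      algebraMap F w.Completion (b : F) := hns
  have hreal : w.IsReal := by
    by_contra hr
    exact hns' (NSG_cx (a : F) (b : F) w (not_isReal_iff_isComplex.1 hr))
  have ha' : ((a : F)) ≠ 0 := by
    intro h0
    exact ha (RingOfIntegers.coe_eq_zero_iff.1 h0)
  have hb' : ((b : F)) ≠ 0 := by
    intro h0
    exact hb (RingOfIntegers.coe_eq_zero_iff.1 h0)
  set σ := embedding_of_isReal hreal with hσ
  have hσa : σ (a : F) ≠ 0 := (map_ne_zero σ).2 ha'
  have hσb : σ (b : F) ≠ 0 := (map_ne_zero σ).2 hb'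
  obtain ⟨hA, hB⟩ := NSG_pos (a : F) (b : F) w hreal hσa hσb hns'
  have hw : ∀ x : F, w x = |σ x| := by
    intro x
    rw [← norm_embedding_of_isReal hreal, Real.norm_eq_abs]
  set A := -σ (a : F) with hAdef
  set B := -σ (b : F) with hBdef
  have hA' : 0 < A := by rw [hAdef]; linarith
  have hB' : 0 < B := by rw [hBdef]; linarith
  refine ⟨1 + A⁻¹ + B⁻¹ + (A * B)⁻¹, fun z => ?_⟩
  have hN : w (nrq z) = σ z.re ^ 2 + A * σ z.imI ^ 2 + B * σ z.imJ ^ 2 +
      A * B * σ z.imK ^ 2 := by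
    rw [hw]
    have e1 : σ (nrq z) = σ z.re ^ 2 + A * σ z.imI ^ 2 + B * σ z.imJ ^ 2 +
        A * B * σ z.imK ^ 2 := by
      unfold nrq
      rw [map_add, map_sub, map_sub, map_mul, map_mul, map_mul, map_mul, map_pow, map_pow,
        map_pow, map_pow, hAdef, hBdef]
      ring
    rw [e1]
    exact abs_of_nonneg (by positivity)
  have hsq : ∀ x : F, w x ^ 2 = σ x ^ 2 := by
    intro x
    rw [hw, sq_abs]
  rw [hN, hsq, hsq, hsq, hsq]
  have hr := sq_nonneg (σ z.re)
  have hi := sq_nonneg (σ z.imI)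
  have hj := sq_nonneg (σ z.imJ)
  have hk := sq_nonneg (σ z.imK)
  set S := σ z.re ^ 2 + A * σ z.imI ^ 2 + B * σ z.imJ ^ 2 + A * B * σ z.imK ^ 2 with hS
  have hi' : 0 ≤ A * σ z.imI ^ 2 := by positivity
  have hj' : 0 ≤ B * σ z.imJ ^ 2 := by positivity
  have hk' : 0 ≤ A * B * σ z.imK ^ 2 := by positivity
  have hS0 : 0 ≤ S := by rw [hS]; positivity
  have hAi : 0 ≤ A⁻¹ * S := by positivity
  have hBi : 0 ≤ B⁻¹ * S := by positivity
  have hABi : 0 ≤ (A * B)⁻¹ * S := by positivity
  have e0 : (1 + A⁻¹ + B⁻¹ + (A * B)⁻¹) * S = S + A⁻¹ * S + B⁻¹ * S + (A * B)⁻¹ * S := by ring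
  rw [e0]
  refine ⟨?_, ?_, ?_, ?_⟩
  · have : σ z.re ^ 2 ≤ S := by rw [hS]; linarith
    linarith
  · have h1 : A * σ z.imI ^ 2 ≤ S := by rw [hS]; linarith
    have h2 : σ z.imI ^ 2 = A⁻¹ * (A * σ z.imI ^ 2) := by field_simp
    have h3 : A⁻¹ * (A * σ z.imI ^ 2) ≤ A⁻¹ * S :=
      mul_le_mul_of_nonneg_left h1 (inv_nonneg.2 hA'.le)
    linarith
  · have h1 : B * σ z.imJ ^ 2 ≤ S := by rw [hS]; linarith
    have h2 : σ z.imJ ^ 2 = B⁻¹ * (B * σ z.imJ ^ 2) := by field_simp
    have h3 : B⁻¹ * (B * σ z.imJ ^ 2) ≤ B⁻¹ * S :=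
      mul_le_mul_of_nonneg_left h1 (inv_nonneg.2 hB'.le)
    linarith
  · have h1 : A * B * σ z.imK ^ 2 ≤ S := by rw [hS]; linarith
    have h2 : σ z.imK ^ 2 = (A * B)⁻¹ * (A * B * σ z.imK ^ 2) := by field_simp
    have h3 : (A * B)⁻¹ * (A * B * σ z.imK ^ 2) ≤ (A * B)⁻¹ * S :=
      mul_le_mul_of_nonneg_left h1 (inv_nonneg.2 (by positivity))
    linarith

end Pool.PQ
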