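import Pool.Agent.Work.MP_972ac7_Q.Interface2

set_option autoImplicit false

/-! # THEOREM PP, block PFG: the product formula -/

open MeasureTheory NumberField IsDedekindDomain
open scoped Quaternion ENNReal

noncomputable section

namespace Pool.PQ

open Pool.PL Pool.TFD Pool.TC

theorem PFG_fin {F : Type} [Field F] [NumberField F] (n : 𝓞 F) (hn : n ≠ 0) :
    {w : HeightOneSpectrum (𝓞 F) | n ∈ w.asIdeal}.Finite := by
  have h1 : Ideal.span {n} ≠ 0 := by simp [hn]
  have h2 := Ideal.finite_factors h1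
  refine h2.subset ?_
  intro w hw
  change w.asIdeal ∣ Ideal.span {n}
  rw [Ideal.dvd_span_singleton]
  exact hw

theorem PFG_prod {F : Type} [Field F] [NumberField F] (z : 𝓞 F) (hz : z ≠ 0) :
    ∏ᶠ w : HeightOneSpectrum (𝓞 F), av w (z : F) = (N2 (z : F))⁻¹ := by
  have h1 := FinitePlace.prod_eq_inv_abs_norm_int (K := F) hz
  rw [← finprod_comp_equiv FinitePlace.equivHeightOneSpectrum.symm] at h1
  have h2 : ∀ w : HeightOneSpectrum (𝓞 F),
      (FinitePlace.equivHeightOneSpectrum.symm w : FinitePlace F) (z : F) = av w (z : F) := by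
    intro w
    rw [FinitePlace.equivHeightOneSpectrum_symm_apply, FinitePlace.norm_embedding]
    rfl
  simp only [h2] at h1
  rw [h1]
  congr 1
  have h4 : N2 (z : F) = |(Algebra.norm ℚ (z : F) : ℝ)| := by
    unfold N2
    exact_mod_cast InfinitePlace.prod_eq_abs_norm (z : F)
  rw [h4]
  have h3 : ((Algebra.norm ℤ z : ℤ) : ℚ) = Algebra.norm ℚ (z : F) := Algebra.coe_norm_int z
  rw [← h3]
  norm_cast

theorem PFG_supp {F : Type} [Field F] [NumberField F] (z : 𝓞 F) (hz : z ≠ 0)
    (w : Set (HeightOneSpectrum (𝓞 F))) (hw : w.Finite) :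
    ∃ S : Finset (HeightOneSpectrum (𝓞 F)), (∀ x ∈ w, x ∈ S) ∧
      ∀ w', w' ∉ S → av w' (z : F) = 1 := by
  classical
  refine ⟨hw.toFinset ∪ (PFG_fin z hz).toFinset, fun x hx => ?_, ?_⟩
  · rw [Finset.mem_union]
    left
    rw [Set.Finite.mem_toFinset]
    exact hx
  intro w' hw'
  rw [av_int_eq_one_iff]
  intro h
  apply hw'
  rw [Finset.mem_union]
  right
  rw [Set.Finite.mem_toFinset]
  exact h

theorem PFG_two {F : Type} [Field F] [NumberField F] (z : 𝓞 F) (hz : z ≠ 0)
    (S : Finset (HeightOneSpectrum (𝓞 F))) (hS : ∀ w, w ∉ S → av w (z : F) = 1) :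
    N2 (z : F) * ∏ w ∈ S, av w (z : F) = 1 := by
  have h1 := PFG_prod z hz
  rw [finprod_eq_prod_of_mulSupport_subset (s := S)] at h1
  · have h2 : (z : F) ≠ 0 := by
      rw [ne_eq, RingOfIntegers.coe_eq_zero_iff]
      exact hz
    rw [h1]
    exact mul_inv_cancel₀ (N2_pos h2).ne'
  · intro w hw
    by_contra hcon
    exact hw (hS w hcon)

theorem p_PFG : Stmt_PFG := by
  classical
  intro F _ _
  refine ⟨?_, fun z hz S hS => PFG_two z hz S hS, ?_, fun n hn => PFG_fin n hn⟩
  · intro z hz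
    have key : ∀ (w : HeightOneSpectrum (𝓞 F)), 1 ≤ N2 (z : F) * av w (z : F) := by
      intro w
      obtain ⟨S, hw, hS⟩ := PFG_supp z hz {w} (Set.finite_singleton w)
      have hw' : w ∈ S := hw w rfl
      have h1 := PFG_two z hz S hS
      rw [← Finset.mul_prod_erase S _ hw'] at h1
      have h2 : ∏ w' ∈ S.erase w, av w' (z : F) ≤ 1 :=
        Finset.prod_le_one (fun w' _ => av_nonneg w' _) (fun w' _ => av_int w' z)
      have h3 : 0 ≤ N2 (z : F) * av w (z : F) := mul_nonneg (N2_nonneg _) (av_nonneg w _)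
      calc (1 : ℝ) = N2 (z : F) * av w (z : F) * ∏ w' ∈ S.erase w, av w' (z : F) := by
            rw [← h1]; ring
        _ ≤ N2 (z : F) * av w (z : F) * 1 := mul_le_mul_of_nonneg_left h2 h3
        _ = N2 (z : F) * av w (z : F) := mul_one _
    refine ⟨?_, key⟩
    obtain ⟨S, -, hS⟩ := PFG_supp z hz ∅ Set.finite_empty
    have h1 := PFG_two z hz S hS
    have h2 : ∏ w' ∈ S, av w' (z : F) ≤ 1 :=
      Finset.prod_le_one (fun w' _ => av_nonneg w' _) (fun w' _ => av_int w' z)
    calc (1 : ℝ) = N2 (z : F) * ∏ w' ∈ S, av w' (z : F) := h1.symm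
      _ ≤ N2 (z : F) * 1 := mul_le_mul_of_nonneg_left h2 (N2_nonneg _)
      _ = N2 (z : F) := mul_one _
  · intro z hz
    have h1 : ∀ w : HeightOneSpectrum (𝓞 F), w.valuation F z ≤ 1 := by
      intro w
      by_contra hcon
      push Not at hcon
      have h2 := hz w
      have h3 := WithZeroMulInt.toNNReal_strictMono (HeightOneSpectrum.one_lt_absNorm_nnreal w) hcon
      rw [map_one] at h3
      have h4 : av w z = ((WithZeroMulInt.toNNReal (HeightOneSpectrum.absNorm_ne_zero w)
        (w.valuation F z) : NNReal) : ℝ) := rfl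
      rw [h4] at h2
      have h5 : (1 : ℝ) < ((WithZeroMulInt.toNNReal (HeightOneSpectrum.absNorm_ne_zero w)
        (w.valuation F z) : NNReal) : ℝ) := by exact_mod_cast h3
      linarith
    obtain ⟨z', hz'⟩ := HeightOneSpectrum.mem_integers_of_valuation_le_one F z h1
    exact ⟨z', hz'⟩

end Pool.PQ
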