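import Pool.Agent.Work.MP_972ac7_Q.Interface2

set_option autoImplicit false

/-! # THEOREM PP, block PGG: local pigeonhole -/

open MeasureTheory NumberField IsDedekindDomain
open scoped Quaternion ENNReal

noncomputable section

namespace Pool.PQ

open Pool.PL Pool.TFD Pool.TC

/-- cells of a ball of any radius -/
theorem PGG_ball {k : Type} [NormedField k] (L : LG k) (B r : ℝ) (hB : 0 < B) (hr : 0 < r)
    (hrB : r ≤ B) : ∃ (N : ℕ) (cl : k → Fin N), (N : ℝ) * r ^ L.e ≤ L.C * ‖L.ϑ‖ ^ L.e * B ^ L.e ∧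
      ∀ x y : k, ‖x‖ ≤ B → ‖y‖ ≤ B → cl x = cl y → ‖x - y‖ ≤ r := by
  obtain ⟨n, hn1, hn2⟩ := exists_mem_Ico_zpow hB L.one_lt
  have hϑ0 : 0 < ‖L.ϑ‖ := by linarith [L.one_lt]
  have hϑ : L.ϑ ≠ 0 := norm_pos_iff.1 hϑ0
  set lam : k := L.ϑ ^ (n + 1) with hlam
  have hl0 : 0 < ‖lam‖ := by rw [hlam, norm_zpow]; exact zpow_pos hϑ0 _
  have hl : lam ≠ 0 := norm_pos_iff.1 hl0
  have hBl : B ≤ ‖lam‖ := by rw [hlam, norm_zpow]; exact hn2.le
  have hlB : ‖lam‖ ≤ ‖L.ϑ‖ * B := by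
    rw [hlam, norm_zpow, zpow_add_one₀ hϑ0.ne', mul_comm]
    exact mul_le_mul_of_nonneg_left hn1 hϑ0.le
  have hr1 : r / ‖lam‖ ≤ 1 := by
    rw [div_le_one hl0]; linarith
  obtain ⟨N, cl, hN, hcl⟩ := L.cov (r / ‖lam‖) (by positivity) hr1
  refine ⟨N, fun x => cl (lam⁻¹ * x), ?_, ?_⟩
  · rw [div_pow, ← mul_div_assoc, div_le_iff₀ (by positivity)] at hN
    refine hN.trans ?_
    have hC : 0 ≤ L.C := by linarith [L.one_le]
    rw [mul_assoc]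
    refine mul_le_mul_of_nonneg_left ?_ hC
    rw [← mul_pow]
    exact pow_le_pow_left₀ hl0.le hlB _
  · intro x y hx hy hxy
    have hsc : ∀ z : k, ‖z‖ ≤ B → ‖lam⁻¹ * z‖ ≤ 1 := by
      intro z hz
      rw [norm_mul, norm_inv, inv_mul_le_iff₀ hl0]
      linarith
    have h1 := hcl _ _ (hsc x hx) (hsc y hy) hxy
    rw [← mul_sub, norm_mul, norm_inv, inv_mul_le_iff₀ hl0, mul_div_cancel₀ _ hl0.ne'] at h1
    exact h1

/-- cells of pairs for the row `(p, q)` -/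
theorem PGG_pair {k : Type} [NormedField k] (L : LG k) (p q : k) (hp : p ≠ 0) :
    ∃ ε : ℝ, 0 < ε ∧ ∀ D β : ℝ, 0 < β → β ≤ ε * D →
      ∃ (N₁ N₂ : ℕ) (cl : k → k → Fin N₁ × Fin N₂),
      ((N₁ : ℝ) * N₂) * (β ^ L.e) ^ 2 ≤ (L.C * ‖L.ϑ‖ ^ L.e) ^ 2 * 8 ^ L.e * (D ^ L.e) ^ 2 ∧
      ∀ x y x' y' : k, ‖x‖ ≤ D → ‖y‖ ≤ D → ‖x'‖ ≤ D → ‖y'‖ ≤ D → cl x y = cl x' y' →
        ‖p * (x - x') + q * (y - y')‖ ≤ β / 2 ∧ ‖y - y'‖ ≤ ‖p‖ * β / 2 := by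
  have hp0 : 0 < ‖p‖ := norm_pos_iff.2 hp
  have hq0 : 0 ≤ ‖q‖ := norm_nonneg q
  refine ⟨min (min (1 / ‖p‖) ‖p‖) (1 / (‖q‖ + 1)), lt_min (lt_min (by positivity) hp0)
    (by positivity), ?_⟩
  intro D β hβ hβD
  have hD : 0 < D := by
    by_contra h
    push Not at h
    have h1 : min (min (1 / ‖p‖) ‖p‖) (1 / (‖q‖ + 1)) * D ≤ 0 :=
      mul_nonpos_of_nonneg_of_nonpos (le_min (le_min (by positivity) hp0.le) (by positivity)) h
    linarith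
  have h1 : ‖p‖ * β ≤ D := by
    have e1 : β ≤ 1 / ‖p‖ * D := hβD.trans (mul_le_mul_of_nonneg_right
      ((min_le_left _ _).trans (min_le_left _ _)) hD.le)
    rw [one_div_mul_eq_div, le_div_iff₀ hp0] at e1
    linarith
  have h2 : β ≤ ‖p‖ * D := hβD.trans (mul_le_mul_of_nonneg_right
      ((min_le_left _ _).trans (min_le_right _ _)) hD.le)
  have h3 : ‖q‖ * β ≤ D := by
    have e1 : β ≤ 1 / (‖q‖ + 1) * D := hβD.trans (mul_le_mul_of_nonneg_right (min_le_right _ _) hD.le)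
    rw [one_div_mul_eq_div, le_div_iff₀ (by positivity)] at e1
    linarith
  obtain ⟨N₁, cl₁, hN₁, hcl₁⟩ := PGG_ball L D (‖p‖ * β / 2) hD (by positivity) (by linarith)
  obtain ⟨N₂, cl₂, hN₂, hcl₂⟩ := PGG_ball L (2 * D) (β / (2 * ‖p‖)) (by linarith) (by positivity)
    (by rw [div_le_iff₀ (by positivity)]; nlinarith)
  have hrep : ∀ i : Fin N₁, ∃ y : k, (∃ y' : k, ‖y'‖ ≤ D ∧ cl₁ y' = i) → ‖y‖ ≤ D ∧ cl₁ y = i := by
    intro i
    by_cases h : ∃ y' : k, ‖y'‖ ≤ D ∧ cl₁ y' = i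
    · obtain ⟨y, hy⟩ := h
      exact ⟨y, fun _ => hy⟩
    · exact ⟨0, fun h' => absurd h' h⟩
  choose rep hrep using hrep
  refine ⟨N₁, N₂, fun x y => (cl₁ y, cl₂ (x + p⁻¹ * q * (y - rep (cl₁ y)))), ?_, ?_⟩
  · have hC1 : 0 ≤ L.C * ‖L.ϑ‖ ^ L.e := by
      have : 0 ≤ L.C := by linarith [L.one_le]
      positivity
    have e1 := mul_le_mul hN₁ hN₂ (by positivity) (by positivity)
    have e2 : (N₁ : ℝ) * (‖p‖ * β / 2) ^ L.e * ((N₂ : ℝ) * (β / (2 * ‖p‖)) ^ L.e) =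
        ((N₁ : ℝ) * N₂) * (β ^ L.e) ^ 2 / 4 ^ L.e := by
      have e3 : (‖p‖ * β / 2) ^ L.e * (β / (2 * ‖p‖)) ^ L.e = (β ^ L.e) ^ 2 / 4 ^ L.e := by
        rw [← mul_pow, ← pow_mul, mul_comm L.e 2, pow_mul, ← div_pow]
        congr 1
        field_simp
        ring
      calc _ = (N₁ : ℝ) * N₂ * ((‖p‖ * β / 2) ^ L.e * (β / (2 * ‖p‖)) ^ L.e) := by ring
        _ = _ := by rw [e3]; ring
    rw [e2, div_le_iff₀ (by positivity)] at e1
    refine e1.trans (le_of_eq ?_)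
    have e4 : (8 : ℝ) ^ L.e = 2 ^ L.e * 4 ^ L.e := by rw [← mul_pow]; norm_num
    rw [mul_pow 2 D, e4]
    ring
  · intro x y x' y' hx hy hx' hy' hxy
    rw [Prod.mk.injEq] at hxy
    have hcy := hxy.1
    have hr : ∀ z : k, ‖z‖ ≤ D → ‖z - rep (cl₁ z)‖ ≤ ‖p‖ * β / 2 := by
      intro z hz
      have e := hrep (cl₁ z) ⟨z, hz, rfl⟩
      exact hcl₁ z _ hz e.1 e.2.symm
    have hb : ∀ z w : k, ‖z‖ ≤ D → ‖w‖ ≤ D → ‖z + p⁻¹ * q * (w - rep (cl₁ w))‖ ≤ 2 * D := by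
      intro z w hz hw
      have e1 : ‖p⁻¹ * q * (w - rep (cl₁ w))‖ ≤ D := by
        rw [norm_mul, norm_mul, norm_inv]
        calc ‖p‖⁻¹ * ‖q‖ * ‖w - rep (cl₁ w)‖ ≤ ‖p‖⁻¹ * ‖q‖ * (‖p‖ * β / 2) :=
              mul_le_mul_of_nonneg_left (hr w hw) (by positivity)
          _ = ‖q‖ * β / 2 := by field_simp
          _ ≤ D := by
            have : 0 ≤ ‖q‖ * β := by positivity
            linarith
      have e2 := norm_add_le z (p⁻¹ * q * (w - rep (cl₁ w)))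
      linarith
    have h4 := hcl₂ _ _ (hb x y hx hy) (hb x' y' hx' hy') hxy.2
    have h5 : x + p⁻¹ * q * (y - rep (cl₁ y)) - (x' + p⁻¹ * q * (y' - rep (cl₁ y'))) =
        p⁻¹ * (p * (x - x') + q * (y - y')) := by
      rw [hcy, mul_add, ← mul_assoc, inv_mul_cancel₀ hp]
      ring
    rw [h5, norm_mul, norm_inv, inv_mul_le_iff₀ hp0] at h4
    refine ⟨?_, hcl₁ y y' hy hy' hcy⟩
    refine h4.trans (le_of_eq ?_)
    field_simp

theorem p_PGG : Stmt_PGG := by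
  intro k _ L
  have hC1 : 0 < L.C * ‖L.ϑ‖ ^ L.e := by
    have h1 : 0 < L.C := by linarith [L.one_le]
    have h2 : 0 < ‖L.ϑ‖ := by linarith [L.one_lt]
    positivity
  refine ⟨((L.C * ‖L.ϑ‖ ^ L.e) ^ 2 * 8 ^ L.e) ^ 2, by positivity, ?_⟩
  intro g
  set a := (g : Matrix (Fin 2) (Fin 2) k) 0 0 with ha
  set b := (g : Matrix (Fin 2) (Fin 2) k) 0 1 with hb
  set c := (g : Matrix (Fin 2) (Fin 2) k) 1 0 with hc
  set d := (g : Matrix (Fin 2) (Fin 2) k) 1 1 with hd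
  have hdet : a * d - b * c = 1 := by
    have := g.2
    rwa [Matrix.det_fin_two] at this
  -- the dominating row
  obtain ⟨p, q, hp, hrow⟩ : ∃ p q : k, p ≠ 0 ∧ ∀ (x y : k) (β : ℝ), 0 < β →
      ‖p * x + q * y‖ ≤ β / 2 → ‖y‖ ≤ ‖p‖ * β / 2 → ‖a * x + b * y‖ ≤ β ∧ ‖c * x + d * y‖ ≤ β := by
    rcases le_or_gt ‖c‖ ‖a‖ with h | h
    · have ha0 : a ≠ 0 := by
        intro h0
        rw [h0, norm_zero] at h
        have hc0 : c = 0 := norm_le_zero_iff.1 h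
        rw [h0, hc0] at hdet
        simp at hdet
      have hap : 0 < ‖a‖ := norm_pos_iff.2 ha0
      refine ⟨a, b, ha0, fun x y β hβ h1 h2 => ⟨by linarith, ?_⟩⟩
      have e1 : c * x + d * y = c / a * (a * x + b * y) + y / a := by
        field_simp
        linear_combination y * hdet
      rw [e1]
      refine (norm_add_le _ _).trans ?_
      rw [norm_mul, norm_div, norm_div]
      have e2 : ‖c‖ / ‖a‖ ≤ 1 := by rw [div_le_one hap]; exact h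
      have e3 : ‖c‖ / ‖a‖ * ‖a * x + b * y‖ ≤ 1 * (β / 2) :=
        mul_le_mul e2 h1 (norm_nonneg _) zero_le_one
      have e4 : ‖y‖ / ‖a‖ ≤ β / 2 := by
        rw [div_le_iff₀ hap]; linarith
      linarith
    · have hcp : 0 < ‖c‖ := lt_of_le_of_lt (norm_nonneg _) h
      have hc0 : c ≠ 0 := norm_pos_iff.1 hcp
      refine ⟨c, d, hc0, fun x y β hβ h1 h2 => ⟨?_, by linarith⟩⟩
      have e1 : a * x + b * y = a / c * (c * x + d * y) - y / c := by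
        field_simp
        linear_combination (-y) * hdet
      rw [e1]
      refine (norm_sub_le _ _).trans ?_
      rw [norm_mul, norm_div, norm_div]
      have e2 : ‖a‖ / ‖c‖ ≤ 1 := by rw [div_le_one hcp]; exact h.le
      have e3 : ‖a‖ / ‖c‖ * ‖c * x + d * y‖ ≤ 1 * (β / 2) :=
        mul_le_mul e2 h1 (norm_nonneg _) zero_le_one
      have e4 : ‖y‖ / ‖c‖ ≤ β / 2 := by
        rw [div_le_iff₀ hcp]; linarith
      linarith
  obtain ⟨ε, hε, hcell⟩ := PGG_pair L p q hp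
  refine ⟨ε, hε, fun D β hβ hβD => ?_⟩
  obtain ⟨N₁, N₂, cl, hN, hcl⟩ := hcell D β hβ hβD
  let E := Fintype.equivFin ((Fin N₁ × Fin N₂) × (Fin N₁ × Fin N₂))
  refine ⟨Fintype.card ((Fin N₁ × Fin N₂) × (Fin N₁ × Fin N₂)),
    fun m => E (cl (m 0 0) (m 1 0), cl (m 0 1) (m 1 1)), ?_, ?_⟩
  · have e1 : ((Fintype.card ((Fin N₁ × Fin N₂) × (Fin N₁ × Fin N₂)) : ℕ) : ℝ) * (β ^ L.e) ^ 4 =
        (((N₁ : ℝ) * N₂) * (β ^ L.e) ^ 2) ^ 2 := by
      simp only [Fintype.card_prod, Fintype.card_fin]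
      push_cast
      ring
    rw [e1]
    calc (((N₁ : ℝ) * N₂) * (β ^ L.e) ^ 2) ^ 2
        ≤ ((L.C * ‖L.ϑ‖ ^ L.e) ^ 2 * 8 ^ L.e * (D ^ L.e) ^ 2) ^ 2 :=
          pow_le_pow_left₀ (by positivity) hN 2
      _ = _ := by ring
  · intro m m' hm hm' hmm
    have h1 := E.injective hmm
    rw [Prod.mk.injEq] at h1
    have hm2 : ∀ i j, ‖m i j‖ ≤ D := fun i j => (le_mnm m i j).trans hm
    have hm2' : ∀ i j, ‖m' i j‖ ≤ D := fun i j => (le_mnm m' i j).trans hm'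
    have hcol : ∀ j : Fin 2, ‖a * (m 0 j - m' 0 j) + b * (m 1 j - m' 1 j)‖ ≤ β ∧
        ‖c * (m 0 j - m' 0 j) + d * (m 1 j - m' 1 j)‖ ≤ β := by
      intro j
      have h2 : cl (m 0 j) (m 1 j) = cl (m' 0 j) (m' 1 j) := by
        fin_cases j
        · exact h1.1
        · exact h1.2
      have h3 := hcl _ _ _ _ (hm2 0 j) (hm2 1 j) (hm2' 0 j) (hm2' 1 j) h2
      exact hrow _ _ β hβ h3.1 h3.2
    rw [mnm_le]
    intro i j
    rw [Matrix.mul_apply, Fin.sum_univ_two, Matrix.sub_apply, Matrix.sub_apply]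
    fin_cases i
    · exact (hcol j).1
    · exact (hcol j).2

end Pool.PQ
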