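import Pool.Agent.Work.MP_972ac7_Q.Interface2

set_option autoImplicit false

/-! # Block PPG (powers of a generator of a power of W) -/

open MeasureTheory NumberField IsDedekindDomain
open scoped Quaternion ENNReal

noncomputable section

namespace Pool.PQ

open Pool.PL Pool.TFD Pool.TC

theorem PPG_av_pow {F : Type} [Field F] [NumberField F] (w : HeightOneSpectrum (𝓞 F)) (x : F)
    (n : ℕ) : av w (x ^ n) = av w x ^ n := by
  unfold av
  exact map_pow _ _ _

theorem p_PPG (hVPG : Stmt_VPG) : Stmt_PPG := by
  intro F _ _ p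
  cases p with
  | inr v =>
    refine ⟨1, le_refl _, fun Y hY => ⟨1, one_ne_zero, ?_, ?_, ?_⟩⟩
    · intro w hw
      exact absurd hw (by simp)
    · intro w _
      have : ((1 : 𝓞 F) : F) = 1 := map_one _
      rw [this]
      unfold av
      exact map_one _
    · intro w _
      rfl
  | inl W =>
    obtain ⟨h, p0, hh, hp0, hav, hav', hN⟩ := hVPG F W
    set q : ℝ := ((Ideal.absNorm W.asIdeal : ℕ) : ℝ) with hq
    have hq1 : 1 < q := by
      rw [hq]
      exact_mod_cast NumberField.HeightOneSpectrum.one_lt_absNorm W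
    have hQ1 : 1 < q ^ h := one_lt_pow₀ hq1 (by omega)
    refine ⟨q ^ h, hQ1.le, fun Y hY => ?_⟩
    have hex : ∃ t : ℕ, Y ≤ (q ^ h) ^ t := by
      obtain ⟨t, ht⟩ := pow_unbounded_of_one_lt Y hQ1
      exact ⟨t, ht.le⟩
    classical
    have ht := Nat.find_spec hex
    set t := Nat.find hex with htdef
    refine ⟨p0 ^ t, pow_ne_zero _ hp0, ?_, ?_, ?_⟩
    · intro w hw
      have hw' : W = w := by simpa using hw
      subst hw'
      have hc : ((p0 ^ t : 𝓞 F) : F) = (p0 : F) ^ t := map_pow _ _ _
      rw [hc, PPG_av_pow, hav, N2_pow, hN]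
      constructor
      · rw [inv_pow, inv_mul_le_iff₀ (by positivity), mul_one]
        exact ht
      · rcases Nat.eq_zero_or_pos t with h0 | h0
        · rw [h0, pow_zero]
          nlinarith
        · have hlt : ¬ Y ≤ (q ^ h) ^ (t - 1) := Nat.find_min hex (by omega)
          push Not at hlt
          have he : (q ^ h) ^ t = q ^ h * (q ^ h) ^ (t - 1) := by
            rw [← pow_succ']
            congr 1
            omega
          rw [he]
          exact mul_le_mul_of_nonneg_left hlt.le (by positivity)
    · intro w hw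
      have hw' : w ≠ W := fun hc => hw (by rw [hc])
      have hc : ((p0 ^ t : 𝓞 F) : F) = (p0 : F) ^ t := map_pow _ _ _
      rw [hc, PPG_av_pow, hav' w hw', one_pow]
    · intro w hw
      exact absurd hw (by simp)

end Pool.PQ
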