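import Pool.Agent.Work.MP_972ac7_Q.Interface1

set_option autoImplicit false

/-! # Block PPI (helper78) -/

open MeasureTheory
open scoped ENNReal

noncomputable section

namespace Pool.PQ

open Pool.PL Pool.TFD Pool.TC

section

variable {G : Type} [Group G] [TopologicalSpace G] [IsTopologicalGroup G]
  [SecondCountableTopology G] [MeasurableSpace G] [BorelSpace G]

theorem PPI_meas (μ : Measure G) [SFinite μ] {τ φ : G → ℝ≥0∞} (hτ : Measurable τ)
    (hφ : Measurable φ) : Measurable (PP μ τ φ) := by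
  unfold PP
  refine Measurable.lintegral_prod_right' (f := fun p : G × G => φ (p.1 * p.2) * τ p.2) ?_
  exact (hφ.comp (measurable_fst.mul measurable_snd)).mul (hτ.comp measurable_snd)

theorem PPI_iter (μ : Measure G) [SFinite μ] {τ : G → ℝ≥0∞} (hτ : Measurable τ) (n : ℕ) :
    ∀ φ : G → ℝ≥0∞, Measurable φ → Measurable ((PP μ τ)^[n] φ) := by
  induction n with
  | zero => intro φ hφ; exact hφ
  | succ n ih =>
    intro φ hφ
    rw [Function.iterate_succ_apply]
    exact ih _ (PPI_meas μ hτ hφ)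

theorem PPI_move (μ : Measure G) [SFinite μ] [μ.IsMulRightInvariant] [μ.IsInvInvariant]
    {τ φ ψ : G → ℝ≥0∞} (hτ : Measurable τ) (hφ : Measurable φ) (hψ : Measurable ψ)
    (hsym : ∀ u, τ u⁻¹ = τ u) (z : G) :
    ∫⁻ u, PP μ τ ψ u * φ (z * u) ∂μ = ∫⁻ u, ψ u * PP μ τ φ (z * u) ∂μ := by
  have h1 : ∀ u, PP μ τ ψ u * φ (z * u) = ∫⁻ t, ψ (u * t) * τ t * φ (z * u) ∂μ := fun u => by
    unfold PP
    rw [lintegral_mul_const]
    exact (hψ.comp (measurable_const_mul u)).mul hτ
  have h2 : ∀ u, ψ u * PP μ τ φ (z * u) = ∫⁻ t, ψ u * (φ (z * u * t) * τ t) ∂μ := fun u => by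
    unfold PP
    rw [lintegral_const_mul]
    exact (hφ.comp (measurable_const_mul (z * u))).mul hτ
  simp_rw [h1, h2]
  rw [lintegral_lintegral_swap]
  · calc ∫⁻ t, ∫⁻ u, ψ (u * t) * τ t * φ (z * u) ∂μ ∂μ
        = ∫⁻ t, ∫⁻ u, ψ u * τ t * φ (z * (u * t⁻¹)) ∂μ ∂μ := by
          refine lintegral_congr fun t => ?_
          have h3 := lintegral_mul_right_eq_self (μ := μ)
            (fun u => ψ u * τ t * φ (z * (u * t⁻¹))) t
          rw [← h3]
          refine lintegral_congr fun u => ?_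
          rw [mul_inv_cancel_right]
      _ = ∫⁻ u, ∫⁻ t, ψ u * τ t * φ (z * (u * t⁻¹)) ∂μ ∂μ := by
          refine lintegral_lintegral_swap (Measurable.aemeasurable ?_)
          exact ((hψ.comp measurable_snd).mul (hτ.comp measurable_fst)).mul
            (hφ.comp (measurable_const.mul (measurable_snd.mul measurable_fst.inv)))
      _ = ∫⁻ u, ∫⁻ t, ψ u * (φ (z * u * t) * τ t) ∂μ ∂μ := by
          refine lintegral_congr fun u => ?_
          rw [← lintegral_inv_eq_self (μ := μ) (fun t => ψ u * (φ (z * u * t) * τ t))]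
          refine lintegral_congr fun t => ?_
          rw [hsym, mul_assoc z, mul_comm (φ _) (τ t), mul_assoc]
  · refine Measurable.aemeasurable ?_
    exact ((hψ.comp (measurable_fst.mul measurable_snd)).mul (hτ.comp measurable_snd)).mul
      (hφ.comp (measurable_const.mul measurable_fst))

theorem PPI_main (μ : Measure G) [SFinite μ] [μ.IsMulRightInvariant] [μ.IsInvInvariant]
    {τ : G → ℝ≥0∞} (hτ : Measurable τ) (hsym : ∀ u, τ u⁻¹ = τ u) (n : ℕ) :
    ∀ φ : G → ℝ≥0∞, Measurable φ → ∀ z : G,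
      ∫⁻ u, ((PP μ τ)^[n] τ) u * φ (z * u) ∂μ = (PP μ τ)^[n + 1] φ z := by
  induction n with
  | zero =>
    intro φ _ z
    simp only [Function.iterate_zero, id_eq, zero_add, Function.iterate_one]
    unfold PP
    exact lintegral_congr fun u => mul_comm _ _
  | succ n ih =>
    intro φ hφ z
    rw [Function.iterate_succ_apply' (PP μ τ) n τ,
      PPI_move μ hτ hφ (PPI_iter μ hτ n τ hτ) hsym z, ih _ (PPI_meas μ hτ hφ) z,
      ← Function.iterate_succ_apply]

end

theorem p_PPI (hUN2 : Stmt_UN2) (hTP2 : Stmt_TP2) : Stmt_PPI := by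
  intro k _ _ L μ hμ τ R ρ hk n z
  obtain ⟨h1, h2, -⟩ := hTP2 k
  obtain ⟨h3, h4⟩ := hUN2.1 k L μ hμ
  haveI : SigmaCompactSpace (SL2 k) := sigmaCompactSpace_of_locallyCompact_secondCountable
  haveI : SigmaFinite μ := inferInstance
  rw [PPI_main μ hk.meas hk.sym n _ (PPI_iter μ hk.meas n τ hk.meas) z,
    ← Function.iterate_add_apply, show n + 1 + n = 2 * n + 1 by omega]

end Pool.PQ
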