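import Pool.Agent.Work.MP_972ac7_Q.Interface1

set_option autoImplicit false

/-! # THEOREM PP, block QMS: the quotient measure (helper40) -/

open MeasureTheory
open scoped ENNReal Pointwise

noncomputable section

namespace Pool.PQ

open Pool.PL Pool.TFD Pool.TC

section

variable {G : Type} [Group G]

/-- the translates -/
def QMS_V (U : Set G) (f : ℕ → G) (j : ℕ) : Set G := (fun x => (f j)⁻¹ * x) ⁻¹' U

/-- the saturations -/
def QMS_W (Γ : Subgroup G) (U : Set G) (f : ℕ → G) (j : ℕ) : Set G :=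
  ⋃ γ : Γ, (fun x => x * (γ : G)) ⁻¹' QMS_V U f j

/-- the fundamental domain -/
def QMS_D (Γ : Subgroup G) (U : Set G) (f : ℕ → G) : Set G :=
  ⋃ j : ℕ, (QMS_V U f j \ ⋃ i : ℕ, ⋃ _ : i < j, QMS_W Γ U f i)

theorem QMS_memW {Γ : Subgroup G} {U : Set G} {f : ℕ → G} {j : ℕ} {x : G} :
    x ∈ QMS_W Γ U f j ↔ ∃ γ ∈ Γ, x * γ ∈ QMS_V U f j := by
  unfold QMS_W
  simp only [Set.mem_iUnion, Set.mem_preimage]
  constructor
  · rintro ⟨γ, h⟩
    exact ⟨γ, γ.2, h⟩
  · rintro ⟨γ, h1, h2⟩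
    exact ⟨⟨γ, h1⟩, h2⟩

theorem QMS_memD {Γ : Subgroup G} {U : Set G} {f : ℕ → G} {x : G} :
    x ∈ QMS_D Γ U f ↔ ∃ j, x ∈ QMS_V U f j ∧ ∀ i < j, ∀ γ ∈ Γ, x * γ ∉ QMS_V U f i := by
  unfold QMS_D
  rw [Set.mem_iUnion]
  apply exists_congr
  intro j
  rw [Set.mem_sdiff]
  apply and_congr_right
  intro _
  simp only [Set.mem_iUnion, not_exists]
  constructor
  · intro h i hi γ hγ h2
    exact h i hi (QMS_memW.2 ⟨γ, hγ, h2⟩)
  · intro h i hi h2
    obtain ⟨γ, hγ, h3⟩ := QMS_memW.1 h2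
    exact h i hi γ hγ h3

theorem QMS_existsUnique {Γ : Subgroup G} {U : Set G} {f : ℕ → G}
    (hU : ∀ x ∈ U, ∀ y ∈ U, x⁻¹ * y ∈ Γ → x⁻¹ * y = 1)
    (hc : ∀ x : G, ∃ j, x ∈ QMS_V U f j) (x : G) :
    ∃! g : Γ.op, g • x ∈ QMS_D Γ U f := by
  classical
  have hex : ∃ j, ∃ γ ∈ Γ, x * γ ∈ QMS_V U f j := by
    obtain ⟨j, hj⟩ := hc x
    exact ⟨j, 1, Γ.one_mem, by rwa [mul_one]⟩
  obtain ⟨γ, hγ, h1⟩ := Nat.find_spec hex
  have hmin := fun i (hi : i < Nat.find hex) => Nat.find_min hex hi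
  refine ⟨⟨MulOpposite.op γ, hγ⟩, ?_, ?_⟩
  · show x * γ ∈ QMS_D Γ U f
    refine QMS_memD.2 ⟨_, h1, ?_⟩
    intro i hi δ hδ h2
    apply hmin i hi
    exact ⟨γ * δ, Γ.mul_mem hγ hδ, by rwa [← mul_assoc]⟩
  · rintro ⟨g, hg⟩ hg'
    have hgx : x * MulOpposite.unop g ∈ QMS_D Γ U f := hg'
    have hg1 : MulOpposite.unop g ∈ Γ := hg
    obtain ⟨j, h2, h3⟩ := QMS_memD.1 hgx
    have hj : j = Nat.find hex := by
      rcases lt_trichotomy j (Nat.find hex) with h | h | h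
      · exact absurd ⟨_, hg1, h2⟩ (hmin j h)
      · exact h
      · exfalso
        apply h3 _ h ((MulOpposite.unop g)⁻¹ * γ) (Γ.mul_mem (Γ.inv_mem hg1) hγ)
        have h4 : x * MulOpposite.unop g * ((MulOpposite.unop g)⁻¹ * γ) = x * γ := by group
        rw [h4]
        exact h1
    rw [hj] at h2
    have h4 := hU _ h1 _ h2
    have h5 : ((f (Nat.find hex))⁻¹ * (x * γ))⁻¹ * ((f (Nat.find hex))⁻¹ * (x * MulOpposite.unop g)) =
        γ⁻¹ * MulOpposite.unop g := by group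
    simp only [h5] at h4
    have h6 := h4 (Γ.mul_mem (Γ.inv_mem hγ) hg1)
    have h7 : MulOpposite.unop g = γ := (inv_mul_eq_one.1 h6).symm
    apply Subtype.ext
    show g = MulOpposite.op γ
    rw [← h7, MulOpposite.op_unop]

end

theorem p_QMS : Stmt_QMS := by
  intro G _ _ _ _ _ _ _ _ Γ μ K hhaar hright hinv hdisc hKc hK
  have hcount : Countable Γ := by
    have : SecondCountableTopology Γ := inferInstance
    exact TopologicalSpace.separableSpace_iff_countable.1 inferInstance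
  have hcop : Countable Γ.op := (Γ.equivOp).symm.injective.countable
  -- the neighbourhood
  obtain ⟨U, hUo, hU1, hU⟩ : ∃ U : Set G, IsOpen U ∧ (1 : G) ∈ U ∧
      ∀ x ∈ U, ∀ y ∈ U, x⁻¹ * y ∈ Γ → x⁻¹ * y = 1 := by
    have h1 : IsOpen ({1} : Set Γ) := isOpen_discrete _
    obtain ⟨O, hO, hO1⟩ := isOpen_induced_iff.1 h1
    have hO2 : (1 : G) ∈ O := by
      have : (1 : Γ) ∈ Subtype.val ⁻¹' O := by rw [hO1]; rfl
      exact this
    have h2 : IsOpen ((fun p : G × G => p.1⁻¹ * p.2) ⁻¹' O) := hO.preimage (by fun_prop)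
    obtain ⟨A, B, hA, hB, hA1, hB1, hAB⟩ := isOpen_prod_iff.1 h2 1 1 (by
      show (1 : G)⁻¹ * 1 ∈ O
      rwa [inv_one, one_mul])
    refine ⟨A ∩ B, hA.inter hB, ⟨hA1, hB1⟩, ?_⟩
    intro x hx y hy hxy
    have h3 : x⁻¹ * y ∈ O := hAB (Set.mk_mem_prod hx.1 hy.2)
    have h4 : (⟨x⁻¹ * y, hxy⟩ : Γ) ∈ (Subtype.val ⁻¹' O : Set Γ) := h3
    rw [hO1] at h4
    exact congrArg Subtype.val (Set.mem_singleton_iff.1 h4)
  -- the cover
  obtain ⟨f, hf⟩ : ∃ f : ℕ → G, ∀ x : G, ∃ j, x ∈ QMS_V U f j := by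
    have h1 : ∀ x : G, (fun y => x⁻¹ * y) ⁻¹' U ∈ nhds x := by
      intro x
      refine (hUo.preimage (by fun_prop)).mem_nhds ?_
      show x⁻¹ * x ∈ U
      rwa [inv_mul_cancel]
    obtain ⟨s, hs, hs2⟩ := TopologicalSpace.countable_cover_nhds h1
    have hne : s.Nonempty := by
      rw [Set.nonempty_iff_ne_empty]
      rintro rfl
      simp only [Set.mem_empty_iff_false, Set.iUnion_of_empty, Set.iUnion_empty] at hs2
      exact (Set.empty_ne_univ hs2)
    obtain ⟨f, rfl⟩ := hs.exists_eq_range hne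
    refine ⟨f, fun x => ?_⟩
    have h2 : x ∈ ⋃ y ∈ Set.range f, (fun z => y⁻¹ * z) ⁻¹' U := by rw [hs2]; trivial
    obtain ⟨y, h3⟩ := Set.mem_iUnion.1 h2
    obtain ⟨⟨j, rfl⟩, h4⟩ := Set.mem_iUnion.1 h3
    exact ⟨j, h4⟩
  have hr := hright
  set D : Set G := QMS_D Γ U f with hD
  have hVo : ∀ j, IsOpen (QMS_V U f j) := fun j => hUo.preimage (by fun_prop)
  have hWo : ∀ j, IsOpen (QMS_W Γ U f j) := fun j =>
    isOpen_iUnion fun γ => (hVo j).preimage (by fun_prop)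
  have hDm : MeasurableSet D := by
    apply MeasurableSet.iUnion
    intro j
    apply (hVo j).measurableSet.diff
    exact (isOpen_iUnion fun i => isOpen_iUnion fun _ => hWo i).measurableSet
  have hmk : Measurable (QuotientGroup.mk : G → G ⧸ Γ) := measurable_quotient_mk''
  have hfd : ∀ g : G, IsFundamentalDomain Γ.op ((fun x => g * x) ⁻¹' D) μ := by
    intro g
    apply IsFundamentalDomain.mk'
    · exact ((measurable_const_mul g) hDm).nullMeasurableSet
    · intro x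
      obtain ⟨γ, h1, h2⟩ := QMS_existsUnique hU hf (g * x)
      have hcm : ∀ γ : Γ.op, γ • (g * x) = g * (γ • x) := fun γ =>
        mul_assoc g x (MulOpposite.unop (γ : Gᵐᵒᵖ))
      refine ⟨γ, ?_, ?_⟩
      · have h3 := h1
        rw [hcm] at h3
        exact h3
      · intro γ' h3
        apply h2
        show γ' • (g * x) ∈ D
        rw [hcm]
        exact h3
  have hfd1 : IsFundamentalDomain Γ.op D μ := by
    have h1 := hfd 1
    have h2 : (fun x => (1 : G) * x) ⁻¹' D = D := by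
      ext x
      show 1 * x ∈ D ↔ x ∈ D
      rw [one_mul]
    rwa [h2] at h1
  have hpos : μ D ≠ 0 := by
    intro h0
    have h1 := hfd1.measure_eq_tsum Set.univ
    have h2 : ∀ g : Γ.op, μ (g • (Set.univ : Set G) ∩ D) = 0 := fun g =>
      measure_mono_null Set.inter_subset_right h0
    simp only [h2, tsum_zero] at h1
    exact (isOpen_univ.measure_pos μ Set.univ_nonempty).ne' h1
  have hfin : μ D ≠ ⊤ := by
    have h1 := hfd1.measure_eq_tsum K
    have h2 : D ⊆ ⋃ g : Γ.op, (g • K ∩ D) := by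
      intro x hx
      obtain ⟨γ, hγ, hxK⟩ := hK x
      refine Set.mem_iUnion.2 ⟨⟨MulOpposite.op γ⁻¹, Γ.inv_mem hγ⟩, ?_, hx⟩
      refine Set.mem_smul_set.2 ⟨x * γ, hxK, ?_⟩
      show x * γ * γ⁻¹ = x
      rw [mul_inv_cancel_right]
    have h3 : μ D ≤ μ K := by
      rw [h1]
      exact (measure_mono h2).trans (measure_iUnion_le _)
    exact ne_top_of_le_ne_top hKc.measure_ne_top h3
  set m : Measure (G ⧸ Γ) := (μ D)⁻¹ • Measure.map (QuotientGroup.mk : G → G ⧸ Γ)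
    (μ.restrict D) with hm
  have hm0 : ∀ E : Set (G ⧸ Γ), MeasurableSet E → m E = (μ D)⁻¹ *
      μ (((QuotientGroup.mk : G → G ⧸ Γ) ⁻¹' E) ∩ D) := by
    intro E hE
    rw [hm, Measure.smul_apply, Measure.map_apply hmk hE, Measure.restrict_apply (hmk hE),
      smul_eq_mul]
  refine ⟨m, μ D, hhaar, hright, hinv, hcount, hdisc, ⟨?_⟩, fun g => ?_, hfin, hpos, ?_⟩
  · rw [hm0 _ MeasurableSet.univ, Set.preimage_univ, Set.univ_inter]
    exact ENNReal.inv_mul_cancel hpos hfin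
  · have hsm : Measurable (fun x : G ⧸ Γ => g • x) := by
      apply QuotientGroup.measurable_from_quotient.2
      exact hmk.comp (measurable_const_mul g)
    refine ⟨hsm, ?_⟩
    ext E hE
    rw [Measure.map_apply hsm hE, hm0 _ (hsm hE), hm0 _ hE]
    congr 1
    set A : Set G := (QuotientGroup.mk : G → G ⧸ Γ) ⁻¹' E with hA
    have hAm : MeasurableSet A := hmk hE
    have h1 : (QuotientGroup.mk : G → G ⧸ Γ) ⁻¹' ((fun x => g • x) ⁻¹' E) =
      (fun x => g * x) ⁻¹' A := rfl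
    have h2 : (fun x => g * x) ⁻¹' A ∩ D =
        (fun x => g * x) ⁻¹' (A ∩ (fun x => g⁻¹ * x) ⁻¹' D) := by
      ext x
      simp only [Set.mem_inter_iff, Set.mem_preimage, inv_mul_cancel_left]
    rw [h1, h2, measure_preimage_mul]
    have h3 := (hfd g⁻¹).measure_set_eq hfd1 hAm (by
      intro γ
      ext x
      show QuotientGroup.mk (γ • x) ∈ E ↔ QuotientGroup.mk x ∈ E
      have : (QuotientGroup.mk (γ • x) : G ⧸ Γ) = QuotientGroup.mk x := by
        apply QuotientGroup.eq.2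
        show (x * MulOpposite.unop (γ : Gᵐᵒᵖ))⁻¹ * x ∈ Γ
        rw [mul_inv_rev, inv_mul_cancel_right]
        exact Γ.inv_mem γ.2
      rw [this])
    rw [h3]
  · intro φ hφ
    have hsG : Measurable (sG Γ φ) := by
      apply QuotientGroup.measurable_from_quotient.2
      have h1 : (sG Γ φ ∘ (QuotientGroup.mk : G → G ⧸ Γ)) = fun g => ∑' γ : Γ, φ (g * γ) := by
        funext g
        exact sG_mk Γ φ g
      show Measurable (sG Γ φ ∘ (QuotientGroup.mk : G → G ⧸ Γ))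
      rw [h1]
      exact Measurable.tsum fun γ => hφ.comp (measurable_mul_const _)
    rw [hm, lintegral_smul_measure, lintegral_map hsG hmk, smul_eq_mul, ← mul_assoc,
      ENNReal.mul_inv_cancel hpos hfin, one_mul, hfd1.lintegral_eq_tsum'']
    rw [← lintegral_tsum]
    · apply lintegral_congr
      intro x
      rw [sG_mk]
      exact ((Γ.equivOp).tsum_eq (fun γ : Γ.op => φ (γ • x))).symm
    · intro γ
      exact (hφ.comp (measurable_const_smul γ)).aemeasurable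

end Pool.PQ
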