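import Pool.Agent.Work.MP_972ac7_Q.Interface2

/-! Block RLG of THEOREM PP (helper24). -/

set_option autoImplicit false

open MeasureTheory NumberField IsDedekindDomain
open scoped Quaternion ENNReal

noncomputable section

namespace Pool.PQ

open Pool.PL Pool.TFD Pool.TC

theorem RLG_floor {x y : ℝ} (h : ⌊x⌋ = ⌊y⌋) : |x - y| < 1 := Int.abs_sub_lt_one_of_floor_eq_floor h

theorem RLG_le (r c : ℝ) (Z : Finset ℝ) (hr : 1 ≤ r) (h1 : ∀ z ∈ Z, ‖z - c‖ ≤ r)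
    (h2 : ∀ z ∈ Z, ∀ z' ∈ Z, z ≠ z' → 1 ≤ ‖z - z'‖) : (Z.card : ℝ) ≤ 4 * r ^ 1 := by
  have hm : ∀ z ∈ Z, ⌊z - c⌋ ∈ Finset.Icc ⌊-r⌋ ⌊r⌋ := by
    intro z hz
    have h := abs_le.1 (by simpa [Real.norm_eq_abs] using h1 z hz)
    rw [Finset.mem_Icc]
    exact ⟨Int.floor_le_floor h.1, Int.floor_le_floor h.2⟩
  have hinj : Set.InjOn (fun z : ℝ => ⌊z - c⌋) (Z : Set ℝ) := by
    intro z hz z' hz' h
    by_contra hne
    have h3 := h2 z hz z' hz' hne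
    have h4 := RLG_floor h
    rw [Real.norm_eq_abs] at h3
    rw [sub_sub_sub_cancel_right] at h4
    linarith
  have hc := Finset.card_le_card_of_injOn _ hm hinj
  rw [Int.card_Icc] at hc
  have hf1 : (⌊r⌋ : ℝ) ≤ r := Int.floor_le r
  have hf2 : -r - 1 < (⌊-r⌋ : ℝ) := Int.sub_one_lt_floor (-r)
  have h5 : ((⌊r⌋ + 1 - ⌊-r⌋).toNat : ℝ) ≤ 2 * r + 2 := by
    have h6 : (0 : ℤ) ≤ ⌊r⌋ + 1 - ⌊-r⌋ := by
      have : ⌊-r⌋ ≤ ⌊r⌋ := Int.floor_le_floor (by linarith)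
      linarith
    have h7 : (((⌊r⌋ + 1 - ⌊-r⌋).toNat : ℤ) : ℝ) = ((⌊r⌋ + 1 - ⌊-r⌋ : ℤ) : ℝ) := by
      rw [Int.toNat_of_nonneg h6]
    rw [Int.cast_natCast] at h7
    rw [h7]
    push_cast
    linarith
  have h8 : (Z.card : ℝ) ≤ ((⌊r⌋ + 1 - ⌊-r⌋).toNat : ℝ) := by exact_mod_cast hc
  rw [pow_one]
  linarith

theorem RLG_ge (R : ℝ) (hR : 1 ≤ R) : ∃ Z : Finset ℝ, (∀ z ∈ Z, ‖z‖ ≤ R) ∧
    (∀ z ∈ Z, ∀ z' ∈ Z, z ≠ z' → 1 ≤ ‖z - z'‖) ∧ R ^ 1 ≤ 4 * Z.card := by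
  refine ⟨(Finset.range (⌊R⌋₊ + 1)).image (fun n : ℕ => (n : ℝ)), ?_, ?_, ?_⟩
  · intro z hz
    obtain ⟨n, hn, rfl⟩ := Finset.mem_image.1 hz
    rw [Real.norm_eq_abs, abs_of_nonneg (Nat.cast_nonneg n)]
    have h1 : n ≤ ⌊R⌋₊ := Nat.lt_succ_iff.1 (Finset.mem_range.1 hn)
    exact le_trans (by exact_mod_cast h1) (Nat.floor_le (by linarith))
  · intro z hz z' hz' hne
    obtain ⟨n, -, rfl⟩ := Finset.mem_image.1 hz
    obtain ⟨m, -, rfl⟩ := Finset.mem_image.1 hz'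
    have hnm : (n : ℤ) - m ≠ 0 := by
      intro h
      apply hne
      have : (n : ℤ) = m := by linarith
      have h' : n = m := by exact_mod_cast this
      rw [h']
    have h1 : (1 : ℤ) ≤ |(n : ℤ) - m| := Int.one_le_abs hnm
    rw [Real.norm_eq_abs]
    exact_mod_cast h1
  · rw [Finset.card_image_of_injective _ Nat.cast_injective, Finset.card_range, pow_one]
    have h1 : R < (⌊R⌋₊ : ℝ) + 1 := Nat.lt_floor_add_one R
    push_cast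
    have h2 : (0 : ℝ) ≤ (⌊R⌋₊ : ℝ) := Nat.cast_nonneg _
    linarith

theorem RLG_cov (r : ℝ) (h0 : 0 < r) (h1 : r ≤ 1) : ∃ (N : ℕ) (cl : ℝ → Fin N),
    (N : ℝ) * r ^ 1 ≤ 4 ∧ ∀ x y : ℝ, ‖x‖ ≤ 1 → ‖y‖ ≤ 1 → cl x = cl y → ‖x - y‖ ≤ r := by
  refine ⟨⌊2 / r⌋₊ + 1, fun x => ⟨min ⌊(x + 1) / r⌋₊ ⌊2 / r⌋₊,
    Nat.lt_succ_of_le (min_le_right _ _)⟩, ?_, ?_⟩
  · have h2 : (⌊2 / r⌋₊ : ℝ) ≤ 2 / r := Nat.floor_le (by positivity)
    have h3 : (⌊2 / r⌋₊ : ℝ) * r ≤ 2 := by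
      calc (⌊2 / r⌋₊ : ℝ) * r ≤ 2 / r * r := mul_le_mul_of_nonneg_right h2 h0.le
        _ = 2 := div_mul_cancel₀ _ h0.ne'
    push_cast
    rw [pow_one, add_mul, one_mul]
    linarith
  · intro x y hx hy h
    rw [Real.norm_eq_abs] at hx hy ⊢
    have hx' := abs_le.1 hx
    have hy' := abs_le.1 hy
    have e := congrArg Fin.val h
    simp only at e
    have b1 : ⌊(x + 1) / r⌋₊ ≤ ⌊2 / r⌋₊ :=
      Nat.floor_le_floor (div_le_div_of_nonneg_right (by linarith) h0.le)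
    have b2 : ⌊(y + 1) / r⌋₊ ≤ ⌊2 / r⌋₊ :=
      Nat.floor_le_floor (div_le_div_of_nonneg_right (by linarith) h0.le)
    rw [min_eq_left b1, min_eq_left b2] at e
    have p1 : 0 ≤ (x + 1) / r := div_nonneg (by linarith) h0.le
    have p2 : 0 ≤ (y + 1) / r := div_nonneg (by linarith) h0.le
    have c1 := Nat.floor_le p1
    have c2 := Nat.floor_le p2
    have c3 := Nat.lt_floor_add_one ((x + 1) / r)
    have c4 := Nat.lt_floor_add_one ((y + 1) / r)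
    rw [e] at c1 c3
    have d1 : (x + 1) / r - (y + 1) / r < 1 := by linarith
    have d2 : (y + 1) / r - (x + 1) / r < 1 := by linarith
    rw [← sub_div, div_lt_one h0] at d1 d2
    rw [abs_le]
    constructor <;> linarith

/-- the real numbers -/
def RLG_L : LG ℝ where
  e := 1
  he := Or.inl rfl
  C := 4
  one_le := by norm_num
  ϑ := 2
  one_lt := by norm_num
  two_ne := by norm_num
  sep_le := RLG_le
  sep_ge := RLG_ge
  cov := RLG_cov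

theorem p_RLG : Stmt_RLG := ⟨RLG_L, rfl⟩

end Pool.PQ
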