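import Pool.Agent.Work.MP_972ac7_Q.Interface2

set_option autoImplicit false

/-! # Block SLG (helper70): the choice of two coordinates -/

open MeasureTheory NumberField IsDedekindDomain
open scoped Quaternion ENNReal

noncomputable section

namespace Pool.PQ

open Pool.PL Pool.TFD Pool.TC

theorem SLG_aniso {F : Type} [Field F] (a b : F)
    (h : ∀ z : ℍ[F, a, b], nrq z = 0 → z = 0) (u : Fin 4 → F)
    (hu : u 0 ^ 2 - a * u 1 ^ 2 - b * u 2 ^ 2 + a * b * u 3 ^ 2 = 0) : ∀ i, u i = 0 := by
  have h1 := h ⟨u 0, u 1, u 2, u 3⟩ (by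
    unfold nrq
    simp only
    linear_combination hu)
  have h2 := QuaternionAlgebra.ext_iff.1 h1
  intro i
  fin_cases i
  · exact h2.1
  · exact h2.2.1
  · exact h2.2.2.1
  · exact h2.2.2.2

theorem p_SLG (hCEG : Stmt_CEG) : Stmt_SLG := by
  intro F _ _ a b hnr
  have hz := SLG_aniso (a : F) (b : F) hnr
  have ha : (a : F) ≠ 0 := by
    intro ha
    have h1 := hz ![0, 1, 0, 0] (by simp [ha]) 1
    simp at h1
  have hb : (b : F) ≠ 0 := by
    intro hb
    have h1 := hz ![0, 0, 1, 0] (by simp [hb]) 2
    simp at h1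
  obtain ⟨w₀⟩ : Nonempty (InfinitePlace F) := inferInstance
  have hab : (a : F) * (b : F) ≠ 0 := mul_ne_zero ha hb
  -- the pair (1, 2)
  have c12 : PosAt w₀ ((a : F) * (b : F)) → ∃ (w₀ : InfinitePlace F) (σ : Equiv.Perm (Fin 4)),
      σ 0 = 0 ∧ Cell w₀ (dq a b (σ 1) : F) (dq a b (σ 2) : F) ∧
      ∀ x y : F, (dq a b (σ 1) : F) * x ^ 2 + (dq a b (σ 2) : F) * y ^ 2 = 0 → x = 0 ∧ y = 0 := by
    intro hp
    refine ⟨w₀, 1, rfl, ?_, ?_⟩
    · apply hCEG
      · simpa [dq] using ha
      · simpa [dq] using hb
      · have h1 : ((dq a b ((1 : Equiv.Perm (Fin 4)) 1) : 𝓞 F) : F) *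
            ((dq a b ((1 : Equiv.Perm (Fin 4)) 2) : 𝓞 F) : F) = (a : F) * (b : F) := by
          simp [dq]
        rw [h1]
        exact hp
    · intro x y hxy
      have h1 := hz ![0, x, y, 0] (by
        simp [dq] at hxy
        simp
        linear_combination hxy)
      exact ⟨by simpa using h1 1, by simpa using h1 2⟩
  by_cases hr : w₀.IsReal
  · set e := InfinitePlace.embedding_of_isReal hr with he
    have hea : e (a : F) ≠ 0 := (map_ne_zero e).2 ha
    have heb : e (b : F) ≠ 0 := (map_ne_zero e).2 hb
    have hpos : ∀ c : F, 0 < e c → PosAt w₀ c := by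
      intro c hc h
      exact hc
    rcases lt_or_gt_of_ne hea with ha1 | ha1
    · rcases lt_or_gt_of_ne heb with hb1 | hb1
      · exact c12 (hpos _ (by rw [map_mul]; exact mul_pos_of_neg_of_neg ha1 hb1))
      · -- a < 0 < b
        refine ⟨w₀, Equiv.swap 1 2 * Equiv.swap 2 3, by decide, ?_, ?_⟩
        · have s1 : (Equiv.swap (1 : Fin 4) 2 * Equiv.swap 2 3 : Equiv.Perm (Fin 4)) 1 = 2 := by decide
          have s2 : (Equiv.swap (1 : Fin 4) 2 * Equiv.swap 2 3 : Equiv.Perm (Fin 4)) 2 = 3 := by decide
          rw [s1, s2]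
          apply hCEG
          · simpa [dq] using hb
          · have h3 : ((dq a b 3 : 𝓞 F) : F) = (a : F) * (b : F) := by simp [dq]
            rw [h3]
            exact hab
          · apply hpos
            have h1 : ((dq a b 2 : 𝓞 F) : F) * ((dq a b 3 : 𝓞 F) : F) =
                -((a : F) * (b : F) ^ 2) := by
              simp [dq]
              ring
            rw [h1, map_neg, map_mul, map_pow]
            have h2 : 0 < e (b : F) ^ 2 := by positivity
            nlinarith
        · intro x y hxy
          have s1 : (Equiv.swap (1 : Fin 4) 2 * Equiv.swap 2 3 : Equiv.Perm (Fin 4)) 1 = 2 := by decide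
          have s2 : (Equiv.swap (1 : Fin 4) 2 * Equiv.swap 2 3 : Equiv.Perm (Fin 4)) 2 = 3 := by decide
          rw [s1, s2] at hxy
          have h1 := hz ![0, 0, x, y] (by
            simp [dq] at hxy
            simp
            linear_combination hxy)
          exact ⟨by simpa using h1 2, by simpa using h1 3⟩
    · rcases lt_or_gt_of_ne heb with hb1 | hb1
      · -- b < 0 < a
        refine ⟨w₀, Equiv.swap 2 3, by decide, ?_, ?_⟩
        · have s1 : (Equiv.swap (2 : Fin 4) 3) 1 = 1 := by decide
          have s2 : (Equiv.swap (2 : Fin 4) 3) 2 = 3 := by decide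
          rw [s1, s2]
          apply hCEG
          · simpa [dq] using ha
          · have h3 : ((dq a b 3 : 𝓞 F) : F) = (a : F) * (b : F) := by simp [dq]
            rw [h3]
            exact hab
          · apply hpos
            have h1 : ((dq a b 1 : 𝓞 F) : F) * ((dq a b 3 : 𝓞 F) : F) =
                -((a : F) ^ 2 * (b : F)) := by
              simp [dq]
              ring
            rw [h1, map_neg, map_mul, map_pow]
            have h2 : 0 < e (a : F) ^ 2 := by positivity
            nlinarith
        · intro x y hxy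
          have s1 : (Equiv.swap (2 : Fin 4) 3) 1 = 1 := by decide
          have s2 : (Equiv.swap (2 : Fin 4) 3) 2 = 3 := by decide
          rw [s1, s2] at hxy
          have h1 := hz ![0, x, 0, y] (by
            simp [dq] at hxy
            simp
            linear_combination hxy)
          exact ⟨by simpa using h1 1, by simpa using h1 3⟩
      · exact c12 (hpos _ (by rw [map_mul]; exact mul_pos ha1 hb1))
  · exact c12 (fun h => absurd h hr)

end Pool.PQ
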