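import Pool.Agent.Work.MP_972ac7_Q.Interface1

set_option autoImplicit false

/-! # Block SQR (square roots near 1) -/

noncomputable section

namespace Pool.PQ

open Pool.PL Pool.TFD Pool.TC

theorem p_SQR : Stmt_SQR := by
  intro k _ _ L
  have h2 : (2 : k) ≠ 0 := L.two_ne
  have hn2 : 0 < ‖(2 : k)‖ := norm_pos_iff.mpr h2
  set ρ : ℝ := ‖(2 : k)‖ / 4 with hρ
  have hρ0 : 0 < ρ := by positivity
  refine ⟨‖(2 : k)‖ ^ 2 / 8, 2 / ‖(2 : k)‖, by positivity, by positivity, ?_⟩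
  intro y hy
  set Φ : k → k := fun u => (y - u ^ 2) / 2 with hΦ
  have hy2 : ‖y‖ / ‖(2 : k)‖ ≤ ρ / 2 := by
    rw [div_le_iff₀ hn2, hρ]
    nlinarith
  have hbd : ∀ u : k, ‖u‖ ≤ ρ → ‖Φ u‖ ≤ ‖y‖ / ‖(2 : k)‖ + ‖u‖ / 4 := by
    intro u hu
    have h1 : ‖Φ u‖ ≤ (‖y‖ + ‖u‖ ^ 2) / ‖(2 : k)‖ := by
      simp only [hΦ]
      rw [norm_div]
      apply div_le_div_of_nonneg_right _ hn2.le
      calc ‖y - u ^ 2‖ ≤ ‖y‖ + ‖u ^ 2‖ := norm_sub_le _ _
        _ = ‖y‖ + ‖u‖ ^ 2 := by rw [norm_pow]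
    refine h1.trans ?_
    rw [add_div]
    have h3 : ‖u‖ ^ 2 / ‖(2 : k)‖ ≤ ‖u‖ / 4 := by
      rw [div_le_div_iff₀ hn2 (by norm_num)]
      have := norm_nonneg u
      have h4 : ‖u‖ * 4 ≤ ‖(2 : k)‖ := by
        rw [hρ] at hu
        linarith
      nlinarith
    linarith
  have hmaps : Set.MapsTo Φ (Metric.closedBall 0 ρ) (Metric.closedBall 0 ρ) := by
    intro u hu
    rw [mem_closedBall_zero_iff] at hu ⊢
    have := hbd u hu
    linarith
  have hcon : ContractingWith (1 / 2) (hmaps.restrict Φ (Metric.closedBall 0 ρ)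
      (Metric.closedBall 0 ρ)) := by
    refine ⟨by norm_num, ?_⟩
    refine LipschitzWith.of_dist_le_mul ?_
    rintro ⟨u, hu⟩ ⟨v, hv⟩
    rw [mem_closedBall_zero_iff] at hu hv
    simp only [Subtype.dist_eq, Set.MapsTo.val_restrict_apply, dist_eq_norm]
    have he : Φ u - Φ v = (v - u) * (u + v) / 2 := by
      simp only [hΦ]
      ring
    rw [he, norm_div, norm_mul, norm_sub_rev v u, div_le_iff₀ hn2]
    have h1 : ‖u + v‖ ≤ 2 * ρ := (norm_add_le _ _).trans (by linarith)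
    have h2' : ‖u - v‖ * ‖u + v‖ ≤ ‖u - v‖ * (2 * ρ) :=
      mul_le_mul_of_nonneg_left h1 (norm_nonneg _)
    refine h2'.trans (le_of_eq ?_)
    rw [hρ]
    push_cast
    ring
  obtain ⟨u, hu, hfix, -⟩ := hcon.exists_fixedPoint' (x := (0 : k))
    (Metric.isClosed_closedBall.isComplete) hmaps
    (by simpa using hρ0.le) (edist_ne_top _ _)
  rw [mem_closedBall_zero_iff] at hu
  have hfix' : Φ u = u := hfix
  refine ⟨1 + u, ?_, ?_⟩
  · have : (y - u ^ 2) / 2 = u := hfix'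
    rw [div_eq_iff h2] at this
    linear_combination -this
  · have h5 := hbd u hu
    rw [hfix'] at h5
    rw [add_sub_cancel_left]
    have h6 : 2 / ‖(2 : k)‖ * ‖y‖ = 2 * (‖y‖ / ‖(2 : k)‖) := by ring
    rw [h6]
    have h7 : 0 ≤ ‖y‖ / ‖(2 : k)‖ := by positivity
    linarith

end Pool.PQ
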