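import Pool.Agent.Work.MP_972ac7_Q.Interface1

set_option autoImplicit false

open MeasureTheory
open scoped ENNReal

noncomputable section

namespace Pool.PQ

open Pool.PL Pool.TFD Pool.TC

theorem TAU_nm_pos {k : Type} [NormedField k] (g : SL2 k) : 0 < nm g := by
  rcases (nm_nonneg g).lt_or_eq with h | h
  · exact h
  · exfalso
    have h0 : ∀ i j, (g : Matrix (Fin 2) (Fin 2) k) i j = 0 := by
      intro i j
      have h1 := le_mnm (g : Matrix (Fin 2) (Fin 2) k) i j
      have h2 : mnm (g : Matrix (Fin 2) (Fin 2) k) = 0 := h.symm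
      rw [h2] at h1
      exact norm_le_zero_iff.1 h1
    have h3 := g.det_coe
    rw [Matrix.det_fin_two, h0 0 0, h0 0 1] at h3
    simp at h3

theorem p_TAU : Stmt_TAU := by
  intro k _ _ L μ hμ τ R ρ hH
  obtain ⟨Cb, hCb⟩ := hH.bdd
  have hR : 0 < R := lt_of_lt_of_le one_pos hH.one_le
  refine ⟨max Cb 0 * R, mul_nonneg (le_max_right _ _) hR.le, ?_⟩
  intro n
  induction n with
  | zero =>
    intro z
    have hz : 0 < nm z ^ L.e := pow_pos (TAU_nm_pos z) _
    show τ z ≤ _ ∧ (τ z ≠ 0 → _)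
    constructor
    · by_cases h : τ z = 0
      · rw [h]; exact zero_le
      · refine (hCb z).trans (ENNReal.ofReal_le_ofReal ?_)
        have h1 := hH.supp z h
        have h2 : 1 ≤ R * (nm z ^ L.e)⁻¹ := by
          rw [← div_eq_mul_inv, one_le_div hz]
          exact h1
        have h3 : max Cb 0 * 1 ≤ max Cb 0 * (R * (nm z ^ L.e)⁻¹) :=
          mul_le_mul_of_nonneg_left h2 (le_max_right _ _)
        calc Cb ≤ max Cb 0 := le_max_left _ _
          _ = max Cb 0 * 1 := (mul_one _).symm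
          _ ≤ max Cb 0 * (R * (nm z ^ L.e)⁻¹) := h3
          _ = max Cb 0 * R * ρ ^ 0 * (nm z ^ L.e)⁻¹ := by ring
    · intro h
      have h1 := hH.supp z h
      have h2 : (1 : ℝ) ≤ 2 ^ L.e := one_le_pow₀ (by norm_num)
      calc nm z ^ L.e ≤ R := h1
        _ = 1 * R := (one_mul R).symm
        _ ≤ 2 ^ L.e * R := mul_le_mul_of_nonneg_right h2 hR.le
        _ = (2 ^ L.e * R) ^ (0 + 1) := by rw [zero_add, pow_one]
  | succ n ih =>
    intro z
    rw [Function.iterate_succ_apply']
    set φ := (PP μ τ)^[n] τ with hφ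
    have hz : 0 < nm z ^ L.e := pow_pos (TAU_nm_pos z) _
    have hC : 0 ≤ max Cb 0 * R * ρ ^ n :=
      mul_nonneg (mul_nonneg (le_max_right _ _) hR.le) (pow_nonneg hH.pos.le _)
    constructor
    · unfold PP
      calc ∫⁻ u, φ (z * u) * τ u ∂μ
          ≤ ∫⁻ u, ENNReal.ofReal (max Cb 0 * R * ρ ^ n) *
              (ENNReal.ofReal ((nm (z * u) ^ L.e)⁻¹) * τ u) ∂μ := by
            refine lintegral_mono fun u => ?_
            rw [← mul_assoc, ← ENNReal.ofReal_mul hC]
            exact mul_le_mul' (ih (z * u)).1 le_rfl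
        _ = ENNReal.ofReal (max Cb 0 * R * ρ ^ n) *
              ∫⁻ u, ENNReal.ofReal ((nm (z * u) ^ L.e)⁻¹) * τ u ∂μ :=
            lintegral_const_mul' _ _ ENNReal.ofReal_ne_top
        _ ≤ ENNReal.ofReal (max Cb 0 * R * ρ ^ n) * ENNReal.ofReal (ρ * (nm z ^ L.e)⁻¹) :=
            mul_le_mul' le_rfl (hH.avg z)
        _ = ENNReal.ofReal (max Cb 0 * R * ρ ^ (n + 1) * (nm z ^ L.e)⁻¹) := by
            rw [← ENNReal.ofReal_mul hC]
            congr 1
            ring
    · intro h
      have hex : ∃ u, φ (z * u) * τ u ≠ 0 := by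
        by_contra hcon
        push Not at hcon
        apply h
        unfold PP
        simp only [hcon, lintegral_zero]
      obtain ⟨u, hu⟩ := hex
      have hu1 : φ (z * u) ≠ 0 := left_ne_zero_of_mul hu
      have hu2 : τ u ≠ 0 := right_ne_zero_of_mul hu
      have h1 := (ih (z * u)).2 hu1
      have h2 := hH.supp u hu2
      have h3 : nm z ≤ 2 * (nm (z * u) * nm u) := by
        have := nm_mul_le2 (z * u) u⁻¹
        rw [mul_inv_cancel_right, nm_inv] at this
        exact this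
      have h4 : nm z ^ L.e ≤ (2 * (nm (z * u) * nm u)) ^ L.e :=
        pow_le_pow_left₀ (nm_nonneg z) h3 _
      have h5 : (0 : ℝ) ≤ 2 ^ L.e := by positivity
      calc nm z ^ L.e ≤ (2 * (nm (z * u) * nm u)) ^ L.e := h4
        _ = 2 ^ L.e * (nm (z * u) ^ L.e * nm u ^ L.e) := by rw [mul_pow, mul_pow]
        _ ≤ 2 ^ L.e * ((2 ^ L.e * R) ^ (n + 1) * R) := by
            refine mul_le_mul_of_nonneg_left ?_ h5
            exact mul_le_mul h1 h2 (pow_nonneg (nm_nonneg u) _) (by positivity)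
        _ = (2 ^ L.e * R) ^ (n + 1 + 1) := by ring

end Pool.PQ
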