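import Pool.Agent.Work.MP_972ac7_Q.Interface1

set_option autoImplicit false

open MeasureTheory

noncomputable section

namespace Pool.PQ

open Pool.PL Pool.TFD Pool.TC

theorem p_TG2 (hTP2 : Stmt_TP2) : Stmt_TG2 := by
  intro ι _ k _ _
  have h := fun i => hTP2 (k i)
  have h1 : ∀ i, LocallyCompactSpace (SL2 (k i)) := fun i => (h i).1
  have h2 : ∀ i, SecondCountableTopology (SL2 (k i)) := fun i => (h i).2.1
  have h3 : ∀ i, T2Space (SL2 (k i)) := fun i => (h i).2.2.1
  refine ⟨inferInstance, inferInstance, inferInstance, inferInstance, ?_, ?_, ?_⟩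
  · intro R
    have e : {g : GG k | ∀ i, nm (g i) ≤ R} = Set.pi Set.univ fun i => {g : SL2 (k i) | nm g ≤ R} := by
      ext g
      simp
    rw [e]
    exact isCompact_univ_pi fun i => (h i).2.2.2.1 R
  · intro U hU
    rw [nhds_pi, Filter.mem_pi] at hU
    obtain ⟨I, -, t, ht, hI⟩ := hU
    choose r hr0 hr using fun i => (h i).2.2.2.2.1 (t i) (ht i)
    cases nonempty_fintype ι
    obtain ⟨T, hT0, hT⟩ : ∃ T : ℝ, 0 < T ∧ ∀ i, T ≤ r i := by
      rcases isEmpty_or_nonempty ι with hι | hι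
      · exact ⟨1, one_pos, fun i => (hι.false i).elim⟩
      · obtain ⟨i₀, hi₀⟩ := Finite.exists_min r
        exact ⟨r i₀, hr0 i₀, hi₀⟩
    exact ⟨T, hT0, fun g hg => hI fun i _ => hr i ((hg i).trans (hT i))⟩
  · intro r hr
    have e : {g : GG k | ∀ i, dnm (g i) ≤ r} =
        Set.pi Set.univ fun i => {g : SL2 (k i) | dnm g ≤ r} := by
      ext g
      simp
    rw [e]
    exact set_pi_mem_nhds Set.finite_univ fun i _ => (h i).2.2.2.2.2 r hr

end Pool.PQ
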