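import Pool.Agent.Work.MP_972ac7_Q.Interface1

set_option autoImplicit false

/-! # THEOREM PP, block TP2: the topology of `SL2` -/

open MeasureTheory

noncomputable section

namespace Pool.PQ

open Pool.PL Pool.TFD Pool.TC

theorem TP2_coord {k : Type} [NormedField k] (i j : Fin 2) :
    Continuous fun g : SL2 k => (g : Matrix (Fin 2) (Fin 2) k) i j := by
  have h1 : Continuous fun g : SL2 k => (g : Matrix (Fin 2) (Fin 2) k) :=
    continuous_subtype_val
  exact (continuous_apply j).comp ((continuous_apply i).comp h1)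

theorem TP2_cpt {k : Type} [NormedField k] [ProperSpace k] (R : ℝ) :
    IsCompact {g : SL2 k | nm g ≤ R} := by
  have h1 : IsCompact {A : Fin 2 → Fin 2 → k | ∀ i j, A i j ∈ Metric.closedBall (0 : k) R} := by
    have h2 : {A : Fin 2 → Fin 2 → k | ∀ i j, A i j ∈ Metric.closedBall (0 : k) R} =
        Set.pi Set.univ fun _ : Fin 2 => Set.pi Set.univ fun _ : Fin 2 =>
          Metric.closedBall (0 : k) R := by
      ext A
      constructor
      · exact fun h i _ j _ => h i j
      · exact fun h i j => h i trivial j trivial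
    rw [h2]
    exact isCompact_univ_pi fun _ => isCompact_univ_pi fun _ => isCompact_closedBall _ _
  have h3 := (Matrix.SpecialLinearGroup.isClosedEmbedding_val (n := Fin 2) (R := k)).isCompact_preimage
    (K := {A : Matrix (Fin 2) (Fin 2) k | ∀ i j, A i j ∈ Metric.closedBall (0 : k) R}) h1
  have h4 : {g : SL2 k | nm g ≤ R} =
      (fun g : SL2 k => (g : Matrix (Fin 2) (Fin 2) k)) ⁻¹'
        {A : Matrix (Fin 2) (Fin 2) k | ∀ i j, A i j ∈ Metric.closedBall (0 : k) R} := by
    ext g
    have h5 : nm g ≤ R ↔ ∀ i j, ‖(g : Matrix (Fin 2) (Fin 2) k) i j‖ ≤ R := by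
      unfold nm
      exact mnm_le
    rw [Set.mem_ofPred_eq, h5]
    simp only [Set.mem_preimage, Set.mem_ofPred_eq, mem_closedBall_zero_iff]
  rw [h4]
  exact h3

theorem p_TP2 : Stmt_TP2 := by
  intro k _ _
  have he := Matrix.SpecialLinearGroup.isClosedEmbedding_val (n := Fin 2) (R := k)
  have i1 : LocallyCompactSpace (Matrix (Fin 2) (Fin 2) k) :=
    inferInstanceAs (LocallyCompactSpace (Fin 2 → Fin 2 → k))
  have i2 : SecondCountableTopology (Matrix (Fin 2) (Fin 2) k) :=
    inferInstanceAs (SecondCountableTopology (Fin 2 → Fin 2 → k))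
  have i3 : T2Space (Matrix (Fin 2) (Fin 2) k) :=
    inferInstanceAs (T2Space (Fin 2 → Fin 2 → k))
  refine ⟨he.locallyCompactSpace, he.isEmbedding.secondCountableTopology,
    he.isEmbedding.t2Space, TP2_cpt, ?_, ?_⟩
  · intro U hU
    have hc : nhds (1 : SL2 k) = Filter.comap (fun g : SL2 k => (g : Matrix (Fin 2) (Fin 2) k))
        (nhds ((1 : SL2 k) : Matrix (Fin 2) (Fin 2) k)) := he.isInducing.nhds_eq_comap (1 : SL2 k)
    rw [hc, Filter.mem_comap] at hU
    obtain ⟨V, hV, hVU⟩ := hU
    let o : Fin 2 → Fin 2 → k := fun i j => ((1 : SL2 k) : Matrix (Fin 2) (Fin 2) k) i j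
    let V' : Set (Fin 2 → Fin 2 → k) := V
    have hV' : V' ∈ nhds o := hV
    obtain ⟨ε, hε, hb⟩ := Metric.mem_nhds_iff.1 hV'
    refine ⟨ε / 2, by positivity, fun g hg => hVU ?_⟩
    let g' : Fin 2 → Fin 2 → k := fun i j => (g : Matrix (Fin 2) (Fin 2) k) i j
    have hg' : g' ∈ V' → (g : Matrix (Fin 2) (Fin 2) k) ∈ V := fun h => h
    apply hg'
    apply hb
    rw [Metric.mem_ball, dist_pi_lt_iff hε]
    intro i
    rw [dist_pi_lt_iff hε]
    intro j
    rw [Set.mem_ofPred_eq] at hg
    unfold dnm at hg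
    rw [mnm_le] at hg
    have h2 := hg i j
    rw [Matrix.sub_apply] at h2
    rw [dist_eq_norm]
    exact lt_of_le_of_lt h2 (by linarith)
  · intro r hr
    have h1 : ∀ i j : Fin 2, ∀ᶠ g : SL2 k in nhds (1 : SL2 k),
        ‖(g : Matrix (Fin 2) (Fin 2) k) i j - (1 : Matrix (Fin 2) (Fin 2) k) i j‖ ≤ r := by
      intro i j
      have hcont : Continuous fun g : SL2 k =>
          ‖(g : Matrix (Fin 2) (Fin 2) k) i j - (1 : Matrix (Fin 2) (Fin 2) k) i j‖ :=
        ((TP2_coord i j).sub continuous_const).norm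
      have h2 : ‖((1 : SL2 k) : Matrix (Fin 2) (Fin 2) k) i j -
          (1 : Matrix (Fin 2) (Fin 2) k) i j‖ < r := by
        rw [Matrix.SpecialLinearGroup.coe_one, sub_self, norm_zero]
        exact hr
      exact (hcont.continuousAt.eventually_lt continuousAt_const h2).mono fun g hg => hg.le
    have h3 : ∀ᶠ g : SL2 k in nhds (1 : SL2 k), ∀ i j : Fin 2,
        ‖(g : Matrix (Fin 2) (Fin 2) k) i j - (1 : Matrix (Fin 2) (Fin 2) k) i j‖ ≤ r := by
      rw [Filter.eventually_all]
      intro i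
      rw [Filter.eventually_all]
      intro j
      exact h1 i j
    refine Filter.mem_of_superset h3 ?_
    intro g hg
    rw [Set.mem_ofPred_eq]
    unfold dnm
    rw [mnm_le]
    intro i j
    rw [Matrix.sub_apply]
    exact hg i j

end Pool.PQ
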