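import Pool.Agent.Work.MP_972ac7_Q.Interface1

/-! # THEOREM PP, part I: block TRV -/

set_option autoImplicit false

open MeasureTheory
open scoped ENNReal

noncomputable section

namespace Pool.PQ

open Pool.PL Pool.TFD Pool.TC

/-! ### Hilbert space lemmas -/

theorem TRV_low {H : Type} [NormedAddCommGroup H] [InnerProductSpace ℂ H] (T S : H →L[ℂ] H)
    (E : Submodule ℂ H) (J : ℕ) (f f' : Fin J → H) (n : ℕ) (h1 : ∀ j, ‖f j‖ = 1)
    (h2 : ‖S‖ ≤ 1) (h3 : ∀ j, ‖S (f j) - f j‖ ≤ 1 / 4) (h4 : ∀ h ∈ E, S h ∈ E)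
    (h5 : ∀ h ∈ E, ‖h‖ ≤ 2 ^ n * ‖(T ^ n) h‖) (h6 : ∀ j, f' j ∈ E)
    (h7 : ∑ j, ‖f j - f' j‖ ^ 2 ≤ J / 16) :
    7 * (J : ℝ) / 32 ≤ 4 ^ n * ∑ j, ‖(T ^ n) (S (f' j))‖ ^ 2 := by
  have ha : ∀ j, (9 : ℝ) / 32 ≤ ‖S (f' j)‖ ^ 2 + ‖f j - f' j‖ ^ 2 := by
    intro j
    have e1 : (1 : ℝ) ≤ ‖S (f j)‖ + ‖S (f j) - f j‖ := by
      have := norm_sub_norm_le (f j) (f j - S (f j))
      rw [h1 j] at this
      have e : f j - (f j - S (f j)) = S (f j) := by abel
      rw [e, norm_sub_rev] at this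
      linarith
    have e2 : ‖S (f j)‖ ≤ ‖S (f' j)‖ + ‖f j - f' j‖ := by
      have e3 : S (f j) = S (f' j) + S (f j - f' j) := by
        rw [← map_add]
        congr 1
        abel
      have e4 : ‖S (f j - f' j)‖ ≤ 1 * ‖f j - f' j‖ := S.le_of_opNorm_le h2 _
      calc ‖S (f j)‖ = ‖S (f' j) + S (f j - f' j)‖ := by rw [← e3]
        _ ≤ ‖S (f' j)‖ + ‖S (f j - f' j)‖ := norm_add_le _ _
        _ ≤ _ := by linarith
    have e5 := h3 j
    have e6 : (3 : ℝ) / 4 ≤ ‖S (f' j)‖ + ‖f j - f' j‖ := by linarith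
    nlinarith [sq_nonneg (‖S (f' j)‖ - ‖f j - f' j‖), norm_nonneg (S (f' j)),
      norm_nonneg (f j - f' j)]
  have hb : ∀ j, ‖S (f' j)‖ ^ 2 ≤ 4 ^ n * ‖(T ^ n) (S (f' j))‖ ^ 2 := by
    intro j
    have e1 := h5 _ (h4 _ (h6 j))
    calc ‖S (f' j)‖ ^ 2 ≤ (2 ^ n * ‖(T ^ n) (S (f' j))‖) ^ 2 :=
          pow_le_pow_left₀ (norm_nonneg _) e1 2
      _ = _ := by
          rw [mul_pow, ← pow_mul, mul_comm n 2, pow_mul]
          norm_num
  have hc : ∑ _j : Fin J, (9 : ℝ) / 32 ≤ ∑ j, (‖S (f' j)‖ ^ 2 + ‖f j - f' j‖ ^ 2) :=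
    Finset.sum_le_sum fun j _ => ha j
  rw [Finset.sum_const, Finset.card_univ, Fintype.card_fin, nsmul_eq_mul,
    Finset.sum_add_distrib] at hc
  have hd : ∑ j, ‖S (f' j)‖ ^ 2 ≤ 4 ^ n * ∑ j, ‖(T ^ n) (S (f' j))‖ ^ 2 := by
    rw [Finset.mul_sum]
    exact Finset.sum_le_sum fun j _ => hb j
  linarith

theorem TRV_num (J d C C' l ρ X : ℝ) (n : ℕ) (h1 : 1 ≤ C * J * d)
    (h2 : 7 * J / 32 ≤ 4 ^ (n + 1) * X) (h3 : X * d ^ 3 ≤ C' * (16 * C * l) * ρ ^ (2 * n))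
    (hd : 0 < d) (hC : 1 ≤ C) (hC' : 0 < C') (hl : 0 < l) :
    d ^ 2 ≤ 293 * C ^ 2 * C' * l * (2 * ρ) ^ (2 * n) := by
  have hC0 : 0 < C := by linarith
  have e1 : d ^ 2 ≤ C * J * d * d ^ 2 := le_mul_of_one_le_left (by positivity) h1
  have e2 : C * J * d * d ^ 2 = C * (32 / 7) * (7 * J / 32 * d ^ 3) := by ring
  have e3 : 7 * J / 32 * d ^ 3 ≤ 4 ^ (n + 1) * X * d ^ 3 :=
    mul_le_mul_of_nonneg_right h2 (by positivity)
  have e4 : 4 ^ (n + 1) * X * d ^ 3 ≤ 4 ^ (n + 1) * (C' * (16 * C * l) * ρ ^ (2 * n)) := by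
    rw [mul_assoc]
    exact mul_le_mul_of_nonneg_left h3 (by positivity)
  have e5 : (2 * ρ) ^ (2 * n) = 4 ^ n * ρ ^ (2 * n) := by
    rw [mul_pow, pow_mul]
    norm_num
  have e6 : C * (32 / 7) * (4 ^ (n + 1) * (C' * (16 * C * l) * ρ ^ (2 * n))) =
      2048 / 7 * (C ^ 2 * C' * l * (4 ^ n * ρ ^ (2 * n))) := by
    rw [pow_succ]
    ring
  have e7 : 0 ≤ C ^ 2 * C' * l * (4 ^ n * ρ ^ (2 * n)) := by
    have : 0 ≤ ρ ^ (2 * n) := by
      rw [pow_mul]
      positivity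
    positivity
  calc d ^ 2 ≤ C * (32 / 7) * (7 * J / 32 * d ^ 3) := by rw [← e2]; exact e1
    _ ≤ C * (32 / 7) * (4 ^ (n + 1) * (C' * (16 * C * l) * ρ ^ (2 * n))) :=
        mul_le_mul_of_nonneg_left (e3.trans e4) (by positivity)
    _ = 2048 / 7 * (C ^ 2 * C' * l * (4 ^ n * ρ ^ (2 * n))) := e6
    _ ≤ 293 * (C ^ 2 * C' * l * (4 ^ n * ρ ^ (2 * n))) :=
        mul_le_mul_of_nonneg_right (by norm_num) e7
    _ = _ := by
        rw [e5]
        ring

section hil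

variable {H : Type} [NormedAddCommGroup H] [InnerProductSpace ℂ H]

/-- the closure of the range -/
def TRV_E (χ : H →L[ℂ] H) : Submodule ℂ H :=
  (LinearMap.range (χ : H →ₗ[ℂ] H)).topologicalClosure

theorem TRV_E_closed (χ : H →L[ℂ] H) : IsClosed (TRV_E χ : Set H) :=
  Submodule.isClosed_topologicalClosure _

theorem TRV_E_mem (χ : H →L[ℂ] H) (f : H) : χ f ∈ TRV_E χ :=
  Submodule.le_topologicalClosure _ ⟨f, rfl⟩

theorem TRV_E_inv (χ A : H →L[ℂ] H) (h : A * χ = χ * A) : ∀ x ∈ TRV_E χ, A x ∈ TRV_E χ := by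
  intro x hx
  have h1 : (TRV_E χ : Set H) = closure (Set.range χ) := by
    unfold TRV_E
    rw [Submodule.topologicalClosure_coe]
    rfl
  have hx' : x ∈ closure (Set.range χ) := by
    rw [← h1]
    exact hx
  have h2 : A x ∈ closure (Set.range χ) := by
    refine map_mem_closure A.continuous hx' ?_
    rintro _ ⟨z, rfl⟩
    refine ⟨A z, ?_⟩
    have := congrArg (fun B : H →L[ℂ] H => B z) h
    exact this.symm
  rw [← h1] at h2
  exact h2

theorem TRV_E_low (χ T : H →L[ℂ] H) (n : ℕ) (h : ∀ f : H, ‖χ f‖ ≤ 2 ^ n * ‖(T ^ n) (χ f)‖) :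
    ∀ x ∈ TRV_E χ, ‖x‖ ≤ 2 ^ n * ‖(T ^ n) x‖ := by
  intro x hx
  have h1 : (TRV_E χ : Set H) = closure (Set.range χ) := by
    unfold TRV_E
    rw [Submodule.topologicalClosure_coe]
    rfl
  have hx' : x ∈ closure (Set.range χ) := by
    rw [← h1]
    exact hx
  have hc : IsClosed {x : H | ‖x‖ ≤ 2 ^ n * ‖(T ^ n) x‖} :=
    isClosed_le continuous_norm (continuous_const.mul (T ^ n).continuous.norm)
  have h2 : Set.range χ ⊆ {x : H | ‖x‖ ≤ 2 ^ n * ‖(T ^ n) x‖} := by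
    rintro _ ⟨z, rfl⟩
    exact h z
  exact closure_minimal h2 hc hx'

variable {G : Type} [Group G] [TopologicalSpace G] [MeasurableSpace G] [BorelSpace G]
  {X : Type} [MeasurableSpace X]

theorem TRV_ae (π : G →* (H ≃ₗᵢ[ℂ] H)) (hc : ∀ f, Continuous fun g => π g f) (j : X → G)
    (hj : Measurable j) (ν : Measure X) (S : H →L[ℂ] H)
    (h : ∀ᵐ x ∂ν, ∀ f, S (π (j x) f) = π (j x) (S f)) :
    ∀ᵐ g ∂(ν.map j), ∀ f, S (π g f) = π g (S f) := by
  have hm : IsClosed {g : G | ∀ f, S (π g f) = π g (S f)} := by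
    simp only [Set.ofPred_forall]
    exact isClosed_iInter fun f => isClosed_eq (S.continuous.comp (hc f)) (hc (S f))
  exact (ae_map_iff hj.aemeasurable hm.measurableSet).2 h

theorem TRV_ae2 (π : G →* (H ≃ₗᵢ[ℂ] H)) (hc : ∀ f, Continuous fun g => π g f) (j : X → G)
    (hj : Measurable j) (ν : Measure X) (f : H) (ε : ℝ)
    (h : ∀ᵐ x ∂ν, ‖π (j x) f - f‖ ≤ ε) :
    ∀ᵐ g ∂(ν.map j), ‖π g f - f‖ ≤ ε := by
  have hm : IsClosed {g : G | ‖π g f - f‖ ≤ ε} :=
    isClosed_le ((hc f).sub continuous_const).norm continuous_const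
  exact (ae_map_iff hj.aemeasurable hm.measurableSet).2 h

end hil

/-! ### The groups -/

section grp

variable {ι : Type} [DecidableEq ι] {k : ι → Type} [∀ i, NormedField (k i)]

theorem TRV_jB_self (W : ι) (b : BB k W) : jB k W b W = 1 := by
  change (Equiv.piSplitAt W (fun i => SL2 (k i))).symm (1, b) W = 1
  rw [Equiv.piSplitAt_symm_apply]
  simp

theorem TRV_jB_ne (W i : ι) (h : i ≠ W) (b : BB k W) : jB k W b i = b ⟨i, h⟩ := by
  change (Equiv.piSplitAt W (fun i => SL2 (k i))).symm (1, b) i = b ⟨i, h⟩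
  rw [Equiv.piSplitAt_symm_apply]
  simp [h]

theorem TRV_jB_cont (W : ι) : Continuous (jB k W) := by
  refine continuous_pi fun i => ?_
  by_cases h : i = W
  · subst h
    simp_rw [TRV_jB_self]
    exact continuous_const
  · simp_rw [TRV_jB_ne W i h]
    exact _root_.continuous_apply _

theorem TRV_dnm_cont {F : Type} [NormedField F] : Continuous (fun g : SL2 F => dnm g) := by
  have h : ∀ i j : Fin 2, Continuous fun g : SL2 F =>
      ‖((g : Matrix (Fin 2) (Fin 2) F) - 1) i j‖ := by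
    intro i j
    have h1 : Continuous fun g : SL2 F => (g : Matrix (Fin 2) (Fin 2) F) :=
      continuous_subtype_val
    exact ((h1.sub continuous_const).matrix_elem i j).norm
  unfold dnm mnm
  exact ((h 0 0).max (h 0 1)).max ((h 1 0).max (h 1 1))

theorem TRV_dnm_one {F : Type} [NormedField F] : dnm (1 : SL2 F) = 0 := by
  unfold dnm mnm
  simp

theorem TRV_UU_closed (W v : ι) (r δ : ℝ) : IsClosed (UU k W v r δ) := by
  unfold UU
  simp only [Set.ofPred_forall]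
  exact isClosed_iInter fun i => isClosed_le (TRV_dnm_cont.comp (_root_.continuous_apply i))
    continuous_const

theorem TRV_split (v : ι) (g : GG k) :
    g = Pi.mulSingle v (g v) * Function.update g v 1 := by
  funext i
  by_cases h : i = v
  · subst h
    simp
  · simp [h]

theorem TRV_comm (v : ι) (g : GG k) (h : g v = 1) (b : SL2 (k v)) :
    Pi.mulSingle v b * g = g * Pi.mulSingle v b := by
  funext i
  by_cases h' : i = v
  · subst h'
    simp [h]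
  · simp [h']

end grp

/-- `π g` commutes with the weak integral `T` of a measure on the factor `W` if `g W = 1`. -/
theorem TRV_cT (hWIP : Stmt_WIP) {ι : Type} [Fintype ι] [DecidableEq ι] {k : ι → Type}
    [∀ i, NormedField (k i)] [SecondCountableTopology (GG k)] [BorelSpace (GG k)] {H : Type}
    [NormedAddCommGroup H] [InnerProductSpace ℂ H] [CompleteSpace H] (π : GG k →* (H ≃ₗᵢ[ℂ] H))
    (hc : ∀ f, Continuous fun g => π g f) (W : ι) (ν : Measure (SL2 (k W)))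
    (hν : IsProbabilityMeasure ν) (T : H →L[ℂ] H)
    (hT : WI π (ν.map fun a => (Pi.mulSingle W a : GG k)) T) (g : GG k) (hg : g W = 1) :
    ((π g).toContinuousLinearEquiv : H →L[ℂ] H) * T =
      T * ((π g).toContinuousLinearEquiv : H →L[ℂ] H) := by
  have hm : Measurable fun a : SL2 (k W) => (Pi.mulSingle W a : GG k) :=
    (continuous_mulSingle (A := fun i => SL2 (k i)) W).measurable
  have hP : IsProbabilityMeasure (ν.map fun a => (Pi.mulSingle W a : GG k)) :=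
    Measure.isProbabilityMeasure_map hm.aemeasurable
  refine (hWIP (GG k) H π hc _ hP T hT).2.1 _ ?_
  refine TRV_ae π hc _ hm ν _ (Filter.Eventually.of_forall fun a f => ?_)
  change π g (π (Pi.mulSingle W a) f) = π (Pi.mulSingle W a) (π g f)
  have h1 : π g (π (Pi.mulSingle W a) f) = π (g * Pi.mulSingle W a) f := by
    rw [map_mul]
    rfl
  have h2 : π (Pi.mulSingle W a) (π g f) = π (Pi.mulSingle W a * g) f := by
    rw [map_mul]
    rfl
  rw [h1, h2, TRV_comm W g hg a]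

/-- The weak integral of the uniform measure on `UU` -/
theorem TRV_S (hWIP : Stmt_WIP) {ι : Type} [Fintype ι] [DecidableEq ι] {k : ι → Type}
    [∀ i, NormedField (k i)] [SecondCountableTopology (GG k)] [BorelSpace (GG k)] (W v : ι)
    (hWv : W ≠ v) [BorelSpace (BB k W)] {H : Type}
    [NormedAddCommGroup H] [InnerProductSpace ℂ H] [CompleteSpace H] (π : GG k →* (H ≃ₗᵢ[ℂ] H))
    (hc : ∀ f, Continuous fun g => π g f) (μB : Measure (BB k W)) (r δ : ℝ) (hr : 0 < r)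
    (h0 : μB (UU k W v r δ) ≠ 0) (h0' : μB (UU k W v r δ) ≠ ∞) (T S : H →L[ℂ] H)
    (hT : ∀ g : GG k, g W = 1 → ((π g).toContinuousLinearEquiv : H →L[ℂ] H) * T =
      T * ((π g).toContinuousLinearEquiv : H →L[ℂ] H))
    (hS : WI π (((μB (UU k W v r δ))⁻¹ • μB.restrict (UU k W v r δ)).map (jB k W)) S) :
    ‖S‖ ≤ 1 ∧ S * T = T * S ∧
    ∀ (F : H) (b : SL2 (k v)),
      (∀ g : GG k, (∀ i, dnm (g i) ≤ r) → ‖π g F - F‖ ≤ 1 / 8) →
      (∀ s, dnm s ≤ δ → ‖π (Pi.mulSingle v s) (π (Pi.mulSingle v b) F) -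
        π (Pi.mulSingle v b) F‖ ≤ 1 / 8) →
      ‖S (π (Pi.mulSingle v b) F) - π (Pi.mulSingle v b) F‖ ≤ 1 / 4 := by
  have hm : Measurable (jB k W) := (TRV_jB_cont W).measurable
  have hmu : MeasurableSet (UU k W v r δ) := (TRV_UU_closed W v r δ).measurableSet
  have hP0 : IsProbabilityMeasure ((μB (UU k W v r δ))⁻¹ • μB.restrict (UU k W v r δ)) := by
    refine ⟨?_⟩
    rw [Measure.smul_apply, Measure.restrict_apply_univ, smul_eq_mul]
    exact ENNReal.inv_mul_cancel h0 h0'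
  have hP : IsProbabilityMeasure
      (((μB (UU k W v r δ))⁻¹ • μB.restrict (UU k W v r δ)).map (jB k W)) :=
    Measure.isProbabilityMeasure_map hm.aemeasurable
  have hW := hWIP (GG k) H π hc _ hP S hS
  refine ⟨hW.1, ?_, ?_⟩
  · refine (hW.2.1 T ?_).symm
    refine TRV_ae π hc _ hm _ T (Filter.Eventually.of_forall fun b f => ?_)
    have h1 := hT (jB k W b) (TRV_jB_self W b)
    exact (congrArg (fun B : H →L[ℂ] H => B f) h1).symm
  · intro F b hF1 hF2
    refine hW.2.2.1 _ _ ?_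
    refine TRV_ae2 π hc _ hm _ _ _ ?_
    refine Measure.ae_smul_measure ?_ _
    refine (ae_restrict_iff' hmu).2 (Filter.Eventually.of_forall fun u hu => ?_)
    have hu' : ∀ i, dnm (u i) ≤ if i.1 = v then δ else r := hu
    set g : GG k := jB k W u with hg
    have hgW : g W = 1 := TRV_jB_self W u
    have hgv : dnm (g v) ≤ δ := by
      have h1 := hu' ⟨v, hWv.symm⟩
      rw [if_pos rfl] at h1
      rw [hg, TRV_jB_ne W v hWv.symm]
      exact h1
    have hgo : ∀ i, dnm (Function.update g v 1 i) ≤ r := by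
      intro i
      by_cases h : i = v
      · subst h
        rw [Function.update_self, TRV_dnm_one]
        exact hr.le
      · rw [Function.update_of_ne h]
        by_cases h' : i = W
        · subst h'
          rw [hgW, TRV_dnm_one]
          exact hr.le
        · have h1 := hu' ⟨i, h'⟩
          rw [if_neg h] at h1
          rw [hg, TRV_jB_ne W i h']
          exact h1
    have e1 : π g (π (Pi.mulSingle v b) F) =
        π (Pi.mulSingle v (g v)) (π (Pi.mulSingle v b) (π (Function.update g v 1) F)) := by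
      have e2 : g * Pi.mulSingle v b =
          Pi.mulSingle v (g v) * (Pi.mulSingle v b * Function.update g v 1) := by
        rw [TRV_comm v (Function.update g v 1) (Function.update_self _ _ _) b, ← mul_assoc,
          ← TRV_split]
      have e3 : π g (π (Pi.mulSingle v b) F) = π (g * Pi.mulSingle v b) F := by
        rw [map_mul]
        rfl
      rw [e3, e2, map_mul, map_mul]
      rfl
    have e4 : π g (π (Pi.mulSingle v b) F) - π (Pi.mulSingle v b) F =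
        π (Pi.mulSingle v (g v)) (π (Pi.mulSingle v b) (π (Function.update g v 1) F - F)) +
          (π (Pi.mulSingle v (g v)) (π (Pi.mulSingle v b) F) - π (Pi.mulSingle v b) F) := by
      rw [e1, map_sub, map_sub]
      abel
    rw [e4]
    refine (norm_add_le _ _).trans ?_
    rw [LinearIsometryEquiv.norm_map, LinearIsometryEquiv.norm_map]
    have e5 := hF1 _ hgo
    have e6 := hF2 _ hgv
    linarith

theorem p_TRV (hTG2 : Stmt_TG2) (hTP2 : Stmt_TP2) (hUN2 : Stmt_UN2) (hWIX : Stmt_WIX)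
    (hWIP : Stmt_WIP) (hVLB : Stmt_VLB) (hEST : Stmt_EST) (hGRM : Stmt_GRM) (hWPK : Stmt_WPK)
    (hNMC : Stmt_NMC) : Stmt_TRV := by
  intro ι _ _ k _ _ L Γ hΓ μ m c hQD π hπ W v hWv μA hμA τ RR ρ hHk T hT χ hχ1 hχ2 f b
  obtain ⟨hG1, hG2, hG3, hG4, hG5, hG6, hG7⟩ := hTG2 ι k
  obtain ⟨hB1, hB2, hB3, hB4, hB5, hB6, hB7⟩ :=
    hTG2 {i : ι // i ≠ W} (fun i => k i.1)
  have : BorelSpace (BB k W) := hB4
  have : LocallyCompactSpace (BB k W) := hB1
  have hνA : IsProbabilityMeasure (μA.withDensity τ) := by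
    refine ⟨?_⟩
    rw [withDensity_apply _ MeasurableSet.univ, Measure.restrict_univ]
    exact hHk.int
  have hcT : ∀ g : GG k, g W = 1 →
      ((π g).toContinuousLinearEquiv : Lp ℂ 2 m →L[ℂ] Lp ℂ 2 m) * T =
      T * ((π g).toContinuousLinearEquiv : Lp ℂ 2 m →L[ℂ] Lp ℂ 2 m) :=
    TRV_cT hWIP π hπ.cont W _ hνA T hT
  have hlow : ∀ n : ℕ, ∀ x ∈ TRV_E χ, ‖x‖ ≤ 2 ^ n * ‖(T ^ n) x‖ := fun n =>
    TRV_E_low χ T n fun f => hχ2 f n
  have hinv : ∀ g : GG k, g W = 1 → ∀ x ∈ TRV_E χ, π g x ∈ TRV_E χ := fun g hg =>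
    TRV_E_inv χ _ (hχ1 _ (hcT g hg))
  by_contra hcon
  set πv : SL2 (k v) →* (Lp ℂ 2 m ≃ₗᵢ[ℂ] Lp ℂ 2 m) :=
    π.comp (MonoidHom.mulSingle (fun i => SL2 (k i)) v) with hπv
  have hπv' : ∀ (s : SL2 (k v)) (x : Lp ℂ 2 m), πv s x = π (Pi.mulSingle v s) x :=
    fun _ _ => rfl
  have hms : ∀ s : SL2 (k v), (Pi.mulSingle v s : GG k) W = 1 := fun s => by
    simp [Pi.mulSingle, Function.update_of_ne hWv]
  obtain ⟨F, hFE, hF1, C, hC1, hpk⟩ := hWPK (k v) (L v) (Lp ℂ 2 m) πv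
    (fun f => (hπ.cont f).comp (continuous_mulSingle (A := fun i => SL2 (k i)) v))
    (TRV_E χ) (TRV_E_closed χ) (fun s x hx => hinv _ (hms s) x hx)
    ⟨χ f, TRV_E_mem χ f, b, hcon⟩
  -- the level `r`
  have hnb : {g : GG k | ‖π g F - F‖ < 1 / 8} ∈ nhds (1 : GG k) := by
    refine IsOpen.mem_nhds ?_ ?_
    · exact isOpen_lt ((hπ.cont F).sub continuous_const).norm continuous_const
    · change ‖π 1 F - F‖ < 1 / 8
      rw [map_one]
      change ‖F - F‖ < 1 / 8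
      rw [sub_self, norm_zero]
      norm_num
  obtain ⟨r₀, hr₀, hr₀F⟩ := hG6 _ hnb
  set r : ℝ := min r₀ (1 / 8) with hr
  have hr0 : 0 < r := lt_min hr₀ (by norm_num)
  have hr8 : r ≤ 1 / 8 := min_le_right _ _
  have hrF : ∀ g : GG k, (∀ i, dnm (g i) ≤ r) → ‖π g F - F‖ ≤ 1 / 8 := fun g hg =>
    le_of_lt (hr₀F fun i => (hg i).trans (min_le_left _ _))
  -- the Haar measure
  let μB : Measure (BB k W) := Measure.haar
  have hμB : μB.IsHaarMeasure := inferInstance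
  obtain ⟨cB, hcB, hvl⟩ := hVLB ι k L W v hWv μB hμB r hr0 (by linarith)
  obtain ⟨C', hC', hest⟩ := hEST ι k L Γ hΓ μ m c hQD π hπ W v hWv μA μB hμA hμB τ RR ρ hHk T hT
    r hr0 hr8
  -- the numbers
  have he1 : 1 ≤ (L v).e := by
    rcases (L v).he with h | h <;> omega
  have heW : 1 ≤ (L W).e := by
    rcases (L W).he with h | h <;> omega
  have hA2 : 2 ≤ (2 : ℝ) ^ (L W).e * RR := by
    have h1 : (2 : ℝ) ^ 1 ≤ 2 ^ (L W).e := pow_le_pow_right₀ (by norm_num) heW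
    have h2 := hHk.one_le
    nlinarith
  have hC0 : 0 < C := by linarith
  obtain ⟨δ, n, hδ0, hδ1, hδ2, hδ3⟩ := hNMC ((2 : ℝ) ^ (L W).e * RR) ρ (293 * C ^ 2 * C')
    (min r (1 / C)) (L v).e he1 hA2 hHk.pos hHk.num (by positivity)
    (lt_min hr0 (by positivity))
  have hδr : δ ≤ r := hδ1.trans (min_le_left _ _)
  have hCδ : C * δ ≤ 1 := by
    have h1 : δ ≤ 1 / C := hδ1.trans (min_le_right _ _)
    calc C * δ ≤ C * (1 / C) := mul_le_mul_of_nonneg_left h1 hC0.le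
      _ = 1 := mul_one_div_cancel hC0.ne'
  have hlog : 0 ≤ Real.log (1 / δ) := by
    apply Real.log_nonneg
    rw [le_div_iff₀ hδ0]
    linarith
  obtain ⟨J, bb, hJ1, hJ2, hJ3⟩ := hpk δ hδ0 hCδ
  -- the uniform measure
  obtain ⟨hv1, hv2⟩ := hvl δ hδ0 hδr
  have hv0 : μB (UU k W v r δ) ≠ 0 := by
    intro h
    rw [h, nonpos_iff_eq_zero, ENNReal.ofReal_eq_zero] at hv1
    have : 0 < cB * δ ^ (3 * (L v).e) := by positivity
    linarith
  have hmj : Measurable (jB k W) := (TRV_jB_cont W).measurable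
  have hP0 : IsProbabilityMeasure ((μB (UU k W v r δ))⁻¹ • μB.restrict (UU k W v r δ)) := by
    refine ⟨?_⟩
    rw [Measure.smul_apply, Measure.restrict_apply_univ, smul_eq_mul]
    exact ENNReal.inv_mul_cancel hv0 hv2
  have hP : IsProbabilityMeasure
      (((μB (UU k W v r δ))⁻¹ • μB.restrict (UU k W v r δ)).map (jB k W)) :=
    Measure.isProbabilityMeasure_map hmj.aemeasurable
  obtain ⟨S, hS⟩ := hWIX (GG k) (Lp ℂ 2 m) π hπ.cont _ hP
  obtain ⟨hS1, hS2, hS3⟩ := TRV_S hWIP W v hWv π hπ.cont μB r δ hr0 hv0 hv2 T S hcT hS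
  have hSE : ∀ x ∈ TRV_E χ, S x ∈ TRV_E χ := TRV_E_inv χ S (hχ1 S hS2)
  -- the packets
  have hfE : ∀ j, πv (bb j) F ∈ TRV_E χ := fun j => hinv _ (hms _) F hFE
  have hfn : ∀ j, ‖πv (bb j) F‖ = 1 := fun j => by
    rw [LinearIsometryEquiv.norm_map, hF1]
  have hSf : ∀ j, ‖S (πv (bb j) F) - πv (bb j) F‖ ≤ 1 / 4 := fun j =>
    hS3 F (bb j) hrF (hJ2 j)
  have hΛ : 0 < 16 * C * (1 + Real.log (1 / δ)) := by positivity
  obtain ⟨f', hf'1, hf'2, hf'3⟩ := hGRM (Lp ℂ 2 m) J (fun j => πv (bb j) F)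
    (16 * C * (1 + Real.log (1 / δ))) hΛ (by
      refine hJ3.trans (le_of_eq ?_)
      ring)
  have hspan : Submodule.span ℂ (Set.range fun j => πv (bb j) F) ≤ TRV_E χ := by
    rw [Submodule.span_le]
    rintro _ ⟨j, rfl⟩
    exact hfE j
  have hX := TRV_low T S (TRV_E χ) J (fun j => πv (bb j) F) f' (n + 1) hfn hS1 hSf hSE
    (hlow (n + 1)) (fun j => hspan (hf'1 j)) hf'2
  have hY := hest δ n hδ0 hδr hδ2 S hS J f' _ hΛ.le hf'3
  have hZ := TRV_num (J : ℝ) (δ ^ (L v).e) C C' (1 + Real.log (1 / δ)) ρ _ n hJ1 hX hY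
    (by positivity) hC1 hC' (by linarith)
  exact absurd hδ3 (not_lt.2 hZ)

end Pool.PQ
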