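import Pool.Agent.Work.MP_972ac7_Q.Interface1

set_option autoImplicit false

/-! # Block UN2: the groups `SL2` over local fields and their products are unimodular -/

open MeasureTheory
open scoped ENNReal NNReal

noncomputable section

namespace Pool.PQ

open Pool.PL Pool.TFD Pool.TC

lemma UN2_upp {k : Type} [NormedField k] (t : k) (ht : t ≠ 0) (s : k) :
    dia t ht * upp s = upp ((t ^ 2 - 1) * s) * (upp s * dia t ht) := by
  apply Subtype.ext
  rw [Matrix.SpecialLinearGroup.coe_mul, Matrix.SpecialLinearGroup.coe_mul,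
    Matrix.SpecialLinearGroup.coe_mul]
  unfold upp dia
  ext i j
  fin_cases i <;> fin_cases j <;>
    simp [Matrix.mul_apply, Fin.sum_univ_two]
  field_simp
  ring

lemma UN2_low {k : Type} [NormedField k] (t : k) (ht : t ≠ 0) (s : k) :
    low s * dia t ht = dia t ht * low s * low ((t ^ 2 - 1) * s) := by
  apply Subtype.ext
  rw [Matrix.SpecialLinearGroup.coe_mul, Matrix.SpecialLinearGroup.coe_mul,
    Matrix.SpecialLinearGroup.coe_mul]
  unfold low dia
  ext i j
  fin_cases i <;> fin_cases j <;>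
    simp [Matrix.mul_apply, Fin.sum_univ_two]
  field_simp
  ring

/-- a homomorphism from `SL2` of a local field to `ℝ≥0` without zeros is trivial -/
lemma UN2_triv (hG : Stmt_GN2) (k : Type) [NormedField k] (L : LG k)
    (χ : SL2 k →* ℝ≥0) (hpos : ∀ g, χ g ≠ 0) (g : SL2 k) : χ g = 1 := by
  have hne : L.ϑ ≠ 0 := by
    intro h
    have h1 := L.one_lt
    rw [h, norm_zero] at h1
    exact absurd h1 (by norm_num)
  have hϖ : L.ϑ ^ 2 - 1 ≠ 0 := by
    intro h
    have h1 : L.ϑ ^ 2 = 1 := sub_eq_zero.mp h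
    have h2 := congrArg (fun x : k => ‖x‖) h1
    simp only [norm_pow, norm_one] at h2
    have h3 := L.one_lt
    nlinarith
  have hu : ∀ t : k, χ (upp t) = 1 := by
    intro t
    have e := congrArg χ (UN2_upp L.ϑ hne (t / (L.ϑ ^ 2 - 1)))
    rw [mul_div_cancel₀ t hϖ, map_mul, map_mul, map_mul,
      mul_comm (χ (upp (t / (L.ϑ ^ 2 - 1))))] at e
    have hne' : χ (dia L.ϑ hne) * χ (upp (t / (L.ϑ ^ 2 - 1))) ≠ 0 :=
      mul_ne_zero (hpos _) (hpos _)
    exact mul_right_cancel₀ hne' (by rw [one_mul]; exact e.symm)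
  have hl : ∀ t : k, χ (low t) = 1 := by
    intro t
    have e := congrArg χ (UN2_low L.ϑ hne (t / (L.ϑ ^ 2 - 1)))
    rw [mul_div_cancel₀ t hϖ, map_mul, map_mul, map_mul,
      mul_comm (χ (low (t / (L.ϑ ^ 2 - 1))))] at e
    have hne' : χ (dia L.ϑ hne) * χ (low (t / (L.ϑ ^ 2 - 1))) ≠ 0 :=
      mul_ne_zero (hpos _) (hpos _)
    exact mul_left_cancel₀ hne' (by rw [mul_one]; exact e.symm)
  have hker : χ.ker = ⊤ := hG k _ hu hl
  have : g ∈ χ.ker := by rw [hker]; exact Subgroup.mem_top g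
  exact this

/-- inversion invariance of a right invariant Haar measure -/
lemma UN2_inv {G : Type} [Group G] [TopologicalSpace G] [IsTopologicalGroup G]
    [LocallyCompactSpace G] [SecondCountableTopology G] [T2Space G] [MeasurableSpace G]
    [BorelSpace G] (μ : Measure G) (h1 : μ.IsHaarMeasure) (h2 : μ.IsMulRightInvariant) :
    μ.IsInvInvariant := by
  obtain ⟨K, hK, hK1⟩ := exists_compact_mem_nhds (1 : G)
  have hKi : (interior (K ∪ K⁻¹)).Nonempty :=
    ⟨1, interior_mono Set.subset_union_left (mem_interior_iff_mem_nhds.2 hK1)⟩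
  let K₀ : TopologicalSpace.PositiveCompacts G :=
    ⟨⟨K ∪ K⁻¹, hK.union hK.inv⟩, hKi⟩
  have hsym : (K₀ : Set G)⁻¹ = K₀ := by
    change (K ∪ K⁻¹)⁻¹ = K ∪ K⁻¹
    rw [Set.union_inv, inv_inv, Set.union_comm]
  have e1 : μ = μ K₀ • Measure.haarMeasure K₀ := Measure.haarMeasure_unique μ K₀
  have e2 : μ.inv = μ.inv K₀ • Measure.haarMeasure K₀ := Measure.haarMeasure_unique μ.inv K₀
  constructor
  rw [e2, Measure.inv_apply, hsym]
  exact e1.symm

/-- right invariance from the triviality of the modular character -/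
lemma UN2_right {G : Type} [Group G] [TopologicalSpace G] [IsTopologicalGroup G]
    [LocallyCompactSpace G] [SecondCountableTopology G] [T2Space G] [MeasurableSpace G]
    [BorelSpace G] (μ : Measure G) (h1 : μ.IsHaarMeasure)
    (h : ∀ χ : G →* ℝ≥0, (∀ g, χ g ≠ 0) → ∀ g, χ g = 1) : μ.IsMulRightInvariant := by
  constructor
  intro g
  have hg : Measure.modularCharacterFun g = 1 :=
    h (Measure.modularCharacter (G := G)) (fun g => (Measure.modularCharacterFun_pos g).ne') g
  rw [Measure.map_right_mul_eq_modularCharacterFun_smul μ g, hg, one_smul]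

theorem p_UN2 (hGN2 : Stmt_GN2) (hTG2 : Stmt_TG2) (hTP2 : Stmt_TP2) : Stmt_UN2 := by
  constructor
  · intro k _ _ L μ hμ
    obtain ⟨i1, i2, i3, -, -, -⟩ := hTP2 k
    have hr : μ.IsMulRightInvariant :=
      UN2_right μ hμ (fun χ hχ g => UN2_triv hGN2 k L χ hχ g)
    exact ⟨hr, UN2_inv μ hμ hr⟩
  · intro ι _ k _ _ L μ hμ
    obtain ⟨i1, i2, i3, i4, -, -, -⟩ := hTG2 ι k
    classical
    have hr : μ.IsMulRightInvariant := by
      apply UN2_right μ hμ
      intro χ hχ g
      have hker : g ∈ χ.ker := by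
        apply Subgroup.pi_mem_of_mulSingle_mem g
        intro i
        exact UN2_triv hGN2 (k i) (L i) (χ.comp (MonoidHom.mulSingle
          (fun i => SL2 (k i)) i)) (fun g => hχ _) (g i)
      exact hker
    exact ⟨hr, UN2_inv μ hμ hr⟩

end Pool.PQ
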