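import Pool.Agent.Work.MP_972ac7_Q.Interface1

set_option autoImplicit false

/-! # THEOREM PP, block VLB: volume of small neighbourhoods (helper40) -/

open MeasureTheory
open scoped ENNReal

noncomputable section

namespace Pool.PQ

open Pool.PL Pool.TFD Pool.TC

theorem VLB_one {k : Type} [NormedField k] : mnm (1 : Matrix (Fin 2) (Fin 2) k) ≤ 1 := by
  rw [mnm_le]
  intro i j
  fin_cases i <;> fin_cases j <;> simp

theorem VLB_nm {k : Type} [NormedField k] (g : SL2 k) : nm g ≤ dnm g + 1 := by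
  calc nm g = mnm (((g : Matrix (Fin 2) (Fin 2) k) - 1) + 1) := by rw [sub_add_cancel]; rfl
    _ ≤ mnm ((g : Matrix (Fin 2) (Fin 2) k) - 1) + mnm (1 : Matrix (Fin 2) (Fin 2) k) :=
        mnm_add_le2 _ _
    _ ≤ dnm g + 1 := add_le_add le_rfl VLB_one

theorem VLB_est {k : Type} [NormedField k] (g g' : SL2 k) (η : ℝ) (hg : dnm g ≤ 1 / 4)
    (hg' : dnm g' ≤ 1 / 4) (h0 : ‖g'.1 0 0 - g.1 0 0‖ ≤ η) (h1 : ‖g'.1 0 1 - g.1 0 1‖ ≤ η)
    (h2 : ‖g'.1 1 0 - g.1 1 0‖ ≤ η) : dnm (g⁻¹ * g') ≤ 8 * η := by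
  have hη : 0 ≤ η := le_trans (norm_nonneg _) h0
  have e1 := mnm_le.1 hg
  have e2 := mnm_le.1 hg'
  have a1 : ‖g.1 0 0 - 1‖ ≤ 1 / 4 := by
    have := e1 0 0
    simpa using this
  have c1 : ‖g.1 1 0‖ ≤ 1 / 4 := by
    have := e1 1 0
    simpa using this
  have b2 : ‖g'.1 0 1‖ ≤ 1 / 4 := by
    have := e2 0 1
    simpa using this
  have d2 : ‖g'.1 1 1 - 1‖ ≤ 1 / 4 := by
    have := e2 1 1
    simpa using this
  have hdet : g.1 0 0 * g.1 1 1 - g.1 0 1 * g.1 1 0 = 1 := by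
    rw [← Matrix.det_fin_two]
    exact g.2
  have hdet' : g'.1 0 0 * g'.1 1 1 - g'.1 0 1 * g'.1 1 0 = 1 := by
    rw [← Matrix.det_fin_two]
    exact g'.2
  have ha : 3 / 4 ≤ ‖g.1 0 0‖ := by
    have h3 : ‖(1 : k)‖ ≤ ‖g.1 0 0 - 1‖ + ‖g.1 0 0‖ := by
      calc ‖(1 : k)‖ = ‖-(g.1 0 0 - 1) + g.1 0 0‖ := by congr 1; ring
        _ ≤ ‖-(g.1 0 0 - 1)‖ + ‖g.1 0 0‖ := norm_add_le _ _
        _ = _ := by rw [norm_neg]
    rw [norm_one] at h3
    linarith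
  have hd' : ‖g'.1 1 1‖ ≤ 5 / 4 := by
    calc ‖g'.1 1 1‖ = ‖(g'.1 1 1 - 1) + 1‖ := by congr 1; ring
      _ ≤ ‖g'.1 1 1 - 1‖ + ‖(1 : k)‖ := norm_add_le _ _
      _ ≤ 5 / 4 := by rw [norm_one]; linarith
  have hkey : g.1 0 0 * (g'.1 1 1 - g.1 1 1) = g'.1 0 1 * (g'.1 1 0 - g.1 1 0) +
      (g'.1 0 1 - g.1 0 1) * g.1 1 0 - (g'.1 0 0 - g.1 0 0) * g'.1 1 1 := by
    linear_combination hdet' - hdet
  have hn : ‖g.1 0 0‖ * ‖g'.1 1 1 - g.1 1 1‖ ≤ 7 / 4 * η := by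
    rw [← norm_mul, hkey]
    calc ‖g'.1 0 1 * (g'.1 1 0 - g.1 1 0) + (g'.1 0 1 - g.1 0 1) * g.1 1 0 -
          (g'.1 0 0 - g.1 0 0) * g'.1 1 1‖
        ≤ ‖g'.1 0 1 * (g'.1 1 0 - g.1 1 0) + (g'.1 0 1 - g.1 0 1) * g.1 1 0‖ +
          ‖(g'.1 0 0 - g.1 0 0) * g'.1 1 1‖ := norm_sub_le _ _
      _ ≤ ‖g'.1 0 1 * (g'.1 1 0 - g.1 1 0)‖ + ‖(g'.1 0 1 - g.1 0 1) * g.1 1 0‖ +
          ‖(g'.1 0 0 - g.1 0 0) * g'.1 1 1‖ := by gcongr; exact norm_add_le _ _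
      _ = ‖g'.1 0 1‖ * ‖g'.1 1 0 - g.1 1 0‖ + ‖g'.1 0 1 - g.1 0 1‖ * ‖g.1 1 0‖ +
          ‖g'.1 0 0 - g.1 0 0‖ * ‖g'.1 1 1‖ := by rw [norm_mul, norm_mul, norm_mul]
      _ ≤ 1 / 4 * η + η * (1 / 4) + η * (5 / 4) := by gcongr
      _ = 7 / 4 * η := by ring
  have hd : ‖g'.1 1 1 - g.1 1 1‖ ≤ 3 * η := by
    have h3 : 3 / 4 * ‖g'.1 1 1 - g.1 1 1‖ ≤ ‖g.1 0 0‖ * ‖g'.1 1 1 - g.1 1 1‖ :=
      mul_le_mul_of_nonneg_right ha (norm_nonneg _)
    linarith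
  have hm : mnm (g'.1 - g.1) ≤ 3 * η := by
    rw [mnm_le]
    intro i j
    have h4 : η ≤ 3 * η := by linarith
    fin_cases i <;> fin_cases j
    · exact h0.trans h4
    · exact h1.trans h4
    · exact h2.trans h4
    · exact hd
  have hinv : (g⁻¹ : SL2 k).1 * g.1 = 1 := by
    have h5 : g⁻¹ * g = 1 := inv_mul_cancel g
    have h6 := congrArg Subtype.val h5
    exact h6
  have heq : ((g⁻¹ * g' : SL2 k).1 : Matrix (Fin 2) (Fin 2) k) - 1 =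
      (g⁻¹ : SL2 k).1 * (g'.1 - g.1) := by
    rw [mul_sub, hinv]
    rfl
  have hnm : nm g⁻¹ ≤ 5 / 4 := by
    rw [nm_inv]
    have := VLB_nm g
    linarith
  calc dnm (g⁻¹ * g') = mnm ((g⁻¹ : SL2 k).1 * (g'.1 - g.1)) := by
        rw [← heq]
        rfl
    _ ≤ 2 * (mnm (g⁻¹ : SL2 k).1 * mnm (g'.1 - g.1)) := mnm_mul_le2 _ _
    _ ≤ 2 * (5 / 4 * (3 * η)) := by
        have h7 : mnm (g⁻¹ : SL2 k).1 ≤ 5 / 4 := hnm
        have h8 := mnm_nonneg (g'.1 - g.1)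
        gcongr
    _ ≤ 8 * η := by linarith

theorem p_VLB (hTG2 : Stmt_TG2) (hTP2 : Stmt_TP2) : Stmt_VLB := by
  intro ι _ _ k _ _ L W v hWv μB hH r hr hr4
  classical
  obtain ⟨_, _, _, hBorel, hcpt, -, hnh⟩ := hTG2 {i : ι // i ≠ W} (fun i => k i.1)
  have hvW : v ≠ W := fun h => hWv h.symm
  set j : {i : ι // i ≠ W} := ⟨v, hvW⟩ with hj
  set P : Set (BB k W) := {b | ∀ i, dnm (b i) ≤ r} with hP
  have hPn : P ∈ nhds (1 : BB k W) := hnh r hr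
  have hPpos : 0 < μB P := Measure.measure_pos_of_mem_nhds μB hPn
  have hPc : P ⊆ {g : BB k W | ∀ i, nm (g i) ≤ 2} := by
    intro b hb i
    have h1 := VLB_nm (b i)
    have h2 : dnm (b i) ≤ r := hb i
    linarith
  have hPfin : μB P ≠ ∞ :=
    ne_top_of_le_ne_top (hcpt 2).measure_ne_top (measure_mono hPc)
  set e := (L v).e with he
  set C := (L v).C with hC
  have hC1 : 1 ≤ C := (L v).one_le
  have hMpos : 0 < (μB P).toReal := ENNReal.toReal_pos hPpos.ne' hPfin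
  refine ⟨(μB P).toReal / (C ^ 3 * 32 ^ (3 * e)), by positivity, ?_⟩
  intro δ hδ hδr
  have hUP : UU k W v r δ ⊆ P := by
    intro b hb i
    have h1 : dnm (b i) ≤ if i.1 = v then δ else r := hb i
    refine h1.trans ?_
    split_ifs
    · exact hδr
    · exact le_rfl
  have hUfin : μB (UU k W v r δ) ≠ ∞ := ne_top_of_le_ne_top hPfin (measure_mono hUP)
  refine ⟨?_, hUfin⟩
  obtain ⟨N, cl, hN, hcl⟩ := (L v).cov (δ / 32) (by positivity) (by linarith)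
  let cls : BB k W → Fin N × Fin N × Fin N := fun b =>
    (cl ((b j).1 0 0 - 1), cl ((b j).1 0 1), cl ((b j).1 1 0))
  let T : Fin N × Fin N × Fin N → BB k W := fun c =>
    if h : ∃ b ∈ P, cls b = c then Pi.mulSingle j (h.choose j) else 1
  have hcov : P ⊆ ⋃ c, (fun b => (T c)⁻¹ * b) ⁻¹' UU k W v r δ := by
    intro b hb
    have hex : ∃ b' ∈ P, cls b' = cls b := ⟨b, hb, rfl⟩
    refine Set.mem_iUnion.2 ⟨cls b, ?_⟩
    obtain ⟨hb'P, hb'c⟩ := hex.choose_spec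
    set b' := hex.choose with hb'
    have hT : T (cls b) = Pi.mulSingle j (b' j) := by
      simp only [T]
      rw [dif_pos hex]
    show (T (cls b))⁻¹ * b ∈ UU k W v r δ
    rw [hT]
    intro i
    by_cases hi : i = j
    · subst hi
      have h1 : ((Pi.mulSingle j (b' j) : BB k W)⁻¹ * b) j = (b' j)⁻¹ * b j := by
        rw [Pi.mul_apply, Pi.inv_apply, Pi.mulSingle_eq_same]
      have h2 : (if (j : ι) = v then δ else r) = δ := if_pos rfl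
      have hdb : dnm (b j) ≤ 1 / 4 := (hb j).trans hr4
      have hdb' : dnm (b' j) ≤ 1 / 4 := (hb'P j).trans hr4
      have q0 : cl ((b' j).1 0 0 - 1) = cl ((b j).1 0 0 - 1) := congrArg Prod.fst hb'c
      have q1 : cl ((b' j).1 0 1) = cl ((b j).1 0 1) :=
        congrArg (fun p : Fin N × Fin N × Fin N => p.2.1) hb'c
      have q2 : cl ((b' j).1 1 0) = cl ((b j).1 1 0) :=
        congrArg (fun p : Fin N × Fin N × Fin N => p.2.2) hb'c
      have e1 := mnm_le.1 hdb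
      have e2 := mnm_le.1 hdb'
      have s0 : ∀ x : BB k W, dnm (x j) ≤ 1 / 4 → ‖(x j).1 0 0 - 1‖ ≤ 1 ∧ ‖(x j).1 0 1‖ ≤ 1 ∧
          ‖(x j).1 1 0‖ ≤ 1 := by
        intro x hx
        have e3 := mnm_le.1 hx
        have f0 := e3 0 0
        have f1 := e3 0 1
        have f2 := e3 1 0
        simp only [Matrix.sub_apply, Matrix.one_apply_eq] at f0
        simp only [Matrix.sub_apply, Matrix.one_apply_ne (show (0 : Fin 2) ≠ 1 by decide),
          sub_zero] at f1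
        simp only [Matrix.sub_apply, Matrix.one_apply_ne (show (1 : Fin 2) ≠ 0 by decide),
          sub_zero] at f2
        exact ⟨by linarith, by linarith, by linarith⟩
      obtain ⟨t0, t1, t2⟩ := s0 b hdb
      obtain ⟨t0', t1', t2'⟩ := s0 b' hdb'
      have w0 : ‖(b j).1 0 0 - (b' j).1 0 0‖ ≤ δ / 32 := by
        have := hcl _ _ t0 t0' q0.symm
        rwa [sub_sub_sub_cancel_right] at this
      have w1 : ‖(b j).1 0 1 - (b' j).1 0 1‖ ≤ δ / 32 := hcl _ _ t1 t1' q1.symm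
      have w2 : ‖(b j).1 1 0 - (b' j).1 1 0‖ ≤ δ / 32 := hcl _ _ t2 t2' q2.symm
      have h3 := VLB_est (b' j) (b j) (δ / 32) hdb' hdb w0 w1 w2
      rw [h1, h2]
      linarith
    · have h1 : ((Pi.mulSingle j (b' j) : BB k W)⁻¹ * b) i = b i := by
        rw [Pi.mul_apply, Pi.inv_apply, Pi.mulSingle_eq_of_ne hi, inv_one, one_mul]
      have h2 : i.1 ≠ v := fun h => hi (Subtype.ext h)
      rw [h1, if_neg h2]
      exact hb i
  have hsum : μB P ≤ (N : ℝ≥0∞) ^ 3 * μB (UU k W v r δ) := by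
    calc μB P ≤ μB (⋃ c, (fun b => (T c)⁻¹ * b) ⁻¹' UU k W v r δ) := measure_mono hcov
      _ ≤ ∑ c, μB ((fun b => (T c)⁻¹ * b) ⁻¹' UU k W v r δ) := measure_iUnion_fintype_le μB _
      _ = ∑ _c : Fin N × Fin N × Fin N, μB (UU k W v r δ) := by
          apply Finset.sum_congr rfl
          intro c _
          exact measure_preimage_mul μB _ _
      _ = (N : ℝ≥0∞) ^ 3 * μB (UU k W v r δ) := by
          rw [Finset.sum_const, Finset.card_univ, Fintype.card_prod, Fintype.card_prod,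
            Fintype.card_fin, nsmul_eq_mul]
          push_cast
          ring
  have hreal : (μB P).toReal ≤ (N : ℝ) ^ 3 * (μB (UU k W v r δ)).toReal := by
    have h1 := ENNReal.toReal_mono
      (ENNReal.mul_ne_top (ENNReal.pow_ne_top (ENNReal.natCast_ne_top N)) hUfin) hsum
    rw [ENNReal.toReal_mul, ENNReal.toReal_pow, ENNReal.toReal_natCast] at h1
    exact h1
  have hNC : (N : ℝ) * δ ^ e ≤ C * 32 ^ e := by
    have h1 : (N : ℝ) * (δ / 32) ^ e ≤ C := hN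
    rw [div_pow] at h1
    have h2 : (N : ℝ) * (δ ^ e / 32 ^ e) = (N : ℝ) * δ ^ e / 32 ^ e := by ring
    rw [h2, div_le_iff₀ (by positivity)] at h1
    exact h1
  have hN3 : (N : ℝ) ^ 3 * δ ^ (3 * e) ≤ C ^ 3 * 32 ^ (3 * e) := by
    have h1 : ((N : ℝ) * δ ^ e) ^ 3 ≤ (C * 32 ^ e) ^ 3 :=
      pow_le_pow_left₀ (by positivity) hNC 3
    have h2 : ((N : ℝ) * δ ^ e) ^ 3 = (N : ℝ) ^ 3 * δ ^ (3 * e) := by
      rw [mul_pow, ← pow_mul, mul_comm e 3]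
    have h3 : (C * 32 ^ e) ^ 3 = C ^ 3 * 32 ^ (3 * e) := by
      rw [mul_pow, ← pow_mul, mul_comm e 3]
    rwa [h2, h3] at h1
  apply ENNReal.ofReal_le_of_le_toReal
  have hu0 : 0 ≤ (μB (UU k W v r δ)).toReal := ENNReal.toReal_nonneg
  rw [div_mul_eq_mul_div, div_le_iff₀ (by positivity)]
  calc (μB P).toReal * δ ^ (3 * e) ≤
      (N : ℝ) ^ 3 * (μB (UU k W v r δ)).toReal * δ ^ (3 * e) := by gcongr
    _ = (μB (UU k W v r δ)).toReal * ((N : ℝ) ^ 3 * δ ^ (3 * e)) := by ring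
    _ ≤ (μB (UU k W v r δ)).toReal * (C ^ 3 * 32 ^ (3 * e)) := by gcongr

end Pool.PQ
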