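import Pool.Agent.Work.MP_972ac7_Q.Interface2
import Pool.Agent.Work.MP_972ac7_P.B_VPW

set_option autoImplicit false

open MeasureTheory NumberField IsDedekindDomain
open scoped Quaternion ENNReal

noncomputable section

namespace Pool.PQ

open Pool.PL Pool.TFD Pool.TC

theorem p_VPG : Stmt_VPG := by
  intro F _ _ W
  obtain ⟨h, p, hh, hp0, hp⟩ := VPW_gen W
  refine ⟨h, p, hh, hp0, ?_, ?_, ?_⟩
  · unfold av
    rw [HeightOneSpectrum.adicAbv_def]
    have e1 : W.valuation F (p : F) = WithZero.exp (-(h : ℤ)) := by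
      rw [← VPW_val W h p hp]
      exact HeightOneSpectrum.valuation_of_algebraMap W p
    rw [e1]
    have e2 : (WithZero.exp (-(h : ℤ)) : WithZero (Multiplicative ℤ)) ≠ 0 := WithZero.exp_ne_zero
    rw [WithZeroMulInt.toNNReal_neg_apply _ e2]
    have e3 : (WithZero.unzero e2).toAdd = -(h : ℤ) := by
      rfl
    rw [e3]
    push_cast
    rw [zpow_neg, zpow_natCast]
  · intro w hw
    rw [av_int_eq_one_iff]
    intro hpw
    have h1 : W.asIdeal ^ h ≤ w.asIdeal := by
      rw [← hp, Ideal.span_singleton_le_iff_mem]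
      exact hpw
    have h2 : W.asIdeal ≤ w.asIdeal := w.isPrime.le_of_pow_le h1
    have h3 : W.asIdeal = w.asIdeal := W.isMaximal.eq_of_le w.isPrime.ne_top h2
    exact hw (HeightOneSpectrum.ext h3.symm)
  · unfold N2
    rw [InfinitePlace.prod_eq_abs_norm]
    have e1 : Ideal.absNorm (Ideal.span {p}) = (Algebra.norm ℤ p).natAbs :=
      Ideal.absNorm_span_singleton p
    rw [hp, map_pow] at e1
    have e2 : Algebra.norm ℚ (p : F) = ((Algebra.norm ℤ p : ℤ) : ℚ) :=
      (Algebra.coe_norm_int p).symm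
    rw [e2]
    have e3 : ((|((Algebra.norm ℤ p : ℤ) : ℚ)| : ℚ) : ℝ) =
        (((Algebra.norm ℤ p).natAbs : ℕ) : ℝ) := by
      push_cast
      rw [Nat.cast_natAbs]
      push_cast
      rfl
    rw [e3, ← e1]
    push_cast
    rfl

end Pool.PQ
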