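import Pool.Agent.Work.MP_972ac7_Q.Interface1

set_option autoImplicit false

/-! # Block WIP: properties of weak integrals (typed by helper88) -/

open MeasureTheory
open scoped ENNReal

noncomputable section

namespace Pool.PQ

open Pool.PL Pool.TFD Pool.TC

section

variable {G : Type} [Group G] [TopologicalSpace G] [IsTopologicalGroup G]
  [SecondCountableTopology G] [MeasurableSpace G] [BorelSpace G]
  {H : Type} [NormedAddCommGroup H] [InnerProductSpace ℂ H] [CompleteSpace H]

theorem WIP_meas (π : G →* (H ≃ₗᵢ[ℂ] H)) (hπ : ∀ f, Continuous fun g => π g f) (ν : Measure G)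
    (f f' : H) : AEStronglyMeasurable (fun g => (inner ℂ f' (π g f) : ℂ)) ν := by
  have h : Continuous fun g => (inner ℂ f' (π g f) : ℂ) := continuous_const.inner (hπ f)
  exact h.aestronglyMeasurable

theorem WIP_bd (π : G →* (H ≃ₗᵢ[ℂ] H)) (f f' : H) (g : G) :
    ‖(inner ℂ f' (π g f) : ℂ)‖ ≤ ‖f'‖ * ‖f‖ := by
  have := norm_inner_le_norm (𝕜 := ℂ) f' (π g f)
  rwa [LinearIsometryEquiv.norm_map] at this

theorem WIP_int (π : G →* (H ≃ₗᵢ[ℂ] H)) (hπ : ∀ f, Continuous fun g => π g f) (ν : Measure G)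
    [IsFiniteMeasure ν] (f f' : H) : Integrable (fun g => (inner ℂ f' (π g f) : ℂ)) ν :=
  Integrable.of_bound (WIP_meas π hπ ν f f') (‖f'‖ * ‖f‖)
    (Filter.Eventually.of_forall fun g => WIP_bd π f f' g)

theorem WIP_le {x y : ℝ} (hx : 0 ≤ x) (hy : 0 ≤ y) (h : x ^ 2 ≤ x * y) : x ≤ y := by
  rcases hx.eq_or_lt with h0 | h0
  · rw [← h0]; exact hy
  · rw [pow_two] at h
    exact le_of_mul_le_mul_left h h0

end

theorem p_WIP : Stmt_WIP := by
  intro G _ _ _ _ _ _ H _ _ _ π hπ ν hν R hR
  refine ⟨?_, ?_, ?_, ?_⟩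
  · refine ContinuousLinearMap.opNorm_le_bound _ zero_le_one fun f => ?_
    rw [one_mul]
    apply WIP_le (norm_nonneg _) (norm_nonneg _)
    have h1 : ‖(inner ℂ (R f) (R f) : ℂ)‖ ≤ ‖R f‖ * ‖f‖ := by
      rw [hR f (R f)]
      have := norm_integral_le_of_norm_le_const (μ := ν) (C := ‖R f‖ * ‖f‖)
        (Filter.Eventually.of_forall fun g => WIP_bd π f (R f) g)
      simpa using this
    rw [inner_self_eq_norm_sq_to_K, norm_pow] at h1
    simpa using h1
  · intro S hS
    ext f
    apply ext_inner_left ℂ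
    intro f'
    change (inner ℂ f' (S (R f)) : ℂ) = inner ℂ f' (R (S f))
    rw [← ContinuousLinearMap.adjoint_inner_left, hR, hR]
    apply integral_congr_ae
    filter_upwards [hS] with g hg
    rw [ContinuousLinearMap.adjoint_inner_left, hg]
  · intro f ε hε
    obtain ⟨g₀, hg₀⟩ := hε.exists
    have hε0 : 0 ≤ ε := (norm_nonneg _).trans hg₀
    apply WIP_le (norm_nonneg _) hε0
    have e0 : ∀ h : H, (inner ℂ h (R f - f) : ℂ) = ∫ g, inner ℂ h (π g f - f) ∂ν := by
      intro h
      have e2 : ∀ g, (inner ℂ h (π g f - f) : ℂ) = inner ℂ h (π g f) - inner ℂ h f :=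
        fun g => inner_sub_right _ _ _
      simp_rw [e2]
      rw [integral_sub (WIP_int π hπ ν f h) (integrable_const _), ← hR f h, inner_sub_right]
      congr 1
      rw [integral_const]
      simp
    have e1 := e0 (R f - f)
    have h1 : ‖(inner ℂ (R f - f) (R f - f) : ℂ)‖ ≤ ‖R f - f‖ * ε := by
      rw [e1]
      have := norm_integral_le_of_norm_le_const (μ := ν) (C := ‖R f - f‖ * ε)
        (f := fun g => (inner ℂ (R f - f) (π g f - f) : ℂ)) (by
          filter_upwards [hε] with g hg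
          exact (norm_inner_le_norm _ _).trans (mul_le_mul_of_nonneg_left hg (norm_nonneg _)))
      simpa using this
    rw [inner_self_eq_norm_sq_to_K, norm_pow] at h1
    simpa using h1
  · intro hinv
    rw [ContinuousLinearMap.isSelfAdjoint_iff_isSymmetric]
    intro f' f
    change (inner ℂ (R f') f : ℂ) = inner ℂ f' (R f)
    rw [hR f f', ← inner_conj_symm, hR f' f, ← integral_conj]
    have e1 : ∫ g, (inner ℂ f' (π g f) : ℂ) ∂ν = ∫ g, (inner ℂ f' (π g⁻¹ f) : ℂ) ∂ν := by
      conv_lhs => rw [← hinv]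
      rw [integral_map measurable_inv.aemeasurable (WIP_meas π hπ _ f f')]
    rw [e1]
    apply integral_congr_ae
    apply Filter.Eventually.of_forall
    intro g
    beta_reduce
    rw [inner_conj_symm]
    have e2 : (inner ℂ (π g f') (π g (π g⁻¹ f)) : ℂ) = inner ℂ f' (π g⁻¹ f) :=
      LinearIsometryEquiv.inner_map_map _ _ _
    rw [← e2]
    have e3 : π g (π g⁻¹ f) = f := by
      have : π g (π g⁻¹ f) = (π g * π g⁻¹) f := rfl
      rw [this, ← map_mul, mul_inv_cancel, map_one]
      rfl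
    rw [e3]

end Pool.PQ
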