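import Pool.Agent.Work.MP_972ac7_Q.Interface1

set_option autoImplicit false

/-! # Block WIX: existence of weak integrals -/

open MeasureTheory
open scoped ENNReal

noncomputable section

namespace Pool.PQ

open Pool.PL Pool.TFD Pool.TC

section

variable {G : Type} [Group G] [TopologicalSpace G] [IsTopologicalGroup G]
    [SecondCountableTopology G] [MeasurableSpace G] [BorelSpace G]
    {H : Type} [NormedAddCommGroup H] [InnerProductSpace ℂ H] [CompleteSpace H]

omit [IsTopologicalGroup G] [CompleteSpace H] in
theorem WIX_int (π : G →* (H ≃ₗᵢ[ℂ] H)) (hπ : ∀ f, Continuous fun g => π g f)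
    (ν : Measure G) [IsProbabilityMeasure ν] (f : H) : Integrable (fun g => π g f) ν := by
  refine Integrable.of_bound (hπ f).aestronglyMeasurable ‖f‖ ?_
  exact Filter.Eventually.of_forall fun g => by rw [LinearIsometryEquiv.norm_map]

/-- the operator -/
def WIX_R (π : G →* (H ≃ₗᵢ[ℂ] H)) (hπ : ∀ f, Continuous fun g => π g f)
    (ν : Measure G) [IsProbabilityMeasure ν] : H →L[ℂ] H :=
  LinearMap.mkContinuous
    { toFun := fun f => ∫ g, π g f ∂ν
      map_add' := by
        intro f f'
        rw [← integral_add (WIX_int π hπ ν f) (WIX_int π hπ ν f')]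
        exact integral_congr_ae (Filter.Eventually.of_forall fun g => map_add (π g) f f')
      map_smul' := by
        intro c f
        rw [RingHom.id_apply, ← integral_smul]
        exact integral_congr_ae (Filter.Eventually.of_forall fun g => map_smul (π g) c f) }
    1 (by
      intro f
      rw [one_mul]
      have h := norm_integral_le_of_norm_le_const (μ := ν) (f := fun g => π g f) (C := ‖f‖)
        (Filter.Eventually.of_forall fun g => by rw [LinearIsometryEquiv.norm_map])
      simpa using h)

end

theorem p_WIX : Stmt_WIX := by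
  intro G _ _ _ _ _ _ H _ _ _ π hπ ν hν
  refine ⟨WIX_R π hπ ν, ?_⟩
  intro f f'
  change (inner ℂ f' (∫ g, π g f ∂ν) : ℂ) = ∫ g, (inner ℂ f' (π g f) : ℂ) ∂ν
  exact (integral_inner (WIX_int π hπ ν f) f').symm

end Pool.PQ
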