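import Pool.Agent.Work.MP_972ac7_Q.B_ARC
import Pool.Agent.Work.MP_972ac7_Q.B_BSA
import Pool.Agent.Work.MP_972ac7_Q.B_BSB
import Pool.Agent.Work.MP_972ac7_Q.B_BXG
import Pool.Agent.Work.MP_972ac7_Q.B_CEG
import Pool.Agent.Work.MP_972ac7_Q.B_CFC
import Pool.Agent.Work.MP_972ac7_Q.B_CKG
import Pool.Agent.Work.MP_972ac7_Q.B_CLG
import Pool.Agent.Work.MP_972ac7_Q.B_CLX
import Pool.Agent.Work.MP_972ac7_Q.B_CNG
import Pool.Agent.Work.MP_972ac7_Q.B_COG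
import Pool.Agent.Work.MP_972ac7_Q.B_CSG
import Pool.Agent.Work.MP_972ac7_Q.B_CST
import Pool.Agent.Work.MP_972ac7_Q.B_CTG
import Pool.Agent.Work.MP_972ac7_Q.B_CTQ
import Pool.Agent.Work.MP_972ac7_Q.B_CVG
import Pool.Agent.Work.MP_972ac7_Q.B_DEC
import Pool.Agent.Work.MP_972ac7_Q.B_DMC
import Pool.Agent.Work.MP_972ac7_Q.B_DNQ
import Pool.Agent.Work.MP_972ac7_Q.B_DOX
import Pool.Agent.Work.MP_972ac7_Q.B_DS2
import Pool.Agent.Work.MP_972ac7_Q.B_ENQ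
import Pool.Agent.Work.MP_972ac7_Q.B_ERQ
import Pool.Agent.Work.MP_972ac7_Q.B_EST
import Pool.Agent.Work.MP_972ac7_Q.B_FBG
import Pool.Agent.Work.MP_972ac7_Q.B_FNQ
import Pool.Agent.Work.MP_972ac7_Q.B_GN2
import Pool.Agent.Work.MP_972ac7_Q.B_GPQ
import Pool.Agent.Work.MP_972ac7_Q.B_GRM
import Pool.Agent.Work.MP_972ac7_Q.B_GRP
import Pool.Agent.Work.MP_972ac7_Q.B_HKA
import Pool.Agent.Work.MP_972ac7_Q.B_HKB
import Pool.Agent.Work.MP_972ac7_Q.B_HKX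
import Pool.Agent.Work.MP_972ac7_Q.B_INQ
import Pool.Agent.Work.MP_972ac7_Q.B_ISQ
import Pool.Agent.Work.MP_972ac7_Q.B_IWG
import Pool.Agent.Work.MP_972ac7_Q.B_KCG
import Pool.Agent.Work.MP_972ac7_Q.B_KPX
import Pool.Agent.Work.MP_972ac7_Q.B_KRN
import Pool.Agent.Work.MP_972ac7_Q.B_LBG
import Pool.Agent.Work.MP_972ac7_Q.B_LFG
import Pool.Agent.Work.MP_972ac7_Q.B_LPG
import Pool.Agent.Work.MP_972ac7_Q.B_LPV
import Pool.Agent.Work.MP_972ac7_Q.B_NBG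
import Pool.Agent.Work.MP_972ac7_Q.B_NMC
import Pool.Agent.Work.MP_972ac7_Q.B_NSG
import Pool.Agent.Work.MP_972ac7_Q.B_PFG
import Pool.Agent.Work.MP_972ac7_Q.B_PGG
import Pool.Agent.Work.MP_972ac7_Q.B_PPG
import Pool.Agent.Work.MP_972ac7_Q.B_PPI
import Pool.Agent.Work.MP_972ac7_Q.B_PWR
import Pool.Agent.Work.MP_972ac7_Q.B_QMS
import Pool.Agent.Work.MP_972ac7_Q.B_RLG
import Pool.Agent.Work.MP_972ac7_Q.B_SLG
import Pool.Agent.Work.MP_972ac7_Q.B_SMQ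
import Pool.Agent.Work.MP_972ac7_Q.B_SQR
import Pool.Agent.Work.MP_972ac7_Q.B_TAU
import Pool.Agent.Work.MP_972ac7_Q.B_TG2
import Pool.Agent.Work.MP_972ac7_Q.B_TP2
import Pool.Agent.Work.MP_972ac7_Q.B_TRV
import Pool.Agent.Work.MP_972ac7_Q.B_UN2
import Pool.Agent.Work.MP_972ac7_Q.B_VLB
import Pool.Agent.Work.MP_972ac7_Q.B_VPG
import Pool.Agent.Work.MP_972ac7_Q.B_WIP
import Pool.Agent.Work.MP_972ac7_Q.B_WIX
import Pool.Agent.Work.MP_972ac7_Q.B_WPK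
import Pool.Agent.Work.MP_972ac7_C.Gap

set_option autoImplicit false

/-! # THEOREM PP (MP_972ac7_al): the assembly -/

open MeasureTheory NumberField IsDedekindDomain
open scoped Quaternion ENNReal

noncomputable section

namespace Pool.PQ

open Pool.PL Pool.TFD Pool.TC

theorem t_ARC : Stmt_ARC := p_ARC
theorem t_BSA : Stmt_BSA := p_BSA
theorem t_BSB : Stmt_BSB := p_BSB t_BSA
theorem t_PFG : Stmt_PFG := p_PFG
theorem t_BXG : Stmt_BXG := p_BXG t_PFG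
theorem t_CEG : Stmt_CEG := p_CEG t_ARC
theorem t_CFC : Stmt_CFC := p_CFC
theorem t_NBG : Stmt_NBG := p_NBG
theorem t_PGG : Stmt_PGG := p_PGG
theorem t_IWG : Stmt_IWG := p_IWG
theorem t_LPG : Stmt_LPG := p_LPG
theorem t_CLG : Stmt_CLG := p_CLG t_PFG t_NBG t_PGG t_IWG t_LPG
theorem t_FBG : Stmt_FBG := p_FBG t_PFG
theorem t_CKG : Stmt_CKG := p_CKG t_PFG t_CLG t_FBG
theorem t_CLX : Stmt_CLX := p_CLX
theorem t_COG : Stmt_COG := p_COG t_PFG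
theorem t_CNG : Stmt_CNG := p_CNG t_PFG t_BXG t_COG
theorem t_CVG : Stmt_CVG := p_CVG
theorem t_LBG : Stmt_LBG := p_LBG t_NBG t_CVG
theorem t_VPG : Stmt_VPG := p_VPG
theorem t_PPG : Stmt_PPG := p_PPG t_VPG
theorem t_CSG : Stmt_CSG := p_CSG t_PFG t_LBG t_PPG
theorem t_CST : Stmt_CST := p_CST
theorem t_GN2 : Stmt_GN2 := p_GN2
theorem t_CTG : Stmt_CTG := p_CTG t_GN2
theorem t_SLG : Stmt_SLG := p_SLG t_CEG
theorem t_CTQ : Stmt_CTQ := p_CTQ t_SLG t_CNG t_CSG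
theorem t_SQR : Stmt_SQR := p_SQR
theorem t_DEC : Stmt_DEC := p_DEC t_SQR
theorem t_DMC : Stmt_DMC := p_DMC
theorem t_TP2 : Stmt_TP2 := p_TP2
theorem t_TG2 : Stmt_TG2 := p_TG2 t_TP2
theorem t_UN2 : Stmt_UN2 := p_UN2 t_GN2 t_TG2 t_TP2
theorem t_WIX : Stmt_WIX := p_WIX
theorem t_WIP : Stmt_WIP := p_WIP
theorem t_VLB : Stmt_VLB := p_VLB t_TG2 t_TP2
theorem t_DOX : Stmt_DOX := p_DOX
theorem t_KRN : Stmt_KRN := p_KRN t_TG2 t_TP2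
theorem t_PWR : Stmt_PWR := p_PWR t_TG2 t_TP2 t_UN2 t_DOX t_DMC
theorem t_TAU : Stmt_TAU := p_TAU
theorem t_PPI : Stmt_PPI := p_PPI t_UN2 t_TP2
theorem t_SMQ : Stmt_SMQ := p_SMQ
theorem t_EST : Stmt_EST := p_EST t_TG2 t_TP2 t_UN2 t_DOX t_DMC t_BSB t_KRN t_PWR t_TAU t_PPI t_VLB t_SMQ
theorem t_GRM : Stmt_GRM := p_GRM
theorem t_LPV : Stmt_LPV := p_LPV t_TP2
theorem t_GRP : Stmt_GRP := p_GRP
theorem t_WPK : Stmt_WPK := p_WPK t_TP2 t_GN2 t_LPV t_DEC t_GRP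
theorem t_NMC : Stmt_NMC := p_NMC
theorem t_TRV : Stmt_TRV := p_TRV t_TG2 t_TP2 t_UN2 t_WIX t_WIP t_VLB t_EST t_GRM t_WPK t_NMC
theorem t_HKA : Stmt_HKA := p_HKA t_TP2 t_UN2
theorem t_HKB : Stmt_HKB := p_HKB
theorem t_HKX : Stmt_HKX := p_HKX t_TP2 t_UN2 t_HKA t_HKB
theorem t_ERQ : Stmt_ERQ := p_ERQ t_TG2 t_TP2 t_UN2 t_WIX t_WIP t_CFC t_TRV t_HKX
theorem t_DNQ : Stmt_DNQ := p_DNQ t_TG2 t_ERQ t_CST
theorem t_DS2 : Stmt_DS2 := p_DS2 t_TG2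
theorem t_INQ : Stmt_INQ := p_INQ
theorem t_LFG : Stmt_LFG := p_LFG
theorem t_RLG : Stmt_RLG := p_RLG
theorem t_KCG : Stmt_KCG := p_KCG t_LFG t_RLG t_CLX
theorem t_NSG : Stmt_NSG := p_NSG
theorem t_QMS : Stmt_QMS := p_QMS
theorem t_KPX : Stmt_KPX := p_KPX
theorem t_GPQ : Stmt_GPQ := p_GPQ t_TG2 t_TP2 t_UN2 t_WIX t_WIP t_CFC t_CST t_TRV t_HKX t_ERQ
theorem t_FNQ : Stmt_FNQ := p_FNQ t_TG2 t_TP2 t_UN2 t_CTG t_DS2 t_QMS t_KPX t_GPQ t_DNQ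
theorem t_ENQ : Stmt_ENQ := p_ENQ t_PFG t_CTQ t_CKG t_INQ t_KCG t_NSG t_FNQ
theorem t_ISQ : Stmt_ISQ := p_ISQ t_PFG

/-- The gap for the norm one group of the quaternions over `O[1/n]`. -/
theorem gap_HL (F : Type) [Field F] [NumberField F] (a b n : 𝓞 F)
    (hd : ∀ z : ℍ[F, (a : F), (b : F)], nrq z = 0 → z = 0) (hn : n ≠ 0)
    (h2 : ∃ p q : Plc F, p ≠ q ∧ InS n p ∧ InS n q ∧ SplitP a b p ∧ SplitP a b q) :
    FTGap (unitary (HL a b n)) := by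
  obtain ⟨e⟩ := t_ISQ F a b n hn
  exact p_QUF _ _ e.toMonoidHom e.surjective (t_ENQ F a b n hd hn h2)

/-- THEOREM PP. -/
theorem theoremPP (F : Type) [Field F] [NumberField F] (a b n : 𝓞 F)
    (hd : ∀ x y z t : F, x ^ 2 - (a : F) * y ^ 2 - (b : F) * z ^ 2 + (a : F) * (b : F) * t ^ 2 = 0 →
      x = 0 ∧ y = 0 ∧ z = 0 ∧ t = 0) (hn : n ≠ 0)
    (h2 : ∃ p q : Plc F, p ≠ q ∧ InS n p ∧ InS n q ∧ SplitP a b p ∧ SplitP a b q)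
    (B : Subgroup (unitary (HL a b n))) (hB : B.FiniteIndex)
    (Γ : Type) [Group Γ] (f : B →* Γ) (hf : f.range.FiniteIndex) :
    TracialGap Γ ∧ PropTau Γ := by
  have hd' : ∀ z : ℍ[F, (a : F), (b : F)], nrq z = 0 → z = 0 := by
    intro z hz
    obtain ⟨h0, h1, h2, h3⟩ := hd z.re z.imI z.imJ z.imK hz
    ext
    · exact h0
    · exact h1
    · exact h2
    · exact h3
  have h := allC_comm _ Γ B hB f hf (gap_HL F a b n hd' hn h2)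
  exact ⟨tracialGap_of_FTGap Γ h, Pool.TFD.p_TAU Γ (p_FTF Γ h)⟩

end Pool.PQ
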