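import Pool.Agent.Work.MP_972ac7_Q.Defs2
import Pool.Agent.Work.MP_972ac7_Q.Interface1

set_option autoImplicit false

/-! # THEOREM PP (MP_972ac7_al), part II: block statements (number fields and quaternions)

Files `B_X.lean` in `Pool/Agent/Work/MP_972ac7_Q`, `import Pool.Agent.Work.MP_972ac7_Q.Interface2`,
namespace `Pool.PQ`, `open Pool.PL Pool.TFD Pool.TC`, `theorem p_X (hA : Stmt_A) ... : Stmt_X` with exactly the blocks of the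
column `uses` as hypotheses in that order.  Auxiliary lemmas with the prefix `X_`.  Definitions in `Defs.lean`, `Defs2.lean` of Q
(`Plc nv N2 fac bd vol PosAt Cell CE Cx Cx.mt Cx.Th Cx.Γ SplitP InS dq co KC`, lemmas `N2_mul N2_pow N2_pos nv_mul nv_add_le`)
and in `Defs2.lean` of P (`av nrq mq th CB GU SplitAt HL`).  The finished files of P can be imported and used:
`Pool.PL.p_DEN p_ICL p_LCL p_ANG p_ANI p_ADC p_RES` (files `Pool/Agent/Work/MP_972ac7_P/B_DEN.lean` ..., they need no hypotheses). -/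

open MeasureTheory NumberField IsDedekindDomain
open scoped Quaternion ENNReal

noncomputable section

namespace Pool.PQ

open Pool.PL Pool.TFD Pool.TC

/-! ### Arithmetic of a number field -/

/-- **PFG** (200).  Product formula (see `B_PFM.lean` of P): `NumberField.FinitePlace.prod_eq_inv_abs_norm_int`,
`InfinitePlace.prod_eq_abs_norm`. -/
def Stmt_PFG : Prop :=
  ∀ (F : Type) [Field F] [NumberField F],
    (∀ z : 𝓞 F, z ≠ 0 → 1 ≤ N2 (z : F) ∧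
      ∀ w : HeightOneSpectrum (𝓞 F), 1 ≤ N2 (z : F) * av w (z : F)) ∧
    (∀ z : 𝓞 F, z ≠ 0 → ∀ S : Finset (HeightOneSpectrum (𝓞 F)),
      (∀ w, w ∉ S → av w (z : F) = 1) → N2 (z : F) * ∏ w ∈ S, av w (z : F) = 1) ∧
    (∀ z : F, (∀ w : HeightOneSpectrum (𝓞 F), av w z ≤ 1) → ∃ z' : 𝓞 F, (z' : F) = z) ∧
    (∀ n : 𝓞 F, n ≠ 0 → {w : HeightOneSpectrum (𝓞 F) | n ∈ w.asIdeal}.Finite)

/-- **VPG** (120).  A generator of a power of `W` (see `B_VPW.lean` of P). -/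
def Stmt_VPG : Prop :=
  ∀ (F : Type) [Field F] [NumberField F] (W : HeightOneSpectrum (𝓞 F)),
    ∃ (h : ℕ) (p : 𝓞 F), 1 ≤ h ∧ p ≠ 0 ∧
      av W (p : F) = (((Ideal.absNorm W.asIdeal : ℕ) : ℝ) ^ h)⁻¹ ∧
      (∀ w, w ≠ W → av w (p : F) = 1) ∧
      N2 (p : F) = ((Ideal.absNorm W.asIdeal : ℕ) : ℝ) ^ h

/-- **BXG** (250), uses PFG.  Integers in a box.  Take an archimedean `w₀`; for different elements `1 ≤ w₀(z - z')^m P`, `P` = the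
product of the other `β w` and of `fac v κ`.  If `β w₀ * P < 1` there is at most one element.  Otherwise the points (in the real line or
plane) have mutual distance at least `s = P^(-1/m)` and lie in a ball of radius `r = (β w₀)^(1/m) ≥ s`: at most
`C (r/s)^m = C vol` (squares of side `s/2`). -/
def Stmt_BXG : Prop :=
  ∀ (F : Type) [Field F] [NumberField F], ∃ C : ℝ, 0 < C ∧
    ∀ (v : Plc F) (Z : Set (𝓞 F)) (β : InfinitePlace F → ℝ) (κ : ℝ), (∀ w, 0 ≤ β w) → 0 ≤ κ →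
    (∀ z ∈ Z, ∀ z' ∈ Z, bd v β κ ((z : F) - (z' : F))) →
    Z.Finite ∧ (Nat.card Z : ℝ) ≤ 1 + C * vol v β κ

/-- **ARC** (300).  Cells of the conic `u v = μ`.  By symmetry `‖u‖ ≥ ‖v‖` (one more bit).  `j₀` minimal with `4^(-j₀) ≤ K^(-3)`.  One class for
`‖u‖ ≤ 2^(-j₀) R`: there the determinant is at most `8 * 4^(-j₀) R²`.  For `j < j₀` and `2^(-j-1) R < ‖u‖ ≤ 2^(-j) R` the classes are squares
of side `2^(-j) R η`, `η = 4^(j/3)/K ≤ 1`: at most `9 K² 4^(-2j/3)` (geometric sum).  The determinant is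
`μ (u'-u)(u''-u)(u''-u') / (u u' u'')` and `‖μ‖ ≤ ‖u‖² ≤ 4^(-j) R²`: at most `4^(-j) R² (√2 η)³ 8 ≤ 23 R² K^(-3)`. -/
def Stmt_ARC : Prop :=
  ∃ C : ℝ, 0 < C ∧ ∀ (μ : ℂ) (R K : ℝ), 0 < R → 1 ≤ K → ∃ (N : ℕ) (cl : ℂ × ℂ → Fin N),
    (N : ℝ) ≤ C * K ^ 2 ∧ ∀ p p' p'' : ℂ × ℂ, p.1 * p.2 = μ → p'.1 * p'.2 = μ →
    p''.1 * p''.2 = μ → ‖p.1‖ ≤ R → ‖p.2‖ ≤ R → ‖p'.1‖ ≤ R → ‖p'.2‖ ≤ R → ‖p''.1‖ ≤ R →
    ‖p''.2‖ ≤ R → cl p = cl p' → cl p = cl p'' →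
    ‖(p'.1 - p.1) * (p''.2 - p.2) - (p''.1 - p.1) * (p'.2 - p.2)‖ * K ^ 3 ≤ C * R ^ 2

/-- **CEG** (300), uses ARC.  Real place (`mult = 1`, `σ = embedding_of_isReal`): `Pool.PL.p_ANG` (file `B_ANG.lean` of P) for
`σ c₁, σ c₂` or `-σ c₁, -σ c₂`, `K` there `⌈K⌉`, `μ ≤ (|c₁| + |c₂|) β²` on the box.  Complex place (`mult = 2`): `γ₁² = σ c₁`, `γ₂² = σ c₂`,
`u = γ₁ x + i γ₂ y`, `v = γ₁ x - i γ₂ y`, ARC with `R = (‖γ₁‖ + ‖γ₂‖) √β`, `√K`; the determinants differ by the factor `-2 i γ₁ γ₂`; square. -/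
def Stmt_CEG : Prop :=
  ∀ (F : Type) [Field F] [NumberField F] (w : InfinitePlace F) (c₁ c₂ : F), c₁ ≠ 0 → c₂ ≠ 0 →
    PosAt w (c₁ * c₂) → Cell w c₁ c₂

/-- **COG** (300), uses PFG.  Points on a conic.  Three different points of `Z` are not collinear over `F` (restricted to the line
`p + t (p' - p)` the equation is of degree 2 with leading coefficient `c₁ x² + c₂ y² ≠ 0` and roots `0, 1`), so the determinant `Δ` is a
nonzero integer, `1 ≤ N2 Δ * (av at v)`; `w Δ ^ m ≤ 64 β w ^ 2` for `w ≠ w₀`, `av Δ ≤ κ²`, and for three points in one cell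
`w₀ Δ ^ m K³ ≤ C (β w₀)²`: `K³ ≤ C' vol²`.  `K = 1 + (C' vol²)^(1/3)`: at most 2 points in each cell. -/
def Stmt_COG : Prop :=
  ∀ (F : Type) [Field F] [NumberField F] (w₀ : InfinitePlace F) (c₁ c₂ : 𝓞 F),
    Cell w₀ (c₁ : F) (c₂ : F) →
    (∀ x y : F, (c₁ : F) * x ^ 2 + (c₂ : F) * y ^ 2 = 0 → x = 0 ∧ y = 0) →
    ∃ C : ℝ, 0 < C ∧ ∀ (v : Plc F) (μ : F) (β : InfinitePlace F → ℝ) (κ : ℝ), (∀ w, 0 < β w) →
      0 < κ → ∀ Z : Set (𝓞 F × 𝓞 F),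
      (∀ p ∈ Z, (c₁ : F) * (p.1 : F) ^ 2 + (c₂ : F) * (p.2 : F) ^ 2 = μ ∧
        (∀ w : InfinitePlace F, w (p.1 : F) ^ w.mult ≤ β w ∧ w (p.2 : F) ^ w.mult ≤ β w)) →
      (∀ p ∈ Z, ∀ p' ∈ Z, ∀ w : HeightOneSpectrum (𝓞 F), v = .inl w →
        av w ((p.1 : F) - (p'.1 : F)) ≤ κ ∧ av w ((p.2 : F) - (p'.2 : F)) ≤ κ) →
      Z.Finite ∧ (Nat.card Z : ℝ) ≤ C * (1 + (vol v β κ) ^ (2 / 3 : ℝ))

/-- **CNG** (350), uses PFG BXG COG.  The count.  If `vol v β₁ κ₁ < 1` then `y 1 = y 2 = y 3 = 0` (PFG), `y 0 = ± s`.  Otherwise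
`Y/Q ≥ 1/C₀`.  `y 0`: differences in the box `4 β₂, κ₂` (BXG): at most `1 + C Y/Q²`; `y 3`: at most `1 + C Y/Q`; for given `y 0, y 3`: COG for
`(y 1, y 2)`, `μ = s² - y₀² - c₃ y₃²`: at most `C (1 + (Y/Q)^(2/3))`. -/
def Stmt_CNG : Prop :=
  ∀ (F : Type) [Field F] [NumberField F] (w₀ : InfinitePlace F) (c₁ c₂ c₃ : 𝓞 F),
    Cell w₀ (c₁ : F) (c₂ : F) →
    (∀ x y : F, (c₁ : F) * x ^ 2 + (c₂ : F) * y ^ 2 = 0 → x = 0 ∧ y = 0) →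
    ∀ C₀ : ℝ, 1 ≤ C₀ → ∃ C : ℝ, 0 < C ∧
    ∀ (v : Plc F) (β₁ β₂ : InfinitePlace F → ℝ) (κ₁ κ₂ : ℝ) (s : 𝓞 F) (Q Y : ℝ),
      (∀ w, 0 < β₁ w) → (∀ w, 0 < β₂ w) → 0 < κ₁ → 0 < κ₂ → 1 ≤ Q → 1 ≤ Y →
      vol v β₁ κ₁ * Q ≤ C₀ * Y → vol v β₂ κ₂ * Q ^ 2 ≤ C₀ * Y →
      ∀ Z : Set (Fin 4 → 𝓞 F),
      (∀ y ∈ Z, y 0 ^ 2 + c₁ * y 1 ^ 2 + c₂ * y 2 ^ 2 + c₃ * y 3 ^ 2 = s ^ 2 ∧
        bd v β₂ κ₂ (((y 0 : 𝓞 F) : F) - (s : F)) ∧ ∀ i, i ≠ 0 → bd v β₁ κ₁ ((y i : 𝓞 F) : F)) →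
      Z.Finite ∧ (Nat.card Z : ℝ) ≤ C * (1 + (Y / Q) ^ (5 / 3 : ℝ) * (1 + Y / Q ^ 2))

/-- **SLG** (200), uses CEG.  `a, b ≠ 0`.  Any archimedean `w₀`.  Complex, or real with `a b > 0`: `(1, 2)` (product `a b`); real with `a < 0 < b`: `(2, 3)`
(coefficients `-b, ab`, product `-a b²`); `b < 0 < a`: `(1, 3)` (product `-a² b`).  Anisotropic: put the other coordinates of the
quaternion to 0. -/
def Stmt_SLG : Prop :=
  ∀ (F : Type) [Field F] [NumberField F] (a b : 𝓞 F),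
    (∀ z : ℍ[F, (a : F), (b : F)], nrq z = 0 → z = 0) →
    ∃ (w₀ : InfinitePlace F) (σ : Equiv.Perm (Fin 4)), σ 0 = 0 ∧
      Cell w₀ (dq a b (σ 1) : F) (dq a b (σ 2) : F) ∧
      ∀ x y : F, (dq a b (σ 1) : F) * x ^ 2 + (dq a b (σ 2) : F) * y ^ 2 = 0 → x = 0 ∧ y = 0

/-- **CVG** (150).  `(y₀ - 1)(y₀ + 1) = -(c₁ y₁² + c₂ y₂² + c₃ y₃²)` has `nv ≤ C/Q²`; `nv 2 ≤ 4 max (nv (y₀ + 1)) (nv (y₀ - 1))`.  If
`C₁/Q < nv 2/4` then `nv (y₀ + 1) ≥ nv 2/4`; otherwise `Q` is bounded. -/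
def Stmt_CVG : Prop :=
  ∀ (F : Type) [Field F] [NumberField F] (v : Plc F) (c₁ c₂ c₃ : F) (C₁ : ℝ), 0 < C₁ →
    ∃ C : ℝ, 0 < C ∧ ∀ (y : Fin 4 → F) (Q : ℝ), 1 ≤ Q →
    y 0 ^ 2 + c₁ * y 1 ^ 2 + c₂ * y 2 ^ 2 + c₃ * y 3 ^ 2 = 1 → nv v (y 0 - 1) * Q ≤ C₁ →
    (∀ i, i ≠ 0 → nv v (y i) * Q ≤ C₁) → nv v (y 0 - 1) * Q ^ 2 ≤ C

/-! ### Quaternions: counting -/

/-- **NBG** (150).  Entries of the matrix and coordinates bound each other (see `B_NBD.lean` of P; `a, b ≠ 0` by `D.dv`, `2 ≠ 0` by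
`LG.two_ne`). -/
def Stmt_NBG : Prop :=
  ∀ (F : Type) [Field F] [NumberField F] (ι : Type) (k : ι → Type) [∀ i, NormedField (k i)]
    (D : Cx F ι k) (i : ι), ∃ C : ℝ, 1 ≤ C ∧
    (∀ (z : ℍ[F, (D.a : F), (D.b : F)]) (c : ℝ), CE (D.e i) z c → mnm (D.mt i z) ≤ C * c) ∧
    ∀ (z : ℍ[F, (D.a : F), (D.b : F)]) (c : ℝ), mnm (D.mt i z) ≤ c → CE (D.e i) z (C * c)

/-- **LBG** (300), uses NBG CVG.  Local bounds of the coordinates `co z`.  `mt u z = g⁻¹ (g z g⁻¹) g`, `mt v (z - 1)` = the same for `- 1`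
(`mnm_mul_le2`), NBG, `D.he`; `nrq z = 1`; CVG for the factor `Q²`; `D.nsi`, `D.nsp`, `mem_GU`. -/
def Stmt_LBG : Prop :=
  ∀ (F : Type) [Field F] [NumberField F] (ι : Type) [Finite ι] (k : ι → Type)
    [∀ i, NormedField (k i)] (D : Cx F ι k) (W v : ι), W ≠ v → ∀ R : ℝ, ∃ C : ℝ, 1 ≤ C ∧
    ∀ g : GG k, (∀ i, nm (g i) ≤ R) → ∀ Q Y : ℝ, 1 ≤ Q → 1 ≤ Y → ∀ z ∈ GU D.a D.b D.n,
      dnm ((g * D.Th z * g⁻¹ : GG k) v) ^ (D.L v).e * Q ≤ 1 →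
      nm ((g * D.Th z * g⁻¹ : GG k) W) ^ (D.L W).e ≤ Y →
      (∀ u, u ≠ v → u ≠ W → nm ((g * D.Th z * g⁻¹ : GG k) u) ≤ R) →
      nv (D.pl v) (z.1.re - 1) * Q ^ 2 ≤ C ∧ (∀ j, j ≠ 0 → nv (D.pl v) (co z.1 j) * Q ≤ C) ∧
      (∀ j, nv (D.pl W) (co z.1 j) ≤ C * Y) ∧
      (∀ u, u ≠ v → u ≠ W → ∀ j, nv (D.pl u) (co z.1 j) ≤ C) ∧
      (∀ w : InfinitePlace F, (∀ i, D.pl i ≠ .inr w) → ∀ j, w (co z.1 j) ^ w.mult ≤ C) ∧
      (∀ w : HeightOneSpectrum (𝓞 F), (∀ i, D.pl i ≠ .inl w) → D.n ∈ w.asIdeal →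
        ∀ j, av w (co z.1 j) ≤ C) ∧
      (∀ w : HeightOneSpectrum (𝓞 F), D.n ∉ w.asIdeal → ∀ j, av w (co z.1 j) ≤ 1)

/-- **PPG** (120), uses VPG.  `D.pl W` finite: `P = p^t`, `t` minimal with `q^(h t) ≥ Y`; `D.pl W` archimedean: `P = 1`. -/
def Stmt_PPG : Prop :=
  ∀ (F : Type) [Field F] [NumberField F] (p : Plc F), ∃ C : ℝ, 1 ≤ C ∧ ∀ Y : ℝ, 1 ≤ Y →
    ∃ P : 𝓞 F, P ≠ 0 ∧ (∀ w, p = .inl w → av w (P : F) * Y ≤ 1 ∧ N2 (P : F) ≤ C * Y) ∧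
      (∀ w : HeightOneSpectrum (𝓞 F), p ≠ .inl w → av w (P : F) = 1) ∧
      ∀ w : InfinitePlace F, p = .inr w → P = 1

/-- **CSG** (350), uses PFG LBG PPG.  Clearing denominators.  `P` of PPG for `D.pl W` and `Y`; `c` of `Pool.PL.p_DEN` (file `B_DEN.lean` of P) for the
finitely many `w` dividing `n` and the constant `C` of LBG.  `c P co z` is integral at all finite places (at `W` finite: `C Y av P ≤ C`), so in
`𝓞 F` (PFG).  `β₁ w = 4 C w(c P)^m * (Y if D.pl W = inr w) * (1/Q if D.pl v = inr w)`, `κ₁ = 4 C/Q`; `β₂, κ₂` with `1/Q²`.  `vol = C' N2(cP) (Y if W is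
archimedean) / Q ≤ C₀ Y/Q`.  (`w (z.re - 1)^m ≤ 4 max ..`, `nv_add_le`.) -/
def Stmt_CSG : Prop :=
  ∀ (F : Type) [Field F] [NumberField F] (ι : Type) [Finite ι] (k : ι → Type)
    [∀ i, NormedField (k i)] (D : Cx F ι k) (W v : ι), W ≠ v → ∀ R : ℝ,
    ∃ (c : 𝓞 F) (C₀ : ℝ), c ≠ 0 ∧ 1 ≤ C₀ ∧ ∀ Q Y : ℝ, 1 ≤ Q → 1 ≤ Y →
    ∃ (P : 𝓞 F) (β₁ β₂ : InfinitePlace F → ℝ) (κ₁ κ₂ : ℝ), P ≠ 0 ∧ (∀ w, 0 < β₁ w) ∧
      (∀ w, 0 < β₂ w) ∧ 0 < κ₁ ∧ 0 < κ₂ ∧ vol (D.pl v) β₁ κ₁ * Q ≤ C₀ * Y ∧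
      vol (D.pl v) β₂ κ₂ * Q ^ 2 ≤ C₀ * Y ∧
      ∀ g : GG k, (∀ i, nm (g i) ≤ R) → ∀ z ∈ GU D.a D.b D.n,
      dnm ((g * D.Th z * g⁻¹ : GG k) v) ^ (D.L v).e * Q ≤ 1 →
      nm ((g * D.Th z * g⁻¹ : GG k) W) ^ (D.L W).e ≤ Y →
      (∀ u, u ≠ v → u ≠ W → nm ((g * D.Th z * g⁻¹ : GG k) u) ≤ R) →
      ∃ y : Fin 4 → 𝓞 F, (∀ j, ((y j : 𝓞 F) : F) = (c : F) * (P : F) * co z.1 j) ∧
        bd (D.pl v) β₂ κ₂ (((y 0 : 𝓞 F) : F) - (c : F) * (P : F)) ∧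
        ∀ j, j ≠ 0 → bd (D.pl v) β₁ κ₁ ((y j : 𝓞 F) : F)

/-- **CTQ** (300), uses SLG CNG CSG.  COUNT for `D.Γ`.  CNG for `y ∘ σ`, `c_j = dq a b (σ j)`, `s = c P` (`nrq z = 1`); `γ = Th z ↦ y` is
injective. -/
def Stmt_CTQ : Prop :=
  ∀ (F : Type) [Field F] [NumberField F] (ι : Type) [Finite ι] (k : ι → Type)
    [∀ i, NormedField (k i)] (D : Cx F ι k) (W v : ι), W ≠ v → ∀ R : ℝ, ∃ C : ℝ, 0 < C ∧
    ∀ g : GG k, (∀ i, nm (g i) ≤ R) → ∀ Q Y : ℝ, 1 ≤ Q → 1 ≤ Y →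
    (cs D.L D.Γ W v R g Q Y).Finite ∧ (Nat.card (cs D.L D.Γ W v R g Q Y) : ℝ) ≤
      C * (1 + (Y / Q) ^ (5 / 3 : ℝ) * (1 + Y / Q ^ 2))

/-! ### Cocompactness -/

/-- **PGG** (350).  Local pigeonhole.  There is `κ` with entries of `κ`, `κ⁻¹` of norm at most 1 and `κ g = (α, x; 0, α⁻¹)` (`low (-c/a)`, after
the Weyl element if `‖c‖ > ‖a‖`).  `β' = β/4`.  For each column `(m₁, m₂)`: cell of `m₂` in the ball `D` of size `‖α‖ β'` (`LG.cov` scaled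
by `λ`, `D ≤ ‖λ‖ ≤ ‖ϑ‖ D`), representative `m₂⁰` of the cell; then the cell of `m₁ + α⁻¹ x (m₂ - m₂⁰)` in the ball `2 D` of size
`β'/‖α‖`.  `ε` such that `‖α‖ β' ≤ D`, `‖x‖ β' ≤ D`, `β' ≤ ‖α‖ D`.  Number for each column:
`C (D/(‖α‖ β'))^e (D ‖α‖/β')^e`. -/
def Stmt_PGG : Prop :=
  ∀ (k : Type) [NormedField k] (L : LG k), ∃ C : ℝ, 0 < C ∧ ∀ g : SL2 k, ∃ ε : ℝ, 0 < ε ∧
    ∀ D β : ℝ, 0 < β → β ≤ ε * D → ∃ (N : ℕ) (cl : Matrix (Fin 2) (Fin 2) k → Fin N),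
      (N : ℝ) * (β ^ L.e) ^ 4 ≤ C * (D ^ L.e) ^ 4 ∧
      ∀ m m' : Matrix (Fin 2) (Fin 2) k, mnm m ≤ D → mnm m' ≤ D → cl m = cl m' →
        mnm ((g : Matrix (Fin 2) (Fin 2) k) * (m - m')) ≤ β

/-- **IWG** (200).  Cells at an archimedean place: `w x = ‖w.embedding x‖`; for a real place the embedding is real; intervals or squares
of side `β/2`. -/
def Stmt_IWG : Prop :=
  ∀ (F : Type) [Field F] [NumberField F] (w : InfinitePlace F), ∃ C : ℝ, 0 < C ∧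
    ∀ D β : ℝ, 0 < β → β ≤ D → ∃ (N : ℕ) (cl : F → Fin N),
      (N : ℝ) * β ^ w.mult ≤ C * D ^ w.mult ∧
      ∀ x y : F, w x ≤ D → w y ≤ D → cl x = cl y → w (x - y) ≤ β

/-- **LPG** (150).  Many integers in a box (see `B_LPT.lean` of P). -/
def Stmt_LPG : Prop :=
  ∀ (F : Type) [Field F] [NumberField F], ∃ c : ℝ, 0 < c ∧ ∀ B : ℝ, 1 ≤ B →
    ∃ Y : Finset (𝓞 F), c * B ^ (Module.finrank ℚ F) ≤ (Y.card : ℝ) ∧
      ∀ y ∈ Y, ∀ w : InfinitePlace F, w (y : F) ≤ B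

/-- **FBG** (150), uses PFG.  `c` of `Pool.PL.p_DEN` for the `w` dividing `n` and `C`: `c δ` is an integer with bounded archimedean
absolute values (`NumberField.Embeddings.finite_of_norm_le`). -/
def Stmt_FBG : Prop :=
  ∀ (F : Type) [Field F] [NumberField F] (n : 𝓞 F) (C : ℝ), n ≠ 0 →
    {δ : F | (∀ w : HeightOneSpectrum (𝓞 F), n ∉ w.asIdeal → av w δ ≤ 1) ∧
      (∀ w : HeightOneSpectrum (𝓞 F), av w δ ≤ C) ∧ ∀ w : InfinitePlace F, w δ ≤ C}.Finite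

/-- **CLG** (400), uses PFG NBG PGG IWG LPG.  A short vector.  `d = finrank`, `s = n^t`, `t` depending on `g`, such that PGG applies at the finite places `i` with
`β = ‖e i s‖`, `D` = the constant of NBG.  Then `B` large (depending on `g, s`) such that PGG applies at the archimedean `i` (`pl i = inr w`) with
`β_i^e = (C₁ w s)^m`, `D_i^e = C (B^m)` (NBG, `D.he`), IWG at the other archimedean `w` with `β = C₁ w s`, `D = B`.  For `y` in `(𝓞 F)^4` with coordinates in the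
set of LPG for `B`: the classes of the matrices at `i`, the classes of the coordinates at the other archimedean `w` and (`Pool.PL.p_ICL`, file
`B_ICL.lean` of P) at the finite `w` dividing `n` not in the range of `pl`.  Number of all classes at most
`C* ∏_w (B/(C₁ w s))^(4m) ∏ (w | n), av w s ^(-4) = C* B^(4d) C₁^(-4d)` (PFG: `N2 s * ∏ av w s = 1`; `∑ mult = d`:
`InfinitePlace.sum_mult_eq`), less than the number `(c B^d)^4` of the `y` if `C₁` is large (depending on `D` only).  `x = (y - y')/s`. -/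
def Stmt_CLG : Prop :=
  ∀ (F : Type) [Field F] [NumberField F] (ι : Type) [Finite ι] (k : ι → Type)
    [∀ i, NormedField (k i)] (D : Cx F ι k), ∃ C : ℝ, 1 ≤ C ∧ ∀ g : GG k,
    ∃ x : ℍ[F, (D.a : F), (D.b : F)], x ≠ 0 ∧
      (∀ w : HeightOneSpectrum (𝓞 F), D.n ∉ w.asIdeal → CB w x 1) ∧
      (∀ w : HeightOneSpectrum (𝓞 F), D.n ∈ w.asIdeal → (∀ i, D.pl i ≠ .inl w) → CB w x 1) ∧
      (∀ i, mnm ((g i : Matrix (Fin 2) (Fin 2) (k i)) * D.mt i x) ≤ C) ∧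
      ∀ w : InfinitePlace F, (∀ i, D.pl i ≠ .inr w) → ∀ j, w (co x j) ≤ C

/-- **CKG** (400), uses PFG CLG FBG.  Cocompactness.  `δ = nrq x ≠ 0` (`D.dv`), `D.e i δ = det (g i * mt i x)`: `δ` is in the finite set of FBG.  Data of `g`: `δ`
and, for the finitely many `w` not dividing `n` with `av w δ' ≠ 1` for some `δ'` of the finite set, the classes (`Pool.PL.p_LCL`, `ε` = the
smallest `av w δ'`) of the coordinates of `x`.  `g₀, x₀` a representative with the same data as `g, x`: `z = x₀ * star x / δ`: `nrq z = 1`,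
`z = 1 + (x₀ - x) star x / δ` is in `GU`, `z x = x₀`, `M₀ = g₀ mt x₀`, `M = g mt x`: `g₀ Th z = κ g`, `κ = M₀ M⁻¹ = M₀ adj M / δ` bounded; so
`g (Th z)⁻¹ = κ⁻¹ g₀` is bounded. -/
def Stmt_CKG : Prop :=
  ∀ (F : Type) [Field F] [NumberField F] (ι : Type) [Finite ι] (k : ι → Type)
    [∀ i, NormedField (k i)] (D : Cx F ι k),
    ∃ R : ℝ, ∀ g : GG k, ∃ γ ∈ D.Γ, ∀ i, nm ((g * γ : GG k) i) ≤ R

/-! ### The completions and the end -/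

/-- **INQ** (120).  `D.Th` is injective (see `B_INJ.lean` of P). -/
def Stmt_INQ : Prop :=
  ∀ (F : Type) [Field F] [NumberField F] (ι : Type) (k : ι → Type) [∀ i, NormedField (k i)]
    (D : Cx F ι k), Nonempty ι → Function.Injective D.Th ∧ Nonempty (D.Γ ≃* GU D.a D.b D.n)

/-- **ISQ** (200), uses PFG.  See `B_ISO.lean` of P (there with a superfluous hypothesis). -/
def Stmt_ISQ : Prop :=
  ∀ (F : Type) [Field F] [NumberField F] (a b n : 𝓞 F), n ≠ 0 →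
    Nonempty (GU a b n ≃* unitary (HL a b n))

/-- **LFG** (300).  Nonarchimedean local fields.  `e = 1`, `ϑ = ϖ⁻¹`.  Points with mutual distance at least 1 in a ball of radius `q^j` (scale to the
unit ball by `ϖ^j`) have different residues modulo `ϖ^(j+1)` (`Pool.PL.p_RES`, file `B_RES.lean` of P): at most `q^(j+1)`; the residues give
`q^(j+1)` points; cells: residues. -/
def Stmt_LFG : Prop :=
  ∀ (k : Type) [NormedField k] [IsUltrametricDist k] (_ : LocF k), (2 : k) ≠ 0 →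
    ∃ L : LG k, L.e = 1

/-- **RLG** (150).  The real numbers (integers, intervals). -/
def Stmt_RLG : Prop := ∃ L : LG ℝ, L.e = 1

/-- **CLX** (250).  The complex numbers (Gaussian integers, squares). -/
def Stmt_CLX : Prop := ∃ L : LG ℂ, L.e = 2

/-- **KCG** (300), uses LFG RLG CLX.  Finite places: `Pool.PL.p_ADC` (file `B_ADC.lean` of P) and LFG.  Archimedean: `w.Completion` is isometrically isomorphic to `ℝ` or
`ℂ` (`InfinitePlace.Completion.ringEquivRealOfIsReal`, `isometryEquivRealOfIsReal`, ...), transport `LG`; `ProperSpace`. -/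
def Stmt_KCG : Prop :=
  ∀ (F : Type) [Field F] [NumberField F] (p : Plc F), ProperSpace (KC p) ∧
    ∃ (e : F →+* KC p) (L : LG (KC p)), (∀ x, ‖e x‖ ^ L.e = nv p x) ∧
    ∀ a b : 𝓞 F, SplitP a b p ↔ ∃ x y : KC p, x ^ 2 - e (a : F) * y ^ 2 = e (b : F)

/-- **NSG** (200).  Not split at an archimedean place: the place is real and `a, b < 0` there (complex, or `b ≥ 0`: `x = √b`, `y = 0`; `a > 0`:
`x = (1+b)/2`, `y = (b-1)/(2√a)`), so the norm form is definite.  (`a, b ≠ 0`.) -/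
def Stmt_NSG : Prop :=
  ∀ (F : Type) [Field F] [NumberField F] (a b : 𝓞 F) (w : InfinitePlace F), a ≠ 0 → b ≠ 0 →
    ¬ SplitP a b (.inr w) → ∃ C : ℝ, ∀ z : ℍ[F, (a : F), (b : F)],
    w z.re ^ 2 ≤ C * w (nrq z) ∧ w z.imI ^ 2 ≤ C * w (nrq z) ∧ w z.imJ ^ 2 ≤ C * w (nrq z) ∧
      w z.imK ^ 2 ≤ C * w (nrq z)

/-- **ENQ** (400), uses PFG CTQ CKG INQ KCG NSG FNQ.  `ι = {p : Plc F // InS n p ∧ SplitP a b p}` (finite: PFG), `k i = KC i.1`, `D : Cx F ι k` (`nsp`: `Pool.PL.p_ANI` and KCG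
as in `B_END.lean` of P; `nsi`: NSG); `LatG D.L D.Γ` from CKG and CTQ, FNQ, INQ. -/
def Stmt_ENQ : Prop :=
  ∀ (F : Type) [Field F] [NumberField F] (a b n : 𝓞 F),
    (∀ z : ℍ[F, (a : F), (b : F)], nrq z = 0 → z = 0) → n ≠ 0 →
    (∃ p q : Plc F, p ≠ q ∧ InS n p ∧ InS n q ∧ SplitP a b p ∧ SplitP a b q) → FTGap (GU a b n)

end Pool.PQ
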