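import Pool.Agent.Work.MP_972ac7_Q.Interface2

set_option autoImplicit false

/-! # THEOREM PP (MP_972ac7_al): block ARC (cells of the conic `u v = μ`) -/

open MeasureTheory NumberField IsDedekindDomain
open scoped Quaternion ENNReal

noncomputable section

namespace Pool.PQ

open Pool.PL Pool.TFD Pool.TC

theorem ARC_cls {α β : Type} (F : α → β) (T : Finset β) :
    ∃ cl : α → Fin (T.card + 1), ∀ x y, F x ∈ T → F y ∈ T → cl x = cl y → F x = F y := by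
  classical
  refine ⟨fun x => if h : F x ∈ T then (T.equivFin ⟨F x, h⟩).castSucc else Fin.last _, ?_⟩
  intro x y hx hy h
  simp only [dif_pos hx, dif_pos hy] at h
  have h1 := Fin.castSucc_injective _ h
  have h2 := T.equivFin.injective h1
  exact congrArg Subtype.val h2

/-- the shell -/
def ARC_sh (R : ℝ) (u : ℂ) : ℕ := sInf {n : ℕ | R < ‖u‖ * 2 ^ (n + 1)}

theorem ARC_sh_spec {R : ℝ} {u : ℂ} {j₀ : ℕ} (hu : ‖u‖ ≤ R) (h : R < ‖u‖ * 2 ^ j₀) :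
    ARC_sh R u < j₀ ∧ R < ‖u‖ * 2 ^ (ARC_sh R u + 1) ∧ ‖u‖ * 2 ^ (ARC_sh R u) ≤ R := by
  have h0 : j₀ ≠ 0 := by
    rintro rfl
    rw [pow_zero, mul_one] at h
    linarith
  obtain ⟨n, rfl⟩ := Nat.exists_eq_succ_of_ne_zero h0
  have hmem : n ∈ {n : ℕ | R < ‖u‖ * 2 ^ (n + 1)} := h
  have h1 : ARC_sh R u ≤ n := Nat.sInf_le hmem
  have h2 : ARC_sh R u ∈ {n : ℕ | R < ‖u‖ * 2 ^ (n + 1)} := Nat.sInf_mem ⟨n, hmem⟩
  refine ⟨Nat.lt_succ_of_le h1, h2, ?_⟩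
  rcases Nat.eq_zero_or_pos (ARC_sh R u) with h3 | h3
  · rw [h3, pow_zero, mul_one]
    exact hu
  · by_contra h4
    push Not at h4
    obtain ⟨i, hi⟩ := Nat.exists_eq_succ_of_ne_zero h3.ne'
    have h5 : i ∈ {n : ℕ | R < ‖u‖ * 2 ^ (n + 1)} := by
      change R < ‖u‖ * 2 ^ (i + 1)
      rw [hi] at h4
      exact h4
    have h6 : ARC_sh R u ≤ i := Nat.sInf_le h5
    omega

/-- the side of the squares -/
def ARC_s (R K : ℝ) (j : ℕ) : ℝ := R * (3 / 2) ^ j / (K * 2 ^ j)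

theorem ARC_s_pos {R K : ℝ} (hR : 0 < R) (hK : 0 < K) (j : ℕ) : 0 < ARC_s R K j := by
  unfold ARC_s
  positivity

open Classical in
/-- the cell -/
def ARC_cell (R K : ℝ) (j₀ : ℕ) (u : ℂ) : Option (ℕ × ℤ × ℤ) :=
  if R < ‖u‖ * 2 ^ j₀ then
    some (ARC_sh R u, ⌊u.re / ARC_s R K (ARC_sh R u)⌋, ⌊u.im / ARC_s R K (ARC_sh R u)⌋)
  else none

theorem ARC_det {μ u v u' v' u'' v'' : ℂ} (h : u * v = μ) (h' : u' * v' = μ)
    (h'' : u'' * v'' = μ) :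
    ((u' - u) * (v'' - v) - (u'' - u) * (v' - v)) * (u * u' * u'') =
      μ * ((u' - u) * (u'' - u) * (u'' - u')) := by
  linear_combination (u' - u) * u * u' * h'' - (u' - u) * u' * u'' * h -
    (u'' - u) * u * u'' * h' + (u'' - u) * u' * u'' * h

theorem ARC_num {D R K X θ a a' a'' m b b' b'' : ℝ} (hD : 0 ≤ D) (hR : 0 < R) (hK : 0 < K)
    (hX : 0 < X) (hθ : 0 < θ) (hθX : θ ^ 3 ≤ X ^ 2) (ha : R < a * (2 * X)) (ha' : R < a' * (2 * X))
    (ha'' : R < a'' * (2 * X)) (hm : 0 ≤ m) (hmX : m ≤ (R / X) ^ 2) (hb : 0 ≤ b) (hb' : 0 ≤ b')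
    (hb'' : 0 ≤ b'') (hbt : b ≤ 2 * (R * θ / (K * X))) (hbt' : b' ≤ 2 * (R * θ / (K * X)))
    (hbt'' : b'' ≤ 2 * (R * θ / (K * X))) (h : D * (a * a' * a'') = m * (b * b' * b'')) :
    D * K ^ 3 ≤ 64 * R ^ 2 := by
  have w0 : 0 < R / (2 * X) := by positivity
  have w1 : R / (2 * X) ≤ a := by
    rw [div_le_iff₀ (by positivity)]
    exact ha.le
  have w1' : R / (2 * X) ≤ a' := by
    rw [div_le_iff₀ (by positivity)]
    exact ha'.le
  have w1'' : R / (2 * X) ≤ a'' := by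
    rw [div_le_iff₀ (by positivity)]
    exact ha''.le
  have e1 : (R / (2 * X)) * (R / (2 * X)) * (R / (2 * X)) ≤ a * a' * a'' :=
    mul_le_mul (mul_le_mul w1 w1' w0.le (le_trans w0.le w1)) w1'' w0.le
      (mul_nonneg (le_trans w0.le w1) (le_trans w0.le w1'))
  have t0 : 0 ≤ 2 * (R * θ / (K * X)) := by positivity
  have e2 : b * b' * b'' ≤ 2 * (R * θ / (K * X)) * (2 * (R * θ / (K * X))) *
      (2 * (R * θ / (K * X))) :=
    mul_le_mul (mul_le_mul hbt hbt' hb' t0) hbt'' hb'' (mul_nonneg t0 t0)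
  have e3 : D * ((R / (2 * X)) * (R / (2 * X)) * (R / (2 * X))) ≤ (R / X) ^ 2 *
      (2 * (R * θ / (K * X)) * (2 * (R * θ / (K * X))) * (2 * (R * θ / (K * X)))) := by
    calc _ ≤ D * (a * a' * a'') := mul_le_mul_of_nonneg_left e1 hD
      _ = m * (b * b' * b'') := h
      _ ≤ _ := mul_le_mul hmX e2 (mul_nonneg (mul_nonneg hb hb') hb'') (by positivity)
  have c0 : 0 ≤ 8 * K ^ 3 * X ^ 3 / R ^ 3 := by positivity
  have e4 := mul_le_mul_of_nonneg_right e3 c0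
  have e5 : D * ((R / (2 * X)) * (R / (2 * X)) * (R / (2 * X))) * (8 * K ^ 3 * X ^ 3 / R ^ 3) =
      D * K ^ 3 := by
    field_simp
    ring
  have e6 : (R / X) ^ 2 * (2 * (R * θ / (K * X)) * (2 * (R * θ / (K * X))) *
      (2 * (R * θ / (K * X)))) * (8 * K ^ 3 * X ^ 3 / R ^ 3) = 64 * R ^ 2 * (θ ^ 3 / X ^ 2) := by
    field_simp
    ring
  rw [e5, e6] at e4
  refine le_trans e4 ?_
  have e7 : θ ^ 3 / X ^ 2 ≤ 1 := by
    rw [div_le_one (by positivity)]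
    exact hθX
  have e8 : 0 ≤ 64 * R ^ 2 := by positivity
  calc 64 * R ^ 2 * (θ ^ 3 / X ^ 2) ≤ 64 * R ^ 2 * 1 := mul_le_mul_of_nonneg_left e7 e8
    _ = _ := mul_one _

theorem ARC_close {s x y : ℝ} (hs : 0 < s) (h : ⌊x / s⌋ = ⌊y / s⌋) : |y - x| ≤ s := by
  have h1 := Int.abs_sub_lt_one_of_floor_eq_floor h
  rw [← sub_div, abs_div, abs_of_pos hs, div_lt_one hs, abs_sub_comm] at h1
  exact h1.le

theorem ARC_close2 {s : ℝ} {u u' : ℂ} (hs : 0 < s) (h : ⌊u.re / s⌋ = ⌊u'.re / s⌋)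
    (h' : ⌊u.im / s⌋ = ⌊u'.im / s⌋) : ‖u' - u‖ ≤ 2 * s := by
  have h1 := Complex.norm_le_abs_re_add_abs_im (u' - u)
  rw [Complex.sub_re, Complex.sub_im] at h1
  have h2 := ARC_close hs h
  have h3 := ARC_close hs h'
  linarith

theorem ARC_theta (j : ℕ) : ((3 / 2 : ℝ) ^ j) ^ 3 ≤ (2 ^ j) ^ 2 := by
  rw [← pow_mul, ← pow_mul, mul_comm j 3, mul_comm j 2, pow_mul, pow_mul]
  exact pow_le_pow_left₀ (by norm_num) (by norm_num) j

theorem ARC_main {μ : ℂ} {R K : ℝ} {j₀ : ℕ} (hR : 0 < R) (hK : 1 ≤ K) (hj : K ^ 3 ≤ 4 ^ j₀)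
    {u v u' v' u'' v'' : ℂ} (h : u * v = μ) (h' : u' * v' = μ) (h'' : u'' * v'' = μ)
    (hvu : ‖v‖ ≤ ‖u‖) (hvu' : ‖v'‖ ≤ ‖u'‖) (hvu'' : ‖v''‖ ≤ ‖u''‖) (hu : ‖u‖ ≤ R)
    (hu' : ‖u'‖ ≤ R) (hu'' : ‖u''‖ ≤ R) (hc : ARC_cell R K j₀ u = ARC_cell R K j₀ u')
    (hc' : ARC_cell R K j₀ u = ARC_cell R K j₀ u'') :
    ‖(u' - u) * (v'' - v) - (u'' - u) * (v' - v)‖ * K ^ 3 ≤ 64 * R ^ 2 := by
  have hK0 : 0 < K := by linarith
  by_cases h1 : R < ‖u‖ * 2 ^ j₀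
  · by_cases h1' : R < ‖u'‖ * 2 ^ j₀
    swap
    · unfold ARC_cell at hc
      rw [if_pos h1, if_neg h1'] at hc
      cases hc
    by_cases h1'' : R < ‖u''‖ * 2 ^ j₀
    swap
    · unfold ARC_cell at hc'
      rw [if_pos h1, if_neg h1''] at hc'
      cases hc'
    unfold ARC_cell at hc hc'
    rw [if_pos h1, if_pos h1'] at hc
    rw [if_pos h1, if_pos h1''] at hc'
    have c1 := Option.some.inj hc
    have c1' := Option.some.inj hc'
    rw [Prod.mk.injEq, Prod.mk.injEq] at c1 c1'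
    obtain ⟨s1, s2, s3⟩ := c1
    obtain ⟨s1', s2', s3'⟩ := c1'
    rw [← s1] at s2 s3
    rw [← s1'] at s2' s3'
    obtain ⟨-, a1, a2⟩ := ARC_sh_spec hu h1
    obtain ⟨-, a1', -⟩ := ARC_sh_spec hu' h1'
    obtain ⟨-, a1'', -⟩ := ARC_sh_spec hu'' h1''
    rw [← s1] at a1'
    rw [← s1'] at a1''
    obtain ⟨j, hjj⟩ : ∃ j, j = ARC_sh R u := ⟨_, rfl⟩
    rw [← hjj] at s2 s3 s2' s3' a1 a2 a1' a1''
    have hs := ARC_s_pos hR hK0 j
    have d1 := ARC_close2 hs s2 s3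
    have d2 := ARC_close2 hs s2' s3'
    have d3 := ARC_close2 hs (s2.symm.trans s2') (s3.symm.trans s3')
    unfold ARC_s at d1 d2 d3
    have hX : (0 : ℝ) < 2 ^ j := by positivity
    have hdet := congrArg norm (ARC_det h h' h'')
    rw [norm_mul, norm_mul, norm_mul, norm_mul, norm_mul, norm_mul] at hdet
    have e2 : (2 : ℝ) ^ (j + 1) = 2 * 2 ^ j := by ring
    rw [e2] at a1 a1' a1''
    refine ARC_num (X := 2 ^ j) (θ := (3 / 2) ^ j) (norm_nonneg _) hR hK0 hX (by positivity)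
      (ARC_theta j) a1 a1' a1'' (norm_nonneg μ) ?_ (norm_nonneg _) (norm_nonneg _) (norm_nonneg _)
      d1 d2 d3 hdet
    have f1 : ‖u‖ ≤ R / 2 ^ j := by
      rw [le_div_iff₀ hX]
      exact a2
    rw [← h, norm_mul, pow_two]
    exact mul_le_mul f1 (le_trans hvu f1) (norm_nonneg _) (le_trans (norm_nonneg _) f1)
  · have h1' : ¬ R < ‖u'‖ * 2 ^ j₀ := by
      intro h2
      unfold ARC_cell at hc
      rw [if_neg h1, if_pos h2] at hc
      cases hc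
    have h1'' : ¬ R < ‖u''‖ * 2 ^ j₀ := by
      intro h2
      unfold ARC_cell at hc'
      rw [if_neg h1, if_pos h2] at hc'
      cases hc'
    push Not at h1 h1' h1''
    have hX : (0 : ℝ) < 2 ^ j₀ := by positivity
    obtain ⟨r, hr⟩ : ∃ r, r = R / 2 ^ j₀ := ⟨_, rfl⟩
    have hr0 : 0 < r := by rw [hr]; positivity
    have f1 : ‖u‖ ≤ r := by
      rw [hr, le_div_iff₀ hX]
      exact h1
    have f1' : ‖u'‖ ≤ r := by
      rw [hr, le_div_iff₀ hX]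
      exact h1'
    have f1'' : ‖u''‖ ≤ r := by
      rw [hr, le_div_iff₀ hX]
      exact h1''
    have g1 := norm_sub_le u' u
    have g2 := norm_sub_le v'' v
    have g3 := norm_sub_le u'' u
    have g4 := norm_sub_le v' v
    have k1 : ‖(u' - u) * (v'' - v)‖ ≤ (2 * r) * (2 * r) := by
      rw [norm_mul]
      exact mul_le_mul (by linarith) (by linarith) (norm_nonneg _) (by linarith)
    have k2 : ‖(u'' - u) * (v' - v)‖ ≤ (2 * r) * (2 * r) := by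
      rw [norm_mul]
      exact mul_le_mul (by linarith) (by linarith) (norm_nonneg _) (by linarith)
    have k3 := norm_sub_le ((u' - u) * (v'' - v)) ((u'' - u) * (v' - v))
    have k4 : ‖(u' - u) * (v'' - v) - (u'' - u) * (v' - v)‖ ≤ 8 * r ^ 2 := by
      nlinarith
    have k5 : ‖(u' - u) * (v'' - v) - (u'' - u) * (v' - v)‖ * K ^ 3 ≤ 8 * r ^ 2 * 4 ^ j₀ :=
      mul_le_mul k4 hj (by positivity) (by positivity)
    refine le_trans k5 ?_
    have k6 : 8 * r ^ 2 * 4 ^ j₀ = 8 * R ^ 2 := by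
      have k7 : (4 : ℝ) ^ j₀ = (2 ^ j₀) ^ 2 := by
        rw [← pow_mul, mul_comm, pow_mul]
        norm_num
      rw [hr, k7]
      field_simp
    rw [k6]
    have := sq_nonneg R
    linarith

/-- the finite set of cells -/
def ARC_T (K : ℝ) (j₀ : ℕ) : Finset (ℕ × ℤ × ℤ) :=
  (Finset.range j₀).biUnion fun j => ({j} : Finset ℕ) ×ˢ
    (Finset.Icc (-(⌈K / (3 / 2) ^ j⌉₊ : ℤ)) (⌈K / (3 / 2) ^ j⌉₊ : ℤ) ×ˢ
      Finset.Icc (-(⌈K / (3 / 2) ^ j⌉₊ : ℤ)) (⌈K / (3 / 2) ^ j⌉₊ : ℤ))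

theorem ARC_floor {x : ℝ} {m : ℕ} (h : |x| ≤ m) : ⌊x⌋ ∈ Finset.Icc (-(m : ℤ)) (m : ℤ) := by
  rw [abs_le] at h
  rw [Finset.mem_Icc]
  constructor
  · rw [Int.le_floor]
    push_cast
    exact h.1
  · have h1 := Int.floor_le x
    have h2 : (⌊x⌋ : ℝ) ≤ ((m : ℤ) : ℝ) := by
      push_cast
      linarith [h.2]
    exact_mod_cast h2

theorem ARC_coord {R K x : ℝ} {j : ℕ} (hR : 0 < R) (hK : 0 < K) {c : ℝ} (hc : |x| ≤ c)
    (h : c * 2 ^ j ≤ R) : |x / ARC_s R K j| ≤ (⌈K / (3 / 2) ^ j⌉₊ : ℝ) := by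
  have hs := ARC_s_pos hR hK j
  refine le_trans ?_ (Nat.le_ceil _)
  rw [abs_div, abs_of_pos hs, div_le_iff₀ hs]
  have e1 : K / (3 / 2) ^ j * ARC_s R K j = R / 2 ^ j := by
    unfold ARC_s
    field_simp
  rw [e1, le_div_iff₀ (by positivity)]
  exact le_trans (mul_le_mul_of_nonneg_right hc (by positivity)) h

theorem ARC_mem {R K : ℝ} {j₀ : ℕ} {u : ℂ} (hR : 0 < R) (hK : 0 < K) (hu : ‖u‖ ≤ R) :
    ARC_cell R K j₀ u ∈ Finset.insertNone (ARC_T K j₀) := by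
  unfold ARC_cell
  by_cases h1 : R < ‖u‖ * 2 ^ j₀
  · rw [if_pos h1, Finset.some_mem_insertNone]
    obtain ⟨h2, -, h4⟩ := ARC_sh_spec hu h1
    unfold ARC_T
    rw [Finset.mem_biUnion]
    refine ⟨ARC_sh R u, Finset.mem_range.2 h2, ?_⟩
    rw [Finset.mem_product, Finset.mem_product]
    exact ⟨Finset.mem_singleton.2 rfl, ARC_floor (ARC_coord hR hK (Complex.abs_re_le_norm u) h4),
      ARC_floor (ARC_coord hR hK (Complex.abs_im_le_norm u) h4)⟩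
  · rw [if_neg h1]
    exact Finset.none_mem_insertNone

theorem ARC_card {K : ℝ} {j₀ : ℕ} (hK : 1 ≤ K) (hj : ∀ j < j₀, (4 : ℝ) ^ j < K ^ 3) :
    ((ARC_T K j₀).card : ℝ) ≤ 45 * K ^ 2 := by
  have hK0 : 0 < K := by linarith
  have h1 : ((ARC_T K j₀).card : ℝ) ≤
      ∑ j ∈ Finset.range j₀, (2 * (⌈K / (3 / 2) ^ j⌉₊ : ℝ) + 1) ^ 2 := by
    have h2 : (ARC_T K j₀).card ≤
        ∑ j ∈ Finset.range j₀, (2 * ⌈K / (3 / 2) ^ j⌉₊ + 1) ^ 2 := by
      refine le_trans Finset.card_biUnion_le (Finset.sum_le_sum fun j _ => le_of_eq ?_)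
      rw [Finset.card_product, Finset.card_product, Finset.card_singleton, one_mul, Int.card_Icc]
      have e : ((⌈K / (3 / 2) ^ j⌉₊ : ℤ) + 1 - -(⌈K / (3 / 2) ^ j⌉₊ : ℤ)).toNat =
          2 * ⌈K / (3 / 2) ^ j⌉₊ + 1 := by omega
      rw [e, pow_two]
    exact_mod_cast h2
  refine le_trans h1 ?_
  have h3 : ∀ j ∈ Finset.range j₀, (2 * (⌈K / (3 / 2) ^ j⌉₊ : ℝ) + 1) ^ 2 ≤
      25 * K ^ 2 * (4 / 9) ^ j := by
    intro j hjm
    have hjj := hj j (Finset.mem_range.1 hjm)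
    have t0 : (0 : ℝ) < (3 / 2) ^ j := by positivity
    have t1 : ((3 / 2 : ℝ) ^ j) ^ 3 < K ^ 3 := by
      refine lt_of_le_of_lt (ARC_theta j) (lt_of_le_of_lt (le_of_eq ?_) hjj)
      rw [← pow_mul, mul_comm, pow_mul]
      norm_num
    have t2 : (3 / 2 : ℝ) ^ j < K := lt_of_pow_lt_pow_left₀ 3 hK0.le t1
    have t3 : 1 ≤ K / (3 / 2) ^ j := by
      rw [le_div_iff₀ t0, one_mul]
      exact t2.le
    have t4 : (⌈K / (3 / 2) ^ j⌉₊ : ℝ) < K / (3 / 2) ^ j + 1 := Nat.ceil_lt_add_one (by linarith)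
    have t5 : 2 * (⌈K / (3 / 2) ^ j⌉₊ : ℝ) + 1 ≤ 5 * (K / (3 / 2) ^ j) := by linarith
    have t6 : (2 * (⌈K / (3 / 2) ^ j⌉₊ : ℝ) + 1) ^ 2 ≤ (5 * (K / (3 / 2) ^ j)) ^ 2 :=
      pow_le_pow_left₀ (by positivity) t5 2
    refine le_trans t6 (le_of_eq ?_)
    have t7 : (4 / 9 : ℝ) ^ j = (((3 / 2 : ℝ) ^ j) ^ 2)⁻¹ := by
      rw [← pow_mul, mul_comm, pow_mul, ← inv_pow]
      norm_num
    rw [t7]
    field_simp
    norm_num
  refine le_trans (Finset.sum_le_sum h3) ?_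
  rw [← Finset.mul_sum]
  have h4 : ∑ j ∈ Finset.range j₀, (4 / 9 : ℝ) ^ j ≤ 9 / 5 := by
    rw [geom_sum_eq (by norm_num)]
    have h5 : (0 : ℝ) ≤ (4 / 9) ^ j₀ := by positivity
    rw [div_le_iff_of_neg (by norm_num)]
    linarith
  have h6 : 0 ≤ 25 * K ^ 2 := by positivity
  calc 25 * K ^ 2 * ∑ j ∈ Finset.range j₀, (4 / 9 : ℝ) ^ j ≤ 25 * K ^ 2 * (9 / 5) :=
        mul_le_mul_of_nonneg_left h4 h6
    _ = _ := by ring

open Classical in
/-- the class of a point -/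
def ARC_F (R K : ℝ) (j₀ : ℕ) (p : ℂ × ℂ) : Bool × Option (ℕ × ℤ × ℤ) :=
  if ‖p.2‖ ≤ ‖p.1‖ then (true, ARC_cell R K j₀ p.1) else (false, ARC_cell R K j₀ p.2)

theorem p_ARC : Stmt_ARC := by
  classical
  refine ⟨100, by norm_num, ?_⟩
  intro μ R K hR hK
  have hK0 : 0 < K := by linarith
  have hex : ∃ n : ℕ, K ^ 3 ≤ 4 ^ n := by
    obtain ⟨n, hn⟩ := pow_unbounded_of_one_lt (K ^ 3) (by norm_num : (1 : ℝ) < 4)
    exact ⟨n, hn.le⟩
  obtain ⟨j₀, hj₀, hjm⟩ : ∃ j₀ : ℕ, K ^ 3 ≤ 4 ^ j₀ ∧ ∀ j < j₀, (4 : ℝ) ^ j < K ^ 3 :=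
    ⟨Nat.find hex, Nat.find_spec hex, fun j hj => by
      have := Nat.find_min hex hj
      push Not at this
      exact this⟩
  obtain ⟨cl, hcl⟩ := ARC_cls (ARC_F R K j₀)
    ((Finset.univ : Finset Bool) ×ˢ Finset.insertNone (ARC_T K j₀))
  refine ⟨_, cl, ?_, ?_⟩
  · rw [Finset.card_product, Finset.card_insertNone, Finset.card_univ, Fintype.card_bool]
    push_cast
    have h1 := ARC_card hK hjm
    nlinarith
  · have hF : ∀ p : ℂ × ℂ, ‖p.1‖ ≤ R → ‖p.2‖ ≤ R → ARC_F R K j₀ p ∈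
        (Finset.univ : Finset Bool) ×ˢ Finset.insertNone (ARC_T K j₀) := by
      intro p h1 h2
      unfold ARC_F
      split_ifs with h3
      · exact Finset.mem_product.2 ⟨Finset.mem_univ _, ARC_mem hR hK0 h1⟩
      · exact Finset.mem_product.2 ⟨Finset.mem_univ _, ARC_mem hR hK0 h2⟩
    intro p p' p'' hp hp' hp'' h1 h2 h1' h2' h1'' h2'' hc hc'
    have e1 := hcl p p' (hF p h1 h2) (hF p' h1' h2') hc
    have e2 := hcl p p'' (hF p h1 h2) (hF p'' h1'' h2'') hc'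
    have hfin : ‖(p'.1 - p.1) * (p''.2 - p.2) - (p''.1 - p.1) * (p'.2 - p.2)‖ * K ^ 3 ≤
        64 * R ^ 2 := by
      unfold ARC_F at e1 e2
      by_cases q : ‖p.2‖ ≤ ‖p.1‖
      · by_cases q' : ‖p'.2‖ ≤ ‖p'.1‖
        swap
        · rw [if_pos q, if_neg q'] at e1
          simp at e1
        by_cases q'' : ‖p''.2‖ ≤ ‖p''.1‖
        swap
        · rw [if_pos q, if_neg q''] at e2
          simp at e2
        rw [if_pos q, if_pos q'] at e1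
        rw [if_pos q, if_pos q''] at e2
        exact ARC_main hR hK hj₀ hp hp' hp'' q q' q'' h1 h1' h1'' (congrArg Prod.snd e1)
          (congrArg Prod.snd e2)
      · by_cases q' : ‖p'.2‖ ≤ ‖p'.1‖
        · rw [if_neg q, if_pos q'] at e1
          simp at e1
        by_cases q'' : ‖p''.2‖ ≤ ‖p''.1‖
        · rw [if_neg q, if_pos q''] at e2
          simp at e2
        rw [if_neg q, if_neg q'] at e1
        rw [if_neg q, if_neg q''] at e2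
        push Not at q q' q''
        have h3 := ARC_main (μ := μ) hR hK hj₀ (u := p.2) (v := p.1) (u' := p'.2) (v' := p'.1)
          (u'' := p''.2) (v'' := p''.1) (by rw [mul_comm]; exact hp) (by rw [mul_comm]; exact hp')
          (by rw [mul_comm]; exact hp'') q.le q'.le q''.le h2 h2' h2'' (congrArg Prod.snd e1)
          (congrArg Prod.snd e2)
        have h4 : (p'.1 - p.1) * (p''.2 - p.2) - (p''.1 - p.1) * (p'.2 - p.2) =
            -((p'.2 - p.2) * (p''.1 - p.1) - (p''.2 - p.2) * (p'.1 - p.1)) := by ring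
        rw [h4, norm_neg]
        exact h3
    have := sq_nonneg R
    linarith

end Pool.PQ
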