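import Pool.Agent.Work.MP_972ac7_Q.Interface2

set_option autoImplicit false

/-! # Block COG: points on a conic -/

open MeasureTheory NumberField IsDedekindDomain
open scoped Quaternion ENNReal

noncomputable section

namespace Pool.PQ

open Pool.PL Pool.TFD Pool.TC

/-- three different points of an anisotropic conic are not collinear -/
theorem COG_noncol {F : Type} [Field F] (c₁ c₂ μ : F)
    (hdef : ∀ x y : F, c₁ * x ^ 2 + c₂ * y ^ 2 = 0 → x = 0 ∧ y = 0)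
    (x y x' y' x'' y'' : F) (e : c₁ * x ^ 2 + c₂ * y ^ 2 = μ)
    (e' : c₁ * x' ^ 2 + c₂ * y' ^ 2 = μ) (e'' : c₁ * x'' ^ 2 + c₂ * y'' ^ 2 = μ)
    (hΔ : (x' - x) * (y'' - y) - (x'' - x) * (y' - y) = 0)
    (n1 : ¬ (x' = x ∧ y' = y)) (n2 : ¬ (x'' = x ∧ y'' = y)) (n3 : ¬ (x'' = x' ∧ y'' = y')) :
    False := by
  have hs : ∃ s : F, x'' - x = s * (x' - x) ∧ y'' - y = s * (y' - y) := by
    by_cases hu : x' - x = 0
    · have hv : y' - y ≠ 0 := fun hv => n1 ⟨sub_eq_zero.1 hu, sub_eq_zero.1 hv⟩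
      refine ⟨(y'' - y) / (y' - y), ?_, ?_⟩
      · have h0 : (x'' - x) * (y' - y) = 0 := by
          rw [hu, zero_mul, zero_sub, neg_eq_zero] at hΔ
          exact hΔ
        rw [hu, mul_zero]
        exact (mul_eq_zero.1 h0).resolve_right hv
      · field_simp
    · refine ⟨(x'' - x) / (x' - x), ?_, ?_⟩
      · field_simp
      · field_simp
        linear_combination hΔ
  obtain ⟨s, hs1, hs2⟩ := hs
  have hx : x'' = x + s * (x' - x) := by linear_combination hs1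
  have hy : y'' = y + s * (y' - y) := by linear_combination hs2
  have hQ : c₁ * (x' - x) ^ 2 + c₂ * (y' - y) ^ 2 ≠ 0 := by
    intro h0
    obtain ⟨k5, k6⟩ := hdef _ _ h0
    exact n1 ⟨sub_eq_zero.1 k5, sub_eq_zero.1 k6⟩
  have hz : (s * (s - 1)) * (c₁ * (x' - x) ^ 2 + c₂ * (y' - y) ^ 2) = 0 := by
    rw [hx, hy] at e''
    linear_combination e'' - e - s * (e' - e)
  rcases mul_eq_zero.1 ((mul_eq_zero.1 hz).resolve_right hQ) with h | h
  · apply n2
    rw [hx, hy, h]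
    constructor <;> ring
  · apply n3
    have h1' : s = 1 := by linear_combination h
    rw [hx, hy, h1']
    constructor <;> ring

/-- counting with a map to `Fin K` with fibres of at most two elements -/
theorem COG_count {α : Type} (Z : Set α) (K : ℕ) (f : α → Fin K)
    (h : ∀ p ∈ Z, ∀ p' ∈ Z, ∀ p'' ∈ Z, p ≠ p' → p ≠ p'' → p' ≠ p'' → f p = f p' → f p = f p'' →
      False) : Z.Finite ∧ Nat.card Z ≤ 2 * K := by
  classical
  have hT : ∀ T : Finset α, (T : Set α) ⊆ Z → T.card ≤ 2 * K := by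
    intro T hT
    have h1 := Finset.card_le_mul_card_image (f := f) T 2 (by
      intro a _
      by_contra hlt
      rw [not_le, Finset.two_lt_card] at hlt
      obtain ⟨p, hp, p', hp', p'', hp'', n1, n2, n3⟩ := hlt
      rw [Finset.mem_filter] at hp hp' hp''
      exact h p (hT hp.1) p' (hT hp'.1) p'' (hT hp''.1) n1 n2 n3 (hp.2.trans hp'.2.symm)
        (hp.2.trans hp''.2.symm))
    refine h1.trans (Nat.mul_le_mul_left 2 ?_)
    have := Finset.card_le_univ (T.image f)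
    rwa [Fintype.card_fin] at this
  have hf : Z.Finite := by
    by_contra hinf
    obtain ⟨T, hTZ, hTc⟩ := Set.Infinite.exists_subset_card_eq hinf (2 * K + 1)
    have := hT T hTZ
    omega
  refine ⟨hf, ?_⟩
  rw [Nat.card_coe_set_eq, Set.ncard_eq_toFinset_card Z hf]
  exact hT _ (by rw [Set.Finite.coe_toFinset])

/-- the valuation of the determinant -/
theorem COG_av {F : Type} [Field F] [NumberField F] (w : HeightOneSpectrum (𝓞 F)) (A : ℝ)
    (hA : 0 < A) (a b c d : F) (ha : av w a ≤ A) (hb : av w b ≤ A) (hc : av w c ≤ A)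
    (hd : av w d ≤ A) : av w (a * b - c * d) ≤ A ^ 2 := by
  rw [sub_eq_add_neg]
  refine (av_add_le w _ _).trans (max_le ?_ ?_)
  · rw [av_mul, pow_two]
    exact mul_le_mul ha hb (av_nonneg w b) hA.le
  · rw [av_neg, av_mul, pow_two]
    exact mul_le_mul hc hd (av_nonneg w d) hA.le

/-- the archimedean absolute value of the determinant -/
theorem COG_inf {F : Type} [Field F] [NumberField F] (w : InfinitePlace F) (B : ℝ) (hB : 0 < B)
    (x y x' y' x'' y'' : F) (hx : nv (.inr w) x ≤ B) (hy : nv (.inr w) y ≤ B)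
    (hx' : nv (.inr w) x' ≤ B) (hy' : nv (.inr w) y' ≤ B) (hx'' : nv (.inr w) x'' ≤ B)
    (hy'' : nv (.inr w) y'' ≤ B) :
    nv (.inr w) ((x' - x) * (y'' - y) - (x'' - x) * (y' - y)) ≤ 64 * B ^ 2 := by
  have hs : ∀ a b : F, nv (.inr w) a ≤ B → nv (.inr w) b ≤ B → nv (.inr w) (a - b) ≤ 4 * B := by
    intro a b ha hb
    rw [sub_eq_add_neg]
    refine (nv_add_le _ _ _).trans ?_
    rw [nv_neg]
    exact mul_le_mul_of_nonneg_left (max_le ha hb) (by norm_num)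
  have hm : ∀ a b : F, nv (.inr w) a ≤ 4 * B → nv (.inr w) b ≤ 4 * B →
      nv (.inr w) (a * b) ≤ 16 * B ^ 2 := by
    intro a b ha hb
    rw [nv_mul]
    calc nv (.inr w) a * nv (.inr w) b ≤ (4 * B) * (4 * B) :=
          mul_le_mul ha hb (nv_nonneg _ _) (by positivity)
      _ = 16 * B ^ 2 := by ring
  have h1 := hm _ _ (hs _ _ hx' hx) (hs _ _ hy'' hy)
  have h2 := hm _ _ (hs _ _ hx'' hx) (hs _ _ hy' hy)
  rw [sub_eq_add_neg]
  refine (nv_add_le _ _ _).trans ?_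
  rw [nv_neg]
  calc 4 * max (nv (.inr w) ((x' - x) * (y'' - y))) (nv (.inr w) ((x'' - x) * (y' - y)))
      ≤ 4 * (16 * B ^ 2) := mul_le_mul_of_nonneg_left (max_le h1 h2) (by norm_num)
    _ = 64 * B ^ 2 := by ring

theorem COG_fac_pos {F : Type} [Field F] [NumberField F] (v : Plc F) {κ : ℝ} (hκ : 0 < κ) :
    0 < fac v κ := by
  cases v with
  | inl w => exact hκ
  | inr w => exact one_pos

theorem p_COG (hPFG : Stmt_PFG) : Stmt_COG := by
  intro F _ _ w₀ c₁ c₂ hcell hdef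
  classical
  obtain ⟨C₀, hC₀, hcell⟩ := hcell
  obtain ⟨D, hDdef⟩ : ∃ D : ℝ, D = C₀ * 64 ^ ((Finset.univ.erase w₀).card) := ⟨_, rfl⟩
  have hD : 0 < D := by
    rw [hDdef]
    positivity
  refine ⟨2 * C₀ * (1 + D ^ (1 / 3 : ℝ)), by positivity, ?_⟩
  intro v μ β κ hβ hκ Z hZ hZκ
  have hfac := COG_fac_pos v hκ
  have hprodβ : 0 < ∏ w, β w := Finset.prod_pos fun w _ => hβ w
  have hvol : 0 < vol v β κ := mul_pos hprodβ hfac
  obtain ⟨V, hVdef⟩ : ∃ V : ℝ, V = vol v β κ := ⟨_, rfl⟩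
  have hV : 0 < V := by
    rw [hVdef]
    exact hvol
  obtain ⟨X, hXdef⟩ : ∃ X : ℝ, X = D * V ^ 2 := ⟨_, rfl⟩
  have hX0 : 0 ≤ X := by
    rw [hXdef]
    positivity
  obtain ⟨K, hKdef⟩ : ∃ K : ℝ, K = 1 + X ^ (1 / 3 : ℝ) := ⟨_, rfl⟩
  have hXr0 : 0 ≤ X ^ (1 / 3 : ℝ) := Real.rpow_nonneg hX0 _
  have hK1 : 1 ≤ K := by
    rw [hKdef]
    linarith
  have hK3 : X < K ^ 3 := by
    have h0 : (X ^ (1 / 3 : ℝ)) ^ 3 = X := by
      rw [← Real.rpow_natCast, ← Real.rpow_mul hX0]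
      norm_num
    calc X = (X ^ (1 / 3 : ℝ)) ^ 3 := h0.symm
      _ < K ^ 3 := pow_lt_pow_left₀ (by rw [hKdef]; linarith) hXr0 (by norm_num)
  obtain ⟨N, cl, hN, hcl⟩ := hcell μ (β w₀) K (hβ w₀) hK1
  obtain ⟨hfin, hcard⟩ := COG_count Z N (fun p => cl ((p.1 : F), (p.2 : F))) (by
    intro p hp p' hp' p'' hp'' n1 n2 n3 k k'
    have hcoe : ∀ a b : 𝓞 F, (a : F) = (b : F) → a = b := fun a b h =>
      RingOfIntegers.ext h
    obtain ⟨δ, hδ⟩ : ∃ δ : 𝓞 F, δ = (p'.1 - p.1) * (p''.2 - p.2) - (p''.1 - p.1) * (p'.2 - p.2) :=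
      ⟨_, rfl⟩
    have hδF : (δ : F) = ((p'.1 : F) - (p.1 : F)) * ((p''.2 : F) - (p.2 : F)) -
        ((p''.1 : F) - (p.1 : F)) * ((p'.2 : F) - (p.2 : F)) := by
      rw [hδ]
      simp only [map_sub, map_mul]
    have hδ0 : δ ≠ 0 := by
      intro h0
      have hz : (δ : F) = 0 := by rw [h0]; simp
      refine COG_noncol (c₁ : F) (c₂ : F) μ hdef (p.1 : F) (p.2 : F) (p'.1 : F)
        (p'.2 : F) (p''.1 : F) (p''.2 : F) (hZ p hp).1 (hZ p' hp').1 (hZ p'' hp'').1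
        (by rw [← hδF]; exact hz) ?_ ?_ ?_
      · rintro ⟨h, h'⟩
        exact n1 (Prod.ext (hcoe _ _ h.symm) (hcoe _ _ h'.symm))
      · rintro ⟨h, h'⟩
        exact n2 (Prod.ext (hcoe _ _ h.symm) (hcoe _ _ h'.symm))
      · rintro ⟨h, h'⟩
        exact n3 (Prod.ext (hcoe _ _ h.symm) (hcoe _ _ h'.symm))
    -- the product formula
    have hlow : 1 ≤ N2 (δ : F) * fac v κ ^ 2 := by
      have h1 := (hPFG F).1 δ hδ0
      cases v with
      | inl w =>
        have hav : av w (δ : F) ≤ κ ^ 2 := by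
          rw [hδF]
          exact COG_av w κ hκ _ _ _ _ (hZκ p' hp' p hp w rfl).1 (hZκ p'' hp'' p hp w rfl).2
            (hZκ p'' hp'' p hp w rfl).1 (hZκ p' hp' p hp w rfl).2
        exact (h1.2 w).trans (mul_le_mul_of_nonneg_left hav (N2_nonneg _))
      | inr w =>
        have h2 := h1.1
        show 1 ≤ N2 (δ : F) * (1 : ℝ) ^ 2
        rw [one_pow, mul_one]
        exact h2
    -- the place `w₀`
    have h0 := hcl ((p.1 : F), (p.2 : F)) ((p'.1 : F), (p'.2 : F)) ((p''.1 : F), (p''.2 : F))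
      (hZ p hp).1 (hZ p' hp').1 (hZ p'' hp'').1 ((hZ p hp).2 w₀).1 ((hZ p hp).2 w₀).2
      ((hZ p' hp').2 w₀).1 ((hZ p' hp').2 w₀).2 ((hZ p'' hp'').2 w₀).1 ((hZ p'' hp'').2 w₀).2
      k k'
    simp only at h0
    rw [← hδF] at h0
    -- the other places
    have hoth : ∏ w ∈ Finset.univ.erase w₀, w (δ : F) ^ w.mult ≤
        ∏ w ∈ Finset.univ.erase w₀, (64 * β w ^ 2) := by
      refine Finset.prod_le_prod (fun w _ => pow_nonneg (apply_nonneg w _) _) fun w _ => ?_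
      rw [hδF]
      exact COG_inf w (β w) (hβ w) _ _ _ _ _ _ ((hZ p hp).2 w).1 ((hZ p hp).2 w).2
        ((hZ p' hp').2 w).1 ((hZ p' hp').2 w).2 ((hZ p'' hp'').2 w).1 ((hZ p'' hp'').2 w).2
    have hsplit : ∏ w ∈ Finset.univ.erase w₀, (64 * β w ^ 2) =
        64 ^ ((Finset.univ.erase w₀).card) * (∏ w ∈ Finset.univ.erase w₀, β w) ^ 2 := by
      rw [Finset.prod_mul_distrib, Finset.prod_const, Finset.prod_pow]
    have hN2 : N2 (δ : F) = w₀ (δ : F) ^ w₀.mult * ∏ w ∈ Finset.univ.erase w₀,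
        w (δ : F) ^ w.mult := by
      unfold N2
      exact (Finset.mul_prod_erase Finset.univ _ (Finset.mem_univ w₀)).symm
    have hβs : ∏ w, β w = β w₀ * ∏ w ∈ Finset.univ.erase w₀, β w :=
      (Finset.mul_prod_erase Finset.univ _ (Finset.mem_univ w₀)).symm
    have hup : N2 (δ : F) * K ^ 3 ≤ D * (∏ w, β w) ^ 2 := by
      calc N2 (δ : F) * K ^ 3 = (w₀ (δ : F) ^ w₀.mult * K ^ 3) *
            ∏ w ∈ Finset.univ.erase w₀, w (δ : F) ^ w.mult := by
            rw [hN2]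
            ring
        _ ≤ (C₀ * β w₀ ^ 2) * ∏ w ∈ Finset.univ.erase w₀, (64 * β w ^ 2) := by
            refine mul_le_mul h0 hoth (Finset.prod_nonneg fun w _ =>
              pow_nonneg (apply_nonneg w _) _) (by positivity)
        _ = D * (∏ w, β w) ^ 2 := by
            rw [hsplit, hβs, hDdef]
            ring
    have hfin : K ^ 3 ≤ X := by
      calc K ^ 3 = 1 * K ^ 3 := (one_mul _).symm
        _ ≤ (N2 (δ : F) * fac v κ ^ 2) * K ^ 3 :=
            mul_le_mul_of_nonneg_right hlow (by positivity)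
        _ = (N2 (δ : F) * K ^ 3) * fac v κ ^ 2 := by ring
        _ ≤ (D * (∏ w, β w) ^ 2) * fac v κ ^ 2 :=
            mul_le_mul_of_nonneg_right hup (by positivity)
        _ = X := by
            rw [hXdef, hVdef]
            unfold vol
            ring
    exact absurd hfin (not_le.2 hK3))
  refine ⟨hfin, ?_⟩
  have hXr : X ^ (1 / 3 : ℝ) = D ^ (1 / 3 : ℝ) * V ^ (2 / 3 : ℝ) := by
    rw [hXdef, Real.mul_rpow hD.le (by positivity), ← Real.rpow_natCast V 2,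
      ← Real.rpow_mul hV.le]
    norm_num
  have hVr : 0 ≤ V ^ (2 / 3 : ℝ) := Real.rpow_nonneg hV.le _
  have hDr : 0 ≤ D ^ (1 / 3 : ℝ) := Real.rpow_nonneg hD.le _
  rw [← hVdef]
  calc (Nat.card Z : ℝ) ≤ ((2 * N : ℕ) : ℝ) := by exact_mod_cast hcard
    _ = 2 * (N : ℝ) := by push_cast; ring
    _ ≤ 2 * (C₀ * K) := by linarith
    _ = 2 * C₀ * (1 + D ^ (1 / 3 : ℝ) * V ^ (2 / 3 : ℝ)) := by
      rw [hKdef, hXr]
      ring
    _ ≤ 2 * C₀ * ((1 + D ^ (1 / 3 : ℝ)) * (1 + V ^ (2 / 3 : ℝ))) := by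
      refine mul_le_mul_of_nonneg_left ?_ (by positivity)
      nlinarith
    _ = _ := by ring

end Pool.PQ
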