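import Pool.Agent.Work.MP_972ac7_Q.Interface2
import Pool.Agent.Work.MP_972ac7_P.B_ANI
import Pool.Agent.Work.MP_972ac7_P.B_ADC
import Pool.Agent.Work.MP_972ac7_C.B_QUF

set_option autoImplicit false

/-! # Block ENQ -/

open MeasureTheory NumberField IsDedekindDomain
open scoped Quaternion ENNReal

noncomputable section

namespace Pool.PQ

open Pool.PL Pool.TFD Pool.TC

/-- the split places which are archimedean or divide `n` -/
abbrev ENQ_I {F : Type} [Field F] [NumberField F] (a b n : 𝓞 F) : Type :=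
  {p : Plc F // InS n p ∧ SplitP a b p}

/-- the completions -/
abbrev ENQ_k {F : Type} [Field F] [NumberField F] (a b n : 𝓞 F) (i : ENQ_I a b n) : Type :=
  KC i.1

theorem ENQ_fin {F : Type} [Field F] [NumberField F] (a b n : 𝓞 F)
    (h : {w : HeightOneSpectrum (𝓞 F) | n ∈ w.asIdeal}.Finite) : Finite (ENQ_I a b n) := by
  classical
  have h1 : ((Sum.inl '' {w : HeightOneSpectrum (𝓞 F) | n ∈ w.asIdeal}) ∪
      (Sum.inr '' (Set.univ : Set (InfinitePlace F))) : Set (Plc F)).Finite :=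
    (h.image _).union ((Set.finite_univ).image _)
  have h2 : {p : Plc F | InS n p ∧ SplitP a b p} ⊆
      ((Sum.inl '' {w : HeightOneSpectrum (𝓞 F) | n ∈ w.asIdeal}) ∪
      (Sum.inr '' (Set.univ : Set (InfinitePlace F))) : Set (Plc F)) := by
    rintro p ⟨hp, -⟩
    cases p with
    | inl w => exact Or.inl ⟨w, hp, rfl⟩
    | inr w => exact Or.inr ⟨w, Set.mem_univ _, rfl⟩
  exact (h1.subset h2).to_subtype

theorem ENQ_ne {F : Type} [Field F] [NumberField F] (a b : 𝓞 F)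
    (hdv : ∀ z : ℍ[F, (a : F), (b : F)], nrq z = 0 → z = 0) : (a : F) ≠ 0 ∧ (b : F) ≠ 0 := by
  constructor
  · intro h
    have h1 := hdv ⟨0, 1, 0, 0⟩ (by simp [nrq, h])
    have h2 := congrArg QuaternionAlgebra.imI h1
    simp at h2
  · intro h
    have h1 := hdv ⟨0, 0, 1, 0⟩ (by simp [nrq, h])
    have h2 := congrArg QuaternionAlgebra.imJ h1
    simp at h2

theorem ENQ_nsp {F : Type} [Field F] [NumberField F] (a b : 𝓞 F) (ha0 : (a : F) ≠ 0)
    (w : HeightOneSpectrum (𝓞 F)) (hns : ¬ SplitAt a b w) :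
    ∃ C : ℝ, ∀ z : ℍ[F, (a : F), (b : F)], nrq z = 1 → CB w z C := by
  obtain ⟨hUw, hPw, h2w, hew, how, L, hL⟩ := p_ADC F w
  have := hPw
  have haw : (algebraMap F (w.adicCompletion F)) (a : F) ≠ 0 :=
    (map_ne_zero _).2 ha0
  have hnex : ¬ ∃ x y : w.adicCompletion F,
      x ^ 2 - (algebraMap F (w.adicCompletion F)) (a : F) * y ^ 2 =
        (algebraMap F (w.adicCompletion F)) (b : F) := by
    rintro ⟨x, y, h⟩
    apply hns
    refine ⟨x, y, ?_⟩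
    rw [how, how]
    exact h
  obtain ⟨C, hC⟩ := p_ANI (w.adicCompletion F) L h2w _ _ haw hnex
  refine ⟨C, fun z hz => ?_⟩
  have hz' : (algebraMap F (w.adicCompletion F)) (nrq z) = 1 := by
    rw [hz, map_one]
  have h3 := hC ![(algebraMap F (w.adicCompletion F)) z.re,
    (algebraMap F (w.adicCompletion F)) z.imI,
    (algebraMap F (w.adicCompletion F)) z.imJ,
    (algebraMap F (w.adicCompletion F)) z.imK] (by
      rw [← hz']
      simp [nrq])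
  refine ⟨?_, ?_, ?_, ?_⟩
  · rw [← hew]
    simpa using h3 0
  · rw [← hew]
    simpa using h3 1
  · rw [← hew]
    simpa using h3 2
  · rw [← hew]
    simpa using h3 3

theorem ENQ_gap (hCTQ : Stmt_CTQ) (hCKG : Stmt_CKG) (hINQ : Stmt_INQ) (hFNQ : Stmt_FNQ)
    (F : Type) [Field F] [NumberField F] (ι : Type) [Finite ι] (k : ι → Type)
    [∀ i, NormedField (k i)] [∀ i, ProperSpace (k i)] (D : Cx F ι k) (hnt : Nontrivial ι)
    (a b n : 𝓞 F) (hDa : D.a = a) (hDb : D.b = b) (hDn : D.n = n) :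
    FTGap (GU a b n) := by
  classical
  subst hDa hDb hDn
  have hF : Fintype ι := Fintype.ofFinite _
  have hlat : LatG D.L D.Γ :=
    { cpt := hCKG F ι k D
      count := fun W v hWv R => hCTQ F ι k D W v hWv R }
  have hg : FTGap D.Γ := hFNQ ι k D.L D.Γ hnt hlat
  obtain ⟨E⟩ := (hINQ F ι k D hnt.to_nonempty).2
  exact p_QUF D.Γ (GU D.a D.b D.n) E.toMonoidHom E.surjective hg

theorem ENQ_ctx (F : Type) [Field F] [NumberField F] (a b n : 𝓞 F)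
    (hNSG : Stmt_NSG) (hdv : ∀ z : ℍ[F, (a : F), (b : F)], nrq z = 0 → z = 0) (hn : n ≠ 0)
    (ι : Type) (pl : ι → Plc F) (inj : Function.Injective pl)
    (hpl : ∀ p, (∃ i, pl i = p) ↔ (InS n p ∧ SplitP a b p))
    (k : ι → Type) [∀ i, NormedField (k i)]
    (hk : ∀ i, ∃ (e : F →+* k i) (L : LG (k i)),
      (∀ x, ‖e x‖ ^ L.e = nv (pl i) x) ∧
      ∀ a b : 𝓞 F, SplitP a b (pl i) ↔ ∃ x y : k i, x ^ 2 - e (a : F) * y ^ 2 = e (b : F)) :
    ∃ D : Cx F ι k, D.a = a ∧ D.b = b ∧ D.n = n := by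
  classical
  obtain ⟨ha0, hb0⟩ := ENQ_ne a b hdv
  have ha1 : a ≠ 0 := fun h => ha0 (by rw [h]; rfl)
  have hb1 : b ≠ 0 := fun h => hb0 (by rw [h]; rfl)
  choose e L heL hsplit using hk
  have hsp : ∀ i : ι, ∃ x y : k i,
      x ^ 2 - e i (a : F) * y ^ 2 = e i (b : F) :=
    fun i => (hsplit i a b).1 ((hpl (pl i)).1 ⟨i, rfl⟩).2
  choose X Y hXY using hsp
  have h1 : ∀ i w, pl i = .inl w → n ∈ w.asIdeal := by
    intro i w hw
    exact ((hpl (.inl w)).1 ⟨i, hw⟩).1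
  have h2 : ∀ w : HeightOneSpectrum (𝓞 F), n ∈ w.asIdeal → (∀ i, pl i ≠ .inl w) →
      ∃ C : ℝ, ∀ z : ℍ[F, (a : F), (b : F)], nrq z = 1 → CB w z C := by
    intro w hw hwi
    refine ENQ_nsp a b ha0 w (fun h => ?_)
    obtain ⟨i, hi⟩ := (hpl (.inl w)).2 ⟨hw, h⟩
    exact hwi i hi
  have h3 : ∀ w : InfinitePlace F, (∀ i, pl i ≠ .inr w) →
      ∃ C : ℝ, ∀ z : ℍ[F, (a : F), (b : F)],
      w z.re ^ 2 ≤ C * w (nrq z) ∧ w z.imI ^ 2 ≤ C * w (nrq z) ∧ w z.imJ ^ 2 ≤ C * w (nrq z) ∧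
        w z.imK ^ 2 ≤ C * w (nrq z) := by
    intro w hwi
    refine hNSG F a b w ha1 hb1 (fun h => ?_)
    obtain ⟨i, hi⟩ := (hpl (.inr w)).2 ⟨trivial, h⟩
    exact hwi i hi
  exact ⟨⟨a, b, n, hdv, hn, pl, inj, e, L, heL, X, Y, hXY, h1, h2, h3⟩, rfl, rfl, rfl⟩

theorem p_ENQ (hPFG : Stmt_PFG) (hCTQ : Stmt_CTQ) (hCKG : Stmt_CKG) (hINQ : Stmt_INQ)
    (hKCG : Stmt_KCG) (hNSG : Stmt_NSG) (hFNQ : Stmt_FNQ) : Stmt_ENQ := by
  intro F _ _ a b n hdv hn hpq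
  have hfin : Finite (ENQ_I a b n) := ENQ_fin a b n ((hPFG F).2.2.2 n hn)
  have hnt : Nontrivial (ENQ_I a b n) := by
    obtain ⟨p, q, hne, hp, hq, hsp, hsq⟩ := hpq
    exact ⟨⟨⟨p, hp, hsp⟩, ⟨q, hq, hsq⟩, fun h => hne (congrArg Subtype.val h)⟩⟩
  have hP : ∀ i, ProperSpace (ENQ_k a b n i) := fun i => (hKCG F i.1).1
  have hpl : ∀ p, (∃ i : ENQ_I a b n, i.1 = p) ↔ (InS n p ∧ SplitP a b p) := by
    intro p
    constructor
    · rintro ⟨i, rfl⟩
      exact i.2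
    · intro h
      exact ⟨⟨p, h⟩, rfl⟩
  obtain ⟨D, hDa, hDb, hDn⟩ := ENQ_ctx F a b n hNSG hdv hn (ENQ_I a b n) (fun i => i.1)
    Subtype.val_injective hpl (ENQ_k a b n) (fun i => (hKCG F i.1).2)
  exact ENQ_gap hCTQ hCKG hINQ hFNQ F (ENQ_I a b n) (ENQ_k a b n) D hnt a b n hDa hDb hDn

end Pool.PQ
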