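import Pool.Agent.Work.MP_972ac7_Q.Interface1

set_option autoImplicit false

/-! # THEOREM PP, block HKX (helper21): the Hecke density -/

open MeasureTheory
open scoped ENNReal

noncomputable section

namespace Pool.PQ

open Pool.PL Pool.TFD Pool.TC

section grp

variable {G : Type} [Group G] [MeasurableSpace G]

/-- the density of `s * w * s'`, where `s`, `s'` have the density `u` -/
def HKX_A (μ : Measure G) (u : G → ℝ≥0∞) (w g : G) : ℝ≥0∞ :=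
  ∫⁻ s, u s * u ((s * w)⁻¹ * g) ∂μ

theorem HKX_A_meas [MeasurableMul₂ G] [MeasurableInv G] (μ : Measure G) [SFinite μ]
    (u : G → ℝ≥0∞) (hu : Measurable u) (w : G) : Measurable (HKX_A μ u w) := by
  have h : Measurable fun p : G × G => u p.2 * u ((p.2 * w)⁻¹ * p.1) := by
    refine (hu.comp measurable_snd).mul (hu.comp ?_)
    exact ((measurable_snd.mul_const w).inv).mul measurable_fst
  exact h.lintegral_prod_right'

theorem HKX_A_inv [MeasurableMul G] (μ : Measure G) [μ.IsMulLeftInvariant]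
    [μ.IsMulRightInvariant] (u : G → ℝ≥0∞) (hu : ∀ g, u g⁻¹ = u g) (w g : G) :
    HKX_A μ u w g⁻¹ = HKX_A μ u w⁻¹ g := by
  unfold HKX_A
  calc ∫⁻ s, u s * u ((s * w)⁻¹ * g⁻¹) ∂μ
      = ∫⁻ s, u (g⁻¹ * s) * u ((g⁻¹ * s * w)⁻¹ * g⁻¹) ∂μ :=
        (lintegral_mul_left_eq_self (μ := μ) (fun s => u s * u ((s * w)⁻¹ * g⁻¹)) g⁻¹).symm
    _ = ∫⁻ s, u (g⁻¹ * (s * w⁻¹)) * u ((g⁻¹ * (s * w⁻¹) * w)⁻¹ * g⁻¹) ∂μ :=
        (lintegral_mul_right_eq_self (μ := μ)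
          (fun s => u (g⁻¹ * s) * u ((g⁻¹ * s * w)⁻¹ * g⁻¹)) w⁻¹).symm
    _ = ∫⁻ s, u s * u ((s * w⁻¹)⁻¹ * g) ∂μ := by
        apply lintegral_congr
        intro t
        have h1 : (g⁻¹ * (t * w⁻¹)) = ((t * w⁻¹)⁻¹ * g)⁻¹ := by group
        have h2 : (g⁻¹ * (t * w⁻¹) * w)⁻¹ * g⁻¹ = t⁻¹ := by group
        rw [h2, h1, hu, hu, mul_comm]

theorem HKX_A_int [MeasurableMul₂ G] [MeasurableInv G] (μ : Measure G) [SFinite μ]
    [μ.IsMulLeftInvariant] (u : G → ℝ≥0∞) (hu : Measurable u) (φ : G → ℝ≥0∞)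
    (hφ : Measurable φ) (w : G) :
    ∫⁻ g, φ g * HKX_A μ u w g ∂μ = ∫⁻ s, u s * ∫⁻ t, u t * φ (s * w * t) ∂μ ∂μ := by
  have h0 : ∀ g, Measurable fun s => u s * u ((s * w)⁻¹ * g) := fun g =>
    hu.mul (hu.comp (((measurable_id.mul_const w).inv).mul_const g))
  have h1 : ∀ g, φ g * HKX_A μ u w g = ∫⁻ s, φ g * (u s * u ((s * w)⁻¹ * g)) ∂μ := by
    intro g
    unfold HKX_A
    rw [lintegral_const_mul _ (h0 g)]
  have h2 : Measurable fun p : G × G => φ p.1 * (u p.2 * u ((p.2 * w)⁻¹ * p.1)) := by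
    refine (hφ.comp measurable_fst).mul ((hu.comp measurable_snd).mul (hu.comp ?_))
    exact ((measurable_snd.mul_const w).inv).mul measurable_fst
  calc ∫⁻ g, φ g * HKX_A μ u w g ∂μ
      = ∫⁻ g, ∫⁻ s, φ g * (u s * u ((s * w)⁻¹ * g)) ∂μ ∂μ := lintegral_congr h1
    _ = ∫⁻ s, ∫⁻ g, φ g * (u s * u ((s * w)⁻¹ * g)) ∂μ ∂μ :=
        lintegral_lintegral_swap h2.aemeasurable
    _ = ∫⁻ s, u s * ∫⁻ t, u t * φ (s * w * t) ∂μ ∂μ := by
        apply lintegral_congr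
        intro s
        have h3 : ∫⁻ g, φ g * (u s * u ((s * w)⁻¹ * g)) ∂μ =
            ∫⁻ t, u s * (u t * φ (s * w * t)) ∂μ := by
          rw [← lintegral_mul_left_eq_self (μ := μ)
            (fun g => φ g * (u s * u ((s * w)⁻¹ * g))) (s * w)]
          apply lintegral_congr
          intro t
          rw [inv_mul_cancel_left]
          ring
        rw [h3, lintegral_const_mul]
        exact hu.mul (hφ.comp (measurable_const_mul _))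

end grp

section mats

variable {k : Type} [NormedField k]

theorem HKX_nm_pos (g : SL2 k) : 0 < nm g := by
  rcases (nm_nonneg g).lt_or_eq with h | h
  · exact h
  · exfalso
    have h0 : ∀ i j, (g : Matrix (Fin 2) (Fin 2) k) i j = 0 := fun i j => by
      have h1 := le_mnm (g : Matrix (Fin 2) (Fin 2) k) i j
      have h2 : mnm (g : Matrix (Fin 2) (Fin 2) k) = 0 := h.symm
      rw [h2] at h1
      exact norm_le_zero_iff.1 h1
    have h1 := g.det_coe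
    rw [Matrix.det_fin_two, h0 0 0, h0 0 1] at h1
    simp at h1

theorem HKX_nm_le (g : SL2 k) : nm g ≤ 1 + dnm g := by
  have h1 : (g : Matrix (Fin 2) (Fin 2) k) = 1 + ((g : Matrix (Fin 2) (Fin 2) k) - 1) := by abel
  have h2 : mnm (1 : Matrix (Fin 2) (Fin 2) k) ≤ 1 := by
    rw [mnm_le]
    intro i j
    fin_cases i <;> fin_cases j <;> simp
  have h3 := mnm_add_le2 (1 : Matrix (Fin 2) (Fin 2) k) ((g : Matrix (Fin 2) (Fin 2) k) - 1)
  rw [← h1] at h3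
  exact h3.trans (add_le_add h2 le_rfl)

theorem HKX_nm_U {s : SL2 k} (h : dnm s ≤ 1 / 2) : nm s ≤ 3 / 2 := by
  have := HKX_nm_le s
  linarith

theorem HKX_row (z : SL2 k) : ∃ i, max ‖z i 0‖ ‖z i 1‖ = nm z := by
  unfold nm mnm
  rcases le_total (max ‖z 0 0‖ ‖z 0 1‖) (max ‖z 1 0‖ ‖z 1 1‖) with h | h
  · exact ⟨1, (max_eq_right h).symm⟩
  · exact ⟨0, (max_eq_left h).symm⟩

theorem HKX_nm_low {x : k} {R : ℝ} (hR : 1 ≤ R) (hx : ‖x‖ ≤ R) : nm (low x) ≤ R := by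
  unfold nm low
  rw [mnm_le]
  intro i j
  fin_cases i <;> fin_cases j <;> simp <;> linarith

theorem HKX_low_inv (x : k) : (low x)⁻¹ = low (-x) := by
  rw [inv_eq_iff_mul_eq_one]
  ext i j
  fin_cases i <;> fin_cases j <;> simp [low, Matrix.mul_apply, Fin.sum_univ_two]

theorem HKX_cont (m₀ : Matrix (Fin 2) (Fin 2) k) :
    Continuous fun g : SL2 k => mnm ((g : Matrix (Fin 2) (Fin 2) k) - m₀) := by
  have h1 : ∀ i j, Continuous fun g : SL2 k => (g : Matrix (Fin 2) (Fin 2) k) i j := by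
    intro i j
    have h1 : Continuous fun g : SL2 k => (g : Matrix (Fin 2) (Fin 2) k) :=
      continuous_subtype_val
    exact (continuous_apply j).comp ((continuous_apply i).comp h1)
  have h2 : ∀ i j, Continuous fun g : SL2 k =>
      ‖((g : Matrix (Fin 2) (Fin 2) k) - m₀) i j‖ := fun i j => by
    simp only [Matrix.sub_apply]
    exact ((h1 i j).sub continuous_const).norm
  unfold mnm
  exact ((h2 0 0).max (h2 0 1)).max ((h2 1 0).max (h2 1 1))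

theorem HKX_cont_dnm : Continuous fun g : SL2 k => dnm g := HKX_cont 1

theorem HKX_cont_nm : Continuous fun g : SL2 k => nm g := by
  have h := HKX_cont (0 : Matrix (Fin 2) (Fin 2) k)
  simp only [sub_zero] at h
  exact h

/-- the function of the average -/
def HKX_phi (e : ℕ) (g : SL2 k) : ℝ≥0∞ := ENNReal.ofReal ((nm g ^ e)⁻¹)

theorem HKX_phi_le {e : ℕ} {g : SL2 k} {r : ℝ} (hr : 0 < r) (h : r ≤ nm g) :
    HKX_phi e g ≤ ENNReal.ofReal ((r ^ e)⁻¹) := by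
  unfold HKX_phi
  apply ENNReal.ofReal_le_ofReal
  apply inv_anti₀ (by positivity)
  exact pow_le_pow_left₀ hr.le h e

theorem HKX_phi_U (e : ℕ) (g s : SL2 k) (hs : dnm s ≤ 1 / 2) :
    HKX_phi e (g * s) ≤ ENNReal.ofReal (3 ^ e) * HKX_phi e g := by
  have h1 : nm g ≤ 3 * nm (g * s) := by
    have h2 := nm_mul_le2 (g * s) s⁻¹
    rw [mul_inv_cancel_right, nm_inv] at h2
    have h3 := HKX_nm_U hs
    have h4 := nm_nonneg (g * s)
    nlinarith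
  unfold HKX_phi
  rw [← ENNReal.ofReal_mul (by positivity)]
  apply ENNReal.ofReal_le_ofReal
  have h5 := HKX_nm_pos g
  have h6 := HKX_nm_pos (g * s)
  rw [← div_eq_mul_inv, le_div_iff₀ (by positivity), inv_mul_le_iff₀ (by positivity),
    ← mul_pow, mul_comm (nm (g * s))]
  exact pow_le_pow_left₀ h5.le h1 e

theorem HKX_e0 (g : SL2 k) (x : k) (i : Fin 2) : ‖g i 0 + g i 1 * x‖ ≤ nm (g * low x) := by
  have h := le_mnm ((g * low x : SL2 k) : Matrix (Fin 2) (Fin 2) k) i 0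
  have h2 : ((g * low x : SL2 k) : Matrix (Fin 2) (Fin 2) k) i 0 = g i 0 + g i 1 * x := by
    rw [Matrix.SpecialLinearGroup.coe_mul, Matrix.mul_apply, Fin.sum_univ_two]
    simp [low]
  rw [h2] at h
  exact h

theorem HKX_e1 (g : SL2 k) (x : k) (i : Fin 2) : ‖g i 1‖ ≤ nm (g * low x) := by
  have h := le_mnm ((g * low x : SL2 k) : Matrix (Fin 2) (Fin 2) k) i 1
  have h2 : ((g * low x : SL2 k) : Matrix (Fin 2) (Fin 2) k) i 1 = g i 1 := by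
    rw [Matrix.SpecialLinearGroup.coe_mul, Matrix.mul_apply, Fin.sum_univ_two]
    simp [low]
  rw [h2] at h
  exact h

theorem HKX_big (e : ℕ) (g : SL2 k) (i : Fin 2) (δ : ℝ) (hδ : 0 < δ) (h : δ ≤ ‖g i 1‖)
    (CB : ℝ) (Z : Finset k)
    (hB : ∀ s : k, ∑ z ∈ Z, ((max 1 ‖z + s‖) ^ e)⁻¹ ≤ CB) :
    ∑ z ∈ Z, (HKX_phi e (g * low z) + HKX_phi e (g * low (-z))) ≤
      ENNReal.ofReal (2 * CB * (δ ^ e)⁻¹) := by
  have hg : 0 < ‖g i 1‖ := lt_of_lt_of_le hδ h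
  have hg0 : g i 1 ≠ 0 := norm_pos_iff.1 hg
  have key : ∀ (x y s : k), ‖g i 0 + g i 1 * x‖ = ‖g i 1‖ * ‖y + s‖ →
      HKX_phi e (g * low x) ≤ ENNReal.ofReal (((max 1 ‖y + s‖) ^ e)⁻¹ * (δ ^ e)⁻¹) := by
    intro x y s hx
    have h1 : δ * max 1 ‖y + s‖ ≤ nm (g * low x) := by
      rw [mul_max_of_nonneg _ _ hδ.le, mul_one]
      refine max_le (h.trans (HKX_e1 g x i)) ?_
      refine le_trans ?_ (HKX_e0 g x i)
      rw [hx]
      exact mul_le_mul_of_nonneg_right h (norm_nonneg _)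
    have h2 := HKX_phi_le (e := e) (by positivity : 0 < δ * max 1 ‖y + s‖) h1
    rw [mul_pow, mul_inv, mul_comm] at h2
    exact h2
  have h1 : ∀ z ∈ Z, HKX_phi e (g * low z) + HKX_phi e (g * low (-z)) ≤
      ENNReal.ofReal (((max 1 ‖z + g i 0 / g i 1‖) ^ e)⁻¹ * (δ ^ e)⁻¹ +
        ((max 1 ‖z + -(g i 0 / g i 1)‖) ^ e)⁻¹ * (δ ^ e)⁻¹) := by
    intro z _
    rw [ENNReal.ofReal_add (by positivity) (by positivity)]
    refine add_le_add (key z z _ ?_) (key (-z) z _ ?_)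
    · rw [← norm_mul]
      congr 1
      field_simp
      ring
    · rw [← norm_mul, ← norm_neg (g i 0 + g i 1 * -z)]
      congr 1
      field_simp
      ring
  refine (Finset.sum_le_sum h1).trans ?_
  rw [← ENNReal.ofReal_sum_of_nonneg (fun z _ => by positivity)]
  apply ENNReal.ofReal_le_ofReal
  rw [Finset.sum_add_distrib, ← Finset.sum_mul, ← Finset.sum_mul, ← add_mul]
  apply mul_le_mul_of_nonneg_right _ (by positivity)
  have h2 := hB (g i 0 / g i 1)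
  have h3 := hB (-(g i 0 / g i 1))
  linarith

theorem HKX_mul1 (z s : SL2 k) (i : Fin 2) :
    (z * s) i 1 = z i 0 * s 0 1 + z i 1 * s 1 1 := by
  have h : ((z * s : SL2 k) : Matrix (Fin 2) (Fin 2) k) i 1 =
      ((z : Matrix (Fin 2) (Fin 2) k) * (s : Matrix (Fin 2) (Fin 2) k)) i 1 := by
    rw [Matrix.SpecialLinearGroup.coe_mul]
  rw [Matrix.mul_apply, Fin.sum_univ_two] at h
  exact h

theorem HKX_rowlow (z₀ s : SL2 k) (hs : dnm s ≤ 1 / 2) (i : Fin 2)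
    (hi : max ‖z₀ i 0‖ ‖z₀ i 1‖ = nm z₀) :
    nm z₀ ≤ 3 * max ‖(z₀ * s) i 0‖ ‖(z₀ * s) i 1‖ ∧ ‖(z₀ * s) i 1‖ ≤ 3 * nm z₀ := by
  have hs' := HKX_nm_U hs
  have hs2 : nm s⁻¹ ≤ 3 / 2 := by rw [nm_inv]; exact hs'
  constructor
  · have h1 : ∀ j, ‖z₀ i j‖ ≤ 3 * max ‖(z₀ * s) i 0‖ ‖(z₀ * s) i 1‖ := by
      intro j
      have h2 : z₀ i j = (z₀ * s) i 0 * s⁻¹ 0 j + (z₀ * s) i 1 * s⁻¹ 1 j := by
        have h3 : z₀ = (z₀ * s) * s⁻¹ := by group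
        have h4 : (z₀ : Matrix (Fin 2) (Fin 2) k) i j =
            (((z₀ * s) * s⁻¹ : SL2 k) : Matrix (Fin 2) (Fin 2) k) i j := by rw [← h3]
        rw [Matrix.SpecialLinearGroup.coe_mul, Matrix.mul_apply, Fin.sum_univ_two] at h4
        exact h4
      have h5 : ∀ l, ‖s⁻¹ l j‖ ≤ 3 / 2 := fun l =>
        (le_mnm ((s⁻¹ : SL2 k) : Matrix (Fin 2) (Fin 2) k) l j).trans hs2
      have h6 := le_max_left ‖(z₀ * s) i 0‖ ‖(z₀ * s) i 1‖
      have h7 := le_max_right ‖(z₀ * s) i 0‖ ‖(z₀ * s) i 1‖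
      calc ‖z₀ i j‖ = ‖(z₀ * s) i 0 * s⁻¹ 0 j + (z₀ * s) i 1 * s⁻¹ 1 j‖ := by rw [← h2]
        _ ≤ ‖(z₀ * s) i 0‖ * ‖s⁻¹ 0 j‖ + ‖(z₀ * s) i 1‖ * ‖s⁻¹ 1 j‖ := by
            rw [← norm_mul, ← norm_mul]
            exact norm_add_le _ _
        _ ≤ max ‖(z₀ * s) i 0‖ ‖(z₀ * s) i 1‖ * (3 / 2) +
            max ‖(z₀ * s) i 0‖ ‖(z₀ * s) i 1‖ * (3 / 2) :=
            add_le_add (mul_le_mul h6 (h5 0) (norm_nonneg _) (le_trans (norm_nonneg _) h6))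
              (mul_le_mul h7 (h5 1) (norm_nonneg _) (le_trans (norm_nonneg _) h6))
        _ = _ := by ring
    rw [← hi]
    exact max_le (h1 0) (h1 1)
  · have h2 := HKX_mul1 z₀ s i
    have h5 : ∀ l, ‖s l 1‖ ≤ 3 / 2 := fun l =>
      (le_mnm (s : Matrix (Fin 2) (Fin 2) k) l 1).trans hs'
    have h6 : ‖z₀ i 0‖ ≤ nm z₀ := hi ▸ le_max_left _ _
    have h7 : ‖z₀ i 1‖ ≤ nm z₀ := hi ▸ le_max_right _ _
    have h8 := nm_nonneg z₀
    calc ‖(z₀ * s) i 1‖ = ‖z₀ i 0 * s 0 1 + z₀ i 1 * s 1 1‖ := by rw [h2]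
      _ ≤ ‖z₀ i 0‖ * ‖s 0 1‖ + ‖z₀ i 1‖ * ‖s 1 1‖ := by
          rw [← norm_mul, ← norm_mul]
          exact norm_add_le _ _
      _ ≤ nm z₀ * (3 / 2) + nm z₀ * (3 / 2) :=
          add_le_add (mul_le_mul h6 (h5 0) (norm_nonneg _) h8)
            (mul_le_mul h7 (h5 1) (norm_nonneg _) h8)
      _ = _ := by ring

theorem HKX_small (e : ℕ) (z₀ s : SL2 k) (hs : dnm s ≤ 1 / 2) (i : Fin 2)
    (hi : max ‖z₀ i 0‖ ‖z₀ i 1‖ = nm z₀) (R : ℝ) (hR : 1 ≤ R)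
    (h : ‖(z₀ * s) i 1‖ ≤ nm z₀ / (16 * R)) (x : k) (hx : ‖x‖ ≤ R) :
    HKX_phi e (z₀ * s * low x) ≤ ENNReal.ofReal (((nm z₀ / 8) ^ e)⁻¹) := by
  have hp := HKX_nm_pos z₀
  apply HKX_phi_le (by positivity)
  refine le_trans ?_ (HKX_e0 (z₀ * s) x i)
  obtain ⟨h1, -⟩ := HKX_rowlow z₀ s hs i hi
  have h2 : ‖(z₀ * s) i 1‖ * ‖x‖ ≤ nm z₀ / 16 := by
    calc ‖(z₀ * s) i 1‖ * ‖x‖ ≤ nm z₀ / (16 * R) * R :=
          mul_le_mul h hx (norm_nonneg _) (by positivity)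
      _ = nm z₀ / 16 := by field_simp
  have h3 : ‖(z₀ * s) i 1‖ ≤ nm z₀ / 16 := by
    refine h.trans ?_
    apply div_le_div_of_nonneg_left hp.le (by norm_num)
    linarith
  have h4 : nm z₀ / 3 ≤ ‖(z₀ * s) i 0‖ := by
    rcases le_total ‖(z₀ * s) i 0‖ ‖(z₀ * s) i 1‖ with h5 | h5
    · rw [max_eq_right h5] at h1
      linarith
    · rw [max_eq_left h5] at h1
      linarith
  have h5 := norm_sub_norm_le ((z₀ * s) i 0) (-((z₀ * s) i 1 * x))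
  rw [sub_neg_eq_add, norm_neg, norm_mul] at h5
  linarith

/-- the shells -/
theorem HKX_shell (t m : ℝ) (J : ℕ) (h : t ≤ 4 * m) :
    t ≤ 4 / 2 ^ J * m ∨ ∃ j ∈ Finset.range J, t ≤ 4 / 2 ^ j * m ∧ 2 / 2 ^ j * m < t := by
  induction J with
  | zero => left; simpa using h
  | succ J ih =>
    rcases ih with h1 | ⟨j, hj, h2⟩
    · rcases le_or_gt t (4 / 2 ^ (J + 1) * m) with h3 | h3
      · exact Or.inl h3
      · refine Or.inr ⟨J, Finset.mem_range.2 (Nat.lt_succ_self J), h1, ?_⟩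
        have h4 : (4 : ℝ) / 2 ^ (J + 1) = 2 / 2 ^ J := by
          rw [pow_succ]
          field_simp
          norm_num
        rw [h4] at h3
        exact h3
    · exact Or.inr ⟨j, Finset.mem_range.2 (lt_trans (Finset.mem_range.1 hj)
        (Nat.lt_succ_self J)), h2⟩

/-- the sets of HKA -/
def HKX_E (c d : k) (η : ℝ) : Set (SL2 k) :=
  {s : SL2 k | dnm s ≤ 1 / 2 ∧ ‖c * s 0 1 + d * s 1 1‖ ≤ η * max ‖c‖ ‖d‖}

theorem HKX_point (e n : ℕ) (z₀ s : SL2 k) (hs : dnm s ≤ 1 / 2) (i : Fin 2)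
    (hi : max ‖z₀ i 0‖ ‖z₀ i 1‖ = nm z₀) (CB : ℝ) (Z : Finset k)
    (hZ : ∀ z ∈ Z, ‖z‖ ≤ 2 ^ n) (hB : ∀ s : k, ∑ z ∈ Z, ((max 1 ‖z + s‖) ^ e)⁻¹ ≤ CB) :
    ∑ z ∈ Z, (HKX_phi e (z₀ * s * low z) + HKX_phi e (z₀ * s * low (-z))) ≤
      ∑ j ∈ Finset.range (n + 6), ENNReal.ofReal (2 * CB * (((2 / 2 ^ j * nm z₀) ^ e)⁻¹)) *
        (HKX_E (z₀ i 0) (z₀ i 1) (4 / 2 ^ j)).indicator 1 s +
      ENNReal.ofReal (2 * Z.card * ((nm z₀ / 8) ^ e)⁻¹) *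
        (HKX_E (z₀ i 0) (z₀ i 1) (4 / 2 ^ (n + 6))).indicator 1 s := by
  have hp := HKX_nm_pos z₀
  have hd := HKX_mul1 z₀ s i
  obtain ⟨-, h3⟩ := HKX_rowlow z₀ s hs i hi
  rcases HKX_shell ‖(z₀ * s) i 1‖ (nm z₀) (n + 6) (by linarith) with h | ⟨j, hj, h, h'⟩
  · refine le_trans ?_ (self_le_add_left _ _)
    have hmem : s ∈ HKX_E (z₀ i 0) (z₀ i 1) (4 / 2 ^ (n + 6)) := by
      refine ⟨hs, ?_⟩
      rw [← hd, hi]
      exact h
    rw [Set.indicator_of_mem hmem, Pi.one_apply, mul_one]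
    have h5 : ‖(z₀ * s) i 1‖ ≤ nm z₀ / (16 * 2 ^ n) := by
      refine h.trans (le_of_eq ?_)
      rw [pow_add]
      field_simp
      norm_num
    have hR : (1 : ℝ) ≤ 2 ^ n := one_le_pow₀ (by norm_num)
    have h6 : ∀ z ∈ Z, HKX_phi e (z₀ * s * low z) + HKX_phi e (z₀ * s * low (-z)) ≤
        ENNReal.ofReal (2 * ((nm z₀ / 8) ^ e)⁻¹) := by
      intro z hz
      rw [two_mul, ENNReal.ofReal_add (by positivity) (by positivity)]
      refine add_le_add (HKX_small e z₀ s hs i hi _ hR h5 z (hZ z hz))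
        (HKX_small e z₀ s hs i hi _ hR h5 (-z) ?_)
      rw [norm_neg]
      exact hZ z hz
    refine (Finset.sum_le_sum h6).trans ?_
    rw [Finset.sum_const, nsmul_eq_mul, ← ENNReal.ofReal_natCast,
      ← ENNReal.ofReal_mul (by positivity)]
    apply ENNReal.ofReal_le_ofReal
    apply le_of_eq
    ring
  · refine le_trans ?_ (self_le_add_right _ _)
    have hmem : s ∈ HKX_E (z₀ i 0) (z₀ i 1) (4 / 2 ^ j) := by
      refine ⟨hs, ?_⟩
      rw [← hd, hi]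
      exact h
    refine le_trans ?_ (Finset.single_le_sum (f := fun j =>
      ENNReal.ofReal (2 * CB * (((2 / 2 ^ j * nm z₀) ^ e)⁻¹)) *
        (HKX_E (z₀ i 0) (z₀ i 1) (4 / 2 ^ j)).indicator 1 s) (fun _ _ => zero_le) hj)
    rw [Set.indicator_of_mem hmem, Pi.one_apply, mul_one]
    exact HKX_big e (z₀ * s) i _ (by positivity) h'.le CB Z hB

theorem HKX_cont_entry (i j : Fin 2) : Continuous fun g : SL2 k => g i j := by
  have h1 : Continuous fun g : SL2 k => (g : Matrix (Fin 2) (Fin 2) k) :=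
    continuous_subtype_val
  exact (continuous_apply j).comp ((continuous_apply i).comp h1)

theorem HKX_E_meas (c d : k) (η : ℝ) : MeasurableSet (HKX_E c d η) := by
  have h1 : IsClosed {s : SL2 k | dnm s ≤ 1 / 2} := isClosed_le HKX_cont_dnm continuous_const
  have h2 : IsClosed {s : SL2 k | ‖c * s 0 1 + d * s 1 1‖ ≤ η * max ‖c‖ ‖d‖} :=
    isClosed_le ((continuous_const.mul (HKX_cont_entry 0 1)).add
      (continuous_const.mul (HKX_cont_entry 1 1))).norm continuous_const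
  exact (h1.inter h2).measurableSet

/-- the indicator function of `U` -/
def HKX_u (s : SL2 k) : ℝ≥0∞ := ({s : SL2 k | dnm s ≤ 1 / 2}).indicator 1 s

theorem HKX_u_of {s : SL2 k} (h : dnm s ≤ 1 / 2) : HKX_u s = 1 := by
  unfold HKX_u
  rw [Set.indicator_of_mem (show s ∈ {s : SL2 k | dnm s ≤ 1 / 2} from h), Pi.one_apply]

theorem HKX_u_not {s : SL2 k} (h : ¬ dnm s ≤ 1 / 2) : HKX_u s = 0 := by
  unfold HKX_u
  exact Set.indicator_of_notMem (show s ∉ {s : SL2 k | dnm s ≤ 1 / 2} from h) _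

theorem HKX_u_inv (s : SL2 k) : HKX_u s⁻¹ = HKX_u s := by
  by_cases h : dnm s ≤ 1 / 2
  · rw [HKX_u_of h, HKX_u_of (by rw [dnm_inv]; exact h)]
  · rw [HKX_u_not h, HKX_u_not (by rw [dnm_inv]; exact h)]

theorem HKX_U_meas : MeasurableSet {s : SL2 k | dnm s ≤ 1 / 2} :=
  (isClosed_le HKX_cont_dnm continuous_const).measurableSet

theorem HKX_u_meas : Measurable (HKX_u (k := k)) :=
  measurable_one.indicator HKX_U_meas

theorem HKX_phi_meas (e : ℕ) : Measurable (HKX_phi (k := k) e) :=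
  ENNReal.measurable_ofReal.comp ((HKX_cont_nm.measurable.pow_const e).inv)

end mats

section final

variable {k : Type} [NormedField k] [ProperSpace k]

omit [ProperSpace k] in
theorem HKX_one [SecondCountableTopology (SL2 k)] (μ : Measure (SL2 k)) [SFinite μ]
    [μ.IsMulLeftInvariant] (e : ℕ) (z₀ w : SL2 k) :
    ∫⁻ g, HKX_phi e (z₀ * g) * HKX_A μ HKX_u w g ∂μ ≤
      ((∫⁻ t, HKX_u t ∂μ) * ENNReal.ofReal (3 ^ e)) *
        ∫⁻ s, HKX_u s * HKX_phi e (z₀ * s * w) ∂μ := by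
  rw [HKX_A_int μ HKX_u HKX_u_meas (fun g => HKX_phi e (z₀ * g))
    ((HKX_phi_meas e).comp (measurable_const_mul z₀))]
  have h1 : ∀ s, HKX_u s * ∫⁻ t, HKX_u t * HKX_phi e (z₀ * (s * w * t)) ∂μ ≤
      ((∫⁻ t, HKX_u t ∂μ) * ENNReal.ofReal (3 ^ e)) * (HKX_u s * HKX_phi e (z₀ * s * w)) := by
    intro s
    have h2 : ∫⁻ t, HKX_u t * HKX_phi e (z₀ * (s * w * t)) ∂μ ≤
        ∫⁻ t, HKX_u t * (ENNReal.ofReal (3 ^ e) * HKX_phi e (z₀ * s * w)) ∂μ := by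
      apply lintegral_mono
      intro t
      beta_reduce
      by_cases ht : dnm t ≤ 1 / 2
      · rw [HKX_u_of ht, one_mul, one_mul]
        have h3 : z₀ * (s * w * t) = z₀ * s * w * t := by group
        rw [h3]
        exact HKX_phi_U e _ t ht
      · rw [HKX_u_not ht, zero_mul, zero_mul]
    rw [lintegral_mul_const _ HKX_u_meas] at h2
    calc _ ≤ HKX_u s * ((∫⁻ t, HKX_u t ∂μ) *
          (ENNReal.ofReal (3 ^ e) * HKX_phi e (z₀ * s * w))) := by gcongr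
      _ = _ := by ring
  refine (lintegral_mono h1).trans (le_of_eq ?_)
  rw [lintegral_const_mul]
  exact HKX_u_meas.mul ((HKX_phi_meas e).comp ((measurable_const_mul z₀).mul_const w))

omit [ProperSpace k] in
theorem HKX_sum [SecondCountableTopology (SL2 k)] (μ : Measure (SL2 k)) (e n : ℕ) (z₀ : SL2 k)
    (i : Fin 2) (hi : max ‖z₀ i 0‖ ‖z₀ i 1‖ = nm z₀) (CA CB : ℝ)
    (hA : ∀ (c d : k) (η : ℝ), 0 < η → 0 < max ‖c‖ ‖d‖ →
      μ {s : SL2 k | dnm s ≤ 1 / 2 ∧ ‖c * s 0 1 + d * s 1 1‖ ≤ η * max ‖c‖ ‖d‖} ≤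
        ENNReal.ofReal (CA * η ^ e)) (Z : Finset k)
    (hZ : ∀ z ∈ Z, ‖z‖ ≤ 2 ^ n) (hB : ∀ s : k, ∑ z ∈ Z, ((max 1 ‖z + s‖) ^ e)⁻¹ ≤ CB) :
    ∑ z ∈ Z, (∫⁻ s, HKX_u s * HKX_phi e (z₀ * s * low z) ∂μ +
      ∫⁻ s, HKX_u s * HKX_phi e (z₀ * s * low (-z)) ∂μ) ≤
      ∑ j ∈ Finset.range (n + 6), ENNReal.ofReal (2 * CB * (((2 / 2 ^ j * nm z₀) ^ e)⁻¹)) *
        ENNReal.ofReal (CA * (4 / 2 ^ j) ^ e) +
      ENNReal.ofReal (2 * Z.card * ((nm z₀ / 8) ^ e)⁻¹) *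
        ENNReal.ofReal (CA * (4 / 2 ^ (n + 6)) ^ e) := by
  have hm : ∀ w : SL2 k, Measurable fun s : SL2 k => HKX_u s * HKX_phi e (z₀ * s * w) := fun w =>
    HKX_u_meas.mul ((HKX_phi_meas e).comp ((measurable_const_mul z₀).mul_const w))
  have h1 : ∑ z ∈ Z, (∫⁻ s, HKX_u s * HKX_phi e (z₀ * s * low z) ∂μ +
      ∫⁻ s, HKX_u s * HKX_phi e (z₀ * s * low (-z)) ∂μ) =
      ∫⁻ s, ∑ z ∈ Z, (HKX_u s * HKX_phi e (z₀ * s * low z) +
        HKX_u s * HKX_phi e (z₀ * s * low (-z))) ∂μ := by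
    have hadd : ∀ z ∈ Z, Measurable fun s : SL2 k => HKX_u s * HKX_phi e (z₀ * s * low z) +
        HKX_u s * HKX_phi e (z₀ * s * low (-z)) := fun z _ =>
      (hm (low z)).add (hm (low (-z)))
    rw [lintegral_finsetSum _ hadd]
    apply Finset.sum_congr rfl
    intro z _
    rw [lintegral_add_left (hm (low z))]
  rw [h1]
  have h2 : ∀ s : SL2 k, ∑ z ∈ Z, (HKX_u s * HKX_phi e (z₀ * s * low z) +
        HKX_u s * HKX_phi e (z₀ * s * low (-z))) ≤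
      ∑ j ∈ Finset.range (n + 6), ENNReal.ofReal (2 * CB * (((2 / 2 ^ j * nm z₀) ^ e)⁻¹)) *
        (HKX_E (z₀ i 0) (z₀ i 1) (4 / 2 ^ j)).indicator 1 s +
      ENNReal.ofReal (2 * Z.card * ((nm z₀ / 8) ^ e)⁻¹) *
        (HKX_E (z₀ i 0) (z₀ i 1) (4 / 2 ^ (n + 6))).indicator 1 s := by
    intro s
    by_cases hs : dnm s ≤ 1 / 2
    · rw [HKX_u_of hs]
      simp only [one_mul]
      exact HKX_point e n z₀ s hs i hi CB Z hZ hB
    · rw [HKX_u_not hs]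
      simp
  refine (lintegral_mono h2).trans ?_
  have hE : ∀ η : ℝ, Measurable fun s : SL2 k =>
      (HKX_E (z₀ i 0) (z₀ i 1) η).indicator (1 : SL2 k → ℝ≥0∞) s := fun η =>
    measurable_one.indicator (HKX_E_meas _ _ _)
  have hI : ∀ η : ℝ, 0 < η → ∫⁻ s, (HKX_E (z₀ i 0) (z₀ i 1) η).indicator (1 : SL2 k → ℝ≥0∞) s ∂μ
      ≤ ENNReal.ofReal (CA * η ^ e) := fun η hη => by
    rw [lintegral_indicator_one (HKX_E_meas _ _ _)]
    exact hA _ _ η hη (by rw [hi]; exact HKX_nm_pos z₀)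
  rw [lintegral_add_right _ ((hE _).const_mul _), lintegral_const_mul _ (hE _),
    lintegral_finsetSum _ (fun j _ => (hE _).const_mul _)]
  refine add_le_add (Finset.sum_le_sum fun j _ => ?_) ?_
  · rw [lintegral_const_mul _ (hE _)]
    have := hI (4 / 2 ^ j) (by positivity)
    gcongr
  · have := hI (4 / 2 ^ (n + 6)) (by positivity)
    gcongr

omit [ProperSpace k] in
theorem HKX_supp (μ : Measure (SL2 k)) (w g : SL2 k) (R : ℝ) (hw : nm w ≤ R)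
    (h : HKX_A μ HKX_u w g ≠ 0) : nm g ≤ 9 * R := by
  by_contra hcon
  apply h
  unfold HKX_A
  have h1 : ∀ s, HKX_u s * HKX_u ((s * w)⁻¹ * g) = 0 := by
    intro s
    by_cases hs : dnm s ≤ 1 / 2
    · by_cases ht : dnm ((s * w)⁻¹ * g) ≤ 1 / 2
      · exfalso
        apply hcon
        have h2 := nm_mul_le2 (s * w) ((s * w)⁻¹ * g)
        rw [mul_inv_cancel_left] at h2
        have h3 := nm_mul_le2 s w
        have h4 := HKX_nm_U hs
        have h5 := HKX_nm_U ht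
        have h6 := nm_nonneg s
        have h7 := nm_nonneg w
        have h8 := nm_nonneg ((s * w)⁻¹ * g)
        have h9 : nm s * nm w ≤ 3 / 2 * R := mul_le_mul h4 hw h7 (by norm_num)
        have h10 : nm (s * w) ≤ 3 * R := by linarith
        have h11 : nm (s * w) * nm ((s * w)⁻¹ * g) ≤ 3 * R * (3 / 2) :=
          mul_le_mul h10 h5 h8 (by linarith)
        linarith
      · rw [HKX_u_not ht, mul_zero]
    · rw [HKX_u_not hs, zero_mul]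
  simp only [h1, lintegral_zero]

theorem HKX_num (K : ℝ) (e : ℕ) (he : 1 ≤ e) : ∃ n : ℕ,
    (2 * (K * ((n : ℝ) + 1) ^ 2 / (2 ^ n) ^ e)) ^ 44 * (2 ^ e * (9 * 2 ^ n) ^ e) ^ 43 ≤ 1 := by
  have h1 := tendsto_pow_const_div_const_pow_of_one_lt 88 (show (1 : ℝ) < 2 by norm_num)
  have h2 := (Filter.tendsto_add_atTop_iff_nat 1).2 h1
  have h3 := h2.const_mul (2 * ((2 * K) ^ 44 * (2 ^ e * 9 ^ e) ^ 43))
  rw [mul_zero] at h3
  obtain ⟨n, hn⟩ := (h3.eventually (gt_mem_nhds zero_lt_one)).exists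
  refine ⟨n, ?_⟩
  have hQ : (0 : ℝ) < (2 ^ n) ^ e := by positivity
  have h4 : (2 * (K * ((n : ℝ) + 1) ^ 2 / (2 ^ n) ^ e)) ^ 44 * (2 ^ e * (9 * 2 ^ n) ^ e) ^ 43 =
      (2 * K) ^ 44 * (2 ^ e * 9 ^ e) ^ 43 * ((n : ℝ) + 1) ^ 88 / (2 ^ n) ^ e := by
    rw [mul_pow 9 (2 ^ n) e]
    generalize ((2 : ℝ) ^ n) ^ e = Q at *
    field_simp
  have h5 : (2 : ℝ) ^ n ≤ (2 ^ n) ^ e :=
    le_self_pow₀ (one_le_pow₀ (by norm_num)) (by omega)
  rw [h4]
  have hK : 0 ≤ (2 * K) ^ 44 * (2 ^ e * 9 ^ e) ^ 43 * ((n : ℝ) + 1) ^ 88 := by positivity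
  refine (div_le_div_of_nonneg_left hK (by positivity) h5).trans ?_
  refine le_trans (le_of_eq ?_) hn.le
  push_cast
  rw [pow_succ (2 : ℝ) n]
  field_simp

theorem HKX_real (e n N : ℕ) (Mr CA CB LC m : ℝ) (hMr : 0 < Mr) (hCA : 0 < CA) (hCB : 0 < CB)
    (hLC : 1 ≤ LC) (hm : 0 < m) (hN : (2 ^ n : ℝ) ^ e ≤ LC * N) :
    (2 * N * Mr ^ 2)⁻¹ * ((Mr * 3 ^ e) * (∑ j ∈ Finset.range (n + 6),
      (2 * (CB * (1 + Real.log (2 ^ n))) * (((2 / 2 ^ j * m) ^ e)⁻¹)) * (CA * (4 / 2 ^ j) ^ e) +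
      (2 * N * ((m / 8) ^ e)⁻¹) * (CA * (4 / 2 ^ (n + 6)) ^ e))) ≤
    (3 ^ e * CA / Mr * (6 * 2 ^ e * CB * LC + 1)) * ((n : ℝ) + 1) ^ 2 / (2 ^ n) ^ e * (m ^ e)⁻¹ := by
  have hP : (0 : ℝ) < (2 ^ n) ^ e := by positivity
  have hT : 0 < (m ^ e)⁻¹ := by positivity
  have hN0 : (0 : ℝ) < N := by
    by_contra h
    push Not at h
    nlinarith
  have h4 : (4 : ℝ) ^ e = 2 ^ e * 2 ^ e := by rw [← mul_pow]; norm_num
  have h1 : ∀ j : ℕ, (2 * (CB * (1 + Real.log (2 ^ n))) * (((2 / 2 ^ j * m) ^ e)⁻¹)) *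
      (CA * (4 / 2 ^ j) ^ e) = 2 * (CB * (1 + Real.log (2 ^ n))) * CA * 2 ^ e * (m ^ e)⁻¹ := by
    intro j
    rw [mul_pow, div_pow, div_pow, h4]
    field_simp
  have h2 : (2 * (N : ℝ) * ((m / 8) ^ e)⁻¹) * (CA * (4 / 2 ^ (n + 6)) ^ e) ≤
      2 * N * CA * (m ^ e)⁻¹ / (2 ^ n) ^ e := by
    have h3 : (4 / 2 ^ (n + 6) : ℝ) ^ e = ((1 / 16) ^ e) / (2 ^ n) ^ e := by
      rw [← div_pow]
      congr 1
      rw [pow_add]
      field_simp
      norm_num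
    have h5 : (8 : ℝ) ^ e * (1 / 16) ^ e ≤ 1 := by
      rw [← mul_pow]
      exact pow_le_one₀ (by norm_num) (by norm_num)
    rw [h3, div_pow]
    have h6 : 2 * (N : ℝ) * (m ^ e / 8 ^ e)⁻¹ * (CA * ((1 / 16) ^ e / (2 ^ n) ^ e)) =
        (8 ^ e * (1 / 16) ^ e) * (2 * N * CA * (m ^ e)⁻¹ / (2 ^ n) ^ e) := by
      rw [inv_div]
      field_simp
    rw [h6]
    exact mul_le_of_le_one_left (by positivity) h5
  have hlog : Real.log (2 ^ n) ≤ n := by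
    rw [Real.log_pow]
    have h7 : Real.log 2 ≤ 1 := by
      have := Real.log_two_lt_d9
      linarith
    exact mul_le_of_le_one_right (Nat.cast_nonneg n) h7
  have hlog0 : 0 ≤ Real.log (2 ^ n) := Real.log_nonneg (one_le_pow₀ (by norm_num))
  have h8 : ∑ j ∈ Finset.range (n + 6),
      (2 * (CB * (1 + Real.log (2 ^ n))) * (((2 / 2 ^ j * m) ^ e)⁻¹)) * (CA * (4 / 2 ^ j) ^ e) ≤
      12 * CB * CA * 2 ^ e * ((n : ℝ) + 1) ^ 2 * (m ^ e)⁻¹ := by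
    simp_rw [h1]
    rw [Finset.sum_const, Finset.card_range, nsmul_eq_mul]
    push_cast
    have hn0 : (0 : ℝ) ≤ n := Nat.cast_nonneg n
    calc ((n : ℝ) + 6) * (2 * (CB * (1 + Real.log (2 ^ n))) * CA * 2 ^ e * (m ^ e)⁻¹)
        ≤ (6 * (n + 1)) * (2 * (CB * (1 + n)) * CA * 2 ^ e * (m ^ e)⁻¹) := by
          apply mul_le_mul
          · linarith
          · gcongr
          · positivity
          · positivity
      _ = _ := by ring
  have h9 : (2 * (N : ℝ) * Mr ^ 2)⁻¹ * ((Mr * 3 ^ e) *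
      (12 * CB * CA * 2 ^ e * ((n : ℝ) + 1) ^ 2 * (m ^ e)⁻¹ +
        2 * N * CA * (m ^ e)⁻¹ / (2 ^ n) ^ e)) =
      3 ^ e * CA / Mr * (m ^ e)⁻¹ * (6 * 2 ^ e * CB * ((n : ℝ) + 1) ^ 2 * (1 / N) +
        1 / (2 ^ n) ^ e) := by
    field_simp
    ring
  have h10 : 1 / (N : ℝ) ≤ LC / (2 ^ n) ^ e := by
    rw [div_le_div_iff₀ hN0 hP, one_mul]
    exact hN
  have h11 : (1 : ℝ) ≤ ((n : ℝ) + 1) ^ 2 := by
    have hn0 : (0 : ℝ) ≤ n := Nat.cast_nonneg n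
    nlinarith
  calc _ ≤ (2 * (N : ℝ) * Mr ^ 2)⁻¹ * ((Mr * 3 ^ e) *
      (12 * CB * CA * 2 ^ e * ((n : ℝ) + 1) ^ 2 * (m ^ e)⁻¹ +
        2 * N * CA * (m ^ e)⁻¹ / (2 ^ n) ^ e)) := by
        apply mul_le_mul_of_nonneg_left _ (by positivity)
        apply mul_le_mul_of_nonneg_left _ (by positivity)
        exact add_le_add h8 h2
    _ = 3 ^ e * CA / Mr * (m ^ e)⁻¹ * (6 * 2 ^ e * CB * ((n : ℝ) + 1) ^ 2 * (1 / N) +
        1 / (2 ^ n) ^ e) := h9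
    _ ≤ 3 ^ e * CA / Mr * (m ^ e)⁻¹ * (6 * 2 ^ e * CB * ((n : ℝ) + 1) ^ 2 * (LC / (2 ^ n) ^ e) +
        ((n : ℝ) + 1) ^ 2 / (2 ^ n) ^ e) := by
        apply mul_le_mul_of_nonneg_left _ (by positivity)
        apply add_le_add
        · exact mul_le_mul_of_nonneg_left h10 (by positivity)
        · exact div_le_div_of_nonneg_right h11 hP.le
    _ = _ := by ring

theorem p_HKX (hTP2 : Stmt_TP2) (hUN2 : Stmt_UN2) (hHKA : Stmt_HKA) (hHKB : Stmt_HKB) :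
    Stmt_HKX := by
  intro k _ _ L μ hμ
  obtain ⟨hLC, hSC, hT2, hcpt, -, hnbd⟩ := hTP2 k
  obtain ⟨hR, hI⟩ := hUN2.1 k L μ hμ
  obtain ⟨CA, hCA, hA⟩ := hHKA k L μ hμ
  obtain ⟨CB, hCB, hB⟩ := hHKB k L
  have he1 : 1 ≤ L.e := by
    rcases L.he with h | h <;> omega
  have hMe : ∫⁻ t, HKX_u t ∂μ = μ {s : SL2 k | dnm s ≤ 1 / 2} :=
    lintegral_indicator_one HKX_U_meas
  obtain ⟨M, hM⟩ : ∃ M, M = ∫⁻ t, HKX_u t ∂μ := ⟨_, rfl⟩
  have hM0 : M ≠ 0 := by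
    rw [hM, hMe]
    exact (MeasureTheory.Measure.measure_pos_of_mem_nhds μ (hnbd (1 / 2) (by norm_num))).ne'
  have hMt : M ≠ ∞ := by
    rw [hM, hMe]
    refine ne_top_of_le_ne_top (hcpt (3 / 2)).measure_lt_top.ne (measure_mono ?_)
    intro s hs
    exact HKX_nm_U hs
  have hMr : 0 < M.toReal := ENNReal.toReal_pos hM0 hMt
  have hMM : M = ENNReal.ofReal M.toReal := (ENNReal.ofReal_toReal hMt).symm
  obtain ⟨Mr, hMr'⟩ : ∃ Mr, Mr = M.toReal := ⟨_, rfl⟩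
  rw [← hMr'] at hMr hMM
  obtain ⟨n, hn⟩ := HKX_num (3 ^ L.e * CA / Mr * (6 * 2 ^ L.e * CB * L.C + 1)) L.e he1
  have hR0 : (1 : ℝ) ≤ 2 ^ n := one_le_pow₀ (by norm_num)
  have hp2 : (0 : ℝ) < 2 ^ n := pow_pos two_pos n
  obtain ⟨Z, hZ1, hZ2, hZ3⟩ := L.sep_ge (2 ^ n) hR0
  have hP : (0 : ℝ) < (2 ^ n) ^ L.e := pow_pos hp2 _
  have hN0 : (0 : ℝ) < Z.card := by
    have h1 := L.one_le
    by_contra h
    push Not at h
    nlinarith
  have hLC1 := L.one_le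
  have hk0 : 0 < (2 * (Z.card : ℝ) * Mr ^ 2)⁻¹ :=
    inv_pos.2 (mul_pos (mul_pos two_pos hN0) (pow_pos hMr 2))
  have hlow : ∀ z ∈ Z, nm (low z) ≤ 2 ^ n ∧ nm (low (-z)) ≤ 2 ^ n := fun z hz =>
    ⟨HKX_nm_low hR0 (hZ1 z hz), HKX_nm_low hR0 (by rw [norm_neg]; exact hZ1 z hz)⟩
  have hAm : ∀ w : SL2 k, Measurable (HKX_A μ HKX_u w) := fun w =>
    HKX_A_meas μ HKX_u HKX_u_meas w
  have hAM : ∀ w : SL2 k, ∀ g, HKX_A μ HKX_u w g ≤ M := by
    intro w g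
    rw [hM]
    unfold HKX_A
    apply lintegral_mono
    intro s
    have h1 : HKX_u ((s * w)⁻¹ * g) ≤ 1 := by
      by_cases ht : dnm ((s * w)⁻¹ * g) ≤ 1 / 2
      · rw [HKX_u_of ht]
      · rw [HKX_u_not ht]
        exact zero_le_one
    calc HKX_u s * HKX_u ((s * w)⁻¹ * g) ≤ HKX_u s * 1 := by gcongr
      _ = HKX_u s := mul_one _
  have hAI : ∀ w : SL2 k, ∫⁻ g, HKX_A μ HKX_u w g ∂μ = M * M := by
    intro w
    have h1 := HKX_A_int μ HKX_u HKX_u_meas (fun _ : SL2 k => (1 : ℝ≥0∞)) measurable_const w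
    simp only [one_mul, mul_one] at h1
    rw [h1, ← hM, lintegral_mul_const _ HKX_u_meas, ← hM]
  refine ⟨fun g => ENNReal.ofReal ((2 * (Z.card : ℝ) * Mr ^ 2)⁻¹) *
    ∑ z ∈ Z, (HKX_A μ HKX_u (low z) g + HKX_A μ HKX_u (low (-z)) g), (9 * 2 ^ n) ^ L.e,
    3 ^ L.e * CA / Mr * (6 * 2 ^ L.e * CB * L.C + 1) * ((n : ℝ) + 1) ^ 2 / (2 ^ n) ^ L.e, ?_⟩
  refine ⟨?_, ?_, ?_, ?_, ?_, ?_, ?_, ?_, hn⟩
  · have h2 : ∀ z ∈ Z, Measurable fun g => HKX_A μ HKX_u (low z) g +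
        HKX_A μ HKX_u (low (-z)) g := fun z _ => (hAm _).add (hAm _)
    exact (Finset.measurable_fun_sum Z h2).const_mul _
  · intro u
    congr 1
    apply Finset.sum_congr rfl
    intro z _
    rw [HKX_A_inv μ HKX_u HKX_u_inv, HKX_A_inv μ HKX_u HKX_u_inv, HKX_low_inv, HKX_low_inv,
      neg_neg, add_comm]
  · have h2 : ∀ z ∈ Z, Measurable fun g => HKX_A μ HKX_u (low z) g +
        HKX_A μ HKX_u (low (-z)) g := fun z _ => (hAm _).add (hAm _)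
    rw [lintegral_const_mul _ (Finset.measurable_fun_sum Z h2), lintegral_finsetSum Z h2]
    have h1 : ∀ z ∈ Z, ∫⁻ g, (HKX_A μ HKX_u (low z) g + HKX_A μ HKX_u (low (-z)) g) ∂μ =
        ENNReal.ofReal (2 * Mr ^ 2) := by
      intro z _
      rw [lintegral_add_left (hAm _), hAI, hAI, hMM, ← ENNReal.ofReal_mul hMr.le,
        ← ENNReal.ofReal_add (by positivity) (by positivity)]
      congr 1
      ring
    rw [Finset.sum_congr rfl h1, Finset.sum_const, nsmul_eq_mul, ← ENNReal.ofReal_natCast,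
      ← ENNReal.ofReal_mul (Nat.cast_nonneg _), ← ENNReal.ofReal_mul hk0.le]
    rw [show (Z.card : ℝ) * (2 * Mr ^ 2) = 2 * Z.card * Mr ^ 2 by ring,
      inv_mul_cancel₀ (inv_pos.1 hk0).ne', ENNReal.ofReal_one]
  · intro u hu
    have h1 : ∃ w : SL2 k, nm w ≤ 2 ^ n ∧ HKX_A μ HKX_u w u ≠ 0 := by
      by_contra hcon
      push Not at hcon
      apply hu
      have h2 : ∑ z ∈ Z, (HKX_A μ HKX_u (low z) u + HKX_A μ HKX_u (low (-z)) u) = 0 := by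
        apply Finset.sum_eq_zero
        intro z hz
        rw [hcon _ (hlow z hz).1, hcon _ (hlow z hz).2, add_zero]
      rw [h2, mul_zero]
    obtain ⟨w, hw, hwu⟩ := h1
    exact pow_le_pow_left₀ (nm_nonneg u) (HKX_supp μ w u _ hw hwu) _
  · refine ⟨(ENNReal.ofReal ((2 * (Z.card : ℝ) * Mr ^ 2)⁻¹) * (Z.card * (M + M))).toReal, ?_⟩
    intro u
    rw [ENNReal.ofReal_toReal]
    · gcongr
      calc ∑ z ∈ Z, (HKX_A μ HKX_u (low z) u + HKX_A μ HKX_u (low (-z)) u)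
          ≤ ∑ _z ∈ Z, (M + M) := Finset.sum_le_sum fun z _ => add_le_add (hAM _ _) (hAM _ _)
        _ = Z.card * (M + M) := by rw [Finset.sum_const, nsmul_eq_mul]
    · exact ENNReal.mul_ne_top ENNReal.ofReal_ne_top
        (ENNReal.mul_ne_top (ENNReal.natCast_ne_top _) (ENNReal.add_ne_top.2 ⟨hMt, hMt⟩))
  · intro z₀
    obtain ⟨i, hi⟩ := HKX_row z₀
    have hm : ∀ w : SL2 k, Measurable fun g : SL2 k =>
        HKX_phi L.e (z₀ * g) * HKX_A μ HKX_u w g := fun w =>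
      ((HKX_phi_meas L.e).comp (measurable_const_mul z₀)).mul (hAm w)
    have h1 : ∫⁻ u, ENNReal.ofReal ((nm (z₀ * u) ^ L.e)⁻¹) *
        (ENNReal.ofReal ((2 * (Z.card : ℝ) * Mr ^ 2)⁻¹) *
          ∑ z ∈ Z, (HKX_A μ HKX_u (low z) u + HKX_A μ HKX_u (low (-z)) u)) ∂μ =
        ENNReal.ofReal ((2 * (Z.card : ℝ) * Mr ^ 2)⁻¹) *
          ∑ z ∈ Z, (∫⁻ g, HKX_phi L.e (z₀ * g) * HKX_A μ HKX_u (low z) g ∂μ +
            ∫⁻ g, HKX_phi L.e (z₀ * g) * HKX_A μ HKX_u (low (-z)) g ∂μ) := by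
      have h2 : ∀ z ∈ Z, Measurable fun g : SL2 k =>
          HKX_phi L.e (z₀ * g) * HKX_A μ HKX_u (low z) g +
            HKX_phi L.e (z₀ * g) * HKX_A μ HKX_u (low (-z)) g := fun z _ =>
        (hm (low z)).add (hm (low (-z)))
      have h3 : ∑ z ∈ Z, (∫⁻ g, HKX_phi L.e (z₀ * g) * HKX_A μ HKX_u (low z) g ∂μ +
            ∫⁻ g, HKX_phi L.e (z₀ * g) * HKX_A μ HKX_u (low (-z)) g ∂μ) =
          ∫⁻ g, ∑ z ∈ Z, (HKX_phi L.e (z₀ * g) * HKX_A μ HKX_u (low z) g +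
            HKX_phi L.e (z₀ * g) * HKX_A μ HKX_u (low (-z)) g) ∂μ := by
        rw [lintegral_finsetSum _ h2]
        apply Finset.sum_congr rfl
        intro z _
        rw [lintegral_add_left (hm _)]
      rw [h3, ← lintegral_const_mul _ (Finset.measurable_fun_sum Z h2)]
      apply lintegral_congr
      intro u
      unfold HKX_phi
      rw [← mul_assoc, mul_comm (ENNReal.ofReal ((nm (z₀ * u) ^ L.e)⁻¹)), mul_assoc,
        Finset.mul_sum]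
      congr 1
      apply Finset.sum_congr rfl
      intro z _
      ring
    rw [h1]
    have h4 : ∑ z ∈ Z, (∫⁻ g, HKX_phi L.e (z₀ * g) * HKX_A μ HKX_u (low z) g ∂μ +
            ∫⁻ g, HKX_phi L.e (z₀ * g) * HKX_A μ HKX_u (low (-z)) g ∂μ) ≤
        (M * ENNReal.ofReal (3 ^ L.e)) *
          ∑ z ∈ Z, (∫⁻ s, HKX_u s * HKX_phi L.e (z₀ * s * low z) ∂μ +
            ∫⁻ s, HKX_u s * HKX_phi L.e (z₀ * s * low (-z)) ∂μ) := by
      rw [Finset.mul_sum]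
      apply Finset.sum_le_sum
      intro z _
      rw [mul_add, hM]
      exact add_le_add (HKX_one μ L.e z₀ (low z)) (HKX_one μ L.e z₀ (low (-z)))
    have h5 := HKX_sum μ L.e n z₀ i hi CA (CB * (1 + Real.log (2 ^ n))) hA Z hZ1
      (hB (2 ^ n) Z hR0 hZ1 hZ2)
    have h6 := HKX_real L.e n Z.card Mr CA CB L.C (nm z₀) hMr hCA hCB hLC1 (HKX_nm_pos z₀) hZ3
    have hlog0 : 0 ≤ Real.log (2 ^ n) := Real.log_nonneg hR0
    have hz := HKX_nm_pos z₀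
    refine le_trans ?_ (ENNReal.ofReal_le_ofReal h6)
    obtain ⟨c, hc⟩ : ∃ c : ℝ, (Z.card : ℝ) = c := ⟨_, rfl⟩
    rw [hc] at h5 hk0 hN0 ⊢
    rw [ENNReal.ofReal_mul hk0.le, ENNReal.ofReal_mul (by positivity),
      ENNReal.ofReal_mul hMr.le, ← hMM,
      ENNReal.ofReal_add (Finset.sum_nonneg fun j _ => by positivity) (by positivity),
      ENNReal.ofReal_sum_of_nonneg (fun j _ => by positivity),
      ENNReal.ofReal_mul (by positivity)]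
    have h7 : ∀ j : ℕ, ENNReal.ofReal (2 * (CB * (1 + Real.log (2 ^ n))) *
        (((2 / 2 ^ j * nm z₀) ^ L.e)⁻¹) * (CA * (4 / 2 ^ j) ^ L.e)) =
        ENNReal.ofReal (2 * (CB * (1 + Real.log (2 ^ n))) * (((2 / 2 ^ j * nm z₀) ^ L.e)⁻¹)) *
          ENNReal.ofReal (CA * (4 / 2 ^ j) ^ L.e) := fun j =>
      ENNReal.ofReal_mul (by positivity)
    simp_rw [h7]
    exact mul_le_mul_right (h4.trans (mul_le_mul_right h5 _)) _
  · positivity
  · exact one_le_pow₀ (by linarith)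

end final

end Pool.PQ

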