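import Pool.Agent.Work.MP_972ac7_Q.Interface2
import Pool.Agent.Work.MP_972ac7_P.B_NBD

set_option autoImplicit false

/-! # THEOREM PP, block NBG: the coordinates of a quaternion and the entries of its matrix -/

open MeasureTheory NumberField IsDedekindDomain
open scoped Quaternion ENNReal

noncomputable section

namespace Pool.PQ

open Pool.PL Pool.TFD Pool.TC

theorem NBG_a {F : Type} [Field F] {a b : F} (h : ∀ z : ℍ[F, a, b], nrq z = 0 → z = 0) : a ≠ 0 := by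
  intro h0
  have h1 := h ⟨0, 1, 0, 0⟩ (by simp [nrq, h0])
  have h2 := congrArg QuaternionAlgebra.imI h1
  simp at h2

theorem NBG_b {F : Type} [Field F] {a b : F} (h : ∀ z : ℍ[F, a, b], nrq z = 0 → z = 0) : b ≠ 0 := by
  intro h0
  have h1 := h ⟨0, 0, 1, 0⟩ (by simp [nrq, h0])
  have h2 := congrArg QuaternionAlgebra.imJ h1
  simp at h2

theorem p_NBG : Stmt_NBG := by
  intro F _ _ ι k _ D i
  have ha : (D.a : F) ≠ 0 := NBG_a D.dv
  have hb : (D.b : F) ≠ 0 := NBG_b D.dv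
  have hA : D.e i (D.a : F) ≠ 0 := (map_ne_zero (D.e i)).2 ha
  have hB : D.e i (D.b : F) ≠ 0 := (map_ne_zero (D.e i)).2 hb
  have h2 : (2 : k i) ≠ 0 := (D.L i).two_ne
  refine ⟨NBD_C (D.e i (D.a : F)) (D.e i (D.b : F)) (D.x i) (D.y i), ?_, ?_, ?_⟩
  · unfold NBD_C
    have : 0 ≤ (1 + ‖D.x i‖ + ‖D.y i‖ + ‖D.e i (D.a : F)‖ + ‖D.e i (D.a : F)‖ * ‖D.x i‖ +
        ‖D.e i (D.a : F)‖ * ‖D.y i‖) + ‖(2 : k i)⁻¹‖ * (2 + ‖(D.e i (D.a : F))⁻¹‖) +
        ‖(2 : k i)⁻¹‖ * (2 + ‖(D.e i (D.a : F))⁻¹‖) *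
          (‖D.x i‖ + ‖D.y i‖ + ‖D.e i (D.a : F)‖ * ‖D.y i‖) * ‖(D.e i (D.b : F))⁻¹‖ := by
      positivity
    linarith
  · rintro z c ⟨h1, h3, h4, h5⟩
    obtain ⟨g1, g3, g4, g5⟩ := NBD_fwd (A := D.e i (D.a : F)) (B := D.e i (D.b : F))
      (x := D.x i) (y := D.y i) h1 h3 h4 h5
    rw [mnm_le]
    intro p q
    fin_cases p <;> fin_cases q
    · exact g1
    · exact g3
    · exact g4
    · exact g5
  · intro z c hz
    rw [mnm_le] at hz
    exact NBD_bwd (r := D.e i z.re) (I := D.e i z.imI) (J := D.e i z.imJ) (K := D.e i z.imK)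
      h2 hA hB (D.spl i) (hz 0 0) (hz 0 1) (hz 1 0) (hz 1 1)

end Pool.PQ
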