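import Pool.Agent.Work.MP_972ac7_Q.Interface1

set_option autoImplicit false

/-! # THEOREM PP, block SMQ: summation over dyadic shells -/

open MeasureTheory
open scoped ENNReal

noncomputable section

namespace Pool.PQ

open Pool.PL Pool.TFD Pool.TC

theorem SMQ_nm {k : Type} [NormedField k] (x : SL2 k) : 1 ≤ 2 * nm x ^ 2 := by
  have h := x.2
  rw [Matrix.det_fin_two] at h
  have h1 : ∀ i j, ‖(x : Matrix (Fin 2) (Fin 2) k) i j‖ ≤ nm x := fun i j => le_mnm _ i j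
  have h0 : 0 ≤ nm x := nm_nonneg x
  have h2 := norm_sub_le ((x : Matrix (Fin 2) (Fin 2) k) 0 0 * (x : Matrix (Fin 2) (Fin 2) k) 1 1)
    ((x : Matrix (Fin 2) (Fin 2) k) 0 1 * (x : Matrix (Fin 2) (Fin 2) k) 1 0)
  rw [h, norm_one, norm_mul, norm_mul] at h2
  have h3 := mul_le_mul (h1 0 0) (h1 1 1) (norm_nonneg _) h0
  have h4 := mul_le_mul (h1 0 1) (h1 1 0) (norm_nonneg _) h0
  nlinarith

theorem SMQ_half {k : Type} [NormedField k] (L : LG k) (x : SL2 k) : 1 / 2 ≤ nm x ^ L.e := by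
  have h := SMQ_nm x
  have h0 : 0 ≤ nm x := nm_nonneg x
  rcases L.he with h1 | h1
  · rw [h1, pow_one]
    by_contra hlt
    push Not at hlt
    nlinarith
  · rw [h1]
    linarith

theorem SMQ_cube {x : ℝ} (hx : 0 ≤ x) : (x ^ (5 / 3 : ℝ)) ^ 3 = x ^ 5 := by
  rw [← Real.rpow_natCast (x ^ (5 / 3 : ℝ)) 3, ← Real.rpow_mul hx]
  rw [show (5 / 3 : ℝ) * ((3 : ℕ) : ℝ) = ((5 : ℕ) : ℝ) by norm_num, Real.rpow_natCast]

theorem SMQ_le {a b : ℝ} (hb : 0 ≤ b) (h : a ^ 3 ≤ b ^ 3) : a ≤ b := by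
  by_contra hlt
  push Not at hlt
  have : b ^ 3 < a ^ 3 := pow_lt_pow_left₀ hlt hb (by norm_num)
  linarith

theorem SMQ_div {x : ℝ} (hx : 0 ≤ x) : (x / 2) ^ (5 / 3 : ℝ) ≤ x ^ (5 / 3 : ℝ) / 3 := by
  have h0 : 0 ≤ x ^ (5 / 3 : ℝ) := Real.rpow_nonneg hx _
  refine SMQ_le (by positivity) ?_
  rw [SMQ_cube (by positivity), div_pow, div_pow, SMQ_cube hx]
  have : 0 ≤ x ^ 5 := by positivity
  norm_num
  linarith

theorem SMQ_sum1 (Q : ℝ) (hQ : 1 ≤ Q) (N : ℕ) :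
    ∑ j ∈ Finset.range (N + 1), ((2 : ℝ) ^ j)⁻¹ * ((2 : ℝ) ^ j / Q) ^ (5 / 3 : ℝ) ≤
      3 * (((2 : ℝ) ^ N)⁻¹ * ((2 : ℝ) ^ N / Q) ^ (5 / 3 : ℝ)) := by
  induction N with
  | zero =>
    rw [Finset.sum_range_one]
    have : 0 ≤ ((2 : ℝ) ^ 0)⁻¹ * ((2 : ℝ) ^ 0 / Q) ^ (5 / 3 : ℝ) := by positivity
    linarith
  | succ N ih =>
    rw [Finset.sum_range_succ]
    have h1 := SMQ_div (x := (2 : ℝ) ^ (N + 1) / Q) (by positivity)
    have h2 : (2 : ℝ) ^ (N + 1) / Q / 2 = (2 : ℝ) ^ N / Q := by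
      rw [pow_succ]; field_simp
    rw [h2] at h1
    have h3 : ((2 : ℝ) ^ N)⁻¹ = 2 * ((2 : ℝ) ^ (N + 1))⁻¹ := by
      rw [pow_succ]; field_simp
    have h4 : 0 < ((2 : ℝ) ^ (N + 1))⁻¹ := by positivity
    have h5 : ((2 : ℝ) ^ N)⁻¹ * ((2 : ℝ) ^ N / Q) ^ (5 / 3 : ℝ) ≤
        2 / 3 * (((2 : ℝ) ^ (N + 1))⁻¹ * ((2 : ℝ) ^ (N + 1) / Q) ^ (5 / 3 : ℝ)) := by
      rw [h3]
      nlinarith
    linarith

theorem SMQ_sum2 (Q : ℝ) (hQ : 1 ≤ Q) (N : ℕ) :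
    ∑ j ∈ Finset.range (N + 1), ((2 : ℝ) ^ j / Q) ^ (5 / 3 : ℝ) ≤
      2 * ((2 : ℝ) ^ N / Q) ^ (5 / 3 : ℝ) := by
  induction N with
  | zero =>
    rw [Finset.sum_range_one]
    have : 0 ≤ ((2 : ℝ) ^ 0 / Q) ^ (5 / 3 : ℝ) := by positivity
    linarith
  | succ N ih =>
    rw [Finset.sum_range_succ]
    have h1 := SMQ_div (x := (2 : ℝ) ^ (N + 1) / Q) (by positivity)
    have h2 : (2 : ℝ) ^ (N + 1) / Q / 2 = (2 : ℝ) ^ N / Q := by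
      rw [pow_succ]; field_simp
    rw [h2] at h1
    have h3 : 0 ≤ ((2 : ℝ) ^ (N + 1) / Q) ^ (5 / 3 : ℝ) := by positivity
    linarith

theorem SMQ_sum0 (N : ℕ) : ∑ j ∈ Finset.range (N + 1), ((2 : ℝ) ^ j)⁻¹ ≤ 2 := by
  have h : ∀ N : ℕ, ∑ j ∈ Finset.range (N + 1), ((2 : ℝ) ^ j)⁻¹ = 2 - ((2 : ℝ) ^ N)⁻¹ := by
    intro N
    induction N with
    | zero => norm_num
    | succ N ih =>
      rw [Finset.sum_range_succ, ih, pow_succ]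
      field_simp
      ring
  rw [h N]
  have : 0 < ((2 : ℝ) ^ N)⁻¹ := by positivity
  linarith

theorem p_SMQ : Stmt_SMQ := by
  intro ι _ _ k _ L Γ hΓ W v hWv R K hK
  obtain ⟨C₀, hC₀, hcnt⟩ := hΓ.count W v hWv R
  refine ⟨4 * C₀ + 28 * C₀ * K, by positivity, ?_⟩
  intro g hg Q Y hQ hY hYQ
  have hQ0 : 0 < Q := by linarith
  have hY0 : 0 < Y := by linarith
  obtain ⟨n, hn1, hn2⟩ := exists_nat_pow_near hY one_lt_two
  set N := n + 1 with hN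
  have hNY : (2 : ℝ) ^ N ≤ 2 * Y := by
    rw [hN, pow_succ]; linarith
  have hu1 : (1 : ℝ) ≤ (2 : ℝ) ^ N := one_le_pow₀ (by norm_num)
  -- the two endpoint terms
  have hY2 : Y ^ 2 ≤ K * Q ^ 5 := by
    by_contra hlt
    push Not at hlt
    have h1 : (K * Q ^ 5) ^ 5 < (Y ^ 2) ^ 5 := pow_lt_pow_left₀ hlt (by positivity) (by norm_num)
    have h2 : (Y ^ 2) ^ 5 ≤ (K * Q ^ 11) ^ 2 := by
      calc (Y ^ 2) ^ 5 = (Y ^ 5) ^ 2 := by ring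
        _ ≤ (K * Q ^ 11) ^ 2 := pow_le_pow_left₀ (by positivity) hYQ 2
    have h3 : (K * Q ^ 11) ^ 2 ≤ (K * Q ^ 5) ^ 5 := by
      have e1 : (K * Q ^ 11) ^ 2 = K ^ 2 * Q ^ 22 := by ring
      have e2 : (K * Q ^ 5) ^ 5 = K ^ 5 * Q ^ 25 := by ring
      rw [e1, e2]
      exact mul_le_mul (pow_le_pow_right₀ hK (by norm_num)) (pow_le_pow_right₀ hQ (by norm_num))
        (by positivity) (by positivity)
    linarith
  have ht : ((2 : ℝ) ^ N)⁻¹ * ((2 : ℝ) ^ N / Q) ^ (5 / 3 : ℝ) ≤ 2 * K := by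
    refine SMQ_le (by positivity) ?_
    rw [mul_pow, SMQ_cube (by positivity)]
    set u := (2 : ℝ) ^ N with hu
    have hu0 : 0 < u := by linarith
    have e1 : u⁻¹ ^ 3 * (u / Q) ^ 5 = u ^ 2 / Q ^ 5 := by
      field_simp
    rw [e1, div_le_iff₀ (by positivity)]
    have e2 : u ^ 2 ≤ (2 * Y) ^ 2 := pow_le_pow_left₀ hu0.le hNY 2
    have e3 : K ≤ K ^ 3 := le_self_pow₀ hK (by norm_num)
    have e4 : K * Q ^ 5 ≤ K ^ 3 * Q ^ 5 := mul_le_mul_of_nonneg_right e3 (by positivity)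
    have e5 : 0 ≤ K ^ 3 * Q ^ 5 := by positivity
    calc u ^ 2 ≤ 4 * Y ^ 2 := by linarith
      _ ≤ 4 * (K ^ 3 * Q ^ 5) := by linarith
      _ ≤ (2 * K) ^ 3 * Q ^ 5 := by
        have : (2 * K) ^ 3 * Q ^ 5 = 8 * (K ^ 3 * Q ^ 5) := by ring
        rw [this]; linarith
  have hs : (Q ^ 2)⁻¹ * ((2 : ℝ) ^ N / Q) ^ (5 / 3 : ℝ) ≤ 4 * K := by
    refine SMQ_le (by positivity) ?_
    rw [mul_pow, SMQ_cube (by positivity)]
    set u := (2 : ℝ) ^ N with hu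
    have hu0 : 0 < u := by linarith
    have e1 : (Q ^ 2)⁻¹ ^ 3 * (u / Q) ^ 5 = u ^ 5 / Q ^ 11 := by
      field_simp
    rw [e1, div_le_iff₀ (by positivity)]
    have e2 : u ^ 5 ≤ (2 * Y) ^ 5 := pow_le_pow_left₀ hu0.le hNY 5
    have e3 : K ≤ K ^ 3 := le_self_pow₀ hK (by norm_num)
    have e4 : K * Q ^ 11 ≤ K ^ 3 * Q ^ 11 := mul_le_mul_of_nonneg_right e3 (by positivity)
    have e5 : 0 ≤ K ^ 3 * Q ^ 11 := by positivity
    calc u ^ 5 ≤ 32 * Y ^ 5 := by linarith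
      _ ≤ 32 * (K ^ 3 * Q ^ 11) := by linarith
      _ ≤ (4 * K) ^ 3 * Q ^ 11 := by
        have : (4 * K) ^ 3 * Q ^ 11 = 64 * (K ^ 3 * Q ^ 11) := by ring
        rw [this]; linarith
  -- pointwise bound
  have hpt : ∀ γ : Γ, (cs L Γ W v R g Q Y).indicator
      (fun γ => ENNReal.ofReal ((nm ((g * γ * g⁻¹ : GG k) W) ^ (L W).e)⁻¹)) γ ≤
      ∑ j ∈ Finset.range (N + 1), (cs L Γ W v R g Q ((2 : ℝ) ^ j)).indicator
        (fun _ => ENNReal.ofReal (2 * ((2 : ℝ) ^ j)⁻¹)) γ := by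
    intro γ
    by_cases hγ : γ ∈ cs L Γ W v R g Q Y
    swap
    · rw [Set.indicator_of_notMem hγ]
      exact zero_le
    rw [Set.indicator_of_mem hγ]
    set w : ℝ := nm ((g * γ * g⁻¹ : GG k) W) ^ (L W).e with hw
    have hw2 : 1 / 2 ≤ w := SMQ_half (L W) _
    have hw0 : 0 < w := by linarith
    have hwY : w ≤ Y := hγ.2.1
    obtain ⟨j, hj, hj1, hj2⟩ : ∃ j, j ≤ N ∧ w ≤ (2 : ℝ) ^ j ∧ w⁻¹ ≤ 2 * ((2 : ℝ) ^ j)⁻¹ := by
      rcases le_or_gt w 1 with h | h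
      · refine ⟨0, Nat.zero_le _, by simpa using h, ?_⟩
        rw [pow_zero, inv_one, mul_one, inv_le_comm₀ hw0 (by norm_num)]
        linarith
      · obtain ⟨m, hm1, hm2⟩ := exists_nat_pow_near h.le one_lt_two
        refine ⟨m + 1, ?_, hm2.le, ?_⟩
        · have h1 : (2 : ℝ) ^ m < (2 : ℝ) ^ (n + 1) := by linarith
          have h2 := (pow_lt_pow_iff_right₀ (by norm_num : (1 : ℝ) < 2)).1 h1
          omega
        · have h1 : 2 * ((2 : ℝ) ^ (m + 1))⁻¹ = ((2 : ℝ) ^ m)⁻¹ := by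
            rw [pow_succ]; field_simp
          rw [h1]
          exact inv_anti₀ (by positivity) hm1
    have hmem : γ ∈ cs L Γ W v R g Q ((2 : ℝ) ^ j) := ⟨hγ.1, hj1, hγ.2.2⟩
    refine le_trans (ENNReal.ofReal_le_ofReal hj2) ?_
    have h1 : ENNReal.ofReal (2 * ((2 : ℝ) ^ j)⁻¹) =
        (cs L Γ W v R g Q ((2 : ℝ) ^ j)).indicator
          (fun _ => ENNReal.ofReal (2 * ((2 : ℝ) ^ j)⁻¹)) γ := by
      rw [Set.indicator_of_mem hmem]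
    rw [h1]
    exact Finset.single_le_sum (f := fun j => (cs L Γ W v R g Q ((2 : ℝ) ^ j)).indicator
        (fun _ => ENNReal.ofReal (2 * ((2 : ℝ) ^ j)⁻¹)) γ) (fun _ _ => zero_le)
      (Finset.mem_range.2 (by omega))
  -- one shell
  have hshell : ∀ j : ℕ, ∑' γ : Γ, (cs L Γ W v R g Q ((2 : ℝ) ^ j)).indicator
        (fun _ => ENNReal.ofReal (2 * ((2 : ℝ) ^ j)⁻¹)) γ ≤
      ENNReal.ofReal (2 * C₀ * (((2 : ℝ) ^ j)⁻¹ + ((2 : ℝ) ^ j)⁻¹ * ((2 : ℝ) ^ j / Q) ^ (5 / 3 : ℝ) +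
        (Q ^ 2)⁻¹ * ((2 : ℝ) ^ j / Q) ^ (5 / 3 : ℝ))) := by
    intro j
    have hj1 : (1 : ℝ) ≤ (2 : ℝ) ^ j := one_le_pow₀ (by norm_num)
    obtain ⟨hfin, hcard⟩ := hcnt g hg Q ((2 : ℝ) ^ j) hQ hj1
    rw [tsum_eq_sum (s := hfin.toFinset) (fun b hb => by
      rw [Set.indicator_of_notMem]
      exact fun h => hb (hfin.mem_toFinset.2 h))]
    have h1 : ∑ b ∈ hfin.toFinset, (cs L Γ W v R g Q ((2 : ℝ) ^ j)).indicator
        (fun _ => ENNReal.ofReal (2 * ((2 : ℝ) ^ j)⁻¹)) b =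
        ∑ b ∈ hfin.toFinset, ENNReal.ofReal (2 * ((2 : ℝ) ^ j)⁻¹) := by
      refine Finset.sum_congr rfl fun b hb => ?_
      rw [Set.indicator_of_mem (hfin.mem_toFinset.1 hb)]
    have h2 : Nat.card (cs L Γ W v R g Q ((2 : ℝ) ^ j)) = hfin.toFinset.card := by
      rw [Nat.card_coe_set_eq, Set.ncard_eq_toFinset_card _ hfin]
    rw [h1, Finset.sum_const, nsmul_eq_mul, ← ENNReal.ofReal_natCast,
      ← ENNReal.ofReal_mul (Nat.cast_nonneg _)]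
    refine ENNReal.ofReal_le_ofReal ?_
    rw [h2] at hcard
    have h3 := mul_le_mul_of_nonneg_right hcard (by positivity : (0 : ℝ) ≤ 2 * ((2 : ℝ) ^ j)⁻¹)
    refine h3.trans (le_of_eq ?_)
    have h4 : (2 : ℝ) ^ j ≠ 0 := by positivity
    generalize ((2 : ℝ) ^ j / Q) ^ (5 / 3 : ℝ) = X
    generalize (2 : ℝ) ^ j = u at h4
    field_simp
    ring
  calc ∑' γ : Γ, (cs L Γ W v R g Q Y).indicator
        (fun γ => ENNReal.ofReal ((nm ((g * γ * g⁻¹ : GG k) W) ^ (L W).e)⁻¹)) γ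
      ≤ ∑' γ : Γ, ∑ j ∈ Finset.range (N + 1), (cs L Γ W v R g Q ((2 : ℝ) ^ j)).indicator
          (fun _ => ENNReal.ofReal (2 * ((2 : ℝ) ^ j)⁻¹)) γ := ENNReal.tsum_le_tsum hpt
    _ = ∑ j ∈ Finset.range (N + 1), ∑' γ : Γ, (cs L Γ W v R g Q ((2 : ℝ) ^ j)).indicator
          (fun _ => ENNReal.ofReal (2 * ((2 : ℝ) ^ j)⁻¹)) γ :=
        Summable.tsum_finsetSum fun _ _ => ENNReal.summable
    _ ≤ ∑ j ∈ Finset.range (N + 1), ENNReal.ofReal (2 * C₀ * (((2 : ℝ) ^ j)⁻¹ +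
          ((2 : ℝ) ^ j)⁻¹ * ((2 : ℝ) ^ j / Q) ^ (5 / 3 : ℝ) +
          (Q ^ 2)⁻¹ * ((2 : ℝ) ^ j / Q) ^ (5 / 3 : ℝ))) := Finset.sum_le_sum fun j _ => hshell j
    _ = ENNReal.ofReal (∑ j ∈ Finset.range (N + 1), 2 * C₀ * (((2 : ℝ) ^ j)⁻¹ +
          ((2 : ℝ) ^ j)⁻¹ * ((2 : ℝ) ^ j / Q) ^ (5 / 3 : ℝ) +
          (Q ^ 2)⁻¹ * ((2 : ℝ) ^ j / Q) ^ (5 / 3 : ℝ))) :=
        (ENNReal.ofReal_sum_of_nonneg fun j _ => by positivity).symm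
    _ ≤ ENNReal.ofReal (4 * C₀ + 28 * C₀ * K) := by
        refine ENNReal.ofReal_le_ofReal ?_
        rw [← Finset.mul_sum, Finset.sum_add_distrib, Finset.sum_add_distrib, ← Finset.mul_sum]
        have h0 := SMQ_sum0 N
        have h1 := SMQ_sum1 Q hQ N
        have h2 := mul_le_mul_of_nonneg_left (SMQ_sum2 Q hQ N) (by positivity : (0 : ℝ) ≤ (Q ^ 2)⁻¹)
        have h3 : (∑ j ∈ Finset.range (N + 1), ((2 : ℝ) ^ j)⁻¹) +
            (∑ j ∈ Finset.range (N + 1), ((2 : ℝ) ^ j)⁻¹ * ((2 : ℝ) ^ j / Q) ^ (5 / 3 : ℝ)) +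
            (Q ^ 2)⁻¹ * (∑ j ∈ Finset.range (N + 1), ((2 : ℝ) ^ j / Q) ^ (5 / 3 : ℝ)) ≤
            2 + 14 * K := by
          linarith
        calc _ ≤ 2 * C₀ * (2 + 14 * K) := mul_le_mul_of_nonneg_left h3 (by positivity)
          _ = _ := by ring

end Pool.PQ
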