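import Pool.Agent.Work.MP_972ac7_Q.Interface1

set_option autoImplicit false

/-! # Block WPK (MP_972ac7_al, THEOREM PP, part I): wave packets -/

open MeasureTheory
open scoped ENNReal

noncomputable section

namespace Pool.PQ

open Pool.PL Pool.TFD Pool.TC

section alg

variable {k : Type} [NormedField k]

/-- the Weyl element -/
def WPK_w : SL2 k := ⟨!![0, -1; 1, 0], by simp [Matrix.det_fin_two]⟩

theorem WPK_low (x : k) : low x = WPK_w * upp (-x) * WPK_w⁻¹ := by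
  rw [eq_mul_inv_iff_mul_eq]
  apply Subtype.ext
  rw [Matrix.SpecialLinearGroup.coe_mul, Matrix.SpecialLinearGroup.coe_mul]
  ext i j
  fin_cases i <;> fin_cases j <;>
    simp [low, upp, WPK_w, Matrix.mul_apply, Fin.sum_univ_two]

/-- the matrix `upp (z / θ ^ 2) * diag (θ⁻¹, θ)` -/
def WPK_b (θ : k) (hθ : θ ≠ 0) (z : k) : SL2 k :=
  ⟨!![θ⁻¹, z * θ⁻¹; 0, θ], by simp [Matrix.det_fin_two, hθ]⟩

theorem WPK_b_mul (θ : k) (hθ : θ ≠ 0) (z z' : k) :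
    WPK_b θ hθ z * upp (z' - z) = WPK_b θ hθ z' := by
  apply Subtype.ext
  rw [Matrix.SpecialLinearGroup.coe_mul]
  ext i j
  fin_cases i <;> fin_cases j <;>
    simp [upp, WPK_b, Matrix.mul_apply, Fin.sum_univ_two]
  ring

theorem WPK_b_nm (θ : k) (hθ : θ ≠ 0) (h1 : 1 ≤ ‖θ‖) (z : k) (hz : ‖z‖ ≤ ‖θ‖ ^ 2) :
    nm (WPK_b θ hθ z) ≤ ‖θ‖ := by
  have h0 : 0 < ‖θ‖ := lt_of_lt_of_le one_pos h1
  have h2 : ‖θ‖⁻¹ ≤ 1 := inv_le_one_of_one_le₀ h1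
  unfold nm
  rw [mnm_le]
  intro i j
  fin_cases i <;> fin_cases j
  · simp only [WPK_b]
    simp
    exact le_trans h2 h1
  · simp only [WPK_b]
    simp
    rw [← div_eq_mul_inv, div_le_iff₀ h0]
    calc ‖z‖ ≤ ‖θ‖ ^ 2 := hz
      _ = ‖θ‖ * ‖θ‖ := by ring
  · simp [WPK_b]
  · simp [WPK_b]

theorem WPK_conj (b s : SL2 k) : dnm (b⁻¹ * s * b) ≤ 4 * nm b ^ 2 * dnm s := by
  have h1 : ((b⁻¹ * s * b : SL2 k) : Matrix (Fin 2) (Fin 2) k) - 1 =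
      ((b⁻¹ : SL2 k) : Matrix (Fin 2) (Fin 2) k) * ((s : Matrix (Fin 2) (Fin 2) k) - 1) *
        (b : Matrix (Fin 2) (Fin 2) k) := by
    have h2 : ((b⁻¹ : SL2 k) : Matrix (Fin 2) (Fin 2) k) * (b : Matrix (Fin 2) (Fin 2) k) = 1 := by
      rw [← Matrix.SpecialLinearGroup.coe_mul, inv_mul_cancel, Matrix.SpecialLinearGroup.coe_one]
    rw [Matrix.SpecialLinearGroup.coe_mul, Matrix.SpecialLinearGroup.coe_mul, mul_sub, sub_mul,
      mul_one, h2]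
  have h3 := mnm_mul_le2 (((b⁻¹ : SL2 k) : Matrix (Fin 2) (Fin 2) k) *
    ((s : Matrix (Fin 2) (Fin 2) k) - 1)) (b : Matrix (Fin 2) (Fin 2) k)
  have h4 := mnm_mul_le2 (((b⁻¹ : SL2 k) : Matrix (Fin 2) (Fin 2) k))
    ((s : Matrix (Fin 2) (Fin 2) k) - 1)
  have h5 : mnm ((b⁻¹ : SL2 k) : Matrix (Fin 2) (Fin 2) k) = nm b := nm_inv b
  have h6 : mnm (b : Matrix (Fin 2) (Fin 2) k) = nm b := rfl
  have h7 : mnm ((s : Matrix (Fin 2) (Fin 2) k) - 1) = dnm s := rfl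
  rw [h5, h7] at h4
  rw [h6] at h3
  have h8 : dnm (b⁻¹ * s * b) = mnm (((b⁻¹ * s * b : SL2 k) : Matrix (Fin 2) (Fin 2) k) - 1) := rfl
  rw [h8, h1]
  refine le_trans h3 ?_
  calc 2 * (mnm (((b⁻¹ : SL2 k) : Matrix (Fin 2) (Fin 2) k) *
        ((s : Matrix (Fin 2) (Fin 2) k) - 1)) * nm b) ≤ 2 * ((2 * (nm b * dnm s)) * nm b) := by
        have := nm_nonneg b
        gcongr
    _ = 4 * nm b ^ 2 * dnm s := by ring

end alg

section rep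

variable {k : Type} [NormedField k] {H : Type} [NormedAddCommGroup H] [InnerProductSpace ℂ H]

theorem WPK_pi_mul (π : SL2 k →* (H ≃ₗᵢ[ℂ] H)) (g g' : SL2 k) (f : H) :
    π (g * g') f = π g (π g' f) := by
  rw [map_mul]
  rfl

theorem WPK_pi_inv (π : SL2 k →* (H ≃ₗᵢ[ℂ] H)) (g : SL2 k) (f : H) :
    π g⁻¹ (π g f) = f := by
  rw [← WPK_pi_mul, inv_mul_cancel, map_one]
  rfl

theorem WPK_pi_inv' (π : SL2 k →* (H ≃ₗᵢ[ℂ] H)) (g : SL2 k) (f : H) :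
    π g (π g⁻¹ f) = f := by
  rw [← WPK_pi_mul, mul_inv_cancel, map_one]
  rfl

theorem WPK_inner (π : SL2 k →* (H ≃ₗᵢ[ℂ] H)) (θ : k) (hθ : θ ≠ 0) (z z' : k) (F : H) :
    (inner ℂ (π (WPK_b θ hθ z) F) (π (WPK_b θ hθ z') F) : ℂ) =
      inner ℂ F (π (upp (z' - z)) F) := by
  rw [← WPK_b_mul θ hθ z z', WPK_pi_mul, LinearIsometryEquiv.inner_map_map]

theorem WPK_smooth (π : SL2 k →* (H ≃ₗᵢ[ℂ] H)) (b s : SL2 k) (F : H) :
    ‖π s (π b F) - π b F‖ = ‖π (b⁻¹ * s * b) F - F‖ := by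
  have h1 : π s (π b F) - π b F = π b (π (b⁻¹ * s * b) F - F) := by
    rw [map_sub, ← WPK_pi_mul, ← WPK_pi_mul]
    congr 3
    group
  rw [h1, LinearIsometryEquiv.norm_map]

end rep

/-- the existence of the vector -/
theorem WPK_vec (hGN : Stmt_GN2) (hLPV : Stmt_LPV) (k : Type) [NormedField k] [ProperSpace k]
    (H : Type) [NormedAddCommGroup H] [InnerProductSpace ℂ H] [CompleteSpace H]
    (π : SL2 k →* (H ≃ₗᵢ[ℂ] H)) (hπ : ∀ f, Continuous fun g => π g f) (E : Submodule ℂ H)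
    (hEc : IsClosed (E : Set H)) (hEi : ∀ g, ∀ f ∈ E, π g f ∈ E)
    (hex : ∃ f ∈ E, ∃ g, π g f ≠ f) :
    ∃ h ∈ E, ∃ t₀ : k, (∃ C : ℝ, ∀ u, dnm u ≤ 1 → ‖π u h - h‖ ≤ C * dnm u) ∧
      ‖π (upp t₀) h - h‖ = 1 := by
  have key : ∃ h ∈ E, ∃ t₀ : k, (∃ C : ℝ, ∀ u, dnm u ≤ 1 → ‖π u h - h‖ ≤ C * dnm u) ∧
      π (upp t₀) h ≠ h := by
    by_contra hcon
    have hcon' : ∀ h ∈ E, (∃ C : ℝ, ∀ u, dnm u ≤ 1 → ‖π u h - h‖ ≤ C * dnm u) →
        ∀ t : k, π (upp t) h = h := by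
      intro h hh hC t
      by_contra hne
      exact hcon ⟨h, hh, t, hC, hne⟩
    have h1 : ∀ f ∈ E, ∀ t : k, π (upp t) f = f := by
      intro f hf t
      by_contra hne
      have hpos : 0 < ‖π (upp t) f - f‖ := norm_pos_iff.2 (sub_ne_zero.2 hne)
      obtain ⟨h, hE, hh, hC⟩ := hLPV k H π hπ E hEc hEi f hf (‖π (upp t) f - f‖ / 4)
        (by positivity)
      have h2 := hcon' h hE hC t
      have h3 : π (upp t) f - f = π (upp t) (f - h) - (f - h) := by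
        rw [map_sub, h2]
        abel
      have h4 : ‖π (upp t) f - f‖ ≤ ‖f - h‖ + ‖f - h‖ := by
        calc ‖π (upp t) f - f‖ = ‖π (upp t) (f - h) - (f - h)‖ := by rw [h3]
          _ ≤ ‖π (upp t) (f - h)‖ + ‖f - h‖ := norm_sub_le _ _
          _ = ‖f - h‖ + ‖f - h‖ := by rw [LinearIsometryEquiv.norm_map]
      rw [norm_sub_rev f h] at h4
      linarith
    let S : Subgroup (SL2 k) :=
      { carrier := {g | ∀ f ∈ E, π g f = f}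
        mul_mem' := by
          intro g g' hg hg' f hf
          rw [WPK_pi_mul, hg' f hf, hg f hf]
        one_mem' := by
          intro f _
          rw [map_one]
          rfl
        inv_mem' := by
          intro g hg f hf
          have h2 := hg f hf
          conv_lhs => rw [← h2]
          exact WPK_pi_inv π g f }
    have hS : S = ⊤ := by
      refine hGN k S (fun x f hf => h1 f hf x) (fun x f hf => ?_)
      rw [WPK_low, WPK_pi_mul, WPK_pi_mul, h1 _ (hEi _ _ hf), WPK_pi_inv']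
    obtain ⟨f, hf, g, hg⟩ := hex
    have h2 : g ∈ S := by
      rw [hS]
      exact Subgroup.mem_top g
    exact hg (h2 f hf)
  obtain ⟨h, hE, t₀, ⟨C, hC⟩, hne⟩ := key
  have hpos : 0 < ‖π (upp t₀) h - h‖ := norm_pos_iff.2 (sub_ne_zero.2 hne)
  set a : ℝ := ‖π (upp t₀) h - h‖ with ha
  have hsub : ∀ u : SL2 k, π u (((a⁻¹ : ℝ) : ℂ) • h) - ((a⁻¹ : ℝ) : ℂ) • h =
      ((a⁻¹ : ℝ) : ℂ) • (π u h - h) := by
    intro u
    rw [map_smul, smul_sub]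
  have hn : ‖((a⁻¹ : ℝ) : ℂ)‖ = a⁻¹ := by
    rw [Complex.norm_real, Real.norm_of_nonneg (by positivity)]
  refine ⟨((a⁻¹ : ℝ) : ℂ) • h, E.smul_mem _ hE, t₀, ⟨a⁻¹ * C, fun u hu => ?_⟩, ?_⟩
  · rw [hsub, norm_smul, hn, mul_assoc]
    exact mul_le_mul_of_nonneg_left (hC u hu) (by positivity)
  · rw [hsub, norm_smul, hn, ← ha, inv_mul_cancel₀ hpos.ne']

theorem p_WPK (hTP : Stmt_TP2) (hGN : Stmt_GN2) (hLPV : Stmt_LPV) (hDEC : Stmt_DEC)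
    (hGRP : Stmt_GRP) : Stmt_WPK := by
  intro k _ _ L H _ _ _ π hπ E hEc hEi hex
  obtain ⟨h, hE, t₀, hLip, hnorm⟩ := WPK_vec hGN hLPV k H π hπ E hEc hEi hex
  obtain ⟨C₀, hC₀⟩ := hDEC k L H π h t₀ hLip
  obtain ⟨F, hF⟩ : ∃ F : H, F = π (upp t₀) h - h := ⟨_, rfl⟩
  rw [← hF] at hnorm
  simp only [← hF] at hC₀
  have hFE : F ∈ E := by
    rw [hF]
    exact E.sub_mem (hEi _ _ hE) hE
  -- the scale at which `F` is smooth
  obtain ⟨r, hr0, hr1, hr⟩ : ∃ r : ℝ, 0 < r ∧ r ≤ 1 ∧ ∀ u, dnm u ≤ r → ‖π u F - F‖ ≤ 1 / 8 := by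
    have h1 : {g : SL2 k | ‖π g F - F‖ < 1 / 8} ∈ nhds (1 : SL2 k) := by
      have hc : Continuous fun g : SL2 k => ‖π g F - F‖ := ((hπ F).sub continuous_const).norm
      refine hc.continuousAt.preimage_mem_nhds (Iio_mem_nhds ?_)
      rw [map_one]
      simp
    obtain ⟨r, hr, hsub⟩ := (hTP k).2.2.2.2.1 _ h1
    refine ⟨min r 1, lt_min hr one_pos, min_le_right _ _, fun u hu => ?_⟩
    exact le_of_lt (hsub (le_trans hu (min_le_left _ _)))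
  obtain ⟨C₂, hC₂, hG⟩ := hGRP k L |C₀| (abs_nonneg _)
  have hφ : ∀ t : k, 0 ≤ ‖(inner ℂ F (π (upp t) F) : ℂ)‖ ∧ ‖(inner ℂ F (π (upp t) F) : ℂ)‖ ≤ 1 ∧
      ‖(inner ℂ F (π (upp t) F) : ℂ)‖ * ‖t‖ ≤ |C₀| := by
    intro t
    refine ⟨norm_nonneg _, ?_, le_trans (hC₀ t) (le_abs_self _)⟩
    calc ‖(inner ℂ F (π (upp t) F) : ℂ)‖ ≤ ‖F‖ * ‖π (upp t) F‖ := norm_inner_le_norm _ _
      _ = 1 := by rw [LinearIsometryEquiv.norm_map, hnorm, one_mul]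
  have hG' := hG (fun t => ‖(inner ℂ F (π (upp t) F) : ℂ)‖) hφ
  have hϑ : 1 < ‖L.ϑ‖ := L.one_lt
  have hϑ0 : 0 < ‖L.ϑ‖ := lt_trans one_pos hϑ
  set D : ℝ := (16 * ‖L.ϑ‖ ^ 2 / r) ^ L.e with hD
  have hD0 : 0 < D := by positivity
  have h16 : 0 < 16 / r := by positivity
  refine ⟨F, hFE, hnorm, 1 + 16 / r + C₂ + C₂ * D, ?_, ?_⟩
  · have := mul_pos hC₂ hD0
    linarith
  intro δ hδ hCδ
  have hCD := mul_pos hC₂ hD0
  have hδ16 : 16 / r * δ ≤ 1 := by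
    refine le_trans ?_ hCδ
    apply mul_le_mul_of_nonneg_right _ hδ.le
    linarith
  have hX : 1 ≤ r / (16 * δ) := by
    rw [le_div_iff₀ (by positivity), one_mul]
    have h1 : 16 / r * δ * r ≤ 1 * r := mul_le_mul_of_nonneg_right hδ16 hr0.le
    have h2 : 16 / r * δ * r = 16 * δ := by
      field_simp
    linarith
  have hϑ2 : 1 < ‖L.ϑ‖ ^ 2 := one_lt_pow₀ hϑ two_ne_zero
  obtain ⟨m, hm1, hm2⟩ := exists_nat_pow_near hX hϑ2
  obtain ⟨θ, hθd⟩ : ∃ θ : k, θ = L.ϑ ^ m := ⟨_, rfl⟩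
  have hθn : ‖θ‖ ^ 2 = (‖L.ϑ‖ ^ 2) ^ m := by
    rw [hθd, norm_pow, ← pow_mul, ← pow_mul, mul_comm]
  have hθ1 : 1 ≤ ‖θ‖ := by
    rw [hθd, norm_pow]
    exact one_le_pow₀ hϑ.le
  have hθ0 : θ ≠ 0 := by
    intro h0
    rw [h0, norm_zero] at hθ1
    linarith
  have hR1 : 1 ≤ ‖θ‖ ^ 2 := one_le_pow₀ hθ1
  have hRle : ‖θ‖ ^ 2 ≤ r / (16 * δ) := by
    rw [hθn]
    exact hm1
  have hRge : r / (16 * δ) < ‖L.ϑ‖ ^ 2 * ‖θ‖ ^ 2 := by
    rw [hθn, ← pow_succ']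
    exact hm2
  obtain ⟨Z, hZ1, hZ2, hZ3⟩ := hG' (‖θ‖ ^ 2) hR1
  let en := Z.equivFin.symm
  refine ⟨Z.card, fun j => WPK_b θ hθ0 (en j : k), ?_, ?_, ?_⟩
  · -- the number of packets
    have h1 : 1 ≤ (16 * ‖L.ϑ‖ ^ 2 / r) * δ * ‖θ‖ ^ 2 := by
      have h2 : r / (16 * δ) * (16 * δ / r) ≤ ‖L.ϑ‖ ^ 2 * ‖θ‖ ^ 2 * (16 * δ / r) :=
        mul_le_mul_of_nonneg_right hRge.le (by positivity)
      have h3 : r / (16 * δ) * (16 * δ / r) = 1 := by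
        field_simp
      have h4 : ‖L.ϑ‖ ^ 2 * ‖θ‖ ^ 2 * (16 * δ / r) = (16 * ‖L.ϑ‖ ^ 2 / r) * δ * ‖θ‖ ^ 2 := by
        ring
      linarith
    have h2 : 1 ≤ D * δ ^ L.e * (‖θ‖ ^ 2) ^ L.e := by
      rw [hD, ← mul_pow, ← mul_pow]
      exact one_le_pow₀ h1
    have h3 : D * δ ^ L.e * (‖θ‖ ^ 2) ^ L.e ≤ D * δ ^ L.e * (C₂ * Z.card) :=
      mul_le_mul_of_nonneg_left hZ1 (by positivity)
    have h4 : D * δ ^ L.e * (C₂ * Z.card) ≤ (1 + 16 / r + C₂ + C₂ * D) * Z.card * δ ^ L.e := by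
      have h5 : D * δ ^ L.e * (C₂ * Z.card) = (C₂ * D) * ((Z.card : ℝ) * δ ^ L.e) := by ring
      have h6 : (1 + 16 / r + C₂ + C₂ * D) * Z.card * δ ^ L.e =
          (1 + 16 / r + C₂ + C₂ * D) * ((Z.card : ℝ) * δ ^ L.e) := by ring
      rw [h5, h6]
      apply mul_le_mul_of_nonneg_right _ (by positivity)
      linarith
    linarith
  · -- smoothness
    intro j s hs
    rw [WPK_smooth]
    apply hr
    have hz : ‖((en j : Z) : k)‖ ≤ ‖θ‖ ^ 2 := hZ2 _ (en j).2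
    have h1 := WPK_b_nm θ hθ0 hθ1 _ hz
    have h2 := WPK_conj (WPK_b θ hθ0 (en j : k)) s
    have h3 := nm_nonneg (WPK_b θ hθ0 (en j : k))
    have h4 := dnm_nonneg s
    calc _ ≤ 4 * nm (WPK_b θ hθ0 (en j : k)) ^ 2 * dnm s := h2
      _ ≤ 4 * ‖θ‖ ^ 2 * δ := by gcongr
      _ ≤ 4 * (r / (16 * δ)) * δ := by gcongr
      _ = r / 4 := by
        field_simp
        norm_num
      _ ≤ r := by linarith
  · -- almost orthogonality
    have h1 : ∑ i : Fin Z.card, ∑ j : Fin Z.card,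
        ‖(inner ℂ (π (WPK_b θ hθ0 (en i : k)) F) (π (WPK_b θ hθ0 (en j : k)) F) : ℂ)‖ ^ 2 =
        ∑ z ∈ Z, ∑ z' ∈ Z, ‖(inner ℂ F (π (upp (z - z')) F) : ℂ)‖ ^ 2 := by
      simp_rw [WPK_inner]
      rw [Finset.sum_comm]
      rw [Equiv.sum_comp en (fun a : Z => ∑ i : Fin Z.card,
        ‖(inner ℂ F (π (upp ((a : k) - (en i : k))) F) : ℂ)‖ ^ 2)]
      rw [← Finset.sum_coe_sort Z]
      refine Finset.sum_congr rfl fun a _ => ?_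
      rw [Equiv.sum_comp en (fun b : Z => ‖(inner ℂ F (π (upp ((a : k) - (b : k))) F) : ℂ)‖ ^ 2)]
      rw [← Finset.sum_coe_sort Z]
    rw [h1]
    refine le_trans hZ3 ?_
    have h2 : Real.log (‖θ‖ ^ 2) ≤ Real.log (1 / δ) := by
      apply Real.log_le_log (by positivity)
      refine le_trans hRle ?_
      rw [div_le_div_iff₀ (by positivity) hδ]
      nlinarith
    have h3 : 0 ≤ Real.log (‖θ‖ ^ 2) := Real.log_nonneg hR1
    have h5 : C₂ ≤ 1 + 16 / r + C₂ + C₂ * D := by linarith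
    have h6 : (0 : ℝ) ≤ Z.card := Nat.cast_nonneg _
    have h7 : 0 ≤ 1 + 16 / r + C₂ + C₂ * D := by linarith
    gcongr

end Pool.PQ
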