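import Pool.Agent.Work.MP_972ac7_P.Defs2
import Pool.Agent.Work.MP_972ac7_P.Interface1

set_option autoImplicit false

/-! # THEOREM PP (MP_972ac7_al): lattices in products of `SL2` over arbitrary local fields of
characteristic zero.  Definitions. -/

open MeasureTheory NumberField IsDedekindDomain
open scoped Quaternion ENNReal

noncomputable section

namespace Pool.PQ

open Pool.PL Pool.TFD Pool.TC

/-! ## Local fields -/

/-- Local field data (real, complex or nonarchimedean): `‖·‖ ^ e` is the normalized absolute value.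
The fields say that a ball of radius `r` has volume about `r ^ e`. -/
structure LG (k : Type) [NormedField k] where
  e : ℕ
  he : e = 1 ∨ e = 2
  C : ℝ
  one_le : 1 ≤ C
  ϑ : k
  one_lt : 1 < ‖ϑ‖
  two_ne : (2 : k) ≠ 0
  sep_le : ∀ (r : ℝ) (c : k) (Z : Finset k), 1 ≤ r → (∀ z ∈ Z, ‖z - c‖ ≤ r) →
    (∀ z ∈ Z, ∀ z' ∈ Z, z ≠ z' → 1 ≤ ‖z - z'‖) → (Z.card : ℝ) ≤ C * r ^ e
  sep_ge : ∀ R : ℝ, 1 ≤ R → ∃ Z : Finset k, (∀ z ∈ Z, ‖z‖ ≤ R) ∧
    (∀ z ∈ Z, ∀ z' ∈ Z, z ≠ z' → 1 ≤ ‖z - z'‖) ∧ R ^ e ≤ C * Z.card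
  cov : ∀ r : ℝ, 0 < r → r ≤ 1 → ∃ (N : ℕ) (cl : k → Fin N), (N : ℝ) * r ^ e ≤ C ∧
    ∀ x y : k, ‖x‖ ≤ 1 → ‖y‖ ≤ 1 → cl x = cl y → ‖x - y‖ ≤ r

section mats

variable {k : Type} [NormedField k]

theorem mnm_add_le2 (m m' : Matrix (Fin 2) (Fin 2) k) : mnm (m + m') ≤ mnm m + mnm m' := by
  rw [mnm_le]
  intro i j
  exact le_trans (norm_add_le _ _) (add_le_add (le_mnm m i j) (le_mnm m' i j))

theorem mnm_mul_le2 (m m' : Matrix (Fin 2) (Fin 2) k) : mnm (m * m') ≤ 2 * (mnm m * mnm m') := by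
  rw [mnm_le]
  intro i j
  rw [Matrix.mul_apply, Fin.sum_univ_two]
  have h : ∀ l, ‖m i l * m' l j‖ ≤ mnm m * mnm m' := fun l => by
    rw [norm_mul]
    exact mul_le_mul (le_mnm m i l) (le_mnm m' l j) (norm_nonneg _) (mnm_nonneg m)
  calc ‖m i 0 * m' 0 j + m i 1 * m' 1 j‖ ≤ ‖m i 0 * m' 0 j‖ + ‖m i 1 * m' 1 j‖ := norm_add_le _ _
    _ ≤ mnm m * mnm m' + mnm m * mnm m' := add_le_add (h 0) (h 1)
    _ = _ := by ring

theorem nm_mul_le2 (g h : SL2 k) : nm (g * h) ≤ 2 * (nm g * nm h) := by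
  unfold nm
  rw [Matrix.SpecialLinearGroup.coe_mul]
  exact mnm_mul_le2 _ _

theorem nm_nonneg (g : SL2 k) : 0 ≤ nm g := mnm_nonneg _

theorem dnm_nonneg (g : SL2 k) : 0 ≤ dnm g := mnm_nonneg _

end mats

/-! ## Products -/

section prod

variable {ι : Type} {k : ι → Type} [∀ i, NormedField (k i)]

/-- the set of the elements counted -/
def cs (L : ∀ i, LG (k i)) (Γ : Subgroup (GG k)) (W v : ι) (R : ℝ) (g : GG k) (Q Y : ℝ) : Set Γ :=
  {γ | dnm ((g * γ * g⁻¹ : GG k) v) ^ (L v).e * Q ≤ 1 ∧ nm ((g * γ * g⁻¹ : GG k) W) ^ (L W).e ≤ Y ∧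
    ∀ u, u ≠ v → u ≠ W → nm ((g * γ * g⁻¹ : GG k) u) ≤ R}

/-- A cocompact subgroup with the counting property. -/
structure LatG (L : ∀ i, LG (k i)) (Γ : Subgroup (GG k)) : Prop where
  cpt : ∃ R : ℝ, ∀ g : GG k, ∃ γ ∈ Γ, ∀ i, nm ((g * γ : GG k) i) ≤ R
  count : ∀ W v : ι, W ≠ v → ∀ R : ℝ, ∃ C : ℝ, 0 < C ∧ ∀ g : GG k, (∀ i, nm (g i) ≤ R) →
    ∀ Q Y : ℝ, 1 ≤ Q → 1 ≤ Y → (cs L Γ W v R g Q Y).Finite ∧
    (Nat.card (cs L Γ W v R g Q Y) : ℝ) ≤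
      C * (1 + (Y / Q) ^ (5 / 3 : ℝ) * (1 + Y / Q ^ 2))

/-- the product over the indices different from `W` -/
abbrev BB (k : ι → Type) [∀ i, NormedField (k i)] (W : ι) : Type :=
  GG (fun i : {i : ι // i ≠ W} => k i.1)

/-- the inclusion of the product over the indices different from `W` -/
def jB [DecidableEq ι] (k : ι → Type) [∀ i, NormedField (k i)] (W : ι) : BB k W →* GG k :=
  (splitE k W).symm.toMonoidHom.comp (MonoidHom.inr (SL2 (k W)) (BB k W))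

/-- a small neighbourhood: level `δ` at `v`, level `r` at the other places -/
def UU (k : ι → Type) [∀ i, NormedField (k i)] [DecidableEq ι] (W v : ι) (r δ : ℝ) :
    Set (BB k W) := {b | ∀ i, dnm (b i) ≤ if i.1 = v then δ else r}

end prod

/-! ## The quotient -/

section quot

variable {G : Type} [Group G]

/-- the sum over the coset -/
def sG (Γ : Subgroup G) (φ : G → ℝ≥0∞) (x : G ⧸ Γ) : ℝ≥0∞ := ∑' γ : Γ, φ (Quotient.out x * γ)

theorem sG_mk (Γ : Subgroup G) (φ : G → ℝ≥0∞) (g : G) :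
    sG Γ φ (g : G ⧸ Γ) = ∑' γ : Γ, φ (g * γ) := by
  obtain ⟨δ, hδ⟩ := QuotientGroup.mk_out_eq_mul Γ g
  unfold sG
  have h1 : ∀ γ : Γ, Quotient.out (g : G ⧸ Γ) * (γ : G) = g * ((δ * γ : Γ) : G) := fun γ => by
    rw [hδ, Subgroup.coe_mul, mul_assoc]
  calc ∑' γ : Γ, φ (Quotient.out (g : G ⧸ Γ) * γ) = ∑' γ : Γ, φ (g * ((δ * γ : Γ) : G)) := by
        simp_rw [h1]
    _ = ∑' γ : Γ, φ (g * γ) := (Equiv.mulLeft δ).tsum_eq (fun γ : Γ => φ (g * γ))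

/-- Quotient data: the Haar measure `μ`, the invariant probability measure `m` on `G ⧸ Γ` and the
formula of Weil. -/
structure QD [TopologicalSpace G] [MeasurableSpace G] (Γ : Subgroup G) (μ : Measure G)
    (m : Measure (G ⧸ Γ)) (c : ℝ≥0∞) : Prop where
  haar : μ.IsHaarMeasure
  right : μ.IsMulRightInvariant
  inv : μ.IsInvInvariant
  cnt : Countable Γ
  disc : DiscreteTopology Γ
  prob : IsProbabilityMeasure m
  pres : ∀ g : G, MeasurePreserving (fun x : G ⧸ Γ => g • x) m m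
  ne : c ≠ ∞
  pos : c ≠ 0
  weil : ∀ φ : G → ℝ≥0∞, Measurable φ → ∫⁻ g, φ g ∂μ = c * ∫⁻ x, sG Γ φ x ∂m

/-- The unitary representation of `G` on `L²(G ⧸ Γ)`, strongly continuous. -/
structure KP [TopologicalSpace G] [MeasurableSpace G] {Γ : Subgroup G} (m : Measure (G ⧸ Γ))
    (π : G →* (Lp ℂ 2 m ≃ₗᵢ[ℂ] Lp ℂ 2 m)) : Prop where
  ae : ∀ (g : G) (f : Lp ℂ 2 m), ⇑(π g f) =ᵐ[m] fun x => f (g⁻¹ • x)
  cont : ∀ f : Lp ℂ 2 m, Continuous fun g => π g f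

/-- `R` is the weak integral of the representation with respect to `ν`. -/
def WI {H : Type} [NormedAddCommGroup H] [InnerProductSpace ℂ H] [MeasurableSpace G]
    (π : G →* (H ≃ₗᵢ[ℂ] H)) (ν : Measure G) (R : H →L[ℂ] H) : Prop :=
  ∀ f f' : H, (inner ℂ f' (R f) : ℂ) = ∫ g, (inner ℂ f' (π g f) : ℂ) ∂ν

/-- `R` is dominated by the measure `ν`. -/
def Dom [MeasurableSpace G] {Γ : Subgroup G} (m : Measure (G ⧸ Γ))
    (R : Lp ℂ 2 m →L[ℂ] Lp ℂ 2 m) (ν : Measure G) : Prop :=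
  ∀ f : Lp ℂ 2 m, ∀ᵐ x ∂m, ‖(R f) x‖ₑ ≤ ∫⁻ g, ‖f (g⁻¹ • x)‖ₑ ∂ν

/-- the convolution -/
def cv [MeasurableSpace G] (ν₁ ν₂ : Measure G) : Measure G := (ν₁.prod ν₂).map fun p => p.1 * p.2

/-- the averaging operator -/
def PP [MeasurableSpace G] (μ : Measure G) (τ φ : G → ℝ≥0∞) (z : G) : ℝ≥0∞ :=
  ∫⁻ u, φ (z * u) * τ u ∂μ

/-- the Gram matrix of the vectors `f j` is at most `Λ` -/
def GrLe {H : Type} [NormedAddCommGroup H] [InnerProductSpace ℂ H] {J : ℕ} (f : Fin J → H)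
    (Λ : ℝ) : Prop := ∀ c : Fin J → ℂ, ‖∑ j, c j • f j‖ ^ 2 ≤ Λ * ∑ j, ‖c j‖ ^ 2

end quot

/-- A Hecke density on `SL2 k`. -/
structure Hk {k : Type} [NormedField k] (L : LG k) (μ : Measure (SL2 k)) (τ : SL2 k → ℝ≥0∞)
    (R ρ : ℝ) : Prop where
  meas : Measurable τ
  sym : ∀ u, τ u⁻¹ = τ u
  int : ∫⁻ u, τ u ∂μ = 1
  supp : ∀ u, τ u ≠ 0 → nm u ^ L.e ≤ R
  bdd : ∃ C : ℝ, ∀ u, τ u ≤ ENNReal.ofReal C
  avg : ∀ z, ∫⁻ u, ENNReal.ofReal ((nm (z * u) ^ L.e)⁻¹) * τ u ∂μ ≤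
    ENNReal.ofReal (ρ * (nm z ^ L.e)⁻¹)
  pos : 0 < ρ
  one_le : 1 ≤ R
  num : (2 * ρ) ^ 44 * (2 ^ L.e * R) ^ 43 ≤ 1

/-! ## Arithmetic -/

section arith

variable {F : Type} [Field F] [NumberField F]

variable (F) in
/-- the places -/
abbrev Plc : Type := HeightOneSpectrum (𝓞 F) ⊕ InfinitePlace F

/-- the normalized absolute value -/
def nv : Plc F → F → ℝ
  | .inl w, x => av w x
  | .inr w, x => w x ^ w.mult

/-- the product of the normalized archimedean absolute values -/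
def N2 (x : F) : ℝ := ∏ w : InfinitePlace F, w x ^ w.mult

/-- the factor at `v` if `v` is finite -/
def fac (v : Plc F) (κ : ℝ) : ℝ := match v with
  | .inl _ => κ
  | .inr _ => 1

/-- bounded at all archimedean places and at `v` -/
def bd (v : Plc F) (β : InfinitePlace F → ℝ) (κ : ℝ) (x : F) : Prop :=
  (∀ w : InfinitePlace F, w x ^ w.mult ≤ β w) ∧
    ∀ w : HeightOneSpectrum (𝓞 F), v = .inl w → av w x ≤ κ

/-- the volume of the box -/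
def vol (v : Plc F) (β : InfinitePlace F → ℝ) (κ : ℝ) : ℝ := (∏ w, β w) * fac v κ

/-- the embedding at `w` is complex, or real with `c > 0` -/
def PosAt (w : InfinitePlace F) (c : F) : Prop :=
  ∀ h : w.IsReal, 0 < InfinitePlace.embedding_of_isReal h c

/-- the cell property of the conics `c₁ x² + c₂ y² = μ` at the archimedean place `w` -/
def Cell (w : InfinitePlace F) (c₁ c₂ : F) : Prop :=
  ∃ C : ℝ, 0 < C ∧ ∀ (μ : F) (β K : ℝ), 0 < β → 1 ≤ K → ∃ (N : ℕ) (cl : F × F → Fin N),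
    (N : ℝ) ≤ C * K ∧ ∀ p p' p'' : F × F, c₁ * p.1 ^ 2 + c₂ * p.2 ^ 2 = μ →
    c₁ * p'.1 ^ 2 + c₂ * p'.2 ^ 2 = μ → c₁ * p''.1 ^ 2 + c₂ * p''.2 ^ 2 = μ →
    w p.1 ^ w.mult ≤ β → w p.2 ^ w.mult ≤ β → w p'.1 ^ w.mult ≤ β → w p'.2 ^ w.mult ≤ β →
    w p''.1 ^ w.mult ≤ β → w p''.2 ^ w.mult ≤ β → cl p = cl p' → cl p = cl p'' →
    w ((p'.1 - p.1) * (p''.2 - p.2) - (p''.1 - p.1) * (p'.2 - p.2)) ^ w.mult * K ^ 3 ≤ C * β ^ 2

/-- the coordinates of `z` in `k` have norm at most `c` -/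
def CE {k : Type} [NormedField k] (e : F →+* k) {a b : F} (z : ℍ[F, a, b]) (c : ℝ) : Prop :=
  ‖e z.re‖ ≤ c ∧ ‖e z.imI‖ ≤ c ∧ ‖e z.imJ‖ ≤ c ∧ ‖e z.imK‖ ≤ c

/-- The arithmetic data: a number field `F`, a quaternion division algebra `(a, b)`, an integer `n`,
and the set `ι` of all split places which are archimedean or divide `n`. -/
structure Cx (F : Type) [Field F] [NumberField F] (ι : Type) (k : ι → Type)
    [∀ i, NormedField (k i)] where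
  a : 𝓞 F
  b : 𝓞 F
  n : 𝓞 F
  dv : ∀ z : ℍ[F, (a : F), (b : F)], nrq z = 0 → z = 0
  hn : n ≠ 0
  pl : ι → Plc F
  inj : Function.Injective pl
  e : ∀ i, F →+* k i
  L : ∀ i, LG (k i)
  he : ∀ i x, ‖e i x‖ ^ (L i).e = nv (pl i) x
  x : ∀ i, k i
  y : ∀ i, k i
  spl : ∀ i, x i ^ 2 - e i (a : F) * y i ^ 2 = e i (b : F)
  div : ∀ i w, pl i = .inl w → n ∈ w.asIdeal
  nsp : ∀ w : HeightOneSpectrum (𝓞 F), n ∈ w.asIdeal → (∀ i, pl i ≠ .inl w) →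
    ∃ C : ℝ, ∀ z : ℍ[F, (a : F), (b : F)], nrq z = 1 → CB w z C
  nsi : ∀ w : InfinitePlace F, (∀ i, pl i ≠ .inr w) → ∃ C : ℝ, ∀ z : ℍ[F, (a : F), (b : F)],
    w z.re ^ 2 ≤ C * w (nrq z) ∧ w z.imI ^ 2 ≤ C * w (nrq z) ∧ w z.imJ ^ 2 ≤ C * w (nrq z) ∧
      w z.imK ^ 2 ≤ C * w (nrq z)

variable {ι : Type} {k : ι → Type} [∀ i, NormedField (k i)]

/-- the matrix at the place `i` -/
def Cx.mt (D : Cx F ι k) (i : ι) (z : ℍ[F, (D.a : F), (D.b : F)]) :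
    Matrix (Fin 2) (Fin 2) (k i) := mq (D.e i) (D.x i) (D.y i) z

/-- the embedding of the norm one group in the product of the groups `SL2 (k i)` -/
def Cx.Th (D : Cx F ι k) : unitary ℍ[F, (D.a : F), (D.b : F)] →* GG k :=
  MonoidHom.pi fun i => th (D.e i) (D.spl i)

/-- the lattice -/
def Cx.Γ (D : Cx F ι k) : Subgroup (GG k) := (GU D.a D.b D.n).map D.Th

/-- `(a, b)` is split at the place `p` -/
def SplitP (a b : 𝓞 F) : Plc F → Prop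
  | .inl w => SplitAt a b w
  | .inr w => ∃ x y : w.Completion, x ^ 2 - algebraMap F w.Completion (a : F) * y ^ 2 =
      algebraMap F w.Completion (b : F)

/-- the place `p` is archimedean or divides `n` -/
def InS (n : 𝓞 F) : Plc F → Prop
  | .inl w => n ∈ w.asIdeal
  | .inr _ => True

end arith

end Pool.PQ
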