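import Pool.Agent.Work.MP_972ac7_Q.Defs

set_option autoImplicit false

/-! # THEOREM PP (MP_972ac7_al): definitions and elementary lemmas for part II (arithmetic) -/

open MeasureTheory NumberField IsDedekindDomain
open scoped Quaternion ENNReal

noncomputable section

namespace Pool.PQ

open Pool.PL Pool.TFD Pool.TC

variable {F : Type} [Field F] [NumberField F]

theorem N2_mul (x y : F) : N2 (x * y) = N2 x * N2 y := by
  unfold N2
  rw [← Finset.prod_mul_distrib]
  exact Finset.prod_congr rfl fun w _ => by rw [map_mul, mul_pow]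

theorem N2_pow (x : F) (n : ℕ) : N2 (x ^ n) = N2 x ^ n := by
  unfold N2
  rw [← Finset.prod_pow]
  exact Finset.prod_congr rfl fun w _ => by rw [map_pow, pow_right_comm]

theorem N2_pos {x : F} (h : x ≠ 0) : 0 < N2 x :=
  Finset.prod_pos fun w _ => pow_pos (InfinitePlace.pos_iff.2 h) _

theorem N2_nonneg (x : F) : 0 ≤ N2 x :=
  Finset.prod_nonneg fun w _ => pow_nonneg (apply_nonneg w x) _

theorem nv_mul (p : Plc F) (x y : F) : nv p (x * y) = nv p x * nv p y := by
  cases p with
  | inl w => exact av_mul w x y
  | inr w => simp only [nv, map_mul, mul_pow]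

theorem nv_nonneg (p : Plc F) (x : F) : 0 ≤ nv p x := by
  cases p with
  | inl w => exact av_nonneg w x
  | inr w => exact pow_nonneg (apply_nonneg w x) _

theorem nv_neg (p : Plc F) (x : F) : nv p (-x) = nv p x := by
  cases p with
  | inl w => exact av_neg w x
  | inr w =>
    simp only [nv]
    rw [show w (-x) = w x from w.1.map_neg x]

theorem mult_le_two (w : InfinitePlace F) : w.mult ≤ 2 := by
  unfold InfinitePlace.mult
  split_ifs <;> norm_num

theorem nv_add_le (p : Plc F) (x y : F) : nv p (x + y) ≤ 4 * max (nv p x) (nv p y) := by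
  cases p with
  | inl w =>
    have h1 := av_add_le w x y
    have h2 : 0 ≤ max (av w x) (av w y) := le_max_of_le_left (av_nonneg w x)
    change av w (x + y) ≤ 4 * max (av w x) (av w y)
    linarith
  | inr w =>
    change w (x + y) ^ w.mult ≤ 4 * max (w x ^ w.mult) (w y ^ w.mult)
    have h1 : w (x + y) ≤ 2 * max (w x) (w y) := by
      have h2 : w (x + y) ≤ w x + w y := w.1.add_le x y
      have h3 := le_max_left (w x) (w y)
      have h4 := le_max_right (w x) (w y)
      linarith
    have h0 : 0 ≤ max (w x) (w y) := le_max_of_le_left (apply_nonneg w x)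
    have h5 : w (x + y) ^ w.mult ≤ (2 * max (w x) (w y)) ^ w.mult :=
      pow_le_pow_left₀ (apply_nonneg w _) h1 _
    have h6 : (2 * max (w x) (w y)) ^ w.mult = 2 ^ w.mult * (max (w x) (w y)) ^ w.mult :=
      mul_pow _ _ _
    have h7 : (2 : ℝ) ^ w.mult ≤ 4 := by
      calc (2 : ℝ) ^ w.mult ≤ 2 ^ 2 := pow_le_pow_right₀ (by norm_num) (mult_le_two w)
        _ = 4 := by norm_num
    have h8 : (max (w x) (w y)) ^ w.mult ≤ max (w x ^ w.mult) (w y ^ w.mult) := by
      rcases le_total (w x) (w y) with h | h
      · rw [max_eq_right h]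
        exact le_max_right _ _
      · rw [max_eq_left h]
        exact le_max_left _ _
    calc w (x + y) ^ w.mult ≤ 2 ^ w.mult * (max (w x) (w y)) ^ w.mult := h6 ▸ h5
      _ ≤ 4 * max (w x ^ w.mult) (w y ^ w.mult) :=
        mul_le_mul h7 h8 (pow_nonneg h0 _) (by norm_num)

/-- the coefficients of the norm form -/
def dq (a b : 𝓞 F) : Fin 4 → 𝓞 F := ![1, -a, -b, a * b]

/-- the coordinates of a quaternion -/
def co {a b : F} (z : ℍ[F, a, b]) : Fin 4 → F := ![z.re, z.imI, z.imJ, z.imK]

/-- the completion at the place `p` -/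
def KC : Plc F → Type
  | .inl w => w.adicCompletion F
  | .inr w => w.Completion

instance instKC (p : Plc F) : NormedField (KC p) :=
  match p with
  | .inl w => inferInstanceAs (NormedField (w.adicCompletion F))
  | .inr w => inferInstanceAs (NormedField w.Completion)

end Pool.PQ
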